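import Pool.Agent.Lib_helper3.FGP.Wanted
import Pool.Agent.Lib_helper99.NZ.E

set_option autoImplicit false

namespace Pool.Agent.FGP

open Finset Pool.Agent.Var35 Pool.Agent.Var73 Pool.Agent.PV
open scoped ArithmeticFunction ArithmeticFunction.Moebius
open Filter Topology

theorem WSC_pr : WSC := by
  obtain ⟨Z₀, h⟩ := Pool.Agent.NZ.near_zero
  refine ⟨Z₀, fun Z hZ => ?_⟩
  obtain ⟨N, h1, h2, h3⟩ := h Z hZ
  refine ⟨N, h1, ?_, h3⟩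
  have e : (Z : ℝ) ^ (40 : ℝ) = Z ^ (40 : ℕ) := by
    rw [← Real.rpow_natCast]
    norm_num
  rw [e]
  exact h2

theorem p19_id (X : ℝ) (Q : ℕ) (hQ : 1 ≤ Q) : GV X Q - PV0 X Q = VV ⌊X⌋₊ Q := by
  unfold GV PV0
  exact fin_ident ⌊X⌋₊ Q X hQ

theorem p19_MTQ (X : ℝ) (Q : ℕ) (hQ : Q.Prime) : MTQ X Q =
    X * (Real.log Q - Real.eulerMascheroniConstant - Real.log (2 * Real.pi)) -
      X * (Real.log Q / ((Q : ℝ) - 1)) := by
  unfold MTQ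
  rw [hQ.primeFactors, sum_singleton]
  ring

/-- facts for large `X` -/
theorem p19_X (η δ : ℝ) (hη : 0 < η) (hδ : 0 < δ) (N0 : ℕ) : ∃ X₁ : ℝ, ∀ X : ℝ, X₁ ≤ X →
    100 ≤ X ∧ (N0 : ℝ) + 1 ≤ X ∧ X ^ (3 / 4 : ℝ) + 2 ≤ X ^ (59 / 60 : ℝ) ∧
    Real.log X ≤ η * X ^ (1 / 32 : ℝ) ∧ Real.log X + 10 + 4 * (X ^ (1 / 60 : ℝ) * Real.log X) ≤ δ * X ∧
    Real.log X ≤ X ^ (1 / 8 : ℝ) ∧ 32 / η ≤ X ^ (1 / 8 : ℝ) := by
  have e7 : ∀ᶠ X : ℝ in atTop, Real.log X ≤ X ^ (1 / 8 : ℝ) := by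
    have := (isLittleO_log_rpow_atTop (show (0 : ℝ) < 1 / 8 by norm_num)).bound one_pos
    filter_upwards [this, eventually_ge_atTop (1 : ℝ)] with x hx h1
    rw [one_mul, Real.norm_of_nonneg (Real.log_nonneg h1), Real.norm_of_nonneg (by positivity)] at hx
    exact hx
  have e8 : ∀ᶠ X : ℝ in atTop, 32 / η ≤ X ^ (1 / 8 : ℝ) :=
    (tendsto_rpow_atTop (by norm_num)).eventually_ge_atTop _
  have e1 : ∀ᶠ X : ℝ in atTop, 100 ≤ X := eventually_ge_atTop _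
  have e2 : ∀ᶠ X : ℝ in atTop, (N0 : ℝ) + 1 ≤ X := eventually_ge_atTop _
  have e3 : ∀ᶠ X : ℝ in atTop, 3 ≤ X ^ (59 / 60 - 3 / 4 : ℝ) :=
    (tendsto_rpow_atTop (by norm_num)).eventually_ge_atTop _
  have e4 : ∀ᶠ X : ℝ in atTop, Real.log X ≤ η * X ^ (1 / 32 : ℝ) := by
    have := (isLittleO_log_rpow_atTop (show (0 : ℝ) < 1 / 32 by norm_num)).bound hη
    filter_upwards [this, eventually_ge_atTop (1 : ℝ)] with x hx h1
    rw [Real.norm_of_nonneg (Real.log_nonneg h1), Real.norm_of_nonneg (by positivity)] at hx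
    exact hx
  have e5 : ∀ᶠ X : ℝ in atTop, Real.log X ≤ δ / 16 * X ^ (1 / 2 : ℝ) := by
    have := (isLittleO_log_rpow_atTop (show (0 : ℝ) < 1 / 2 by norm_num)).bound
      (show (0 : ℝ) < δ / 16 by positivity)
    filter_upwards [this, eventually_ge_atTop (1 : ℝ)] with x hx h1
    rw [Real.norm_of_nonneg (Real.log_nonneg h1), Real.norm_of_nonneg (by positivity)] at hx
    exact hx
  have e6 : ∀ᶠ X : ℝ in atTop, 40 / δ ≤ X := eventually_ge_atTop _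
  obtain ⟨X₁, hX₁⟩ := eventually_atTop.1
    (e1.and (e2.and (e3.and (e4.and (e5.and (e6.and (e7.and e8)))))))
  refine ⟨X₁, fun X hX => ?_⟩
  obtain ⟨a1, a2, a3, a4, a5, a6, a7, a8⟩ := hX₁ X hX
  have hX0 : 0 < X := by linarith
  have hX1 : 1 ≤ X := by linarith
  refine ⟨a1, a2, ?_, a4, ?_, a7, a8⟩
  · have h1 : X ^ (59 / 60 : ℝ) = X ^ (3 / 4 : ℝ) * X ^ (59 / 60 - 3 / 4 : ℝ) := by
      rw [← Real.rpow_add hX0]; norm_num
    have h2 : 1 ≤ X ^ (3 / 4 : ℝ) := Real.one_le_rpow hX1 (by norm_num)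
    rw [h1]
    nlinarith
  · have h1 : X ^ (1 / 60 : ℝ) * Real.log X ≤ X ^ (1 / 2 : ℝ) * (δ / 16 * X ^ (1 / 2 : ℝ)) := by
      have h2 : X ^ (1 / 60 : ℝ) ≤ X ^ (1 / 2 : ℝ) :=
        Real.rpow_le_rpow_of_exponent_le hX1 (by norm_num)
      have h3 : 0 ≤ Real.log X := Real.log_nonneg hX1
      gcongr
    have h2 : X ^ (1 / 2 : ℝ) * X ^ (1 / 2 : ℝ) = X := by
      rw [← Real.rpow_add hX0]; norm_num
    have h3 : X ^ (1 / 2 : ℝ) * (δ / 16 * X ^ (1 / 2 : ℝ)) = δ / 16 * X := by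
      rw [← h2]; ring_nf
      rw [← Real.rpow_natCast, ← Real.rpow_mul (by positivity)]
      ring_nf
      rw [← Real.rpow_natCast, ← Real.rpow_mul (by positivity)]
      norm_num
    have h4 : Real.log X ≤ δ / 16 * X := by
      refine a5.trans ?_
      have : X ^ (1 / 2 : ℝ) ≤ X ^ (1 : ℝ) := Real.rpow_le_rpow_of_exponent_le hX1 (by norm_num)
      rw [Real.rpow_one] at this
      gcongr
    have h5 : 40 ≤ δ * X := by
      rw [div_le_iff₀ hδ] at a6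
      linarith
    rw [h3] at h1
    nlinarith

/-- facts for large `D` -/
theorem p19_D (c B T X₁ : ℝ) (hc : 0 < c) (K0 : ℕ) : ∃ D₀ : ℝ, ∀ D : ℝ, D₀ ≤ D →
    4 ≤ D ∧ T ≤ D ∧ X₁ ≤ D ∧ (K0 : ℝ) + 11 ≤ D ^ (1 / 20 : ℝ) ∧
    65536 * D ^ (1 / 25 : ℝ) + 1 ≤ D ^ (1 / 20 : ℝ) ∧ D ^ B ≤ Real.exp (D ^ c) := by
  have e1 : ∀ᶠ D : ℝ in atTop, 4 ≤ D := eventually_ge_atTop _
  have e2 : ∀ᶠ D : ℝ in atTop, T ≤ D := eventually_ge_atTop _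
  have e3 : ∀ᶠ D : ℝ in atTop, X₁ ≤ D := eventually_ge_atTop _
  have e4 : ∀ᶠ D : ℝ in atTop, (K0 : ℝ) + 11 ≤ D ^ (1 / 20 : ℝ) :=
    (tendsto_rpow_atTop (by norm_num)).eventually_ge_atTop _
  have e5 : ∀ᶠ D : ℝ in atTop, 65537 ≤ D ^ (1 / 20 - 1 / 25 : ℝ) :=
    (tendsto_rpow_atTop (by norm_num)).eventually_ge_atTop _
  have e6 : ∀ᶠ D : ℝ in atTop, Real.log D ≤ 1 / (|B| + 1) * D ^ c := by
    have := (isLittleO_log_rpow_atTop hc).bound (show (0 : ℝ) < 1 / (|B| + 1) by positivity)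
    filter_upwards [this, eventually_ge_atTop (1 : ℝ)] with x hx h1
    rw [Real.norm_of_nonneg (Real.log_nonneg h1), Real.norm_of_nonneg (by positivity)] at hx
    exact hx
  obtain ⟨D₀, hD₀⟩ := eventually_atTop.1 (e1.and (e2.and (e3.and (e4.and (e5.and e6)))))
  refine ⟨D₀, fun D hD => ?_⟩
  obtain ⟨a1, a2, a3, a4, a5, a6⟩ := hD₀ D hD
  have hD0 : 0 < D := by linarith
  have hD1 : 1 ≤ D := by linarith
  refine ⟨a1, a2, a3, a4, ?_, ?_⟩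
  · have h1 : D ^ (1 / 20 : ℝ) = D ^ (1 / 25 : ℝ) * D ^ (1 / 20 - 1 / 25 : ℝ) := by
      rw [← Real.rpow_add hD0]; norm_num
    have h2 : 1 ≤ D ^ (1 / 25 : ℝ) := Real.one_le_rpow hD1 (by norm_num)
    rw [h1]
    nlinarith
  · rw [Real.rpow_def_of_pos hD0]
    apply Real.exp_le_exp.2
    have h1 : 0 ≤ Real.log D := Real.log_nonneg hD1
    have h2 : B ≤ |B| + 1 := (le_abs_self B).trans (by linarith)
    have h3 : (|B| + 1) * Real.log D ≤ D ^ c := by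
      have h4 : (0 : ℝ) < |B| + 1 := by positivity
      calc (|B| + 1) * Real.log D ≤ (|B| + 1) * (1 / (|B| + 1) * D ^ c) := by gcongr
        _ = _ := by field_simp
    nlinarith

/-- the setting -/
structure P19S (c B₀ : ℝ) (K0 : ℕ) (D : ℕ) (X Y : ℝ) : Prop where
  hc : 0 < c
  hc1 : c ≤ 1 / 2500
  hB₀ : 1 ≤ B₀
  d1 : (4 : ℝ) ≤ D
  d4 : (K0 : ℝ) + 11 ≤ (D : ℝ) ^ (1 / 20 : ℝ)
  d5 : 65536 * (D : ℝ) ^ (1 / 25 : ℝ) + 1 ≤ (D : ℝ) ^ (1 / 20 : ℝ)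
  x1 : (100 : ℝ) ≤ X
  hX : (D : ℝ) ^ (B₀ + 60) ≤ X
  hX2 : X ≤ Real.exp ((D : ℝ) ^ c)
  hY : X * (D : ℝ) ^ (-c) ≤ Y
  hYX : (2 * (K0 : ℝ) + 2) * Y ≤ X

namespace P19S

variable {c B₀ : ℝ} {K0 D : ℕ} {X Y : ℝ} (h : P19S c B₀ K0 D X Y)
include h

theorem D0 : (0 : ℝ) < D := by linarith [h.d1]

theorem X0 : 0 < X := by linarith [h.x1]

theorem N1 : (⌊X⌋₊ : ℝ) ≤ X := Nat.floor_le h.X0.le

theorem N2 : X < ⌊X⌋₊ + 1 := Nat.lt_floor_add_one X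

theorem N3 : X / 2 ≤ ⌊X⌋₊ := by linarith [h.N2, h.x1]

theorem DX : (D : ℝ) ^ (60 : ℕ) ≤ X := by
  refine le_trans ?_ h.hX
  rw [← Real.rpow_natCast]
  apply Real.rpow_le_rpow_of_exponent_le (by linarith [h.d1])
  push_cast
  linarith [h.hB₀]

theorem Dc : (D : ℝ) ^ c ≤ X ^ (1 / 60 : ℝ) := by
  have h1 : (D : ℝ) ^ c ≤ D := by
    calc (D : ℝ) ^ c ≤ (D : ℝ) ^ (1 : ℝ) :=
          Real.rpow_le_rpow_of_exponent_le (by linarith [h.d1]) (by linarith [h.hc1])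
      _ = D := Real.rpow_one _
  refine h1.trans ?_
  have h2 : ((D : ℝ) ^ (60 : ℕ)) ^ (1 / 60 : ℝ) ≤ X ^ (1 / 60 : ℝ) := by
    apply Real.rpow_le_rpow (by positivity) h.DX (by norm_num)
  refine le_trans (le_of_eq ?_) h2
  rw [← Real.rpow_natCast, ← Real.rpow_mul h.D0.le]
  norm_num

theorem Y1 : X ^ (59 / 60 : ℝ) ≤ Y := by
  refine le_trans ?_ h.hY
  rw [Real.rpow_neg h.D0.le, ← div_eq_mul_inv, le_div_iff₀ (Real.rpow_pos_of_pos h.D0 _)]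
  calc X ^ (59 / 60 : ℝ) * (D : ℝ) ^ c ≤ X ^ (59 / 60 : ℝ) * X ^ (1 / 60 : ℝ) := by
        have := h.Dc
        have := Real.rpow_pos_of_pos h.X0 (59 / 60)
        gcongr
    _ = X := by
        rw [← Real.rpow_add h.X0]; norm_num

theorem YX : Y ≤ X := by
  have h1 := h.hYX
  have h2 : 0 < Y := lt_of_lt_of_le (Real.rpow_pos_of_pos h.X0 _) h.Y1
  have h3 : (0 : ℝ) ≤ K0 := Nat.cast_nonneg _
  nlinarith

theorem Y0 : 0 < Y := lt_of_lt_of_le (Real.rpow_pos_of_pos h.X0 _) h.Y1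

theorem Y10 : 10 ≤ Y := by
  refine le_trans ?_ h.Y1
  have h1 : (100 : ℝ) ^ (59 / 60 : ℝ) ≤ X ^ (59 / 60 : ℝ) :=
    Real.rpow_le_rpow (by norm_num) h.x1 (by norm_num)
  refine le_trans ?_ h1
  have h2 : (10 : ℝ) = (100 : ℝ) ^ (1 / 2 : ℝ) := by
    rw [← Real.sqrt_eq_rpow, show (100 : ℝ) = 10 ^ 2 by norm_num, Real.sqrt_sq (by norm_num)]
  rw [h2]
  exact Real.rpow_le_rpow_of_exponent_le (by norm_num) (by norm_num)

theorem Yf1 : (⌊Y⌋₊ : ℝ) ≤ Y := Nat.floor_le h.Y0.le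

theorem Yf2 : Y / 2 ≤ ⌊Y⌋₊ := by
  have := Nat.lt_floor_add_one Y
  linarith [h.Y10]

/-- the parameter `K` -/
theorem Kf1 : (⌊(D : ℝ) ^ (1 / 20 : ℝ)⌋₊ : ℝ) ≤ (D : ℝ) ^ (1 / 20 : ℝ) :=
  Nat.floor_le (Real.rpow_nonneg h.D0.le _)

theorem Kf2 : (D : ℝ) ^ (1 / 20 : ℝ) - 1 ≤ (⌊(D : ℝ) ^ (1 / 20 : ℝ)⌋₊ : ℝ) := by
  have := Nat.lt_floor_add_one ((D : ℝ) ^ (1 / 20 : ℝ))
  linarith

theorem K20 : ⌊(D : ℝ) ^ (1 / 20 : ℝ)⌋₊ ^ 20 ≤ D := by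
  have h1 : ((⌊(D : ℝ) ^ (1 / 20 : ℝ)⌋₊ : ℝ)) ^ 20 ≤ ((D : ℝ) ^ (1 / 20 : ℝ)) ^ 20 := by
    have := h.Kf1
    gcongr
  have h2 : ((D : ℝ) ^ (1 / 20 : ℝ)) ^ 20 = D := by
    rw [← Real.rpow_natCast, ← Real.rpow_mul h.D0.le]
    norm_num
  rw [h2] at h1
  exact_mod_cast h1

theorem K25 : (D : ℝ) ^ (1 / 25 : ℝ) * 65536 ≤ (⌊(D : ℝ) ^ (1 / 20 : ℝ)⌋₊ : ℝ) := by
  linarith [h.d5, h.Kf2]

theorem rg : Rg ⌊(D : ℝ) ^ (1 / 20 : ℝ)⌋₊ ⌊X⌋₊ := by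
  refine ⟨?_, ?_, ?_⟩
  · have h1 : (10 : ℝ) ≤ (⌊(D : ℝ) ^ (1 / 20 : ℝ)⌋₊ : ℝ) := by
      have := h.d4
      have := h.Kf2
      have : (0 : ℝ) ≤ K0 := Nat.cast_nonneg _
      linarith
    exact_mod_cast h1
  · have h1 : ⌊(D : ℝ) ^ (1 / 20 : ℝ)⌋₊ ^ 400 ≤ D ^ 20 := by
      calc ⌊(D : ℝ) ^ (1 / 20 : ℝ)⌋₊ ^ 400 = (⌊(D : ℝ) ^ (1 / 20 : ℝ)⌋₊ ^ 20) ^ 20 := by ring
        _ ≤ D ^ 20 := Nat.pow_le_pow_left h.K20 20
    refine h1.trans ?_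
    apply Nat.le_floor
    push_cast
    refine le_trans ?_ h.DX
    exact pow_le_pow_right₀ (by linarith [h.d1]) (by norm_num)
  · have h1 : Real.log (⌊X⌋₊ : ℝ) ≤ (D : ℝ) ^ c := by
      have h2 : Real.log (⌊X⌋₊ : ℝ) ≤ Real.log X :=
        Real.log_le_log (by linarith [h.N3, h.x1]) h.N1
      have h3 : Real.log X ≤ (D : ℝ) ^ c := by
        rw [Real.log_le_iff_le_exp h.X0]; exact h.hX2
      linarith
    have h0 : 0 ≤ Real.log (⌊X⌋₊ : ℝ) := Real.log_natCast_nonneg _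
    have h2 : Real.log (⌊X⌋₊ : ℝ) ^ 100 ≤ ((D : ℝ) ^ c) ^ 100 := by gcongr
    have h3 : ((D : ℝ) ^ c) ^ 100 ≤ (D : ℝ) ^ (1 / 25 : ℝ) := by
      rw [← Real.rpow_natCast, ← Real.rpow_mul h.D0.le]
      apply Real.rpow_le_rpow_of_exponent_le (by linarith [h.d1])
      push_cast
      linarith [h.hc1]
    have h4 : 0 ≤ (D : ℝ) ^ (1 / 25 : ℝ) := Real.rpow_nonneg h.D0.le _
    linarith [h.K25]

theorem DB : (D : ℝ) ^ B₀ ≤ ⌊X⌋₊ := by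
  refine le_trans ?_ h.N3
  rw [le_div_iff₀ (by norm_num)]
  refine le_trans ?_ h.hX
  rw [Real.rpow_add h.D0]
  have h1 : (2 : ℝ) ≤ (D : ℝ) ^ (60 : ℝ) := by
    have h2 : (D : ℝ) ^ (1 : ℝ) ≤ (D : ℝ) ^ (60 : ℝ) :=
      Real.rpow_le_rpow_of_exponent_le (by linarith [h.d1]) (by norm_num)
    rw [Real.rpow_one] at h2
    linarith [h.d1]
  have h3 := Real.rpow_pos_of_pos h.D0 B₀
  gcongr

theorem ry : RY ⌊(D : ℝ) ^ (1 / 20 : ℝ)⌋₊ ⌊X⌋₊ ⌊Y⌋₊ := by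
  refine ⟨?_, Nat.floor_le_floor h.YX, ?_⟩
  · apply Nat.le_floor
    have := h.Y10
    push_cast
    linarith
  · have hDc := Real.rpow_pos_of_pos h.D0 c
    have h1 : (⌊X⌋₊ : ℝ) ≤ 2 * (D : ℝ) ^ c * ⌊Y⌋₊ := by
      have h2 : X ≤ (D : ℝ) ^ c * Y := by
        have h3 := h.hY
        rw [Real.rpow_neg h.D0.le, ← div_eq_mul_inv, div_le_iff₀ hDc] at h3
        linarith
      have h4 := h.Yf2
      calc (⌊X⌋₊ : ℝ) ≤ X := h.N1
        _ ≤ (D : ℝ) ^ c * Y := h2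
        _ ≤ (D : ℝ) ^ c * (2 * ⌊Y⌋₊) := by
            have : Y ≤ 2 * ⌊Y⌋₊ := by linarith
            gcongr
        _ = _ := by ring
    have h2 : (⌊X⌋₊ : ℝ) ^ 16 ≤ (2 * (D : ℝ) ^ c * ⌊Y⌋₊) ^ 16 := by gcongr
    have h3 : ((D : ℝ) ^ c) ^ 16 ≤ (D : ℝ) ^ (1 / 25 : ℝ) := by
      rw [← Real.rpow_natCast, ← Real.rpow_mul h.D0.le]
      apply Real.rpow_le_rpow_of_exponent_le (by linarith [h.d1])
      push_cast
      linarith [h.hc1]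
    have h4 : (⌊X⌋₊ : ℝ) ^ 16 ≤ (⌊Y⌋₊ : ℝ) ^ 16 * (⌊(D : ℝ) ^ (1 / 20 : ℝ)⌋₊ : ℝ) := by
      calc (⌊X⌋₊ : ℝ) ^ 16 ≤ (2 * (D : ℝ) ^ c * ⌊Y⌋₊) ^ 16 := h2
        _ = (⌊Y⌋₊ : ℝ) ^ 16 * (((D : ℝ) ^ c) ^ 16 * 65536) := by ring
        _ ≤ (⌊Y⌋₊ : ℝ) ^ 16 * ((D : ℝ) ^ (1 / 25 : ℝ) * 65536) := by gcongr
        _ ≤ _ := by
            have := h.K25
            gcongr
    exact_mod_cast h4

theorem KY : K0 * ⌊Y⌋₊ ≤ ⌊X⌋₊ := by
  have h1 := h.Yf1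
  have h2 := h.hYX
  have h3 := h.N3
  have h4 : (0 : ℝ) ≤ K0 := Nat.cast_nonneg _
  have h5 := h.Y0
  have h6 : (K0 : ℝ) * ⌊Y⌋₊ ≤ ⌊X⌋₊ := by
    calc (K0 : ℝ) * ⌊Y⌋₊ ≤ K0 * Y := by gcongr
      _ ≤ X / 2 := by nlinarith
      _ ≤ _ := h3
  exact_mod_cast h6

theorem KK0 : K0 ≤ ⌊(D : ℝ) ^ (1 / 20 : ℝ)⌋₊ := by
  have h1 : (K0 : ℝ) ≤ (⌊(D : ℝ) ^ (1 / 20 : ℝ)⌋₊ : ℝ) := by linarith [h.d4, h.Kf2]
  exact_mod_cast h1

theorem logN : Real.log X / 2 ≤ Real.log (⌊X⌋₊ : ℝ) := by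
  have h1 : Real.log X ≤ Real.log ((⌊X⌋₊ : ℝ) ^ 2) := by
    apply Real.log_le_log h.X0
    have := h.N3
    have := h.x1
    nlinarith
  rw [Real.log_pow] at h1
  push_cast at h1
  linarith

theorem logX : 1 ≤ Real.log X := by
  rw [Real.le_log_iff_exp_le h.X0]
  have := Real.exp_one_lt_d9
  linarith [h.x1]

theorem logY : 1 ≤ Real.log Y := by
  rw [Real.le_log_iff_exp_le h.Y0]
  have := Real.exp_one_lt_d9
  linarith [h.Y10]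

theorem logYX : Real.log Y ≤ Real.log X := Real.log_le_log h.Y0 h.YX

theorem sub : QR Y ⊆ QQ ⌊Y⌋₊ := by
  intro Q hQ
  unfold QR at hQ
  rw [mem_filter, mem_Icc] at hQ
  obtain ⟨⟨hQ1, hQ2⟩, hQp, hYQ⟩ := hQ
  unfold QQ
  rw [mem_filter, mem_Ioc]
  have hQ2' : (Q : ℝ) ≤ 2 * Y :=
    le_trans (by exact_mod_cast hQ2) (Nat.floor_le (by linarith [h.Y0]))
  have h1 := h.Yf1
  have h2 := h.Yf2
  refine ⟨⟨?_, ?_⟩, hQp⟩
  · have : (⌊Y⌋₊ : ℝ) < Q := by linarith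
    exact_mod_cast this
  · have : (Q : ℝ) ≤ 4 * ⌊Y⌋₊ := by linarith
    exact_mod_cast this

theorem Qf {Q : ℕ} (hQ : Q ∈ QR Y) : Q.Prime ∧ Y < Q ∧ (Q : ℝ) ≤ 2 * Y := by
  unfold QR at hQ
  rw [mem_filter, mem_Icc] at hQ
  obtain ⟨⟨hQ1, hQ2⟩, hQp, hYQ⟩ := hQ
  exact ⟨hQp, hYQ, le_trans (by exact_mod_cast hQ2) (Nat.floor_le (by linarith [h.Y0]))⟩

theorem term {Q : ℕ} (hQ : Q ∈ QR Y) : |GV X Q - PV0 X Q - MTQ X Q| ≤
    |VV ⌊X⌋₊ Q - SQ ⌊X⌋₊ Q| +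
    |SQ ⌊X⌋₊ Q - (⌊X⌋₊ : ℝ) * (Real.log Q - Real.eulerMascheroniConstant - Real.log (2 * Real.pi))| +
    (Real.log X + 10 + 4 * (X ^ (1 / 60 : ℝ) * Real.log X)) := by
  obtain ⟨hQp, hYQ, hQY⟩ := h.Qf hQ
  have hX0 := h.X0
  have hY0 := h.Y0
  rw [p19_id X Q hQp.one_lt.le, p19_MTQ X Q hQp]
  set N : ℝ := (⌊X⌋₊ : ℝ) with hN
  set L : ℝ := Real.log Q - Real.eulerMascheroniConstant - Real.log (2 * Real.pi) with hL
  have hlX := h.logX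
  have hlY := h.logY
  have hQ0 : (0 : ℝ) < Q := by linarith
  have l1 : Real.log Q ≤ Real.log X + 1 := by
    have h1 : Real.log Q ≤ Real.log (2 * X) := Real.log_le_log hQ0 (by linarith [h.YX])
    rw [Real.log_mul (by norm_num) hX0.ne'] at h1
    have := Real.log_two_lt_d9
    linarith
  have l2 : 0 ≤ Real.log Q := by
    have : Real.log Y ≤ Real.log Q := Real.log_le_log hY0 hYQ.le
    linarith
  have l3 := Real.eulerMascheroniConstant_lt_two_thirds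
  have l4 := Real.one_half_lt_eulerMascheroniConstant
  have l5 : Real.log (2 * Real.pi) ≤ 2 := by
    rw [Real.log_le_iff_le_exp (by positivity)]
    have h1 := Real.pi_lt_d2
    have h2 : (2.7 : ℝ) ^ 2 ≤ Real.exp 2 := by
      have h3 := Real.exp_one_gt_d9
      have h4 : Real.exp 2 = Real.exp 1 ^ 2 := by rw [← Real.exp_nat_mul]; norm_num
      rw [h4]
      gcongr
      linarith
    nlinarith
  have l6 : 0 ≤ Real.log (2 * Real.pi) := Real.log_nonneg (by linarith [Real.pi_gt_three])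
  have hLb : |L| ≤ Real.log X + 4 := by
    rw [abs_le]
    constructor <;> linarith
  have hd : |N * L - X * L| ≤ Real.log X + 4 := by
    rw [← sub_mul, abs_mul]
    have h1 : |N - X| ≤ 1 := by
      rw [abs_le]
      constructor <;> linarith [h.N1, h.N2]
    calc |N - X| * |L| ≤ 1 * |L| := by gcongr
      _ ≤ _ := by linarith
  have hd2 : |X * (Real.log Q / ((Q : ℝ) - 1))| ≤ 4 * (X ^ (1 / 60 : ℝ) * Real.log X) := by
    have hQ1 : (Q : ℝ) / 2 ≤ (Q : ℝ) - 1 := by linarith [h.Y10]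
    have hq1 : 0 < (Q : ℝ) - 1 := by linarith
    rw [abs_of_nonneg (by positivity)]
    have h1 : Real.log Q / ((Q : ℝ) - 1) ≤ 2 * Real.log X / (Y / 2) := by
      apply div_le_div₀ (by linarith) (by linarith) (by linarith) (by linarith)
    have h2 : X / Y ≤ X ^ (1 / 60 : ℝ) := by
      rw [div_le_iff₀ hY0]
      calc X = X ^ (1 / 60 : ℝ) * X ^ (59 / 60 : ℝ) := by
            rw [← Real.rpow_add hX0]; norm_num
        _ ≤ _ := by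
            have := h.Y1
            have := Real.rpow_pos_of_pos hX0 (1 / 60)
            gcongr
    calc X * (Real.log Q / ((Q : ℝ) - 1)) ≤ X * (2 * Real.log X / (Y / 2)) := by gcongr
      _ = 4 * (X / Y * Real.log X) := by field_simp; ring
      _ ≤ _ := by gcongr
  have e : VV ⌊X⌋₊ Q - (X * L - X * (Real.log Q / ((Q : ℝ) - 1))) =
      (VV ⌊X⌋₊ Q - SQ ⌊X⌋₊ Q) + (SQ ⌊X⌋₊ Q - N * L) + ((N * L - X * L) +
        X * (Real.log Q / ((Q : ℝ) - 1))) := by ring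
  rw [e]
  refine (abs_add_le _ _).trans (add_le_add (abs_add_le _ _) ?_)
  refine (abs_add_le _ _).trans ?_
  linarith

theorem yl : (⌊Y⌋₊ : ℝ) / Real.log (⌊Y⌋₊ : ℝ) ≤ 2 * (Y / Real.log Y) := by
  have h1 : Real.log Y / 2 ≤ Real.log (⌊Y⌋₊ : ℝ) := by
    have h1 : Real.log Y ≤ Real.log ((⌊Y⌋₊ : ℝ) ^ 2) := by
      apply Real.log_le_log h.Y0
      have := h.Yf2
      have := h.Y10
      nlinarith
    rw [Real.log_pow] at h1
    push_cast at h1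
    linarith
  have h2 := h.logY
  have h3 := h.Yf1
  have h4 := h.Y0
  rw [← mul_div_assoc, div_le_div_iff₀ (by linarith) (by linarith)]
  nlinarith [mul_le_mul_of_nonneg_left h1 h4.le, mul_le_mul_of_nonneg_right h3 (by linarith : 0 ≤ Real.log Y)]

theorem yN : (⌊Y⌋₊ : ℝ) / Real.log (⌊X⌋₊ : ℝ) ≤ 2 * (Y / Real.log Y) := by
  have h1 := h.logN
  have h2 := h.logY
  have h3 := h.Yf1
  have h4 := h.Y0
  have h5 := h.logYX
  have h6 : Real.log Y / 2 ≤ Real.log (⌊X⌋₊ : ℝ) := by linarith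
  rw [← mul_div_assoc, div_le_div_iff₀ (by linarith) (by linarith)]
  nlinarith [mul_le_mul_of_nonneg_left h6 h4.le, mul_le_mul_of_nonneg_right h3 (by linarith : 0 ≤ Real.log Y)]

theorem yf : 4 ≤ ⌊Y⌋₊ := by
  apply Nat.le_floor
  push_cast
  linarith [h.Y10]

/-- the summation over `Q` -/
theorem total {η C₀ c₀ Cq : ℝ} (hη : 0 < η) (hC₀ : 0 < C₀) (hc₀ : c ≤ c₀ / 2) (hCq : 0 < Cq)
    (hcard : ((QQ ⌊Y⌋₊).card : ℝ) ≤ Cq * (⌊Y⌋₊ / Real.log ⌊Y⌋₊))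
    (h1 : ∑ Q ∈ QQ ⌊Y⌋₊, |VV ⌊X⌋₊ Q - SQ ⌊X⌋₊ Q| ≤ ⌊Y⌋₊ * (⌊X⌋₊ : ℝ) ^ (1 - 1 / 4 / 8 : ℝ))
    (h2 : ∑ Q ∈ QQ ⌊Y⌋₊, |SQ ⌊X⌋₊ Q -
      (⌊X⌋₊ : ℝ) * (Real.log Q - Real.eulerMascheroniConstant - Real.log (2 * Real.pi))| ≤
      (C₀ * Real.exp (-(c₀ * Real.log ⌊X⌋₊ / Real.log D)) * Real.log ⌊X⌋₊ + η / 8) * ⌊X⌋₊ *
        (⌊Y⌋₊ / Real.log ⌊X⌋₊))
    (h3 : Real.log X ≤ η / 4 * X ^ (1 / 32 : ℝ))
    (h4 : Real.log X + 10 + 4 * (X ^ (1 / 60 : ℝ) * Real.log X) ≤ η / (8 * Cq) * X) :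
    ∑ Q ∈ QR Y, |GV X Q - PV0 X Q - MTQ X Q| ≤
      (2 * C₀ * Real.exp (-(c * Real.log X / Real.log D)) * Real.log X + η) * X *
        (Y / Real.log Y) := by
  have hX0 := h.X0
  have hY0 := h.Y0
  have hlX := h.logX
  have hlY := h.logY
  have hlYX := h.logYX
  have hlN := h.logN
  set E : ℝ := Real.exp (-(c * Real.log X / Real.log D)) with hE
  have hE0 : 0 < E := Real.exp_pos _
  have hsub := h.sub
  set e0 : ℝ := Real.log X + 10 + 4 * (X ^ (1 / 60 : ℝ) * Real.log X) with he0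
  have he00 : 0 ≤ e0 := by
    have := Real.rpow_pos_of_pos hX0 (1 / 60)
    have : 0 ≤ X ^ (1 / 60 : ℝ) * Real.log X := by positivity
    linarith
  have hZ : 0 < Y / Real.log Y := by positivity
  -- split
  have s1 : ∑ Q ∈ QR Y, |GV X Q - PV0 X Q - MTQ X Q| ≤
      ∑ Q ∈ QQ ⌊Y⌋₊, |VV ⌊X⌋₊ Q - SQ ⌊X⌋₊ Q| + ∑ Q ∈ QQ ⌊Y⌋₊, |SQ ⌊X⌋₊ Q -
      (⌊X⌋₊ : ℝ) * (Real.log Q - Real.eulerMascheroniConstant - Real.log (2 * Real.pi))| +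
      ((QQ ⌊Y⌋₊).card : ℝ) * e0 := by
    refine (sum_le_sum fun Q hQ => h.term hQ).trans ?_
    refine (sum_le_sum_of_subset_of_nonneg hsub fun Q _ _ => by positivity).trans ?_
    rw [sum_add_distrib, sum_add_distrib, sum_const, nsmul_eq_mul]
  -- first part
  have b1 : (⌊Y⌋₊ : ℝ) * (⌊X⌋₊ : ℝ) ^ (1 - 1 / 4 / 8 : ℝ) ≤ η / 4 * X * (Y / Real.log Y) := by
    have g1 : (⌊X⌋₊ : ℝ) ^ (1 - 1 / 4 / 8 : ℝ) ≤ X ^ (31 / 32 : ℝ) := by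
      have : (1 - 1 / 4 / 8 : ℝ) = 31 / 32 := by norm_num
      rw [this]
      exact Real.rpow_le_rpow (Nat.cast_nonneg _) h.N1 (by norm_num)
    have g2 : X ^ (31 / 32 : ℝ) * Real.log Y ≤ η / 4 * X := by
      calc X ^ (31 / 32 : ℝ) * Real.log Y ≤ X ^ (31 / 32 : ℝ) * (η / 4 * X ^ (1 / 32 : ℝ)) := by
            have := Real.rpow_pos_of_pos hX0 (31 / 32)
            have := hlYX.trans h3
            gcongr
        _ = η / 4 * (X ^ (31 / 32 : ℝ) * X ^ (1 / 32 : ℝ)) := by ring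
        _ = _ := by rw [← Real.rpow_add hX0]; norm_num
    have g3 : X ^ (31 / 32 : ℝ) ≤ η / 4 * X / Real.log Y := by
      rw [le_div_iff₀ (by linarith)]
      exact g2
    calc (⌊Y⌋₊ : ℝ) * (⌊X⌋₊ : ℝ) ^ (1 - 1 / 4 / 8 : ℝ) ≤ Y * (η / 4 * X / Real.log Y) := by
          have := h.Yf1
          have := g1.trans g3
          gcongr
      _ = _ := by ring
  -- second part
  have b2 : (C₀ * Real.exp (-(c₀ * Real.log ⌊X⌋₊ / Real.log D)) * Real.log ⌊X⌋₊ + η / 8) * ⌊X⌋₊ *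
        (⌊Y⌋₊ / Real.log ⌊X⌋₊) ≤ (2 * C₀ * E * Real.log X + η / 4) * X * (Y / Real.log Y) := by
    have hlD : 0 < Real.log D := Real.log_pos (by linarith [h.d1])
    have g1 : Real.exp (-(c₀ * Real.log ⌊X⌋₊ / Real.log D)) ≤ E := by
      rw [hE]
      apply Real.exp_le_exp.2
      apply neg_le_neg
      apply div_le_div_of_nonneg_right _ hlD.le
      have hc := h.hc
      nlinarith
    have g2 : Real.log (⌊X⌋₊ : ℝ) ≤ Real.log X :=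
      Real.log_le_log (by linarith [h.N3, h.x1]) h.N1
    have g3 : 0 ≤ Real.log (⌊X⌋₊ : ℝ) := by linarith
    have g4 := h.yN
    have g5 : 0 ≤ (⌊Y⌋₊ : ℝ) / Real.log ⌊X⌋₊ := by positivity
    have g6 := h.N1
    calc _ ≤ (C₀ * E * Real.log X + η / 8) * X * (2 * (Y / Real.log Y)) := by gcongr
      _ = _ := by ring
  -- third part
  have b3 : ((QQ ⌊Y⌋₊).card : ℝ) * e0 ≤ η / 4 * X * (Y / Real.log Y) := by
    calc ((QQ ⌊Y⌋₊).card : ℝ) * e0 ≤ (Cq * (2 * (Y / Real.log Y))) * (η / (8 * Cq) * X) := by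
          have := h.yl
          have g1 : ((QQ ⌊Y⌋₊).card : ℝ) ≤ Cq * (2 * (Y / Real.log Y)) :=
            hcard.trans (by gcongr)
          gcongr
      _ = _ := by field_simp; ring
  calc _ ≤ η / 4 * X * (Y / Real.log Y) + (2 * C₀ * E * Real.log X + η / 4) * X * (Y / Real.log Y) +
        η / 4 * X * (Y / Real.log Y) :=
        s1.trans (add_le_add (add_le_add (h1.trans b1) (h2.trans b2)) b3)
    _ = (2 * C₀ * E * Real.log X + 3 * η / 4) * X * (Y / Real.log Y) := by ring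
    _ ≤ _ := by
        have : 3 * η / 4 ≤ η := by linarith
        gcongr

/-- the contribution of the principal character at special integers -/
theorem pv0 {N : ℕ} {η : ℝ} (hXN : X = N) (hη : 0 < η)
    (hN : |∑ n ∈ Icc 1 N, ArithmeticFunction.vonMangoldt n - N| ≤ (N : ℝ) ^ (3 / 4 : ℝ))
    (h7 : Real.log X ≤ X ^ (1 / 8 : ℝ)) (h8 : 32 / η ≤ X ^ (1 / 8 : ℝ)) :
    ∑ Q ∈ QR Y, |PV0 X Q| ≤ η * X * (Y / Real.log Y) := by
  have hX0 := h.X0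
  have hY0 := h.Y0
  have hlX := h.logX
  have hlY := h.logY
  have hlYX := h.logYX
  have hX1 : 1 ≤ X := by linarith [h.x1]
  have hXY : X / Y ≤ X ^ (1 / 60 : ℝ) := by
    rw [div_le_iff₀ hY0]
    calc X = X ^ (1 / 60 : ℝ) * X ^ (59 / 60 : ℝ) := by
          rw [← Real.rpow_add hX0]; norm_num
      _ ≤ _ := by
          have := h.Y1
          have := Real.rpow_pos_of_pos hX0 (1 / 60)
          gcongr
  have hterm : ∀ Q ∈ QR Y, |PV0 X Q| ≤ 8 * X ^ (3 / 2 : ℝ) / Y := by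
    intro Q hQ
    obtain ⟨hQp, hYQ, hQY⟩ := h.Qf hQ
    have hQ0 : (0 : ℝ) < Q := by linarith
    have hφ : Y / 2 ≤ (Nat.totient Q : ℝ) := by
      rw [Nat.totient_prime hQp]
      have h10 : 1 ≤ Q := hQp.one_lt.le
      push_cast [Nat.cast_sub h10]
      linarith [h.Y10]
    have hφ0 : (0 : ℝ) < Nat.totient Q := by linarith
    unfold PV0
    rw [hXN, Nat.floor_natCast, ← hXN]
    have h3 := Pool.Agent.NZ.cop_diff N Q hQp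
    have h4 : ((N / Q : ℕ) : ℝ) ≤ X ^ (1 / 60 : ℝ) := by
      refine Nat.cast_div_le.trans ?_
      rw [← hXN]
      refine le_trans ?_ hXY
      apply div_le_div_of_nonneg_left hX0.le hY0 hYQ.le
    have h6 : ((N / Q : ℕ) : ℝ) * Real.log N ≤ X ^ (3 / 4 : ℝ) := by
      rw [← hXN]
      calc ((N / Q : ℕ) : ℝ) * Real.log X ≤ X ^ (1 / 60 : ℝ) * X ^ (1 / 8 : ℝ) := by gcongr
        _ = X ^ (1 / 60 + 1 / 8 : ℝ) := by rw [← Real.rpow_add hX0]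
        _ ≤ _ := Real.rpow_le_rpow_of_exponent_le hX1 (by norm_num)
    rw [← hXN] at hN
    have h7 : |(∑ n ∈ (Icc 1 N).filter (fun n => Nat.Coprime n Q),
        ArithmeticFunction.vonMangoldt n) - X| ≤ 2 * X ^ (3 / 4 : ℝ) := by
      calc _ = |(∑ n ∈ (Icc 1 N).filter (fun n => Nat.Coprime n Q), ArithmeticFunction.vonMangoldt n -
            ∑ n ∈ Icc 1 N, ArithmeticFunction.vonMangoldt n) +
            (∑ n ∈ Icc 1 N, ArithmeticFunction.vonMangoldt n - X)| := by ring_nf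
        _ ≤ _ := abs_add_le _ _
        _ ≤ _ := by linarith
    have h8 : ((∑ n ∈ (Icc 1 N).filter (fun n => Nat.Coprime n Q),
        ArithmeticFunction.vonMangoldt n) - X) ^ 2 ≤ 4 * X ^ (3 / 2 : ℝ) := by
      have h9 := pow_le_pow_left₀ (abs_nonneg _) h7 2
      rw [sq_abs] at h9
      refine h9.trans (le_of_eq ?_)
      have e1 : (X ^ (3 / 4 : ℝ)) ^ 2 = X ^ (3 / 2 : ℝ) := by
        rw [← Real.rpow_natCast, ← Real.rpow_mul hX0.le]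
        norm_num
      rw [mul_pow, e1]
      norm_num
    rw [abs_of_nonneg (by positivity)]
    calc _ ≤ 4 * X ^ (3 / 2 : ℝ) / (Y / 2) := by
          apply div_le_div₀ (by positivity) h8 (by linarith) hφ
      _ = _ := by field_simp; ring
  have hcard : ((QR Y).card : ℝ) ≤ 2 * Y := by
    unfold QR
    have h3 : ((Icc 1 ⌊2 * Y⌋₊).filter (fun Q : ℕ => Q.Prime ∧ Y < Q)).card ≤
        (Icc 1 ⌊2 * Y⌋₊).card := card_filter_le _ _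
    rw [Nat.card_Icc, Nat.add_sub_cancel] at h3
    have h4 : ((⌊2 * Y⌋₊ : ℕ) : ℝ) ≤ 2 * Y := Nat.floor_le (by positivity)
    have h5 : (((Icc 1 ⌊2 * Y⌋₊).filter (fun Q : ℕ => Q.Prime ∧ Y < Q)).card : ℝ) ≤
        (⌊2 * Y⌋₊ : ℕ) := by exact_mod_cast h3
    linarith
  refine (sum_le_sum hterm).trans ?_
  rw [sum_const, nsmul_eq_mul]
  have hX32 : 0 < X ^ (3 / 2 : ℝ) := Real.rpow_pos_of_pos hX0 _
  have g1 : ((QR Y).card : ℝ) * (8 * X ^ (3 / 2 : ℝ) / Y) ≤ 16 * X ^ (3 / 2 : ℝ) := by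
    calc ((QR Y).card : ℝ) * (8 * X ^ (3 / 2 : ℝ) / Y) ≤ 2 * Y * (8 * X ^ (3 / 2 : ℝ) / Y) := by gcongr
      _ = _ := by field_simp; ring
  refine g1.trans ?_
  have g2 : η * X * (Y / Real.log Y) = η * X * Y / Real.log Y := by ring
  rw [g2, le_div_iff₀ (by linarith)]
  have g3 : 16 ≤ η * X ^ (1 / 8 : ℝ) := by
    rw [div_le_iff₀ hη] at h8
    linarith
  have g4 : X ^ (3 / 2 : ℝ) * (X ^ (1 / 8 : ℝ) * X ^ (1 / 8 : ℝ)) ≤ X * Y := by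
    calc X ^ (3 / 2 : ℝ) * (X ^ (1 / 8 : ℝ) * X ^ (1 / 8 : ℝ)) = X ^ (7 / 4 : ℝ) := by
          rw [← Real.rpow_add hX0, ← Real.rpow_add hX0]; norm_num
      _ ≤ X ^ (1 + 59 / 60 : ℝ) := Real.rpow_le_rpow_of_exponent_le hX1 (by norm_num)
      _ = X * X ^ (59 / 60 : ℝ) := by rw [Real.rpow_add hX0, Real.rpow_one]
      _ ≤ _ := by
          have := h.Y1
          gcongr
  have hx8 : 0 < X ^ (1 / 8 : ℝ) := Real.rpow_pos_of_pos hX0 _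
  calc 16 * X ^ (3 / 2 : ℝ) * Real.log Y ≤ (η * X ^ (1 / 8 : ℝ)) * X ^ (3 / 2 : ℝ) * X ^ (1 / 8 : ℝ) := by
        have := hlYX.trans h7
        gcongr
    _ = η * (X ^ (3 / 2 : ℝ) * (X ^ (1 / 8 : ℝ) * X ^ (1 / 8 : ℝ))) := by ring
    _ ≤ η * (X * Y) := by gcongr
    _ = _ := by ring

end P19S

theorem WFIN_pr (h18 : W18) (hsc : WSC) : WFIN := by
  obtain ⟨c₁, hc₁, hfreq⟩ := Pool.Agent.GA.good_frequently
  obtain ⟨C₀, c₀, B₀, hC₀, hc₀, hB₀, hmain⟩ := h18 c₁ hc₁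
  obtain ⟨Cq, hCq, hcard⟩ := qq_card_pr
  obtain ⟨Z₀, hZ⟩ := hsc
  set c : ℝ := min (c₀ / 2) (1 / 2500) with hc
  have hcpos : 0 < c := lt_min (by positivity) (by norm_num)
  refine ⟨c, 2 * C₀, B₀ + 60, hcpos, by positivity, by linarith, fun η hη T => ?_⟩
  obtain ⟨K0, hK0⟩ := hmain (η / 16) (by positivity)
  obtain ⟨N0, hN0⟩ := cmp_pr (1 / 4) (by norm_num)
  obtain ⟨X₁, hX₁⟩ := p19_X (η / 8) (η / 2 / (8 * Cq)) (by positivity) (by positivity) N0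
  obtain ⟨D₀, hD₀⟩ := p19_D c (B₀ + 60) T (max X₁ Z₀) hcpos K0
  obtain ⟨n₀, hn₀⟩ := exists_nat_ge D₀
  obtain ⟨D, hDn, hgood⟩ := Filter.frequently_atTop.1 hfreq n₀
  have hD : D₀ ≤ (D : ℝ) := hn₀.trans (by exact_mod_cast hDn)
  obtain ⟨d1, d2, d3, d4, d5, d6⟩ := hD₀ D hD
  have hD0 : (0 : ℝ) < D := by linarith
  have hDB : (D : ℝ) ≤ (D : ℝ) ^ (B₀ + 60) := by
    calc (D : ℝ) = (D : ℝ) ^ (1 : ℝ) := (Real.rpow_one _).symm
      _ ≤ _ := Real.rpow_le_rpow_of_exponent_le (by linarith) (by linarith)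
  have core : ∀ X Y : ℝ, (D : ℝ) ^ (B₀ + 60) ≤ X → X ≤ Real.exp ((D : ℝ) ^ c) →
      X * (D : ℝ) ^ (-c) ≤ Y → (2 * (K0 : ℝ) + 2) * Y ≤ X →
      P19S c B₀ K0 D X Y ∧ ∑ Q ∈ QR Y, |GV X Q - PV0 X Q - MTQ X Q| ≤
      (2 * C₀ * Real.exp (-(c * Real.log X / Real.log D)) * Real.log X + η / 2) * X *
        (Y / Real.log Y) := by
    intro X Y hX hX2 hY hYX
    have hXX : X₁ ≤ X := (le_max_left _ _).trans (d3.trans (hDB.trans hX))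
    obtain ⟨x1, x2, x3, x4, x5, _, _⟩ := hX₁ X hXX
    have h : P19S c B₀ K0 D X Y := ⟨hcpos, min_le_right _ _, hB₀, d1, by
      have : (0 : ℝ) ≤ K0 := Nat.cast_nonneg _
      exact d4, d5, x1, hX, hX2, hY, hYX⟩
    refine ⟨h, ?_⟩
    have hNN0 : N0 ≤ ⌊X⌋₊ := by
      apply Nat.le_floor
      linarith
    have hcond : (⌊X⌋₊ : ℝ) ^ (1 / 2 + 1 / 4 : ℝ) ≤ (⌊Y⌋₊ : ℝ) := by
      have h1 : (⌊X⌋₊ : ℝ) ^ (1 / 2 + 1 / 4 : ℝ) ≤ X ^ (3 / 4 : ℝ) := by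
        have : (1 / 2 + 1 / 4 : ℝ) = 3 / 4 := by norm_num
        rw [this]
        exact Real.rpow_le_rpow (Nat.cast_nonneg _) h.N1 (by norm_num)
      have h2 := Nat.lt_floor_add_one Y
      linarith [h.Y1]
    refine h.total (η := η / 2) (c₀ := c₀) (Cq := Cq) (by positivity) hC₀ (min_le_left _ _) hCq
      (hcard _ (by have := h.yf; omega)) (hN0 _ hNN0 _ hcond (Nat.floor_le_floor h.YX)) ?_ ?_ ?_
    · have e : η / 2 / 8 = η / 16 := by ring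
      rw [e]
      exact hK0 _ h.KK0 _ D h.rg hgood h.K20 h.DB _ h.ry h.KY
    · have e : η / 2 / 4 = η / 8 := by ring
      rw [e]
      exact x4
    · exact x5
  refine ⟨D, 2 * (K0 : ℝ) + 2, d2, d6, ?_, ?_⟩
  · intro X Y hX hX2 hY hYX
    obtain ⟨h, h1⟩ := core X Y hX hX2 hY hYX
    refine h1.trans ?_
    have := h.X0
    have := h.Y0
    have := h.logY
    have h2 : 0 ≤ Y / Real.log Y := by positivity
    have h3 : η / 2 ≤ η := by linarith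
    gcongr
  · intro x hx hx2
    have hx1 : (1 : ℝ) ≤ x := by linarith [hDB]
    have hZx : Z₀ ≤ x := (le_max_right _ _).trans (d3.trans (hDB.trans hx))
    obtain ⟨N, n1, n2, n3⟩ := hZ x hZx
    have n4 : (N : ℝ) ≤ x ^ (B₀ + 60) :=
      n2.trans (Real.rpow_le_rpow_of_exponent_le hx1 (by linarith))
    refine ⟨N, n1, n4, fun Y hY hYX => ?_⟩
    obtain ⟨h, h1⟩ := core N Y (hx.trans n1) (n4.trans hx2) hY hYX
    have hXX : X₁ ≤ (N : ℝ) := (le_max_left _ _).trans (d3.trans (hDB.trans (hx.trans n1)))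
    obtain ⟨_, _, _, _, _, x7, x8⟩ := hX₁ N hXX
    have h2 := h.pv0 (N := N) (η := η / 2) rfl (by positivity) n3 x7 (by
      refine le_trans ?_ x8
      apply div_le_div_of_nonneg_left (by norm_num) (by positivity) (by linarith))
    calc ∑ Q ∈ QR Y, |GV N Q - MTQ N Q| ≤
        ∑ Q ∈ QR Y, (|GV N Q - PV0 N Q - MTQ N Q| + |PV0 N Q|) := by
          refine sum_le_sum fun Q _ => ?_
          refine le_trans (le_of_eq ?_) (abs_add_le _ _)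
          congr 1
          ring
      _ = ∑ Q ∈ QR Y, |GV N Q - PV0 N Q - MTQ N Q| + ∑ Q ∈ QR Y, |PV0 N Q| := sum_add_distrib
      _ ≤ _ := add_le_add h1 h2
      _ = _ := by ring

end Pool.Agent.FGP
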