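import Pool.Agent.Lib_helper3.FGP.Defs

/-!
# FGP: the blocks
-/

set_option autoImplicit false

namespace Pool.Agent.FGP

open Finset Pool.Agent.Var35 Pool.Agent.Var73 Pool.Agent.PV
open scoped ArithmeticFunction ArithmeticFunction.Moebius

/-! ## Window -/

/-- W01 : elementary properties of the window -/
def W01 : Prop := ∃ C : ℝ, 0 < C ∧ ∃ K0 : ℕ, ∀ K ≥ K0, ∀ N, Rg K N →
  (∀ m, 0 ≤ vw N K m ∧ vw N K (-m) = vw N K m) ∧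
  (∑ m ∈ Iw N K, vw N K m = 1) ∧
  (∀ b, |vh N K b| ≤ 1) ∧
  (∀ b, |1 - vh N K b| ≤ C * (Hw N K * nn b)) ∧
  (∀ b, |vh N K b| * (Hw N K * nn b) ^ 2 ≤ C)

/-- W02 : comparison with the Gamma window of the library GA -/
def W02 : Prop := ∃ C : ℝ, 0 < C ∧ ∃ K0 : ℕ, ∀ K ≥ K0, ∀ N, Rg K N →
  ∀ n p : ℕ, N ≤ n * K ^ 3 → n ≤ N → ((p : ℤ) - n) ∈ Iw N K →
  |Pool.Agent.GA.wK ⌈(n * Real.log n / Hw N K) ^ 2⌉₊ (Real.log n) p - vw N K ((p : ℤ) - n)| ≤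
    C * Real.log N ^ 3 / (K : ℝ) ^ 5 / Hw N K

/-- W03 : Gallagher's theorem for the window -/
def W03 : Prop := ∀ c₁ : ℝ, 0 < c₁ → ∃ C c B : ℝ, 0 < C ∧ 0 < c ∧ 1 ≤ B ∧ ∃ K0 : ℕ, ∀ K ≥ K0,
  ∀ N D : ℕ, Rg K N → Pool.Agent.GA.Good c₁ D → K ^ 20 ≤ D → (D : ℝ) ^ B ≤ N →
  ∀ n : ℕ, N ≤ n * K ^ 3 → n + Mw N K ≤ N →
  En N K n ≤ C * (Real.exp (-(c * Real.log N / Real.log D)) + 1 / (K : ℝ) ^ 7)

/-- W03b : the total energy -/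
def W03b : Prop := ∀ c₁ : ℝ, 0 < c₁ → ∃ C c B : ℝ, 0 < C ∧ 0 < c ∧ 1 ≤ B ∧ ∃ K0 : ℕ, ∀ K ≥ K0,
  ∀ N D : ℕ, Rg K N → Pool.Agent.GA.Good c₁ D → K ^ 20 ≤ D → (D : ℝ) ^ B ≤ N →
  EE N K ≤ C * N * (Real.exp (-(c * Real.log N / Real.log D)) + 1 / Real.sqrt K)

/-! ## The multiplier -/

/-- W04 : the multiplier -/
def W04 : Prop := ∃ C : ℝ, 0 < C ∧ ∃ K0 : ℕ, ∀ K ≥ K0, ∀ N, Rg K N →
  (∀ t, 0 ≤ Wt N K t ∧ Wt N K t ≤ 2) ∧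
  (∀ (t : ℝ) (c : ℤ), ∀ r ∈ Icc 1 K, IsCoprime c (r : ℤ) → |t - c / r| ≤ K / N →
    |1 - Wt N K t| ≤ C / (K : ℝ) ^ 7)

/-- W05 : the part `fh` is small everywhere -/
def W05 : Prop := ∃ C : ℝ, 0 < C ∧ ∃ K0 : ℕ, ∀ K ≥ K0, ∀ N, Rg K N → ∀ M, Good (2 * N) M →
  ∀ j ∈ range M, ‖fh N K (j / M)‖ ≤ C * (N / Real.sqrt K) * (1 + Real.log N) ^ 6

/-! ## Energy -/

/-- W06 : the additive energy of one denominator -/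
def W06 : Prop := ∀ (N r : ℕ) (b : ℝ), 1 ≤ r → r ≤ Nat.sqrt N →
  ∑ c ∈ Cd r, ‖Ps N (c / r + b) - ((mr r : ℝ) : ℂ) * In N b‖ ^ 2 =
    (∑ q ∈ r.divisors.erase 1, (if Squarefree (r / q) ∧ Nat.Coprime (r / q) q then
      (q / Nat.totient q : ℝ) * (1 / (Nat.totient (r / q) : ℝ)) else 0) *
        Tp (fun n => (aS N n : ℂ) * e (n * b)) N q) +
    (if Squarefree r then 1 / (Nat.totient r : ℝ) else 0) * ‖Ps N b - In N b‖ ^ 2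

/-- W09 : the sum of the weights over the multiples of `q` -/
def W09 : Prop := ∃ C : ℝ, 0 < C ∧ ∃ N0 : ℕ, ∀ N ≥ N0, ∀ Y K : ℕ, 1 ≤ Y → Y ≤ N → K ≤ N →
  ∀ q ∈ Icc 1 K, ∀ x : ℝ,
  (q / Nat.totient q : ℝ) * ∑ m ∈ (Icc 1 (K / q)).filter (fun m => Squarefree m ∧ Nat.Coprime m q),
    1 / (Nat.totient m : ℝ) * wt N Y (q * m) x ≤ C * Real.log N

/-- W07a : Parseval for the energy -/
def W07a : Prop := ∀ N K M : ℕ, Good (2 * N) M → 2 * Mw N K ≤ N →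
  mean M (range M) (fun b => vh N K b ^ 2 * ((∑ q ∈ Ioc 1 K,
    Tp (fun n => (aS N n : ℂ) * e (n * b)) N q) + ‖Ps N b - In N b‖ ^ 2)) = EE N K

/-- W07 : the weighted mean square -/
def W07 : Prop := ∃ C : ℝ, 0 < C ∧ ∃ K0 : ℕ, ∀ K ≥ K0, ∀ N, Rg K N → ∀ M, Good (2 * N) M →
  ∀ Y : ℕ, 1 ≤ Y → Y ≤ N →
  mean M (range M) (fun t => ∑ r ∈ Icc 1 K, ∑ c ∈ Cd r,
    vh N K (t - c / r) ^ 2 * wt N Y r (t - c / r) * ‖Xc N c r t‖ ^ 2) ≤ C * Real.log N * EE N K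

/-- W07b : mean square of `Fh` -/
def W07b : Prop := ∃ C : ℝ, 0 < C ∧ ∃ K0 : ℕ, ∀ K ≥ K0, ∀ N, Rg K N → ∀ M, Good (2 * N) M →
  ms M (Fh N K) ≤ C * Real.log N * EE N K

/-- W08 : variance of `Fh` over the prime moduli -/
def W08 : Prop := ∃ C : ℝ, 0 < C ∧ ∃ K0 : ℕ, ∀ K ≥ K0, ∀ N, Rg K N → ∀ Y, RY K N Y →
  ∑ Q ∈ QQ Y, VQ (Fh N K) Q ≤ C * Y * (EE N K + Real.sqrt N)

/-! ## Off-diagonal -/

/-- W10 : the pieces are trigonometric polynomials -/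
def W10 : Prop := ∃ K0 : ℕ, ∀ K ≥ K0, ∀ N, Rg K N →
  4 * (Mw N K : ℤ) + 1 ≤ N ∧
  TP (1 - 2 * (Mw N K : ℤ)) (N + 2 * (Mw N K : ℤ)) (fh N K) ∧
  TP (1 - 2 * (Mw N K : ℤ)) (N + 2 * (Mw N K : ℤ)) (gh N K) ∧
  TP (1 - 2 * (Mw N K : ℤ)) (N + 2 * (Mw N K : ℤ)) (Fh N K)

/-- W11 : sampling at the fractions with prime denominator -/
def W11 : Prop := ∀ (N' Y M : ℕ) (Φ : ℝ → ℝ), 1 ≤ N' → N' < Y ^ 2 → 4 * N' < M →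
  TP (-(N' : ℤ)) N' (fun t => (Φ t : ℂ)) →
  ∑ Q ∈ QQ Y, |(1 / (Q : ℝ)) * ∑ b ∈ range Q, Φ (b / Q) - mean M (range M) Φ| ≤
    Real.sqrt (2 * N') * Real.sqrt (mean M (range M) (fun t => Φ t ^ 2))

/-- W12 : the off-diagonal terms of `fh` -/
def W12 : Prop := ∃ C : ℝ, 0 < C ∧ ∃ K0 : ℕ, ∀ K ≥ K0, ∀ N, Rg K N → ∀ M, Good (2 * N) M →
  ∀ Y, RY K N Y → EE N K ≤ N →
  ∑ Q ∈ QQ Y, |(VA (fun t => fh N K t + gh N K t) Q - VA (gh N K) Q) -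
      (ms M (fun t => fh N K t + gh N K t) - ms M (gh N K))| ≤
    C * ((N : ℝ) ^ 2 / Real.sqrt K) * (1 + Real.log N) ^ 7

/-- W16 : mean square of `fh + gh` -/
def W16 : Prop := ∃ C : ℝ, 0 < C ∧ ∃ K0 : ℕ, ∀ K ≥ K0, ∀ N, Rg K N → ∀ M, Good (2 * N) M →
  EE N K ≤ N →
  |ms M (fun t => fh N K t + gh N K t) - A2 N| ≤ C * Real.log N * Real.sqrt (N * EE N K)

/-- W17 : the value at zero -/
def W17 : Prop := ∃ C : ℝ, 0 < C ∧ ∃ K0 : ℕ, ∀ K ≥ K0, ∀ N, Rg K N →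
  |‖fh N K 0 + gh N K 0‖ ^ 2 - (N : ℝ) ^ 2| ≤ C * (N : ℝ) ^ 2 / (K : ℝ) ^ 10

/-! ## The main term -/

/-- W13a : the variance of `gh` in terms of its correlations -/
def W13a : Prop := ∀ N K M Q : ℕ, Good (2 * N) M → 4 * Mw N K < N → 1 ≤ Q →
  VA (gh N K) Q - ms M (gh N K) = 2 * ∑ k ∈ Icc 1 (2 * N / Q), cg N K ((k * Q : ℕ) : ℤ)

/-- W13b : the correlations of `gh` -/
def W13b : Prop := ∃ C : ℝ, 0 < C ∧ ∃ K0 : ℕ, ∀ K ≥ K0, ∀ N, Rg K N → ∀ h : ℕ, 1 ≤ h → h ≤ 2 * N →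
  |cg N K (h : ℤ) - (∑ r ∈ Icc 1 K, mr r ^ 2 * cR r h) * max 0 ((N : ℝ) - h)| ≤
    C * ((K : ℝ) ^ 5 + K * Mw N K)

/-- W13 : the variance of `gh` for prime moduli -/
def W13 : Prop := ∃ C : ℝ, 0 < C ∧ ∃ K0 : ℕ, ∀ K ≥ K0, ∀ N, Rg K N → ∀ M, Good (2 * N) M →
  ∀ Y, RY K N Y → ∀ Q ∈ QQ Y,
  |VA (gh N K) Q - ms M (gh N K) - 2 * ∑ k ∈ Icc 1 (N / Q), SK K k * ((N : ℝ) - k * Q)| ≤
    C * N / K

/-- W14a : the singular series as a product -/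
def W14a : Prop := (∀ k : ℕ, 1 ≤ k → Summable (fun r : ℕ => mr r ^ 2 * cR r k)) ∧
  ∃ C2 : ℝ, 0 < C2 ∧ HasProd (fun p : Nat.Primes => if (p : ℕ) = 2 then 1 else
      (1 - 1 / (((p : ℕ) : ℝ) - 1) ^ 2)) C2 ∧
    ∀ k : ℕ, 1 ≤ k → SG k = if 2 ∣ k then
      2 * C2 * ∏ p ∈ k.primeFactors.erase 2, (((p : ℝ) - 1) / ((p : ℝ) - 2)) else 0

/-- W14t : truncation -/
def W14t : Prop := ∃ C : ℝ, 0 < C ∧ ∀ K k : ℕ, 1 ≤ K → 1 ≤ k → |SG k - SK K k| ≤ C * k / Real.sqrt K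

/-- the function `b` of the paper -/
noncomputable def bb (d : ℕ) : ℝ := ∏ p ∈ d.primeFactors,
  (if p = 2 then (if d.factorization p = 1 then -1 else 0) else
    if d.factorization p = 1 then 2 / ((p : ℝ) - 2) else
    if d.factorization p = 2 then -(p : ℝ) / ((p : ℝ) - 2) else 0)

/-- `∑_{i ≤ y} (y - i)` -/
noncomputable def Ph1 (y : ℝ) : ℝ := ∑ i ∈ Icc 1 ⌊y⌋₊, (y - i)

/-- `∑_{j ≤ x} Ph1 (x / j)` -/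
noncomputable def Ps1 (x : ℝ) : ℝ := ∑ j ∈ Icc 1 ⌊x⌋₊, Ph1 (x / j)

/-- W14b : convolution identity -/
def W14b : Prop := ∀ k : ℕ, 1 ≤ k →
  ∏ p ∈ k.primeFactors.erase 2, (((p : ℝ) - 1) / ((p : ℝ) - 2)) =
    ∑ d ∈ k.divisors, (1 / (d : ℝ)) * ∑ i ∈ d.divisors, bb i

/-- W14c : the constants of `b` -/
def W14c : Prop := Summable (fun d : ℕ => |bb d| * (1 + Real.log d) / d) ∧
  ∀ C2 : ℝ, HasProd (fun p : Nat.Primes => if (p : ℕ) = 2 then 1 else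
      (1 - 1 / (((p : ℕ) : ℝ) - 1) ^ 2)) C2 →
    2 * C2 * ∑' d : ℕ, bb d / d = 1 ∧ C2 * ∑' d : ℕ, bb d / (d : ℝ) ^ 2 = 6 / Real.pi ^ 2 ∧
    ∑' d : ℕ, bb d * Real.log d / d = - Real.log 2 * ∑' d : ℕ, bb d / d

/-- W14d : the summatory function of `Ph1` -/
def W14d : Prop := ∀ η : ℝ, 0 < η → ∃ x0 : ℝ, 1 ≤ x0 ∧ ∀ x : ℝ, x0 ≤ x →
  |Ps1 x - (Real.pi ^ 2 / 12 * x ^ 2 - x / 2 * Real.log x +
    x / 2 * (1 - Real.eulerMascheroniConstant - Real.log (2 * Real.pi)))| ≤ η * x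

/-- W14 : the second order asymptotic for the singular series -/
def W14 : Prop := ∀ η : ℝ, 0 < η → ∃ Z0 : ℝ, 1 ≤ Z0 ∧ ∀ (Z : ℝ) (K : ℕ), Z0 ≤ Z → Z ^ 8 ≤ K →
  |∑ k ∈ Icc 1 ⌊Z⌋₊, SK K k * (Z - k) - mainT Z| ≤ η * Z

/-- W15 : second moment -/
def W15 : Prop := ∀ η : ℝ, 0 < η → ∃ N0 : ℕ, ∀ N ≥ N0, |A2 N - (N * Real.log N - N)| ≤ η * N

/-! ## Assembly -/

/-- W20 : the decomposition -/
def W20 : Prop := (∀ N K t, Ps N t = fh N K t + gh N K t + Fh N K t) ∧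
  ∀ N Q : ℕ, 1 ≤ Q → SQ N Q = VQ (Ps N) Q

/-- W18 : the main theorem for the primes in `(sqrt N, N]` -/
def W18 : Prop := ∀ c₁ : ℝ, 0 < c₁ → ∃ C c B : ℝ, 0 < C ∧ 0 < c ∧ 1 ≤ B ∧ ∀ η : ℝ, 0 < η →
  ∃ K0 : ℕ, ∀ K ≥ K0, ∀ N D : ℕ, Rg K N → Pool.Agent.GA.Good c₁ D → K ^ 20 ≤ D → (D : ℝ) ^ B ≤ N →
  ∀ Y, RY K N Y → K0 * Y ≤ N →
  ∑ Q ∈ QQ Y, |SQ N Q - N * (Real.log Q - Real.eulerMascheroniConstant - Real.log (2 * Real.pi))| ≤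
    (C * Real.exp (-(c * Real.log N / Real.log D)) * Real.log N + η) * N * (Y / Real.log N)

/-- WSC : integers at which `ψ(N) - N` is small (proved: `Pool.Agent.NZ.near_zero`, helper99) -/
def WSC : Prop := ∃ Z₀ : ℝ, ∀ Z : ℝ, Z₀ ≤ Z → ∃ N : ℕ, Z ≤ N ∧ (N : ℝ) ≤ Z ^ (40 : ℝ) ∧
  |∑ n ∈ Icc 1 N, ArithmeticFunction.vonMangoldt n - N| ≤ (N : ℝ) ^ (3 / 4 : ℝ)

/-- the variance -/
noncomputable def GV (X : ℝ) (Q : ℕ) : ℝ :=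
  ∑ a ∈ (range Q).filter (fun a => Nat.Coprime a Q),
    ((∑ n ∈ (Icc 1 ⌊X⌋₊).filter (fun n => n ≡ a [MOD Q]), ArithmeticFunction.vonMangoldt n)
      - X / (Nat.totient Q : ℝ)) ^ 2

/-- the contribution of the principal character -/
noncomputable def PV0 (X : ℝ) (Q : ℕ) : ℝ :=
  ((∑ n ∈ (Icc 1 ⌊X⌋₊).filter (fun n => Nat.Coprime n Q), ArithmeticFunction.vonMangoldt n) - X) ^ 2
    / (Nat.totient Q : ℝ)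

/-- the conjectured main term -/
noncomputable def MTQ (X : ℝ) (Q : ℕ) : ℝ :=
  X * (Real.log Q - (Real.eulerMascheroniConstant + Real.log (2 * Real.pi)
    + ∑ p ∈ Q.primeFactors, Real.log (p : ℝ) / ((p : ℝ) - 1)))

/-- the primes in `(Y, 2Y]` -/
noncomputable def QR (Y : ℝ) : Finset ℕ :=
  (Icc 1 ⌊2 * Y⌋₊).filter (fun Q : ℕ => Q.Prime ∧ Y < Q)

/-- final statement -/
def WFIN : Prop := ∃ c C B : ℝ, 0 < c ∧ 0 < C ∧ 1 ≤ B ∧ ∀ η : ℝ, 0 < η → ∀ T : ℝ, ∃ D C' : ℝ,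
  T ≤ D ∧ D ^ B ≤ Real.exp (D ^ c) ∧
  (∀ X Y : ℝ, D ^ B ≤ X → X ≤ Real.exp (D ^ c) → X * D ^ (-c) ≤ Y → C' * Y ≤ X →
    ∑ Q ∈ QR Y, |GV X Q - PV0 X Q - MTQ X Q| ≤
      (C * Real.exp (-(c * Real.log X / Real.log D)) * Real.log X + η) * X * (Y / Real.log Y)) ∧
  (∀ x : ℝ, D ^ B ≤ x → x ^ B ≤ Real.exp (D ^ c) → ∃ X : ℕ, x ≤ X ∧ (X : ℝ) ≤ x ^ B ∧
    ∀ Y : ℝ, X * D ^ (-c) ≤ Y → C' * Y ≤ X →
      ∑ Q ∈ QR Y, |GV X Q - MTQ X Q| ≤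
        (C * Real.exp (-(c * Real.log X / Real.log D)) * Real.log X + η) * X * (Y / Real.log Y))

end Pool.Agent.FGP
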