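import Pool.Agent.Lib_helper3.FGP.Wanted

set_option autoImplicit false

namespace Pool.Agent.FGP

open Finset Pool.Agent.Var35 Pool.Agent.Var73 Pool.Agent.PV
open scoped ArithmeticFunction ArithmeticFunction.Moebius

/-- numerical facts for large `K` -/
theorem p03_num : ∃ K0 : ℕ, 10 ≤ K0 ∧ ∀ K ≥ K0, ∀ N, Rg K N →
    (200000 ≤ Real.log N) ∧ (400 * Real.log K ≤ Real.log N) ∧
    (Real.log N ^ 10 ≤ K) ∧ (Real.log N * 100 ≤ K) ∧ 0 < Real.log K := by
  obtain ⟨K0, hK0⟩ := exists_nat_ge (Real.exp 200000)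
  refine ⟨max K0 10, le_max_right _ _, fun K hK N hR => ?_⟩
  have hKK : Real.exp 200000 ≤ K := hK0.trans (by exact_mod_cast (le_max_left _ _).trans hK)
  have hK10 : (10 : ℝ) ≤ K := by exact_mod_cast (le_max_right _ _).trans hK
  have hK1 : (0 : ℝ) < K := by linarith
  have hlK : 200000 ≤ Real.log K := by
    rw [Real.le_log_iff_exp_le hK1]; exact hKK
  have hN : Real.log ((K : ℝ) ^ 400) ≤ Real.log N := by
    apply Real.log_le_log (by positivity)
    exact_mod_cast hR.hN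
  rw [Real.log_pow] at hN
  push_cast at hN
  have hL : 200000 ≤ Real.log N := by linarith
  have hL1 : 1 ≤ Real.log N := by linarith
  refine ⟨hL, hN, ?_, ?_, by linarith⟩
  · exact (pow_le_pow_right₀ hL1 (by norm_num)).trans hR.hL
  · have h1 : Real.log N * 100 ≤ Real.log N ^ 2 := by nlinarith
    exact h1.trans ((pow_le_pow_right₀ hL1 (by norm_num)).trans hR.hL)

/-- setting of one window -/
structure P03S (K N n : ℕ) : Prop where
  hR : Rg K N
  hL : 200000 ≤ Real.log N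
  hLK : 400 * Real.log K ≤ Real.log N
  hL10 : Real.log N ^ 10 ≤ K
  hL1 : Real.log N * 100 ≤ K
  hn : N ≤ n * K ^ 3
  hnN : n + Mw N K ≤ N

namespace P03S

variable {K N n : ℕ} (h : P03S K N n)
include h

theorem K0 : (10 : ℝ) ≤ K := by exact_mod_cast h.hR.hK

theorem N0 : (0 : ℝ) < N := by
  have h1 := h.hR.hN
  have h2 : 0 < K := by have := h.hR.hK; omega
  have : 0 < N := lt_of_lt_of_le (by positivity) h1
  exact_mod_cast this

theorem NK : (K : ℝ) ^ 400 ≤ N := by exact_mod_cast h.hR.hN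

theorem H0 : 0 < Hw N K := by
  have h1 := h.K0
  have h2 := h.N0
  unfold Hw
  positivity

theorem HK : Hw N K * (K : ℝ) ^ 8 = N := by
  have h1 := h.K0
  unfold Hw
  field_simp

theorem H1 : (K : ℝ) ^ 392 ≤ Hw N K := by
  have h1 := h.K0
  unfold Hw
  rw [le_div_iff₀ (by positivity), ← pow_add]
  exact h.NK

theorem n0 : (0 : ℝ) < n := by
  have h1 := h.hn
  have h2 := h.N0
  have h3 : 0 < N := by exact_mod_cast h2
  have : 0 < n := by
    rcases Nat.eq_zero_or_pos n with h0 | h0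
    · subst h0; omega
    · exact h0
  exact_mod_cast this

theorem nN : (n : ℝ) ≤ N := by
  have := h.hnN
  have : n ≤ N := by omega
  exact_mod_cast this

theorem Nn : (N : ℝ) ≤ n * (K : ℝ) ^ 3 := by exact_mod_cast h.hn

theorem nH1 : Hw N K * (K : ℝ) ^ 5 ≤ n := by
  have h1 := h.K0
  have h2 := h.Nn
  rw [← h.HK] at h2
  have h3 : (0 : ℝ) < (K : ℝ) ^ 3 := by positivity
  have h4 : Hw N K * (K : ℝ) ^ 5 * (K : ℝ) ^ 3 ≤ n * (K : ℝ) ^ 3 := by
    calc _ = Hw N K * (K : ℝ) ^ 8 := by ring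
      _ ≤ _ := h2
  exact le_of_mul_le_mul_right h4 h3

theorem nH2 : (n : ℝ) ≤ Hw N K * (K : ℝ) ^ 8 := by rw [h.HK]; exact h.nN

theorem M1 : (Mw N K : ℝ) ≤ Hw N K * Real.log N := by
  unfold Mw
  have := h.H0
  have := h.hL
  exact Nat.floor_le (by positivity)

theorem M2 : Hw N K * Real.log N / 2 ≤ Mw N K := by
  have h1 : Hw N K * Real.log N < Mw N K + 1 := by
    unfold Mw
    exact Nat.lt_floor_add_one _
  have h2 : 2 ≤ Hw N K * Real.log N := by
    have h3 : 1 ≤ Hw N K := (one_le_pow₀ (by linarith [h.K0])).trans h.H1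
    nlinarith [h.hL]
  linarith

theorem Mn : (Mw N K : ℝ) * (K : ℝ) ^ 4 ≤ n := by
  have h1 := h.M1
  have h2 := h.nH1
  have h3 := h.hL1
  have h4 := h.K0
  have h5 := h.H0
  have h6 : Real.log N ≤ K := by linarith [h.hL]
  calc (Mw N K : ℝ) * (K : ℝ) ^ 4 ≤ Hw N K * Real.log N * (K : ℝ) ^ 4 := by gcongr
    _ ≤ Hw N K * K * (K : ℝ) ^ 4 := by gcongr
    _ = Hw N K * (K : ℝ) ^ 5 := by ring
    _ ≤ n := h2

/-- the window does not reach the small primes -/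
theorem sq (p : ℕ) (hp : (n : ℝ) - Mw N K ≤ p) : Nat.sqrt N < p := by
  rw [Nat.sqrt_lt']
  have h1 := h.Mn
  have h2 := h.K0
  have h3 : (Mw N K : ℝ) ≤ n / 2 := by
    have h4 : (10 : ℝ) ^ 4 ≤ (K : ℝ) ^ 4 := by gcongr
    have h5 : (0 : ℝ) ≤ Mw N K := by positivity
    nlinarith
  have h6 : (n : ℝ) / 2 ≤ p := by linarith
  have h7 := h.Nn
  have h8 := h.NK
  have h9 : (N : ℝ) < (p : ℝ) ^ 2 := by
    have h10 : (N : ℝ) / (2 * (K : ℝ) ^ 3) ≤ p := by
      rw [div_le_iff₀ (by positivity)]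
      calc (N : ℝ) ≤ n * (K : ℝ) ^ 3 := h7
        _ = (n : ℝ) / 2 * (2 * (K : ℝ) ^ 3) := by ring
        _ ≤ _ := by gcongr
    have h11 : (4 * (K : ℝ) ^ 6) < N := by
      calc (4 * (K : ℝ) ^ 6) < (K : ℝ) * (K : ℝ) ^ 6 := by
            have : (0 : ℝ) < (K : ℝ) ^ 6 := by positivity
            nlinarith
        _ = (K : ℝ) ^ 7 := by ring
        _ ≤ (K : ℝ) ^ 400 := pow_le_pow_right₀ (by linarith) (by norm_num)
        _ ≤ N := h8
    have h12 : (0 : ℝ) < N := h.N0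
    calc (N : ℝ) = (N : ℝ) * (4 * (K : ℝ) ^ 6) / (4 * (K : ℝ) ^ 6) := by field_simp
      _ < (N : ℝ) * N / (4 * (K : ℝ) ^ 6) := by gcongr
      _ = ((N : ℝ) / (2 * (K : ℝ) ^ 3)) ^ 2 := by ring
      _ ≤ _ := by gcongr
  exact_mod_cast h9

theorem logn : Real.log N / 2 ≤ Real.log n := by
  have h1 := h.K0
  have h2 : Real.log N ≤ Real.log (n * (K : ℝ) ^ 3) := Real.log_le_log h.N0 h.Nn
  rw [Real.log_mul h.n0.ne' (by positivity), Real.log_pow] at h2
  push_cast at h2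
  have h3 := h.hLK
  have h4 := h.hL
  linarith

theorem logn2 : Real.log n ≤ Real.log N := Real.log_le_log h.n0 h.nN

/-- the parameter of the Gamma window -/
theorem kk1 : (n * Real.log n / Hw N K) ^ 2 ≤ (⌈(n * Real.log n / Hw N K) ^ 2⌉₊ : ℝ) := Nat.le_ceil _

theorem kk2 : (⌈(n * Real.log n / Hw N K) ^ 2⌉₊ : ℝ) ≤ 2 * (n * Real.log n / Hw N K) ^ 2 := by
  have h1 : (⌈(n * Real.log n / Hw N K) ^ 2⌉₊ : ℝ) < (n * Real.log n / Hw N K) ^ 2 + 1 :=
    Nat.ceil_lt_add_one (by positivity)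
  have h2 : 1 ≤ n * Real.log n / Hw N K := by
    rw [le_div_iff₀ h.H0]
    have h3 := h.nH1
    have h4 : 1 ≤ (K : ℝ) ^ 5 := one_le_pow₀ (by linarith [h.K0])
    have h5 := h.logn
    have h6 := h.hL
    have h7 : Hw N K ≤ n := by
      have := h.H0
      nlinarith
    have := h.n0
    nlinarith
  have h3 : 1 ≤ (n * Real.log n / Hw N K) ^ 2 := one_le_pow₀ h2
  linarith

theorem kM : Real.log n ^ 2 ≤ (⌈(n * Real.log n / Hw N K) ^ 2⌉₊ : ℝ) := by
  refine le_trans ?_ h.kk1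
  have h1 := h.logn
  have h2 := h.hL
  have h3 : Real.log n ≤ n * Real.log n / Hw N K := by
    rw [le_div_iff₀ h.H0]
    have h3 := h.nH1
    have h4 : 1 ≤ (K : ℝ) ^ 5 := one_le_pow₀ (by linarith [h.K0])
    have h7 : Hw N K ≤ n := by
      have := h.H0
      nlinarith
    nlinarith
  gcongr

theorem kD (D : ℕ) (hD : K ^ 20 ≤ D) :
    4 * (⌈(n * Real.log n / Hw N K) ^ 2⌉₊ : ℝ) ≤ (D : ℝ) ^ 2 * Real.log n := by
  have h1 := h.kk2
  have h2 : n * Real.log n / Hw N K ≤ (K : ℝ) ^ 8 * Real.log n := by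
    rw [div_le_iff₀ h.H0]
    have h3 := h.nH2
    have h4 := h.logn
    have h5 := h.hL
    nlinarith
  have h4 := h.logn
  have h5 := h.hL
  have h6 := h.logn2
  have h7 := h.hL1
  have h8 := h.K0
  have h9 : 0 ≤ n * Real.log n / Hw N K := by
    have := h.H0
    have := h.n0
    have : 0 ≤ Real.log n := by linarith
    positivity
  have h10 : (n * Real.log n / Hw N K) ^ 2 ≤ ((K : ℝ) ^ 8 * Real.log n) ^ 2 := by gcongr
  have h11 : ((K : ℝ) ^ 20) ≤ D := by exact_mod_cast hD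
  have h12 : ((K : ℝ) ^ 20) ^ 2 ≤ (D : ℝ) ^ 2 := by gcongr
  calc 4 * (⌈(n * Real.log n / Hw N K) ^ 2⌉₊ : ℝ) ≤ 4 * (2 * ((K : ℝ) ^ 8 * Real.log n) ^ 2) := by
        linarith
    _ = (8 * Real.log n) * (K : ℝ) ^ 16 * Real.log n := by ring
    _ ≤ (K : ℝ) * (K : ℝ) ^ 16 * Real.log n := by
        have : 8 * Real.log n ≤ K := by linarith
        gcongr
    _ = (K : ℝ) ^ 17 * Real.log n := by ring
    _ ≤ (K : ℝ) ^ 40 * Real.log n := by
        have : (K : ℝ) ^ 17 ≤ (K : ℝ) ^ 40 := pow_le_pow_right₀ (by linarith) (by norm_num)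
        have h13 : 0 ≤ Real.log n := by linarith
        gcongr
    _ = ((K : ℝ) ^ 20) ^ 2 * Real.log n := by ring
    _ ≤ _ := by
        have h13 : 0 ≤ Real.log n := by linarith
        gcongr

end P03S

/-- the width of the comparison window -/
noncomputable def p03_x (N K n : ℕ) : ℝ := (Mw N K : ℝ) / (2 * n)

noncomputable def p03_D (N K n : ℕ) : ℝ := Real.log (1 + p03_x N K n)

namespace P03S

variable {K N n : ℕ} (h : P03S K N n)
include h

theorem x0 : 0 < p03_x N K n := by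
  unfold p03_x
  have h1 := h.M2
  have h2 := h.n0
  have h3 := h.H0
  have h4 := h.hL
  have : 0 < (Mw N K : ℝ) := by
    have : 0 < Hw N K * Real.log N / 2 := by positivity
    linarith
  positivity

theorem x1 : p03_x N K n ≤ 1 / 2 := by
  unfold p03_x
  have h2 := h.n0
  rw [div_le_iff₀ (by positivity)]
  have h1 := h.Mn
  have h4 : (1 : ℝ) ≤ (K : ℝ) ^ 4 := one_le_pow₀ (by linarith [h.K0])
  have h5 : (0 : ℝ) ≤ Mw N K := by positivity
  nlinarith

theorem D1 : p03_x N K n / 2 ≤ p03_D N K n := by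
  have h1 := h.x0
  have h2 := h.x1
  unfold p03_D
  have h3 := Real.one_sub_inv_le_log_of_pos (show 0 < 1 + p03_x N K n by linarith)
  refine le_trans ?_ h3
  have : 1 - (1 + p03_x N K n)⁻¹ = p03_x N K n / (1 + p03_x N K n) := by
    field_simp
    ring
  rw [this]
  apply div_le_div_of_nonneg_left h1.le (by linarith) (by linarith)

theorem D2 : p03_D N K n ≤ 1 := by
  have h1 := h.x0
  have h2 := h.x1
  unfold p03_D
  have h3 := Real.log_le_sub_one_of_pos (show 0 < 1 + p03_x N K n by linarith)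
  linarith

theorem D3 : 0 < p03_D N K n := by
  have h1 := h.x0
  have h2 := h.D1
  linarith

/-- `Δ k ≥ 32 M^2` -/
theorem Dk : 32 * Real.log n ^ 2 ≤ p03_D N K n * (⌈(n * Real.log n / Hw N K) ^ 2⌉₊ : ℝ) := by
  have h1 := h.D1
  have h2 := h.kk1
  have h3 := h.x0
  have hH := h.H0
  have hn := h.n0
  have hM := h.M2
  have h5 := h.nH1
  have hL := h.hL
  have h6 : p03_x N K n / 2 * (n * Real.log n / Hw N K) ^ 2 =
      (Mw N K : ℝ) * n / (4 * Hw N K ^ 2) * Real.log n ^ 2 := by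
    unfold p03_x
    field_simp
    ring
  have h7 : (32 : ℝ) ≤ (Mw N K : ℝ) * n / (4 * Hw N K ^ 2) := by
    rw [le_div_iff₀ (by positivity)]
    have h8 : Hw N K ≤ n := by
      have h4 : 1 ≤ (K : ℝ) ^ 5 := one_le_pow₀ (by linarith [h.K0])
      nlinarith
    calc 32 * (4 * Hw N K ^ 2) ≤ (Hw N K * Real.log N / 2) * Hw N K := by nlinarith
      _ ≤ (Mw N K : ℝ) * n := by gcongr
  have h33 := h.D3
  calc 32 * Real.log n ^ 2 ≤ (Mw N K : ℝ) * n / (4 * Hw N K ^ 2) * Real.log n ^ 2 := by gcongr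
    _ = p03_x N K n / 2 * (n * Real.log n / Hw N K) ^ 2 := h6.symm
    _ ≤ _ := by gcongr

/-- the truncation error -/
theorem tiny : ((⌈(n * Real.log n / Hw N K) ^ 2⌉₊ : ℝ) / Real.log n /
      Real.sqrt (⌈(n * Real.log n / Hw N K) ^ 2⌉₊ : ℝ)) *
      Real.exp (2 * Real.log n - p03_D N K n ^ 2 * (⌈(n * Real.log n / Hw N K) ^ 2⌉₊ : ℝ) /
        (32 * Real.log n ^ 2)) ≤ Real.exp (-(16 * Real.log N)) := by
  have hlog := h.logn
  have hL := h.hL
  have hn := h.n0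
  have hH := h.H0
  have hK := h.K0
  have hM0 : 0 < Real.log n := by linarith
  set k : ℝ := (⌈(n * Real.log n / Hw N K) ^ 2⌉₊ : ℝ) with hk
  have hk1 := h.kk1
  have hk2 := h.kk2
  rw [← hk] at hk1 hk2
  have hkp : 0 < k := lt_of_lt_of_le (by positivity) h.kM
  -- the factor in front
  have h1 : k / Real.log n / Real.sqrt k ≤ Real.exp (Real.log N / 10) := by
    have e1 : k / Real.log n / Real.sqrt k = Real.sqrt k / Real.log n := by
      rw [div_div, div_eq_div_iff (by positivity) (by positivity)]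
      nth_rewrite 1 [← Real.mul_self_sqrt hkp.le]
      ring
    rw [e1, div_le_iff₀ hM0]
    have e2 : Real.sqrt k ≤ 2 * (K : ℝ) ^ 8 * Real.log n := by
      rw [Real.sqrt_le_left (by positivity)]
      have e3 : n * Real.log n / Hw N K ≤ (K : ℝ) ^ 8 * Real.log n := by
        rw [div_le_iff₀ hH]
        have h3 := h.nH2
        nlinarith
      have e4 : (n * Real.log n / Hw N K) ^ 2 ≤ ((K : ℝ) ^ 8 * Real.log n) ^ 2 := by gcongr
      nlinarith [sq_nonneg ((K : ℝ) ^ 8 * Real.log n)]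
    refine e2.trans ?_
    have e5 : 2 * (K : ℝ) ^ 8 ≤ Real.exp (Real.log N / 10) := by
      calc 2 * (K : ℝ) ^ 8 ≤ (K : ℝ) * (K : ℝ) ^ 8 := by
            have : (0 : ℝ) < (K : ℝ) ^ 8 := by positivity
            nlinarith
        _ = (K : ℝ) ^ 9 := by ring
        _ = Real.exp (9 * Real.log K) := by
            rw [show (9 : ℝ) * Real.log K = ((9 : ℕ) : ℝ) * Real.log K by norm_num, Real.exp_nat_mul,
              Real.exp_log (by linarith)]
        _ ≤ _ := by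
            apply Real.exp_le_exp.2
            have := h.hLK
            have hlK : 0 ≤ Real.log K := Real.log_nonneg (by linarith)
            linarith
    gcongr
  -- the exponent
  have h2 : Real.log N ^ 2 / 8192 ≤ p03_D N K n ^ 2 * k / (32 * Real.log n ^ 2) := by
    have e1 : p03_x N K n / 2 ≤ p03_D N K n := h.D1
    have e2 := h.x0
    have e3 : (p03_x N K n / 2) ^ 2 * (n * Real.log n / Hw N K) ^ 2 ≤ p03_D N K n ^ 2 * k := by
      gcongr
    have e4 : (p03_x N K n / 2) ^ 2 * (n * Real.log n / Hw N K) ^ 2 =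
        ((Mw N K : ℝ) / Hw N K) ^ 2 / 16 * Real.log n ^ 2 := by
      unfold p03_x
      field_simp
      ring
    have e5 : Real.log N / 2 ≤ (Mw N K : ℝ) / Hw N K := by
      rw [le_div_iff₀ hH]
      have := h.M2
      linarith
    rw [le_div_iff₀ (by positivity)]
    refine le_trans ?_ e3
    rw [e4]
    have e6 : (Real.log N / 2) ^ 2 ≤ ((Mw N K : ℝ) / Hw N K) ^ 2 := by gcongr
    have e7 : 0 ≤ Real.log n ^ 2 := by positivity
    nlinarith
  have h3 : Real.exp (2 * Real.log n - p03_D N K n ^ 2 * k / (32 * Real.log n ^ 2)) ≤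
      Real.exp (2 * Real.log N - Real.log N ^ 2 / 8192) := by
    apply Real.exp_le_exp.2
    have := h.logn2
    linarith
  have hB : 0 ≤ k / Real.log n / Real.sqrt k := by positivity
  calc _ ≤ Real.exp (Real.log N / 10) * Real.exp (2 * Real.log N - Real.log N ^ 2 / 8192) := by
        gcongr
    _ = Real.exp (Real.log N / 10 + (2 * Real.log N - Real.log N ^ 2 / 8192)) := by
        rw [Real.exp_add]
    _ ≤ _ := by
        apply Real.exp_le_exp.2
        nlinarith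

/-- the primes of `PW` lie in the window -/
theorem pw (p : ℕ) (hp : p ∈ Pool.Agent.GA.PW (Real.log n) (p03_D N K n)) :
    p.Prime ∧ |(p : ℝ) - n| ≤ Mw N K := by
  rw [Pool.Agent.GA.mem_PW] at hp
  obtain ⟨hpp, hp2⟩ := hp
  refine ⟨hpp, ?_⟩
  have hp0 : (0 : ℝ) < p := by exact_mod_cast hpp.pos
  have hn := h.n0
  have hx := h.x0
  have hx1 := h.x1
  have h1x : 0 < 1 + p03_x N K n := by linarith
  have hxm : (n : ℝ) * p03_x N K n = Mw N K / 2 := by
    unfold p03_x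
    field_simp
  have hM0 : (0 : ℝ) ≤ Mw N K := by positivity
  rw [abs_le] at hp2 ⊢
  have h1 : (p : ℝ) ≤ n * (1 + p03_x N K n) := by
    have h3 : Real.log p ≤ Real.log (n * (1 + p03_x N K n)) := by
      rw [Real.log_mul hn.ne' h1x.ne']
      unfold p03_D at hp2
      linarith [hp2.2]
    exact (Real.log_le_log_iff hp0 (by positivity)).1 h3
  have h2 : (n : ℝ) ≤ p * (1 + p03_x N K n) := by
    have h3 : Real.log n ≤ Real.log (p * (1 + p03_x N K n)) := by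
      rw [Real.log_mul hp0.ne' h1x.ne']
      unfold p03_D at hp2
      linarith [hp2.1]
    exact (Real.log_le_log_iff hn (by positivity)).1 h3
  constructor
  · nlinarith
  · nlinarith

end P03S

/-- the primes of the window -/
noncomputable def p03_W (N K n : ℕ) : Finset ℕ :=
  (Icc 1 N).filter (fun p => p.Prime ∧ ((p : ℤ) - n) ∈ Iw N K)

theorem p03_mem_Iw {N K n p : ℕ} : ((p : ℤ) - n) ∈ Iw N K ↔ |(p : ℝ) - n| ≤ Mw N K := by
  unfold Iw
  rw [mem_Icc, abs_le]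
  constructor
  · rintro ⟨h1, h2⟩
    constructor
    · have : ((-(Mw N K : ℤ) : ℤ) : ℝ) ≤ (((p : ℤ) - n : ℤ) : ℝ) := by exact_mod_cast h1
      push_cast at this
      exact this
    · have : ((((p : ℤ) - n : ℤ)) : ℝ) ≤ ((Mw N K : ℤ) : ℝ) := by exact_mod_cast h2
      push_cast at this
      exact this
  · rintro ⟨h1, h2⟩
    constructor
    · have : ((-(Mw N K : ℤ) : ℤ) : ℝ) ≤ (((p : ℤ) - n : ℤ) : ℝ) := by push_cast; exact h1
      exact_mod_cast this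
    · have : ((((p : ℤ) - n : ℤ)) : ℝ) ≤ ((Mw N K : ℤ) : ℝ) := by push_cast; exact h2
      exact_mod_cast this

theorem p03_card (N K n : ℕ) : ((p03_W N K n).card : ℝ) ≤ 2 * Mw N K + 1 := by
  have h1 : (p03_W N K n).card ≤ (Iw N K).card := by
    apply card_le_card_of_injOn (fun p : ℕ => (p : ℤ) - n)
    · intro p hp
      exact (mem_filter.1 hp).2.2
    · intro a _ b _ hab
      simp only at hab
      omega
  have h2 : (Iw N K).card = 2 * Mw N K + 1 := by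
    unfold Iw
    rw [Int.card_Icc]
    omega
  rw [h2] at h1
  exact_mod_cast h1

namespace P03S

variable {K N n : ℕ} (h : P03S K N n)
include h

theorem ts {q : ℕ} (ψ : DirichletCharacter ℂ q) : TS ψ N K n =
    ∑ p ∈ p03_W N K n, ((Real.log p * vw N K ((p : ℤ) - n) : ℝ) : ℂ) * ψ (p : ZMod q) := by
  unfold TS p03_W
  rw [sum_filter]
  refine sum_congr rfl fun p hp => ?_
  by_cases h1 : p.Prime ∧ ((p : ℤ) - n) ∈ Iw N K
  · rw [if_pos h1]
    have h0 : Nat.sqrt N < p := by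
      have := p03_mem_Iw.1 h1.2
      exact h.sq p (by linarith [(abs_le.1 this).1])
    have h2 : aS N p = Real.log p := by
      unfold aS
      rw [if_pos ⟨h1.1, h0⟩]
    rw [h2]
  · rw [if_neg h1]
    by_cases h3 : ((p : ℤ) - n) ∈ Iw N K
    · have h4 : ¬ p.Prime := fun h5 => h1 ⟨h5, h3⟩
      have h5 : aS N p = 0 := by
        unfold aS
        rw [if_neg (fun h6 => h4 h6.1)]
      rw [h5]
      simp
    · unfold vw
      rw [if_neg h3]
      simp

theorem pwW : Pool.Agent.GA.PW (Real.log n) (p03_D N K n) ⊆ p03_W N K n := by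
  intro p hp
  obtain ⟨h1, h2⟩ := h.pw p hp
  unfold p03_W
  rw [mem_filter, mem_Icc]
  refine ⟨⟨h1.one_lt.le, ?_⟩, h1, p03_mem_Iw.2 h2⟩
  have h3 : (p : ℝ) ≤ N := by
    have h4 : ((n + Mw N K : ℕ) : ℝ) ≤ N := by exact_mod_cast h.hnN
    push_cast at h4
    linarith [(abs_le.1 h2).2]
  exact_mod_cast h3

theorem logW {p : ℕ} (hp : p ∈ p03_W N K n) : 0 ≤ Real.log p ∧ Real.log p ≤ Real.log N := by
  unfold p03_W at hp
  rw [mem_filter, mem_Icc] at hp
  have h1 : (1 : ℝ) ≤ p := by exact_mod_cast hp.1.1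
  exact ⟨Real.log_nonneg h1, Real.log_le_log (by linarith) (by exact_mod_cast hp.1.2)⟩

theorem cmp {C₂ C₆ : ℝ} (hC₂ : 0 < C₂) (hC₆ : 1 ≤ C₆)
    (h2 : ∀ p : ℕ, ((p : ℤ) - n) ∈ Iw N K →
      |Pool.Agent.GA.wK ⌈(n * Real.log n / Hw N K) ^ 2⌉₊ (Real.log n) p - vw N K ((p : ℤ) - n)| ≤
        C₂ * Real.log N ^ 3 / (K : ℝ) ^ 5 / Hw N K)
    {q : ℕ} [NeZero q] (ψ : DirichletCharacter ℂ q)
    (h6 : ‖Pool.Agent.GA.SKP ψ ⌈(n * Real.log n / Hw N K) ^ 2⌉₊ (Real.log n) 0 -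
      ∑ p ∈ Pool.Agent.GA.PW (Real.log n) (p03_D N K n),
        ((Real.log p * Pool.Agent.GA.wK ⌈(n * Real.log n / Hw N K) ^ 2⌉₊ (Real.log n) p : ℝ) : ℂ) *
          ψ (p : ZMod q)‖ ≤ C₆ * Real.exp (-(16 * Real.log N))) :
    ‖TS ψ N K n - Pool.Agent.GA.SKP ψ ⌈(n * Real.log n / Hw N K) ^ 2⌉₊ (Real.log n) 0‖ ≤
      (3 * C₂ + 1 + C₆) * (Real.log N ^ 5 / (K : ℝ) ^ 5) := by
  set k := ⌈(n * Real.log n / Hw N K) ^ 2⌉₊ with hk
  have hL := h.hL
  have hK := h.K0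
  have hH := h.H0
  have hN := h.N0
  have hlog := h.logn
  have hpsi : ∀ p : ℕ, ‖ψ (p : ZMod q)‖ ≤ 1 := fun p => DirichletCharacter.norm_le_one ψ _
  have hcard := p03_card N K n
  have hM := h.M1
  have hcard2 : ((p03_W N K n).card : ℝ) ≤ 3 * (Hw N K * Real.log N) := by
    have h3 : 1 ≤ Hw N K * Real.log N := by
      have h4 : 1 ≤ Hw N K := (one_le_pow₀ (by linarith)).trans h.H1
      nlinarith
    linarith
  -- first difference
  have d1 : ‖TS ψ N K n - ∑ p ∈ p03_W N K n,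
      ((Real.log p * Pool.Agent.GA.wK k (Real.log n) p : ℝ) : ℂ) * ψ (p : ZMod q)‖ ≤
      3 * C₂ * (Real.log N ^ 5 / (K : ℝ) ^ 5) := by
    rw [h.ts ψ, ← sum_sub_distrib]
    refine (norm_sum_le _ _).trans ?_
    have h3 : ∀ p ∈ p03_W N K n, ‖((Real.log p * vw N K ((p : ℤ) - n) : ℝ) : ℂ) * ψ (p : ZMod q) -
        ((Real.log p * Pool.Agent.GA.wK k (Real.log n) p : ℝ) : ℂ) * ψ (p : ZMod q)‖ ≤
        Real.log N * (C₂ * Real.log N ^ 3 / (K : ℝ) ^ 5 / Hw N K) := by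
      intro p hp
      have h4 := h.logW hp
      rw [← sub_mul, ← Complex.ofReal_sub, norm_mul, Complex.norm_real, ← mul_sub, norm_mul,
        Real.norm_of_nonneg h4.1, Real.norm_eq_abs, abs_sub_comm]
      have h5 := h2 p (mem_filter.1 hp).2.2
      calc _ ≤ Real.log p * |Pool.Agent.GA.wK k (Real.log n) p - vw N K ((p : ℤ) - n)| * 1 :=
            mul_le_mul_of_nonneg_left (hpsi p) (mul_nonneg h4.1 (abs_nonneg _))
        _ ≤ _ := by
            rw [mul_one]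
            exact mul_le_mul h4.2 h5 (abs_nonneg _) (by linarith)
    refine (sum_le_sum h3).trans ?_
    rw [sum_const, nsmul_eq_mul]
    calc ((p03_W N K n).card : ℝ) * (Real.log N * (C₂ * Real.log N ^ 3 / (K : ℝ) ^ 5 / Hw N K)) ≤
        3 * (Hw N K * Real.log N) * (Real.log N * (C₂ * Real.log N ^ 3 / (K : ℝ) ^ 5 / Hw N K)) := by
          gcongr
      _ = _ := by
          field_simp
  -- second difference
  have d2 : ‖∑ p ∈ p03_W N K n,
      ((Real.log p * Pool.Agent.GA.wK k (Real.log n) p : ℝ) : ℂ) * ψ (p : ZMod q) -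
      ∑ p ∈ Pool.Agent.GA.PW (Real.log n) (p03_D N K n),
      ((Real.log p * Pool.Agent.GA.wK k (Real.log n) p : ℝ) : ℂ) * ψ (p : ZMod q)‖ ≤
      (N : ℝ) * (Real.log N * Real.exp (-(16 * Real.log N))) := by
    rw [← sum_sdiff h.pwW, add_sub_cancel_right]
    refine (norm_sum_le _ _).trans ?_
    have h3 : ∀ p ∈ p03_W N K n \ Pool.Agent.GA.PW (Real.log n) (p03_D N K n),
        ‖((Real.log p * Pool.Agent.GA.wK k (Real.log n) p : ℝ) : ℂ) * ψ (p : ZMod q)‖ ≤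
        Real.log N * Real.exp (-(16 * Real.log N)) := by
      intro p hp
      rw [mem_sdiff] at hp
      have h4 := h.logW hp.1
      have h5 : 1 ≤ p := (mem_Icc.1 (mem_filter.1 hp.1).1).1
      have h7 : p.Prime := (mem_filter.1 hp.1).2.1
      have h8 : p03_D N K n ≤ |Real.log p - Real.log n| := by
        by_contra h9
        push Not at h9
        exact hp.2 (Pool.Agent.GA.mem_PW.2 ⟨h7, h9.le⟩)
      have h9 := Pool.Agent.GA.x6_out (k := k) (M := Real.log n) (Δ := p03_D N K n) (by linarith)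
        h.D3 h.D2 h.Dk h5 h8
      have h10 := h.tiny
      have h11 : Pool.Agent.GA.wK k (Real.log n) p ≤ Real.exp (-(16 * Real.log N)) := by
        refine h9.trans ?_
        have h12 : ((p : ℝ)) ^ (-2 : ℝ) ≤ 1 :=
          Real.rpow_le_one_of_one_le_of_nonpos (by exact_mod_cast h5) (by norm_num)
        calc _ ≤ Real.exp (-(16 * Real.log N)) * 1 := by
              gcongr
          _ = _ := mul_one _
      have h12 : 0 ≤ Pool.Agent.GA.wK k (Real.log n) p :=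
        Pool.Agent.GA.wK_nonneg (by linarith) p
      rw [norm_mul, Complex.norm_real, Real.norm_of_nonneg (mul_nonneg h4.1 h12)]
      calc _ ≤ Real.log p * Pool.Agent.GA.wK k (Real.log n) p * 1 :=
            mul_le_mul_of_nonneg_left (hpsi p) (mul_nonneg h4.1 h12)
        _ ≤ _ := by
            rw [mul_one]
            exact mul_le_mul h4.2 h11 h12 (by linarith)
    refine (sum_le_sum h3).trans ?_
    rw [sum_const, nsmul_eq_mul]
    have h4 : (((p03_W N K n \ Pool.Agent.GA.PW (Real.log n) (p03_D N K n)).card : ℕ) : ℝ) ≤ N := by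
      have h5 : (p03_W N K n \ Pool.Agent.GA.PW (Real.log n) (p03_D N K n)).card ≤ (Icc 1 N).card :=
        card_le_card (sdiff_subset.trans (filter_subset _ _))
      rw [Nat.card_Icc, Nat.add_sub_cancel] at h5
      exact_mod_cast h5
    gcongr
  -- tiny terms
  have hexp : Real.exp (-(16 * Real.log N)) = 1 / (N : ℝ) ^ 16 := by
    rw [Real.exp_neg, one_div, show (16 : ℝ) * Real.log N = ((16 : ℕ) : ℝ) * Real.log N by norm_num,
      Real.exp_nat_mul, Real.exp_log hN]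
  have hN1 : (1 : ℝ) ≤ N := (one_le_pow₀ (by linarith)).trans h.NK
  have hlN : Real.log N ≤ N := (Real.log_le_sub_one_of_pos hN).trans (by linarith)
  have hL1 : 1 ≤ Real.log N := by linarith
  have hKN : (K : ℝ) ^ 5 ≤ N := by
    refine le_trans ?_ h.NK
    exact pow_le_pow_right₀ (by linarith) (by norm_num)
  have hK5 : (0 : ℝ) < (K : ℝ) ^ 5 := by positivity
  have t1 : (N : ℝ) * (Real.log N * Real.exp (-(16 * Real.log N))) ≤
      Real.log N ^ 5 / (K : ℝ) ^ 5 := by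
    rw [hexp, le_div_iff₀ hK5]
    calc (N : ℝ) * (Real.log N * (1 / (N : ℝ) ^ 16)) * (K : ℝ) ^ 5 ≤
        (N : ℝ) * (N * (1 / (N : ℝ) ^ 16)) * N := by gcongr
      _ = 1 / (N : ℝ) ^ 13 := by field_simp
      _ ≤ 1 := by
          rw [div_le_one (by positivity)]
          exact one_le_pow₀ hN1
      _ ≤ _ := one_le_pow₀ hL1
  have t2 : C₆ * Real.exp (-(16 * Real.log N)) ≤ C₆ * (Real.log N ^ 5 / (K : ℝ) ^ 5) := by
    have : Real.exp (-(16 * Real.log N)) ≤ (Real.log N ^ 5 / (K : ℝ) ^ 5) := by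
      rw [hexp, le_div_iff₀ hK5]
      calc (1 / (N : ℝ) ^ 16) * (K : ℝ) ^ 5 ≤ (1 / (N : ℝ) ^ 16) * N := by gcongr
        _ = 1 / (N : ℝ) ^ 15 := by field_simp
        _ ≤ 1 := by
          rw [div_le_one (by positivity)]
          exact one_le_pow₀ hN1
        _ ≤ _ := one_le_pow₀ hL1
    gcongr
  have e : TS ψ N K n - Pool.Agent.GA.SKP ψ k (Real.log n) 0 =
      (TS ψ N K n - ∑ p ∈ p03_W N K n,
        ((Real.log p * Pool.Agent.GA.wK k (Real.log n) p : ℝ) : ℂ) * ψ (p : ZMod q)) +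
      (∑ p ∈ p03_W N K n,
        ((Real.log p * Pool.Agent.GA.wK k (Real.log n) p : ℝ) : ℂ) * ψ (p : ZMod q) -
      ∑ p ∈ Pool.Agent.GA.PW (Real.log n) (p03_D N K n),
        ((Real.log p * Pool.Agent.GA.wK k (Real.log n) p : ℝ) : ℂ) * ψ (p : ZMod q)) -
      (Pool.Agent.GA.SKP ψ k (Real.log n) 0 -
      ∑ p ∈ Pool.Agent.GA.PW (Real.log n) (p03_D N K n),
        ((Real.log p * Pool.Agent.GA.wK k (Real.log n) p : ℝ) : ℂ) * ψ (p : ZMod q)) := by ring
  rw [e]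
  refine (norm_sub_le _ _).trans ?_
  refine (add_le_add (norm_add_le _ _) le_rfl).trans ?_
  calc _ ≤ 3 * C₂ * (Real.log N ^ 5 / (K : ℝ) ^ 5) + Real.log N ^ 5 / (K : ℝ) ^ 5 +
        C₆ * (Real.log N ^ 5 / (K : ℝ) ^ 5) := by
        gcongr
        · exact d2.trans t1
        · exact h6.trans t2
    _ = _ := by ring

end P03S

theorem p03_card_Pr (q : ℕ) (hq : 0 < q) : ((Pr q).card : ℝ) ≤ q := by
  have : NeZero q := ⟨hq.ne'⟩
  have h1 : (Pr q).card ≤ Fintype.card (DirichletCharacter ℂ q) := card_le_univ _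
  have h2 : Fintype.card (DirichletCharacter ℂ q) = q.totient := by
    rw [← Nat.card_eq_fintype_card, DirichletCharacter.card_eq_totient_of_hasEnoughRootsOfUnity]
  have h3 : q.totient ≤ q := Nat.totient_le q
  have h4 : (Pr q).card ≤ q := by omega
  exact_mod_cast h4

theorem p03_Prm (q : ℕ) (hq : 1 < q) : Pr q ⊆ Pool.Agent.GA.Prm q := by
  classical
  intro ψ hψ
  rw [mem_Pr] at hψ
  unfold Pool.Agent.GA.Prm
  rw [mem_filter]
  refine ⟨mem_univ _, hψ, ?_⟩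
  rintro rfl
  have : NeZero q := ⟨by omega⟩
  rw [DirichletCharacter.isPrimitive_def, DirichletCharacter.conductor_one] at hψ
  omega

theorem p03_absT {K D : ℕ} (hKD : K ≤ D) (f g : ∀ q : ℕ, DirichletCharacter ℂ q → ℝ)
    (hf0 : ∀ q ψ, 0 ≤ f q ψ) (hg0 : ∀ q ψ, 0 ≤ g q ψ) (S δ : ℝ)
    (hS : ∑ q ∈ Icc 1 D, ∑ χ ∈ Pool.Agent.GA.Prm q, g q χ ≤ S)
    (hfg : ∀ q : ℕ, 1 < q → ∀ ψ, f q ψ ≤ g q ψ + δ) :
    ∑ q ∈ Ioc 1 K, ∑ ψ ∈ Pr q, f q ψ ^ 2 ≤ 2 * S ^ 2 + 2 * (K : ℝ) ^ 2 * δ ^ 2 := by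
  have hS0 : 0 ≤ S := le_trans (sum_nonneg fun q _ => sum_nonneg fun χ _ => hg0 q χ) hS
  have hsub : Ioc 1 K ⊆ Icc 1 D := by
    intro q hq
    rw [mem_Ioc] at hq
    rw [mem_Icc]
    omega
  have hone' : ∀ q ∈ Ioc 1 K, ∀ ψ ∈ Pr q, g q ψ ≤ S := by
    intro q hq ψ hψ
    have hq1 : 1 < q := (mem_Ioc.1 hq).1
    refine le_trans ?_ hS
    refine le_trans ?_ (single_le_sum (f := fun q => ∑ χ ∈ Pool.Agent.GA.Prm q, g q χ)
      (fun q _ => sum_nonneg fun χ _ => hg0 q χ) (hsub hq))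
    exact single_le_sum (f := fun χ => g q χ) (fun χ _ => hg0 q χ) (p03_Prm q hq1 hψ)
  have hsq : ∑ q ∈ Ioc 1 K, ∑ ψ ∈ Pr q, g q ψ ^ 2 ≤ S ^ 2 := by
    calc _ ≤ ∑ q ∈ Ioc 1 K, ∑ ψ ∈ Pr q, S * g q ψ := by
          refine sum_le_sum fun q hq => sum_le_sum fun ψ hψ => ?_
          rw [sq]
          exact mul_le_mul_of_nonneg_right (hone' q hq ψ hψ) (hg0 q ψ)
      _ = S * ∑ q ∈ Ioc 1 K, ∑ ψ ∈ Pr q, g q ψ := by
          simp only [mul_sum]
      _ ≤ S * S := by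
          refine mul_le_mul_of_nonneg_left ?_ hS0
          refine le_trans ?_ hS
          calc ∑ q ∈ Ioc 1 K, ∑ ψ ∈ Pr q, g q ψ ≤
              ∑ q ∈ Ioc 1 K, ∑ ψ ∈ Pool.Agent.GA.Prm q, g q ψ := by
                refine sum_le_sum fun q hq => ?_
                exact sum_le_sum_of_subset_of_nonneg (p03_Prm q (mem_Ioc.1 hq).1)
                  fun _ _ _ => hg0 _ _
            _ ≤ _ := sum_le_sum_of_subset_of_nonneg hsub
                fun _ _ _ => sum_nonneg fun χ _ => hg0 _ _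
      _ = _ := by ring
  have hterm : ∀ q ∈ Ioc 1 K, ∀ ψ ∈ Pr q, f q ψ ^ 2 ≤ 2 * g q ψ ^ 2 + 2 * δ ^ 2 := by
    intro q hq ψ _
    have h4 := hfg q (mem_Ioc.1 hq).1 ψ
    have h6 := hf0 q ψ
    have h5 : f q ψ ^ 2 ≤ (g q ψ + δ) ^ 2 := by gcongr
    nlinarith [sq_nonneg (g q ψ - δ)]
  calc _ ≤ ∑ q ∈ Ioc 1 K, ∑ ψ ∈ Pr q, (2 * g q ψ ^ 2 + 2 * δ ^ 2) :=
        sum_le_sum fun q hq => sum_le_sum fun ψ hψ => hterm q hq ψ hψ
    _ = 2 * (∑ q ∈ Ioc 1 K, ∑ ψ ∈ Pr q, g q ψ ^ 2) +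
          ∑ q ∈ Ioc 1 K, ((Pr q).card : ℝ) * (2 * δ ^ 2) := by
        rw [mul_sum, ← sum_add_distrib]
        refine sum_congr rfl fun q _ => ?_
        rw [sum_add_distrib, mul_sum, sum_const, nsmul_eq_mul]
    _ ≤ 2 * S ^ 2 + ∑ q ∈ Ioc 1 K, (K : ℝ) * (2 * δ ^ 2) := by
        have h4 : ∑ q ∈ Ioc 1 K, ((Pr q).card : ℝ) * (2 * δ ^ 2) ≤
            ∑ q ∈ Ioc 1 K, (K : ℝ) * (2 * δ ^ 2) := by
          refine sum_le_sum fun q hq => ?_
          rw [mem_Ioc] at hq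
          have h5 := p03_card_Pr q (by omega)
          have h6 : (q : ℝ) ≤ K := by exact_mod_cast hq.2
          have h7 := h5.trans h6
          gcongr
        linarith
    _ ≤ _ := by
        rw [sum_const, Nat.card_Ioc, nsmul_eq_mul]
        have h3 : (((K - 1 : ℕ)) : ℝ) ≤ K := by exact_mod_cast Nat.sub_le _ _
        have h4 : (((K - 1 : ℕ)) : ℝ) * ((K : ℝ) * (2 * δ ^ 2)) ≤
            (K : ℝ) * ((K : ℝ) * (2 * δ ^ 2)) := by gcongr
        nlinarith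

theorem p03_fin1 (C₁ C₃ E δ K : ℝ) (hE0 : 0 ≤ E) (hE1 : E ≤ 1) (hK : 1 ≤ K)
    (hδ : δ ^ 2 ≤ C₃ ^ 2 / K ^ 9) :
    2 * (C₁ * E) ^ 2 + 2 * K ^ 2 * δ ^ 2 ≤ 2 * C₁ ^ 2 * E + 2 * C₃ ^ 2 / K ^ 7 := by
  have h4 : 2 * K ^ 2 * δ ^ 2 ≤ 2 * C₃ ^ 2 / K ^ 7 := by
    calc 2 * K ^ 2 * δ ^ 2 ≤ 2 * K ^ 2 * (C₃ ^ 2 / K ^ 9) := by gcongr
      _ = _ := by field_simp
  have h5 : E ^ 2 ≤ E := by nlinarith
  have h6 : 2 * (C₁ * E) ^ 2 ≤ 2 * C₁ ^ 2 * E := by
    have : 0 ≤ C₁ ^ 2 := by positivity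
    nlinarith
  linarith

theorem p03_fin2 (C₁ C₃ E δ K T : ℝ) (hE0 : 0 ≤ E) (hE1 : E ≤ 1) (hK : 1 ≤ K)
    (hδ : δ ^ 2 ≤ C₃ ^ 2 / K ^ 9) (hT : |T| ≤ δ + C₁ * E) :
    T ^ 2 ≤ 2 * C₁ ^ 2 * E + 2 * C₃ ^ 2 / K ^ 7 := by
  have h6 : T ^ 2 ≤ (δ + C₁ * E) ^ 2 := by
    rw [← sq_abs]
    gcongr
  have h7 : E ^ 2 ≤ E := by nlinarith
  have h8 : (δ + C₁ * E) ^ 2 ≤ 2 * δ ^ 2 + 2 * (C₁ ^ 2 * E ^ 2) := by
    nlinarith [sq_nonneg (δ - C₁ * E)]
  have h81 : C₁ ^ 2 * E ^ 2 ≤ C₁ ^ 2 * E := mul_le_mul_of_nonneg_left h7 (sq_nonneg _)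
  have h9 : 2 * δ ^ 2 ≤ 2 * C₃ ^ 2 / K ^ 7 := by
    have h10 : C₃ ^ 2 / K ^ 9 ≤ C₃ ^ 2 / K ^ 7 := by
      apply div_le_div_of_nonneg_left (by positivity) (by positivity)
      exact pow_le_pow_right₀ hK (by norm_num)
    calc 2 * δ ^ 2 ≤ 2 * (C₃ ^ 2 / K ^ 7) := by linarith
      _ = _ := by ring
  linarith

/-- the window has total mass one -/
theorem P03S.mass {K N n : ℕ} (h : P03S K N n) (h1 : ∑ m ∈ Iw N K, vw N K m = 1) :
    ∑ m ∈ Icc 1 N, vw N K ((m : ℤ) - n) = 1 := by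
  rw [← h1]
  have h2 : ∑ m ∈ Icc 1 N, vw N K ((m : ℤ) - n) =
      ∑ m ∈ (Icc 1 N).filter (fun m : ℕ => ((m : ℤ) - n) ∈ Iw N K), vw N K ((m : ℤ) - n) := by
    rw [sum_filter]
    refine sum_congr rfl fun m _ => ?_
    by_cases h3 : ((m : ℤ) - n) ∈ Iw N K
    · rw [if_pos h3]
    · rw [if_neg h3]
      unfold vw
      rw [if_neg h3]
  rw [h2]
  have hMn : Mw N K < n := by
    have h3 := h.Mn
    have h4 : (1 : ℝ) < (K : ℝ) ^ 4 := one_lt_pow₀ (by linarith [h.K0]) (by norm_num)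
    have h5 := h.n0
    have h6 : (Mw N K : ℝ) < n := by
      rcases Nat.eq_zero_or_pos (Mw N K) with h0 | h0
      · rw [h0]; simpa using h5
      · have : (0 : ℝ) < Mw N K := by exact_mod_cast h0
        nlinarith
    exact_mod_cast h6
  have hnN := h.hnN
  refine sum_nbij' (fun m : ℕ => (m : ℤ) - n) (fun z : ℤ => (z + n).toNat) ?_ ?_ ?_ ?_ ?_
  · intro m hm
    exact (mem_filter.1 hm).2
  · intro z hz
    have hz' := hz
    unfold Iw at hz'
    rw [mem_Icc] at hz'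
    rw [mem_filter, mem_Icc]
    have e : (((z + n).toNat : ℕ) : ℤ) - n = z := by
      rw [Int.toNat_of_nonneg (by omega)]; ring
    refine ⟨⟨by omega, by omega⟩, ?_⟩
    rw [e]
    exact hz
  · intro m hm
    change ((m : ℤ) - n + n).toNat = m
    rw [sub_add_cancel, Int.toNat_natCast]
  · intro z hz
    unfold Iw at hz
    rw [mem_Icc] at hz
    change (((z + n).toNat : ℕ) : ℤ) - n = z
    rw [Int.toNat_of_nonneg (by omega)]
    ring
  · intro m hm
    rfl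

theorem p03_T0 (N K n : ℕ) (h : ∑ m ∈ Icc 1 N, vw N K ((m : ℤ) - n) = 1) :
    |T0 N K n| = ‖TS (1 : DirichletCharacter ℂ 1) N K n - 1‖ := by
  unfold T0 TS
  rw [h]
  have h1 : ∀ p ∈ Icc 1 N, ((aS N p * vw N K ((p : ℤ) - n) : ℝ) : ℂ) *
      (1 : DirichletCharacter ℂ 1) (p : ZMod 1) = ((aS N p * vw N K ((p : ℤ) - n) : ℝ) : ℂ) := by
    intro p _
    have h2 : ((p : ℕ) : ZMod 1) = 1 := Subsingleton.elim _ _
    rw [h2, map_one, mul_one]
  rw [sum_congr rfl h1, ← Complex.ofReal_sum, ← Complex.ofReal_one, ← Complex.ofReal_sub,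
    Complex.norm_real, Real.norm_eq_abs]

theorem W03_pr (h1 : W01) (h2 : W02) : W03 := by
  classical
  intro c₁ hc₁
  obtain ⟨C₁, hC₁, c, hc, A, hA, hgal⟩ := Pool.Agent.GA.gal_SKP c₁ hc₁
  obtain ⟨C₁', hC₁', c', hc', A', hA', hgal'⟩ := Pool.Agent.GA.gal_zeta'
  obtain ⟨C₂, hC₂, K02, hw2⟩ := h2
  obtain ⟨_, _, K01, hw1⟩ := h1
  obtain ⟨C₆, hC₆, htr⟩ := Pool.Agent.GA.x6_trunc
  obtain ⟨K03, hK03, hnum⟩ := p03_num
  set C₃ : ℝ := 3 * C₂ + 1 + C₆ with hC₃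
  refine ⟨2 * C₁ ^ 2 + 2 * C₁' ^ 2 + 4 * C₃ ^ 2, min c c' / 2, max 1 (max (2 * A) (2 * A')),
    by positivity, by positivity, le_max_left _ _, max K03 (max K01 K02), ?_⟩
  intro K hK N D hR hgood hKD hDN n hn hnN
  have hKa : K03 ≤ K := (le_max_left _ _).trans hK
  have hKb : K01 ≤ K := (le_max_left _ _).trans ((le_max_right _ _).trans hK)
  have hKc : K02 ≤ K := (le_max_right _ _).trans ((le_max_right _ _).trans hK)
  obtain ⟨q1, q2, q3, q4, q5⟩ := hnum K hKa N hR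
  have h : P03S K N n := ⟨hR, q1, q2, q3, q4, hn, hnN⟩
  have hK10 := h.K0
  have hlog := h.logn
  have hL := h.hL
  set k := ⌈(n * Real.log n / Hw N K) ^ 2⌉₊ with hk
  set M := Real.log n with hM
  have hM2 : 2 ≤ M := by linarith
  -- D
  have hDK : (K : ℝ) ^ 20 ≤ D := by exact_mod_cast hKD
  have hD10 : (10 : ℝ) ≤ D := by
    refine le_trans ?_ hDK
    calc (10 : ℝ) ≤ K := hK10
      _ = (K : ℝ) ^ 1 := (pow_one _).symm
      _ ≤ (K : ℝ) ^ 20 := pow_le_pow_right₀ (by linarith) (by norm_num)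
  have hD4 : 4 ≤ D := by
    have : (4 : ℝ) ≤ D := by linarith
    exact_mod_cast this
  have hlD : 0 < Real.log D := Real.log_pos (by linarith)
  have hBD : max 1 (max (2 * A) (2 * A')) * Real.log D ≤ Real.log N := by
    rw [← Real.log_rpow (by linarith)]
    exact Real.log_le_log (by positivity) hDN
  have hA1 : A * Real.log D ≤ M := by
    have h3 : 2 * A * Real.log D ≤ Real.log N := le_trans (by
      gcongr
      exact (le_max_left _ _).trans (le_max_right _ _)) hBD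
    linarith
  have hA2 : A' * Real.log D ≤ M := by
    have h3 : 2 * A' * Real.log D ≤ Real.log N := le_trans (by
      gcongr
      exact (le_max_right _ _).trans (le_max_right _ _)) hBD
    linarith
  have hkM : M ^ 2 ≤ (k : ℝ) := h.kM
  have hkD : 4 * (k : ℝ) ≤ (D : ℝ) ^ 2 * M := h.kD D hKD
  have hg := hgal D hD4 hgood k M hM2 hA1 hkM hkD (fun _ _ => 0) (fun _ _ => by
    rw [abs_zero]; positivity)
  have hg' := hgal' D hD4 k M hM2 hA2 hkM hkD 0 (by rw [abs_zero]; positivity)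
  have hkp : (0 : ℝ) < k := lt_of_lt_of_le (by positivity) hkM
  have hone : (((k / M : ℝ) : ℂ) / (((k / M : ℝ) : ℂ) + ((0 : ℝ) : ℂ) * Complex.I)) ^ (k + 1) = 1 := by
    have h3 : (((k / M : ℝ)) : ℂ) ≠ 0 := by
      have : (k / M : ℝ) ≠ 0 := by positivity
      exact_mod_cast this
    rw [Complex.ofReal_zero, zero_mul, add_zero, div_self h3, one_pow]
  rw [hone] at hg'
  -- exponentials
  set E : ℝ := Real.exp (-(min c c' / 2 * Real.log N / Real.log D)) with hE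
  have hE0 : 0 < E := Real.exp_pos _
  have hE1 : E ≤ 1 := by
    rw [hE, Real.exp_le_one_iff]
    have : 0 ≤ min c c' / 2 * Real.log N / Real.log D := by positivity
    linarith
  have hEc : Real.exp (-(c * M / Real.log D)) ≤ E := by
    rw [hE]
    apply Real.exp_le_exp.2
    apply neg_le_neg
    apply div_le_div_of_nonneg_right _ hlD.le
    have h3 : min c c' ≤ c := min_le_left _ _
    have h4 : 0 < min c c' := lt_min hc hc'
    nlinarith
  have hEc' : Real.exp (-(c' * M / Real.log D)) ≤ E := by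
    rw [hE]
    apply Real.exp_le_exp.2
    apply neg_le_neg
    apply div_le_div_of_nonneg_right _ hlD.le
    have h3 : min c c' ≤ c' := min_le_right _ _
    have h4 : 0 < min c c' := lt_min hc hc'
    nlinarith
  -- comparison
  set δ : ℝ := C₃ * (Real.log N ^ 5 / (K : ℝ) ^ 5) with hδ
  have hδ0 : 0 ≤ δ := by positivity
  have hcmp : ∀ (q : ℕ) [NeZero q] (ψ : DirichletCharacter ℂ q),
      ‖TS ψ N K n - Pool.Agent.GA.SKP ψ k M 0‖ ≤ δ := by
    intro q _ ψ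
    refine h.cmp hC₂ hC₆ (fun p hp => hw2 K hKc N hR n p hn (by omega) hp) ψ ?_
    refine (htr q ψ k M (p03_D N K n) hM2 h.D3 h.D2 h.Dk).trans ?_
    rw [mul_assoc]
    have h3 := h.tiny
    gcongr
  have hδ2 : δ ^ 2 ≤ C₃ ^ 2 / (K : ℝ) ^ 9 := by
    have h3 : δ ^ 2 = C₃ ^ 2 * (Real.log N ^ 10 / (K : ℝ) ^ 10) := by
      rw [hδ]; ring
    rw [h3]
    have h4 : Real.log N ^ 10 / (K : ℝ) ^ 10 ≤ 1 / (K : ℝ) ^ 9 := by
      rw [div_le_div_iff₀ (by positivity) (by positivity)]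
      have h5 := h.hL10
      calc Real.log N ^ 10 * (K : ℝ) ^ 9 ≤ K * (K : ℝ) ^ 9 := by gcongr
        _ = _ := by ring
    calc C₃ ^ 2 * (Real.log N ^ 10 / (K : ℝ) ^ 10) ≤ C₃ ^ 2 * (1 / (K : ℝ) ^ 9) := by gcongr
      _ = _ := by ring
  -- the twisted part
  have hT : ∑ q ∈ Ioc 1 K, ∑ ψ ∈ Pr q, ‖TS ψ N K n‖ ^ 2 ≤
      2 * C₁ ^ 2 * E + 2 * C₃ ^ 2 / (K : ℝ) ^ 7 := by
    have hKD' : K ≤ D := (Nat.le_self_pow (by norm_num) K).trans hKD
    have hfg : ∀ q : ℕ, 1 < q → ∀ ψ : DirichletCharacter ℂ q, ‖TS ψ N K n‖ ≤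
        ‖Pool.Agent.GA.SKP ψ k M 0‖ + δ := by
      intro q hq ψ
      have : NeZero q := ⟨by omega⟩
      have h3 := hcmp q ψ
      have h5 := norm_sub_norm_le (TS ψ N K n) (Pool.Agent.GA.SKP ψ k M 0)
      linarith
    have h0 := p03_absT hKD' (fun q ψ => ‖TS ψ N K n‖) (fun q ψ => ‖Pool.Agent.GA.SKP ψ k M 0‖)
      (fun _ _ => norm_nonneg _) (fun _ _ => norm_nonneg _) (C₁ * E) δ
      (hg.trans (mul_le_mul_of_nonneg_left hEc (by linarith))) hfg
    exact h0.trans (p03_fin1 C₁ C₃ E δ K hE0.le hE1 (by linarith) hδ2)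
  -- the principal part
  have hP : T0 N K n ^ 2 ≤ 2 * C₁' ^ 2 * E + 2 * C₃ ^ 2 / (K : ℝ) ^ 7 := by
    have h3 := p03_T0 N K n (h.mass (hw1 K hKb N hR).2.1)
    have h4 := hcmp 1 (1 : DirichletCharacter ℂ 1)
    have h5 : |T0 N K n| ≤ δ + C₁' * E := by
      rw [h3]
      have e : TS (1 : DirichletCharacter ℂ 1) N K n - 1 =
          (TS (1 : DirichletCharacter ℂ 1) N K n - Pool.Agent.GA.SKP (1 : DirichletCharacter ℂ 1) k M 0) +
          (Pool.Agent.GA.SKP (1 : DirichletCharacter ℂ 1) k M 0 - 1) := by ring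
      rw [e]
      refine (norm_add_le _ _).trans (add_le_add h4 (hg'.trans ?_))
      gcongr
    exact p03_fin2 C₁' C₃ E δ K _ hE0.le hE1 (by linarith) hδ2 h5
  unfold En
  calc _ ≤ (2 * C₁ ^ 2 * E + 2 * C₃ ^ 2 / (K : ℝ) ^ 7) +
        (2 * C₁' ^ 2 * E + 2 * C₃ ^ 2 / (K : ℝ) ^ 7) := add_le_add hT hP
    _ = (2 * C₁ ^ 2 + 2 * C₁' ^ 2) * E + 4 * C₃ ^ 2 * (1 / (K : ℝ) ^ 7) := by ring
    _ ≤ _ := by
        have h3 : 0 ≤ C₃ ^ 2 * E := by positivity
        have h4 : 0 ≤ C₁ ^ 2 * (1 / (K : ℝ) ^ 7) := by positivity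
        have h5 : 0 ≤ C₁' ^ 2 * (1 / (K : ℝ) ^ 7) := by positivity
        linarith

end Pool.Agent.FGP
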