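import Pool.Agent.Lib_helper3.FGP.Wanted

/-!
# FGP, block P02: comparison of the Gaussian window with the Gamma window
-/

set_option autoImplicit false

namespace Pool.Agent.FGP

open Finset Pool.Agent.Var35 Pool.Agent.Var73 Pool.Agent.PV
open scoped ArithmeticFunction ArithmeticFunction.Moebius

/-- Stirling with a rate -/
theorem p02_stir {k : ℕ} (hk : 1 ≤ k) :
    0 ≤ Real.log (Stirling.stirlingSeq k) - Real.log (Real.sqrt Real.pi) ∧
    Real.log (Stirling.stirlingSeq k) - Real.log (Real.sqrt Real.pi) ≤ 1 / (12 * k) := by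
  have h0 : (k : ℕ) ≠ 0 := by omega
  have hpi : 0 < Real.sqrt Real.pi := Real.sqrt_pos.2 Real.pi_pos
  constructor
  · have := Real.log_le_log hpi (Stirling.sqrt_pi_le_stirlingSeq h0)
    linarith
  · have hk0 : (0 : ℝ) < k := by exact_mod_cast hk
    have hstep : ∀ j : ℕ, Real.log (Stirling.stirlingSeq k) -
        Real.log (Stirling.stirlingSeq (j + k)) ≤ 1 / (12 * k) - 1 / (12 * ((j : ℝ) + k)) := by
      intro j
      induction j with
      | zero => simp
      | succ j ih =>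
        have h1 := Stirling.log_stirlingSeq_sdiff_le (j + k)
        have e1 : j + k + 1 = j + 1 + k := by ring
        rw [e1] at h1
        have h2 : 1 / (12 * ((j + k : ℕ) : ℝ) * (((j + k : ℕ) : ℝ) + 1)) =
            1 / (12 * ((j : ℝ) + k)) - 1 / (12 * (((j + 1 : ℕ) : ℝ) + k)) := by
          push_cast
          have hj : (0 : ℝ) ≤ j := Nat.cast_nonneg j
          field_simp
          ring
        rw [h2] at h1
        linarith
    have hlim : Filter.Tendsto (fun j : ℕ => Real.log (Stirling.stirlingSeq k) -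
        Real.log (Stirling.stirlingSeq (j + k))) Filter.atTop
        (nhds (Real.log (Stirling.stirlingSeq k) - Real.log (Real.sqrt Real.pi))) := by
      refine Filter.Tendsto.const_sub _ ?_
      refine (Real.continuousAt_log hpi.ne').tendsto.comp ?_
      exact Stirling.tendsto_stirlingSeq_sqrt_pi.comp (Filter.tendsto_add_atTop_nat k)
    refine le_of_tendsto' hlim fun j => (hstep j).trans ?_
    have : 0 ≤ 1 / (12 * ((j : ℝ) + k)) := by positivity
    linarith

/-- the sum of the Gaussian -/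
theorem p02_sum {H : ℝ} (hH : 0 < H) (M : ℕ) :
    |∑ j ∈ Icc (-(M : ℤ)) (M : ℤ), Real.exp (-((j : ℝ) ^ 2 / (2 * H ^ 2))) - Real.sqrt (2 * Real.pi) * H| ≤
      1 + 2 * Real.exp (-((M : ℝ) ^ 2 / (4 * H ^ 2))) * (Real.sqrt Real.pi * H) := by
  set f : ℝ → ℝ := fun x => Real.exp (-(x ^ 2 / (2 * H ^ 2))) with hf
  have hanti : AntitoneOn f (Set.Icc (0 : ℝ) (0 + (M : ℕ))) := by
    intro x hx y hy hxy
    have h0 : 0 ≤ x := hx.1
    simp only [hf]
    gcongr
  have h1 := hanti.integral_le_sum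
  have h2 := hanti.sum_le_integral
  have hsplit : ∑ j ∈ Icc (-(M : ℤ)) (M : ℤ), f j = 1 + 2 * ∑ i ∈ range M, f (0 + ((i + 1 : ℕ) : ℝ)) := by
    clear h1 h2 hanti
    induction M with
    | zero => simp [hf]
    | succ M ih =>
      have e : Icc (-((M + 1 : ℕ) : ℤ)) ((M + 1 : ℕ) : ℤ) =
          insert (-((M + 1 : ℕ) : ℤ)) (insert ((M + 1 : ℕ) : ℤ) (Icc (-(M : ℤ)) (M : ℤ))) := by
        ext x
        simp only [Finset.mem_Icc, Finset.mem_insert]
        push_cast
        omega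
      rw [e, Finset.sum_insert, Finset.sum_insert, ih, Finset.sum_range_succ]
      · simp only [hf]
        push_cast
        ring_nf
      · simp only [Finset.mem_Icc]; push_cast; omega
      · simp only [Finset.mem_Icc, Finset.mem_insert]; push_cast; omega
  have hI : ∀ b : ℝ, 0 < b → MeasureTheory.IntegrableOn (fun x : ℝ => Real.exp (-b * x ^ 2)) (Set.Ioi 0) := by
    intro b hb
    exact (integrable_exp_neg_mul_sq hb).integrableOn
  have hfe : ∀ x : ℝ, f x = Real.exp (-(1 / (2 * H ^ 2)) * x ^ 2) := by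
    intro x
    simp only [hf]
    congr 1
    ring
  have hfint : MeasureTheory.IntegrableOn f (Set.Ioi 0) := by
    have := hI (1 / (2 * H ^ 2)) (by positivity)
    exact this.congr_fun (fun x _ => (hfe x).symm) measurableSet_Ioi
  have hM0 : (0 : ℝ) ≤ M := Nat.cast_nonneg M
  have hdec : ∫ x in Set.Ioi (0 : ℝ), f x = (∫ x in (0 : ℝ)..M, f x) + ∫ x in Set.Ioi (M : ℝ), f x := by
    rw [intervalIntegral.integral_of_le hM0, ← MeasureTheory.setIntegral_union]
    · rw [Set.Ioc_union_Ioi_eq_Ioi hM0]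
    · exact Set.Ioc_disjoint_Ioi le_rfl
    · exact measurableSet_Ioi
    · exact hfint.mono_set Set.Ioc_subset_Ioi_self
    · exact hfint.mono_set (Set.Ioi_subset_Ioi hM0)
  have hG : ∫ x in Set.Ioi (0 : ℝ), f x = Real.sqrt (2 * Real.pi) * H / 2 := by
    rw [MeasureTheory.setIntegral_congr_fun measurableSet_Ioi (fun x _ => hfe x), integral_gaussian_Ioi]
    have : Real.pi / (1 / (2 * H ^ 2)) = (2 * Real.pi) * H ^ 2 := by field_simp
    rw [this, Real.sqrt_mul (by positivity), Real.sqrt_sq hH.le]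
  have htail0 : 0 ≤ ∫ x in Set.Ioi (M : ℝ), f x :=
    MeasureTheory.integral_nonneg fun x => (Real.exp_pos _).le
  have htail : ∫ x in Set.Ioi (M : ℝ), f x ≤
      Real.exp (-((M : ℝ) ^ 2 / (4 * H ^ 2))) * (Real.sqrt Real.pi * H) := by
    have hI4 := hI (1 / (4 * H ^ 2)) (by positivity)
    have hle : ∫ x in Set.Ioi (M : ℝ), f x ≤ ∫ x in Set.Ioi (M : ℝ),
        Real.exp (-((M : ℝ) ^ 2 / (4 * H ^ 2))) * Real.exp (-(1 / (4 * H ^ 2)) * x ^ 2) := by
      refine MeasureTheory.setIntegral_mono_on (hfint.mono_set (Set.Ioi_subset_Ioi hM0))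
        ((hI4.mono_set (Set.Ioi_subset_Ioi hM0)).const_mul _) measurableSet_Ioi ?_
      intro x hx
      have hx' : (M : ℝ) < x := hx
      simp only [hf]
      rw [← Real.exp_add]
      apply Real.exp_le_exp.2
      have h3 : (M : ℝ) ^ 2 ≤ x ^ 2 := by gcongr
      have h4 : (M : ℝ) ^ 2 / (4 * H ^ 2) ≤ x ^ 2 / (4 * H ^ 2) := by gcongr
      have h5 : x ^ 2 / (2 * H ^ 2) = x ^ 2 / (4 * H ^ 2) + x ^ 2 / (4 * H ^ 2) := by field_simp; ring
      have h6 : (1 / (4 * H ^ 2)) * x ^ 2 = x ^ 2 / (4 * H ^ 2) := by ring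
      linarith
    refine hle.trans ?_
    rw [MeasureTheory.integral_const_mul]
    refine mul_le_mul_of_nonneg_left ?_ (Real.exp_pos _).le
    have h7 : ∫ x in Set.Ioi (M : ℝ), Real.exp (-(1 / (4 * H ^ 2)) * x ^ 2) ≤
        ∫ x in Set.Ioi (0 : ℝ), Real.exp (-(1 / (4 * H ^ 2)) * x ^ 2) :=
      MeasureTheory.setIntegral_mono_set hI4
        (Filter.Eventually.of_forall fun x => (Real.exp_pos _).le)
        (Set.Ioi_subset_Ioi hM0).eventuallyLE
    refine h7.trans ?_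
    rw [integral_gaussian_Ioi]
    have : Real.pi / (1 / (4 * H ^ 2)) = Real.pi * (2 * H) ^ 2 := by field_simp; ring
    rw [this, Real.sqrt_mul Real.pi_pos.le, Real.sqrt_sq (by positivity)]
    apply le_of_eq
    ring
  have hsum1 : ∑ i ∈ range M, f (0 + (i : ℝ)) ≤ 1 + ∑ i ∈ range M, f (0 + ((i + 1 : ℕ) : ℝ)) := by
    have := Finset.sum_range_succ' (fun i : ℕ => f (0 + (i : ℝ))) M
    have h8 := Finset.sum_range_succ (fun i : ℕ => f (0 + (i : ℝ))) M
    have h9 : f (0 + ((0 : ℕ) : ℝ)) = 1 := by simp [hf]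
    have h10 : 0 ≤ f (0 + (M : ℝ)) := (Real.exp_pos _).le
    rw [h9] at this
    linarith
  rw [zero_add] at h1 h2
  simp only [zero_add] at h1 h2 hsum1 hsplit
  change |∑ j ∈ Icc (-(M : ℤ)) (M : ℤ), f j - _| ≤ _
  rw [hsplit, abs_le]
  constructor <;> linarith

theorem p02_log {y : ℝ} (hy : |y| ≤ 1 / 2) :
    |Real.log (1 + y) - y| ≤ 2 * y ^ 2 ∧ |Real.log (1 + y)| ≤ 2 * |y| := by
  have h1 := abs_le.1 hy
  have hp : 0 < 1 + y := by linarith [h1.1]
  have h2 := Real.log_le_sub_one_of_pos hp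
  have h3 := Real.one_sub_inv_le_log_of_pos hp
  have h4 : 1 - (1 + y)⁻¹ = y - y ^ 2 / (1 + y) := by field_simp; ring
  have h5 : y ^ 2 / (1 + y) ≤ 2 * y ^ 2 := by
    rw [div_le_iff₀ hp]
    nlinarith [sq_nonneg y, h1.1]
  have h6 : |Real.log (1 + y) - y| ≤ 2 * y ^ 2 := by
    rw [abs_le]
    constructor
    · linarith
    · nlinarith [sq_nonneg y]
  refine ⟨h6, ?_⟩
  have h7 : y ^ 2 = |y| ^ 2 := (sq_abs y).symm
  have h8 : |Real.log (1 + y)| ≤ |Real.log (1 + y) - y| + |y| := by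
    have := abs_add_le (Real.log (1 + y) - y) y
    simpa using this
  nlinarith [abs_nonneg y]

theorem p02_log3 {d : ℝ} (hd : |d| ≤ 1 / 2) :
    |d - Real.log (1 + d) - d ^ 2 / 2| ≤ 2 * |d| ^ 3 := by
  have h := Real.abs_log_sub_add_sum_range_le (x := -d) (by rw [abs_neg]; linarith) 2
  rw [abs_neg, Finset.sum_range_succ, Finset.sum_range_succ, Finset.sum_range_zero] at h
  have e : 0 + (-d) ^ (0 + 1) / ((0 : ℕ) + 1 : ℝ) + (-d) ^ (1 + 1) / ((1 : ℕ) + 1 : ℝ) + Real.log (1 - -d) =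
      -(d - Real.log (1 + d) - d ^ 2 / 2) := by
    rw [sub_neg_eq_add]
    push_cast
    ring
  rw [e, abs_neg] at h
  refine h.trans ?_
  rw [div_le_iff₀ (by linarith)]
  have h0 : 0 ≤ |d| ^ 3 := by positivity
  have e3 : |d| ^ (2 + 1) = |d| ^ 3 := by norm_num
  rw [e3]
  nlinarith [mul_nonneg h0 (by linarith : (0 : ℝ) ≤ 1 - 2 * |d|)]

theorem p02_core {n p k : ℕ} {H M L y : ℝ} (hn : 1 ≤ n) (hp : 1 ≤ p) (hH : 0 < H) (hM : M = Real.log n)
    (hM1 : 1 ≤ M) (hR : 1 ≤ n * M / H) (hk : k = ⌈(n * M / H) ^ 2⌉₊) (hL : 1 ≤ L)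
    (hy : (p : ℝ) = n * (1 + y)) (hy2 : |y| ≤ 1 / 4) (hyL : n / H * |y| ≤ L) :
    ∃ t : ℝ, |t| ≤ 1 / (n * M / H) ^ 2 + 42 * L ^ 2 * |y| ∧
      Pool.Agent.GA.wK k M p = 1 / (Real.sqrt (2 * Real.pi) * H) *
        Real.exp (-(((n : ℝ) * y) ^ 2 / (2 * H ^ 2))) * Real.exp t := by
  set R : ℝ := n * M / H with hRd
  have hR0 : 0 < R := by linarith
  have hkR : R ^ 2 ≤ k := by rw [hk]; exact Nat.le_ceil _
  have hkR1 : (k : ℝ) < R ^ 2 + 1 := by rw [hk]; exact Nat.ceil_lt_add_one (by positivity)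
  have hk1 : 1 ≤ k := by
    have : (0 : ℝ) < k := lt_of_lt_of_le (by positivity) hkR
    exact_mod_cast this
  have hk0 : (0 : ℝ) < k := by exact_mod_cast hk1
  have hn0 : (0 : ℝ) < n := by exact_mod_cast hn
  have hp0 : (0 : ℝ) < p := by exact_mod_cast hp
  have hM0 : 0 < M := by linarith
  have h1y : 0 < 1 + y := by
    have := (abs_le.1 hy2).1
    linarith
  set u : ℝ := Real.log (1 + y) with hu
  obtain ⟨hu1, hu2⟩ := p02_log (y := y) (by linarith)
  rw [← hu] at hu1 hu2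
  have hlp : Real.log p = M + u := by
    rw [hy, Real.log_mul hn0.ne' h1y.ne', ← hM]
  set d : ℝ := u / M with hd
  have hdabs : |d| ≤ |u| := by
    rw [hd, abs_div, abs_of_pos hM0]
    exact div_le_self (abs_nonneg _) hM1
  have hd2 : |d| ≤ 1 / 2 := by linarith
  have hy0 := abs_nonneg y
  have h1d : 0 < 1 + d := by
    have := (abs_le.1 hd2).1
    linarith
  obtain ⟨hS0, hS1⟩ := p02_stir hk1
  set S : ℝ := Stirling.stirlingSeq k with hS
  have hSpos : 0 < S := lt_of_lt_of_le (Real.sqrt_pos.2 Real.pi_pos)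
    (Stirling.sqrt_pi_le_stirlingSeq (by omega))
  have hsk : 0 < Real.sqrt k := Real.sqrt_pos.2 hk0
  set lk : ℝ := Real.log (1 + d) with hlk
  refine ⟨Real.log (Real.sqrt k / R) - u - (Real.log S - Real.log (Real.sqrt Real.pi)) +
    (((n : ℝ) * y) ^ 2 / (2 * H ^ 2) - k * (d - lk)), ?_, ?_⟩
  · -- the bounds
    have ht1 : |Real.log (Real.sqrt k / R)| ≤ 1 / (2 * R ^ 2) := by
      have e1 : Real.log (Real.sqrt k / R) = Real.log (k / R ^ 2) / 2 := by
        rw [Real.log_div hsk.ne' hR0.ne', Real.log_sqrt hk0.le, Real.log_div hk0.ne' (by positivity),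
          Real.log_pow]
        push_cast
        ring
      have h2 : 0 ≤ Real.log (k / R ^ 2) := Real.log_nonneg (by rw [le_div_iff₀ (by positivity)]; linarith)
      have h3 := Real.log_le_sub_one_of_pos (x := k / R ^ 2) (by positivity)
      have h4 : (k : ℝ) / R ^ 2 - 1 ≤ 1 / R ^ 2 := by
        rw [div_sub_one (by positivity)]
        gcongr
        linarith
      rw [e1, abs_of_nonneg (by linarith)]
      have : 1 / (2 * R ^ 2) = 1 / R ^ 2 / 2 := by field_simp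
      rw [this]
      linarith
    have ht2 : |Real.log S - Real.log (Real.sqrt Real.pi)| ≤ 1 / (2 * R ^ 2) := by
      rw [abs_of_nonneg hS0]
      refine hS1.trans ?_
      gcongr
      · norm_num
    have hyL2 : (n / H) ^ 2 * y ^ 2 ≤ L ^ 2 := by
      rw [← sq_abs y, ← mul_pow]
      exact pow_le_pow_left₀ (by positivity) hyL 2
    have ht4 : |((n : ℝ) * y) ^ 2 / (2 * H ^ 2) - k * (d - lk)| ≤ 40 * L ^ 2 * |y| := by
      have h5 := p02_log3 hd2
      rw [← hlk] at h5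
      have e1 : ((n : ℝ) * y) ^ 2 / (2 * H ^ 2) - k * (d - lk) =
          ((n / H) ^ 2 * (y ^ 2 - u ^ 2)) / 2 - ((k - R ^ 2) * d ^ 2) / 2 - k * (d - lk - d ^ 2 / 2) := by
        have e2 : R ^ 2 * d ^ 2 = (n / H) ^ 2 * u ^ 2 := by
          rw [hRd, hd]
          field_simp
        have e3 : ((n : ℝ) * y) ^ 2 / (2 * H ^ 2) = ((n / H) ^ 2 * y ^ 2) / 2 := by
          field_simp
        rw [e3]
        linear_combination -(1 / 2) * e2
      rw [e1]
      have hy1 : y ^ 2 = |y| ^ 2 := (sq_abs y).symm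
      have ha : |((n / H) ^ 2 * (y ^ 2 - u ^ 2)) / 2| ≤ 3 * L ^ 2 * |y| := by
        have e4 : y ^ 2 - u ^ 2 = -(u - y) * (y + u) := by ring
        have h6 : |y ^ 2 - u ^ 2| ≤ 2 * y ^ 2 * (3 * |y|) := by
          rw [e4, abs_mul, abs_neg]
          gcongr
          calc |y + u| ≤ |y| + |u| := abs_add_le _ _
            _ ≤ 3 * |y| := by linarith
        rw [abs_div, abs_mul, abs_of_nonneg (by positivity : (0 : ℝ) ≤ (n / H) ^ 2), abs_two,
          div_le_iff₀ (by norm_num)]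
        calc (n / H) ^ 2 * |y ^ 2 - u ^ 2| ≤ (n / H) ^ 2 * (2 * y ^ 2 * (3 * |y|)) := by gcongr
          _ = 6 * ((n / H) ^ 2 * y ^ 2) * |y| := by ring
          _ ≤ 6 * L ^ 2 * |y| := by gcongr
          _ = 3 * L ^ 2 * |y| * 2 := by ring
      have hL2 : 1 ≤ L ^ 2 := one_le_pow₀ hL
      have hb : |((k - R ^ 2) * d ^ 2) / 2| ≤ L ^ 2 * |y| := by
        rw [abs_div, abs_mul, abs_of_nonneg (by linarith : (0 : ℝ) ≤ k - R ^ 2), abs_two,
          abs_of_nonneg (sq_nonneg d), ← sq_abs d]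
        have h7 : |d| ^ 2 ≤ (2 * |y|) ^ 2 := by
          apply pow_le_pow_left₀ (abs_nonneg _)
          linarith
        have h8 : (k - R ^ 2 : ℝ) * |d| ^ 2 ≤ 1 * (2 * |y|) ^ 2 := by
          apply mul_le_mul (by linarith) h7 (by positivity) (by norm_num)
        rw [div_le_iff₀ (by norm_num)]
        refine h8.trans ?_
        have h9 : |y| * |y| ≤ 1 / 4 * |y| := by gcongr
        nlinarith
      have hc : |k * (d - lk - d ^ 2 / 2)| ≤ 32 * L ^ 2 * |y| := by
        rw [abs_mul, abs_of_pos hk0]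
        have h10 : (k : ℝ) ≤ 2 * R ^ 2 := by
          have : 1 ≤ R ^ 2 := one_le_pow₀ hR
          linarith
        have h11 : |d| = |u| / M := by rw [hd, abs_div, abs_of_pos hM0]
        calc (k : ℝ) * |d - lk - d ^ 2 / 2| ≤ (2 * R ^ 2) * (2 * |d| ^ 3) := by gcongr
          _ = 4 * ((n / H) ^ 2 * |u| ^ 3 / M) := by
              rw [h11, hRd]
              field_simp
              ring
          _ ≤ 4 * ((n / H) ^ 2 * |u| ^ 3) := by
              gcongr
              exact div_le_self (by positivity) hM1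
          _ ≤ 4 * ((n / H) ^ 2 * (2 * |y|) ^ 3) := by gcongr
          _ = 32 * ((n / H) ^ 2 * y ^ 2) * |y| := by rw [hy1]; ring
          _ ≤ 32 * L ^ 2 * |y| := by gcongr
      have h12 := abs_sub (((n / H) ^ 2 * (y ^ 2 - u ^ 2)) / 2 - ((k - R ^ 2) * d ^ 2) / 2)
        (k * (d - lk - d ^ 2 / 2))
      have h13 := abs_sub (((n / H) ^ 2 * (y ^ 2 - u ^ 2)) / 2) (((k - R ^ 2) * d ^ 2) / 2)
      have h14 : 0 ≤ L ^ 2 * |y| := by positivity
      linarith
    have hL2 : 1 ≤ L ^ 2 := one_le_pow₀ hL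
    have h15 : |y| ≤ L ^ 2 * |y| := le_mul_of_one_le_left hy0 hL2
    have h16 : 1 / (2 * R ^ 2) = 1 / R ^ 2 / 2 := by field_simp
    have h17 := abs_add_le (Real.log (Real.sqrt k / R) - u - (Real.log S - Real.log (Real.sqrt Real.pi)))
      (((n : ℝ) * y) ^ 2 / (2 * H ^ 2) - k * (d - lk))
    have h18 := abs_sub (Real.log (Real.sqrt k / R) - u) (Real.log S - Real.log (Real.sqrt Real.pi))
    have h19 := abs_sub (Real.log (Real.sqrt k / R)) u
    rw [h16] at ht1 ht2
    linarith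
  · rw [Pool.Agent.GA.wK_eq hp, hlp]
    have e1 : (k : ℝ) / M * (M + u) = k * (1 + d) := by
      rw [hd]
      field_simp
    have e2 : ((k : ℝ) * (1 + d)) ^ k = (k : ℝ) ^ k * Real.exp (k * lk) := by
      rw [mul_pow, Real.exp_nat_mul, hlk, Real.exp_log h1d]
    have e3 : (k.factorial : ℝ) = S * (Real.sqrt (2 * k) * ((k : ℝ) ^ k / Real.exp k)) := by
      have h20 : Real.exp (k : ℝ) = Real.exp 1 ^ k := by
        rw [← Real.exp_nat_mul]
        simp
      rw [hS, Stirling.stirlingSeq, h20, ← div_pow, div_mul_cancel₀]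
      positivity
    have e4 : Real.exp (-((k : ℝ) * (1 + d))) = (Real.exp k)⁻¹ * Real.exp (-(k * d)) := by
      rw [← Real.exp_neg, ← Real.exp_add]
      congr 1
      ring
    have e5 : Real.exp (Real.log (Real.sqrt k / R) - u - (Real.log S - Real.log (Real.sqrt Real.pi)) +
        (((n : ℝ) * y) ^ 2 / (2 * H ^ 2) - k * (d - lk))) =
        (Real.sqrt k / R) * (1 + y)⁻¹ * S⁻¹ * Real.sqrt Real.pi *
          Real.exp (((n : ℝ) * y) ^ 2 / (2 * H ^ 2)) * Real.exp (-(k * d)) * Real.exp (k * lk) := by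
      have h21 : Real.log (Real.sqrt k / R) - u - (Real.log S - Real.log (Real.sqrt Real.pi)) +
        (((n : ℝ) * y) ^ 2 / (2 * H ^ 2) - k * (d - lk)) =
        Real.log (Real.sqrt k / R) + (-u) + (-Real.log S) + Real.log (Real.sqrt Real.pi) +
          ((n : ℝ) * y) ^ 2 / (2 * H ^ 2) + (-(k * d)) + k * lk := by ring
      rw [h21, Real.exp_add, Real.exp_add, Real.exp_add, Real.exp_add, Real.exp_add, Real.exp_add,
        Real.exp_log (by positivity), Real.exp_neg u, hu, Real.exp_log h1y, Real.exp_neg (Real.log S),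
        Real.exp_log hSpos, Real.exp_log (Real.sqrt_pos.2 Real.pi_pos)]
    have e6 : Real.exp (-(((n : ℝ) * y) ^ 2 / (2 * H ^ 2))) *
        Real.exp (((n : ℝ) * y) ^ 2 / (2 * H ^ 2)) = 1 := by
      rw [← Real.exp_add]
      simp
    rw [e1, e2, e3, e4, e5, hy]
    have e7 : Real.sqrt (2 * Real.pi) = Real.sqrt 2 * Real.sqrt Real.pi := Real.sqrt_mul (by norm_num) _
    have e8 : Real.sqrt (2 * (k : ℝ)) = Real.sqrt 2 * Real.sqrt k := Real.sqrt_mul (by norm_num) _
    have e9 : (k : ℝ) = Real.sqrt k * Real.sqrt k := (Real.mul_self_sqrt hk0.le).symm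
    have hs2 : 0 < Real.sqrt 2 := by positivity
    have hsp : 0 < Real.sqrt Real.pi := Real.sqrt_pos.2 Real.pi_pos
    have hek := Real.exp_pos (k : ℝ)
    have hkk : (0 : ℝ) < (k : ℝ) ^ k := by positivity
    have hRe : R * H = n * M := by rw [hRd]; field_simp
    have lhs : (k : ℝ) / M * ((k : ℝ) ^ k * Real.exp (k * lk) /
        (S * (Real.sqrt (2 * k) * ((k : ℝ) ^ k / Real.exp k))) *
        ((Real.exp k)⁻¹ * Real.exp (-(k * d)))) / (n * (1 + y)) =
        (Real.sqrt k / (M * n * Real.sqrt 2 * S * (1 + y))) * Real.exp (k * lk) * Real.exp (-(k * d)) := by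
      rw [e8]
      set K : ℝ := (k : ℝ) ^ k with hK
      clear_value K
      have : (k : ℝ) / M = Real.sqrt k * Real.sqrt k / M := by rw [← e9]
      rw [this]
      field_simp
    rw [lhs, e7]
    have rhs : 1 / (Real.sqrt 2 * Real.sqrt Real.pi * H) *
        Real.exp (-(((n : ℝ) * y) ^ 2 / (2 * H ^ 2))) *
        ((Real.sqrt k / R) * (1 + y)⁻¹ * S⁻¹ * Real.sqrt Real.pi *
          Real.exp (((n : ℝ) * y) ^ 2 / (2 * H ^ 2)) * Real.exp (-(k * d)) * Real.exp (k * lk)) =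
        (Real.exp (-(((n : ℝ) * y) ^ 2 / (2 * H ^ 2))) * Real.exp (((n : ℝ) * y) ^ 2 / (2 * H ^ 2))) *
        ((Real.sqrt k / (R * H * Real.sqrt 2 * S * (1 + y))) * Real.exp (k * lk) * Real.exp (-(k * d))) := by
      field_simp
    rw [rhs, e6, one_mul, hRe]
    congr 2
    ring

theorem W02_pr : W02 := by
  refine ⟨100, by norm_num, 10, ?_⟩
  intro K hK N hR n p hnK hnN hmem
  have hK10 : (10 : ℝ) ≤ K := by exact_mod_cast hK
  have hK0 : (0 : ℝ) < K := by linarith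
  have hK1 : (1 : ℝ) ≤ K := by linarith
  have hNK : (K : ℝ) ^ 400 ≤ N := by exact_mod_cast hR.hN
  have hN0 : (0 : ℝ) < N := lt_of_lt_of_le (by positivity) hNK
  set L : ℝ := Real.log N with hLd
  have hlogK : 1 ≤ Real.log K := by
    rw [Real.le_log_iff_exp_le hK0]
    have := Real.exp_one_lt_d9
    linarith
  have hLK : 400 * Real.log K ≤ L := by
    have h := Real.log_le_log (by positivity) hNK
    rw [Real.log_pow] at h
    push_cast at h
    exact h
  have hL1 : 1 ≤ L := by linarith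
  have hL0 : 0 < L := by linarith
  have hL3 : L ^ 3 ≤ K := (pow_le_pow_right₀ hL1 (by norm_num)).trans hR.hL
  have hL31 : 1 ≤ L ^ 3 := one_le_pow₀ hL1
  set H : ℝ := Hw N K with hHd
  have hHe : H = N / K ^ 8 := rfl
  have hH392 : (K : ℝ) ^ 392 ≤ H := by
    rw [hHe, le_div_iff₀ (by positivity), ← pow_add]
    exact hNK
  have hHK5 : (K : ℝ) ^ 5 ≤ H := (pow_le_pow_right₀ hK1 (by norm_num)).trans hH392
  have hK5 : (10 : ℝ) ^ 5 ≤ (K : ℝ) ^ 5 := by gcongr
  have hH0 : 0 < H := lt_of_lt_of_le (by positivity) hH392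
  have hH2 : 2 ≤ H := by
    norm_num at hK5
    linarith
  have hnK' : (N : ℝ) ≤ n * K ^ 3 := by exact_mod_cast hnK
  have hn397 : (K : ℝ) ^ 397 ≤ n := by
    have h : (K : ℝ) ^ 397 * K ^ 3 ≤ n * K ^ 3 := by
      rw [← pow_add]
      exact hNK.trans hnK'
    exact le_of_mul_le_mul_right h (by positivity)
  have hn0 : (0 : ℝ) < n := lt_of_lt_of_le (by positivity) hn397
  have hn1 : 1 ≤ n := by exact_mod_cast hn0
  have hnH : (K : ℝ) ^ 5 ≤ n / H := by
    rw [le_div_iff₀ hH0, hHe]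
    have e : (K : ℝ) ^ 5 * (N / K ^ 8) = N / K ^ 3 := by field_simp
    rw [e, div_le_iff₀ (by positivity)]
    exact hnK'
  have hM1 : 1 ≤ Real.log n := by
    refine hlogK.trans (Real.log_le_log hK0 ?_)
    calc (K : ℝ) = K ^ 1 := (pow_one _).symm
      _ ≤ K ^ 397 := pow_le_pow_right₀ hK1 (by norm_num)
      _ ≤ n := hn397
  have hMwL : (Mw N K : ℝ) ≤ H * L := Nat.floor_le (by positivity)
  have hMw1 : H * L < Mw N K + 1 := Nat.lt_floor_add_one _
  have hmm := Finset.mem_Icc.1 hmem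
  have hm1 : -(Mw N K : ℝ) ≤ (p : ℝ) - n := by exact_mod_cast hmm.1
  have hm2 : (p : ℝ) - n ≤ Mw N K := by exact_mod_cast hmm.2
  have hmabs : |(p : ℝ) - n| ≤ H * L := (abs_le.2 ⟨hm1, hm2⟩).trans hMwL
  obtain ⟨y, hy⟩ : ∃ y : ℝ, y = ((p : ℝ) - n) / n := ⟨_, rfl⟩
  have hny : (n : ℝ) * y = p - n := by rw [hy]; field_simp
  have hpy : (p : ℝ) = n * (1 + y) := by linear_combination -hny
  have hyabs : |y| = |(p : ℝ) - n| / n := by rw [hy, abs_div, abs_of_pos hn0]
  have hyL : n / H * |y| ≤ L := by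
    rw [hyabs, div_mul_div_comm, mul_comm H, mul_div_mul_left _ _ hn0.ne', div_le_iff₀ hH0, mul_comm L]
    exact hmabs
  have hyK : |y| ≤ L / K ^ 5 := by
    rw [le_div_iff₀ (by positivity)]
    calc |y| * K ^ 5 ≤ |y| * (n / H) := by gcongr
      _ = n / H * |y| := mul_comm _ _
      _ ≤ L := hyL
  set ε : ℝ := L ^ 3 / K ^ 5 with hε
  have hε0 : 0 < ε := by positivity
  have hε1 : ε ≤ 1 / 10 ^ 4 := by
    calc ε ≤ K / K ^ 5 := by rw [hε]; gcongr
      _ = 1 / K ^ 4 := by field_simp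
      _ ≤ 1 / 10 ^ 4 := by gcongr
  have hLy : L ^ 2 * |y| ≤ ε := by
    calc L ^ 2 * |y| ≤ L ^ 2 * (L / K ^ 5) := by gcongr
      _ = ε := by rw [hε]; ring
  have hL2 : 1 ≤ L ^ 2 := one_le_pow₀ hL1
  have hy4 : |y| ≤ 1 / 4 := by
    have h1 : |y| ≤ L ^ 2 * |y| := le_mul_of_one_le_left (abs_nonneg y) hL2
    norm_num at hε1
    linarith
  have hp0 : (0 : ℝ) < p := by
    rw [hpy]
    have := (abs_le.1 hy4).1
    have : 0 < 1 + y := by linarith
    positivity
  have hp1 : 1 ≤ p := by exact_mod_cast hp0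
  have hRK : (K : ℝ) ^ 5 ≤ n * Real.log n / H := by
    calc (K : ℝ) ^ 5 ≤ n / H := hnH
      _ ≤ n / H * Real.log n := le_mul_of_one_le_right (by positivity) hM1
      _ = n * Real.log n / H := by ring
  have hR1 : 1 ≤ n * Real.log n / H := (one_le_pow₀ hK1).trans hRK
  obtain ⟨t, ht, hw⟩ := p02_core hn1 hp1 hH0 rfl hM1 hR1 rfl hL1 hpy hy4 hyL
  have hKε : 1 / (K : ℝ) ^ 5 ≤ ε := by
    rw [hε]
    gcongr
  have hRε : 1 / (n * Real.log n / H) ^ 2 ≤ ε := by
    refine le_trans ?_ hKε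
    have h1 : (K : ℝ) ^ 5 ≤ (n * Real.log n / H) ^ 2 := by
      refine hRK.trans ?_
      rw [sq]
      exact le_mul_of_one_le_right (by linarith) hR1
    gcongr
  have ht1 : |t| ≤ 43 * ε := by
    refine ht.trans ?_
    have : 42 * L ^ 2 * |y| = 42 * (L ^ 2 * |y|) := by ring
    linarith
  have ht2 : |t| ≤ 1 := by
    norm_num at hε1
    linarith
  -- the first comparison
  set g : ℝ := gau N K ((p : ℤ) - n) with hg
  have hge : g = Real.exp (-(((n : ℝ) * y) ^ 2 / (2 * H ^ 2))) := by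
    rw [hg, hny]
    unfold gau
    push_cast
    rfl
  have hg0 : 0 < g := by rw [hge]; exact Real.exp_pos _
  have hg1 : g ≤ 1 := by
    rw [hge, Real.exp_le_one_iff]
    have : 0 ≤ ((n : ℝ) * y) ^ 2 / (2 * H ^ 2) := by positivity
    linarith
  have hs2 : 2 ≤ Real.sqrt (2 * Real.pi) := by
    rw [Real.le_sqrt' (by norm_num)]
    nlinarith [Real.pi_gt_three]
  have hsp2 : Real.sqrt Real.pi ≤ 2 := by
    rw [Real.sqrt_le_left (by norm_num)]
    nlinarith [Real.pi_lt_four]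
  set s : ℝ := Real.sqrt (2 * Real.pi) with hsd
  have hs0 : 0 < s := by linarith
  rw [← hge] at hw
  have h1 : |Pool.Agent.GA.wK ⌈(n * Real.log n / H) ^ 2⌉₊ (Real.log n) p - 1 / (s * H) * g| ≤ 43 * ε / H := by
    have e1 : Pool.Agent.GA.wK ⌈(n * Real.log n / H) ^ 2⌉₊ (Real.log n) p - 1 / (s * H) * g =
        1 / (s * H) * g * (Real.exp t - 1) := by rw [hw]; ring
    have h2 := Real.abs_exp_sub_one_le ht2
    rw [e1, abs_mul, abs_of_pos (by positivity)]
    calc 1 / (s * H) * g * |Real.exp t - 1| ≤ 1 / (s * H) * 1 * (2 * (43 * ε)) := by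
          gcongr
          linarith
      _ = 86 * ε / H / s := by field_simp; ring
      _ ≤ 86 * ε / H / 2 := by gcongr
      _ = 43 * ε / H := by ring
  -- the sum
  set Z : ℝ := ∑ j ∈ Iw N K, gau N K j with hZ
  have hZ1 : |Z - s * H| ≤ 5 * ε * H := by
    have h2 := p02_sum hH0 (Mw N K)
    have e1 : ∑ j ∈ Icc (-(Mw N K : ℤ)) (Mw N K : ℤ), Real.exp (-((j : ℝ) ^ 2 / (2 * H ^ 2))) = Z := rfl
    rw [e1] at h2
    refine h2.trans ?_
    have h3 : 1 ≤ ε * H := by
      calc (1 : ℝ) = 1 / K ^ 5 * K ^ 5 := by field_simp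
        _ ≤ ε * H := by gcongr
    have h4 : Real.exp (-((Mw N K : ℝ) ^ 2 / (4 * H ^ 2))) ≤ ε := by
      have h5 : L / 2 ≤ Mw N K / H := by
        rw [le_div_iff₀ hH0]
        nlinarith
      have h6 : (L / 2) ^ 2 ≤ (Mw N K / H : ℝ) ^ 2 := by gcongr
      have h7 : (Mw N K : ℝ) ^ 2 / (4 * H ^ 2) = (Mw N K / H : ℝ) ^ 2 / 4 := by
        rw [div_pow]
        field_simp
      have h8 : 5 * Real.log K ≤ (Mw N K : ℝ) ^ 2 / (4 * H ^ 2) := by
        rw [h7]
        nlinarith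
      calc Real.exp (-((Mw N K : ℝ) ^ 2 / (4 * H ^ 2))) ≤ Real.exp (-(5 * Real.log K)) := by
            apply Real.exp_le_exp.2
            linarith
        _ = 1 / (K : ℝ) ^ 5 := by
            rw [Real.exp_neg, one_div]
            congr 1
            have : (5 : ℝ) * Real.log K = ((5 : ℕ) : ℝ) * Real.log K := by norm_num
            rw [this, Real.exp_nat_mul, Real.exp_log hK0]
        _ ≤ ε := hKε
    calc 1 + 2 * Real.exp (-((Mw N K : ℝ) ^ 2 / (4 * H ^ 2))) * (Real.sqrt Real.pi * H) ≤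
        ε * H + 2 * ε * (2 * H) := by gcongr
      _ = 5 * ε * H := by ring
  have hZH : H ≤ Z := by
    have h2 := (abs_le.1 hZ1).1
    norm_num at hε1
    have h3 : 5 * ε * H ≤ 1 * H := by gcongr; linarith
    have h4 : 2 * H ≤ s * H := by gcongr
    linarith
  have hZ0 : 0 < Z := by linarith
  have hv : vw N K ((p : ℤ) - n) = g / Z := by
    unfold vw
    rw [if_pos hmem]
  have h2 : |1 / (s * H) * g - g / Z| ≤ 3 * ε / H := by
    have e1 : 1 / (s * H) * g - g / Z = g * (Z - s * H) / (Z * (s * H)) := by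
      field_simp
    rw [e1, abs_div, abs_mul, abs_of_pos hg0, abs_of_pos (by positivity : 0 < Z * (s * H))]
    calc g * |Z - s * H| / (Z * (s * H)) ≤ 1 * (5 * ε * H) / (H * (2 * H)) := by gcongr
      _ = 5 / 2 * ε / H := by field_simp
      _ ≤ 3 * ε / H := by gcongr; norm_num
  rw [hv]
  have h3 := abs_sub_le (Pool.Agent.GA.wK ⌈(n * Real.log n / H) ^ 2⌉₊ (Real.log n) p)
    (1 / (s * H) * g) (g / Z)
  calc _ ≤ 43 * ε / H + 3 * ε / H := by linarith
    _ = 46 * ε / H := by ring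
    _ ≤ 100 * ε / H := by gcongr; norm_num
    _ = 100 * L ^ 3 / K ^ 5 / H := by rw [hε]; ring

end Pool.Agent.FGP
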