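import Pool.Agent.Lib_helper3.FGP.Wanted

/-!
# FGP, block P06: the additive energy of one denominator
-/

set_option autoImplicit false

namespace Pool.Agent.FGP

open Finset Pool.Agent.Var35 Pool.Agent.Var73 Pool.Agent.PV
open scoped ArithmeticFunction ArithmeticFunction.Moebius

/-- all fractions -/
theorem p06_all (F : ℝ → ℂ) (r : ℕ) (hr : 1 ≤ r) :
    ∑ c ∈ range r, F ((c : ℝ) / r) = ∑ d ∈ r.divisors, ∑ c ∈ Cd d, F ((c : ℝ) / d) := by
  rw [sum_sigma']
  refine sum_nbij' (i := fun c => (⟨r / Nat.gcd c r, c / Nat.gcd c r⟩ : Σ _ : ℕ, ℕ))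
    (j := fun x => x.2 * (r / x.1)) ?_ ?_ ?_ ?_ ?_
  · intro c hc
    rw [mem_range] at hc
    have hg : 0 < Nat.gcd c r := Nat.gcd_pos_of_pos_right _ hr
    rw [mem_sigma, Nat.mem_divisors]
    refine ⟨⟨Nat.div_dvd_of_dvd (Nat.gcd_dvd_right _ _), by omega⟩, ?_⟩
    simp only [Cd, mem_filter, mem_range]
    refine ⟨Nat.div_lt_div_of_lt_of_dvd (Nat.gcd_dvd_right _ _) hc, ?_⟩
    exact Nat.coprime_div_gcd_div_gcd hg
  · rintro ⟨d, c⟩ hx
    rw [mem_sigma, Nat.mem_divisors] at hx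
    simp only [Cd, mem_filter, mem_range] at hx
    obtain ⟨⟨hd, -⟩, hc, -⟩ := hx
    rw [mem_range]
    dsimp only
    have hd0 : 0 < r / d := Nat.div_pos (Nat.le_of_dvd hr hd) (Nat.pos_of_dvd_of_pos hd hr)
    calc c * (r / d) < d * (r / d) := Nat.mul_lt_mul_of_pos_right hc hd0
      _ = r := Nat.mul_div_cancel' hd
  · intro c hc
    dsimp only
    have hg : 0 < Nat.gcd c r := Nat.gcd_pos_of_pos_right _ hr
    rw [Nat.div_div_self (Nat.gcd_dvd_right _ _) (by omega),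
      Nat.div_mul_cancel (Nat.gcd_dvd_left _ _)]
  · rintro ⟨d, c⟩ hx
    rw [mem_sigma, Nat.mem_divisors] at hx
    simp only [Cd, mem_filter, mem_range] at hx
    obtain ⟨⟨hd, -⟩, hc, hcop⟩ := hx
    dsimp only
    have hdp : 0 < d := Nat.pos_of_dvd_of_pos hd hr
    have hd0 : 0 < r / d := Nat.div_pos (Nat.le_of_dvd hr hd) hdp
    have hg : Nat.gcd (c * (r / d)) r = r / d := by
      calc Nat.gcd (c * (r / d)) r = Nat.gcd (c * (r / d)) (d * (r / d)) := by
            rw [Nat.mul_div_cancel' hd]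
        _ = r / d := by rw [Nat.gcd_mul_right, hcop, one_mul]
    rw [hg, Nat.div_div_self hd (by omega), Nat.mul_div_cancel _ hd0]
  · intro c hc
    dsimp only
    have hg : 0 < Nat.gcd c r := Nat.gcd_pos_of_pos_right _ hr
    have e : ((c : ℝ) / r) = ((c / Nat.gcd c r : ℕ) : ℝ) / ((r / Nat.gcd c r : ℕ) : ℝ) := by
      have h1 : (Nat.gcd c r : ℝ) ≠ 0 := by exact_mod_cast hg.ne'
      rw [Nat.cast_div (Nat.gcd_dvd_left _ _) h1, Nat.cast_div (Nat.gcd_dvd_right _ _) h1,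
        div_div_div_cancel_right₀ h1]
    rw [e]

/-- Ramanujan's sum at an integer prime to the modulus -/
theorem p06_ram (n r : ℕ) (hr : 1 ≤ r) (hn : Nat.Coprime n r) :
    ∑ c ∈ Cd r, e (n * ((c : ℝ) / r)) = ((μ r : ℤ) : ℂ) := by
  induction r using Nat.strong_induction_on with
  | _ r ih =>
    have h1 := p06_all (fun t => e (n * t)) r hr
    have h2 : ∑ c ∈ range r, e (n * ((c : ℝ) / r)) = if r = 1 then 1 else 0 := by
      have h3 : ∀ c ∈ range r, e (n * ((c : ℝ) / r)) = e ((c : ℝ) * (((n : ℤ) : ℝ) / r)) := by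
        intro c _
        congr 1
        push_cast
        ring
      rw [sum_congr rfl h3, sum_roots r (by omega)]
      by_cases h4 : r = 1
      · subst h4
        simp
      · rw [if_neg h4, if_neg]
        intro h5
        have h6 : r ∣ n := by exact_mod_cast h5
        exact h4 (hn.symm.eq_one_of_dvd h6)
    have h3 : ∑ d ∈ r.divisors, ((μ d : ℤ) : ℂ) = if r = 1 then 1 else 0 := by
      have h4 := ArithmeticFunction.coe_zeta_mul_apply (f := (μ : ArithmeticFunction ℤ)) (x := r)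
      rw [ArithmeticFunction.coe_zeta_mul_moebius] at h4
      have h5 : ((∑ d ∈ r.divisors, μ d : ℤ) : ℂ) = if r = 1 then 1 else 0 := by
        rw [← h4, ArithmeticFunction.one_apply]
        split_ifs <;> simp
      rw [← h5]
      push_cast
      rfl
    rw [h2, ← h3, ← Nat.insert_self_properDivisors (by omega : r ≠ 0),
      sum_insert Nat.self_notMem_properDivisors,
      sum_insert Nat.self_notMem_properDivisors] at h1
    have h4 : ∑ d ∈ r.properDivisors, ∑ c ∈ Cd d, e (n * ((c : ℝ) / d)) =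
        ∑ d ∈ r.properDivisors, ((μ d : ℤ) : ℂ) := by
      refine sum_congr rfl fun d hd => ?_
      rw [Nat.mem_properDivisors] at hd
      exact ih d hd.2 (Nat.pos_of_dvd_of_pos hd.1 (by omega))
        (Nat.Coprime.coprime_dvd_right hd.1 hn)
    rw [h4] at h1
    exact (add_right_cancel h1).symm

theorem p06_cop {N r n : ℕ} (hr : r ≤ Nat.sqrt N) (hr1 : 1 ≤ r) (h : aS N n ≠ 0) :
    Nat.Coprime n r := by
  unfold aS at h
  have h1 : n.Prime ∧ Nat.sqrt N < n := by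
    by_contra h2
    exact h (if_neg h2)
  rw [Nat.Prime.coprime_iff_not_dvd h1.1]
  intro h2
  have := Nat.le_of_dvd (by omega) h2
  omega

theorem p06_Ps (N : ℕ) (b t : ℝ) : Bs (fun n => (aS N n : ℂ) * e (n * b)) N t = Ps N (t + b) := by
  unfold Ps Bs
  refine sum_congr rfl fun n _ => ?_
  rw [mul_assoc, ← e_add]
  congr 2
  ring

theorem p06_sum {N r : ℕ} (hr1 : 1 ≤ r) (hr : r ≤ Nat.sqrt N) (b : ℝ) :
    ∑ c ∈ Cd r, Ps N ((c : ℝ) / r + b) = ((μ r : ℤ) : ℂ) * Ps N b := by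
  unfold Ps Bs
  rw [sum_comm, mul_sum]
  refine sum_congr rfl fun n _ => ?_
  by_cases h : aS N n = 0
  · simp only [h, Complex.ofReal_zero, zero_mul, sum_const_zero, mul_zero]
  · have h1 := p06_ram n r hr1 (p06_cop hr hr1 h)
    rw [← h1, sum_mul]
    refine sum_congr rfl fun c _ => ?_
    rw [show (n : ℝ) * ((c : ℝ) / r + b) = n * ((c : ℝ) / r) + n * b by ring, e_add]
    ring

theorem p06_Tp1 (b : ℕ → ℂ) (N : ℕ) : Tp b N 1 = ‖∑ n ∈ Icc 1 N, b n‖ ^ 2 := by
  unfold Tp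
  have h1 : Pr 1 = {(1 : DirichletCharacter ℂ 1)} := by
    ext ψ
    rw [mem_Pr, mem_singleton]
    constructor
    · intro _
      exact Subsingleton.elim _ _
    · rintro rfl
      exact DirichletCharacter.isPrimitive_one_level_one
  rw [h1, sum_singleton]
  congr 2
  refine sum_congr rfl fun n _ => ?_
  have h2 : IsUnit (n : ZMod 1) := isUnit_of_subsingleton _
  rw [MulChar.one_apply h2, mul_one]

/-- P06 -/
theorem W06_pr : W06 := by
  intro N r b hr1 hr
  set β : ℕ → ℂ := fun n => (aS N n : ℂ) * e (n * b) with hβ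
  have hcop : ∀ n ∈ Icc 1 N, β n ≠ 0 → Nat.Coprime n r := by
    intro n _ h
    refine p06_cop hr hr1 fun h0 => h ?_
    rw [hβ]
    dsimp only
    rw [h0, Complex.ofReal_zero, zero_mul]
  have h1 := hf_pr β N r hr1 hcop
  have h1m : (1 : ℕ) ∈ r.divisors := Nat.mem_divisors.2 ⟨one_dvd _, by omega⟩
  rw [← add_sum_erase _ _ h1m] at h1
  have hT1 : Tp β N 1 = ‖Ps N b‖ ^ 2 := by
    rw [p06_Tp1]
    congr 2
  have hw1 : (if Squarefree (r / 1) ∧ Nat.Coprime (r / 1) 1 then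
      ((1 : ℕ) / Nat.totient 1 : ℝ) * (1 / (Nat.totient (r / 1) : ℝ)) else 0) =
      if Squarefree r then 1 / (Nat.totient r : ℝ) else 0 := by
    simp
  rw [hw1, hT1] at h1
  set W : ℝ := if Squarefree r then 1 / (Nat.totient r : ℝ) else 0 with hW
  set R : ℝ := ∑ q ∈ r.divisors.erase 1, (if Squarefree (r / q) ∧ Nat.Coprime (r / q) q then
      (q / Nat.totient q : ℝ) * (1 / (Nat.totient (r / q) : ℝ)) else 0) * Tp β N q with hR
  have hH : Hh β N r = ∑ c ∈ Cd r, ‖Ps N (c / r + b)‖ ^ 2 := by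
    unfold Hh
    refine sum_congr rfl fun c _ => ?_
    rw [hβ, p06_Ps]
  rw [hH] at h1
  have hφ : (Nat.totient r : ℝ) ≠ 0 := by
    exact_mod_cast (Nat.totient_pos.2 (by omega : 0 < r)).ne'
  have hμ : (((μ r : ℤ) : ℝ)) ^ 2 / Nat.totient r = W := by
    rw [hW]
    by_cases h : Squarefree r
    · have h2 : ((μ r : ℤ)) ^ 2 = 1 := ArithmeticFunction.moebius_sq_eq_one_of_squarefree h
      have h3 : (((μ r : ℤ) : ℝ)) ^ 2 = 1 := by exact_mod_cast h2
      rw [if_pos h, h3]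
    · rw [if_neg h, ArithmeticFunction.moebius_eq_zero_of_not_squarefree h]
      simp
  -- expand the square
  have hexp : ∀ x y : ℂ, ‖x - y‖ ^ 2 = ‖x‖ ^ 2 - 2 * (x * (starRingEnd ℂ) y).re + ‖y‖ ^ 2 := by
    intro x y
    rw [← Complex.normSq_eq_norm_sq, ← Complex.normSq_eq_norm_sq, ← Complex.normSq_eq_norm_sq,
      Complex.normSq_sub]
    ring
  have h2 : ∑ c ∈ Cd r, ‖Ps N (c / r + b) - ((mr r : ℝ) : ℂ) * In N b‖ ^ 2 =
      ∑ c ∈ Cd r, ‖Ps N (c / r + b)‖ ^ 2 -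
        2 * ((((μ r : ℤ) : ℂ) * Ps N b) * (starRingEnd ℂ) (((mr r : ℝ) : ℂ) * In N b)).re +
        (Nat.totient r : ℝ) * ‖((mr r : ℝ) : ℂ) * In N b‖ ^ 2 := by
    rw [← p06_sum hr1 hr b, sum_mul, Complex.re_sum, mul_sum, ← card_Cd r, ← nsmul_eq_mul,
      ← sum_const, ← sum_sub_distrib, ← sum_add_distrib]
    exact sum_congr rfl fun c _ => hexp _ _
  rw [h2, h1, hexp (Ps N b) (In N b)]
  have h3 : ((((μ r : ℤ) : ℂ) * Ps N b) * (starRingEnd ℂ) (((mr r : ℝ) : ℂ) * In N b)).re =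
      W * (Ps N b * (starRingEnd ℂ) (In N b)).re := by
    have h4 : (((μ r : ℤ) : ℂ) * Ps N b) * (starRingEnd ℂ) (((mr r : ℝ) : ℂ) * In N b) =
        ((W : ℝ) : ℂ) * (Ps N b * (starRingEnd ℂ) (In N b)) := by
      rw [map_mul, Complex.conj_ofReal, ← hμ]
      unfold mr
      push_cast
      ring
    rw [h4, Complex.re_ofReal_mul]
  have h5 : (Nat.totient r : ℝ) * ‖((mr r : ℝ) : ℂ) * In N b‖ ^ 2 = W * ‖In N b‖ ^ 2 := by
    rw [norm_mul, mul_pow, Complex.norm_real, Real.norm_eq_abs, sq_abs, ← hμ]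
    unfold mr
    field_simp
  rw [h3, h5]
  ring

end Pool.Agent.FGP
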