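import Pool.Agent.Lib_helper3.FGP.Wanted

set_option autoImplicit false

namespace Pool.Agent.FGP

open Finset Pool.Agent.Var35 Pool.Agent.Var73 Pool.Agent.PV
open scoped ArithmeticFunction ArithmeticFunction.Moebius

theorem p09_nn (x : ℝ) : 0 ≤ nn x := abs_nonneg _

theorem p09_mono {C : ℝ} (hC : 0 < C) {r N : ℕ} (hr : 1 ≤ r) (hrN : r ≤ N)
    (h : (r : ℝ) / Nat.totient r ≤ C * (1 + Real.log (1 + Real.log r))) :
    (r : ℝ) / Nat.totient r ≤ C * (1 + Real.log (1 + Real.log N)) := by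
  refine h.trans ?_
  have h1 : (1 : ℝ) ≤ r := by exact_mod_cast hr
  have h2 : (r : ℝ) ≤ N := by exact_mod_cast hrN
  have h3 : 0 ≤ Real.log r := Real.log_nonneg h1
  gcongr

/-- powers of `log log N` -/
theorem p09_l {L : ℝ} (hL : 1 ≤ L) : (1 + Real.log (1 + L)) ^ 4 ≤ 11 ^ 4 * (2 * L) := by
  have h1 : Real.log (1 + L) ≤ (1 + L) ^ (1 / 10 : ℝ) / (1 / 10) :=
    Real.log_le_rpow_div (by linarith) (by norm_num)
  have h2 : 1 ≤ (1 + L) ^ (1 / 10 : ℝ) := Real.one_le_rpow (by linarith) (by norm_num)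
  have h3 : 1 + Real.log (1 + L) ≤ 11 * (1 + L) ^ (1 / 10 : ℝ) := by
    have : (1 + L) ^ (1 / 10 : ℝ) / (1 / 10) = 10 * (1 + L) ^ (1 / 10 : ℝ) := by ring
    linarith
  have h4 : 0 ≤ Real.log (1 + L) := Real.log_nonneg (by linarith)
  calc (1 + Real.log (1 + L)) ^ 4 ≤ (11 * (1 + L) ^ (1 / 10 : ℝ)) ^ 4 := by gcongr
    _ = 11 ^ 4 * (1 + L) ^ (4 / 10 : ℝ) := by
      rw [mul_pow, ← Real.rpow_natCast ((1 + L) ^ (1 / 10 : ℝ)), ← Real.rpow_mul (by linarith)]
      norm_num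
    _ ≤ 11 ^ 4 * (1 + L) ^ (1 : ℝ) := by
      gcongr
      · linarith
      · norm_num
    _ ≤ 11 ^ 4 * (2 * L) := by
      rw [Real.rpow_one]
      gcongr
      linarith

/-- number of the `m ≤ u` -/
theorem p09_card (S : Finset ℕ) (hS : ∀ m ∈ S, 1 ≤ m) {u : ℝ} (hu : 0 < u) :
    ∑ m ∈ S, (if (m : ℝ) ≤ u then 1 / u else 0) ≤ 1 := by
  rw [← sum_filter, sum_const, nsmul_eq_mul]
  have h1 : S.filter (fun m : ℕ => (m : ℝ) ≤ u) ⊆ Icc 1 ⌊u⌋₊ := by
    intro m hm
    rw [mem_filter] at hm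
    rw [mem_Icc]
    exact ⟨hS m hm.1, Nat.le_floor hm.2⟩
  have h2 := card_le_card h1
  rw [Nat.card_Icc, Nat.add_sub_cancel] at h2
  have h3 : ((S.filter (fun m : ℕ => (m : ℝ) ≤ u)).card : ℝ) ≤ u := by
    refine le_trans (by exact_mod_cast h2) (Nat.floor_le hu.le)
  rw [mul_one_div, div_le_one hu]
  exact h3

theorem p09_short {C : ℝ} (hC : ∀ u v : ℝ, 0 < u → u ≤ v →
    ∑ m ∈ (Icc 1 ⌊v⌋₊).filter (fun m : ℕ => u < m), 1 / (Nat.totient m : ℝ) ≤
      C * (1 + Real.log (v / u))) (S : Finset ℕ) (hS : ∀ m ∈ S, 1 ≤ m) {u v : ℝ} (hu : 0 < u)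
    (huv : u ≤ v) :
    ∑ m ∈ S, (if u < (m : ℝ) ∧ (m : ℝ) ≤ v then 1 / (Nat.totient m : ℝ) else 0) ≤
      C * (1 + Real.log (v / u)) := by
  refine le_trans ?_ (hC u v hu huv)
  rw [← sum_filter]
  refine sum_le_sum_of_subset_of_nonneg ?_ fun m _ _ => by positivity
  intro m hm
  rw [mem_filter] at hm
  rw [mem_filter, mem_Icc]
  exact ⟨⟨hS m hm.1, Nat.le_floor hm.2.2⟩, hm.2.1⟩

theorem W09_pr : W09 := by
  obtain ⟨C1, hC1, h1⟩ := rphi_pr
  obtain ⟨C2, hC2, h2⟩ := shortsum_pr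
  obtain ⟨C3, hC3, h3⟩ := lq_one_upper_pr
  refine ⟨1 + C3 + (C1 ^ 4 + 9 * C1 ^ 3 * C2) * (11 ^ 4 * 2), by positivity, 3, ?_⟩
  intro N hN Y K hY hYN hKN q hq x
  rw [mem_Icc] at hq
  have hN3 : (3 : ℝ) ≤ N := by exact_mod_cast hN
  have hN0 : (0 : ℝ) < N := by linarith
  set L : ℝ := Real.log N with hL
  have hL1 : 1 ≤ L := by
    rw [hL, Real.le_log_iff_exp_le hN0]
    have := Real.exp_one_lt_d9
    linarith
  set l : ℝ := 1 + Real.log (1 + L) with hl
  have hl1 : 1 ≤ l := by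
    have : 0 ≤ Real.log (1 + L) := Real.log_nonneg (by linarith)
    linarith
  have hY0 : (0 : ℝ) < Y := by exact_mod_cast hY
  have hq0 : (0 : ℝ) < q := by exact_mod_cast hq.1
  have hphq : (0 : ℝ) < Nat.totient q := by exact_mod_cast Nat.totient_pos.2 hq.1
  set A : ℝ := (q : ℝ) / Nat.totient q with hA
  have hA0 : 0 < A := by positivity
  have hA1 : A ≤ C1 * l := p09_mono hC1 hq.1 (hq.2.trans hKN) (h1 q hq.1)
  set S : Finset ℕ := (Icc 1 (K / q)).filter (fun m => Squarefree m ∧ Nat.Coprime m q) with hS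
  have hS1 : ∀ m ∈ S, 1 ≤ m := fun m hm => (mem_Icc.1 (mem_filter.1 hm).1).1
  have hSN : ∀ m ∈ S, m ≤ N := by
    intro m hm
    have h4 := (mem_Icc.1 (mem_filter.1 hm).1).2
    exact h4.trans ((Nat.div_le_self K q).trans hKN)
  have hB : ∀ m ∈ S, (m : ℝ) / Nat.totient m ≤ C1 * l := fun m hm =>
    p09_mono hC1 (hS1 m hm) (hSN m hm) (h1 m (hS1 m hm))
  -- the scale
  set N' : ℝ := ((2 * N : ℕ) : ℝ) with hN'
  have hN'e : N' = 2 * N := by rw [hN']; push_cast; ring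
  have hN'0 : 0 < N' := by rw [hN'e]; linarith
  set L' : ℝ := Real.log N' with hL'
  have hL'1 : 1 ≤ L' := by
    refine hL1.trans ?_
    rw [hL', hL]
    apply Real.log_le_log hN0
    rw [hN'e]
    linarith
  have hL'2 : L' ≤ 1 + L := by
    rw [hL', hN'e, Real.log_mul (by norm_num) hN0.ne']
    have := Real.log_two_lt_d9
    linarith
  have hlL' : Real.log L' ≤ l - 1 := by
    rw [hl]
    have := Real.log_le_log (by linarith) hL'2
    linarith
  set β : ℝ := nn x with hβ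
  have hβ0 : 0 ≤ β := p09_nn x
  have hβa : |β| = β := abs_of_nonneg hβ0
  -- the value of `r / φ(r)`
  have hr : ∀ m ∈ S, (((q * m : ℕ) : ℝ) / Nat.totient (q * m)) = A * ((m : ℝ) / Nat.totient m) := by
    intro m hm
    have h4 : Nat.Coprime m q := (mem_filter.1 hm).2.2
    rw [Nat.totient_mul h4.symm]
    push_cast
    rw [hA]
    field_simp
  -- first term
  have T1 : A * ∑ m ∈ S, 1 / (Nat.totient m : ℝ) ≤ (1 + C3) * L := by
    have h4 := lq_upper_pr q (K / q) hq.1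
    unfold Lq at h4
    rw [← hS] at h4
    have h5 : 1 ≤ q * (K / q) := by
      have : 1 ≤ K / q := (Nat.one_le_div_iff hq.1).2 hq.2
      exact Nat.one_le_iff_ne_zero.2 (Nat.mul_ne_zero (by omega) (by omega))
    have h6 := h3 _ h5
    unfold Lq at h6
    have h7 : Real.log ((q * (K / q) : ℕ) : ℝ) ≤ L := by
      apply Real.log_le_log (by exact_mod_cast h5)
      exact_mod_cast (Nat.mul_div_le K q).trans hKN
    calc A * ∑ m ∈ S, 1 / (Nat.totient m : ℝ) ≤ A * ((Nat.totient q / q : ℝ) *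
          ∑ m ∈ (Icc 1 (q * (K / q))).filter (fun m => Squarefree m ∧ Nat.Coprime m 1),
            1 / (Nat.totient m : ℝ)) := by gcongr
      _ = ∑ m ∈ (Icc 1 (q * (K / q))).filter (fun m => Squarefree m ∧ Nat.Coprime m 1),
            1 / (Nat.totient m : ℝ) := by
          rw [hA]
          field_simp
      _ ≤ Real.log ((q * (K / q) : ℕ) : ℝ) + C3 := h6
      _ ≤ (1 + C3) * L := by nlinarith
  -- second term
  set u : ℝ := N' / (q * Y) with hu
  have hu0 : 0 < u := by positivity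
  have T2 : A * ∑ m ∈ S, 1 / (Nat.totient m : ℝ) * al (2 * N) Y (q * m) β ≤
      (C1 ^ 4 + 3 * C1 ^ 3 * C2) * l ^ 4 := by
    have hterm : ∀ m ∈ S, 1 / (Nat.totient m : ℝ) * al (2 * N) Y (q * m) β ≤
        A * (C1 * l) ^ 2 * (if (m : ℝ) ≤ u then 1 / u else 0) +
        A * (C1 * l) * (if u < (m : ℝ) ∧ (m : ℝ) ≤ u * L' ^ 2 then 1 / (Nat.totient m : ℝ)
          else 0) := by
      intro m hm
      have hm1 : (1 : ℝ) ≤ m := by exact_mod_cast hS1 m hm
      have hphm : (0 : ℝ) < Nat.totient m := by exact_mod_cast Nat.totient_pos.2 (hS1 m hm)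
      have hBm := hB m hm
      set Bm : ℝ := (m : ℝ) / Nat.totient m with hBmdef
      have hBm0 : 0 < Bm := by positivity
      have hpos1 : 0 ≤ A * (C1 * l) ^ 2 * (if (m : ℝ) ≤ u then 1 / u else 0) := by
        split_ifs <;> positivity
      have hpos2 : 0 ≤ A * (C1 * l) * (if u < (m : ℝ) ∧ (m : ℝ) ≤ u * L' ^ 2 then
          1 / (Nat.totient m : ℝ) else 0) := by
        split_ifs <;> positivity
      unfold al
      by_cases hc : ((q * m : ℕ) : ℝ) * Y < ((2 * N : ℕ) : ℝ) * Real.log ((2 * N : ℕ) : ℝ) ^ 2 ∧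
        |β| * (((q * m : ℕ) : ℝ) * Y) < Real.log ((2 * N : ℕ) : ℝ) ^ 2
      swap
      · rw [if_neg hc, mul_zero]
        linarith
      rw [if_pos hc, hr m hm, ← hBmdef]
      have hmu : ((q * m : ℕ) : ℝ) * Y / ((2 * N : ℕ) : ℝ) = m / u := by
        rw [hu, ← hN']
        push_cast
        field_simp
      rw [hmu]
      rcases le_or_gt (m : ℝ) u with hle | hgt
      · rw [if_pos hle]
        have h5 : 1 / (Nat.totient m : ℝ) * (A * Bm * min 1 (m / u)) ≤
            A * (C1 * l) ^ 2 * (1 / u) := by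
          calc 1 / (Nat.totient m : ℝ) * (A * Bm * min 1 (m / u)) ≤
              1 / (Nat.totient m : ℝ) * (A * Bm * (m / u)) := by
                gcongr
                exact min_le_right _ _
            _ = A * (Bm * Bm) * (1 / u) := by
                rw [hBmdef]
                field_simp
            _ ≤ A * ((C1 * l) * (C1 * l)) * (1 / u) := by gcongr
            _ = A * (C1 * l) ^ 2 * (1 / u) := by ring
        linarith
      · have hlt : (m : ℝ) ≤ u * L' ^ 2 := by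
          have h6 := hc.1
          rw [← hN'] at h6
          rw [hu, div_mul_eq_mul_div, le_div_iff₀ (by positivity)]
          have h7 : ((q * m : ℕ) : ℝ) * Y = m * (q * Y) := by
            push_cast
            ring
          rw [← h7]
          exact h6.le
        rw [if_neg (not_le.2 hgt), if_pos ⟨hgt, hlt⟩, mul_zero, zero_add]
        have h5 : 1 / (Nat.totient m : ℝ) * (A * Bm * min 1 (m / u)) ≤
            A * (C1 * l) * (1 / (Nat.totient m : ℝ)) := by
          calc 1 / (Nat.totient m : ℝ) * (A * Bm * min 1 (m / u)) ≤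
              1 / (Nat.totient m : ℝ) * (A * (C1 * l) * 1) := by
                gcongr
                exact min_le_left _ _
            _ = A * (C1 * l) * (1 / (Nat.totient m : ℝ)) := by ring
        linarith
    have hL'sq : 1 ≤ L' ^ 2 := one_le_pow₀ hL'1
    have huv : u ≤ u * L' ^ 2 := le_mul_of_one_le_right hu0.le hL'sq
    have hsh := p09_short h2 S hS1 hu0 huv
    have hlog : 1 + Real.log (u * L' ^ 2 / u) ≤ 3 * l := by
      have : u * L' ^ 2 / u = L' ^ 2 := by field_simp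
      rw [this, Real.log_pow]
      push_cast
      linarith
    calc A * ∑ m ∈ S, 1 / (Nat.totient m : ℝ) * al (2 * N) Y (q * m) β
        ≤ A * ∑ m ∈ S, (A * (C1 * l) ^ 2 * (if (m : ℝ) ≤ u then 1 / u else 0) +
        A * (C1 * l) * (if u < (m : ℝ) ∧ (m : ℝ) ≤ u * L' ^ 2 then 1 / (Nat.totient m : ℝ)
          else 0)) := by
          exact mul_le_mul_of_nonneg_left (sum_le_sum fun m hm => hterm m hm) hA0.le
      _ = A * (A * (C1 * l) ^ 2 * ∑ m ∈ S, (if (m : ℝ) ≤ u then 1 / u else 0) +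
          A * (C1 * l) * ∑ m ∈ S, (if u < (m : ℝ) ∧ (m : ℝ) ≤ u * L' ^ 2 then
            1 / (Nat.totient m : ℝ) else 0)) := by
          rw [sum_add_distrib, ← mul_sum, ← mul_sum]
      _ ≤ A * (A * (C1 * l) ^ 2 * 1 + A * (C1 * l) * (C2 * (3 * l))) := by
          gcongr
          · exact p09_card S hS1 hu0
          · exact hsh.trans (by gcongr)
      _ ≤ (C1 * l) * ((C1 * l) * (C1 * l) ^ 2 * 1 + (C1 * l) * (C1 * l) * (C2 * (3 * l))) := by
          gcongr
      _ = (C1 ^ 4 + 3 * C1 ^ 3 * C2) * l ^ 4 := by ring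
  -- third term
  have T3 : A * ∑ m ∈ S, 1 / (Nat.totient m : ℝ) * ga (2 * N) Y (q * m) β ≤
      (6 * C1 ^ 3 * C2) * l ^ 4 := by
    rcases eq_or_lt_of_le hβ0 with h0 | h0
    · have hz : ∑ m ∈ S, 1 / (Nat.totient m : ℝ) * ga (2 * N) Y (q * m) β = 0 := by
        refine sum_eq_zero fun m _ => ?_
        unfold ga
        rw [if_neg, mul_zero]
        rintro ⟨-, h4, -⟩
        rw [← h0] at h4
        norm_num at h4
      rw [hz, mul_zero]
      positivity
    set w : ℝ := β * (q * Y) with hw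
    have hw0 : 0 < w := by positivity
    have hterm : ∀ m ∈ S, 1 / (Nat.totient m : ℝ) * ga (2 * N) Y (q * m) β ≤
        A * (C1 * l) * (if 1 / (16 * w) < (m : ℝ) ∧ (m : ℝ) ≤ L' ^ 2 / w then
          1 / (Nat.totient m : ℝ) else 0) := by
      intro m hm
      have hm1 : (1 : ℝ) ≤ m := by exact_mod_cast hS1 m hm
      have hphm : (0 : ℝ) < Nat.totient m := by exact_mod_cast Nat.totient_pos.2 (hS1 m hm)
      have hBm := hB m hm
      set Bm : ℝ := (m : ℝ) / Nat.totient m with hBmdef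
      have hBm0 : 0 < Bm := by positivity
      have hpos2 : 0 ≤ A * (C1 * l) * (if 1 / (16 * w) < (m : ℝ) ∧ (m : ℝ) ≤ L' ^ 2 / w then
          1 / (Nat.totient m : ℝ) else 0) := by
        split_ifs <;> positivity
      unfold ga
      by_cases hc : ((q * m : ℕ) : ℝ) * Y < ((2 * N : ℕ) : ℝ) ∧
        1 ≤ 8 * (|β| * (((q * m : ℕ) : ℝ) * Y)) ∧
        |β| * (((q * m : ℕ) : ℝ) * Y) < Real.log ((2 * N : ℕ) : ℝ) ^ 2
      swap
      · rw [if_neg hc, mul_zero]
        exact hpos2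
      rw [if_pos hc, hr m hm, ← hBmdef]
      have hmw : |β| * (((q * m : ℕ) : ℝ) * Y) = m * w := by
        rw [hβa, hw]
        push_cast
        ring
      obtain ⟨-, c2, c3⟩ := hc
      rw [hmw] at c2 c3
      rw [← hN', ← hL'] at c3
      have hlow : 1 / (16 * w) < (m : ℝ) := by
        rw [div_lt_iff₀ (by positivity)]
        linarith
      have hup : (m : ℝ) ≤ L' ^ 2 / w := by
        rw [le_div_iff₀ hw0]
        exact c3.le
      rw [if_pos ⟨hlow, hup⟩]
      calc 1 / (Nat.totient m : ℝ) * (A * Bm) ≤ 1 / (Nat.totient m : ℝ) * (A * (C1 * l)) := by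
            gcongr
        _ = A * (C1 * l) * (1 / (Nat.totient m : ℝ)) := by ring
    have hL'sq : 1 ≤ L' ^ 2 := one_le_pow₀ hL'1
    have huv : 1 / (16 * w) ≤ L' ^ 2 / w := by
      rw [div_le_div_iff₀ (by positivity) hw0]
      nlinarith
    have hsh := p09_short h2 S hS1 (by positivity) huv
    have hlog : 1 + Real.log (L' ^ 2 / w / (1 / (16 * w))) ≤ 6 * l := by
      have : L' ^ 2 / w / (1 / (16 * w)) = 2 ^ 4 * L' ^ 2 := by
        field_simp
        norm_num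
      rw [this, Real.log_mul (by norm_num) (by positivity), Real.log_pow, Real.log_pow]
      push_cast
      have := Real.log_two_lt_d9
      linarith
    calc A * ∑ m ∈ S, 1 / (Nat.totient m : ℝ) * ga (2 * N) Y (q * m) β
        ≤ A * ∑ m ∈ S, A * (C1 * l) * (if 1 / (16 * w) < (m : ℝ) ∧ (m : ℝ) ≤ L' ^ 2 / w then
          1 / (Nat.totient m : ℝ) else 0) := by
          exact mul_le_mul_of_nonneg_left (sum_le_sum fun m hm => hterm m hm) hA0.le
      _ = A * (A * (C1 * l) * ∑ m ∈ S, (if 1 / (16 * w) < (m : ℝ) ∧ (m : ℝ) ≤ L' ^ 2 / w then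
            1 / (Nat.totient m : ℝ) else 0)) := by
          rw [← mul_sum]
      _ ≤ A * (A * (C1 * l) * (C2 * (6 * l))) := by
          gcongr
          exact hsh.trans (by gcongr)
      _ ≤ (C1 * l) * ((C1 * l) * (C1 * l) * (C2 * (6 * l))) := by
          gcongr
      _ = (6 * C1 ^ 3 * C2) * l ^ 4 := by ring
  have hsum : ∑ m ∈ S, 1 / (Nat.totient m : ℝ) * wt N Y (q * m) x =
      ∑ m ∈ S, 1 / (Nat.totient m : ℝ) +
      ∑ m ∈ S, 1 / (Nat.totient m : ℝ) * al (2 * N) Y (q * m) β +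
      ∑ m ∈ S, 1 / (Nat.totient m : ℝ) * ga (2 * N) Y (q * m) β := by
    rw [← sum_add_distrib, ← sum_add_distrib]
    refine sum_congr rfl fun m _ => ?_
    unfold wt
    ring
  rw [hsum, mul_add, mul_add]
  have hl4 := p09_l hL1
  rw [← hl] at hl4
  have hfin : (C1 ^ 4 + 9 * C1 ^ 3 * C2) * l ^ 4 ≤
      (C1 ^ 4 + 9 * C1 ^ 3 * C2) * (11 ^ 4 * 2) * L := by
    calc (C1 ^ 4 + 9 * C1 ^ 3 * C2) * l ^ 4 ≤
        (C1 ^ 4 + 9 * C1 ^ 3 * C2) * (11 ^ 4 * (2 * L)) := by gcongr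
      _ = _ := by ring
  calc _ ≤ (1 + C3) * L + (C1 ^ 4 + 3 * C1 ^ 3 * C2) * l ^ 4 + (6 * C1 ^ 3 * C2) * l ^ 4 :=
        add_le_add (add_le_add T1 T2) T3
    _ = (1 + C3) * L + (C1 ^ 4 + 9 * C1 ^ 3 * C2) * l ^ 4 := by ring
    _ ≤ _ := by linarith

end Pool.Agent.FGP
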