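import Pool.Agent.Lib_helper3.FGP.Wanted

/-! Block P07 of FGP (T3P): the weighted mean square. -/

set_option autoImplicit false

namespace Pool.Agent.FGP

open Finset Pool.Agent.Var35 Pool.Agent.Var73 Pool.Agent.PV
open scoped ArithmeticFunction ArithmeticFunction.Moebius

section P07

theorem p07_shift {m : ℕ} {h : ℤ → ℝ} (hp : ∀ x, h (x + m) = h x) (k : ℕ) :
    ∑ j ∈ range m, h ((j : ℤ) - k) = ∑ j ∈ range m, h (j : ℤ) := by
  induction k with
  | zero => simp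
  | succ k ih =>
      rw [← ih]
      rcases m with _ | m
      · simp
      · rw [sum_range_succ', sum_range_succ]
        congr 1
        · refine sum_congr rfl fun j _ => ?_
          congr 1
          push_cast
          ring
        · rw [← hp]
          congr 1
          push_cast
          ring

theorem p07_mean_shift {M : ℕ} (hM : 0 < M) {G : ℝ → ℝ} (hG : ∀ x, G (x + 1) = G x) {c r : ℕ}
    (hr : 0 < r) (hrM : r ∣ M) :
    mean M (range M) (fun t => G (t - c / r)) = mean M (range M) G := by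
  obtain ⟨d, rfl⟩ := hrM
  unfold mean
  congr 1
  have hM' : ((r * d : ℕ) : ℝ) ≠ 0 := by exact_mod_cast hM.ne'
  have hr' : (r : ℝ) ≠ 0 := by exact_mod_cast hr.ne'
  have hd' : (d : ℝ) ≠ 0 := by
    intro h
    apply hM'
    push_cast
    rw [h, mul_zero]
  have key := p07_shift (m := r * d) (h := fun x : ℤ => G ((x : ℝ) / ((r * d : ℕ) : ℝ)))
    (fun x => by
      have e : (((x + ((r * d : ℕ) : ℤ) : ℤ)) : ℝ) / ((r * d : ℕ) : ℝ) =
          (x : ℝ) / ((r * d : ℕ) : ℝ) + 1 := by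
        push_cast
        push_cast at hM'
        field_simp
      show G (((x + ((r * d : ℕ) : ℤ) : ℤ) : ℝ) / ((r * d : ℕ) : ℝ)) = _
      rw [e, hG]) (c * d)
  simp only [Int.cast_natCast] at key
  rw [← key]
  refine sum_congr rfl fun j _ => ?_
  push_cast
  push_cast at hM'
  field_simp

theorem p07_mono {M : ℕ} {F G : ℝ → ℝ} (h : ∀ t, F t ≤ G t) :
    mean M (range M) F ≤ mean M (range M) G := by
  unfold mean
  exact mul_le_mul_of_nonneg_left (sum_le_sum fun j _ => h _) (by positivity)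

theorem p07_mul {M : ℕ} (C : ℝ) (F : ℝ → ℝ) :
    mean M (range M) (fun t => C * F t) = C * mean M (range M) F := by
  unfold mean
  rw [← mul_sum]
  ring

theorem p07_sum {M : ℕ} {ι : Type} (s : Finset ι) (F : ι → ℝ → ℝ) :
    mean M (range M) (fun t => ∑ i ∈ s, F i t) = ∑ i ∈ s, mean M (range M) (F i) := by
  unfold mean
  rw [sum_comm, mul_sum]

theorem p07_nn (x : ℝ) : nn (x + 1) = nn x := by
  unfold nn
  rw [round_add_one]
  push_cast
  congr 1
  ring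

theorem p07_e (n : ℤ) (b : ℝ) : e ((n : ℝ) * (b + 1)) = e (n * b) := by
  rw [mul_add, mul_one, e_add_int]

theorem p07_en (n : ℕ) (b : ℝ) : e ((n : ℝ) * (b + 1)) = e (n * b) := by
  have := p07_e n b
  simpa using this

theorem p07_Ps (N : ℕ) (b : ℝ) : Ps N (b + 1) = Ps N b := by
  unfold Ps Bs
  exact sum_congr rfl fun n _ => by rw [p07_en]

theorem p07_In (N : ℕ) (b : ℝ) : In N (b + 1) = In N b := by
  unfold In
  exact sum_congr rfl fun n _ => by rw [p07_en]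

theorem p07_vh (N K : ℕ) (b : ℝ) : vh N K (b + 1) = vh N K b := by
  unfold vh
  refine sum_congr rfl fun m _ => ?_
  congr 1
  have e1 : 2 * Real.pi * ((m : ℝ) * (b + 1)) = 2 * Real.pi * (m * b) + m * (2 * Real.pi) := by
    ring
  rw [e1, Real.cos_add_int_mul_two_pi]

theorem p07_wt (N Y r : ℕ) (b : ℝ) : wt N Y r (b + 1) = wt N Y r b := by
  unfold wt
  rw [p07_nn]

theorem p07_exch (K : ℕ) (f : ℕ → ℕ → ℝ) :
    ∑ r ∈ Icc 1 K, ∑ q ∈ r.divisors.erase 1, f q (r / q) =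
      ∑ q ∈ Ioc 1 K, ∑ m ∈ Icc 1 (K / q), f q m := by
  rw [sum_sigma', sum_sigma']
  refine sum_bij' (fun x _ => ⟨x.2, x.1 / x.2⟩) (fun x _ => ⟨x.1 * x.2, x.1⟩) ?_ ?_ ?_ ?_ ?_
  · rintro ⟨r, q⟩ h
    simp only [mem_sigma, mem_Icc, mem_erase, Nat.mem_divisors, mem_Ioc] at h ⊢
    obtain ⟨⟨h1, h2⟩, h3, h4, h5⟩ := h
    have hq : 0 < q := Nat.pos_of_dvd_of_pos h4 h1
    have hqr : q ≤ r := Nat.le_of_dvd h1 h4
    exact ⟨⟨by omega, by omega⟩, Nat.div_pos hqr hq, Nat.div_le_div_right h2⟩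
  · rintro ⟨q, m⟩ h
    simp only [mem_sigma, mem_Icc, mem_erase, Nat.mem_divisors, mem_Ioc] at h ⊢
    obtain ⟨⟨h1, h2⟩, h3, h4⟩ := h
    have hq : 0 < q := by omega
    have h5 : q * m ≤ K := by
      have := (Nat.le_div_iff_mul_le hq).1 h4
      rwa [mul_comm] at this
    exact ⟨⟨Nat.mul_pos hq h3, h5⟩, by omega, Dvd.intro _ rfl,
      (Nat.mul_pos hq h3).ne'⟩
  · rintro ⟨r, q⟩ h
    simp only [mem_sigma, mem_Icc, mem_erase, Nat.mem_divisors] at h
    obtain ⟨⟨h1, h2⟩, h3, h4, h5⟩ := h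
    simp only [Nat.mul_div_cancel' h4]
  · rintro ⟨q, m⟩ h
    simp only [mem_sigma, mem_Icc, mem_Ioc] at h
    obtain ⟨⟨h1, h2⟩, h3, h4⟩ := h
    have hq : 0 < q := by omega
    simp only [Nat.mul_div_cancel_left m hq]
  · rintro ⟨r, q⟩ h
    rfl

/-- the pointwise bound -/
theorem p07_point {C : ℝ} {N Y K : ℕ} (hKN : K ≤ Nat.sqrt N) (h06 : W06) (b : ℝ)
    (h09 : ∀ q ∈ Icc 1 K, ∀ x : ℝ,
      (q / Nat.totient q : ℝ) * ∑ m ∈ (Icc 1 (K / q)).filter
        (fun m => Squarefree m ∧ Nat.Coprime m q),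
        1 / (Nat.totient m : ℝ) * wt N Y (q * m) x ≤ C * Real.log N) (hK : 1 ≤ K) :
    ∑ r ∈ Icc 1 K, wt N Y r b *
      ∑ c ∈ Cd r, ‖Ps N (c / r + b) - ((mr r : ℝ) : ℂ) * In N b‖ ^ 2 ≤
      C * Real.log N * ((∑ q ∈ Ioc 1 K, Tp (fun n => (aS N n : ℂ) * e (n * b)) N q) +
        ‖Ps N b - In N b‖ ^ 2) := by
  classical
  set T : ℕ → ℝ := fun q => Tp (fun n => (aS N n : ℂ) * e (n * b)) N q with hT
  have hT0 : ∀ q, 0 ≤ T q := fun q => by
    rw [hT]
    exact sum_nonneg fun ψ _ => by positivity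
  set Z : ℝ := ‖Ps N b - In N b‖ ^ 2 with hZ
  have hZ0 : 0 ≤ Z := by positivity
  obtain ⟨f, hf⟩ : ∃ f : ℕ → ℕ → ℝ, ∀ q m, f q m = (if Squarefree m ∧ Nat.Coprime m q then
        (q / Nat.totient q : ℝ) * (1 / (Nat.totient m : ℝ)) else 0) * wt N Y (q * m) b * T q :=
    ⟨_, fun _ _ => rfl⟩
  have e1 : ∀ r ∈ Icc 1 K, wt N Y r b *
      ∑ c ∈ Cd r, ‖Ps N (c / r + b) - ((mr r : ℝ) : ℂ) * In N b‖ ^ 2 =
      (∑ q ∈ r.divisors.erase 1, f q (r / q)) +
      (if Squarefree r then 1 / (Nat.totient r : ℝ) else 0) * wt N Y r b * Z := by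
    intro r hr
    have hr1 := (mem_Icc.1 hr).1
    rw [h06 N r b hr1 ((mem_Icc.1 hr).2.trans hKN), mul_add, mul_sum]
    congr 1
    · refine sum_congr rfl fun q hq => ?_
      have hqr : q ∣ r := (Nat.mem_divisors.1 (mem_of_mem_erase hq)).1
      rw [hf, Nat.mul_div_cancel' hqr]
      simp only [hT]
      ring
    · rw [hZ]
      ring
  rw [sum_congr rfl e1, sum_add_distrib, p07_exch, ← sum_mul, mul_add]
  have e2 : ∀ q ∈ Ioc 1 K, ∑ m ∈ Icc 1 (K / q), f q m ≤ C * Real.log N * T q := by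
    intro q hq
    simp only [hf]
    have hq1 := mem_Ioc.1 hq
    have h := h09 q (mem_Icc.2 ⟨hq1.1.le, hq1.2⟩) b
    rw [← sum_mul]
    refine mul_le_mul_of_nonneg_right ?_ (hT0 q)
    refine le_of_eq_of_le ?_ h
    rw [sum_filter, mul_sum]
    refine sum_congr rfl fun m _ => ?_
    split_ifs <;> ring
  refine add_le_add ?_ ?_
  · rw [mul_sum]
    exact sum_le_sum e2
  · refine mul_le_mul_of_nonneg_right ?_ hZ0
    have h := h09 1 (mem_Icc.2 ⟨le_rfl, hK⟩) b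
    refine le_of_eq_of_le ?_ h
    rw [sum_filter, Nat.totient_one, Nat.cast_one, div_one, one_mul, Nat.div_one]
    refine sum_congr rfl fun m _ => ?_
    rw [one_mul]
    simp only [Nat.coprime_one_right_iff, and_true]
    split_ifs <;> ring

theorem p07_sqrt {N K : ℕ} (h : Rg K N) : K ≤ Nat.sqrt N := by
  rw [Nat.le_sqrt']
  exact (Nat.pow_le_pow_right (by have := h.hK; omega) (by norm_num)).trans h.hN

theorem p07_Mw {N K : ℕ} (h : Rg K N) : 2 * Mw N K ≤ N := by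
  have hK : (10 : ℝ) ≤ K := by exact_mod_cast h.hK
  have hN1 : 1 ≤ N := by
    refine le_trans ?_ h.hN
    exact Nat.one_le_pow _ _ (by have := h.hK; omega)
  have hL0 : 0 ≤ Real.log N := Real.log_nonneg (by exact_mod_cast hN1)
  have hL : Real.log N ≤ K := by
    by_contra hc
    push Not at hc
    have h1 : (K : ℝ) < Real.log N ^ 100 := by
      calc (K : ℝ) < Real.log N := hc
        _ ≤ Real.log N ^ 100 := le_self_pow₀ (by linarith) (by norm_num)
    exact absurd h.hL (not_le.2 h1)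
  have h1 : (Mw N K : ℝ) ≤ Hw N K * Real.log N := by
    unfold Mw
    refine Nat.floor_le (mul_nonneg ?_ hL0)
    unfold Hw
    positivity
  have h2 : Hw N K * Real.log N ≤ N / 2 := by
    unfold Hw
    have hK8 : (0 : ℝ) < (K : ℝ) ^ 8 := by positivity
    rw [div_mul_eq_mul_div, div_le_div_iff₀ hK8 (by norm_num)]
    have h3 : Real.log N * 2 ≤ (K : ℝ) ^ 8 := by
      calc Real.log N * 2 ≤ K * K := mul_le_mul hL (by linarith) (by norm_num) (by linarith)
        _ = (K : ℝ) ^ 2 := by ring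
        _ ≤ (K : ℝ) ^ 8 := pow_le_pow_right₀ (by linarith) (by norm_num)
    have hN0 : (0 : ℝ) ≤ N := by positivity
    nlinarith
  have h3 : (2 * Mw N K : ℝ) ≤ N := by linarith
  exact_mod_cast h3

theorem W07_pr (h06 : W06) (h07a : W07a) (h09 : W09) : W07 := by
  obtain ⟨C, hC, N0, h09⟩ := h09
  refine ⟨C, hC, N0, fun K hK N hR M hM Y hY1 hYN => ?_⟩
  have hK10 := hR.hK
  have hKs := p07_sqrt hR
  have hKN : K ≤ N := hKs.trans (Nat.sqrt_le_self N)
  have hN0 : N0 ≤ N := hK.trans hKN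
  have hM0 : 0 < M := by have := hM.1; omega
  have h09' := h09 N hN0 Y K hY1 hYN hKN
  rw [← h07a N K M hM (p07_Mw hR), ← p07_mul]
  -- move the sums out, shift, move the sums in
  have e1 : mean M (range M) (fun t => ∑ r ∈ Icc 1 K, ∑ c ∈ Cd r,
      vh N K (t - c / r) ^ 2 * wt N Y r (t - c / r) * ‖Xc N c r t‖ ^ 2) =
      mean M (range M) (fun b => vh N K b ^ 2 * ∑ r ∈ Icc 1 K, wt N Y r b *
        ∑ c ∈ Cd r, ‖Ps N (c / r + b) - ((mr r : ℝ) : ℂ) * In N b‖ ^ 2) := by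
    have e2 : (fun b => vh N K b ^ 2 * ∑ r ∈ Icc 1 K, wt N Y r b *
        ∑ c ∈ Cd r, ‖Ps N (c / r + b) - ((mr r : ℝ) : ℂ) * In N b‖ ^ 2) =
        fun b => ∑ r ∈ Icc 1 K, ∑ c ∈ Cd r, vh N K b ^ 2 * wt N Y r b *
          ‖Ps N (c / r + b) - ((mr r : ℝ) : ℂ) * In N b‖ ^ 2 := by
      funext b
      rw [mul_sum]
      refine sum_congr rfl fun r _ => ?_
      rw [← mul_assoc, mul_sum]
    rw [e2, p07_sum, p07_sum]
    refine sum_congr rfl fun r hr => ?_
    rw [p07_sum, p07_sum]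
    refine sum_congr rfl fun c _ => ?_
    have hr1 := mem_Icc.1 hr
    have hrM : r ∣ M := hM.2 r hr1.1 (hr1.2.trans (hKs.trans (Nat.sqrt_le_sqrt (by omega))))
    have e3 : (fun t => vh N K (t - c / r) ^ 2 * wt N Y r (t - c / r) * ‖Xc N c r t‖ ^ 2) =
        fun t => (fun b : ℝ => vh N K b ^ 2 * wt N Y r b *
          ‖Ps N (c / r + b) - ((mr r : ℝ) : ℂ) * In N b‖ ^ 2) (t - c / r) := by
      funext t
      have e4 : (c : ℝ) / r + (t - c / r) = t := by ring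
      simp only [Xc, e4]
    rw [e3]
    refine p07_mean_shift hM0 (G := fun b : ℝ => vh N K b ^ 2 * wt N Y r b *
          ‖Ps N (c / r + b) - ((mr r : ℝ) : ℂ) * In N b‖ ^ 2) (fun x => ?_) hr1.1 hrM
    rw [p07_vh, p07_wt, p07_In, ← add_assoc, p07_Ps]
  rw [e1]
  refine p07_mono fun b => ?_
  have h := p07_point hKs h06 b h09' (by omega)
  calc vh N K b ^ 2 * ∑ r ∈ Icc 1 K, wt N Y r b *
        ∑ c ∈ Cd r, ‖Ps N (c / r + b) - ((mr r : ℝ) : ℂ) * In N b‖ ^ 2
      ≤ vh N K b ^ 2 * (C * Real.log N * ((∑ q ∈ Ioc 1 K,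
          Tp (fun n => (aS N n : ℂ) * e (n * b)) N q) + ‖Ps N b - In N b‖ ^ 2)) :=
        mul_le_mul_of_nonneg_left h (by positivity)
    _ = _ := by ring

end P07

end Pool.Agent.FGP
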