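import Pool.Agent.Lib_helper3.FGP.Wanted

set_option autoImplicit false

namespace Pool.Agent.FGP

open Finset Pool.Agent.Var35 Pool.Agent.Var73 Pool.Agent.PV
open scoped ArithmeticFunction ArithmeticFunction.Moebius

theorem p07b_wt (N Y r : ℕ) (x : ℝ) : 1 ≤ wt N Y r x := by
  unfold wt
  have h1 : 0 ≤ al (2 * N) Y r (nn x) := by
    unfold al
    positivity
  have h2 : 0 ≤ ga (2 * N) Y r (nn x) := by
    unfold ga
    positivity
  linarith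

theorem p07b_point (N K Y : ℕ) (t : ℝ) (hW : Wt N K t ≤ 2) :
    ‖Fh N K t‖ ^ 2 ≤ 2 * ∑ r ∈ Icc 1 K, ∑ c ∈ Cd r,
      vh N K (t - c / r) ^ 2 * wt N Y r (t - c / r) * ‖Xc N c r t‖ ^ 2 := by
  have h1 : ‖Fh N K t‖ ≤ ∑ x ∈ (Icc 1 K).sigma fun r => Cd r,
      vh N K (t - x.2 / x.1) * (vh N K (t - x.2 / x.1) * ‖Xc N x.2 x.1 t‖) := by
    unfold Fh
    rw [Finset.sum_sigma']
    refine (norm_sum_le _ _).trans (Finset.sum_le_sum fun x _ => ?_)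
    rw [norm_mul, Complex.norm_real, Real.norm_eq_abs, abs_of_nonneg (sq_nonneg _)]
    apply le_of_eq
    ring
  have h2 : (∑ x ∈ (Icc 1 K).sigma fun r => Cd r,
      vh N K (t - x.2 / x.1) * (vh N K (t - x.2 / x.1) * ‖Xc N x.2 x.1 t‖)) ^ 2 ≤
      (∑ x ∈ (Icc 1 K).sigma fun r => Cd r, vh N K (t - x.2 / x.1) ^ 2) *
      ∑ x ∈ (Icc 1 K).sigma fun r => Cd r, (vh N K (t - x.2 / x.1) * ‖Xc N x.2 x.1 t‖) ^ 2 :=
    Finset.sum_mul_sq_le_sq_mul_sq _ _ _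
  have h3 : (∑ x ∈ (Icc 1 K).sigma fun r => Cd r, vh N K (t - x.2 / x.1) ^ 2) = Wt N K t := by
    unfold Wt
    rw [Finset.sum_sigma']
  have h4 : ∑ x ∈ (Icc 1 K).sigma fun r => Cd r,
      (vh N K (t - x.2 / x.1) * ‖Xc N x.2 x.1 t‖) ^ 2 ≤ ∑ r ∈ Icc 1 K, ∑ c ∈ Cd r,
      vh N K (t - c / r) ^ 2 * wt N Y r (t - c / r) * ‖Xc N c r t‖ ^ 2 := by
    rw [Finset.sum_sigma']
    refine Finset.sum_le_sum fun x _ => ?_
    rw [mul_pow]
    refine mul_le_mul_of_nonneg_right ?_ (sq_nonneg _)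
    exact le_mul_of_one_le_right (sq_nonneg _) (p07b_wt _ _ _ _)
  have h5 : 0 ≤ ∑ x ∈ (Icc 1 K).sigma fun r => Cd r,
      (vh N K (t - x.2 / x.1) * ‖Xc N x.2 x.1 t‖) ^ 2 := Finset.sum_nonneg fun _ _ => sq_nonneg _
  calc ‖Fh N K t‖ ^ 2 ≤ (∑ x ∈ (Icc 1 K).sigma fun r => Cd r,
      vh N K (t - x.2 / x.1) * (vh N K (t - x.2 / x.1) * ‖Xc N x.2 x.1 t‖)) ^ 2 :=
        pow_le_pow_left₀ (norm_nonneg _) h1 2
    _ ≤ _ := h2
    _ ≤ 2 * ∑ x ∈ (Icc 1 K).sigma fun r => Cd r,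
        (vh N K (t - x.2 / x.1) * ‖Xc N x.2 x.1 t‖) ^ 2 := by
        rw [h3]
        exact mul_le_mul_of_nonneg_right hW h5
    _ ≤ _ := mul_le_mul_of_nonneg_left h4 (by norm_num)

theorem W07b_pr (h04 : W04) (h07 : W07) : W07b := by
  obtain ⟨C4, hC4, K4, h4⟩ := h04
  obtain ⟨C7, hC7, K7, h7⟩ := h07
  refine ⟨2 * C7, by positivity, max K4 K7, fun K hK N hR M hM => ?_⟩
  have hN : 1 ≤ N := by
    have h1 := hR.hN
    have hK0 : 0 < K := by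
      have := hR.hK
      omega
    have h2 : 0 < K ^ 400 := pow_pos hK0 _
    exact lt_of_lt_of_le h2 h1
  have h1 := h7 K (le_trans (le_max_right _ _) hK) N hR M hM N hN le_rfl
  have hW := (h4 K (le_trans (le_max_left _ _) hK) N hR).1
  have h2 : ms M (Fh N K) ≤ 2 * mean M (range M) (fun t => ∑ r ∈ Icc 1 K, ∑ c ∈ Cd r,
      vh N K (t - c / r) ^ 2 * wt N N r (t - c / r) * ‖Xc N c r t‖ ^ 2) := by
    have h4 : ∀ (f g : ℝ → ℝ), (∀ t, f t ≤ 2 * g t) →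
        mean M (range M) f ≤ 2 * mean M (range M) g := by
      intro f g hfg
      unfold mean
      have h3 : (0 : ℝ) ≤ 1 / (M : ℝ) := by positivity
      have h5 : 2 * (1 / (M : ℝ) * ∑ j ∈ range M, g ((j : ℝ) / M)) =
          1 / (M : ℝ) * ∑ j ∈ range M, 2 * g ((j : ℝ) / M) := by
        rw [← Finset.mul_sum]
        ring
      rw [h5]
      exact mul_le_mul_of_nonneg_left (Finset.sum_le_sum fun j _ => hfg _) h3
    unfold ms
    exact h4 _ _ fun t => p07b_point N K N t (hW t).2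
  refine h2.trans ((mul_le_mul_of_nonneg_left h1 (by norm_num)).trans (le_of_eq ?_))
  ring

end Pool.Agent.FGP
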