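import Pool.Agent.Lib_helper3.FGP.Wanted

/-!
# FGP: block P07a (Parseval for the energy)
-/

set_option autoImplicit false

namespace Pool.Agent.FGP

open Finset Pool.Agent.Var35 Pool.Agent.Var73 Pool.Agent.PV
open scoped ArithmeticFunction ArithmeticFunction.Moebius

/-- Parseval on the grid, integer frequencies -/
theorem p07a_pars (M : ℕ) (A B : ℤ) (hAB : B - A < M) (hM : 1 ≤ M) (c : ℤ → ℂ) :
    (1 / (M : ℝ)) * ∑ j ∈ range M, ‖∑ n ∈ Icc A B, c n * e (n * ((j : ℝ) / M))‖ ^ 2 =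
      ∑ n ∈ Icc A B, ‖c n‖ ^ 2 := by
  have hM' : (M : ℂ) ≠ 0 := by
    have : M ≠ 0 := by omega
    exact_mod_cast this
  have h1 : ∀ x : ℝ, ((‖∑ n ∈ Icc A B, c n * e (n * x)‖ ^ 2 : ℝ) : ℂ) =
      ∑ n ∈ Icc A B, ∑ m ∈ Icc A B,
      c n * (starRingEnd ℂ) (c m) * e ((n - m : ℤ) * x) := by
    intro x
    rw [← Complex.normSq_eq_norm_sq, ← Complex.mul_conj]
    rw [map_sum, sum_mul_sum]
    refine sum_congr rfl fun n _ => sum_congr rfl fun m _ => ?_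
    rw [map_mul, ← e_neg]
    have : c n * e (n * x) * ((starRingEnd ℂ) (c m) * e (-(m * x))) =
        c n * (starRingEnd ℂ) (c m) * (e (n * x) * e (-(m * x))) := by ring
    rw [this, ← e_add]
    congr 2
    push_cast
    ring
  have h2 : ((∑ j ∈ range M, ‖∑ n ∈ Icc A B, c n * e (n * ((j : ℝ) / M))‖ ^ 2 : ℝ) : ℂ) =
      M * ∑ n ∈ Icc A B, ((‖c n‖ ^ 2 : ℝ) : ℂ) := by
    rw [Complex.ofReal_sum, sum_congr rfl fun (j : ℕ) _ => h1 ((j : ℝ) / M), sum_comm, mul_sum]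
    refine sum_congr rfl fun n hn => ?_
    rw [sum_comm, sum_eq_single n]
    · simp only [sub_self, Int.cast_zero, zero_mul, e_zero, mul_one, sum_const, card_range,
        nsmul_eq_mul]
      rw [Complex.mul_conj, Complex.normSq_eq_norm_sq]
    · intro m hm hne
      rw [← mul_sum, par_orth M hM, mul_zero]
      intro hd
      rw [mem_Icc] at hm hn
      have h3 := Int.eq_zero_of_abs_lt_dvd hd (by rw [abs_lt]; omega)
      exact hne (by omega)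
    · intro h
      exact absurd hn h
  have h3 : ((1 / (M : ℝ) * ∑ j ∈ range M, ‖∑ n ∈ Icc A B, c n * e (n * ((j : ℝ) / M))‖ ^ 2 : ℝ)
      : ℂ) = ((∑ n ∈ Icc A B, ‖c n‖ ^ 2 : ℝ) : ℂ) := by
    rw [Complex.ofReal_mul, h2, Complex.ofReal_sum]
    push_cast
    field_simp
  exact_mod_cast h3

theorem p07a_even (N K : ℕ) (m : ℤ) : vw N K (-m) = vw N K m := by
  unfold vw
  have h : -m ∈ Iw N K ↔ m ∈ Iw N K := by
    unfold Iw
    simp only [mem_Icc]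
    constructor <;> intro h <;> omega
  have hg : gau N K (-m) = gau N K m := by
    unfold gau
    push_cast
    ring_nf
  simp only [h, hg]

theorem p07a_vh (N K : ℕ) (b : ℝ) :
    ((vh N K b : ℝ) : ℂ) = ∑ m ∈ Iw N K, (vw N K m : ℂ) * e (-(m * b)) := by
  have hneg : ∀ f : ℤ → ℂ, ∑ m ∈ Iw N K, f (-m) = ∑ m ∈ Iw N K, f m := by
    intro f
    refine sum_nbij' (fun m => -m) (fun m => -m) ?_ ?_ ?_ ?_ ?_
    · intro m hm; unfold Iw at hm ⊢; simp only [mem_Icc] at hm ⊢; omega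
    · intro m hm; unfold Iw at hm ⊢; simp only [mem_Icc] at hm ⊢; omega
    · intro m _; simp
    · intro m _; simp
    · intro m _; rfl
  have h1 := hneg (fun m => (vw N K m : ℂ) * e (-(m * b)))
  have h2 : ∑ m ∈ Iw N K, (vw N K m : ℂ) * e (-(m * b)) =
      ∑ m ∈ Iw N K, (vw N K m : ℂ) * ((e (m * b) + e (-(m * b))) / 2) := by
    have h3 : ∑ m ∈ Iw N K, (vw N K m : ℂ) * e (m * b) =
        ∑ m ∈ Iw N K, (vw N K m : ℂ) * e (-(m * b)) := by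
      rw [← h1]
      refine sum_congr rfl fun m _ => ?_
      simp only [p07a_even]
      congr 2
      push_cast
      ring
    have h4 : ∑ m ∈ Iw N K, (vw N K m : ℂ) * ((e (m * b) + e (-(m * b))) / 2) =
        (∑ m ∈ Iw N K, (vw N K m : ℂ) * e (m * b) +
          ∑ m ∈ Iw N K, (vw N K m : ℂ) * e (-(m * b))) / 2 := by
      rw [← sum_add_distrib, sum_div]
      exact sum_congr rfl fun m _ => by ring
    rw [h4, h3]
    ring
  rw [h2]
  unfold vh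
  push_cast
  refine sum_congr rfl fun m _ => ?_
  congr 1
  unfold e
  rw [Complex.cos]
  push_cast
  congr 2
  ring_nf

/-- product with `vh` -/
theorem p07a_mul (N K : ℕ) (a : ℕ → ℂ) (b : ℝ) :
    ((vh N K b : ℝ) : ℂ) * ∑ p ∈ Icc 1 N, a p * e (p * b) =
      ∑ n ∈ Icc (1 - (Mw N K : ℤ)) ((N : ℤ) + Mw N K),
        (∑ p ∈ Icc 1 N, a p * (vw N K ((p : ℤ) - n) : ℂ)) * e (n * b) := by
  have h1 : ∀ n : ℤ, (∑ p ∈ Icc 1 N, a p * (vw N K ((p : ℤ) - n) : ℂ)) * e (n * b) =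
      ∑ p ∈ Icc 1 N, a p * (vw N K ((p : ℤ) - n) : ℂ) * e (n * b) := fun n => sum_mul _ _ _
  simp_rw [h1]
  rw [sum_comm, mul_sum]
  refine sum_congr rfl fun p hp => ?_
  rw [mem_Icc] at hp
  have h2 : ∑ n ∈ Icc (1 - (Mw N K : ℤ)) ((N : ℤ) + Mw N K),
      a p * (vw N K ((p : ℤ) - n) : ℂ) * e (n * b) =
      ∑ n ∈ Icc ((p : ℤ) - Mw N K) ((p : ℤ) + Mw N K),
      a p * (vw N K ((p : ℤ) - n) : ℂ) * e (n * b) := by
    symm
    refine sum_subset ?_ ?_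
    · intro n hn
      rw [mem_Icc] at hn ⊢
      omega
    · intro n _ hn2
      have : (p : ℤ) - n ∉ Iw N K := by
        unfold Iw
        rw [mem_Icc] at hn2 ⊢
        omega
      unfold vw
      rw [if_neg this]
      simp
  rw [h2]
  have h3 : ∑ n ∈ Icc ((p : ℤ) - Mw N K) ((p : ℤ) + Mw N K),
      a p * (vw N K ((p : ℤ) - n) : ℂ) * e (n * b) =
      ∑ m ∈ Iw N K, a p * (vw N K m : ℂ) * e (((p : ℤ) - m : ℤ) * b) := by
    refine sum_nbij' (fun n => (p : ℤ) - n) (fun m => (p : ℤ) - m) ?_ ?_ ?_ ?_ ?_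
    · intro n hn; unfold Iw; rw [mem_Icc] at hn ⊢; omega
    · intro n hn; unfold Iw at hn; rw [mem_Icc] at hn ⊢; omega
    · intro n _; ring
    · intro n _; ring
    · intro n _; simp
  rw [h3, p07a_vh, sum_mul]
  refine sum_congr rfl fun m _ => ?_
  have h4 : e ((((p : ℤ) - m : ℤ) : ℝ) * b) = e (-(m * b)) * e (p * b) := by
    rw [← e_add]
    congr 1
    push_cast
    ring
  rw [h4]
  ring

theorem W07a_pr : W07a := by
  intro N K M hG hMw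
  have hM8 : 4 * (2 * N) < M := hG.1
  have hM1 : 1 ≤ M := by omega
  have hlen : ((N : ℤ) + Mw N K) - (1 - (Mw N K : ℤ)) < M := by omega
  -- one polynomial
  have hpoly : ∀ a : ℕ → ℂ,
      (1 / (M : ℝ)) * ∑ j ∈ range M,
        vh N K ((j : ℝ) / M) ^ 2 * ‖∑ p ∈ Icc 1 N, a p * e (p * ((j : ℝ) / M))‖ ^ 2 =
      ∑ n ∈ Icc (1 - (Mw N K : ℤ)) ((N : ℤ) + Mw N K),
        ‖∑ p ∈ Icc 1 N, a p * (vw N K ((p : ℤ) - n) : ℂ)‖ ^ 2 := by
    intro a
    rw [← p07a_pars M _ _ hlen hM1]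
    congr 1
    refine sum_congr rfl fun j _ => ?_
    rw [← p07a_mul, norm_mul, mul_pow, Complex.norm_real, Real.norm_eq_abs, sq_abs]
  have hT : ∀ (q : ℕ) (ψ : DirichletCharacter ℂ q),
      (1 / (M : ℝ)) * ∑ j ∈ range M, vh N K ((j : ℝ) / M) ^ 2 *
        ‖∑ n ∈ Icc 1 N, ((aS N n : ℂ) * e (n * ((j : ℝ) / M))) * ψ (n : ZMod q)‖ ^ 2 =
      ∑ n ∈ Icc (1 - (Mw N K : ℤ)) ((N : ℤ) + Mw N K), ‖TS ψ N K n‖ ^ 2 := by
    intro q ψ
    have h := hpoly (fun p => (aS N p : ℂ) * ψ (p : ZMod q))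
    have e1 : ∀ b : ℝ, ∑ n ∈ Icc 1 N, ((aS N n : ℂ) * e (n * b)) * ψ (n : ZMod q) =
        ∑ p ∈ Icc 1 N, (aS N p : ℂ) * ψ (p : ZMod q) * e (p * b) := fun b =>
      sum_congr rfl fun p _ => by ring
    have e2 : ∀ n : ℤ, TS ψ N K n =
        ∑ p ∈ Icc 1 N, (aS N p : ℂ) * ψ (p : ZMod q) * (vw N K ((p : ℤ) - n) : ℂ) := fun n =>
      sum_congr rfl fun p _ => by push_cast; ring
    simp_rw [e1, e2]
    exact h
  have h0 : (1 / (M : ℝ)) * ∑ j ∈ range M, vh N K ((j : ℝ) / M) ^ 2 *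
        ‖Ps N ((j : ℝ) / M) - In N ((j : ℝ) / M)‖ ^ 2 =
      ∑ n ∈ Icc (1 - (Mw N K : ℤ)) ((N : ℤ) + Mw N K), T0 N K n ^ 2 := by
    have h := hpoly (fun p => (aS N p : ℂ) - 1)
    have e1 : ∀ b : ℝ, Ps N b - In N b = ∑ p ∈ Icc 1 N, ((aS N p : ℂ) - 1) * e (p * b) := by
      intro b
      unfold Ps Bs In
      rw [← sum_sub_distrib]
      exact sum_congr rfl fun p _ => by ring
    have e2 : ∀ n : ℤ, T0 N K n ^ 2 =
        ‖∑ p ∈ Icc 1 N, ((aS N p : ℂ) - 1) * (vw N K ((p : ℤ) - n) : ℂ)‖ ^ 2 := by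
      intro n
      have : ∑ p ∈ Icc 1 N, ((aS N p : ℂ) - 1) * (vw N K ((p : ℤ) - n) : ℂ) =
          ((T0 N K n : ℝ) : ℂ) := by
        unfold T0
        rw [← sum_sub_distrib]
        push_cast
        exact sum_congr rfl fun p _ => by ring
      rw [this, Complex.norm_real, Real.norm_eq_abs, sq_abs]
    simp_rw [e1, e2]
    exact h
  unfold mean EE En Tp
  rw [sum_add_distrib, ← h0]
  have hsum : ∑ n ∈ Icc (1 - (Mw N K : ℤ)) ((N : ℤ) + Mw N K),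
      ∑ q ∈ Ioc 1 K, ∑ ψ ∈ Pr q, ‖TS ψ N K n‖ ^ 2 =
      ∑ q ∈ Ioc 1 K, ∑ ψ ∈ Pr q, ∑ n ∈ Icc (1 - (Mw N K : ℤ)) ((N : ℤ) + Mw N K),
        ‖TS ψ N K n‖ ^ 2 := by
    rw [sum_comm]
    exact sum_congr rfl fun q _ => sum_comm
  rw [hsum]
  simp_rw [← hT]
  simp_rw [mul_add, sum_add_distrib, mul_add]
  congr 1
  simp_rw [mul_sum]
  rw [sum_comm]
  refine sum_congr rfl fun q _ => ?_
  rw [sum_comm]

example : W07a := W07a_pr

end Pool.Agent.FGP
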