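import Pool.Agent.Lib_helper3.FGP.Wanted

set_option autoImplicit false

namespace Pool.Agent.FGP

open Finset Pool.Agent.Var35 Pool.Agent.Var73 Pool.Agent.PV
open scoped ArithmeticFunction ArithmeticFunction.Moebius

/-- numerical facts for large `K` -/
theorem p03b_num : ∃ K0 : ℕ, 10 ≤ K0 ∧ ∀ K ≥ K0, ∀ N, Rg K N →
    (1 ≤ Real.log N) ∧ (Real.log N ^ 4 ≤ K) ∧ (Real.log N * 100 ≤ K) := by
  obtain ⟨K0, hK0⟩ := exists_nat_ge (Real.exp 100)
  refine ⟨max K0 10, le_max_right _ _, fun K hK N hR => ?_⟩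
  have hKK : Real.exp 100 ≤ K := hK0.trans (by exact_mod_cast (le_max_left _ _).trans hK)
  have hK10 : (10 : ℝ) ≤ K := by exact_mod_cast (le_max_right _ _).trans hK
  have hK1 : (0 : ℝ) < K := by linarith
  have hlK : 100 ≤ Real.log K := by
    rw [Real.le_log_iff_exp_le hK1]; exact hKK
  have hN : Real.log ((K : ℝ) ^ 400) ≤ Real.log N := by
    apply Real.log_le_log (by positivity)
    exact_mod_cast hR.hN
  rw [Real.log_pow] at hN
  push_cast at hN
  have hL : 100 ≤ Real.log N := by linarith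
  have hL1 : 1 ≤ Real.log N := by linarith
  refine ⟨hL1, ?_, ?_⟩
  · exact (pow_le_pow_right₀ hL1 (by norm_num)).trans hR.hL
  · have h1 : Real.log N * 100 ≤ Real.log N ^ 2 := by nlinarith
    exact h1.trans ((pow_le_pow_right₀ hL1 (by norm_num)).trans hR.hL)

theorem p03b_card_Pr (q : ℕ) (hq : 0 < q) : ((Pr q).card : ℝ) ≤ q := by
  have : NeZero q := ⟨hq.ne'⟩
  have h1 : (Pr q).card ≤ Fintype.card (DirichletCharacter ℂ q) := card_le_univ _
  have h2 : Fintype.card (DirichletCharacter ℂ q) = q.totient := by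
    rw [← Nat.card_eq_fintype_card, DirichletCharacter.card_eq_totient_of_hasEnoughRootsOfUnity]
  have h3 : q.totient ≤ q := Nat.totient_le q
  have h4 : (Pr q).card ≤ q := by omega
  exact_mod_cast h4

theorem p03b_aS (N p : ℕ) (hp : p ∈ Icc 1 N) : 0 ≤ aS N p ∧ aS N p ≤ Real.log N := by
  rw [mem_Icc] at hp
  have h1 : (1 : ℝ) ≤ p := by exact_mod_cast hp.1
  have h2 : (p : ℝ) ≤ N := by exact_mod_cast hp.2
  have h3 : 0 ≤ Real.log p := Real.log_nonneg h1
  have h4 : Real.log p ≤ Real.log N := Real.log_le_log (by linarith) h2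
  unfold aS
  split_ifs
  · exact ⟨h3, h4⟩
  · exact ⟨le_rfl, h3.trans h4⟩

/-- the mass of the window is at most one -/
theorem p03b_mass {K N : ℕ} (h0 : ∀ m, 0 ≤ vw N K m) (h1 : ∑ m ∈ Iw N K, vw N K m = 1) (z : ℤ) :
    0 ≤ ∑ m ∈ Icc 1 N, vw N K ((m : ℤ) - z) ∧ ∑ m ∈ Icc 1 N, vw N K ((m : ℤ) - z) ≤ 1 := by
  refine ⟨sum_nonneg fun _ _ => h0 _, ?_⟩
  have h2 : ∑ m ∈ Icc 1 N, vw N K ((m : ℤ) - z) =
      ∑ m ∈ (Icc 1 N).filter (fun m : ℕ => ((m : ℤ) - z) ∈ Iw N K), vw N K ((m : ℤ) - z) := by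
    rw [sum_filter]
    refine sum_congr rfl fun m _ => ?_
    by_cases h3 : ((m : ℤ) - z) ∈ Iw N K
    · rw [if_pos h3]
    · rw [if_neg h3]
      unfold vw
      rw [if_neg h3]
  rw [h2, ← h1]
  have h3 : ∑ m ∈ (Icc 1 N).filter (fun m : ℕ => ((m : ℤ) - z) ∈ Iw N K), vw N K ((m : ℤ) - z) =
      ∑ w ∈ ((Icc 1 N).filter (fun m : ℕ => ((m : ℤ) - z) ∈ Iw N K)).image
        (fun m : ℕ => (m : ℤ) - z), vw N K w := by
    rw [sum_image]
    intro a _ b _ hab
    simp only at hab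
    omega
  rw [h3]
  refine sum_le_sum_of_subset_of_nonneg ?_ fun _ _ _ => h0 _
  intro w hw
  rw [mem_image] at hw
  obtain ⟨m, hm, rfl⟩ := hw
  exact (mem_filter.1 hm).2

/-- crude bound for the energy of one window -/
theorem p03b_crude {K N : ℕ} (h0 : ∀ m, 0 ≤ vw N K m) (h1 : ∑ m ∈ Iw N K, vw N K m = 1)
    (hL : 1 ≤ Real.log N) (hK : 1 ≤ K) (z : ℤ) :
    En N K z ≤ 8 * (K : ℝ) ^ 2 * Real.log N ^ 2 := by
  obtain ⟨m0, m1⟩ := p03b_mass h0 h1 z
  have hS : 0 ≤ ∑ p ∈ Icc 1 N, aS N p * vw N K ((p : ℤ) - z) ∧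
      ∑ p ∈ Icc 1 N, aS N p * vw N K ((p : ℤ) - z) ≤ Real.log N := by
    constructor
    · exact sum_nonneg fun p hp => mul_nonneg (p03b_aS N p hp).1 (h0 _)
    · calc _ ≤ ∑ p ∈ Icc 1 N, Real.log N * vw N K ((p : ℤ) - z) :=
            sum_le_sum fun p hp => mul_le_mul_of_nonneg_right (p03b_aS N p hp).2 (h0 _)
        _ = Real.log N * ∑ p ∈ Icc 1 N, vw N K ((p : ℤ) - z) := by rw [mul_sum]
        _ ≤ Real.log N * 1 := by gcongr
        _ = _ := mul_one _
  have hT : ∀ (q : ℕ) (ψ : DirichletCharacter ℂ q), ‖TS ψ N K z‖ ≤ Real.log N := by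
    intro q ψ
    unfold TS
    refine (norm_sum_le _ _).trans (le_trans (sum_le_sum fun p hp => ?_) hS.2)
    rw [norm_mul, Complex.norm_real, Real.norm_of_nonneg (mul_nonneg (p03b_aS N p hp).1 (h0 _))]
    calc _ ≤ aS N p * vw N K ((p : ℤ) - z) * 1 :=
          mul_le_mul_of_nonneg_left (DirichletCharacter.norm_le_one ψ _)
            (mul_nonneg (p03b_aS N p hp).1 (h0 _))
      _ = _ := mul_one _
  have hT0 : |T0 N K z| ≤ 2 * Real.log N := by
    unfold T0
    rw [abs_le]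
    constructor <;> linarith [hS.1, hS.2]
  have hK1 : (1 : ℝ) ≤ K := by exact_mod_cast hK
  unfold En
  have a1 : ∑ q ∈ Ioc 1 K, ∑ ψ ∈ Pr q, ‖TS ψ N K z‖ ^ 2 ≤ (K : ℝ) * (K * Real.log N ^ 2) := by
    calc _ ≤ ∑ q ∈ Ioc 1 K, (K : ℝ) * Real.log N ^ 2 := by
          refine sum_le_sum fun q hq => ?_
          rw [mem_Ioc] at hq
          calc ∑ ψ ∈ Pr q, ‖TS ψ N K z‖ ^ 2 ≤ ∑ ψ ∈ Pr q, Real.log N ^ 2 :=
                sum_le_sum fun ψ _ => by
                  have := hT q ψ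
                  gcongr
            _ = ((Pr q).card : ℝ) * Real.log N ^ 2 := by rw [sum_const, nsmul_eq_mul]
            _ ≤ _ := by
                have h5 := p03b_card_Pr q (by omega)
                have h6 : (q : ℝ) ≤ K := by exact_mod_cast hq.2
                have h7 := h5.trans h6
                gcongr
      _ = (((K - 1 : ℕ)) : ℝ) * (K * Real.log N ^ 2) := by
          rw [sum_const, Nat.card_Ioc, nsmul_eq_mul]
      _ ≤ _ := by
          have h3 : (((K - 1 : ℕ)) : ℝ) ≤ K := by exact_mod_cast Nat.sub_le _ _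
          gcongr
  have a2 : T0 N K z ^ 2 ≤ 4 * Real.log N ^ 2 := by
    have := pow_le_pow_left₀ (abs_nonneg _) hT0 2
    rw [sq_abs] at this
    nlinarith
  have a3 : 1 ≤ (K : ℝ) ^ 2 := one_le_pow₀ hK1
  have a4 : 0 ≤ Real.log N ^ 2 := by positivity
  nlinarith

theorem p03b_En_nonneg (N K : ℕ) (z : ℤ) : 0 ≤ En N K z := by
  unfold En
  have : 0 ≤ ∑ q ∈ Ioc 1 K, ∑ ψ ∈ Pr q, ‖TS ψ N K z‖ ^ 2 :=
    sum_nonneg fun _ _ => sum_nonneg fun _ _ => by positivity
  positivity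

/-- number of bad windows -/
theorem p03b_bad (N K : ℕ) (hK : 1 ≤ K) (hM : Mw N K ≤ N) :
    (((Icc (1 - (Mw N K : ℤ)) ((N : ℤ) + Mw N K)).filter
      (fun z : ℤ => ¬ ((N : ℤ) ≤ z * (K : ℤ) ^ 3 ∧ z + Mw N K ≤ N))).card : ℝ) ≤
      N / (K : ℝ) ^ 3 + 3 * Mw N K := by
  have hsub : (Icc (1 - (Mw N K : ℤ)) ((N : ℤ) + Mw N K)).filter
      (fun z : ℤ => ¬ ((N : ℤ) ≤ z * (K : ℤ) ^ 3 ∧ z + Mw N K ≤ N)) ⊆
      Icc (1 - (Mw N K : ℤ)) ((N / K ^ 3 : ℕ) : ℤ) ∪
        Icc ((N : ℤ) - Mw N K + 1) ((N : ℤ) + Mw N K) := by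
    intro z hz
    rw [mem_filter, mem_Icc] at hz
    rw [mem_union, mem_Icc, mem_Icc]
    obtain ⟨⟨h1, h2⟩, h3⟩ := hz
    by_cases h4 : z + Mw N K ≤ N
    · left
      refine ⟨h1, ?_⟩
      have h5 : z * (K : ℤ) ^ 3 < N := by
        by_contra h6
        push Not at h6
        exact h3 ⟨h6, h4⟩
      rw [Int.natCast_div]
      have hK3 : (0 : ℤ) < (K : ℤ) ^ 3 := by positivity
      have : z ≤ (N : ℤ) / ((K ^ 3 : ℕ) : ℤ) := by
        rw [Int.le_ediv_iff_mul_le (by push_cast; exact hK3)]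
        push_cast
        exact h5.le
      exact this
    · right
      omega
  have hcard := card_le_card hsub
  have h1 := hcard.trans (card_union_le _ _)
  rw [Int.card_Icc, Int.card_Icc] at h1
  have h2' : ∀ t M : ℕ, ((t : ℤ) + 1 - (1 - (M : ℤ))).toNat = t + M := by
    intro t M
    omega
  have h2 : (((N / K ^ 3 : ℕ) : ℤ) + 1 - (1 - (Mw N K : ℤ))).toNat = N / K ^ 3 + Mw N K := h2' _ _
  have h3 : ((N : ℤ) + Mw N K + 1 - ((N : ℤ) - Mw N K + 1)).toNat = 2 * Mw N K := by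
    omega
  rw [h2, h3] at h1
  have h4 : ((N / K ^ 3 : ℕ) : ℝ) ≤ N / (K : ℝ) ^ 3 := by
    refine Nat.cast_div_le.trans (le_of_eq ?_)
    push_cast
    ring
  calc _ ≤ ((N / K ^ 3 + Mw N K + 2 * Mw N K : ℕ) : ℝ) := Nat.cast_le.2 h1
    _ = ((N / K ^ 3 : ℕ) : ℝ) + 3 * Mw N K := by push_cast; ring
    _ ≤ _ := by linarith

theorem W03b_pr (h1 : W01) (h3 : W03) : W03b := by
  intro c₁ hc₁
  obtain ⟨C, c, B, hC, hc, hB, K0, hw⟩ := h3 c₁ hc₁
  obtain ⟨_, _, K01, hw1⟩ := h1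
  obtain ⟨K03, hK03, hnum⟩ := p03b_num
  refine ⟨C + 40, c, B, by linarith, hc, hB, max K03 (max K01 K0), ?_⟩
  intro K hK N D hR hgood hKD hDN
  have hKa : K03 ≤ K := (le_max_left _ _).trans hK
  have hKb : K01 ≤ K := (le_max_left _ _).trans ((le_max_right _ _).trans hK)
  have hKc : K0 ≤ K := (le_max_right _ _).trans ((le_max_right _ _).trans hK)
  obtain ⟨q1, q2, q3⟩ := hnum K hKa N hR
  obtain ⟨w1, w2, _, _, _⟩ := hw1 K hKb N hR
  have hK10 : (10 : ℝ) ≤ K := by exact_mod_cast hR.hK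
  have hN1 : (K : ℝ) ^ 400 ≤ N := by exact_mod_cast hR.hN
  have hN0 : (0 : ℝ) < N := lt_of_lt_of_le (by positivity) hN1
  have hH0 : 0 < Hw N K := by unfold Hw; positivity
  have hMle : (Mw N K : ℝ) ≤ N / (K : ℝ) ^ 7 := by
    have h4 : (Mw N K : ℝ) ≤ Hw N K * Real.log N := by
      unfold Mw
      exact Nat.floor_le (by positivity)
    refine h4.trans ?_
    unfold Hw
    rw [div_mul_eq_mul_div, div_le_div_iff₀ (by positivity) (by positivity)]
    have h5 : Real.log N ≤ K := by linarith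
    calc (N : ℝ) * Real.log N * (K : ℝ) ^ 7 ≤ N * K * (K : ℝ) ^ 7 := by gcongr
      _ = _ := by ring
  have hMN : Mw N K ≤ N := by
    have h4 : (N : ℝ) / (K : ℝ) ^ 7 ≤ N := div_le_self hN0.le (one_le_pow₀ (by linarith))
    have h5 := hMle.trans h4
    exact_mod_cast h5
  set E : ℝ := Real.exp (-(c * Real.log N / Real.log D)) with hE
  have hE0 : 0 < E := Real.exp_pos _
  set g : ℤ → Prop := fun z => (N : ℤ) ≤ z * (K : ℤ) ^ 3 ∧ z + Mw N K ≤ N with hg
  set I := Icc (1 - (Mw N K : ℤ)) ((N : ℤ) + Mw N K) with hI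
  have hgood' : ∑ z ∈ I.filter g, En N K z ≤ N * (C * (E + 1 / (K : ℝ) ^ 7)) := by
    have h4 : ∀ z ∈ I.filter g, En N K z ≤ C * (E + 1 / (K : ℝ) ^ 7) := by
      intro z hz
      have hz' := (mem_filter.1 hz).2
      have hz0 : 0 ≤ z := by
        by_contra h5
        push Not at h5
        have h6 : z * (K : ℤ) ^ 3 ≤ 0 := mul_nonpos_of_nonpos_of_nonneg h5.le (by positivity)
        have h7 : (0 : ℤ) < N := by exact_mod_cast hN0
        have := hz'.1
        omega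
      obtain ⟨n, rfl⟩ := Int.eq_ofNat_of_zero_le hz0
      apply hw K hKc N D hR hgood hKD hDN n
      · have := hz'.1
        exact_mod_cast this
      · have := hz'.2
        exact_mod_cast this
    have h5 : ((I.filter g).card : ℝ) ≤ N := by
      have h6 : I.filter g ⊆ Icc 1 (N : ℤ) := by
        intro z hz
        have hz' := (mem_filter.1 hz).2
        rw [mem_Icc]
        constructor
        · by_contra h5
          push Not at h5
          have h5' : z ≤ 0 := by omega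
          have h6 : z * (K : ℤ) ^ 3 ≤ 0 := mul_nonpos_of_nonpos_of_nonneg h5' (by positivity)
          have h7 : (0 : ℤ) < N := by exact_mod_cast hN0
          have := hz'.1
          omega
        · have := hz'.2
          omega
      have h7 := card_le_card h6
      rw [Int.card_Icc] at h7
      have h8 : ((N : ℤ) + 1 - 1).toNat = N := by omega
      rw [h8] at h7
      exact_mod_cast h7
    refine (sum_le_sum h4).trans ?_
    rw [sum_const, nsmul_eq_mul]
    have h6 : 0 ≤ C * (E + 1 / (K : ℝ) ^ 7) := by positivity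
    gcongr
  have hbad' : ∑ z ∈ I.filter (fun z => ¬ g z), En N K z ≤
      (N / (K : ℝ) ^ 3 + 3 * Mw N K) * (8 * (K : ℝ) ^ 2 * Real.log N ^ 2) := by
    refine (sum_le_sum fun z _ => p03b_crude (fun m => (w1 m).1) w2 q1 (by
      have := hR.hK; omega) z).trans ?_
    rw [sum_const, nsmul_eq_mul]
    have h4 := p03b_bad N K (by have := hR.hK; omega) hMN
    have h5 : 0 ≤ 8 * (K : ℝ) ^ 2 * Real.log N ^ 2 := by positivity
    exact mul_le_mul_of_nonneg_right h4 h5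
  have hsplit : EE N K = ∑ z ∈ I.filter g, En N K z + ∑ z ∈ I.filter (fun z => ¬ g z), En N K z := by
    unfold EE
    exact (sum_filter_add_sum_filter_not I g _).symm
  rw [hsplit]
  have hs0 : 0 < Real.sqrt K := Real.sqrt_pos.2 (by linarith)
  have hs1 : Real.log N ^ 2 ≤ Real.sqrt K := by
    apply Real.le_sqrt_of_sq_le
    calc (Real.log N ^ 2) ^ 2 = Real.log N ^ 4 := by ring
      _ ≤ (K : ℝ) := q2
  have hs2 : Real.sqrt K * Real.sqrt K = K := Real.mul_self_sqrt (by linarith)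
  have b1 : (N / (K : ℝ) ^ 3 + 3 * Mw N K) * (8 * (K : ℝ) ^ 2 * Real.log N ^ 2) ≤
      32 * N * (1 / Real.sqrt K) := by
    have h4 : (N / (K : ℝ) ^ 3 + 3 * Mw N K) ≤ 4 * (N / (K : ℝ) ^ 3) := by
      have h5 : (N : ℝ) / (K : ℝ) ^ 7 ≤ N / (K : ℝ) ^ 3 := by
        apply div_le_div_of_nonneg_left hN0.le (by positivity)
        exact pow_le_pow_right₀ (by linarith) (by norm_num)
      linarith
    calc _ ≤ 4 * (N / (K : ℝ) ^ 3) * (8 * (K : ℝ) ^ 2 * Real.sqrt K) := by gcongr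
      _ = 32 * N * (Real.sqrt K / K) := by field_simp; ring
      _ = 32 * N * (1 / Real.sqrt K) := by
          congr 1
          rw [div_eq_div_iff (by linarith) hs0.ne', hs2, one_mul]
  have b2 : 1 / (K : ℝ) ^ 7 ≤ 1 / Real.sqrt K := by
    apply one_div_le_one_div_of_le hs0
    have h5 : Real.sqrt K ≤ K := by
      rw [Real.sqrt_le_left (by linarith)]
      nlinarith
    refine h5.trans ?_
    calc (K : ℝ) = (K : ℝ) ^ 1 := (pow_one _).symm
      _ ≤ (K : ℝ) ^ 7 := pow_le_pow_right₀ (by linarith) (by norm_num)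
  calc _ ≤ N * (C * (E + 1 / (K : ℝ) ^ 7)) + 32 * N * (1 / Real.sqrt K) :=
        add_le_add hgood' (hbad'.trans b1)
    _ ≤ N * (C * (E + 1 / Real.sqrt K)) + 32 * N * (1 / Real.sqrt K) := by gcongr
    _ ≤ _ := by
        have h4 : 0 ≤ (N : ℝ) * E := by positivity
        have h5 : 0 ≤ (N : ℝ) * (1 / Real.sqrt K) := by positivity
        nlinarith

end Pool.Agent.FGP
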