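import Pool.Agent.Lib_helper92.PVF.FIN
import Pool.Agent.Lib_helper98.GAF.Final

/-!
# FGP: the Friedlander-Goldston asymptotic for prime moduli. Definitions and block statements
-/

set_option autoImplicit false

namespace Pool.Agent.FGP

open Finset Pool.Agent.Var35 Pool.Agent.Var73 Pool.Agent.PV
open scoped ArithmeticFunction ArithmeticFunction.Moebius

/-! ## The window -/

/-- width of the window -/
noncomputable def Hw (N K : ℕ) : ℝ := (N : ℝ) / (K : ℝ) ^ 8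

/-- half length of the window -/
noncomputable def Mw (N K : ℕ) : ℕ := ⌊Hw N K * Real.log N⌋₊

/-- the Gaussian -/
noncomputable def gau (N K : ℕ) (m : ℤ) : ℝ := Real.exp (-((m : ℝ) ^ 2 / (2 * Hw N K ^ 2)))

/-- the indices of the window -/
noncomputable def Iw (N K : ℕ) : Finset ℤ := Icc (-(Mw N K : ℤ)) (Mw N K : ℤ)

/-- the window -/
noncomputable def vw (N K : ℕ) (m : ℤ) : ℝ :=
  if m ∈ Iw N K then gau N K m / ∑ j ∈ Iw N K, gau N K j else 0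

/-- the Fourier transform of the window -/
noncomputable def vh (N K : ℕ) (b : ℝ) : ℝ :=
  ∑ m ∈ Iw N K, vw N K m * Real.cos (2 * Real.pi * (m * b))

/-! ## The decomposition `Ps = fh + gh + Fh` -/

/-- `μ(r)/φ(r)` -/
noncomputable def mr (r : ℕ) : ℝ := ((μ r : ℤ) : ℝ) / (Nat.totient r : ℝ)

/-- `∑_{n ≤ N} e(n b)` -/
noncomputable def In (N : ℕ) (b : ℝ) : ℂ := ∑ n ∈ Icc 1 N, e (n * b)

/-- the multiplier -/
noncomputable def Wt (N K : ℕ) (t : ℝ) : ℝ :=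
  ∑ r ∈ Icc 1 K, ∑ c ∈ Cd r, vh N K (t - c / r) ^ 2

/-- the part of `Ps` with small Fourier transform -/
noncomputable def fh (N K : ℕ) (t : ℝ) : ℂ := Ps N t * ((1 - Wt N K t : ℝ) : ℂ)

/-- the explicit part -/
noncomputable def gh (N K : ℕ) (t : ℝ) : ℂ :=
  ∑ r ∈ Icc 1 K, ∑ c ∈ Cd r, ((mr r * vh N K (t - c / r) ^ 2 : ℝ) : ℂ) * In N (t - c / r)

/-- `S(t) - μ(r)/φ(r) I(t - c/r)` -/
noncomputable def Xc (N c r : ℕ) (t : ℝ) : ℂ := Ps N t - ((mr r : ℝ) : ℂ) * In N (t - c / r)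

/-- the part controlled by the zeros -/
noncomputable def Fh (N K : ℕ) (t : ℝ) : ℂ :=
  ∑ r ∈ Icc 1 K, ∑ c ∈ Cd r, ((vh N K (t - c / r) ^ 2 : ℝ) : ℂ) * Xc N c r t

/-! ## The variance -/

/-- variance functional (without the fraction `0`) -/
noncomputable def VQ (P : ℝ → ℂ) (Q : ℕ) : ℝ := (1 / (Q : ℝ)) * ∑ b ∈ Ico 1 Q, ‖P (b / Q)‖ ^ 2

/-- the same with the fraction `0` -/
noncomputable def VA (P : ℝ → ℂ) (Q : ℕ) : ℝ := (1 / (Q : ℝ)) * ∑ b ∈ range Q, ‖P (b / Q)‖ ^ 2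

/-- mean square over the grid -/
noncomputable def ms (M : ℕ) (P : ℝ → ℂ) : ℝ := mean M (range M) (fun t => ‖P t‖ ^ 2)

/-- trigonometric polynomial with frequencies in `[A, B]` -/
def TP (A B : ℤ) (P : ℝ → ℂ) : Prop := ∃ c : ℤ → ℂ, ∀ t : ℝ, P t = ∑ n ∈ Icc A B, c n * e (n * t)

/-! ## The energy -/

/-- twisted sum over the primes of the window around `n` -/
noncomputable def TS {q : ℕ} (ψ : DirichletCharacter ℂ q) (N K : ℕ) (n : ℤ) : ℂ :=
  ∑ p ∈ Icc 1 N, ((aS N p * vw N K ((p : ℤ) - n) : ℝ) : ℂ) * ψ (p : ZMod q)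

/-- the principal part -/
noncomputable def T0 (N K : ℕ) (n : ℤ) : ℝ :=
  ∑ p ∈ Icc 1 N, aS N p * vw N K ((p : ℤ) - n) - ∑ m ∈ Icc 1 N, vw N K ((m : ℤ) - n)

/-- the energy of the window around `n` -/
noncomputable def En (N K : ℕ) (n : ℤ) : ℝ :=
  (∑ q ∈ Ioc 1 K, ∑ ψ ∈ Pr q, ‖TS ψ N K n‖ ^ 2) + T0 N K n ^ 2

/-- the total energy -/
noncomputable def EE (N K : ℕ) : ℝ := ∑ n ∈ Icc (1 - (Mw N K : ℤ)) ((N : ℤ) + Mw N K), En N K n

/-- the weight of the arcs -/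
noncomputable def wt (N Y r : ℕ) (x : ℝ) : ℝ := 1 + al (2 * N) Y r (nn x) + ga (2 * N) Y r (nn x)

/-! ## The singular series -/

/-- Ramanujan's sum -/
noncomputable def cR (r k : ℕ) : ℝ := ∑ c ∈ Cd r, Real.cos (2 * Real.pi * (c * k / r))

/-- truncated singular series -/
noncomputable def SK (K k : ℕ) : ℝ := ∑ r ∈ Icc 1 K, mr r ^ 2 * cR r k

/-- the singular series -/
noncomputable def SG (k : ℕ) : ℝ := ∑' r : ℕ, mr r ^ 2 * cR r k

/-- the second order main term -/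
noncomputable def mainT (Z : ℝ) : ℝ :=
  Z ^ 2 / 2 - Z / 2 * Real.log Z + Z / 2 * (1 - Real.eulerMascheroniConstant - Real.log (2 * Real.pi))

/-! ## The coefficients of `gh` -/

/-- the window convolved with itself -/
noncomputable def v2 (N K : ℕ) (m : ℤ) : ℝ := ∑ j ∈ Iw N K, vw N K j * vw N K (m - j)

/-- Ramanujan's sum at an integer -/
noncomputable def cZ (r : ℕ) (n : ℤ) : ℝ := ∑ c ∈ Cd r, Real.cos (2 * Real.pi * (c * n / r))

/-- the coefficients of `gh` -/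
noncomputable def gn (N K : ℕ) (n : ℤ) : ℝ :=
  (∑ m ∈ Icc 1 N, v2 N K ((m : ℤ) - n)) * ∑ r ∈ Icc 1 K, mr r * cZ r n

/-- their correlations -/
noncomputable def cg (N K : ℕ) (h : ℤ) : ℝ :=
  ∑ n ∈ Icc (1 - 2 * (Mw N K : ℤ)) ((N : ℤ) + 2 * Mw N K), gn N K n * gn N K (n + h)

/-! ## Ranges -/

/-- ranges of the parameters -/
structure Rg (K N : ℕ) : Prop where
  hK : 10 ≤ K
  hN : K ^ 400 ≤ N
  hL : Real.log N ^ 100 ≤ K

/-- ranges of the moduli -/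
structure RY (K N Y : ℕ) : Prop where
  hY1 : 1 ≤ Y
  hYN : Y ≤ N
  hY : N ^ 16 ≤ Y ^ 16 * K

end Pool.Agent.FGP
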