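import Pool.Agent.Lib_helper3.FGP.Wanted

/-! FGP, block P14: the second order asymptotic for the singular series -/

set_option autoImplicit false

namespace Pool.Agent.FGP

open Finset Pool.Agent.Var35 Pool.Agent.Var73 Pool.Agent.PV
open scoped ArithmeticFunction ArithmeticFunction.Moebius

/-! ### Rearrangement -/

theorem p14_dc (N : ℕ) (g : ℕ → ℕ → ℝ) :
    ∑ m ∈ Icc 1 N, ∑ d ∈ m.divisors, g d (m / d) =
      ∑ d ∈ Icc 1 N, ∑ i ∈ Icc 1 (N / d), g d i := by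
  rw [sum_sigma', sum_sigma']
  refine sum_bij' (fun x _ => ⟨x.2, x.1 / x.2⟩) (fun x _ => ⟨x.1 * x.2, x.1⟩) ?_ ?_ ?_ ?_ ?_
  · rintro ⟨m, d⟩ hx
    simp only [mem_sigma, mem_Icc, Nat.mem_divisors] at hx ⊢
    obtain ⟨⟨h1, h2⟩, ⟨c, hc⟩, h4⟩ := hx
    have hd : 0 < d := Nat.pos_of_ne_zero fun h => by rw [h, zero_mul] at hc; omega
    have hc0 : 0 < c := Nat.pos_of_ne_zero fun h => by rw [h, mul_zero] at hc; omega
    have h5 : m / d = c := by rw [hc, Nat.mul_div_cancel_left _ hd]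
    rw [h5]
    refine ⟨⟨hd, ?_⟩, hc0, ?_⟩
    · calc d = d * 1 := (mul_one d).symm
        _ ≤ d * c := Nat.mul_le_mul_left d hc0
        _ = m := hc.symm
        _ ≤ N := h2
    · rw [Nat.le_div_iff_mul_le hd, mul_comm, ← hc]
      exact h2
  · rintro ⟨d, i⟩ hx
    simp only [mem_sigma, mem_Icc, Nat.mem_divisors] at hx ⊢
    obtain ⟨⟨h1, h2⟩, h3, h4⟩ := hx
    have h5 : i * d ≤ N := (Nat.le_div_iff_mul_le h1).1 h4
    have h6 : 0 < d * i := Nat.mul_pos h1 h3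
    refine ⟨⟨h6, by rw [mul_comm]; exact h5⟩, Dvd.intro i rfl, h6.ne'⟩
  · rintro ⟨m, d⟩ hx
    simp only [mem_sigma, mem_Icc, Nat.mem_divisors] at hx
    obtain ⟨⟨h1, h2⟩, h3, h4⟩ := hx
    simp only [Nat.mul_div_cancel' h3]
  · rintro ⟨d, i⟩ hx
    simp only [mem_sigma, mem_Icc] at hx
    obtain ⟨⟨h1, h2⟩, h3, h4⟩ := hx
    simp only [Nat.mul_div_cancel_left i h1]
  · rintro ⟨m, d⟩ _
    rfl

theorem p14_re1 (W : ℝ) (F : ℕ → ℝ) :
    ∑ m ∈ Icc 1 ⌊W⌋₊, (W - m) * ∑ d ∈ m.divisors, (1 / (d : ℝ)) * F d =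
      ∑ d ∈ Icc 1 ⌊W⌋₊, F d * Ph1 (W / d) := by
  have h1 : ∑ m ∈ Icc 1 ⌊W⌋₊, (W - m) * ∑ d ∈ m.divisors, (1 / (d : ℝ)) * F d =
      ∑ m ∈ Icc 1 ⌊W⌋₊, ∑ d ∈ m.divisors,
        (fun d i : ℕ => (W - (d : ℝ) * i) * ((1 / (d : ℝ)) * F d)) d (m / d) := by
    refine sum_congr rfl fun m hm => ?_
    rw [mul_sum]
    refine sum_congr rfl fun d hd => ?_
    have h2 : ((d : ℝ) * ((m / d : ℕ) : ℝ)) = m := by
      rw [← Nat.cast_mul, Nat.mul_div_cancel' (Nat.dvd_of_mem_divisors hd)]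
    show _ = (W - (d : ℝ) * ((m / d : ℕ) : ℝ)) * ((1 / (d : ℝ)) * F d)
    rw [h2]
  refine h1.trans ((p14_dc ⌊W⌋₊ (fun d i : ℕ => (W - (d : ℝ) * i) *
    ((1 / (d : ℝ)) * F d))).trans ?_)
  refine sum_congr rfl fun d hd => ?_
  rw [mem_Icc] at hd
  have hd0 : (d : ℝ) ≠ 0 := by
    have : 0 < d := hd.1
    positivity
  unfold Ph1
  rw [Nat.floor_div_natCast, mul_sum]
  refine sum_congr rfl fun i _ => ?_
  field_simp

theorem p14_re2 (W : ℝ) (b : ℕ → ℝ) :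
    ∑ d ∈ Icc 1 ⌊W⌋₊, (∑ e ∈ d.divisors, b e) * Ph1 (W / d) =
      ∑ e ∈ Icc 1 ⌊W⌋₊, b e * Ps1 (W / e) := by
  have h1 : ∑ d ∈ Icc 1 ⌊W⌋₊, (∑ e ∈ d.divisors, b e) * Ph1 (W / d) =
      ∑ d ∈ Icc 1 ⌊W⌋₊, ∑ e ∈ d.divisors,
        (fun e j : ℕ => b e * Ph1 (W / e / j)) e (d / e) := by
    refine sum_congr rfl fun d hd => ?_
    rw [sum_mul]
    refine sum_congr rfl fun e he => ?_
    have h2 : ((e : ℝ) * ((d / e : ℕ) : ℝ)) = d := by
      rw [← Nat.cast_mul, Nat.mul_div_cancel' (Nat.dvd_of_mem_divisors he)]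
    show _ = b e * Ph1 (W / (e : ℝ) / ((d / e : ℕ) : ℝ))
    rw [div_div, h2]
  refine h1.trans ((p14_dc ⌊W⌋₊ (fun e j : ℕ => b e * Ph1 (W / e / j))).trans ?_)
  refine sum_congr rfl fun e _ => ?_
  unfold Ps1
  rw [Nat.floor_div_natCast, mul_sum]

/-! ### Bounds -/

theorem p14_Ph_nonneg (y : ℝ) (hy : 0 ≤ y) : 0 ≤ Ph1 y := by
  unfold Ph1
  refine sum_nonneg fun i hi => ?_
  rw [mem_Icc] at hi
  have : (i : ℝ) ≤ y := (Nat.le_floor_iff hy).1 hi.2
  linarith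

theorem p14_Ph_le (y : ℝ) (hy : 0 ≤ y) : Ph1 y ≤ y ^ 2 := by
  unfold Ph1
  calc ∑ i ∈ Icc 1 ⌊y⌋₊, (y - i) ≤ ∑ i ∈ Icc 1 ⌊y⌋₊, y :=
        sum_le_sum fun i _ => by linarith [(Nat.cast_nonneg i : (0 : ℝ) ≤ i)]
    _ = ⌊y⌋₊ * y := by rw [sum_const, Nat.card_Icc, nsmul_eq_mul, Nat.add_sub_cancel]
    _ ≤ y * y := mul_le_mul_of_nonneg_right (Nat.floor_le hy) hy
    _ = y ^ 2 := by ring

theorem p14_Ps_zero (x : ℝ) (hx : x < 1) : Ps1 x = 0 := by
  unfold Ps1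
  rw [Nat.floor_eq_zero.2 hx]
  simp

theorem p14_Ps_nonneg (x : ℝ) (hx : 0 ≤ x) : 0 ≤ Ps1 x := by
  unfold Ps1
  exact sum_nonneg fun j _ => p14_Ph_nonneg _ (by positivity)

theorem p14_Ps_le (x : ℝ) (hx : 0 ≤ x) : Ps1 x ≤ x ^ 3 := by
  unfold Ps1
  calc ∑ j ∈ Icc 1 ⌊x⌋₊, Ph1 (x / j) ≤ ∑ j ∈ Icc 1 ⌊x⌋₊, x ^ 2 := by
        refine sum_le_sum fun j hj => ?_
        rw [mem_Icc] at hj
        have hj1 : (1 : ℝ) ≤ j := by exact_mod_cast hj.1
        refine (p14_Ph_le _ (by positivity)).trans ?_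
        have : x / j ≤ x := div_le_self hx hj1
        exact pow_le_pow_left₀ (by positivity) this 2
    _ = ⌊x⌋₊ * x ^ 2 := by rw [sum_const, Nat.card_Icc, nsmul_eq_mul, Nat.add_sub_cancel]
    _ ≤ x * x ^ 2 := mul_le_mul_of_nonneg_right (Nat.floor_le hx) (by positivity)
    _ = x ^ 3 := by ring

/-- the main term of `Ps1` -/
noncomputable def p14_m (x : ℝ) : ℝ := Real.pi ^ 2 / 12 * x ^ 2 - x / 2 * Real.log x +
    x / 2 * (1 - Real.eulerMascheroniConstant - Real.log (2 * Real.pi))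

/-- the error term -/
noncomputable def p14_R (x : ℝ) : ℝ := Ps1 x - p14_m x

theorem p14_m_zero : p14_m 0 = 0 := by
  unfold p14_m
  simp

theorem p14_R_zero : p14_R 0 = 0 := by
  unfold p14_R
  rw [p14_m_zero, p14_Ps_zero 0 one_pos, sub_zero]

theorem p14_m_le (x : ℝ) (hx : 0 < x) : |p14_m x| ≤ x * (Real.pi ^ 2 * x + |Real.log x| +
    |1 - Real.eulerMascheroniConstant - Real.log (2 * Real.pi)|) := by
  unfold p14_m
  set κ := 1 - Real.eulerMascheroniConstant - Real.log (2 * Real.pi)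
  have h1 : |Real.pi ^ 2 / 12 * x ^ 2 - x / 2 * Real.log x + x / 2 * κ| ≤
      |Real.pi ^ 2 / 12 * x ^ 2| + |x / 2 * Real.log x| + |x / 2 * κ| :=
    (abs_add_le _ _).trans (by linarith [abs_sub (Real.pi ^ 2 / 12 * x ^ 2) (x / 2 * Real.log x)])
  refine h1.trans ?_
  rw [abs_mul, abs_mul (x / 2), abs_mul (x / 2), abs_of_pos (by positivity : 0 < x / 2),
    abs_of_pos (by positivity : 0 < Real.pi ^ 2 / 12), abs_of_pos (by positivity : 0 < x ^ 2)]
  have h2 : 0 ≤ x * (Real.pi ^ 2 * x) := by positivity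
  have h3 : 0 ≤ x * |Real.log x| := by positivity
  have h4 : 0 ≤ x * |κ| := by positivity
  nlinarith

theorem p14_R_bd (h5 : W14d) : ∃ C : ℝ, 0 < C ∧ ∀ x : ℝ, 0 < x →
    |p14_R x| ≤ C * x * (1 + max 0 (- Real.log x)) := by
  obtain ⟨x0, hx0, h⟩ := h5 1 one_pos
  set κ := |1 - Real.eulerMascheroniConstant - Real.log (2 * Real.pi)| with hκ
  have hκ0 : 0 ≤ κ := abs_nonneg _
  have hl0 : 0 ≤ Real.log x0 := Real.log_nonneg hx0
  refine ⟨1 + x0 ^ 2 + Real.pi ^ 2 * x0 + Real.log x0 + κ, by positivity, fun x hx => ?_⟩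
  have hmax : 0 ≤ max 0 (- Real.log x) := le_max_left _ _
  have hC : 0 ≤ x0 ^ 2 + Real.pi ^ 2 * x0 + Real.log x0 + κ := by positivity
  rcases le_or_gt x0 x with hc | hc
  · have h1 := h x hc
    have h2 : |p14_R x| ≤ 1 * x := h1
    refine h2.trans ?_
    have h3 : 0 ≤ x * max 0 (- Real.log x) := by positivity
    have h4 : 0 ≤ (x0 ^ 2 + Real.pi ^ 2 * x0 + Real.log x0 + κ) *
        (x * (1 + max 0 (- Real.log x))) := by positivity
    nlinarith
  · have hm := p14_m_le x hx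
    have hR : |p14_R x| ≤ |Ps1 x| + |p14_m x| := abs_sub _ _
    rcases le_or_gt 1 x with hx1 | hx1
    · have hlx : 0 ≤ Real.log x := Real.log_nonneg hx1
      have hlx' : Real.log x ≤ Real.log x0 := Real.log_le_log hx hc.le
      have hP : |Ps1 x| ≤ x0 ^ 2 * x := by
        rw [abs_of_nonneg (p14_Ps_nonneg x hx.le)]
        refine (p14_Ps_le x hx.le).trans ?_
        have : x ^ 2 ≤ x0 ^ 2 := pow_le_pow_left₀ hx.le hc.le 2
        calc x ^ 3 = x ^ 2 * x := by ring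
          _ ≤ x0 ^ 2 * x := mul_le_mul_of_nonneg_right this hx.le
      rw [abs_of_nonneg hlx, ← hκ] at hm
      have h1 : x * (Real.pi ^ 2 * x + Real.log x + κ) ≤
          x * (Real.pi ^ 2 * x0 + Real.log x0 + κ) := by
        refine mul_le_mul_of_nonneg_left ?_ hx.le
        have : Real.pi ^ 2 * x ≤ Real.pi ^ 2 * x0 := mul_le_mul_of_nonneg_left hc.le (by positivity)
        linarith
      have h2 : (1 + x0 ^ 2 + Real.pi ^ 2 * x0 + Real.log x0 + κ) * x ≤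
          (1 + x0 ^ 2 + Real.pi ^ 2 * x0 + Real.log x0 + κ) * x * (1 + max 0 (- Real.log x)) := by
        refine le_mul_of_one_le_right (by positivity) (by linarith)
      nlinarith
    · rw [p14_Ps_zero x hx1, abs_zero, zero_add] at hR
      have hlx : Real.log x ≤ 0 := Real.log_nonpos hx.le hx1.le
      have hmx : max 0 (- Real.log x) = - Real.log x := max_eq_right (by linarith)
      rw [abs_of_nonpos hlx, ← hκ] at hm
      rw [hmx]
      refine hR.trans (hm.trans ?_)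
      have h1 : Real.pi ^ 2 * x + -Real.log x + κ ≤
          (1 + x0 ^ 2 + Real.pi ^ 2 * x0 + Real.log x0 + κ) * (1 + -Real.log x) := by
        have h2 : Real.pi ^ 2 * x ≤ Real.pi ^ 2 * x0 :=
          mul_le_mul_of_nonneg_left hc.le (by positivity)
        have h3 : 0 ≤ (x0 ^ 2 + Real.pi ^ 2 * x0 + Real.log x0 + κ) * -Real.log x :=
          mul_nonneg hC (by linarith)
        nlinarith
      calc x * (Real.pi ^ 2 * x + -Real.log x + κ) ≤
            x * ((1 + x0 ^ 2 + Real.pi ^ 2 * x0 + Real.log x0 + κ) * (1 + -Real.log x)) :=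
              mul_le_mul_of_nonneg_left h1 hx.le
        _ = _ := by ring

theorem p14_R_lim (h5 : W14d) : Filter.Tendsto (fun x : ℝ => p14_R x / x) Filter.atTop
    (nhds 0) := by
  rw [Metric.tendsto_atTop]
  intro ε hε
  obtain ⟨x0, hx0, h⟩ := h5 (ε / 2) (by positivity)
  refine ⟨x0, fun x hx => ?_⟩
  have hx1 : 0 < x := by linarith
  rw [Real.dist_eq, sub_zero, abs_div, abs_of_pos hx1, div_lt_iff₀ hx1]
  have h1 : |p14_R x| ≤ ε / 2 * x := h x hx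
  have h2 : 0 < ε * x := by positivity
  linarith

/-! ### The even integers -/

theorem p14_even (N : ℕ) (h : ℕ → ℝ) :
    ∑ k ∈ Icc 1 N, (if 2 ∣ k then h k else 0) = ∑ m ∈ Icc 1 (N / 2), h (2 * m) := by
  rw [← sum_filter]
  symm
  refine sum_bij (fun m _ => 2 * m) ?_ ?_ ?_ ?_
  · intro m hm
    rw [mem_Icc] at hm
    rw [mem_filter, mem_Icc]
    exact ⟨⟨by omega, by omega⟩, Dvd.intro m rfl⟩
  · intro a _ b _ hab
    have : 2 * a = 2 * b := hab
    omega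
  · intro k hk
    rw [mem_filter, mem_Icc] at hk
    obtain ⟨⟨h1, h2⟩, c, hc⟩ := hk
    refine ⟨c, ?_, hc.symm⟩
    rw [mem_Icc]
    omega
  · intro m _
    rfl

theorem p14_f (m : ℕ) (hm : 1 ≤ m) : (2 * m).primeFactors.erase 2 = m.primeFactors.erase 2 := by
  rw [Nat.primeFactors_mul (by norm_num) (by omega), Nat.Prime.primeFactors Nat.prime_two]
  ext p
  simp only [mem_erase, mem_union, mem_singleton]
  constructor
  · rintro ⟨h1, h2 | h2⟩
    · exact absurd h2 h1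
    · exact ⟨h1, h2⟩
  · rintro ⟨h1, h2⟩
    exact ⟨h1, Or.inr h2⟩

theorem p14_SG (h3 : W14b) (C2 : ℝ) (hSG : ∀ k : ℕ, 1 ≤ k → SG k = if 2 ∣ k then
      2 * C2 * ∏ p ∈ k.primeFactors.erase 2, (((p : ℝ) - 1) / ((p : ℝ) - 2)) else 0) (Z : ℝ) :
    ∑ k ∈ Icc 1 ⌊Z⌋₊, SG k * (Z - k) =
      4 * C2 * ∑ e ∈ Icc 1 ⌊Z / 2⌋₊, bb e * Ps1 (Z / 2 / e) := by
  have h1 : ∑ k ∈ Icc 1 ⌊Z⌋₊, SG k * (Z - k) = ∑ k ∈ Icc 1 ⌊Z⌋₊, (if 2 ∣ k then
      (2 * C2 * ∏ p ∈ k.primeFactors.erase 2, (((p : ℝ) - 1) / ((p : ℝ) - 2))) * (Z - k)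
        else 0) := by
    refine sum_congr rfl fun k hk => ?_
    rw [mem_Icc] at hk
    rw [hSG k hk.1]
    split_ifs
    · rfl
    · rw [zero_mul]
  have hfl : ⌊Z / 2⌋₊ = ⌊Z⌋₊ / 2 := by
    have := Nat.floor_div_natCast Z 2
    simpa using this
  rw [h1, p14_even, ← p14_re2, ← p14_re1 (Z / 2) (fun d => ∑ e ∈ d.divisors, bb e), hfl, mul_sum]
  refine sum_congr rfl fun m hm => ?_
  rw [mem_Icc] at hm
  rw [p14_f m hm.1, h3 m hm.1]
  push_cast
  ring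

/-! ### The main term -/

theorem p14_sums (hs : Summable (fun d : ℕ => |bb d| * (1 + Real.log d) / d)) :
    Summable (fun d : ℕ => bb d / d) ∧ Summable (fun d : ℕ => bb d / (d : ℝ) ^ 2) ∧
      Summable (fun d : ℕ => bb d * Real.log d / d) := by
  have hlog : ∀ d : ℕ, 0 ≤ Real.log d := fun d => Real.log_natCast_nonneg d
  refine ⟨?_, ?_, ?_⟩
  · refine Summable.of_norm_bounded hs fun d => ?_
    rw [norm_div, Real.norm_eq_abs, Real.norm_natCast]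
    refine div_le_div_of_nonneg_right ?_ (Nat.cast_nonneg d)
    nlinarith [abs_nonneg (bb d), hlog d, mul_nonneg (abs_nonneg (bb d)) (hlog d)]
  · refine Summable.of_norm_bounded hs fun d => ?_
    rw [norm_div, Real.norm_eq_abs, norm_pow, Real.norm_natCast]
    rcases Nat.eq_zero_or_pos d with h | h
    · subst h
      simp
    · have hd : (1 : ℝ) ≤ d := by exact_mod_cast h
      rw [div_le_div_iff₀ (by positivity) (by positivity)]
      have h1 : |bb d| * d ≤ |bb d| * (1 + Real.log d) * (d : ℝ) ^ 2 := by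
        have h2 : |bb d| ≤ |bb d| * (1 + Real.log d) :=
          le_mul_of_one_le_right (abs_nonneg _) (by linarith [hlog d])
        have h3 : (d : ℝ) ≤ (d : ℝ) ^ 2 := by nlinarith
        exact mul_le_mul h2 h3 (by positivity)
          (mul_nonneg (abs_nonneg _) (by linarith [hlog d]))
      exact h1
  · refine Summable.of_norm_bounded hs fun d => ?_
    rw [norm_div, norm_mul, Real.norm_eq_abs, Real.norm_eq_abs, Real.norm_natCast,
      abs_of_nonneg (hlog d)]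
    refine div_le_div_of_nonneg_right ?_ (Nat.cast_nonneg d)
    nlinarith [abs_nonneg (bb d), hlog d, mul_nonneg (abs_nonneg (bb d)) (hlog d)]

theorem p14_mexp (W : ℝ) (hW : 0 < W) (e : ℕ) : bb e * p14_m (W / e) =
    Real.pi ^ 2 / 12 * W ^ 2 * (bb e / (e : ℝ) ^ 2) +
      W / 2 * (1 - Real.eulerMascheroniConstant - Real.log (2 * Real.pi) - Real.log W) *
        (bb e / e) + W / 2 * (bb e * Real.log e / e) := by
  rcases Nat.eq_zero_or_pos e with h | h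
  · subst h
    simp [p14_m_zero]
  · have he : (0 : ℝ) < e := by exact_mod_cast h
    unfold p14_m
    rw [Real.log_div hW.ne' he.ne']
    field_simp
    ring

theorem p14_main (C2 : ℝ) (hs : Summable (fun d : ℕ => |bb d| * (1 + Real.log d) / d))
    (h1 : 2 * C2 * ∑' d : ℕ, bb d / d = 1)
    (h2 : C2 * ∑' d : ℕ, bb d / (d : ℝ) ^ 2 = 6 / Real.pi ^ 2)
    (h3 : ∑' d : ℕ, bb d * Real.log d / d = - Real.log 2 * ∑' d : ℕ, bb d / d) (Z : ℝ)
    (hZ : 0 < Z) :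
    Summable (fun e : ℕ => bb e * p14_m (Z / 2 / e)) ∧
      4 * C2 * ∑' e : ℕ, bb e * p14_m (Z / 2 / e) = mainT Z := by
  obtain ⟨s1, s2, s3⟩ := p14_sums hs
  have hW : 0 < Z / 2 := by positivity
  simp only [p14_mexp (Z / 2) hW]
  have t1 := s2.mul_left (Real.pi ^ 2 / 12 * (Z / 2) ^ 2)
  have t2 := s1.mul_left (Z / 2 / 2 * (1 - Real.eulerMascheroniConstant -
    Real.log (2 * Real.pi) - Real.log (Z / 2)))
  have t3 := s3.mul_left (Z / 2 / 2)
  refine ⟨(t1.add t2).add t3, ?_⟩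
  rw [(t1.add t2).tsum_add t3, t1.tsum_add t2, tsum_mul_left, tsum_mul_left, tsum_mul_left, h3]
  unfold mainT
  set A := ∑' d : ℕ, bb d / d
  set B := ∑' d : ℕ, bb d / (d : ℝ) ^ 2
  set κ := 1 - Real.eulerMascheroniConstant - Real.log (2 * Real.pi)
  have hl : Real.log (Z / 2) = Real.log Z - Real.log 2 := Real.log_div hZ.ne' (by norm_num)
  rw [hl]
  have hpi : Real.pi ≠ 0 := Real.pi_ne_zero
  calc 4 * C2 * (Real.pi ^ 2 / 12 * (Z / 2) ^ 2 * B +
        Z / 2 / 2 * (κ - (Real.log Z - Real.log 2)) * A + Z / 2 / 2 * (-Real.log 2 * A))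
      = Real.pi ^ 2 / 12 * Z ^ 2 * (C2 * B) + (Z / 2 * (κ - Real.log Z)) * (2 * C2 * A) := by ring
    _ = Real.pi ^ 2 / 12 * Z ^ 2 * (6 / Real.pi ^ 2) + (Z / 2 * (κ - Real.log Z)) * 1 := by
        rw [h1, h2]
    _ = Z ^ 2 / 2 - Z / 2 * Real.log Z + Z / 2 * κ := by
        field_simp
        ring

/-! ### The error term -/

theorem p14_err (h5 : W14d) (hs : Summable (fun d : ℕ => |bb d| * (1 + Real.log d) / d)) :
    Filter.Tendsto (fun W : ℝ => ∑' e : ℕ, bb e * p14_R (W / e) / W) Filter.atTop (nhds 0) := by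
  obtain ⟨C, hC, hR⟩ := p14_R_bd h5
  have h0 : (0 : ℝ) = ∑' _ : ℕ, (0 : ℝ) := by simp
  rw [h0]
  refine tendsto_tsum_of_dominated_convergence (hs.mul_left C) (fun e => ?_) ?_
  · rcases Nat.eq_zero_or_pos e with h | h
    · subst h
      simp [p14_R_zero]
    · have he : (0 : ℝ) < e := by exact_mod_cast h
      have h1 : Filter.Tendsto (fun W : ℝ => W / e) Filter.atTop Filter.atTop :=
        Filter.tendsto_id.atTop_div_const he
      have h2 := ((p14_R_lim h5).comp h1).const_mul (bb e / e)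
      rw [mul_zero] at h2
      refine h2.congr' ?_
      filter_upwards [Filter.eventually_gt_atTop 0] with W hW
      simp only [Function.comp]
      field_simp
  · filter_upwards [Filter.eventually_ge_atTop 1] with W hW e
    have hW0 : 0 < W := by linarith
    rcases Nat.eq_zero_or_pos e with h | h
    · subst h
      simp [p14_R_zero]
    · have he : (0 : ℝ) < e := by exact_mod_cast h
      have he1 : (1 : ℝ) ≤ e := by exact_mod_cast h
      have h1 := hR (W / e) (by positivity)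
      have h2 : max 0 (- Real.log (W / e)) ≤ Real.log e := by
        rw [Real.log_div hW0.ne' he.ne']
        have := Real.log_nonneg hW
        exact max_le (Real.log_nonneg he1) (by linarith)
      rw [norm_div, norm_mul, Real.norm_eq_abs, Real.norm_eq_abs, Real.norm_of_nonneg hW0.le,
        div_le_iff₀ hW0]
      calc |bb e| * |p14_R (W / e)| ≤ |bb e| * (C * (W / e) * (1 + Real.log e)) := by
            refine mul_le_mul_of_nonneg_left (h1.trans ?_) (abs_nonneg _)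
            exact mul_le_mul_of_nonneg_left (by linarith) (by positivity)
        _ = C * (|bb e| * (1 + Real.log e) / e) * W := by field_simp

theorem p14_sum_eq (W : ℝ) (hW : 0 ≤ W) : Summable (fun e : ℕ => bb e * Ps1 (W / e)) ∧
    ∑' e : ℕ, bb e * Ps1 (W / e) = ∑ e ∈ Icc 1 ⌊W⌋₊, bb e * Ps1 (W / e) := by
  have h1 : ∀ e ∉ Icc 1 ⌊W⌋₊, bb e * Ps1 (W / e) = 0 := by
    intro e he
    rw [mem_Icc, not_and_or] at he
    rw [p14_Ps_zero, mul_zero]
    rcases Nat.eq_zero_or_pos e with h | h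
    · subst h
      simp
    · rcases he with he | he
      · omega
      · have he0 : (0 : ℝ) < e := by exact_mod_cast h
        rw [div_lt_one he0]
        exact (Nat.floor_lt hW).1 (by omega)
  exact ⟨summable_of_ne_finset_zero h1, tsum_eq_sum h1⟩

theorem p14_asym (h3 : W14b) (h5 : W14d) (C2 : ℝ)
    (hSG : ∀ k : ℕ, 1 ≤ k → SG k = if 2 ∣ k then
      2 * C2 * ∏ p ∈ k.primeFactors.erase 2, (((p : ℝ) - 1) / ((p : ℝ) - 2)) else 0)
    (hs : Summable (fun d : ℕ => |bb d| * (1 + Real.log d) / d))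
    (h1 : 2 * C2 * ∑' d : ℕ, bb d / d = 1)
    (h2 : C2 * ∑' d : ℕ, bb d / (d : ℝ) ^ 2 = 6 / Real.pi ^ 2)
    (h4 : ∑' d : ℕ, bb d * Real.log d / d = - Real.log 2 * ∑' d : ℕ, bb d / d) (η : ℝ)
    (hη : 0 < η) : ∃ Z0 : ℝ, 1 ≤ Z0 ∧ ∀ Z : ℝ, Z0 ≤ Z →
      |∑ k ∈ Icc 1 ⌊Z⌋₊, SG k * (Z - k) - mainT Z| ≤ η * Z := by
  have herr := p14_err h5 hs
  rw [Metric.tendsto_atTop] at herr
  obtain ⟨W0, hW0⟩ := herr (η / (2 * |C2| + 1)) (by positivity)
  refine ⟨max 1 (2 * W0), le_max_left _ _, fun Z hZ => ?_⟩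
  have hZ1 : 1 ≤ Z := (le_max_left _ _).trans hZ
  have hZ0 : 0 < Z := by linarith
  have hZ2 : W0 ≤ Z / 2 := by linarith [(le_max_right 1 (2 * W0)).trans hZ]
  have hW : 0 < Z / 2 := by positivity
  have e1 := hW0 (Z / 2) hZ2
  obtain ⟨sm, em⟩ := p14_main C2 hs h1 h2 h4 Z hZ0
  obtain ⟨sp, ep⟩ := p14_sum_eq (Z / 2) hW.le
  rw [Real.dist_eq, sub_zero] at e1
  have e2 : ∑' e : ℕ, bb e * p14_R (Z / 2 / e) / (Z / 2) =
      (∑' e : ℕ, bb e * Ps1 (Z / 2 / e) - ∑' e : ℕ, bb e * p14_m (Z / 2 / e)) / (Z / 2) := by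
    rw [tsum_div_const, ← sp.tsum_sub sm]
    congr 1
    refine tsum_congr fun e => ?_
    unfold p14_R
    ring
  rw [p14_SG h3 C2 hSG, ← em, ← ep, ← mul_sub, abs_mul]
  rw [e2, abs_div, abs_of_pos hW, div_lt_iff₀ hW] at e1
  set D := |∑' e : ℕ, bb e * Ps1 (Z / 2 / e) - ∑' e : ℕ, bb e * p14_m (Z / 2 / e)|
  have hD : 0 ≤ D := abs_nonneg _
  have hc : 0 ≤ |C2| := abs_nonneg _
  rw [abs_mul, abs_of_pos (by norm_num : (0 : ℝ) < 4)]
  have e3 : η / (2 * |C2| + 1) * (Z / 2) * (4 * |C2|) ≤ η * Z := by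
    rw [div_mul_eq_mul_div, div_mul_eq_mul_div, div_le_iff₀ (by positivity)]
    nlinarith [mul_pos hη hZ0]
  calc 4 * |C2| * D ≤ 4 * |C2| * (η / (2 * |C2| + 1) * (Z / 2)) :=
        mul_le_mul_of_nonneg_left e1.le (by positivity)
    _ = η / (2 * |C2| + 1) * (Z / 2) * (4 * |C2|) := by ring
    _ ≤ η * Z := e3

theorem W14_pr (h1 : W14a) (h2 : W14t) (h3 : W14b) (h4 : W14c) (h5 : W14d) : W14 := by
  intro η hη
  obtain ⟨-, C2, -, hP, hSG⟩ := h1
  obtain ⟨C, hC, ht⟩ := h2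
  obtain ⟨hs, hc⟩ := h4
  obtain ⟨c1, c2, c3⟩ := hc C2 hP
  obtain ⟨Z0, hZ0, hasy⟩ := p14_asym h3 h5 C2 hSG hs c1 c2 c3 (η / 2) (by positivity)
  refine ⟨max Z0 (2 * C / η), hZ0.trans (le_max_left _ _), fun Z K hZ hK => ?_⟩
  have hZ1 : Z0 ≤ Z := (le_max_left _ _).trans hZ
  have hZ2 : 2 * C / η ≤ Z := (le_max_right _ _).trans hZ
  have hZ3 : 1 ≤ Z := hZ0.trans hZ1
  have hZpos : 0 < Z := by linarith
  have hK1 : (1 : ℝ) ≤ K := (one_le_pow₀ hZ3).trans hK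
  have hK1' : 1 ≤ K := by exact_mod_cast hK1
  have hsq : Z ^ 4 ≤ Real.sqrt K := by
    refine Real.le_sqrt_of_sq_le ?_
    calc (Z ^ 4) ^ 2 = Z ^ 8 := by ring
      _ ≤ (K : ℝ) := hK
  have hsq0 : 0 < Real.sqrt K := lt_of_lt_of_le (by positivity) hsq
  have e1 := hasy Z hZ1
  have e2 : |∑ k ∈ Icc 1 ⌊Z⌋₊, SK K k * (Z - k) - ∑ k ∈ Icc 1 ⌊Z⌋₊, SG k * (Z - k)| ≤
      η / 2 * Z := by
    rw [← sum_sub_distrib]
    refine (abs_sum_le_sum_abs _ _).trans ?_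
    have e3 : ∀ k ∈ Icc 1 ⌊Z⌋₊, |SK K k * (Z - k) - SG k * (Z - k)| ≤
        C * Z / Real.sqrt K * Z := by
      intro k hk
      rw [mem_Icc] at hk
      have hkZ : (k : ℝ) ≤ Z := (Nat.le_floor_iff hZpos.le).1 hk.2
      have e4 := ht K k hK1' hk.1
      rw [← sub_mul, abs_mul, abs_of_nonneg (by linarith : 0 ≤ Z - k), abs_sub_comm]
      refine mul_le_mul (e4.trans ?_) (by linarith [(Nat.cast_nonneg k : (0 : ℝ) ≤ k)])
        (by linarith) (by positivity)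
      gcongr
    refine (sum_le_sum e3).trans ?_
    rw [sum_const, Nat.card_Icc, nsmul_eq_mul, Nat.add_sub_cancel]
    have e5 : (⌊Z⌋₊ : ℝ) ≤ Z := Nat.floor_le hZpos.le
    have e6 : C * Z / Real.sqrt K * Z ≤ C * Z / Z ^ 4 * Z := by gcongr
    calc (⌊Z⌋₊ : ℝ) * (C * Z / Real.sqrt K * Z) ≤ Z * (C * Z / Z ^ 4 * Z) :=
          mul_le_mul e5 e6 (by positivity) hZpos.le
      _ = C / Z := by field_simp
      _ ≤ C := div_le_self hC.le hZ3
      _ ≤ η / 2 * Z := by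
          rw [div_le_iff₀ hη] at hZ2
          linarith
  have e3 := abs_sub_le (∑ k ∈ Icc 1 ⌊Z⌋₊, SK K k * (Z - k))
    (∑ k ∈ Icc 1 ⌊Z⌋₊, SG k * (Z - k)) (mainT Z)
  linarith

end Pool.Agent.FGP
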