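import Pool.Agent.Lib_helper3.FGP.WantedE
import Pool.Agent.Lib_helper3.FGP.P14

/-! FGP, block E14: the singular series with a power saving -/

set_option autoImplicit false

namespace Pool.Agent.FGP

open Finset Pool.Agent.Var35 Pool.Agent.Var73 Pool.Agent.PV
open scoped ArithmeticFunction ArithmeticFunction.Moebius

theorem e14_main (h3 : W14b) (h5 : E14c) (C2 : ℝ)
    (hSG : ∀ k : ℕ, 1 ≤ k → SG k = if 2 ∣ k then
      2 * C2 * ∏ p ∈ k.primeFactors.erase 2, (((p : ℝ) - 1) / ((p : ℝ) - 2)) else 0)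
    (hs : Summable (fun d : ℕ => |bb d| * (1 + Real.log d) / d))
    (h1 : 2 * C2 * ∑' d : ℕ, bb d / d = 1)
    (h2 : C2 * ∑' d : ℕ, bb d / (d : ℝ) ^ 2 = 6 / Real.pi ^ 2)
    (h4 : ∑' d : ℕ, bb d * Real.log d / d = - Real.log 2 * ∑' d : ℕ, bb d / d)
    (C : ℝ) (hC : 0 < C) (hR : ∀ x : ℝ, 0 < x → |p14_R x| ≤ C * x ^ (3 / 4 : ℝ)) (Z : ℝ)
    (hZ : 0 < Z) :
    |∑ k ∈ Icc 1 ⌊Z⌋₊, SG k * (Z - k) - mainT Z| ≤
      4 * |C2| * (C * ∑' d : ℕ, |bb d| / (d : ℝ) ^ (3 / 4 : ℝ)) * Z ^ (3 / 4 : ℝ) := by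
  have hW : 0 < Z / 2 := by positivity
  obtain ⟨sm, em⟩ := p14_main C2 hs h1 h2 h4 Z hZ
  obtain ⟨sp, ep⟩ := p14_sum_eq (Z / 2) hW.le
  have e2 : ∑' e : ℕ, bb e * Ps1 (Z / 2 / e) - ∑' e : ℕ, bb e * p14_m (Z / 2 / e) =
      ∑' e : ℕ, bb e * p14_R (Z / 2 / e) := by
    rw [← sp.tsum_sub sm]
    refine tsum_congr fun e => ?_
    unfold p14_R
    ring
  rw [p14_SG h3 C2 hSG, ← em, ← ep, ← mul_sub, abs_mul, e2, abs_mul,
    abs_of_pos (by norm_num : (0 : ℝ) < 4)]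
  have hb : ∀ e : ℕ, ‖bb e * p14_R (Z / 2 / e)‖ ≤
      C * Z ^ (3 / 4 : ℝ) * (|bb e| / (e : ℝ) ^ (3 / 4 : ℝ)) := by
    intro e
    rcases Nat.eq_zero_or_pos e with h | h
    · subst h
      simp [p14_R_zero]
    · have he : (0 : ℝ) < e := by exact_mod_cast h
      rw [norm_mul, Real.norm_eq_abs, Real.norm_eq_abs]
      have h6 := hR (Z / 2 / e) (by positivity)
      have h7 : (Z / 2 / e) ^ (3 / 4 : ℝ) ≤ Z ^ (3 / 4 : ℝ) / (e : ℝ) ^ (3 / 4 : ℝ) := by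
        rw [Real.div_rpow hW.le he.le]
        have h8 : (Z / 2) ^ (3 / 4 : ℝ) ≤ Z ^ (3 / 4 : ℝ) :=
          Real.rpow_le_rpow hW.le (by linarith) (by norm_num)
        gcongr
      calc |bb e| * |p14_R (Z / 2 / e)| ≤
            |bb e| * (C * (Z ^ (3 / 4 : ℝ) / (e : ℝ) ^ (3 / 4 : ℝ))) := by
              refine mul_le_mul_of_nonneg_left (h6.trans ?_) (abs_nonneg _)
              exact mul_le_mul_of_nonneg_left h7 hC.le
        _ = C * Z ^ (3 / 4 : ℝ) * (|bb e| / (e : ℝ) ^ (3 / 4 : ℝ)) := by ring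
  have h9 := tsum_of_norm_bounded (h5.hasSum.mul_left (C * Z ^ (3 / 4 : ℝ))) hb
  rw [Real.norm_eq_abs] at h9
  calc 4 * |C2| * |∑' e : ℕ, bb e * p14_R (Z / 2 / e)| ≤
        4 * |C2| * (C * Z ^ (3 / 4 : ℝ) * ∑' d : ℕ, |bb d| / (d : ℝ) ^ (3 / 4 : ℝ)) :=
          mul_le_mul_of_nonneg_left h9 (by positivity)
    _ = _ := by ring

theorem E14_pr (h1 : W14a) (h2 : W14t) (h3 : W14b) (h4 : W14c) (h5 : E14c) (h6 : E14d) : E14 := by
  obtain ⟨-, C2, -, hP, hSG⟩ := h1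
  obtain ⟨C, hC, ht⟩ := h2
  obtain ⟨hs, hc⟩ := h4
  obtain ⟨c1, c2, c3⟩ := hc C2 hP
  obtain ⟨Cd, hCd, hR⟩ := h6
  set S : ℝ := ∑' d : ℕ, |bb d| / (d : ℝ) ^ (3 / 4 : ℝ) with hS
  have hS0 : 0 ≤ S := tsum_nonneg fun d => by positivity
  refine ⟨4 * |C2| * (Cd * S) + C, by positivity, fun Z K hZ hK1 hK => ?_⟩
  have e1 := e14_main h3 h5 C2 hSG hs c1 c2 c3 Cd hCd (fun x hx => hR x hx) Z hZ
  have e2 : |∑ k ∈ Icc 1 ⌊Z⌋₊, SK K k * (Z - k) - ∑ k ∈ Icc 1 ⌊Z⌋₊, SG k * (Z - k)| ≤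
      C * Z ^ (3 / 4 : ℝ) := by
    rcases lt_or_ge Z 1 with hZ1 | hZ1
    · rw [Nat.floor_eq_zero.2 hZ1]
      simp
      positivity
    · rw [← sum_sub_distrib]
      refine (abs_sum_le_sum_abs _ _).trans ?_
      have hsq : Z ^ 4 ≤ Real.sqrt K := by
        refine Real.le_sqrt_of_sq_le ?_
        calc (Z ^ 4) ^ 2 = Z ^ 8 := by ring
          _ ≤ (K : ℝ) := hK
      have hsq0 : 0 < Real.sqrt K := lt_of_lt_of_le (by positivity) hsq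
      have e3 : ∀ k ∈ Icc 1 ⌊Z⌋₊, |SK K k * (Z - k) - SG k * (Z - k)| ≤
          C * Z / Real.sqrt K * Z := by
        intro k hk
        rw [mem_Icc] at hk
        have hkZ : (k : ℝ) ≤ Z := (Nat.le_floor_iff hZ.le).1 hk.2
        have e4 := ht K k hK1 hk.1
        rw [← sub_mul, abs_mul, abs_of_nonneg (by linarith : 0 ≤ Z - k), abs_sub_comm]
        refine mul_le_mul (e4.trans ?_) (by linarith [(Nat.cast_nonneg k : (0 : ℝ) ≤ k)])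
          (by linarith) (by positivity)
        gcongr
      refine (sum_le_sum e3).trans ?_
      rw [sum_const, Nat.card_Icc, nsmul_eq_mul, Nat.add_sub_cancel]
      have e5 : (⌊Z⌋₊ : ℝ) ≤ Z := Nat.floor_le hZ.le
      have e6 : C * Z / Real.sqrt K * Z ≤ C * Z / Z ^ 4 * Z := by gcongr
      calc (⌊Z⌋₊ : ℝ) * (C * Z / Real.sqrt K * Z) ≤ Z * (C * Z / Z ^ 4 * Z) :=
            mul_le_mul e5 e6 (by positivity) hZ.le
        _ = C / Z := by field_simp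
        _ ≤ C := div_le_self hC.le hZ1
        _ ≤ C * Z ^ (3 / 4 : ℝ) :=
            le_mul_of_one_le_right hC.le (Real.one_le_rpow hZ1 (by norm_num))
  have e3 := abs_sub_le (∑ k ∈ Icc 1 ⌊Z⌋₊, SK K k * (Z - k))
    (∑ k ∈ Icc 1 ⌊Z⌋₊, SG k * (Z - k)) (mainT Z)
  rw [← hS] at e1
  rw [add_mul]
  linarith

end Pool.Agent.FGP
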