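import Pool.Agent.Lib_helper3.FGP.Wanted

/-! Block P14c of FGP (helper45). -/

set_option autoImplicit false

namespace Pool.Agent.FGP

open Finset Pool.Agent.Var35 Pool.Agent.Var73 Pool.Agent.PV
open scoped ArithmeticFunction ArithmeticFunction.Moebius

/-- the local factor of `bb` -/
noncomputable def p14c_loc (p e : ℕ) : ℝ :=
  (if p = 2 then (if e = 1 then -1 else 0) else
    if e = 1 then 2 / ((p : ℝ) - 2) else
    if e = 2 then -(p : ℝ) / ((p : ℝ) - 2) else 0)

theorem p14c_bb (d : ℕ) : bb d = ∏ p ∈ d.primeFactors, p14c_loc p (d.factorization p) := rfl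

theorem p14c_mul {m n : ℕ} (h : m.Coprime n) : bb (m * n) = bb m * bb n := by
  rw [p14c_bb, p14c_bb, p14c_bb, h.primeFactors_mul, Finset.prod_union h.disjoint_primeFactors]
  congr 1
  · refine Finset.prod_congr rfl fun p hp => ?_
    rw [Nat.factorization_eq_of_coprime_left h (Nat.mem_primeFactors_iff_mem_primeFactorsList.mp hp)]
  · refine Finset.prod_congr rfl fun p hp => ?_
    rw [Nat.factorization_eq_of_coprime_right h (Nat.mem_primeFactors_iff_mem_primeFactorsList.mp hp)]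

theorem p14c_one : bb 1 = 1 := by simp [p14c_bb]

theorem p14c_pow {p : ℕ} (hp : p.Prime) {j : ℕ} (hj : j ≠ 0) : bb (p ^ j) = p14c_loc p j := by
  rw [p14c_bb, Nat.primeFactors_prime_pow hj hp, Finset.prod_singleton, hp.factorization_pow]
  simp

theorem p14c_pow3 {p : ℕ} (hp : p.Prime) {j : ℕ} (hj : 3 ≤ j) : bb (p ^ j) = 0 := by
  rw [p14c_pow hp (by omega), p14c_loc]
  split_ifs <;> first | rfl | omega

theorem p14c_three {p : ℕ} (hp : p.Prime) (h2 : p ≠ 2) : (3 : ℝ) ≤ p := by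
  have h1 := hp.two_le
  have : 3 ≤ p := by omega
  exact_mod_cast this

/-! ## Summability -/

noncomputable def p14c_f (d : ℕ) : ℝ := |bb d| * (d : ℝ) ^ (-(3 / 4) : ℝ)

theorem p14c_nonneg (d : ℕ) : 0 ≤ p14c_f d :=
  mul_nonneg (abs_nonneg _) (Real.rpow_nonneg (Nat.cast_nonneg _) _)

theorem p14c_f_one : p14c_f 1 = 1 := by simp [p14c_f, p14c_one]

theorem p14c_f_mul {a b : ℕ} (h : Nat.Coprime a b) : p14c_f (a * b) = p14c_f a * p14c_f b := by
  unfold p14c_f
  rw [p14c_mul h, abs_mul, Nat.cast_mul,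
    Real.mul_rpow (Nat.cast_nonneg _) (Nat.cast_nonneg _)]
  ring

theorem p14c_zero_pow (p : ℕ) (hp : p.Prime) (k : ℕ) (hk : 3 ≤ k) : p14c_f (p ^ k) = 0 := by
  unfold p14c_f
  rw [p14c_pow3 hp hk]
  simp

theorem p14c_summ (p : ℕ) (hp : p.Prime) : Summable (fun n : ℕ => ‖p14c_f (p ^ n)‖) := by
  apply summable_of_ne_finset_zero (s := Finset.range 3)
  intro b hb
  rw [p14c_zero_pow p hp b (by simpa using hb), norm_zero]

theorem p14c_local (p : ℕ) (hp : p.Prime) :
    ∑' n : ℕ, p14c_f (p ^ n) ≤ 1 + 9 * (p : ℝ) ^ (-(3 / 2) : ℝ) := by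
  rw [tsum_eq_sum (s := Finset.range 3)
    (fun b hb => p14c_zero_pow p hp b (by simpa using hb))]
  rw [Finset.sum_range_succ, Finset.sum_range_succ, Finset.sum_range_one, pow_zero, p14c_f_one]
  have hp2 : (2 : ℝ) ≤ p := by exact_mod_cast hp.two_le
  have hp0 : (0 : ℝ) < p := by linarith
  have hsq : (p : ℝ) ^ (-(3 / 2) : ℝ) = (p : ℝ) ^ (-(3 / 4) : ℝ) * (p : ℝ) ^ (-(3 / 4) : ℝ) := by
    rw [← Real.rpow_add hp0]
    norm_num
  have h34 : 0 < (p : ℝ) ^ (-(3 / 4) : ℝ) := Real.rpow_pos_of_pos hp0 _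
  have e2 : 1 / (p : ℝ) ≤ (p : ℝ) ^ (-(3 / 4) : ℝ) := by
    rw [one_div, ← Real.rpow_neg_one]
    exact Real.rpow_le_rpow_of_exponent_le (by linarith) (by norm_num)
  have h1 : p14c_f (p ^ 1) ≤ 6 * (p : ℝ) ^ (-(3 / 2) : ℝ) := by
    unfold p14c_f
    rw [p14c_pow hp one_ne_zero, pow_one, hsq]
    have e3 : |p14c_loc p 1| ≤ 6 * (p : ℝ) ^ (-(3 / 4) : ℝ) := by
      refine le_trans ?_ (mul_le_mul_of_nonneg_left e2 (by norm_num : (0 : ℝ) ≤ 6))
      unfold p14c_loc
      by_cases h2 : p = 2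
      · subst h2
        norm_num
      · have h3 := p14c_three hp h2
        rw [if_neg h2, if_pos rfl, abs_of_pos (by apply div_pos two_pos; linarith),
          div_le_iff₀ (by linarith)]
        field_simp
        linarith
    calc |p14c_loc p 1| * (p : ℝ) ^ (-(3 / 4) : ℝ)
        ≤ (6 * (p : ℝ) ^ (-(3 / 4) : ℝ)) * (p : ℝ) ^ (-(3 / 4) : ℝ) :=
          mul_le_mul_of_nonneg_right e3 h34.le
      _ = _ := by ring
  have h2 : p14c_f (p ^ 2) ≤ 3 * (p : ℝ) ^ (-(3 / 2) : ℝ) := by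
    unfold p14c_f
    rw [p14c_pow hp two_ne_zero]
    have e0 : ((p ^ 2 : ℕ) : ℝ) ^ (-(3 / 4) : ℝ) = (p : ℝ) ^ (-(3 / 2) : ℝ) := by
      rw [Nat.cast_pow, ← Real.rpow_natCast, ← Real.rpow_mul hp0.le]
      norm_num
    rw [e0]
    apply mul_le_mul_of_nonneg_right _ (Real.rpow_nonneg hp0.le _)
    unfold p14c_loc
    by_cases h2 : p = 2
    · subst h2
      norm_num
    · have h3 := p14c_three hp h2
      rw [if_neg h2, if_neg (by norm_num), if_pos rfl, neg_div, abs_neg,
        abs_of_pos (by apply div_pos hp0; linarith), div_le_iff₀ (by linarith)]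
      linarith
  linarith

theorem p14c_sumP : Summable (fun n : ℕ => (n : ℝ) ^ (-(3 / 2) : ℝ)) :=
  Real.summable_nat_rpow.2 (by norm_num)

theorem p14c_bound (u : Finset ℕ) :
    ∑ d ∈ u, p14c_f d ≤ Real.exp (9 * ∑' n : ℕ, (n : ℝ) ^ (-(3 / 2) : ℝ)) := by
  classical
  set N := u.sup id + 1 with hN
  set s := Finset.range N with hs
  obtain ⟨hsum, hhas⟩ := EulerProduct.summable_and_hasSum_factoredNumbers_prod_filter_prime_tsum
    p14c_f_one (fun h => p14c_f_mul h) (fun hp => p14c_summ _ hp) s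
  have hmem : ∀ d ∈ u.filter (· ≠ 0), d ∈ Nat.factoredNumbers s := by
    intro d hd
    rw [Finset.mem_filter] at hd
    rw [Nat.mem_factoredNumbers]
    refine ⟨hd.2, fun p hp => ?_⟩
    rw [hs, Finset.mem_range, hN]
    have h1 : p ≤ d := Nat.le_of_dvd (Nat.pos_of_ne_zero hd.2) (Nat.dvd_of_mem_primeFactorsList hp)
    have h2 : d ≤ u.sup id := Finset.le_sup (f := id) hd.1
    omega
  have h0 : ∑ d ∈ u, p14c_f d = ∑ d ∈ u.filter (· ≠ 0), p14c_f d := by
    rw [Finset.sum_filter]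
    refine Finset.sum_congr rfl fun d _ => ?_
    by_cases hd : d = 0
    · subst hd
      simp [p14c_f, Real.zero_rpow]
    · rw [if_pos hd]
  have h1 : ∑ d ∈ u.filter (· ≠ 0), p14c_f d =
      ∑ m ∈ (u.filter (· ≠ 0)).subtype (fun d => d ∈ Nat.factoredNumbers s), p14c_f m := by
    rw [Finset.sum_subtype_of_mem p14c_f hmem]
  have h2 : ∑ m ∈ (u.filter (· ≠ 0)).subtype (fun d => d ∈ Nat.factoredNumbers s), p14c_f m ≤
      ∏ p ∈ s with p.Prime, ∑' n : ℕ, p14c_f (p ^ n) :=
    sum_le_hasSum _ (fun m _ => p14c_nonneg _) hhas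
  have h3 : ∏ p ∈ s with p.Prime, ∑' n : ℕ, p14c_f (p ^ n) ≤
      ∏ p ∈ s with p.Prime, Real.exp (9 * (p : ℝ) ^ (-(3 / 2) : ℝ)) := by
    apply Finset.prod_le_prod
    · intro p _
      exact tsum_nonneg fun n => p14c_nonneg _
    · intro p hp
      rw [Finset.mem_filter] at hp
      refine (p14c_local p hp.2).trans ?_
      have := Real.add_one_le_exp (9 * (p : ℝ) ^ (-(3 / 2) : ℝ))
      linarith
  rw [h0, h1]
  refine h2.trans (h3.trans ?_)
  rw [← Real.exp_sum]
  apply Real.exp_le_exp.2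
  rw [← Finset.mul_sum]
  apply mul_le_mul_of_nonneg_left _ (by norm_num)
  exact p14c_sumP.sum_le_tsum _ (fun n _ => Real.rpow_nonneg (Nat.cast_nonneg _) _)

theorem p14c_summable : Summable (fun d : ℕ => |bb d| * (1 + Real.log d) / d) := by
  have hS : Summable p14c_f := summable_of_sum_le p14c_nonneg p14c_bound
  refine Summable.of_nonneg_of_le (fun d => ?_) (fun d => ?_) (hS.mul_left 5)
  · rcases Nat.eq_zero_or_pos d with hd | hd
    · subst hd; simp
    · have : 0 ≤ Real.log d := Real.log_natCast_nonneg d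
      positivity
  · rcases Nat.eq_zero_or_pos d with hd | hd
    · subst hd
      simp [p14c_f, Real.zero_rpow]
    · have hd1 : (1 : ℝ) ≤ d := by exact_mod_cast hd
      have hd0 : (0 : ℝ) < d := by linarith
      have hlog : Real.log d ≤ (d : ℝ) ^ (1 / 4 : ℝ) / (1 / 4) :=
        Real.log_le_rpow_div hd0.le (by norm_num)
      have hone : (1 : ℝ) ≤ (d : ℝ) ^ (1 / 4 : ℝ) := Real.one_le_rpow hd1 (by norm_num)
      have hle : (1 + Real.log d) / d ≤ 5 * (d : ℝ) ^ (-(3 / 4) : ℝ) := by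
        rw [div_le_iff₀ hd0]
        have e : (d : ℝ) ^ (-(3 / 4) : ℝ) * d = (d : ℝ) ^ (1 / 4 : ℝ) := by
          nth_rewrite 2 [← Real.rpow_one (d : ℝ)]
          rw [← Real.rpow_add hd0]
          norm_num
        rw [mul_assoc, e]
        linarith
      calc |bb d| * (1 + Real.log d) / d = |bb d| * ((1 + Real.log d) / d) := by ring
        _ ≤ |bb d| * (5 * (d : ℝ) ^ (-(3 / 4) : ℝ)) :=
          mul_le_mul_of_nonneg_left hle (abs_nonneg _)
        _ = 5 * p14c_f d := by unfold p14c_f; ring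

theorem p14c_norm_summ : Summable (fun d : ℕ => ‖bb d / (d : ℝ)‖) := by
  refine Summable.of_nonneg_of_le (fun _ => norm_nonneg _) (fun d => ?_) p14c_summable
  rw [Real.norm_eq_abs, abs_div, Nat.abs_cast]
  rcases Nat.eq_zero_or_pos d with hd | hd
  · subst hd; simp
  · have h1 : 0 ≤ Real.log d := Real.log_natCast_nonneg d
    have h2 : (0 : ℝ) < d := by exact_mod_cast hd
    apply div_le_div_of_nonneg_right _ h2.le
    nlinarith [abs_nonneg (bb d)]

theorem p14c_norm_summ2 : Summable (fun d : ℕ => ‖bb d / (d : ℝ) ^ 2‖) := by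
  refine Summable.of_nonneg_of_le (fun _ => norm_nonneg _) (fun d => ?_) p14c_norm_summ
  rw [Real.norm_eq_abs, Real.norm_eq_abs, abs_div, abs_div, Nat.abs_cast,
    abs_of_nonneg (by positivity : (0 : ℝ) ≤ (d : ℝ) ^ 2)]
  rcases Nat.eq_zero_or_pos d with hd | hd
  · subst hd; simp
  · have h2 : (1 : ℝ) ≤ d := by exact_mod_cast hd
    apply div_le_div_of_nonneg_left (abs_nonneg _) (by linarith)
    nlinarith

/-! ## Euler products -/

theorem p14c_locsum {p : ℕ} (hp : p.Prime) (g : ℕ → ℝ) :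
    ∑' e : ℕ, bb (p ^ e) * g e = g 0 + p14c_loc p 1 * g 1 + p14c_loc p 2 * g 2 := by
  rw [tsum_eq_sum (s := range 3)]
  · rw [sum_range_succ, sum_range_succ, sum_range_succ, sum_range_zero]
    rw [p14c_pow hp one_ne_zero, p14c_pow hp two_ne_zero, pow_zero, p14c_one]
    ring
  · intro e he
    rw [mem_range, not_lt] at he
    rw [p14c_pow3 hp he, zero_mul]

theorem p14c_ep1 : HasProd (fun p : Nat.Primes => if (p : ℕ) = 2 then (1 / 2 : ℝ) else
    (((p : ℕ) : ℝ) - 1) ^ 2 / (((p : ℕ) : ℝ) * (((p : ℕ) : ℝ) - 2))) (∑' d : ℕ, bb d / d) := by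
  have h := EulerProduct.eulerProduct_hasProd (f := fun d : ℕ => bb d / (d : ℝ))
    (by simp [p14c_one]) (by
      intro m n hmn
      show bb (m * n) / ((m * n : ℕ) : ℝ) = bb m / (m : ℝ) * (bb n / (n : ℝ))
      rw [p14c_mul hmn]
      push_cast
      rw [mul_div_mul_comm]) p14c_norm_summ (by simp)
  refine h.congr_fun ?_
  intro p
  have h1 : ∀ e : ℕ, bb ((p : ℕ) ^ e) / (((p : ℕ) ^ e : ℕ) : ℝ) = bb ((p : ℕ) ^ e) *
      (((p : ℕ) : ℝ) ^ e)⁻¹ := by
    intro e
    rw [Nat.cast_pow, div_eq_mul_inv]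
  show (if (p : ℕ) = 2 then (1 / 2 : ℝ) else
    (((p : ℕ) : ℝ) - 1) ^ 2 / (((p : ℕ) : ℝ) * (((p : ℕ) : ℝ) - 2))) =
      ∑' e : ℕ, bb ((p : ℕ) ^ e) / (((p : ℕ) ^ e : ℕ) : ℝ)
  rw [tsum_congr h1, p14c_locsum p.2]
  by_cases h2 : (p : ℕ) = 2
  · rw [if_pos h2, p14c_loc, p14c_loc, if_pos h2, if_pos h2, if_pos rfl, if_neg (by norm_num), h2]
    norm_num
  · have h3 := p14c_three p.2 h2
    have h4 : ((p : ℕ) : ℝ) - 2 ≠ 0 := by linarith
    have h5 : ((p : ℕ) : ℝ) ≠ 0 := by linarith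
    rw [if_neg h2, p14c_loc, p14c_loc, if_neg h2, if_neg h2, if_pos rfl, if_neg (by norm_num),
      if_pos rfl]
    field_simp
    ring

theorem p14c_ep2 : HasProd (fun p : Nat.Primes => if (p : ℕ) = 2 then (3 / 4 : ℝ) else
    ((((p : ℕ) : ℝ) ^ 2 - 1) * (((p : ℕ) : ℝ) - 1) ^ 2) /
      (((p : ℕ) : ℝ) ^ 3 * (((p : ℕ) : ℝ) - 2))) (∑' d : ℕ, bb d / (d : ℝ) ^ 2) := by
  have h := EulerProduct.eulerProduct_hasProd (f := fun d : ℕ => bb d / (d : ℝ) ^ 2)
    (by simp [p14c_one]) (by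
      intro m n hmn
      show bb (m * n) / ((m * n : ℕ) : ℝ) ^ 2 = bb m / (m : ℝ) ^ 2 * (bb n / (n : ℝ) ^ 2)
      rw [p14c_mul hmn]
      push_cast
      rw [mul_pow, mul_div_mul_comm]) p14c_norm_summ2 (by simp)
  refine h.congr_fun ?_
  intro p
  have h1 : ∀ e : ℕ, bb ((p : ℕ) ^ e) / (((p : ℕ) ^ e : ℕ) : ℝ) ^ 2 = bb ((p : ℕ) ^ e) *
      ((((p : ℕ) : ℝ) ^ e) ^ 2)⁻¹ := by
    intro e
    rw [Nat.cast_pow, div_eq_mul_inv]
  show (if (p : ℕ) = 2 then (3 / 4 : ℝ) else
    ((((p : ℕ) : ℝ) ^ 2 - 1) * (((p : ℕ) : ℝ) - 1) ^ 2) /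
      (((p : ℕ) : ℝ) ^ 3 * (((p : ℕ) : ℝ) - 2))) =
      ∑' e : ℕ, bb ((p : ℕ) ^ e) / (((p : ℕ) ^ e : ℕ) : ℝ) ^ 2
  rw [tsum_congr h1, p14c_locsum p.2]
  by_cases h2 : (p : ℕ) = 2
  · rw [if_pos h2, p14c_loc, p14c_loc, if_pos h2, if_pos h2, if_pos rfl, if_neg (by norm_num), h2]
    norm_num
  · have h3 := p14c_three p.2 h2
    have h4 : ((p : ℕ) : ℝ) - 2 ≠ 0 := by linarith
    have h5 : ((p : ℕ) : ℝ) ≠ 0 := by linarith
    rw [if_neg h2, p14c_loc, p14c_loc, if_neg h2, if_neg h2, if_pos rfl, if_neg (by norm_num),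
      if_pos rfl]
    field_simp
    ring

theorem p14c_zeta : HasProd (fun p : Nat.Primes => (1 - (((p : ℕ) : ℝ) ^ 2)⁻¹)⁻¹)
    (Real.pi ^ 2 / 6) := by
  have hs : Summable (fun n : ℕ => ‖((n : ℝ) ^ 2)⁻¹‖) := by
    have := (Real.summable_nat_pow_inv (p := 2)).2 (by norm_num)
    refine this.congr fun n => ?_
    rw [Real.norm_eq_abs, abs_of_nonneg (by positivity)]
  let F : ℕ →*₀ ℝ :=
    { toFun := fun n => ((n : ℝ) ^ 2)⁻¹
      map_zero' := by simp
      map_one' := by simp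
      map_mul' := fun m n => by push_cast; rw [mul_pow, mul_inv] }
  have h := EulerProduct.eulerProduct_completely_multiplicative_hasProd (f := F) hs
  have h2 : ∑' n : ℕ, F n = Real.pi ^ 2 / 6 := by
    have := hasSum_zeta_two.tsum_eq
    rw [← this]
    refine tsum_congr fun n => ?_
    show ((n : ℝ) ^ 2)⁻¹ = 1 / (n : ℝ) ^ 2
    rw [one_div]
  rw [h2] at h
  exact h

/-! ## The log -/

lemma p14c_zero (p : ℕ) (hp : p.Prime) (d : ℕ) (hd : d ≠ 0) (h : 3 ≤ d.factorization p) :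
    bb d = 0 := by
  rw [p14c_bb]
  apply Finset.prod_eq_zero (i := p)
  · rw [Nat.mem_primeFactors]
    refine ⟨hp, ?_, hd⟩
    by_contra hn
    have := Nat.factorization_eq_zero_of_not_dvd hn
    omega
  · rw [p14c_loc]
    split_ifs <;> first | rfl | omega

lemma p14c_S : Summable (fun d : ℕ => bb d / (d : ℝ)) := p14c_norm_summ.of_norm

/-- the part with exact power `k` -/
noncomputable def p14c_g (p k d : ℕ) : ℝ := if d.factorization p = k then bb d / d else 0

lemma p14c_g_summ (p k : ℕ) : Summable (p14c_g p k) := by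
  apply Summable.of_norm_bounded p14c_norm_summ
  intro d
  unfold p14c_g
  split_ifs
  · exact le_refl _
  · rw [norm_zero]; exact norm_nonneg _

lemma p14c_g_tsum (p k : ℕ) (hp : p.Prime) (_hk : 1 ≤ k) :
    ∑' d, p14c_g p k d = bb (p ^ k) / (p ^ k : ℕ) * ∑' d : ℕ, (if p ∣ d then 0 else bb d / d) := by
  have hinj : Function.Injective (fun d : ℕ => p ^ k * d) := by
    intro a b h
    exact Nat.eq_of_mul_eq_mul_left (pow_pos hp.pos k) h
  have hsupp : Function.support (p14c_g p k) ⊆ Set.range (fun d : ℕ => p ^ k * d) := by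
    intro d hd
    rw [Function.mem_support] at hd
    unfold p14c_g at hd
    have h1 : d.factorization p = k := by
      by_contra h; rw [if_neg h] at hd; exact hd rfl
    have h2 : p ^ k ∣ d := by
      rw [← h1]; exact Nat.ordProj_dvd d p
    obtain ⟨c, hc⟩ := h2
    exact ⟨c, hc.symm⟩
  rw [← hinj.tsum_eq hsupp]
  have h1 : ∀ d : ℕ, p14c_g p k (p ^ k * d) =
      (bb (p ^ k) / (p ^ k : ℕ)) * (if p ∣ d then 0 else bb d / d) := by
    intro d
    unfold p14c_g
    rcases Nat.eq_zero_or_pos d with h0 | h0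
    · subst h0; simp
    · have hf : (p ^ k * d).factorization p = k + d.factorization p := by
        rw [Nat.factorization_mul (pow_ne_zero k hp.ne_zero) (by omega), Finsupp.add_apply,
          hp.factorization_pow]
        simp
      rw [hf]
      by_cases hd : p ∣ d
      · rw [if_pos hd, mul_zero, if_neg]
        have : 1 ≤ d.factorization p := hp.factorization_pos_of_dvd (by omega) hd
        omega
      · rw [if_neg hd, if_pos (by rw [Nat.factorization_eq_zero_of_not_dvd hd, add_zero])]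
        have hcop : Nat.Coprime (p ^ k) d := Nat.Coprime.pow_left k ((hp.coprime_iff_not_dvd).mpr hd)
        rw [p14c_mul hcop]
        push_cast
        rw [mul_div_mul_comm]
  rw [tsum_congr h1, tsum_mul_left]

lemma p14c_val (p d : ℕ) (hp : p.Prime) :
    (d.factorization p : ℝ) * (bb d / d) = p14c_g p 1 d + 2 * p14c_g p 2 d := by
  unfold p14c_g
  rcases Nat.eq_zero_or_pos d with h0 | h0
  · subst h0; simp
  · by_cases h3 : 3 ≤ d.factorization p
    · rw [p14c_zero p hp d (by omega) h3]; simp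
    · have : d.factorization p = 0 ∨ d.factorization p = 1 ∨ d.factorization p = 2 := by omega
      rcases this with h | h | h <;> rw [h] <;> simp

lemma p14c_col (p : ℕ) (hp : p.Prime) :
    ∑' d : ℕ, (d.factorization p : ℝ) * (bb d / d) =
      if p = 2 then -(∑' d : ℕ, bb d / d) else 0 := by
  rw [tsum_congr (fun d => p14c_val p d hp),
    ((p14c_g_summ p 1)).tsum_add ((p14c_g_summ p 2).mul_left 2), tsum_mul_left,
    p14c_g_tsum p 1 hp le_rfl, p14c_g_tsum p 2 hp (by norm_num), p14c_pow hp one_ne_zero,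
    p14c_pow hp two_ne_zero]
  by_cases h2 : p = 2
  · subst h2
    rw [if_pos rfl]
    have e1 : ∀ d : ℕ, bb d / (d : ℝ) = (if 2 ∣ d then 0 else bb d / d) + p14c_g 2 1 d := by
      intro d
      rcases Nat.eq_zero_or_pos d with h0 | h0
      · subst h0; simp [p14c_g]
      · unfold p14c_g
        by_cases hd : 2 ∣ d
        · rw [if_pos hd, zero_add]
          have h1 : 1 ≤ d.factorization 2 := Nat.prime_two.factorization_pos_of_dvd (by omega) hd
          by_cases h3 : d.factorization 2 = 1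
          · rw [if_pos h3]
          · rw [if_neg h3]
            have : bb d = 0 := by
              rw [p14c_bb]
              apply Finset.prod_eq_zero (i := 2)
              · rw [Nat.mem_primeFactors]
                exact ⟨Nat.prime_two, hd, by omega⟩
              · rw [p14c_loc, if_pos rfl, if_neg h3]
            rw [this, zero_div]
        · rw [if_neg hd, if_neg (by rw [Nat.factorization_eq_zero_of_not_dvd hd]; norm_num),
            add_zero]
    have hsum : Summable (fun d : ℕ => (if 2 ∣ d then (0 : ℝ) else bb d / d)) := by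
      apply Summable.of_norm_bounded p14c_norm_summ
      intro d
      split_ifs
      · rw [norm_zero]; exact norm_nonneg _
      · exact le_refl _
    have e2 : ∑' d : ℕ, bb d / (d : ℝ) = ∑' d : ℕ, (if 2 ∣ d then (0 : ℝ) else bb d / d) +
        p14c_loc 2 1 / ((2 ^ 1 : ℕ) : ℝ) * ∑' d : ℕ, (if 2 ∣ d then 0 else bb d / d) := by
      rw [← p14c_pow Nat.prime_two one_ne_zero, ← p14c_g_tsum 2 1 Nat.prime_two le_rfl,
        ← hsum.tsum_add (p14c_g_summ 2 1)]
      exact tsum_congr e1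
    rw [e2]
    have l1 : p14c_loc 2 1 = -1 := by simp [p14c_loc]
    have l2 : p14c_loc 2 2 = 0 := by simp [p14c_loc]
    rw [l1, l2]
    push_cast
    ring
  · have h3 := p14c_three hp h2
    have h4 : (p : ℝ) - 2 ≠ 0 := by linarith
    have h5 : (p : ℝ) ≠ 0 := by linarith
    rw [if_neg h2, p14c_loc, p14c_loc, if_neg h2, if_neg h2, if_pos rfl, if_neg (by norm_num),
      if_pos rfl, ← mul_assoc, ← add_mul]
    have : 2 / ((p : ℝ) - 2) / ((p ^ 1 : ℕ) : ℝ) + 2 * (-(p : ℝ) / ((p : ℝ) - 2) / ((p ^ 2 : ℕ) : ℝ))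
        = 0 := by
      push_cast
      field_simp
      ring
    rw [this, zero_mul]

/-- the double function -/
noncomputable def p14c_F (d : ℕ) (p : Nat.Primes) : ℝ :=
  (d.factorization (p : ℕ) : ℝ) * Real.log (p : ℕ) * (bb d / d)

lemma p14c_row (d : ℕ) : HasSum (fun p : Nat.Primes => (d.factorization (p : ℕ) : ℝ) *
    Real.log (p : ℕ)) (Real.log d) := by
  have h1 : HasSum (fun n : ℕ => (d.factorization n : ℝ) * Real.log n) (Real.log d) := by
    rw [Real.log_nat_eq_sum_factorization, Finsupp.sum]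
    apply hasSum_sum_of_ne_finset_zero
    intro n hn
    rw [Finsupp.notMem_support_iff] at hn
    rw [hn]; simp
  have h2 : Function.support (fun n : ℕ => (d.factorization n : ℝ) * Real.log n) ⊆
      Set.range (fun p : Nat.Primes => (p : ℕ)) := by
    intro n hn
    rw [Function.mem_support] at hn
    by_contra hc
    apply hn
    have : ¬ n.Prime := by
      intro hp; exact hc ⟨⟨n, hp⟩, rfl⟩
    rw [Nat.factorization_eq_zero_of_not_prime d this]; simp
  exact ((Function.Injective.hasSum_iff (Subtype.val_injective) (fun x hx => by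
    by_contra hne
    exact hx (h2 hne))).mpr h1)

lemma p14c_F_summ : Summable (Function.uncurry p14c_F) := by
  rw [← summable_abs_iff]
  rw [summable_prod_of_nonneg (fun _ => abs_nonneg _)]
  have hrow : ∀ d : ℕ, HasSum (fun p : Nat.Primes => |Function.uncurry p14c_F (d, p)|)
      (Real.log d * |bb d / d|) := by
    intro d
    have h := (p14c_row d).mul_right (|bb d / d|)
    have he : (fun p : Nat.Primes => |Function.uncurry p14c_F (d, p)|) =
        fun p : Nat.Primes => (d.factorization (p : ℕ) : ℝ) * Real.log (p : ℕ) * |bb d / d| := by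
      funext p
      simp only [Function.uncurry, p14c_F]
      rw [abs_mul, abs_of_nonneg (mul_nonneg (Nat.cast_nonneg _) (Real.log_natCast_nonneg _))]
    rw [he]
    exact h
  constructor
  · intro d
    exact (hrow d).summable
  · apply Summable.of_nonneg_of_le (g := fun d : ℕ => ∑' p, |Function.uncurry p14c_F (d, p)|)
      (f := fun d : ℕ => |bb d| * (1 + Real.log d) / d) _ _ p14c_summable
    · intro d
      exact tsum_nonneg (fun _ => abs_nonneg _)
    · intro d
      rw [(hrow d).tsum_eq, abs_div, Nat.abs_cast]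
      rw [← mul_div_assoc]
      apply div_le_div_of_nonneg_right _ (Nat.cast_nonneg _)
      have : 0 ≤ Real.log d := Real.log_natCast_nonneg d
      nlinarith [abs_nonneg (bb d)]

theorem p14c_single (x : ℝ) : HasSum (fun p : Nat.Primes => if (p : ℕ) = 2 then x else 0) x := by
  have := hasSum_single (f := fun p : Nat.Primes => if (p : ℕ) = 2 then x else 0)
    (⟨2, Nat.prime_two⟩ : Nat.Primes) (by
      intro p hp
      rw [if_neg]
      intro h
      exact hp (Subtype.ext h))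
  rwa [if_pos rfl] at this

theorem p14c_log : ∑' d : ℕ, bb d * Real.log d / d = - Real.log 2 * ∑' d : ℕ, bb d / d := by
  have hcol : ∀ p : Nat.Primes, ∑' d : ℕ, p14c_F d p =
      if (p : ℕ) = 2 then - Real.log 2 * ∑' d : ℕ, bb d / d else 0 := by
    intro p
    have h1 : ∀ d : ℕ, p14c_F d p = Real.log (p : ℕ) *
        ((d.factorization (p : ℕ) : ℝ) * (bb d / d)) := by
      intro d; unfold p14c_F; ring
    rw [tsum_congr h1, tsum_mul_left, p14c_col p p.2]
    by_cases h2 : (p : ℕ) = 2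
    · rw [if_pos h2, if_pos h2, h2]
      push_cast
      ring
    · rw [if_neg h2, if_neg h2, mul_zero]
  have hS := p14c_F_summ
  have hrow : ∀ d : ℕ, bb d * Real.log d / d = ∑' p : Nat.Primes, p14c_F d p := by
    intro d
    have h := ((p14c_row d).mul_right (bb d / d)).tsum_eq
    have h2 : ∑' p : Nat.Primes, p14c_F d p = Real.log d * (bb d / d) := h
    rw [h2]; ring
  rw [tsum_congr hrow, ← hS.tsum_comm, tsum_congr hcol]
  exact (p14c_single _).tsum_eq

theorem p14c_tp : HasProd (fun p : Nat.Primes => if (p : ℕ) = 2 then 2 else 1 : Nat.Primes → ℝ) 2 := by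
  have := hasProd_single (f := fun p : Nat.Primes => if (p : ℕ) = 2 then (2 : ℝ) else 1)
    (⟨2, Nat.prime_two⟩ : Nat.Primes) (by
      intro p hp
      rw [if_neg]
      intro h
      exact hp (Subtype.ext h))
  rwa [if_pos rfl] at this

/-- block P14c -/
theorem W14c_pr : W14c := by
  refine ⟨p14c_summable, fun C2 hC => ⟨?_, ?_, p14c_log⟩⟩
  · have h := (p14c_tp.mul hC).mul p14c_ep1
    refine h.unique ?_
    have h1 : (fun p : Nat.Primes => ((if (p : ℕ) = 2 then (2 : ℝ) else 1) *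
        (if (p : ℕ) = 2 then 1 else (1 - 1 / (((p : ℕ) : ℝ) - 1) ^ 2))) *
        (if (p : ℕ) = 2 then (1 / 2 : ℝ) else
          (((p : ℕ) : ℝ) - 1) ^ 2 / (((p : ℕ) : ℝ) * (((p : ℕ) : ℝ) - 2)))) = fun _ => 1 := by
      funext p
      by_cases h2 : (p : ℕ) = 2
      · simp only [if_pos h2]
        norm_num
      · have h3 := p14c_three p.2 h2
        have h4 : ((p : ℕ) : ℝ) - 2 ≠ 0 := by linarith
        have h5 : ((p : ℕ) : ℝ) ≠ 0 := by linarith
        have h6 : ((p : ℕ) : ℝ) - 1 ≠ 0 := by linarith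
        simp only [if_neg h2]
        field_simp
        ring
    rw [h1]
    exact hasProd_one
  · have h := (hC.mul p14c_ep2).mul p14c_zeta
    have h1 : (fun p : Nat.Primes => ((if (p : ℕ) = 2 then 1 else
        (1 - 1 / (((p : ℕ) : ℝ) - 1) ^ 2)) * (if (p : ℕ) = 2 then (3 / 4 : ℝ) else
        ((((p : ℕ) : ℝ) ^ 2 - 1) * (((p : ℕ) : ℝ) - 1) ^ 2) /
          (((p : ℕ) : ℝ) ^ 3 * (((p : ℕ) : ℝ) - 2)))) * (1 - (((p : ℕ) : ℝ) ^ 2)⁻¹)⁻¹) =
        fun _ => 1 := by
      funext p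
      by_cases h2 : (p : ℕ) = 2
      · simp only [if_pos h2]
        rw [h2]
        norm_num
      · have h3 := p14c_three p.2 h2
        have h4 : ((p : ℕ) : ℝ) - 2 ≠ 0 := by linarith
        have h5 : ((p : ℕ) : ℝ) ≠ 0 := by linarith
        have h6 : ((p : ℕ) : ℝ) - 1 ≠ 0 := by linarith
        have h7 : ((p : ℕ) : ℝ) ^ 2 - 1 ≠ 0 := by nlinarith
        have h8 : (1 - (((p : ℕ) : ℝ) ^ 2)⁻¹)⁻¹ = ((p : ℕ) : ℝ) ^ 2 / (((p : ℕ) : ℝ) ^ 2 - 1) := by
          rw [inv_eq_one_div, div_eq_div_iff _ h7]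
          · field_simp
          · intro h0
            apply h7
            have : (1 - (((p : ℕ) : ℝ) ^ 2)⁻¹) * ((p : ℕ) : ℝ) ^ 2 = 0 := by rw [h0, zero_mul]
            rw [sub_mul, inv_mul_cancel₀ (pow_ne_zero 2 h5)] at this
            linarith
        simp only [if_neg h2]
        rw [h8]
        field_simp
        ring
    have h2 := h.unique (h1 ▸ hasProd_one)
    have hpi : Real.pi ≠ 0 := Real.pi_ne_zero
    field_simp at h2 ⊢
    linarith

end Pool.Agent.FGP
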