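import Pool.Agent.Lib_helper3.FGP.WantedE
import Pool.Agent.Lib_helper3.FGP.P14c

/-! Block E14c of FGP (helper18). -/

set_option autoImplicit false

namespace Pool.Agent.FGP

open Finset Pool.Agent.Var35 Pool.Agent.Var73 Pool.Agent.PV
open scoped ArithmeticFunction ArithmeticFunction.Moebius

theorem E14c_pr : E14c := by
  have hS : Summable p14c_f := summable_of_sum_le p14c_nonneg p14c_bound
  refine hS.congr fun d => ?_
  unfold p14c_f
  rw [Real.rpow_neg (Nat.cast_nonneg _)]
  exact (div_eq_mul_inv _ _).symm

end Pool.Agent.FGP
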