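import Pool.Agent.Lib_helper3.FGP.Wanted

set_option autoImplicit false

namespace Pool.Agent.FGP

open Finset Pool.Agent.Var35 Pool.Agent.Var73 Pool.Agent.PV
open scoped ArithmeticFunction ArithmeticFunction.Moebius
open Filter Topology


/-- `{y} (1 - {y})` -/
noncomputable def p14d_th (y : ℝ) : ℝ := (y - ⌊y⌋₊) * (1 - (y - ⌊y⌋₊))

noncomputable def p14d_S1 (y : ℝ) : ℝ := ∑ j ∈ Ioc 0 ⌊y⌋₊, 1 / (j : ℝ)

noncomputable def p14d_S2 (y : ℝ) : ℝ := ∑ j ∈ Ioc 0 ⌊y⌋₊, 1 / (j : ℝ) ^ 2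

noncomputable def p14d_F (x : ℝ) : ℝ := ∑ j ∈ Ioc 0 ⌊x⌋₊, p14d_th (x / j)

theorem p14d_Icc (n : ℕ) : Icc 1 n = Ioc 0 n := by
  ext j; simp [Nat.one_le_iff_ne_zero, Nat.pos_iff_ne_zero]

theorem p14d_ph (y : ℝ) : Ph1 y = y ^ 2 / 2 - y / 2 + p14d_th y / 2 := by
  unfold Ph1 p14d_th
  have h : ∀ n : ℕ, ∑ i ∈ Icc 1 n, (y - i) = n * y - n * (n + 1) / 2 := by
    intro n
    induction n with
    | zero => simp
    | succ n ih =>
      rw [sum_Icc_succ_top (by omega), ih]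
      push_cast
      ring
  rw [h]
  ring

theorem p14d_th_bd (y : ℝ) (hy : 0 ≤ y) : 0 ≤ p14d_th y ∧ p14d_th y ≤ 1 / 4 := by
  unfold p14d_th
  have h1 := Nat.floor_le hy
  have h2 := Nat.lt_floor_add_one y
  constructor
  · apply mul_nonneg <;> linarith
  · nlinarith [sq_nonneg (y - ⌊y⌋₊ - 1 / 2)]

theorem p14d_ps (x : ℝ) : Ps1 x =
    x ^ 2 / 2 * p14d_S2 x - x / 2 * p14d_S1 x + p14d_F x / 2 := by
  unfold Ps1 p14d_S1 p14d_S2 p14d_F
  rw [p14d_Icc, mul_sum, mul_sum, sum_div, ← sum_sub_distrib, ← sum_add_distrib]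
  refine sum_congr rfl fun j hj => ?_
  rw [mem_Ioc] at hj
  have h1 : (j : ℝ) ≠ 0 := by
    have : 0 < j := hj.1
    positivity
  rw [p14d_ph]
  field_simp

/-- partial summation over the blocks -/
theorem p14d_split (g : ℕ → ℝ) (x : ℝ) (hx : 0 ≤ x) (M : ℕ) :
    ∑ j ∈ Ioc 0 ⌊x⌋₊, g j = ∑ j ∈ Ioc 0 ⌊x / ((M : ℝ) + 1)⌋₊, g j +
      ∑ k ∈ range M, ∑ j ∈ Ioc ⌊x / ((k : ℝ) + 2)⌋₊ ⌊x / ((k : ℝ) + 1)⌋₊, g j := by
  induction M with
  | zero => simp
  | succ M ih =>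
    rw [ih, sum_range_succ]
    have h1 : ⌊x / ((M : ℝ) + 2)⌋₊ ≤ ⌊x / ((M : ℝ) + 1)⌋₊ := by
      apply Nat.floor_le_floor
      gcongr
      norm_num
    have h2 := sum_Ioc_consecutive g (Nat.zero_le _) h1
    have h3 : ((M + 1 : ℕ) : ℝ) + 1 = (M : ℝ) + 2 := by push_cast; ring
    rw [h3, ← h2]
    ring

theorem p14d_block (x : ℝ) (hx : 0 < x) (n : ℝ) (hn : 0 < n) (m : ℕ) (hm : (m : ℝ) = n) :
    ∑ j ∈ Ioc ⌊x / (n + 1)⌋₊ ⌊x / n⌋₊, p14d_th (x / j) =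
      - (x ^ 2 * (p14d_S2 (x / n) - p14d_S2 (x / (n + 1)))) +
      (2 * n + 1) * (x * (p14d_S1 (x / n) - p14d_S1 (x / (n + 1)))) -
      n * (n + 1) * ((⌊x / n⌋₊ : ℝ) - ⌊x / (n + 1)⌋₊) := by
  have h1 : ⌊x / (n + 1)⌋₊ ≤ ⌊x / n⌋₊ := by
    apply Nat.floor_le_floor
    gcongr
    linarith
  have e1 : p14d_S1 (x / n) - p14d_S1 (x / (n + 1)) =
      ∑ j ∈ Ioc ⌊x / (n + 1)⌋₊ ⌊x / n⌋₊, 1 / (j : ℝ) := by
    unfold p14d_S1
    rw [← sum_Ioc_consecutive (fun j : ℕ => 1 / (j : ℝ)) (Nat.zero_le _) h1]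
    ring
  have e2 : p14d_S2 (x / n) - p14d_S2 (x / (n + 1)) =
      ∑ j ∈ Ioc ⌊x / (n + 1)⌋₊ ⌊x / n⌋₊, 1 / (j : ℝ) ^ 2 := by
    unfold p14d_S2
    rw [← sum_Ioc_consecutive (fun j : ℕ => 1 / (j : ℝ) ^ 2) (Nat.zero_le _) h1]
    ring
  have e3 : ((⌊x / n⌋₊ : ℝ) - ⌊x / (n + 1)⌋₊) = ∑ j ∈ Ioc ⌊x / (n + 1)⌋₊ ⌊x / n⌋₊, (1 : ℝ) := by
    rw [sum_const, Nat.card_Ioc, nsmul_eq_mul, mul_one, Nat.cast_sub h1]
  rw [e1, e2, e3, mul_sum, mul_sum, mul_sum, mul_sum, ← sum_neg_distrib, ← sum_add_distrib,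
    ← sum_sub_distrib]
  refine sum_congr rfl fun j hj => ?_
  rw [mem_Ioc] at hj
  have hj1 : x / (n + 1) < j := by
    have h2 := hj.1
    rw [Nat.floor_lt (by positivity)] at h2
    exact h2
  have hj2 : (j : ℝ) ≤ x / n := by
    have h2 := hj.2
    rw [Nat.le_floor_iff (by positivity)] at h2
    exact h2
  have hj0 : (0 : ℝ) < j := lt_of_le_of_lt (by positivity) hj1
  have hf : ⌊x / (j : ℝ)⌋₊ = m := by
    rw [Nat.floor_eq_iff (by positivity), hm]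
    constructor
    · rw [le_div_iff₀ hj0]
      rw [le_div_iff₀ hn] at hj2
      linarith
    · rw [div_lt_iff₀ hj0]
      rw [div_lt_iff₀ (by linarith)] at hj1
      linarith
  unfold p14d_th
  rw [hf, hm]
  field_simp
  ring

/-! limits -/

theorem p14d_range (f : ℕ → ℝ) (m : ℕ) : ∑ k ∈ range m, f (k + 1) = ∑ j ∈ Ioc 0 m, f j := by
  induction m with
  | zero => simp
  | succ m ih =>
    rw [sum_range_succ, ih, ← sum_Ioc_consecutive _ (Nat.zero_le m) (Nat.le_succ m),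
      Nat.Ioc_succ_singleton, sum_singleton]

theorem p14d_lim0 : Tendsto (fun y : ℝ => (⌊y⌋₊ : ℝ) / y) atTop (𝓝 1) :=
  tendsto_nat_floor_div_atTop

theorem p14d_harm (n : ℕ) : ∑ j ∈ Ioc 0 n, 1 / (j : ℝ) = (harmonic n : ℝ) := by
  rw [harmonic_eq_sum_Icc, ← p14d_Icc]
  push_cast
  simp [one_div]

theorem p14d_lim1 : Tendsto (fun y : ℝ => p14d_S1 y - Real.log y) atTop
    (𝓝 Real.eulerMascheroniConstant) := by
  have h1 := Real.tendsto_harmonic_sub_log.comp (tendsto_nat_floor_atTop (α := ℝ))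
  have h2 : Tendsto (fun y : ℝ => Real.log ((⌊y⌋₊ : ℝ) / y)) atTop (𝓝 0) := by
    have := (Real.continuousAt_log one_ne_zero).tendsto.comp p14d_lim0
    rw [Real.log_one] at this
    exact this
  have h3 := h1.add h2
  rw [add_zero] at h3
  refine h3.congr' ?_
  filter_upwards [eventually_ge_atTop (1 : ℝ)] with y hy
  have h4 : (0 : ℝ) < ⌊y⌋₊ := by
    have := Nat.floor_pos.2 hy
    exact_mod_cast this
  simp only [Function.comp]
  unfold p14d_S1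
  rw [p14d_harm, Real.log_div h4.ne' (by linarith)]
  ring

theorem p14d_tail (n : ℕ) (hn : 1 ≤ n) :
    1 / ((n : ℝ) + 1) ≤ Real.pi ^ 2 / 6 - ∑ j ∈ Ioc 0 n, 1 / (j : ℝ) ^ 2 ∧
    Real.pi ^ 2 / 6 - ∑ j ∈ Ioc 0 n, 1 / (j : ℝ) ^ 2 ≤ 1 / (n : ℝ) := by
  have hlim : Tendsto (fun m : ℕ => ∑ j ∈ Ioc 0 m, 1 / (j : ℝ) ^ 2) atTop (𝓝 (Real.pi ^ 2 / 6)) := by
    have h1 := (hasSum_zeta_two.tendsto_sum_nat).comp (tendsto_add_atTop_nat 1)
    refine h1.congr fun m => ?_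
    simp only [Function.comp]
    rw [sum_range_succ', p14d_range (fun j => 1 / (j : ℝ) ^ 2) m]
    simp
  have hb : ∀ m : ℕ, n ≤ m → 1 / ((n : ℝ) + 1) - 1 / ((m : ℝ) + 1) ≤
      ∑ j ∈ Ioc 0 m, 1 / (j : ℝ) ^ 2 - ∑ j ∈ Ioc 0 n, 1 / (j : ℝ) ^ 2 ∧
      ∑ j ∈ Ioc 0 m, 1 / (j : ℝ) ^ 2 - ∑ j ∈ Ioc 0 n, 1 / (j : ℝ) ^ 2 ≤ 1 / (n : ℝ) - 1 / m := by
    intro m hm
    induction m, hm using Nat.le_induction with
    | base => simp
    | succ m hm ih =>
      have hm0 : (0 : ℝ) < m := by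
        have : 0 < m := by omega
        exact_mod_cast this
      rw [← sum_Ioc_consecutive _ (Nat.zero_le m) (Nat.le_succ m), Nat.Ioc_succ_singleton,
        sum_singleton]
      push_cast
      have k1 : 1 / ((m : ℝ) + 1) - 1 / ((m : ℝ) + 1 + 1) ≤ 1 / ((m : ℝ) + 1) ^ 2 := by
        rw [div_sub_div _ _ (by positivity) (by positivity), div_le_div_iff₀ (by positivity) (by positivity)]
        nlinarith
      have k2 : 1 / ((m : ℝ) + 1) ^ 2 ≤ 1 / (m : ℝ) - 1 / ((m : ℝ) + 1) := by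
        rw [div_sub_div _ _ (by positivity) (by positivity), div_le_div_iff₀ (by positivity) (by positivity)]
        nlinarith
      constructor <;> linarith [ih.1, ih.2]
  have hn0 : (0 : ℝ) < n := by
    have : 0 < n := by omega
    exact_mod_cast this
  have l1 : Tendsto (fun m : ℕ => 1 / ((n : ℝ) + 1) - 1 / ((m : ℝ) + 1)) atTop
      (𝓝 (1 / ((n : ℝ) + 1) - 0)) :=
    tendsto_const_nhds.sub tendsto_one_div_add_atTop_nhds_zero_nat
  have l2 : Tendsto (fun m : ℕ => 1 / (n : ℝ) - 1 / (m : ℝ)) atTop (𝓝 (1 / (n : ℝ) - 0)) :=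
    tendsto_const_nhds.sub tendsto_one_div_atTop_nhds_zero_nat
  have l3 := hlim.sub_const (∑ j ∈ Ioc 0 n, 1 / (j : ℝ) ^ 2)
  rw [sub_zero] at l1 l2
  constructor
  · refine le_of_tendsto_of_tendsto l1 l3 ?_
    filter_upwards [eventually_ge_atTop n] with m hm using (hb m hm).1
  · refine le_of_tendsto_of_tendsto l3 l2 ?_
    filter_upwards [eventually_ge_atTop n] with m hm using (hb m hm).2

theorem p14d_lim2 : Tendsto (fun y : ℝ => y * (Real.pi ^ 2 / 6 - p14d_S2 y)) atTop (𝓝 1) := by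
  have h1 : Tendsto (fun n : ℕ => (n : ℝ) * (Real.pi ^ 2 / 6 - ∑ j ∈ Ioc 0 n, 1 / (j : ℝ) ^ 2))
      atTop (𝓝 1) := by
    have l1 : Tendsto (fun n : ℕ => 1 - 1 / ((n : ℝ) + 1)) atTop (𝓝 (1 - 0)) :=
      tendsto_const_nhds.sub tendsto_one_div_add_atTop_nhds_zero_nat
    rw [sub_zero] at l1
    refine tendsto_of_tendsto_of_tendsto_of_le_of_le' l1 (tendsto_const_nhds (x := (1 : ℝ))) ?_ ?_
    · filter_upwards [eventually_ge_atTop 1] with n hn
      have hn0 : (0 : ℝ) < n := by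
        have : 0 < n := by omega
        exact_mod_cast this
      have h2 := mul_le_mul_of_nonneg_left (p14d_tail n hn).1 hn0.le
      refine le_trans (le_of_eq ?_) h2
      field_simp
      ring
    · filter_upwards [eventually_ge_atTop 1] with n hn
      have hn0 : (0 : ℝ) < n := by
        have : 0 < n := by omega
        exact_mod_cast this
      have h2 := mul_le_mul_of_nonneg_left (p14d_tail n hn).2 hn0.le
      refine h2.trans (le_of_eq ?_)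
      field_simp
  have h2 := h1.comp (tendsto_nat_floor_atTop (α := ℝ))
  have h3 : Tendsto (fun y : ℝ => ((⌊y⌋₊ : ℝ) / y)⁻¹) atTop (𝓝 (1 : ℝ)⁻¹) :=
    p14d_lim0.inv₀ one_ne_zero
  have h4 := h3.mul h2
  rw [inv_one, one_mul] at h4
  refine h4.congr' ?_
  filter_upwards [eventually_ge_atTop (1 : ℝ)] with y hy
  have h5 : (0 : ℝ) < ⌊y⌋₊ := by
    have := Nat.floor_pos.2 hy
    exact_mod_cast this
  simp only [Function.comp]
  unfold p14d_S2
  have : (0 : ℝ) < y := by linarith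
  field_simp

theorem p14d_scale (c : ℝ) (hc : 0 < c) : Tendsto (fun x : ℝ => x / c) atTop atTop :=
  tendsto_id.atTop_div_const hc

/-- the limit of one block -/
theorem p14d_blim (n : ℝ) (hn : 0 < n) (m : ℕ) (hm : (m : ℝ) = n) :
    Tendsto (fun x : ℝ => (∑ j ∈ Ioc ⌊x / (n + 1)⌋₊ ⌊x / n⌋₊, p14d_th (x / j)) / x) atTop
      (𝓝 ((2 * n + 1) * (Real.log (n + 1) - Real.log n) - 2)) := by
  have hn1 : 0 < n + 1 := by linarith
  have a1 := (p14d_lim2.comp (p14d_scale n hn)).const_mul n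
  have a2 := (p14d_lim2.comp (p14d_scale (n + 1) hn1)).const_mul (n + 1)
  have b1 := p14d_lim1.comp (p14d_scale n hn)
  have b2 := p14d_lim1.comp (p14d_scale (n + 1) hn1)
  have c1 := (p14d_lim0.comp (p14d_scale n hn)).div_const n
  have c2 := (p14d_lim0.comp (p14d_scale (n + 1) hn1)).div_const (n + 1)
  have hb := ((b1.sub b2).add_const (Real.log (n + 1) - Real.log n)).const_mul (2 * n + 1)
  have hc := (c1.sub c2).const_mul (n * (n + 1))
  have hall := ((a1.sub a2).add hb).sub hc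
  have hval : n * 1 - (n + 1) * 1 + (2 * n + 1) * (Real.eulerMascheroniConstant -
      Real.eulerMascheroniConstant + (Real.log (n + 1) - Real.log n)) -
      n * (n + 1) * (1 / n - 1 / (n + 1)) = (2 * n + 1) * (Real.log (n + 1) - Real.log n) - 2 := by
    field_simp
    ring
  rw [hval] at hall
  refine hall.congr' ?_
  filter_upwards [eventually_gt_atTop (0 : ℝ)] with x hx
  simp only [Function.comp]
  rw [p14d_block x hx n hn m hm]
  rw [Real.log_div hx.ne' hn.ne', Real.log_div hx.ne' hn1.ne']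
  field_simp
  ring

theorem p14d_bsum (M : ℕ) :
    ∑ k ∈ range M, ((2 * ((k : ℝ) + 1) + 1) * (Real.log ((k : ℝ) + 1 + 1) - Real.log ((k : ℝ) + 1)) - 2) =
      (2 * ((M : ℝ) + 1) + 1) * Real.log ((M : ℝ) + 1) - 2 * Real.log ((M + 1).factorial) -
        2 * ((M : ℝ) + 1) + 2 := by
  induction M with
  | zero => simp
  | succ M ih =>
    rw [sum_range_succ, ih, Nat.factorial_succ (M + 1)]
    push_cast
    rw [Real.log_mul (by positivity) (by positivity)]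
    ring

theorem p14d_stir : Tendsto (fun M : ℕ =>
    (2 * ((M : ℝ) + 1) + 1) * Real.log ((M : ℝ) + 1) - 2 * Real.log ((M + 1).factorial) -
        2 * ((M : ℝ) + 1) + 2) atTop (𝓝 (2 - Real.log (2 * Real.pi))) := by
  have h1 : Tendsto (fun n : ℕ => Real.log (Stirling.stirlingSeq n)) atTop (𝓝 (Real.log (√Real.pi))) :=
    (Real.continuousAt_log (by positivity)).tendsto.comp Stirling.tendsto_stirlingSeq_sqrt_pi
  have h2 := ((h1.comp (tendsto_add_atTop_nat 1)).const_mul (-2 : ℝ)).add_const (2 - Real.log 2)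
  have h3 : -2 * Real.log (√Real.pi) + (2 - Real.log 2) = 2 - Real.log (2 * Real.pi) := by
    rw [Real.log_sqrt Real.pi_pos.le, Real.log_mul (by norm_num) Real.pi_ne_zero]
    ring
  rw [h3] at h2
  refine h2.congr fun M => ?_
  simp only [Function.comp]
  rw [Stirling.log_stirlingSeq_formula]
  have h4 : (0 : ℝ) < (M : ℝ) + 1 := by positivity
  push_cast
  rw [Real.log_mul (by norm_num) h4.ne', Real.log_div h4.ne' (Real.exp_pos 1).ne', Real.log_exp]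
  ring

theorem p14d_Flim : Tendsto (fun x : ℝ => p14d_F x / x) atTop (𝓝 (2 - Real.log (2 * Real.pi))) := by
  rw [Metric.tendsto_nhds]
  intro η hη
  have h1 := (Metric.tendsto_nhds.1 p14d_stir) (η / 3) (by positivity)
  have h2 : ∀ᶠ M : ℕ in atTop, 1 / ((M : ℝ) + 1) < η / 3 :=
    tendsto_one_div_add_atTop_nhds_zero_nat.eventually_lt_const (by positivity)
  obtain ⟨M, hM1, hM2⟩ := (h1.and h2).exists
  rw [← p14d_bsum] at hM1
  have h3 : Tendsto (fun x : ℝ => ∑ k ∈ range M,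
      (∑ j ∈ Ioc ⌊x / ((k : ℝ) + 1 + 1)⌋₊ ⌊x / ((k : ℝ) + 1)⌋₊, p14d_th (x / j)) / x) atTop
      (𝓝 (∑ k ∈ range M, ((2 * ((k : ℝ) + 1) + 1) *
        (Real.log ((k : ℝ) + 1 + 1) - Real.log ((k : ℝ) + 1)) - 2))) := by
    refine tendsto_finsetSum _ fun k _ => ?_
    exact p14d_blim ((k : ℝ) + 1) (by positivity) (k + 1) (by push_cast; ring)
  have h4 := (Metric.tendsto_nhds.1 h3) (η / 3) (by positivity)
  filter_upwards [h4, eventually_gt_atTop (0 : ℝ)] with x hx hx0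
  have h5 := p14d_split (fun j => p14d_th (x / j)) x hx0.le M
  have h6 : 0 ≤ ∑ j ∈ Ioc 0 ⌊x / ((M : ℝ) + 1)⌋₊, p14d_th (x / j) ∧
      ∑ j ∈ Ioc 0 ⌊x / ((M : ℝ) + 1)⌋₊, p14d_th (x / j) ≤ x * (η / 3) := by
    constructor
    · exact sum_nonneg fun j _ => (p14d_th_bd _ (by positivity)).1
    · calc ∑ j ∈ Ioc 0 ⌊x / ((M : ℝ) + 1)⌋₊, p14d_th (x / j)
          ≤ ∑ j ∈ Ioc 0 ⌊x / ((M : ℝ) + 1)⌋₊, (1 : ℝ) :=
            sum_le_sum fun j _ => (p14d_th_bd _ (by positivity)).2.trans (by norm_num)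
        _ = ⌊x / ((M : ℝ) + 1)⌋₊ := by simp
        _ ≤ x / ((M : ℝ) + 1) := Nat.floor_le (by positivity)
        _ = x * (1 / ((M : ℝ) + 1)) := by ring
        _ ≤ _ := by gcongr
  have h7 : p14d_F x / x = (∑ j ∈ Ioc 0 ⌊x / ((M : ℝ) + 1)⌋₊, p14d_th (x / j)) / x +
      ∑ k ∈ range M,
      (∑ j ∈ Ioc ⌊x / ((k : ℝ) + 1 + 1)⌋₊ ⌊x / ((k : ℝ) + 1)⌋₊, p14d_th (x / j)) / x := by
    unfold p14d_F
    rw [h5, add_div, sum_div (range M)]
    congr 1
    refine sum_congr rfl fun k _ => ?_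
    have e1 : (k : ℝ) + 1 + 1 = (k : ℝ) + 2 := by ring
    rw [e1]
  have h8 : 0 ≤ (∑ j ∈ Ioc 0 ⌊x / ((M : ℝ) + 1)⌋₊, p14d_th (x / j)) / x ∧
      (∑ j ∈ Ioc 0 ⌊x / ((M : ℝ) + 1)⌋₊, p14d_th (x / j)) / x ≤ η / 3 := by
    constructor
    · exact div_nonneg h6.1 hx0.le
    · rw [div_le_iff₀ hx0]
      linarith [h6.2]
  rw [h7]
  rw [Real.dist_eq] at hx hM1 ⊢
  rw [abs_lt] at hx hM1 ⊢
  constructor <;> linarith [h8.1, h8.2, hx.1, hx.2, hM1.1, hM1.2]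

theorem p14d_main : Tendsto (fun x : ℝ => (Ps1 x - (Real.pi ^ 2 / 12 * x ^ 2 - x / 2 * Real.log x +
    x / 2 * (1 - Real.eulerMascheroniConstant - Real.log (2 * Real.pi)))) / x) atTop (𝓝 0) := by
  have h1 := p14d_lim2.const_mul (-1 / 2 : ℝ)
  have h2 := p14d_lim1.const_mul (-1 / 2 : ℝ)
  have h3 := p14d_Flim.const_mul (1 / 2 : ℝ)
  have h4 := ((h1.add h2).add h3).add_const
    (-(1 - Real.eulerMascheroniConstant - Real.log (2 * Real.pi)) / 2)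
  have h5 : -1 / 2 * 1 + -1 / 2 * Real.eulerMascheroniConstant +
      1 / 2 * (2 - Real.log (2 * Real.pi)) +
      -(1 - Real.eulerMascheroniConstant - Real.log (2 * Real.pi)) / 2 = 0 := by ring
  rw [h5] at h4
  refine h4.congr' ?_
  filter_upwards [eventually_gt_atTop (0 : ℝ)] with x hx
  rw [p14d_ps]
  field_simp
  ring

theorem W14d_pr : W14d := by
  intro η hη
  have h1 := (Metric.tendsto_nhds.1 p14d_main) η hη
  obtain ⟨x0, hx0⟩ := eventually_atTop.1 h1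
  refine ⟨max x0 1, le_max_right _ _, fun x hx => ?_⟩
  have h2 := hx0 x ((le_max_left _ _).trans hx)
  have h3 : (0 : ℝ) < x := lt_of_lt_of_le one_pos ((le_max_right _ _).trans hx)
  rw [Real.dist_eq, sub_zero, abs_div, abs_of_pos h3, div_lt_iff₀ h3] at h2
  exact h2.le

end Pool.Agent.FGP
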