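import Pool.Agent.Lib_helper3.FGP.WantedE
import Pool.Agent.Lib_helper3.FGP.P14d
import Pool.Agent.Lib_helper3.FGP.P02

set_option autoImplicit false

namespace Pool.Agent.FGP

open Finset Pool.Agent.Var35 Pool.Agent.Var73 Pool.Agent.PV
open scoped ArithmeticFunction ArithmeticFunction.Moebius

theorem e14d_S2 (y : ℝ) (hy : 1 ≤ y) : |Real.pi ^ 2 / 6 - p14d_S2 y - 1 / y| ≤ 2 / y ^ 2 := by
  have hn : 1 ≤ ⌊y⌋₊ := Nat.le_floor (by exact_mod_cast hy)
  have h0 : (0 : ℝ) < y := by linarith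
  obtain ⟨h1, h2⟩ := p14d_tail ⌊y⌋₊ hn
  have h3 := Nat.floor_le h0.le
  have h4 := Nat.lt_floor_add_one y
  have hn1 : (1 : ℝ) ≤ ⌊y⌋₊ := by exact_mod_cast hn
  unfold p14d_S2
  rw [abs_le]
  constructor
  · have h5 : 1 / y - 2 / y ^ 2 ≤ 1 / ((⌊y⌋₊ : ℝ) + 1) := by
      have h6 : 1 / (y + 1) ≤ 1 / ((⌊y⌋₊ : ℝ) + 1) := by gcongr
      refine le_trans ?_ h6
      rw [div_sub_div _ _ h0.ne' (by positivity), div_le_div_iff₀ (by positivity) (by positivity)]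
      nlinarith
    linarith
  · have h5 : 1 / (⌊y⌋₊ : ℝ) ≤ 1 / y + 2 / y ^ 2 := by
      rw [div_add_div _ _ h0.ne' (by positivity), div_le_div_iff₀ (by positivity) (by positivity)]
      have h6 : y ≤ 2 * ⌊y⌋₊ := by linarith
      nlinarith [mul_pos h0 h0]
    linarith

theorem e14d_S1 (y : ℝ) (hy : 1 ≤ y) :
    |p14d_S1 y - Real.log y - Real.eulerMascheroniConstant| ≤ 2 / y := by
  have hn : 1 ≤ ⌊y⌋₊ := Nat.le_floor (by exact_mod_cast hy)
  have h0 : (0 : ℝ) < y := by linarith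
  have h3 := Nat.floor_le h0.le
  have h4 := Nat.lt_floor_add_one y
  have hn1 : (1 : ℝ) ≤ ⌊y⌋₊ := by exact_mod_cast hn
  have hn0 : (0 : ℝ) < ⌊y⌋₊ := by linarith
  have h1 := Real.eulerMascheroniSeq_lt_eulerMascheroniConstant ⌊y⌋₊
  have h2 := Real.eulerMascheroniConstant_lt_eulerMascheroniSeq' ⌊y⌋₊
  unfold Real.eulerMascheroniSeq at h1
  unfold Real.eulerMascheroniSeq' at h2
  rw [if_neg (by omega)] at h2
  unfold p14d_S1
  rw [p14d_harm]
  have h5 : Real.log ⌊y⌋₊ ≤ Real.log y := Real.log_le_log hn0 h3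
  have h6 : Real.log y ≤ Real.log ((⌊y⌋₊ : ℝ) + 1) := Real.log_le_log h0 h4.le
  have h7 : Real.log ((⌊y⌋₊ : ℝ) + 1) ≤ Real.log ⌊y⌋₊ + 1 / ⌊y⌋₊ := by
    have h8 : (⌊y⌋₊ : ℝ) + 1 = ⌊y⌋₊ * (1 + 1 / ⌊y⌋₊) := by field_simp
    rw [h8, Real.log_mul hn0.ne' (by positivity)]
    have h9 := Real.log_le_sub_one_of_pos (show (0 : ℝ) < 1 + 1 / ⌊y⌋₊ by positivity)
    linarith
  have h10 : 1 / (⌊y⌋₊ : ℝ) ≤ 2 / y := by
    rw [div_le_div_iff₀ hn0 h0]
    linarith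
  rw [abs_le]
  constructor <;> linarith

/-- one block -/
theorem e14d_block (x : ℝ) (m : ℕ) (hm : 1 ≤ m) (hx : (m : ℝ) + 1 ≤ x) :
    |∑ j ∈ Ioc ⌊x / ((m : ℝ) + 1)⌋₊ ⌊x / (m : ℝ)⌋₊, p14d_th (x / j) -
      x * ((2 * (m : ℝ) + 1) * (Real.log ((m : ℝ) + 1) - Real.log m) - 2)| ≤ 40 * (m : ℝ) ^ 2 := by
  set n : ℝ := (m : ℝ) with hn
  have hn1 : 1 ≤ n := by rw [hn]; exact_mod_cast hm
  have hn0 : 0 < n := by linarith
  have hx0 : 0 < x := by linarith
  rw [p14d_block x hx0 n hn0 m rfl]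
  have hy1 : 1 ≤ x / n := by rw [le_div_iff₀ hn0]; linarith
  have hy2 : 1 ≤ x / (n + 1) := by rw [le_div_iff₀ (by linarith)]; linarith
  have a1 := e14d_S2 _ hy1
  have a2 := e14d_S2 _ hy2
  have b1 := e14d_S1 _ hy1
  have b2 := e14d_S1 _ hy2
  have c1 : |(⌊x / n⌋₊ : ℝ) - x / n| ≤ 1 := by
    have h3 := Nat.floor_le (show 0 ≤ x / n by positivity)
    have h4 := Nat.lt_floor_add_one (x / n)
    rw [abs_le]
    constructor <;> linarith
  have c2 : |(⌊x / (n + 1)⌋₊ : ℝ) - x / (n + 1)| ≤ 1 := by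
    have h3 := Nat.floor_le (show 0 ≤ x / (n + 1) by positivity)
    have h4 := Nat.lt_floor_add_one (x / (n + 1))
    rw [abs_le]
    constructor <;> linarith
  set r1 : ℝ := Real.pi ^ 2 / 6 - p14d_S2 (x / n) - 1 / (x / n) with hr1
  set r2 : ℝ := Real.pi ^ 2 / 6 - p14d_S2 (x / (n + 1)) - 1 / (x / (n + 1)) with hr2
  set s1 : ℝ := p14d_S1 (x / n) - Real.log (x / n) - Real.eulerMascheroniConstant with hs1
  set s2 : ℝ := p14d_S1 (x / (n + 1)) - Real.log (x / (n + 1)) - Real.eulerMascheroniConstant with hs2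
  set t1 : ℝ := (⌊x / n⌋₊ : ℝ) - x / n with ht1
  set t2 : ℝ := (⌊x / (n + 1)⌋₊ : ℝ) - x / (n + 1) with ht2
  have e1 : -(x ^ 2 * (p14d_S2 (x / n) - p14d_S2 (x / (n + 1)))) +
      (2 * n + 1) * (x * (p14d_S1 (x / n) - p14d_S1 (x / (n + 1)))) -
      n * (n + 1) * ((⌊x / n⌋₊ : ℝ) - ⌊x / (n + 1)⌋₊) -
      x * ((2 * n + 1) * (Real.log (n + 1) - Real.log n) - 2) =
      x ^ 2 * (r1 - r2) + (2 * n + 1) * (x * (s1 - s2)) - n * (n + 1) * (t1 - t2) := by
    have l1 : Real.log (x / n) = Real.log x - Real.log n := Real.log_div hx0.ne' hn0.ne'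
    have l2 : Real.log (x / (n + 1)) = Real.log x - Real.log (n + 1) :=
      Real.log_div hx0.ne' (by positivity)
    rw [hr1, hr2, hs1, hs2, ht1, ht2, l1, l2]
    have d1 : x ^ 2 * (1 / (x / n)) = n * x := by field_simp
    have d2 : x ^ 2 * (1 / (x / (n + 1))) = (n + 1) * x := by field_simp
    have d3 : n * (n + 1) * (x / n) = (n + 1) * x := by field_simp
    have d4 : n * (n + 1) * (x / (n + 1)) = n * x := by field_simp
    linear_combination d1 - d2 - d3 + d4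
  rw [e1]
  have f1 : |x ^ 2 * (r1 - r2)| ≤ 2 * n ^ 2 + 2 * (n + 1) ^ 2 := by
    rw [abs_mul, abs_of_pos (by positivity : 0 < x ^ 2)]
    calc x ^ 2 * |r1 - r2| ≤ x ^ 2 * (2 / (x / n) ^ 2 + 2 / (x / (n + 1)) ^ 2) := by
          gcongr
          exact (abs_sub _ _).trans (add_le_add a1 a2)
      _ = _ := by field_simp
  have f2 : |(2 * n + 1) * (x * (s1 - s2))| ≤ (2 * n + 1) * (2 * n + 2 * (n + 1)) := by
    rw [abs_mul, abs_mul, abs_of_pos (by positivity : 0 < 2 * n + 1), abs_of_pos hx0]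
    gcongr
    calc x * |s1 - s2| ≤ x * (2 / (x / n) + 2 / (x / (n + 1))) := by
          gcongr
          exact (abs_sub _ _).trans (add_le_add b1 b2)
      _ = _ := by field_simp
  have f3 : |n * (n + 1) * (t1 - t2)| ≤ n * (n + 1) * 2 := by
    rw [abs_mul, abs_of_pos (by positivity : 0 < n * (n + 1))]
    gcongr
    exact (abs_sub _ _).trans (by linarith)
  have g1 : |x ^ 2 * (r1 - r2) + (2 * n + 1) * (x * (s1 - s2)) - n * (n + 1) * (t1 - t2)| ≤
      |x ^ 2 * (r1 - r2)| + |(2 * n + 1) * (x * (s1 - s2))| + |n * (n + 1) * (t1 - t2)| :=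
    (abs_sub _ _).trans (by gcongr; exact abs_add_le _ _)
  refine g1.trans ?_
  nlinarith

theorem e14d_stir (M : ℕ) : |(2 * ((M : ℝ) + 1) + 1) * Real.log ((M : ℝ) + 1) -
    2 * Real.log ((M + 1).factorial) - 2 * ((M : ℝ) + 1) + 2 - (2 - Real.log (2 * Real.pi))| ≤
    1 / ((M : ℝ) + 1) := by
  obtain ⟨h1, h2⟩ := p02_stir (k := M + 1) (by omega)
  have h4 : (0 : ℝ) < (M : ℝ) + 1 := by positivity
  have h3 : (2 * ((M : ℝ) + 1) + 1) * Real.log ((M : ℝ) + 1) -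
    2 * Real.log ((M + 1).factorial) - 2 * ((M : ℝ) + 1) + 2 - (2 - Real.log (2 * Real.pi)) =
      -2 * (Real.log (Stirling.stirlingSeq (M + 1)) - Real.log (Real.sqrt Real.pi)) := by
    rw [Real.log_sqrt Real.pi_pos.le, Real.log_mul (by norm_num) Real.pi_ne_zero,
      Stirling.log_stirlingSeq_formula]
    push_cast
    rw [Real.log_mul (by norm_num) h4.ne', Real.log_div h4.ne' (Real.exp_pos 1).ne', Real.log_exp]
    ring
  rw [h3]
  have h5 : 1 / (12 * ((M + 1 : ℕ) : ℝ)) ≤ 1 / 2 * (1 / ((M : ℝ) + 1)) := by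
    push_cast
    rw [← one_div_mul_one_div]
    have : 0 < 1 / ((M : ℝ) + 1) := by positivity
    nlinarith
  rw [abs_le]
  constructor <;> linarith

/-- the function `F` -/
theorem e14d_F (x : ℝ) (M : ℕ) (hx : (M : ℝ) + 1 ≤ x) :
    |p14d_F x - x * (2 - Real.log (2 * Real.pi))| ≤ 2 * (x / ((M : ℝ) + 1)) + 40 * (M : ℝ) ^ 3 := by
  have hx0 : 0 < x := by
    have : (0 : ℝ) ≤ M := Nat.cast_nonneg M
    linarith
  have h5 := p14d_split (fun j => p14d_th (x / j)) x hx0.le M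
  have h6 : 0 ≤ ∑ j ∈ Ioc 0 ⌊x / ((M : ℝ) + 1)⌋₊, p14d_th (x / j) ∧
      ∑ j ∈ Ioc 0 ⌊x / ((M : ℝ) + 1)⌋₊, p14d_th (x / j) ≤ x / ((M : ℝ) + 1) := by
    constructor
    · exact sum_nonneg fun j _ => (p14d_th_bd _ (by positivity)).1
    · calc ∑ j ∈ Ioc 0 ⌊x / ((M : ℝ) + 1)⌋₊, p14d_th (x / j)
          ≤ ∑ j ∈ Ioc 0 ⌊x / ((M : ℝ) + 1)⌋₊, (1 : ℝ) :=
            sum_le_sum fun j _ => (p14d_th_bd _ (by positivity)).2.trans (by norm_num)
        _ = ⌊x / ((M : ℝ) + 1)⌋₊ := by simp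
        _ ≤ x / ((M : ℝ) + 1) := Nat.floor_le (by positivity)
  have h7 : |∑ k ∈ range M,
      ((∑ j ∈ Ioc ⌊x / ((k : ℝ) + 2)⌋₊ ⌊x / ((k : ℝ) + 1)⌋₊, p14d_th (x / j)) -
      x * ((2 * ((k : ℝ) + 1) + 1) * (Real.log ((k : ℝ) + 1 + 1) - Real.log ((k : ℝ) + 1)) - 2))| ≤
      40 * (M : ℝ) ^ 3 := by
    refine (abs_sum_le_sum_abs _ _).trans ?_
    have h8 : ∀ k ∈ range M, |(∑ j ∈ Ioc ⌊x / ((k : ℝ) + 2)⌋₊ ⌊x / ((k : ℝ) + 1)⌋₊, p14d_th (x / j)) -
      x * ((2 * ((k : ℝ) + 1) + 1) * (Real.log ((k : ℝ) + 1 + 1) - Real.log ((k : ℝ) + 1)) - 2)| ≤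
      40 * (M : ℝ) ^ 2 := by
      intro k hk
      rw [mem_range] at hk
      have hk1 : (k : ℝ) + 1 ≤ M := by exact_mod_cast hk
      have h9 := e14d_block x (k + 1) (by omega) (by push_cast; linarith)
      push_cast at h9
      have e1 : (k : ℝ) + 1 + 1 = (k : ℝ) + 2 := by ring
      rw [e1] at h9 ⊢
      refine h9.trans ?_
      gcongr
    refine (sum_le_sum h8).trans ?_
    rw [sum_const, card_range, nsmul_eq_mul]
    apply le_of_eq
    ring
  have h8 := e14d_stir M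
  rw [← p14d_bsum] at h8
  rw [sum_sub_distrib, ← mul_sum] at h7
  have h9 : |x * (∑ k ∈ range M, ((2 * ((k : ℝ) + 1) + 1) *
      (Real.log ((k : ℝ) + 1 + 1) - Real.log ((k : ℝ) + 1)) - 2)) -
      x * (2 - Real.log (2 * Real.pi))| ≤ x / ((M : ℝ) + 1) := by
    rw [← mul_sub, abs_mul, abs_of_pos hx0]
    calc _ ≤ x * (1 / ((M : ℝ) + 1)) := by gcongr
      _ = _ := by ring
  unfold p14d_F
  rw [h5]
  rw [abs_le] at h7 h9 ⊢
  constructor <;> linarith [h7.1, h7.2, h9.1, h9.2, h6.1, h6.2]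

theorem e14d_large (x : ℝ) (hx : 16 ≤ x) :
    |Ps1 x - (Real.pi ^ 2 / 12 * x ^ 2 - x / 2 * Real.log x +
    x / 2 * (1 - Real.eulerMascheroniConstant - Real.log (2 * Real.pi)))| ≤ 24 * x ^ (3 / 4 : ℝ) := by
  have hx0 : 0 < x := by linarith
  set u : ℝ := x ^ (1 / 4 : ℝ) with hu
  have hu0 : 0 < u := Real.rpow_pos_of_pos hx0 _
  have hu4 : u ^ 4 = x := by
    rw [hu, ← Real.rpow_natCast, ← Real.rpow_mul hx0.le]
    norm_num
  have hu3 : x ^ (3 / 4 : ℝ) = u ^ 3 := by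
    rw [hu, ← Real.rpow_natCast, ← Real.rpow_mul hx0.le]
    norm_num
  have hu2 : 2 ≤ u := by
    by_contra hcon
    push Not at hcon
    have : u ^ 4 < 2 ^ 4 := by gcongr
    rw [hu4] at this
    linarith
  have hM1 := Nat.floor_le hu0.le
  have hM2 := Nat.lt_floor_add_one u
  have hMx : (⌊u⌋₊ : ℝ) + 1 ≤ x := by
    have h1 : u + 1 ≤ u ^ 4 := by nlinarith [pow_pos hu0 2, pow_pos hu0 3]
    linarith
  have hF := e14d_F x ⌊u⌋₊ hMx
  have hF2 : |p14d_F x - x * (2 - Real.log (2 * Real.pi))| ≤ 42 * u ^ 3 := by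
    refine hF.trans ?_
    have h1 : x / ((⌊u⌋₊ : ℝ) + 1) ≤ u ^ 3 := by
      rw [div_le_iff₀ (by positivity), ← hu4]
      calc u ^ 4 = u ^ 3 * u := by ring
        _ ≤ _ := by gcongr
    have h2 : (⌊u⌋₊ : ℝ) ^ 3 ≤ u ^ 3 := by gcongr
    linarith
  have hS2 := e14d_S2 x (by linarith)
  have hS1 := e14d_S1 x (by linarith)
  rw [p14d_ps, hu3]
  have e1 : x ^ 2 / 2 * p14d_S2 x - x / 2 * p14d_S1 x + p14d_F x / 2 -
      (Real.pi ^ 2 / 12 * x ^ 2 - x / 2 * Real.log x +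
      x / 2 * (1 - Real.eulerMascheroniConstant - Real.log (2 * Real.pi))) =
      -(x ^ 2 / 2) * (Real.pi ^ 2 / 6 - p14d_S2 x - 1 / x) -
      x / 2 * (p14d_S1 x - Real.log x - Real.eulerMascheroniConstant) +
      (p14d_F x - x * (2 - Real.log (2 * Real.pi))) / 2 := by
    field_simp
    ring
  rw [e1]
  have f1 : |-(x ^ 2 / 2) * (Real.pi ^ 2 / 6 - p14d_S2 x - 1 / x)| ≤ 1 := by
    rw [abs_mul, abs_neg, abs_of_pos (by positivity : 0 < x ^ 2 / 2)]
    calc _ ≤ x ^ 2 / 2 * (2 / x ^ 2) := by gcongr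
      _ = 1 := by field_simp
  have f2 : |x / 2 * (p14d_S1 x - Real.log x - Real.eulerMascheroniConstant)| ≤ 1 := by
    rw [abs_mul, abs_of_pos (by positivity : 0 < x / 2)]
    calc _ ≤ x / 2 * (2 / x) := by gcongr
      _ = 1 := by field_simp
  have hu31 : 1 ≤ u ^ 3 := one_le_pow₀ (by linarith)
  rw [abs_le] at f1 f2 hF2 ⊢
  constructor <;> linarith [f1.1, f1.2, f2.1, f2.2, hF2.1, hF2.2]

theorem E14d_pr : E14d := by
  -- the range `x ≤ 16`
  set g : ℝ := 1 - Real.eulerMascheroniConstant - Real.log (2 * Real.pi) with hg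
  refine ⟨1000 + 16 * |g|, by positivity, fun x hx => ?_⟩
  rcases le_or_gt 16 x with h16 | h16
  · refine (e14d_large x h16).trans ?_
    have : 0 ≤ |g| := abs_nonneg g
    have h0 : 0 ≤ x ^ (3 / 4 : ℝ) := by positivity
    nlinarith
  · have hq : 0 < x ^ (3 / 4 : ℝ) := Real.rpow_pos_of_pos hx _
    set v : ℝ := x ^ (1 / 4 : ℝ) with hv
    have hv0 : 0 < v := Real.rpow_pos_of_pos hx _
    have hv4 : v ^ 4 = x := by
      rw [hv, ← Real.rpow_natCast, ← Real.rpow_mul hx.le]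
      norm_num
    have hv3 : x ^ (3 / 4 : ℝ) = v ^ 3 := by
      rw [hv, ← Real.rpow_natCast, ← Real.rpow_mul hx.le]
      norm_num
    have hv2 : v ≤ 2 := by
      by_contra hcon
      push Not at hcon
      have : (2 : ℝ) ^ 4 < v ^ 4 := by gcongr
      rw [hv4] at this
      linarith
    have hv30 : 0 < v ^ 3 := by positivity
    -- `Ps1`
    have h1 : 0 ≤ Ps1 x ∧ Ps1 x ≤ 512 * v ^ 3 := by
      rcases lt_or_ge x 1 with h2 | h2
      · have h3 : ⌊x⌋₊ = 0 := Nat.floor_eq_zero.2 h2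
        unfold Ps1
        rw [h3]
        simp only [show Icc 1 0 = (∅ : Finset ℕ) from rfl, sum_empty]
        exact ⟨le_rfl, by positivity⟩
      · have hph : ∀ y : ℝ, 0 ≤ y → 0 ≤ Ph1 y ∧ Ph1 y ≤ y ^ 2 := by
          intro y hy
          have h3 := Nat.floor_le hy
          have h4 := Nat.lt_floor_add_one y
          have h5 : (0 : ℝ) ≤ ⌊y⌋₊ := Nat.cast_nonneg _
          constructor
          · unfold Ph1
            refine sum_nonneg fun i hi => ?_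
            rw [mem_Icc] at hi
            have : (i : ℝ) ≤ y := le_trans (by exact_mod_cast hi.2) h3
            linarith
          · rw [p14d_ph]
            have : p14d_th y ≤ y := by
              unfold p14d_th
              nlinarith
            nlinarith
        have h3 : 0 ≤ Ps1 x := sum_nonneg fun j hj => (hph _ (by positivity)).1
        refine ⟨h3, ?_⟩
        have h4 : Ps1 x ≤ ⌊x⌋₊ * x ^ 2 := by
          unfold Ps1
          calc ∑ j ∈ Icc 1 ⌊x⌋₊, Ph1 (x / j) ≤ ∑ j ∈ Icc 1 ⌊x⌋₊, x ^ 2 := by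
                refine sum_le_sum fun j hj => (hph _ (by positivity)).2.trans ?_
                have hj1 : (1 : ℝ) ≤ j := by exact_mod_cast (mem_Icc.1 hj).1
                have : x / j ≤ x := div_le_self hx.le hj1
                gcongr
            _ = _ := by simp
        have h5 := Nat.floor_le hx.le
        have h6 : Ps1 x ≤ x ^ 3 := by
          calc Ps1 x ≤ ⌊x⌋₊ * x ^ 2 := h4
            _ ≤ x * x ^ 2 := by gcongr
            _ = _ := by ring
        have h8 : x ^ 3 = v ^ 9 * v ^ 3 := by rw [← hv4]; ring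
        have h9 : v ^ 9 ≤ 2 ^ 9 := by gcongr
        rw [h8] at h6
        nlinarith
    -- the square
    have h2 : 0 ≤ Real.pi ^ 2 / 12 * x ^ 2 ∧ Real.pi ^ 2 / 12 * x ^ 2 ≤ 32 * v ^ 3 := by
      refine ⟨by positivity, ?_⟩
      have h3 : x ^ 2 = v ^ 5 * v ^ 3 := by rw [← hv4]; ring
      have h4 : v ^ 5 ≤ 2 ^ 5 := by gcongr
      have h5 : Real.pi ^ 2 / 12 ≤ 1 := by nlinarith [Real.pi_gt_three, Real.pi_lt_d2, Real.pi_pos]
      have h6 : x ^ 2 ≤ 32 * v ^ 3 := by rw [h3]; nlinarith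
      calc Real.pi ^ 2 / 12 * x ^ 2 ≤ 1 * x ^ 2 := by gcongr
        _ = x ^ 2 := one_mul _
        _ ≤ _ := h6
    -- the logarithm
    have h3 : |x * Real.log x| ≤ 32 * v ^ 3 := by
      rcases le_or_gt x 1 with h4 | h4
      · have h5 := Real.abs_log_mul_self_rpow_lt x (1 / 4) hx h4 (by norm_num)
        have h6 : x * Real.log x = v ^ 3 * (Real.log x * x ^ (1 / 4 : ℝ)) := by
          rw [← hv]
          calc x * Real.log x = v ^ 4 * Real.log x := by rw [hv4]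
            _ = _ := by ring
        rw [h6, abs_mul, abs_of_pos hv30]
        calc v ^ 3 * |Real.log x * x ^ (1 / 4 : ℝ)| ≤ v ^ 3 * (1 / (1 / 4)) := by gcongr
          _ ≤ _ := by linarith
      · have h5 := Real.log_le_sub_one_of_pos hx
        have h6 := Real.log_pos h4
        rw [abs_of_pos (by positivity)]
        have h7 : Real.log x ≤ 15 := by linarith
        calc x * Real.log x ≤ x * 15 := by gcongr
          _ = v ^ 3 * v * 15 := by rw [← hv4]; ring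
          _ ≤ v ^ 3 * 2 * 15 := by gcongr
          _ ≤ _ := by linarith
    have h4 : |x / 2 * g| ≤ |g| * v ^ 3 := by
      rw [abs_mul, abs_of_pos (by positivity : 0 < x / 2)]
      calc x / 2 * |g| = v * (v ^ 3 * |g|) / 2 := by rw [← hv4]; ring
        _ ≤ 2 * (v ^ 3 * |g|) / 2 := by gcongr
        _ = _ := by ring
    rw [hv3]
    have h5 : 0 ≤ |g| * v ^ 3 := by positivity
    rw [abs_le] at h3 h4 ⊢
    constructor <;> nlinarith [h1.1, h1.2, h2.1, h2.2, h3.1, h3.2, h4.1, h4.2]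

end Pool.Agent.FGP
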