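import Pool.Agent.Lib_helper3.FGP.Wanted
import Pool.Agent.Lib_helper92.HCF.SPF

/-! FGP, block P15: the second moment -/

set_option autoImplicit false

namespace Pool.Agent.FGP

open Finset Pool.Agent.Var35 Pool.Agent.Var73 Pool.Agent.PV
open scoped ArithmeticFunction ArithmeticFunction.Moebius

/-- `ψ(n) - n` -/
noncomputable def p15_E (n : ℕ) : ℝ := ∑ j ∈ Icc 1 n, ArithmeticFunction.vonMangoldt j - n

theorem p15_abel (N : ℕ) :
    ∑ n ∈ Icc 1 N, (ArithmeticFunction.vonMangoldt n - 1) * Real.log n =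
      p15_E N * Real.log N - ∑ n ∈ range N, p15_E n * (Real.log ((n + 1 : ℕ) : ℝ) - Real.log n) := by
  induction N with
  | zero => simp
  | succ N ih =>
    rw [sum_Icc_succ_top (by omega), ih, sum_range_succ]
    have h1 : p15_E (N + 1) = p15_E N + (ArithmeticFunction.vonMangoldt (N + 1) - 1) := by
      unfold p15_E
      rw [sum_Icc_succ_top (by omega)]
      push_cast
      ring
    rw [h1]
    ring

theorem p15_log (n : ℕ) (hn : 1 ≤ n) :
    0 ≤ Real.log ((n + 1 : ℕ) : ℝ) - Real.log n ∧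
      Real.log ((n + 1 : ℕ) : ℝ) - Real.log n ≤ 1 / n ∧
      1 / ((n + 1 : ℕ) : ℝ) ≤ Real.log ((n + 1 : ℕ) : ℝ) - Real.log n := by
  have hn0 : (0 : ℝ) < n := by exact_mod_cast hn
  have hn1 : (0 : ℝ) < ((n + 1 : ℕ) : ℝ) := by positivity
  have h1 : Real.log (((n + 1 : ℕ) : ℝ) / n) ≤ ((n + 1 : ℕ) : ℝ) / n - 1 :=
    Real.log_le_sub_one_of_pos (by positivity)
  have h2 : Real.log ((n : ℝ) / ((n + 1 : ℕ) : ℝ)) ≤ (n : ℝ) / ((n + 1 : ℕ) : ℝ) - 1 :=
    Real.log_le_sub_one_of_pos (by positivity)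
  rw [Real.log_div hn1.ne' hn0.ne'] at h1
  rw [Real.log_div hn0.ne' hn1.ne'] at h2
  have h3 : ((n + 1 : ℕ) : ℝ) / n - 1 = 1 / n := by
    push_cast
    field_simp
    ring
  have h4 : (n : ℝ) / ((n + 1 : ℕ) : ℝ) - 1 = -(1 / ((n + 1 : ℕ) : ℝ)) := by
    push_cast
    field_simp
    ring
  rw [h3] at h1
  rw [h4] at h2
  have h5 : 0 ≤ 1 / ((n + 1 : ℕ) : ℝ) := by positivity
  refine ⟨by linarith, h1, by linarith⟩

/-- Stirling's formula -/
theorem p15_fac (N : ℕ) (hN : 1 ≤ N) :
    0 ≤ ∑ n ∈ Icc 1 N, Real.log n - (N * Real.log N - N) ∧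
      ∑ n ∈ Icc 1 N, Real.log n - (N * Real.log N - N) ≤ 1 + Real.log N := by
  induction N, hN using Nat.le_induction with
  | base => simp
  | succ N hN ih =>
    obtain ⟨h1, h2, h3⟩ := p15_log N hN
    have hn0 : (0 : ℝ) < N := by exact_mod_cast hN
    rw [sum_Icc_succ_top (by omega)]
    have h4 : ∑ n ∈ Icc 1 N, Real.log n + Real.log ((N + 1 : ℕ) : ℝ) -
        (((N + 1 : ℕ) : ℝ) * Real.log ((N + 1 : ℕ) : ℝ) - ((N + 1 : ℕ) : ℝ)) =
        (∑ n ∈ Icc 1 N, Real.log n - (N * Real.log N - N)) +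
          (1 - N * (Real.log ((N + 1 : ℕ) : ℝ) - Real.log N)) := by
      push_cast
      ring
    rw [h4]
    have h5 : N * (Real.log ((N + 1 : ℕ) : ℝ) - Real.log N) ≤ 1 := by
      calc N * (Real.log ((N + 1 : ℕ) : ℝ) - Real.log N) ≤ N * (1 / N) :=
            mul_le_mul_of_nonneg_left h2 hn0.le
        _ = 1 := by field_simp
    have h6 : 1 - N * (Real.log ((N + 1 : ℕ) : ℝ) - Real.log N) ≤
        Real.log ((N + 1 : ℕ) : ℝ) - Real.log N := by
      have : 1 ≤ ((N + 1 : ℕ) : ℝ) * (Real.log ((N + 1 : ℕ) : ℝ) - Real.log N) := by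
        calc (1 : ℝ) = ((N + 1 : ℕ) : ℝ) * (1 / ((N + 1 : ℕ) : ℝ)) := by field_simp
          _ ≤ _ := mul_le_mul_of_nonneg_left h3 (by positivity)
      push_cast at this ⊢
      linarith
    constructor <;> linarith [ih.1, ih.2]

/-- the sum of `Λ(n) log n` -/
theorem p15_T (η : ℝ) (hη : 0 < η) : ∃ N0 : ℕ, ∀ N ≥ N0,
    |∑ n ∈ Icc 1 N, ArithmeticFunction.vonMangoldt n * Real.log n - (N * Real.log N - N)| ≤
      η * N := by
  obtain ⟨C, hC, hpnt⟩ := Pool.Agent.HC.pnt_strong_pr 2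
  have hE : ∀ n : ℕ, 2 ≤ n → |p15_E n| ≤ C * n / Real.log n ^ 2 := by
    intro n hn
    have h := hpnt n (by exact_mod_cast hn)
    unfold Pool.Agent.HC.psi at h
    rw [Nat.floor_natCast] at h
    exact h
  have hlog : Filter.Tendsto (fun n : ℕ => Real.log n) Filter.atTop Filter.atTop :=
    Real.tendsto_log_atTop.comp tendsto_natCast_atTop_atTop
  obtain ⟨n0, hn0⟩ := Filter.eventually_atTop.1
    (hlog.eventually_ge_atTop (max 1 (max (8 * C / η) (8 * C / η))))
  set C0 : ℝ := ∑ n ∈ range (n0 + 2), |p15_E n| with hC0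
  have hC00 : 0 ≤ C0 := sum_nonneg fun _ _ => abs_nonneg _
  have h1 : ∀ᶠ N : ℕ in Filter.atTop, C0 + 1 ≤ η / 4 * N :=
    (tendsto_natCast_atTop_atTop.const_mul_atTop (by positivity)).eventually_ge_atTop _
  have h2 : ∀ᶠ N : ℕ in Filter.atTop, (4 / η) * Real.log N ^ 1 ≤ (N : ℝ) ^ (1 : ℝ) :=
    ev_nat 1 1 (4 / η) one_pos (by positivity)
  obtain ⟨N1, hN1⟩ := Filter.eventually_atTop.1 (h1.and h2)
  refine ⟨max N1 (n0 + 2), fun N hN => ?_⟩
  obtain ⟨h3, h4⟩ := hN1 N (le_trans (le_max_left _ _) hN)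
  have hNn : n0 + 2 ≤ N := le_trans (le_max_right _ _) hN
  rw [pow_one, Real.rpow_one] at h4
  have hNr : (0 : ℝ) < N := by exact_mod_cast (by omega : 0 < N)
  have h5 := p15_fac N (by omega)
  have h6 := p15_abel N
  have h7 : ∑ n ∈ Icc 1 N, (ArithmeticFunction.vonMangoldt n - 1) * Real.log n =
      ∑ n ∈ Icc 1 N, ArithmeticFunction.vonMangoldt n * Real.log n -
        ∑ n ∈ Icc 1 N, Real.log n := by
    rw [← sum_sub_distrib]
    exact sum_congr rfl fun n _ => by ring
  have hbig : ∀ n : ℕ, n0 ≤ n → 2 ≤ n → |p15_E n| ≤ η / 8 * n / Real.log n := by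
    intro n hn hn2
    have h8 := hn0 n hn
    have hl1 : 1 ≤ Real.log n := (le_max_left _ _).trans h8
    have hl2 : 8 * C / η ≤ Real.log n := ((le_max_left _ _).trans (le_max_right _ _)).trans h8
    refine (hE n hn2).trans ?_
    rw [div_le_div_iff₀ (by positivity) (by positivity)]
    have h9 : C ≤ η / 8 * Real.log n := by
      rw [div_le_iff₀ hη] at hl2
      linarith
    calc C * n * Real.log n ≤ (η / 8 * Real.log n) * n * Real.log n := by gcongr
      _ = η / 8 * n * Real.log n ^ 2 := by ring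
  have h8 : |p15_E N * Real.log N| ≤ η / 8 * N := by
    have hl1 : 1 ≤ Real.log N := (le_max_left _ _).trans (hn0 N (by omega))
    rw [abs_mul, abs_of_pos (by linarith : 0 < Real.log N)]
    calc |p15_E N| * Real.log N ≤ (η / 8 * N / Real.log N) * Real.log N := by
          gcongr
          exact hbig N (by omega) (by omega)
      _ = η / 8 * N := by field_simp
  have h9 : |∑ n ∈ range N, p15_E n * (Real.log ((n + 1 : ℕ) : ℝ) - Real.log n)| ≤
      C0 + η / 8 * N := by
    refine (abs_sum_le_sum_abs _ _).trans ?_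
    have h10 : ∀ n ∈ range N, |p15_E n * (Real.log ((n + 1 : ℕ) : ℝ) - Real.log n)| ≤
        (if n < n0 + 2 then |p15_E n| else 0) + η / 8 := by
      intro n _
      rcases Nat.eq_zero_or_pos n with hz | hp
      · subst hz
        simp only [p15_E]
        simp
        positivity
      obtain ⟨ha, hb, -⟩ := p15_log n hp
      have hp' : (1 : ℝ) ≤ n := by exact_mod_cast hp
      rw [abs_mul, abs_of_nonneg ha]
      split_ifs with hc
      · have : |p15_E n| * (Real.log ((n + 1 : ℕ) : ℝ) - Real.log n) ≤ |p15_E n| * 1 := by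
          refine mul_le_mul_of_nonneg_left (hb.trans ?_) (abs_nonneg _)
          rw [div_le_one (by linarith)]
          exact hp'
        linarith
      · have hl1 : 1 ≤ Real.log n := (le_max_left _ _).trans (hn0 n (by omega))
        have h11 := hbig n (by omega) (by omega)
        have h12 : |p15_E n| ≤ η / 8 * n := by
          refine h11.trans ?_
          rw [div_le_iff₀ (by linarith)]
          nlinarith [mul_nonneg (mul_nonneg (by positivity : 0 ≤ η / 8) (by linarith : (0:ℝ) ≤ n))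
            (by linarith : 0 ≤ Real.log n - 1)]
        calc |p15_E n| * (Real.log ((n + 1 : ℕ) : ℝ) - Real.log n) ≤ (η / 8 * n) * (1 / n) :=
              mul_le_mul h12 hb ha (by positivity)
          _ = 0 + η / 8 := by field_simp; ring
    refine (sum_le_sum h10).trans ?_
    rw [sum_add_distrib, sum_const, card_range, nsmul_eq_mul]
    have h11 : ∑ n ∈ range N, (if n < n0 + 2 then |p15_E n| else 0) ≤ C0 := by
      rw [← sum_filter]
      refine sum_le_sum_of_subset_of_nonneg (fun n hn => ?_) fun _ _ _ => abs_nonneg _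
      rw [mem_filter] at hn
      rw [mem_range]
      exact hn.2
    linarith
  have h10 : Real.log N ≤ η / 4 * N := by
    have : Real.log N = (η / 4) * ((4 / η) * Real.log N) := by field_simp
    rw [this]
    exact mul_le_mul_of_nonneg_left h4 (by positivity)
  have h11 : ∑ n ∈ Icc 1 N, ArithmeticFunction.vonMangoldt n * Real.log n -
      (N * Real.log N - N) = (p15_E N * Real.log N -
        ∑ n ∈ range N, p15_E n * (Real.log ((n + 1 : ℕ) : ℝ) - Real.log n)) +
        (∑ n ∈ Icc 1 N, Real.log n - (N * Real.log N - N)) := by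
    rw [← h6, h7]
    ring
  rw [h11]
  refine (abs_add_le _ _).trans ?_
  have h12 := abs_sub (p15_E N * Real.log N)
    (∑ n ∈ range N, p15_E n * (Real.log ((n + 1 : ℕ) : ℝ) - Real.log n))
  rw [abs_of_nonneg h5.1]
  linarith [h5.2]

/-- the prime powers and the small primes -/
theorem p15_diff : ∃ C : ℝ, 0 < C ∧ ∀ N : ℕ, 1 ≤ N →
    |A2 N - ∑ n ∈ Icc 1 N, ArithmeticFunction.vonMangoldt n * Real.log n| ≤
      C * Real.sqrt N * Real.log N := by
  obtain ⟨C, hC⟩ := Chebyshev.psi_sub_theta_le_mul_sqrt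
  refine ⟨|C| + Real.log 4 + 1, by positivity, fun N hN => ?_⟩
  have hN1 : (1 : ℝ) ≤ N := by exact_mod_cast hN
  have hl0 : 0 ≤ Real.log N := Real.log_nonneg hN1
  set a : ℕ → ℝ := fun n => ArithmeticFunction.vonMangoldt n - (if n.Prime then Real.log n else 0)
    with ha
  set b : ℕ → ℝ := fun n => if n.Prime ∧ n ≤ Nat.sqrt N then Real.log n else 0 with hb
  have hterm : ∀ n ∈ Icc 1 N, |aS N n ^ 2 - ArithmeticFunction.vonMangoldt n * Real.log n| ≤
      (a n + b n) * Real.log N := by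
    intro n hn
    rw [mem_Icc] at hn
    have hn1 : (1 : ℝ) ≤ n := by exact_mod_cast hn.1
    have hln : 0 ≤ Real.log n := Real.log_nonneg hn1
    have hlnN : Real.log n ≤ Real.log N := Real.log_le_log (by linarith) (by exact_mod_cast hn.2)
    have hL : 0 ≤ ArithmeticFunction.vonMangoldt n := ArithmeticFunction.vonMangoldt_nonneg
    simp only [ha, hb, aS]
    by_cases hp : n.Prime
    · rw [ArithmeticFunction.vonMangoldt_apply_prime hp]
      by_cases hs : Nat.sqrt N < n
      · rw [if_pos ⟨hp, hs⟩, if_pos hp, if_neg (fun h => absurd h.2 (by omega))]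
        have : Real.log n ^ 2 - Real.log n * Real.log n = 0 := by ring
        rw [this, abs_zero, sub_self, zero_add, zero_mul]
      · rw [if_neg (fun h => hs h.2), if_pos hp, if_pos ⟨hp, by omega⟩]
        have : (0 : ℝ) ^ 2 - Real.log n * Real.log n = -(Real.log n * Real.log n) := by ring
        rw [this, abs_neg, abs_of_nonneg (mul_nonneg hln hln), sub_self, zero_add]
        exact mul_le_mul_of_nonneg_left hlnN hln
    · rw [if_neg (fun h => hp h.1), if_neg hp, if_neg (fun h => hp h.1)]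
      have : (0 : ℝ) ^ 2 - ArithmeticFunction.vonMangoldt n * Real.log n =
          -(ArithmeticFunction.vonMangoldt n * Real.log n) := by ring
      rw [this, abs_neg, abs_of_nonneg (mul_nonneg hL hln), sub_zero, add_zero]
      exact mul_le_mul_of_nonneg_left hlnN hL
  unfold A2
  rw [← sum_sub_distrib]
  refine (abs_sum_le_sum_abs _ _).trans ((sum_le_sum hterm).trans ?_)
  rw [← sum_mul]
  refine mul_le_mul_of_nonneg_right ?_ hl0
  rw [sum_add_distrib]
  have h1 : ∑ n ∈ Icc 1 N, a n ≤ C * Real.sqrt N := by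
    have h2 := hC N
    unfold Chebyshev.psi Chebyshev.theta at h2
    rw [Nat.floor_natCast, ← Icc_eq_Ioc, sum_filter, ← sum_sub_distrib] at h2
    exact h2
  have h2 : ∑ n ∈ Icc 1 N, b n ≤ Real.log 4 * Real.sqrt N := by
    have h3 : ∑ n ∈ Icc 1 N, b n ≤ Chebyshev.theta (Nat.sqrt N : ℝ) := by
      unfold Chebyshev.theta
      rw [Nat.floor_natCast, hb]
      simp only
      rw [← sum_filter]
      refine sum_le_sum_of_subset_of_nonneg (fun n hn => ?_) fun n hn _ => ?_
      · rw [mem_filter, mem_Icc] at hn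
        rw [mem_filter, mem_Ioc]
        exact ⟨⟨by omega, hn.2.2⟩, hn.2.1⟩
      · rw [mem_filter, mem_Ioc] at hn
        exact Real.log_nonneg (by exact_mod_cast hn.1.1)
    have h4 : Chebyshev.theta (Nat.sqrt N : ℝ) ≤ Real.log 4 * (Nat.sqrt N : ℝ) :=
      Chebyshev.theta_le_log4_mul_x (Nat.cast_nonneg _)
    have h5 : (Nat.sqrt N : ℝ) ≤ Real.sqrt N := Real.nat_sqrt_le_real_sqrt
    have h6 : 0 ≤ Real.log 4 := Real.log_nonneg (by norm_num)
    exact h3.trans (h4.trans (mul_le_mul_of_nonneg_left h5 h6))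
  have h3 : C * Real.sqrt N ≤ |C| * Real.sqrt N :=
    mul_le_mul_of_nonneg_right (le_abs_self C) (Real.sqrt_nonneg _)
  have h4 : 0 ≤ Real.sqrt N := Real.sqrt_nonneg _
  linarith

theorem W15_pr : W15 := by
  intro η hη
  obtain ⟨N0, h0⟩ := p15_T (η / 2) (by positivity)
  obtain ⟨C, hC, h1⟩ := p15_diff
  have h2 : ∀ᶠ N : ℕ in Filter.atTop, (2 * C / η) * Real.log N ^ 1 ≤ (N : ℝ) ^ (1 / 2 : ℝ) :=
    ev_nat 1 (1 / 2) (2 * C / η) (by norm_num) (by positivity)
  obtain ⟨N1, hN1⟩ := Filter.eventually_atTop.1 h2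
  refine ⟨max (max N0 N1) 1, fun N hN => ?_⟩
  have hN0 : N0 ≤ N := ((le_max_left _ _).trans (le_max_left _ _)).trans hN
  have hN1' : N1 ≤ N := ((le_max_right _ _).trans (le_max_left _ _)).trans hN
  have hN2 : 1 ≤ N := (le_max_right _ _).trans hN
  have h3 := h0 N hN0
  have h4 := h1 N hN2
  have h5 := hN1 N hN1'
  rw [pow_one, ← Real.sqrt_eq_rpow] at h5
  have h6 : C * Real.sqrt N * Real.log N ≤ η / 2 * N := by
    have h7 : Real.sqrt N * Real.sqrt N = N := Real.mul_self_sqrt (Nat.cast_nonneg _)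
    calc C * Real.sqrt N * Real.log N = (η / 2) * Real.sqrt N * ((2 * C / η) * Real.log N) := by
          field_simp
      _ ≤ (η / 2) * Real.sqrt N * Real.sqrt N := by
          exact mul_le_mul_of_nonneg_left h5 (by positivity)
      _ = η / 2 * N := by rw [mul_assoc, h7]
  have h7 := abs_sub_le (A2 N) (∑ n ∈ Icc 1 N, ArithmeticFunction.vonMangoldt n * Real.log n)
    (N * Real.log N - N)
  linarith

end Pool.Agent.FGP
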