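import Pool.Agent.Lib_helper3.FGP.Wanted

/-!
# FGP: block P16 (mean square of `fh + gh`, value at zero)
-/

set_option autoImplicit false

namespace Pool.Agent.FGP

open Finset Pool.Agent.Var35 Pool.Agent.Var73 Pool.Agent.PV
open scoped ArithmeticFunction ArithmeticFunction.Moebius

theorem p16_aS_nonneg (N n : ℕ) : 0 ≤ aS N n := by
  unfold aS
  split_ifs with h
  · exact Real.log_nonneg (by exact_mod_cast h.1.one_lt.le)
  · exact le_rfl

theorem p16_sum_aS (N : ℕ) : ∑ n ∈ Icc 1 N, aS N n ≤ 2 * N := by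
  have h1 : ∑ n ∈ Icc 1 N, aS N n ≤ ∑ n ∈ Icc 1 N, (if n.Prime then Real.log n else 0) := by
    refine sum_le_sum fun n _ => ?_
    unfold aS
    by_cases h : n.Prime
    · rw [if_pos h]
      split_ifs
      · exact le_rfl
      · exact Real.log_nonneg (by exact_mod_cast h.one_lt.le)
    · rw [if_neg h, if_neg (fun hh => h hh.1)]
  have h2 : ∑ n ∈ Icc 1 N, (if n.Prime then Real.log n else 0) = Chebyshev.theta (N : ℝ) := by
    have hI : Ioc 0 N = Icc 1 N := by ext x; simp only [mem_Ioc, mem_Icc]; omega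
    rw [Chebyshev.theta, Nat.floor_natCast, hI, sum_filter]
  have h3 := Chebyshev.theta_le_log4_mul_x (x := (N : ℝ)) (by positivity)
  have h4 : Real.log 4 ≤ 2 := by
    have : Real.log 4 = 2 * Real.log 2 := by
      rw [show (4 : ℝ) = 2 ^ 2 by norm_num, Real.log_pow]; norm_num
    rw [this]
    linarith [Real.log_two_lt_d9]
  have h5 : (0 : ℝ) ≤ N := by positivity
  nlinarith

theorem p16_A2 (N : ℕ) (hN : 1 ≤ N) : A2 N ≤ 2 * (N * Real.log N) := by
  have hL : 0 ≤ Real.log N := Real.log_nonneg (by exact_mod_cast hN)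
  calc A2 N ≤ ∑ n ∈ Icc 1 N, Real.log N * aS N n := by
        unfold A2
        refine sum_le_sum fun n hn => ?_
        obtain ⟨hn1, hn2⟩ := mem_Icc.1 hn
        have h0 := p16_aS_nonneg N n
        have h1 : aS N n ≤ Real.log N := by
          unfold aS
          split_ifs
          · exact Real.log_le_log (by exact_mod_cast hn1) (by exact_mod_cast hn2)
          · exact hL
        rw [sq]
        exact mul_le_mul_of_nonneg_right h1 h0
    _ = Real.log N * ∑ n ∈ Icc 1 N, aS N n := by rw [mul_sum]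
    _ ≤ Real.log N * (2 * N) := mul_le_mul_of_nonneg_left (p16_sum_aS N) hL
    _ = 2 * (N * Real.log N) := by ring

/-- `Ps = fh + gh + Fh` -/
theorem p16_dec (N K : ℕ) (t : ℝ) : Ps N t = fh N K t + gh N K t + Fh N K t := by
  have h1 : Fh N K t = ((Wt N K t : ℝ) : ℂ) * Ps N t - gh N K t := by
    unfold Fh gh Wt Xc
    push_cast
    rw [sum_mul, ← sum_sub_distrib]
    refine sum_congr rfl fun r _ => ?_
    rw [sum_mul, ← sum_sub_distrib]
    refine sum_congr rfl fun c _ => ?_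
    ring
  rw [h1]
  unfold fh
  push_cast
  ring

theorem p16_pt (a b : ℂ) : |‖a - b‖ ^ 2 - ‖a‖ ^ 2| ≤ 2 * (‖a‖ * ‖b‖) + ‖b‖ ^ 2 := by
  have h1 : |‖a - b‖ - ‖a‖| ≤ ‖b‖ := by
    have := abs_norm_sub_norm_le (a - b) a
    have h2 : a - b - a = -b := by ring
    rw [h2, norm_neg] at this
    exact this
  have h3 : ‖a - b‖ ≤ ‖a‖ + ‖b‖ := norm_sub_le a b
  have h4 : ‖a - b‖ ^ 2 - ‖a‖ ^ 2 = (‖a - b‖ - ‖a‖) * (‖a - b‖ + ‖a‖) := by ring
  rw [h4, abs_mul, abs_of_nonneg (by positivity : (0 : ℝ) ≤ ‖a - b‖ + ‖a‖)]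
  calc |‖a - b‖ - ‖a‖| * (‖a - b‖ + ‖a‖) ≤ ‖b‖ * (‖a‖ + ‖b‖ + ‖a‖) :=
        mul_le_mul h1 (by linarith) (by positivity) (norm_nonneg _)
    _ = 2 * (‖a‖ * ‖b‖) + ‖b‖ ^ 2 := by ring

theorem p16_cs (M : ℕ) (P R : ℝ → ℂ) :
    mean M (range M) (fun t => ‖P t‖ * ‖R t‖) ≤ Real.sqrt (ms M P * ms M R) := by
  unfold ms mean
  have h1 : (∑ j ∈ range M, ‖P (j / M)‖ * ‖R (j / M)‖) ^ 2 ≤
      (∑ j ∈ range M, ‖P (j / M)‖ ^ 2) * ∑ j ∈ range M, ‖R (j / M)‖ ^ 2 :=
    sum_mul_sq_le_sq_mul_sq _ _ _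
  refine Real.le_sqrt_of_sq_le ?_
  have h0 : (0 : ℝ) ≤ (1 / (M : ℝ)) ^ 2 := by positivity
  calc (1 / (M : ℝ) * ∑ j ∈ range M, ‖P (j / M)‖ * ‖R (j / M)‖) ^ 2 =
        (1 / (M : ℝ)) ^ 2 * (∑ j ∈ range M, ‖P (j / M)‖ * ‖R (j / M)‖) ^ 2 := by ring
    _ ≤ (1 / (M : ℝ)) ^ 2 * ((∑ j ∈ range M, ‖P (j / M)‖ ^ 2) * ∑ j ∈ range M, ‖R (j / M)‖ ^ 2) :=
        mul_le_mul_of_nonneg_left h1 h0
    _ = _ := by ring

theorem p16_EE_nonneg (N K : ℕ) : 0 ≤ EE N K := by
  unfold EE En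
  exact sum_nonneg fun n _ => add_nonneg
    (sum_nonneg fun q _ => sum_nonneg fun ψ _ => sq_nonneg _) (sq_nonneg _)

theorem W16_pr (h1 : W01) (h4 : W04) (h7 : W07b) : W16 := by
  obtain ⟨C, hC, K0, hK0⟩ := h7
  refine ⟨2 * Real.sqrt (2 * C) + C, by positivity, max K0 10, ?_⟩
  intro K hK N hR M hG hEE
  have hK' : K0 ≤ K := le_trans (le_max_left _ _) hK
  have hN1 : 3 ≤ N := by
    have h10 : 10 ≤ K := hR.hK
    calc 3 ≤ 10 := by norm_num
      _ ≤ K := h10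
      _ ≤ K ^ 400 := Nat.le_self_pow (by norm_num) K
      _ ≤ N := hR.hN
  set L : ℝ := Real.log N with hL
  have hL1 : 1 ≤ L := by
    rw [hL, Real.le_log_iff_exp_le (by positivity)]
    have h3 : (3 : ℝ) ≤ N := by exact_mod_cast hN1
    linarith [Real.exp_one_lt_d9]
  have hE0 := p16_EE_nonneg N K
  have hNr : (0 : ℝ) ≤ N := by positivity
  have hF := hK0 K hK' N hR M hG
  have hM4 : 4 * N < M := by have := hG.1; omega
  have hP : ms M (Ps N) = A2 N := CSA_pars N M hM4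
  have hdec : ∀ t, fh N K t + gh N K t = Ps N t - Fh N K t := fun t => by
    rw [p16_dec N K t]; ring
  have hFnn : 0 ≤ ms M (Fh N K) := by
    unfold ms mean
    exact mul_nonneg (by positivity) (sum_nonneg fun _ _ => sq_nonneg _)
  have key : |ms M (fun t => fh N K t + gh N K t) - ms M (Ps N)| ≤
      2 * mean M (range M) (fun t => ‖Ps N t‖ * ‖Fh N K t‖) + ms M (Fh N K) := by
    simp_rw [hdec]
    unfold ms mean
    rw [← mul_sub, ← sum_sub_distrib, abs_mul, abs_of_nonneg (by positivity : (0:ℝ) ≤ 1 / (M : ℝ))]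
    calc 1 / (M : ℝ) * |∑ j ∈ range M, (‖Ps N (j / M) - Fh N K (j / M)‖ ^ 2 - ‖Ps N (j / M)‖ ^ 2)|
        ≤ 1 / (M : ℝ) * ∑ j ∈ range M, (2 * (‖Ps N (j / M)‖ * ‖Fh N K (j / M)‖) +
          ‖Fh N K (j / M)‖ ^ 2) := by
          refine mul_le_mul_of_nonneg_left ?_ (by positivity)
          exact (abs_sum_le_sum_abs _ _).trans (sum_le_sum fun j _ => p16_pt _ _)
      _ = _ := by
          rw [sum_add_distrib, ← mul_sum]
          ring
  rw [← hP]
  refine key.trans ?_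
  have hcs := p16_cs M (Ps N) (Fh N K)
  have hs1 : Real.sqrt (ms M (Ps N) * ms M (Fh N K)) ≤
      Real.sqrt (2 * C) * (L * Real.sqrt (N * EE N K)) := by
    rw [hP]
    have hA : A2 N ≤ 2 * (N * L) := p16_A2 N (by omega)
    have hA0 := CSA_A2_nonneg N
    have : A2 N * ms M (Fh N K) ≤ (2 * C) * (L ^ 2 * (N * EE N K)) := by
      calc A2 N * ms M (Fh N K) ≤ (2 * (N * L)) * (C * L * EE N K) :=
            mul_le_mul hA hF hFnn (by positivity)
        _ = _ := by ring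
    calc Real.sqrt (A2 N * ms M (Fh N K)) ≤ Real.sqrt ((2 * C) * (L ^ 2 * (N * EE N K))) :=
          Real.sqrt_le_sqrt this
      _ = Real.sqrt (2 * C) * (L * Real.sqrt (N * EE N K)) := by
          rw [Real.sqrt_mul (by positivity : (0 : ℝ) ≤ 2 * C), Real.sqrt_mul (sq_nonneg L),
            Real.sqrt_sq (by linarith)]
  have hs2 : EE N K ≤ Real.sqrt (N * EE N K) := by
    refine Real.le_sqrt_of_sq_le ?_
    nlinarith
  have hs3 : ms M (Fh N K) ≤ C * (L * Real.sqrt (N * EE N K)) := by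
    calc ms M (Fh N K) ≤ C * L * EE N K := hF
      _ ≤ C * L * Real.sqrt (N * EE N K) := mul_le_mul_of_nonneg_left hs2 (by positivity)
      _ = _ := by ring
  calc 2 * mean M (range M) (fun t => ‖Ps N t‖ * ‖Fh N K t‖) + ms M (Fh N K)
      ≤ 2 * (Real.sqrt (2 * C) * (L * Real.sqrt (N * EE N K))) +
        C * (L * Real.sqrt (N * EE N K)) := by linarith [hcs.trans hs1]
    _ = (2 * Real.sqrt (2 * C) + C) * L * Real.sqrt (N * EE N K) := by ring

/-! ## The value at zero -/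

theorem p16_e_zero_sum (N : ℕ) : In N 0 = N := by
  unfold In
  simp [e_zero]

theorem p16_In_le (N : ℕ) (b : ℝ) : ‖In N b‖ ≤ N := by
  unfold In
  refine (norm_sum_le _ _).trans ?_
  simp [norm_e]

theorem p16_mr_le (r : ℕ) : |mr r| ≤ 1 := by
  unfold mr
  rcases Nat.eq_zero_or_pos r with h | h
  · simp [h]
  · rw [abs_div]
    have h1 : |((μ r : ℤ) : ℝ)| ≤ 1 := by
      have := ArithmeticFunction.abs_moebius_le_one (n := r)
      exact_mod_cast this
    have h2 : (1 : ℝ) ≤ |(Nat.totient r : ℝ)| := by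
      rw [abs_of_nonneg (by positivity)]
      exact_mod_cast Nat.totient_pos.2 h
    exact div_le_one_of_le₀ (h1.trans h2) (abs_nonneg _)

/-- distance to the integers of a fraction -/
theorem p16_nn (K r c : ℕ) (hr : 1 ≤ r) (hrK : r ≤ K) (hc : c ∈ Cd r) (h0 : ¬ (r = 1)) :
    1 / (K : ℝ) ≤ nn (0 - c / r) := by
  have hcr : c < r ∧ Nat.Coprime c r := by
    unfold Cd at hc
    simpa using hc
  have hr2 : 2 ≤ r := by omega
  have hc0 : 1 ≤ c := by
    rcases Nat.eq_zero_or_pos c with h | h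
    · subst h
      have := hcr.2
      rw [Nat.coprime_zero_left] at this
      omega
    · exact h
  have hrpos : (0 : ℝ) < r := by positivity
  unfold nn
  set m : ℤ := round ((0 : ℝ) - c / r) with hm
  have e1 : (0 : ℝ) - c / r - m = -(((c : ℤ) + m * r : ℤ) : ℝ) / r := by
    push_cast
    field_simp
    ring
  rw [e1, abs_div, abs_neg, abs_of_pos hrpos]
  have h2 : (c : ℤ) + m * r ≠ 0 := by
    intro h
    have hd : (r : ℤ) ∣ (c : ℤ) := ⟨-m, by linarith⟩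
    have hd' : r ∣ c := by exact_mod_cast hd
    have := Nat.le_of_dvd (by omega) hd'
    omega
  have h3 : (1 : ℝ) ≤ |(((c : ℤ) + m * r : ℤ) : ℝ)| := by
    have := Int.one_le_abs h2
    exact_mod_cast this
  calc 1 / (K : ℝ) ≤ 1 / r := by
        apply one_div_le_one_div_of_le hrpos
        exact_mod_cast hrK
    _ ≤ _ := by gcongr

theorem W17_pr (h1 : W01) (h4 : W04) (h7 : W07b) : W17 := by
  obtain ⟨C, hC, K0, hK0⟩ := h1
  -- all the other fractions contribute at most `δ` each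
  refine ⟨(9 * C ^ 2) * (2 + 9 * C ^ 2), by positivity, max K0 10, ?_⟩
  intro K hK N hR
  have hK' : K0 ≤ K := le_trans (le_max_left _ _) hK
  obtain ⟨-, hsum, hvle, -, hdec⟩ := hK0 K hK' N hR
  have h10 : 10 ≤ K := hR.hK
  have hKr : (10 : ℝ) ≤ K := by exact_mod_cast h10
  have hK0' : (0 : ℝ) < K := by linarith
  have hNr : (K : ℝ) ^ 400 ≤ N := by exact_mod_cast hR.hN
  have hN0 : (0 : ℝ) ≤ N := by positivity
  have hH : (K : ℝ) ^ 392 ≤ Hw N K := by
    unfold Hw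
    rw [le_div_iff₀ (by positivity)]
    calc (K : ℝ) ^ 392 * (K : ℝ) ^ 8 = (K : ℝ) ^ 400 := by ring
      _ ≤ (N : ℝ) := hNr
  have hv0 : vh N K 0 = 1 := by
    unfold vh
    rw [← hsum]
    refine sum_congr rfl fun m _ => ?_
    simp
  -- the other fractions
  have hother : ∀ r ∈ Icc 1 K, r ≠ 1 → ∀ c ∈ Cd r,
      vh N K (0 - c / r) ^ 2 ≤ C ^ 2 / (K : ℝ) ^ 20 := by
    intro r hr h0 c hc
    rw [mem_Icc] at hr
    have h2 := p16_nn K r c hr.1 hr.2 hc h0
    have h3 := hdec (0 - c / r)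
    have h5 : (K : ℝ) ^ 5 ≤ Hw N K * nn (0 - c / r) := by
      calc (K : ℝ) ^ 5 ≤ (K : ℝ) ^ 391 := pow_le_pow_right₀ (by linarith) (by norm_num)
        _ = (K : ℝ) ^ 392 * (1 / (K : ℝ)) := by field_simp
        _ ≤ Hw N K * nn (0 - c / r) := mul_le_mul hH h2 (by positivity) (by
            unfold Hw; positivity)
    have h6 : (K : ℝ) ^ 10 ≤ (Hw N K * nn (0 - c / r)) ^ 2 := by
      calc (K : ℝ) ^ 10 = ((K : ℝ) ^ 5) ^ 2 := by ring
        _ ≤ _ := pow_le_pow_left₀ (by positivity) h5 2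
    have h7 : |vh N K (0 - c / r)| * (K : ℝ) ^ 10 ≤ C :=
      (mul_le_mul_of_nonneg_left h6 (abs_nonneg _)).trans h3
    have h8 : |vh N K (0 - c / r)| ≤ C / (K : ℝ) ^ 10 := by
      rw [le_div_iff₀ (by positivity)]
      exact h7
    calc vh N K (0 - c / r) ^ 2 = |vh N K (0 - c / r)| ^ 2 := (sq_abs _).symm
      _ ≤ (C / (K : ℝ) ^ 10) ^ 2 := pow_le_pow_left₀ (abs_nonneg _) h8 2
      _ = C ^ 2 / (K : ℝ) ^ 20 := by rw [div_pow]; ring
  -- the sums
  have hCd1 : Cd 1 = {0} := by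
    unfold Cd
    decide
  have h1mem : 1 ∈ Icc 1 K := by rw [mem_Icc]; omega
  have hcount : ∀ r ∈ (Icc 1 K).erase 1, ((Cd r).card : ℝ) ≤ K := by
    intro r hr
    rw [mem_erase, mem_Icc] at hr
    rw [card_Cd]
    exact_mod_cast (Nat.totient_le r).trans hr.2.2
  set δ : ℝ := C ^ 2 / (K : ℝ) ^ 20 with hδ
  have hδ0 : 0 ≤ δ := by positivity
  have hW : Wt N K 0 = 1 + ∑ r ∈ (Icc 1 K).erase 1, ∑ c ∈ Cd r, vh N K (0 - c / r) ^ 2 := by
    unfold Wt
    rw [← add_sum_erase _ _ h1mem, hCd1]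
    simp [hv0]
  have hW2 : |1 - Wt N K 0| ≤ K ^ 2 * δ := by
    rw [hW]
    have e1 : (1 : ℝ) - (1 + ∑ r ∈ (Icc 1 K).erase 1, ∑ c ∈ Cd r, vh N K (0 - c / r) ^ 2) =
        -∑ r ∈ (Icc 1 K).erase 1, ∑ c ∈ Cd r, vh N K (0 - c / r) ^ 2 := by ring
    rw [e1, abs_neg, abs_of_nonneg (sum_nonneg fun _ _ => sum_nonneg fun _ _ => sq_nonneg _)]
    calc ∑ r ∈ (Icc 1 K).erase 1, ∑ c ∈ Cd r, vh N K (0 - c / r) ^ 2
        ≤ ∑ r ∈ (Icc 1 K).erase 1, (K : ℝ) * δ := by
          refine sum_le_sum fun r hr => ?_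
          have hr' := hr
          rw [mem_erase] at hr'
          calc ∑ c ∈ Cd r, vh N K (0 - c / r) ^ 2 ≤ ∑ c ∈ Cd r, δ :=
                sum_le_sum fun c hc => hother r hr'.2 hr'.1 c hc
            _ = (Cd r).card * δ := by rw [sum_const, nsmul_eq_mul]
            _ ≤ K * δ := mul_le_mul_of_nonneg_right (hcount r hr) hδ0
      _ = (((Icc 1 K).erase 1).card : ℝ) * (K * δ) := by rw [sum_const, nsmul_eq_mul]
      _ ≤ K * (K * δ) := by
          refine mul_le_mul_of_nonneg_right ?_ (by positivity)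
          rw [card_erase_of_mem h1mem, Nat.card_Icc]
          exact_mod_cast (by omega : K + 1 - 1 - 1 ≤ K)
      _ = K ^ 2 * δ := by ring
  have hg : ‖gh N K 0 - N‖ ≤ K ^ 2 * δ * N := by
    have e1 : gh N K 0 - N = ∑ r ∈ (Icc 1 K).erase 1, ∑ c ∈ Cd r,
        ((mr r * vh N K (0 - c / r) ^ 2 : ℝ) : ℂ) * In N (0 - c / r) := by
      unfold gh
      rw [← add_sum_erase _ _ h1mem, hCd1]
      have hm1 : mr 1 = 1 := by simp [mr]
      simp [hv0, hm1, p16_e_zero_sum]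
    rw [e1]
    calc ‖∑ r ∈ (Icc 1 K).erase 1, ∑ c ∈ Cd r,
        ((mr r * vh N K (0 - c / r) ^ 2 : ℝ) : ℂ) * In N (0 - c / r)‖
        ≤ ∑ r ∈ (Icc 1 K).erase 1, (K : ℝ) * (δ * N) := by
          refine (norm_sum_le _ _).trans (sum_le_sum fun r hr => ?_)
          have hr' := hr
          rw [mem_erase] at hr'
          calc ‖∑ c ∈ Cd r, ((mr r * vh N K (0 - c / r) ^ 2 : ℝ) : ℂ) * In N (0 - c / r)‖
              ≤ ∑ c ∈ Cd r, δ * N := by
                refine (norm_sum_le _ _).trans (sum_le_sum fun c hc => ?_)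
                rw [norm_mul, Complex.norm_real, Real.norm_eq_abs, abs_mul,
                  abs_of_nonneg (sq_nonneg (vh N K (0 - c / r)))]
                refine mul_le_mul ?_ (p16_In_le _ _) (norm_nonneg _) hδ0
                calc |mr r| * vh N K (0 - c / r) ^ 2 ≤ 1 * δ :=
                      mul_le_mul (p16_mr_le r) (hother r hr'.2 hr'.1 c hc) (sq_nonneg _)
                        zero_le_one
                  _ = δ := one_mul _
            _ = (Cd r).card * (δ * N) := by rw [sum_const, nsmul_eq_mul]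
            _ ≤ K * (δ * N) := mul_le_mul_of_nonneg_right (hcount r hr) (by positivity)
      _ = (((Icc 1 K).erase 1).card : ℝ) * (K * (δ * N)) := by rw [sum_const, nsmul_eq_mul]
      _ ≤ K * (K * (δ * N)) := by
          refine mul_le_mul_of_nonneg_right ?_ (by positivity)
          rw [card_erase_of_mem h1mem, Nat.card_Icc]
          exact_mod_cast (by omega : K + 1 - 1 - 1 ≤ K)
      _ = K ^ 2 * δ * N := by ring
  have hf : ‖fh N K 0‖ ≤ 2 * N * (K ^ 2 * δ) := by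
    unfold fh
    rw [norm_mul, Complex.norm_real, Real.norm_eq_abs]
    refine mul_le_mul ?_ hW2 (abs_nonneg _) (by positivity)
    unfold Ps Bs
    refine (norm_sum_le _ _).trans ?_
    calc ∑ n ∈ Icc 1 N, ‖(aS N n : ℂ) * e (n * 0)‖ = ∑ n ∈ Icc 1 N, aS N n := by
          refine sum_congr rfl fun n _ => ?_
          rw [norm_mul, norm_e, mul_one, Complex.norm_real, Real.norm_eq_abs,
            abs_of_nonneg (p16_aS_nonneg _ _)]
      _ ≤ 2 * N := p16_sum_aS N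
  -- conclusion
  have hs : ‖(fh N K 0 + gh N K 0) - N‖ ≤ 3 * (K ^ 2 * δ) * N := by
    calc ‖(fh N K 0 + gh N K 0) - N‖ = ‖fh N K 0 + (gh N K 0 - N)‖ := by ring_nf
      _ ≤ ‖fh N K 0‖ + ‖gh N K 0 - N‖ := norm_add_le _ _
      _ ≤ 2 * N * (K ^ 2 * δ) + K ^ 2 * δ * N := add_le_add hf hg
      _ = _ := by ring
  set η : ℝ := 3 * (K ^ 2 * δ) with hη
  have hη0 : 0 ≤ η := by positivity
  have hη1 : η ≤ 9 * C ^ 2 / (K : ℝ) ^ 10 := by
    rw [hη, hδ]
    have : (K : ℝ) ^ 2 * (C ^ 2 / K ^ 20) = C ^ 2 / K ^ 18 := by field_simp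
    rw [this]
    have h18 : C ^ 2 / (K : ℝ) ^ 18 ≤ C ^ 2 / (K : ℝ) ^ 10 := by
      apply div_le_div_of_nonneg_left (by positivity) (by positivity)
      exact pow_le_pow_right₀ (by linarith) (by norm_num)
    have h0 : 0 ≤ C ^ 2 / (K : ℝ) ^ 10 := by positivity
    calc 3 * (C ^ 2 / (K : ℝ) ^ 18) ≤ 9 * (C ^ 2 / (K : ℝ) ^ 10) := by linarith
      _ = 9 * C ^ 2 / (K : ℝ) ^ 10 := by ring
  have hη2 : η ≤ 9 * C ^ 2 := by
    refine hη1.trans ?_
    apply div_le_self (by positivity)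
    exact one_le_pow₀ (by linarith)
  have ha : |‖fh N K 0 + gh N K 0‖ - N| ≤ η * N := by
    have h2 := abs_norm_sub_norm_le (fh N K 0 + gh N K 0) (N : ℂ)
    rw [Complex.norm_natCast] at h2
    exact h2.trans hs
  have hb : ‖fh N K 0 + gh N K 0‖ ≤ N + η * N := by
    have := (abs_le.1 ha).2
    linarith
  have e2 : ‖fh N K 0 + gh N K 0‖ ^ 2 - (N : ℝ) ^ 2 =
      (‖fh N K 0 + gh N K 0‖ - N) * (‖fh N K 0 + gh N K 0‖ + N) := by ring
  rw [e2, abs_mul, abs_of_nonneg (by positivity : (0 : ℝ) ≤ ‖fh N K 0 + gh N K 0‖ + N)]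
  calc |‖fh N K 0 + gh N K 0‖ - N| * (‖fh N K 0 + gh N K 0‖ + N)
      ≤ (η * N) * (N + η * N + N) :=
        mul_le_mul ha (by linarith) (by positivity) (by positivity)
    _ = η * (2 + η) * (N : ℝ) ^ 2 := by ring
    _ ≤ (9 * C ^ 2 / (K : ℝ) ^ 10) * (2 + 9 * C ^ 2) * (N : ℝ) ^ 2 := by
        refine mul_le_mul_of_nonneg_right ?_ (by positivity)
        exact mul_le_mul hη1 (by linarith) (by positivity) (by positivity)
    _ = (9 * C ^ 2) * (2 + 9 * C ^ 2) * (N : ℝ) ^ 2 / (K : ℝ) ^ 10 := by ring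

end Pool.Agent.FGP
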