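import Pool.Agent.Lib_helper3.FGP.WantedE
import Pool.Agent.Lib_helper3.FGP.P15
import Pool.Agent.Lib_helper3.FGP.P16

/-! Block E15 of FGP (helper18). -/

set_option autoImplicit false

namespace Pool.Agent.FGP

open Finset Pool.Agent.Var35 Pool.Agent.Var73 Pool.Agent.PV
open scoped ArithmeticFunction ArithmeticFunction.Moebius

/-- the logarithm on the indices of the energy -/
noncomputable def e15_phi (n : ℤ) : ℝ := Real.log ((max n 1 : ℤ) : ℝ)

/-- the indices of the energy -/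
noncomputable def e15_J (N K : ℕ) : Finset ℤ := Icc (1 - (Mw N K : ℤ)) ((N : ℤ) + Mw N K)

/-- `φ * v` -/
noncomputable def e15_Phi (N K p : ℕ) : ℝ := ∑ n ∈ e15_J N K, e15_phi n * vw N K ((p : ℤ) - n)

theorem e15_log {x y a : ℝ} (ha : 0 < a) (hx : a ≤ x) (hy : a ≤ y) :
    |Real.log x - Real.log y| ≤ |x - y| / a := by
  have key : ∀ x y : ℝ, a ≤ x → a ≤ y → Real.log x - Real.log y ≤ |x - y| / a := by
    intro x y hx hy
    have hx0 : 0 < x := lt_of_lt_of_le ha hx
    have hy0 : 0 < y := lt_of_lt_of_le ha hy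
    rw [← Real.log_div hx0.ne' hy0.ne']
    have h1 := Real.log_le_sub_one_of_pos (div_pos hx0 hy0)
    have h2 : x / y - 1 = (x - y) / y := by field_simp
    rw [h2] at h1
    refine h1.trans ?_
    calc (x - y) / y ≤ |x - y| / y := div_le_div_of_nonneg_right (le_abs_self _) hy0.le
      _ ≤ |x - y| / a := div_le_div_of_nonneg_left (abs_nonneg _) ha hy
  rw [abs_le]
  constructor
  · have := key y x hy hx
    rw [abs_sub_comm] at this
    linarith
  · exact key x y hx hy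

/-- numerical facts -/
structure E15F (N K : ℕ) : Prop where
  K10 : (10 : ℝ) ≤ K
  KN : (K : ℝ) ≤ N
  L1 : 1 ≤ Real.log N
  LK : Real.log N ≤ K
  M1 : (Mw N K : ℝ) ≤ N * Real.log N / K ^ 8
  M2 : 2 * (Mw N K : ℝ) ≤ N

theorem e15_facts {N K : ℕ} (h : Rg K N) : E15F N K := by
  have hK : (10 : ℝ) ≤ K := by exact_mod_cast h.hK
  have hK1 : (1 : ℝ) ≤ K := by linarith
  have hKN : (K : ℝ) ^ 400 ≤ N := by exact_mod_cast h.hN
  have hKN1 : (K : ℝ) ≤ N := by
    refine le_trans ?_ hKN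
    calc (K : ℝ) = (K : ℝ) ^ 1 := (pow_one _).symm
      _ ≤ (K : ℝ) ^ 400 := pow_le_pow_right₀ hK1 (by norm_num)
  have hN3 : (3 : ℝ) ≤ N := by linarith
  have hL1 : 1 ≤ Real.log N := by
    rw [Real.le_log_iff_exp_le (by linarith)]
    have := Real.exp_one_lt_d9
    linarith
  have hLK : Real.log N ≤ K := by
    refine le_trans ?_ h.hL
    calc Real.log N = Real.log N ^ 1 := (pow_one _).symm
      _ ≤ Real.log N ^ 100 := pow_le_pow_right₀ hL1 (by norm_num)
  have hM1 : (Mw N K : ℝ) ≤ N * Real.log N / K ^ 8 := by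
    have h1 : (Mw N K : ℝ) ≤ Hw N K * Real.log N := by
      unfold Mw
      refine Nat.floor_le ?_
      unfold Hw
      positivity
    refine h1.trans (le_of_eq ?_)
    unfold Hw
    ring
  refine ⟨hK, hKN1, hL1, hLK, hM1, ?_⟩
  have hK8 : (0 : ℝ) < (K : ℝ) ^ 8 := by positivity
  have h2 : (N : ℝ) * Real.log N / K ^ 8 ≤ N / 2 := by
    rw [div_le_div_iff₀ hK8 (by norm_num)]
    have h3 : Real.log N * 2 ≤ (K : ℝ) ^ 8 := by
      calc Real.log N * 2 ≤ K * K := by
            refine mul_le_mul hLK (by linarith) (by norm_num) (by linarith)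
        _ = (K : ℝ) ^ 2 := by ring
        _ ≤ (K : ℝ) ^ 8 := pow_le_pow_right₀ hK1 (by norm_num)
    have hN0 : (0 : ℝ) ≤ N := by linarith
    calc (N : ℝ) * Real.log N * 2 = N * (Real.log N * 2) := by ring
      _ ≤ N * (K : ℝ) ^ 8 := mul_le_mul_of_nonneg_left h3 hN0
  linarith

theorem e15_triv {N K : ℕ} (h : E15F N K) {p : ℕ} (hp : p ∈ Icc 1 N) {n : ℤ}
    (hn : n ∈ e15_J N K) : 0 ≤ e15_phi n ∧ e15_phi n ≤ 2 * Real.log N ∧
      |e15_phi n - Real.log p| ≤ 2 * Real.log N := by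
  have hL := h.L1
  have hM := h.M2
  have hK := h.K10
  have hKN := h.KN
  unfold e15_J at hn
  rw [mem_Icc] at hn hp
  have h0 : (1 : ℝ) ≤ ((max n 1 : ℤ) : ℝ) := by exact_mod_cast le_max_right n 1
  have h1 : 0 ≤ e15_phi n := Real.log_nonneg h0
  have h2 : ((max n 1 : ℤ) : ℝ) ≤ (N : ℝ) ^ 2 := by
    have h3 : ((max n 1 : ℤ) : ℝ) ≤ (N : ℝ) + Mw N K := by
      have h4 : max n 1 ≤ (N : ℤ) + Mw N K := by
        rw [max_le_iff]
        constructor
        · exact hn.2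
        · have : 1 ≤ (N : ℤ) := by exact_mod_cast hp.1.trans hp.2
          omega
      exact_mod_cast h4
    nlinarith
  have h3 : e15_phi n ≤ 2 * Real.log N := by
    have := Real.log_le_log (by linarith) h2
    rw [Real.log_pow] at this
    exact_mod_cast this
  have h4 : 0 ≤ Real.log p := Real.log_natCast_nonneg p
  have h5 : Real.log p ≤ Real.log N :=
    Real.log_le_log (by exact_mod_cast hp.1) (by exact_mod_cast hp.2)
  refine ⟨h1, h3, ?_⟩
  rw [abs_le]
  constructor <;> linarith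

theorem e15_small {N K : ℕ} (h : E15F N K) {p : ℕ} (hp : p ∈ Icc 1 N)
    (hpK : (N : ℝ) ≤ p * K) {n : ℤ} (hn : (p : ℤ) - n ∈ Iw N K) :
    |e15_phi n - Real.log p| ≤ 2 * Real.log N / K := by
  have hL := h.L1
  have hK := h.K10
  have hLK := h.LK
  have hM1 := h.M1
  rw [mem_Icc] at hp
  unfold Iw at hn
  rw [mem_Icc] at hn
  have hp1 : (1 : ℝ) ≤ p := by exact_mod_cast hp.1
  have hK0 : (0 : ℝ) < K := by linarith
  have hK8 : (0 : ℝ) < (K : ℝ) ^ 8 := by positivity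
  have hMp : (Mw N K : ℝ) ≤ p * Real.log N / K ^ 7 := by
    refine hM1.trans ?_
    rw [div_le_div_iff₀ hK8 (by positivity)]
    calc (N : ℝ) * Real.log N * K ^ 7 ≤ (p * K) * Real.log N * K ^ 7 := by gcongr
      _ = p * Real.log N * K ^ 8 := by ring
  have hLK7 : Real.log N / K ^ 7 ≤ 1 / K := by
    rw [div_le_div_iff₀ (by positivity) hK0]
    calc Real.log N * K ≤ K * K := by gcongr
      _ = (K : ℝ) ^ 2 := by ring
      _ ≤ 1 * (K : ℝ) ^ 7 := by rw [one_mul]; exact pow_le_pow_right₀ (by linarith) (by norm_num)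
  have h1K : 1 / (K : ℝ) ≤ 1 / 10 := one_div_le_one_div_of_le (by norm_num) hK
  have hMp2 : (Mw N K : ℝ) ≤ p / 2 := by
    refine hMp.trans ?_
    calc (p : ℝ) * Real.log N / (K : ℝ) ^ 7 = p * (Real.log N / (K : ℝ) ^ 7) := by ring
      _ ≤ (p : ℝ) * (1 / 2) := by
        refine mul_le_mul_of_nonneg_left ?_ (by linarith)
        linarith
      _ = (p : ℝ) / 2 := by ring
  have ha : |(n : ℝ) - p| ≤ Mw N K := by
    rw [abs_le]
    have h1 : (-(Mw N K : ℤ) : ℝ) ≤ (((p : ℤ) - n : ℤ) : ℝ) := by exact_mod_cast hn.1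
    have h2 : (((p : ℤ) - n : ℤ) : ℝ) ≤ (Mw N K : ℝ) := by exact_mod_cast hn.2
    push_cast at h1 h2
    constructor <;> linarith
  have hnp : (p : ℝ) / 2 ≤ n := by
    have := (abs_le.1 ha).1
    linarith
  have hn1 : 1 ≤ n := by
    have : (0 : ℝ) < n := by linarith
    have : 0 < n := by exact_mod_cast this
    omega
  have hphi : e15_phi n = Real.log (n : ℝ) := by
    unfold e15_phi
    rw [max_eq_left hn1]
  rw [hphi]
  refine (e15_log (a := (p : ℝ) / 2) (by linarith) hnp (by linarith)).trans ?_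
  calc |(n : ℝ) - p| / (p / 2) ≤ (p * Real.log N / K ^ 7) / (p / 2) := by
        refine div_le_div_of_nonneg_right (ha.trans hMp) (by linarith)
    _ = 2 * (Real.log N / K ^ 7) := by field_simp
    _ ≤ 2 * (Real.log N / K) := by
        refine mul_le_mul_of_nonneg_left ?_ (by norm_num)
        refine div_le_div_of_nonneg_left (by linarith) hK0 ?_
        calc (K : ℝ) = (K : ℝ) ^ 1 := (pow_one _).symm
          _ ≤ (K : ℝ) ^ 7 := pow_le_pow_right₀ (by linarith) (by norm_num)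
    _ = 2 * Real.log N / K := by ring

theorem e15_one {N K : ℕ} (hs : ∑ m ∈ Iw N K, vw N K m = 1) {p : ℕ} (hp : p ∈ Icc 1 N) :
    ∑ n ∈ e15_J N K, vw N K ((p : ℤ) - n) = 1 := by
  rw [mem_Icc] at hp
  rw [← hs]
  symm
  have h1 : ∑ m ∈ Iw N K, vw N K m = ∑ n ∈ (Iw N K).image (fun m => (p : ℤ) - m),
      vw N K ((p : ℤ) - n) := by
    rw [sum_image]
    · refine sum_congr rfl fun m _ => ?_
      congr 1
      ring
    · intro a _ b _ hab
      have : (p : ℤ) - a = (p : ℤ) - b := hab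
      omega
  rw [h1]
  refine sum_subset ?_ ?_
  · intro n hn
    rw [mem_image] at hn
    obtain ⟨m, hm, rfl⟩ := hn
    unfold Iw at hm
    unfold e15_J
    rw [mem_Icc] at hm ⊢
    have : (p : ℤ) ≤ N := by exact_mod_cast hp.2
    have : 1 ≤ (p : ℤ) := by exact_mod_cast hp.1
    constructor <;> omega
  · intro n _ hn
    unfold vw
    rw [if_neg]
    intro hmem
    apply hn
    rw [mem_image]
    exact ⟨(p : ℤ) - n, hmem, by ring⟩

theorem e15_bound {N K : ℕ} (hs : ∑ m ∈ Iw N K, vw N K m = 1) (h0 : ∀ m, 0 ≤ vw N K m)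
    {p : ℕ} (hp : p ∈ Icc 1 N) {B : ℝ}
    (hB : ∀ n ∈ e15_J N K, (p : ℤ) - n ∈ Iw N K → |e15_phi n - Real.log p| ≤ B) :
    |e15_Phi N K p - Real.log p| ≤ B := by
  have h1 := e15_one hs hp
  have h2 : e15_Phi N K p - Real.log p =
      ∑ n ∈ e15_J N K, (e15_phi n - Real.log p) * vw N K ((p : ℤ) - n) := by
    unfold e15_Phi
    have : Real.log p = Real.log p * ∑ n ∈ e15_J N K, vw N K ((p : ℤ) - n) := by
      rw [h1, mul_one]
    nth_rewrite 1 [this]
    rw [mul_sum, ← sum_sub_distrib]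
    exact sum_congr rfl fun n _ => by ring
  rw [h2]
  refine (abs_sum_le_sum_abs _ _).trans ?_
  calc ∑ n ∈ e15_J N K, |(e15_phi n - Real.log p) * vw N K ((p : ℤ) - n)|
      ≤ ∑ n ∈ e15_J N K, B * vw N K ((p : ℤ) - n) := by
        refine sum_le_sum fun n hn => ?_
        rw [abs_mul, abs_of_nonneg (h0 _)]
        by_cases hmem : (p : ℤ) - n ∈ Iw N K
        · exact mul_le_mul_of_nonneg_right (hB n hn hmem) (h0 _)
        · have : vw N K ((p : ℤ) - n) = 0 := by
            unfold vw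
            rw [if_neg hmem]
          rw [this, mul_zero, mul_zero]
    _ = B := by rw [← mul_sum, h1, mul_one]

theorem e15_weight {N K : ℕ} (h : E15F N K) (hs : ∑ m ∈ Iw N K, vw N K m = 1)
    (h0 : ∀ m, 0 ≤ vw N K m) (w : ℕ → ℝ) (hw : ∀ p, 0 ≤ w p)
    (hw1 : ∑ p ∈ Icc 1 N, w p ≤ 2 * N)
    (hw2 : ∑ p ∈ (Icc 1 N).filter (fun p : ℕ => (p : ℝ) * K < N), w p ≤ 2 * N / K) :
    |∑ p ∈ Icc 1 N, w p * e15_Phi N K p - ∑ p ∈ Icc 1 N, w p * Real.log p| ≤
      8 * Real.log N * (N / K) := by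
  have hL := h.L1
  have hK := h.K10
  have hK0 : (0 : ℝ) < K := by linarith
  rw [← sum_sub_distrib]
  refine (abs_sum_le_sum_abs _ _).trans ?_
  have hterm : ∀ p ∈ Icc 1 N, |w p * e15_Phi N K p - w p * Real.log p| ≤
      w p * (2 * Real.log N / K) + (if (p : ℝ) * K < N then w p else 0) * (2 * Real.log N) := by
    intro p hp
    rw [← mul_sub, abs_mul, abs_of_nonneg (hw p)]
    have hnn : 0 ≤ w p * (2 * Real.log N / K) := mul_nonneg (hw p) (by positivity)
    split_ifs with hc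
    · have := e15_bound hs h0 hp (B := 2 * Real.log N) fun n hn _ => (e15_triv h hp hn).2.2
      have := mul_le_mul_of_nonneg_left this (hw p)
      linarith
    · have := e15_bound hs h0 hp (B := 2 * Real.log N / K) fun n hn hm =>
        e15_small h hp (not_lt.1 hc) hm
      have := mul_le_mul_of_nonneg_left this (hw p)
      linarith
  refine (sum_le_sum hterm).trans ?_
  rw [sum_add_distrib, ← sum_mul, ← sum_mul, ← sum_filter]
  have a1 : (∑ p ∈ Icc 1 N, w p) * (2 * Real.log N / K) ≤ (2 * N) * (2 * Real.log N / K) :=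
    mul_le_mul_of_nonneg_right hw1 (by positivity)
  have a2 : (∑ p ∈ (Icc 1 N).filter (fun p : ℕ => (p : ℝ) * K < N), w p) * (2 * Real.log N) ≤
      (2 * N / K) * (2 * Real.log N) := mul_le_mul_of_nonneg_right hw2 (by positivity)
  have a3 : (2 * (N : ℝ)) * (2 * Real.log N / K) + (2 * N / K) * (2 * Real.log N) =
      8 * Real.log N * (N / K) := by ring
  linarith

theorem e15_w_aS {N K : ℕ} (h : E15F N K) :
    ∑ p ∈ (Icc 1 N).filter (fun p : ℕ => (p : ℝ) * K < N), aS N p ≤ 2 * N / K := by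
  have hK := h.K10
  have hK0 : (0 : ℝ) < K := by linarith
  have h1 : ∑ p ∈ (Icc 1 N).filter (fun p : ℕ => (p : ℝ) * K < N), aS N p ≤
      Chebyshev.theta ((N : ℝ) / K) := by
    unfold Chebyshev.theta
    have h2 : ∑ p ∈ (Icc 1 N).filter (fun p : ℕ => (p : ℝ) * K < N), aS N p =
        ∑ p ∈ ((Icc 1 N).filter (fun p : ℕ => (p : ℝ) * K < N)).filter (fun p : ℕ => p.Prime),
          aS N p := by
      rw [sum_filter (fun p : ℕ => p.Prime)]
      refine sum_congr rfl fun p _ => ?_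
      split_ifs with hp
      · rfl
      · unfold aS
        rw [if_neg fun hh => hp hh.1]
    rw [h2]
    refine le_trans (sum_le_sum fun p hp => ?_) (sum_le_sum_of_subset_of_nonneg
      (s := ((Icc 1 N).filter (fun p : ℕ => (p : ℝ) * K < N)).filter (fun p : ℕ => p.Prime))
      (f := fun p : ℕ => Real.log (p : ℝ)) (fun p hp => ?_) fun p hp _ => ?_)
    · unfold aS
      split_ifs
      · exact le_rfl
      · exact Real.log_natCast_nonneg p
    · rw [mem_filter, mem_filter, mem_Icc] at hp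
      rw [mem_filter, mem_Ioc]
      refine ⟨⟨hp.1.1.1, ?_⟩, hp.2⟩
      rw [Nat.le_floor_iff (by positivity), le_div_iff₀ hK0]
      exact hp.1.2.le
    · exact Real.log_natCast_nonneg p
  have h3 := Chebyshev.theta_le_log4_mul_x (x := (N : ℝ) / K) (by positivity)
  have h4 : Real.log 4 ≤ 2 := by
    have : Real.log 4 = 2 * Real.log 2 := by
      rw [show (4 : ℝ) = 2 ^ 2 by norm_num, Real.log_pow]; norm_num
    rw [this]
    linarith [Real.log_two_lt_d9]
  have h5 : (0 : ℝ) ≤ (N : ℝ) / K := by positivity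
  calc _ ≤ Chebyshev.theta ((N : ℝ) / K) := h1
    _ ≤ Real.log 4 * ((N : ℝ) / K) := h3
    _ ≤ 2 * ((N : ℝ) / K) := mul_le_mul_of_nonneg_right h4 h5
    _ = 2 * N / K := by ring

theorem e15_w_one {N K : ℕ} (h : E15F N K) :
    ∑ _p ∈ (Icc 1 N).filter (fun p : ℕ => (p : ℝ) * K < N), (1 : ℝ) ≤ 2 * N / K := by
  have hK := h.K10
  have hK0 : (0 : ℝ) < K := by linarith
  have h1 : (Icc 1 N).filter (fun p : ℕ => (p : ℝ) * K < N) ⊆ Icc 1 ⌊(N : ℝ) / K⌋₊ := by
    intro p hp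
    rw [mem_filter, mem_Icc] at hp
    rw [mem_Icc]
    refine ⟨hp.1.1, ?_⟩
    rw [Nat.le_floor_iff (by positivity), le_div_iff₀ hK0]
    exact hp.2.le
  have h2 := card_le_card h1
  rw [Nat.card_Icc, Nat.add_sub_cancel] at h2
  rw [sum_const, nsmul_eq_mul, mul_one]
  have h3 : (⌊(N : ℝ) / K⌋₊ : ℝ) ≤ (N : ℝ) / K := Nat.floor_le (by positivity)
  have h4 : (((Icc 1 N).filter (fun p : ℕ => (p : ℝ) * K < N)).card : ℝ) ≤ (⌊(N : ℝ) / K⌋₊ : ℝ) := by
    exact_mod_cast h2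
  have h5 : (0 : ℝ) ≤ (N : ℝ) / K := by positivity
  have h6 : 2 * (N : ℝ) / K = N / K + N / K := by ring
  rw [h6]
  linarith

theorem e15_cs {N K : ℕ} (h : E15F N K) :
    |∑ n ∈ e15_J N K, e15_phi n * T0 N K n| ≤ 3 * Real.log N * Real.sqrt (N * EE N K) := by
  have hL := h.L1
  have hK := h.K10
  have hKN := h.KN
  have hM := h.M2
  have hN1 : 1 ≤ N := by
    have : (1 : ℝ) ≤ N := by linarith
    exact_mod_cast this
  have hE := p16_EE_nonneg N K
  have h1 := sum_mul_sq_le_sq_mul_sq (e15_J N K) e15_phi (fun n => T0 N K n)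
  have h2 : ∑ n ∈ e15_J N K, T0 N K n ^ 2 ≤ EE N K := by
    unfold EE e15_J
    refine sum_le_sum fun n _ => ?_
    unfold En
    have : 0 ≤ ∑ q ∈ Ioc 1 K, ∑ ψ ∈ Pr q, ‖TS ψ N K n‖ ^ 2 :=
      sum_nonneg fun q _ => sum_nonneg fun ψ _ => sq_nonneg _
    linarith
  have h3 : ∑ n ∈ e15_J N K, e15_phi n ^ 2 ≤ 8 * N * Real.log N ^ 2 := by
    have h4 : ∀ n ∈ e15_J N K, e15_phi n ^ 2 ≤ 4 * Real.log N ^ 2 := by
      intro n hn
      have := e15_triv h (p := 1) (mem_Icc.2 ⟨le_rfl, hN1⟩) hn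
      nlinarith [this.1, this.2.1]
    refine (sum_le_sum h4).trans ?_
    rw [sum_const, nsmul_eq_mul]
    have h5 : ((e15_J N K).card : ℝ) ≤ 2 * N := by
      unfold e15_J
      rw [Int.card_Icc]
      have h6 : ((N : ℤ) + Mw N K + 1 - (1 - (Mw N K : ℤ))).toNat = N + 2 * Mw N K := by omega
      rw [h6]
      push_cast
      linarith
    have h6 : (0 : ℝ) ≤ 4 * Real.log N ^ 2 := by positivity
    calc ((e15_J N K).card : ℝ) * (4 * Real.log N ^ 2) ≤ (2 * N) * (4 * Real.log N ^ 2) :=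
          mul_le_mul_of_nonneg_right h5 h6
      _ = 8 * N * Real.log N ^ 2 := by ring
  have h4 : (∑ n ∈ e15_J N K, e15_phi n * T0 N K n) ^ 2 ≤
      (3 * Real.log N * Real.sqrt (N * EE N K)) ^ 2 := by
    have h5 : Real.sqrt (N * EE N K) ^ 2 = N * EE N K := Real.sq_sqrt (by positivity)
    rw [mul_pow, mul_pow, h5]
    calc _ ≤ (∑ n ∈ e15_J N K, e15_phi n ^ 2) * ∑ n ∈ e15_J N K, T0 N K n ^ 2 := h1
      _ ≤ (8 * N * Real.log N ^ 2) * EE N K := by
        refine mul_le_mul h3 h2 (sum_nonneg fun _ _ => sq_nonneg _) (by positivity)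
      _ ≤ (9 * N * Real.log N ^ 2) * EE N K := by
        refine mul_le_mul_of_nonneg_right ?_ hE
        have : (0 : ℝ) ≤ N * Real.log N ^ 2 := by positivity
        nlinarith
      _ = 3 ^ 2 * Real.log N ^ 2 * (N * EE N K) := by ring
  exact abs_le_of_sq_le_sq h4 (by positivity)

theorem e15_swap (N K : ℕ) (w : ℕ → ℝ) : ∑ p ∈ Icc 1 N, w p * e15_Phi N K p =
    ∑ n ∈ e15_J N K, e15_phi n * ∑ p ∈ Icc 1 N, w p * vw N K ((p : ℤ) - n) := by
  unfold e15_Phi
  simp_rw [mul_sum]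
  rw [sum_comm]
  refine sum_congr rfl fun n _ => sum_congr rfl fun p _ => ?_
  ring

theorem E15_pr (h1 : W01) : E15 := by
  obtain ⟨C, -, K0, hK0⟩ := h1
  refine ⟨22, by norm_num, K0, fun K hK N hR => ?_⟩
  obtain ⟨hv, hs, -, -, -⟩ := hK0 K hK N hR
  have h := e15_facts hR
  have h0 : ∀ m, 0 ≤ vw N K m := fun m => (hv m).1
  have hL := h.L1
  have hK := h.K10
  have hKN := h.KN
  have hK0' : (0 : ℝ) < K := by linarith
  have hN1 : 1 ≤ N := by
    have : (1 : ℝ) ≤ N := by linarith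
    exact_mod_cast this
  have a1 := e15_weight h hs h0 (aS N) (p16_aS_nonneg N) (p16_sum_aS N) (e15_w_aS h)
  have a2 := e15_weight h hs h0 (fun _ => 1) (fun _ => zero_le_one) (by
    rw [sum_const, Nat.card_Icc, Nat.add_sub_cancel, nsmul_eq_mul, mul_one]
    linarith) (e15_w_one h)
  have a3 := e15_cs h
  have a4 := p15_fac N hN1
  have hA : ∑ p ∈ Icc 1 N, aS N p * Real.log p = A2 N := by
    unfold A2
    refine sum_congr rfl fun p _ => ?_
    unfold aS
    split_ifs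
    · ring
    · ring
  have hT : ∑ n ∈ e15_J N K, e15_phi n * T0 N K n =
      ∑ p ∈ Icc 1 N, aS N p * e15_Phi N K p - ∑ p ∈ Icc 1 N, (1 : ℝ) * e15_Phi N K p := by
    rw [e15_swap, e15_swap, ← sum_sub_distrib]
    refine sum_congr rfl fun n _ => ?_
    unfold T0
    simp only [one_mul]
    ring
  rw [hA] at a1
  have hlog : ∑ p ∈ Icc 1 N, (1 : ℝ) * Real.log p = ∑ n ∈ Icc 1 N, Real.log n := by
    simp only [one_mul]
  rw [hlog] at a2
  rw [hT] at a3
  have hNK : 1 ≤ (N : ℝ) / K := by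
    rw [le_div_iff₀ hK0']
    linarith
  have hs0 := Real.sqrt_nonneg (N * EE N K)
  have hf : |∑ n ∈ Icc 1 N, Real.log n - (N * Real.log N - N)| ≤ 2 * Real.log N * (N / K) := by
    rw [abs_of_nonneg a4.1]
    refine a4.2.trans ?_
    nlinarith
  have htri : |A2 N - (N * Real.log N - N)| ≤
      |∑ p ∈ Icc 1 N, aS N p * e15_Phi N K p - A2 N| +
      |∑ p ∈ Icc 1 N, aS N p * e15_Phi N K p - ∑ p ∈ Icc 1 N, (1 : ℝ) * e15_Phi N K p| +
      |∑ p ∈ Icc 1 N, (1 : ℝ) * e15_Phi N K p - ∑ n ∈ Icc 1 N, Real.log n| +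
      |∑ n ∈ Icc 1 N, Real.log n - (N * Real.log N - N)| := by
    have e : A2 N - (N * Real.log N - N) =
        -(∑ p ∈ Icc 1 N, aS N p * e15_Phi N K p - A2 N) +
        (∑ p ∈ Icc 1 N, aS N p * e15_Phi N K p - ∑ p ∈ Icc 1 N, (1 : ℝ) * e15_Phi N K p) +
        (∑ p ∈ Icc 1 N, (1 : ℝ) * e15_Phi N K p - ∑ n ∈ Icc 1 N, Real.log n) +
        (∑ n ∈ Icc 1 N, Real.log n - (N * Real.log N - N)) := by ring
    rw [e]
    refine (abs_add_le _ _).trans ?_
    refine add_le_add ((abs_add_le _ _).trans ?_) le_rfl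
    refine add_le_add ((abs_add_le _ _).trans ?_) le_rfl
    rw [abs_neg]
  have hfin : 8 * Real.log N * (N / K) + 3 * Real.log N * Real.sqrt (N * EE N K) +
      8 * Real.log N * (N / K) + 2 * Real.log N * (N / K) ≤
      22 * Real.log N * (Real.sqrt (N * EE N K) + N / K) := by
    have b1 : 0 ≤ Real.log N * Real.sqrt (N * EE N K) := by positivity
    have b2 : 0 ≤ Real.log N * (N / K) := by positivity
    nlinarith
  linarith

end Pool.Agent.FGP

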