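import Mathlib

set_option autoImplicit false
set_option exponentiation.threshold 5000

namespace Pool.Agent.FGP

theorem e18_sqrt_add {a b : ℝ} (ha : 0 ≤ a) (hb : 0 ≤ b) :
    Real.sqrt (a + b) ≤ Real.sqrt a + Real.sqrt b := by
  rw [Real.sqrt_le_left (by positivity)]
  have h1 := Real.sq_sqrt ha
  have h2 := Real.sq_sqrt hb
  have h3 := Real.sqrt_nonneg a
  have h4 := Real.sqrt_nonneg b
  nlinarith [mul_nonneg h3 h4]

/-- the numerical part -/
theorem e18_num {N Y L κ E0 EE Cq C3 C8 C12 C13 C14 C15 C16 C17 A B1 card S1 SF SP tot : ℝ}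
    (hκ : 1 ≤ κ) (hL : 1 ≤ L) (hLκ : L ≤ κ ^ 4) (hY : 0 < Y) (hN : 0 < N) (hNY : N ≤ Y * κ ^ 25)
    (hE0 : 0 ≤ E0) (hE1 : E0 ≤ 1) (hEE0 : 0 ≤ EE) (hEE : EE ≤ C3 * N * (E0 + 1 / κ ^ 200))
    (hsN : Real.sqrt N ≤ N / κ ^ 200) (hCq : 0 < Cq) (hC3 : 0 < C3) (hC8 : 0 < C8)
    (hC12 : 0 < C12) (hC13 : 0 < C13) (hC14 : 0 < C14) (hC15 : 0 < C15) (hC16 : 0 < C16)
    (hC17 : 0 < C17) (hcard : card ≤ Cq * (Y / L))
    (hA : A ≤ C12 * (N ^ 2 / κ ^ 200) * (1 + L) ^ 7)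
    (hB0 : 0 ≤ B1)
    (hB1 : B1 ≤ C13 * N / κ ^ 400 + C16 * L * Real.sqrt (N * EE) +
      C15 * L * (Real.sqrt (N * EE) + N / κ ^ 400) + C17 * N ^ 2 / κ ^ 4000 / Y)
    (hS1 : S1 ≤ A + card * (B1 + 4 * C14 * N))
    (hSF0 : 0 ≤ SF) (hSF : SF ≤ C8 * Y * (EE + Real.sqrt N)) (hSP0 : 0 ≤ SP)
    (hSP : SP ≤ 6 * Cq * (Y * N) + S1)
    (htot : tot ≤ A + card * B1 + (2 * Real.sqrt (SP * SF) + SF)) :
    tot ≤ (128 * C12 + Cq * (C13 + (C16 + C15) * Real.sqrt C3 + C15 + C17) + 2 * (C8 * (C3 + 1)) +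
      2 * Real.sqrt ((6 * Cq + 256 * C12 + 2 * (Cq * (C13 + (C16 + C15) * Real.sqrt C3 + C15 + C17)) +
        4 * C14 * Cq) * (C8 * (C3 + 1)))) *
      (Real.sqrt E0 + 1 / κ) * (N * Y) := by
  have hL0 : 0 < L := by linarith
  have hκp : 0 < κ := by linarith
  set W : ℝ := Y * N with hW
  have hW0 : 0 < W := by positivity
  set e : ℝ := Real.sqrt E0 with he
  have he0 : 0 ≤ e := Real.sqrt_nonneg _
  have he2 : e ^ 2 = E0 := Real.sq_sqrt hE0
  have he1 : e ≤ 1 := by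
    rw [he]
    exact Real.sqrt_le_iff.mpr ⟨by norm_num, by simpa using hE1⟩
  set κi : ℝ := 1 / κ with hκi
  have hi0 : 0 < κi := by positivity
  have hi1 : κi ≤ 1 := by rw [hκi, div_le_one hκp]; exact hκ
  set θ : ℝ := e + κi with hθ
  have hθ0 : 0 < θ := by positivity
  have hθ2 : θ ≤ 2 := by linarith
  have hpowi : ∀ n : ℕ, 1 ≤ n → 1 / κ ^ n ≤ κi := by
    intro n hn
    have h1 : κ ≤ κ ^ n := le_self_pow₀ hκ (by omega)
    rw [hκi]
    gcongr
  have hpow2 : 1 / κ ^ 200 ≤ κi ^ 2 := by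
    have h1 : κ ^ 2 ≤ κ ^ 200 := pow_le_pow_right₀ hκ (by norm_num)
    rw [hκi, div_pow, one_pow]
    gcongr
  have hE2 : E0 + 1 / κ ^ 200 ≤ θ ^ 2 := by
    rw [← he2, hθ]
    nlinarith [mul_nonneg he0 hi0.le]
  have hYL : Y / L ≤ Y := div_le_self hY.le hL
  have hcY : card ≤ Cq * Y := hcard.trans (by gcongr)
  have hcL : card * L ≤ Cq * Y := by
    calc card * L ≤ Cq * (Y / L) * L := by gcongr
      _ = Cq * Y := by field_simp
  -- the square root of the energy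
  have hsq : Real.sqrt (N * EE) ≤ Real.sqrt C3 * (N * θ) := by
    have h2 : N * EE ≤ C3 * (N * θ) ^ 2 := by
      calc N * EE ≤ N * (C3 * N * (E0 + 1 / κ ^ 200)) := by gcongr
        _ ≤ N * (C3 * N * θ ^ 2) := by gcongr
        _ = _ := by ring
    calc Real.sqrt (N * EE) ≤ Real.sqrt (C3 * (N * θ) ^ 2) := Real.sqrt_le_sqrt h2
      _ = _ := by rw [Real.sqrt_mul hC3.le, Real.sqrt_sq (by positivity)]
  set s3 : ℝ := Real.sqrt C3 with hs3
  have hs30 : 0 ≤ s3 := Real.sqrt_nonneg _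
  -- A
  have hA' : A ≤ 128 * C12 * (θ * W) := by
    refine hA.trans ?_
    have h1 : (1 + L) ^ 7 ≤ 128 * κ ^ 28 := by
      have h11 : 1 + L ≤ 2 * κ ^ 4 := by
        have : (1 : ℝ) ≤ κ ^ 4 := one_le_pow₀ hκ
        linarith
      calc (1 + L) ^ 7 ≤ (2 * κ ^ 4) ^ 7 := by gcongr
        _ = 128 * κ ^ 28 := by ring
    have h2 : N ^ 2 ≤ W * κ ^ 25 := by
      calc N ^ 2 = N * N := by ring
        _ ≤ N * (Y * κ ^ 25) := by gcongr
        _ = _ := by rw [hW]; ring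
    calc C12 * (N ^ 2 / κ ^ 200) * (1 + L) ^ 7 ≤
        C12 * (W * κ ^ 25 / κ ^ 200) * (128 * κ ^ 28) := by gcongr
      _ = 128 * C12 * (1 / κ ^ 147 * W) := by
          field_simp
      _ ≤ 128 * C12 * (θ * W) := by
          have h3 := hpowi 147 (by norm_num)
          have h4 : 1 / κ ^ 147 ≤ θ := by linarith
          gcongr
  -- the pieces of `card * B1`
  have t1 : Cq * Y * (C13 * N / κ ^ 400) ≤ Cq * C13 * (θ * W) := by
    have h3 : 1 / κ ^ 400 ≤ θ := by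
      have := hpowi 400 (by norm_num)
      linarith
    calc Cq * Y * (C13 * N / κ ^ 400) = Cq * C13 * (1 / κ ^ 400 * W) := by rw [hW]; ring
      _ ≤ _ := by gcongr
  have t4 : Cq * Y * (C17 * N ^ 2 / κ ^ 4000 / Y) ≤ Cq * C17 * (θ * W) := by
    have h2 : N ^ 2 ≤ W * κ ^ 25 := by
      calc N ^ 2 = N * N := by ring
        _ ≤ N * (Y * κ ^ 25) := by gcongr
        _ = _ := by rw [hW]; ring
    have h3 : 1 / κ ^ 3975 ≤ θ := by
      have := hpowi 3975 (by norm_num)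
      linarith
    calc Cq * Y * (C17 * N ^ 2 / κ ^ 4000 / Y) = Cq * C17 * (N ^ 2 / κ ^ 4000) := by
          field_simp
      _ ≤ Cq * C17 * (W * κ ^ 25 / κ ^ 4000) := by gcongr
      _ = Cq * C17 * (1 / κ ^ 3975 * W) := by
          field_simp
      _ ≤ _ := by gcongr
  have hcB : card * B1 ≤ Cq * (C13 + (C16 + C15) * s3 + C15 + C17) * (θ * W) := by
    have h0 : 0 < κ ^ 400 := by positivity
    have h1 : card * B1 ≤ card * L * (C16 * Real.sqrt (N * EE) +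
        C15 * (Real.sqrt (N * EE) + N / κ ^ 400)) +
        Cq * Y * (C13 * N / κ ^ 400) + Cq * Y * (C17 * N ^ 2 / κ ^ 4000 / Y) ∨ card < 0 := by
      rcases le_or_gt 0 card with hc | hc
      · left
        calc card * B1 ≤ card * (C13 * N / κ ^ 400 + C16 * L * Real.sqrt (N * EE) +
              C15 * L * (Real.sqrt (N * EE) + N / κ ^ 400) + C17 * N ^ 2 / κ ^ 4000 / Y) := by
              gcongr
          _ = card * L * (C16 * Real.sqrt (N * EE) + C15 * (Real.sqrt (N * EE) + N / κ ^ 400)) +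
              card * (C13 * N / κ ^ 400) + card * (C17 * N ^ 2 / κ ^ 4000 / Y) := by ring
          _ ≤ _ := by
              gcongr
      · right; exact hc
    have hpos : 0 ≤ Cq * (C13 + (C16 + C15) * s3 + C15 + C17) * (θ * W) := by positivity
    rcases h1 with h1 | h1
    · refine h1.trans ?_
      have h3 : 1 / κ ^ 400 ≤ θ := by
        have := hpowi 400 (by norm_num)
        linarith
      have h5 : N / κ ^ 400 ≤ N * θ := by
        calc N / κ ^ 400 = N * (1 / κ ^ 400) := by ring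
          _ ≤ _ := by gcongr
      have h6 : card * L * (C16 * Real.sqrt (N * EE) +
          C15 * (Real.sqrt (N * EE) + N / κ ^ 400)) ≤
          Cq * Y * (C16 * (s3 * (N * θ)) + C15 * (s3 * (N * θ) + N * θ)) := by
        gcongr
      have h7 : Cq * Y * (C16 * (s3 * (N * θ)) + C15 * (s3 * (N * θ) + N * θ)) =
          Cq * ((C16 + C15) * s3 + C15) * (θ * W) := by rw [hW]; ring
      rw [h7] at h6
      linarith
    · have : card * B1 ≤ 0 := mul_nonpos_of_nonpos_of_nonneg h1.le hB0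
      linarith
  -- SF
  have hSF2 : SF ≤ C8 * (C3 + 1) * (W * θ ^ 2) := by
    calc SF ≤ C8 * Y * (EE + Real.sqrt N) := hSF
      _ ≤ C8 * Y * (C3 * N * (E0 + 1 / κ ^ 200) + N / κ ^ 200) := by gcongr
      _ ≤ C8 * Y * (C3 * N * (E0 + 1 / κ ^ 200) + N * (E0 + 1 / κ ^ 200)) := by
          have h1 : N / κ ^ 200 ≤ N * (E0 + 1 / κ ^ 200) := by
            rw [mul_add, mul_one_div]
            have : 0 ≤ N * E0 := by positivity
            linarith
          gcongr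
      _ = C8 * (C3 + 1) * (W * (E0 + 1 / κ ^ 200)) := by rw [hW]; ring
      _ ≤ _ := by gcongr
  have hSF3 : SF ≤ 2 * (C8 * (C3 + 1)) * (θ * W) := by
    refine hSF2.trans ?_
    have h1 : θ ^ 2 ≤ 2 * θ := by
      rw [sq]
      exact mul_le_mul_of_nonneg_right hθ2 hθ0.le
    calc C8 * (C3 + 1) * (W * θ ^ 2) ≤ C8 * (C3 + 1) * (W * (2 * θ)) := by gcongr
      _ = _ := by ring
  set CB : ℝ := Cq * (C13 + (C16 + C15) * s3 + C15 + C17) with hCB
  have hCB0 : 0 < CB := by positivity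
  -- SP
  set C4 : ℝ := 6 * Cq + 256 * C12 + 2 * CB + 4 * C14 * Cq with hC4
  have hC40 : 0 < C4 := by positivity
  have hSP' : SP ≤ C4 * W := by
    have h1 : θ * W ≤ 2 * W := by gcongr
    have h2 : 128 * C12 * (θ * W) ≤ 128 * C12 * (2 * W) := by gcongr
    have h3 : CB * (θ * W) ≤ CB * (2 * W) := by gcongr
    have h4 : card * (4 * C14 * N) ≤ Cq * Y * (4 * C14 * N) := by gcongr
    have h5 : Cq * Y * (4 * C14 * N) = 4 * C14 * Cq * W := by rw [hW]; ring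
    have h6 : card * (B1 + 4 * C14 * N) = card * B1 + card * (4 * C14 * N) := by ring
    rw [h6] at hS1
    rw [hC4]
    linarith
  have hprod : Real.sqrt (SP * SF) ≤ Real.sqrt (C4 * (C8 * (C3 + 1))) * (θ * W) := by
    have h1 : SP * SF ≤ C4 * (C8 * (C3 + 1)) * (θ * W) ^ 2 := by
      calc SP * SF ≤ (C4 * W) * (C8 * (C3 + 1) * (W * θ ^ 2)) := by
            gcongr
        _ = _ := by ring
    calc Real.sqrt (SP * SF) ≤ Real.sqrt (C4 * (C8 * (C3 + 1)) * (θ * W) ^ 2) :=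
          Real.sqrt_le_sqrt h1
      _ = _ := by
          rw [Real.sqrt_mul (by positivity), Real.sqrt_sq (by positivity)]
  set s4 : ℝ := Real.sqrt (C4 * (C8 * (C3 + 1))) with hs4
  have hfin : (128 * C12 + CB + 2 * (C8 * (C3 + 1)) + 2 * s4) * θ * (N * Y) =
      128 * C12 * (θ * W) + CB * (θ * W) + 2 * (C8 * (C3 + 1)) * (θ * W) + 2 * (s4 * (θ * W)) := by
    rw [hW]; ring
  rw [hfin]
  linarith

end Pool.Agent.FGP
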