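import Pool.Agent.Lib_helper3.FGP.P18a

set_option autoImplicit false
set_option exponentiation.threshold 500

namespace Pool.Agent.FGP

open Finset Pool.Agent.Var35 Pool.Agent.Var73 Pool.Agent.PV
open scoped ArithmeticFunction ArithmeticFunction.Moebius

/-- the conjectured main term for prime modulus -/
noncomputable def mQ (N Q : ℕ) : ℝ :=
  N * (Real.log Q - Real.eulerMascheroniConstant - Real.log (2 * Real.pi))

theorem p18_pt (N K M Q : ℕ) (hN : 1 ≤ N) (hQ : 1 ≤ Q) (P : ℝ → ℂ) (a1 a2 a3 a4 a5 a6 : ℝ)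
    (h1 : |(VA P Q - VA (gh N K) Q) - (ms M P - ms M (gh N K))| ≤ a1)
    (h2 : |VA (gh N K) Q - ms M (gh N K) -
      2 * ∑ k ∈ Icc 1 (N / Q), SK K k * ((N : ℝ) - k * Q)| ≤ a2)
    (h3 : |ms M P - A2 N| ≤ a3)
    (h4 : |A2 N - (N * Real.log N - N)| ≤ a4)
    (h5 : |‖P 0‖ ^ 2 - (N : ℝ) ^ 2| ≤ a5)
    (h6 : |∑ k ∈ Icc 1 ⌊(N : ℝ) / Q⌋₊, SK K k * ((N : ℝ) / Q - k) - mainT ((N : ℝ) / Q)| ≤ a6) :
    |VQ P Q - mQ N Q| ≤ a1 + a2 + a3 + a4 + a5 / Q + 2 * (Q * a6) := by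
  have hQ0 : (0 : ℝ) < Q := by exact_mod_cast hQ
  have hN0 : (0 : ℝ) < N := by exact_mod_cast hN
  have hfl : ⌊(N : ℝ) / Q⌋₊ = N / Q := Nat.floor_div_eq_div N Q
  rw [hfl] at h6
  have hS : ∑ k ∈ Icc 1 (N / Q), SK K k * ((N : ℝ) - k * Q) =
      Q * ∑ k ∈ Icc 1 (N / Q), SK K k * ((N : ℝ) / Q - k) := by
    rw [mul_sum]
    refine sum_congr rfl fun k _ => ?_
    field_simp
  rw [hS] at h2
  have hid := p18_ident N Q hN0 hQ0
  rw [p18_VA P Q hQ]
  unfold mQ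
  rw [← hid]
  set S : ℝ := ∑ k ∈ Icc 1 (N / Q), SK K k * ((N : ℝ) / Q - k)
  set T : ℝ := mainT ((N : ℝ) / Q)
  have h7 : |(‖P 0‖ ^ 2 - (N : ℝ) ^ 2) / Q| ≤ a5 / Q := by
    rw [abs_div, abs_of_pos hQ0]
    gcongr
  have h8 : |2 * (Q * (S - T))| ≤ 2 * (Q * a6) := by
    rw [abs_mul, abs_mul, abs_of_pos hQ0, abs_two]
    gcongr
  have h9 : VA P Q - ‖P 0‖ ^ 2 / Q - ((N : ℝ) * Real.log N - N + 2 * (Q * T) - (N : ℝ) ^ 2 / Q) =
      ((VA P Q - VA (gh N K) Q) - (ms M P - ms M (gh N K))) +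
      (VA (gh N K) Q - ms M (gh N K) - 2 * (Q * S)) + (ms M P - A2 N) +
      (A2 N - (N * Real.log N - N)) - (‖P 0‖ ^ 2 - (N : ℝ) ^ 2) / Q + 2 * (Q * (S - T)) := by
    ring
  rw [h9]
  rw [abs_le] at *
  constructor
  · linarith [h1.1, h2.1, h3.1, h4.1, h7.2, h8.1]
  · linarith [h1.2, h2.2, h3.2, h4.2, h7.1, h8.2]

theorem p18_mQ (N Q Y : ℕ) (hN : 100 ≤ N) (hY : Y ≤ N) (hQ : Q ∈ QQ Y) :
    |mQ N Q| ≤ 6 * (N * Real.log N) := by
  unfold QQ at hQ
  rw [mem_filter, mem_Ioc] at hQ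
  have hQp := hQ.2.two_le
  have hQ4 : Q ≤ 4 * N := by omega
  have hNR : (100 : ℝ) ≤ N := by exact_mod_cast hN
  have hQR : (2 : ℝ) ≤ Q := by exact_mod_cast hQp
  have hQ4R : (Q : ℝ) ≤ 4 * N := by exact_mod_cast hQ4
  have h1 : 0 ≤ Real.log Q := Real.log_nonneg (by linarith)
  have hL : 1 ≤ Real.log N := by
    rw [Real.le_log_iff_exp_le (by linarith)]
    have := Real.exp_one_lt_d9
    linarith
  have h2 : Real.log Q ≤ 3 * Real.log N := by
    calc Real.log Q ≤ Real.log ((N : ℝ) ^ 3) := by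
          apply Real.log_le_log (by linarith)
          have h22 : (4 : ℝ) ≤ (N : ℝ) * N := by nlinarith
          have h23 : (N : ℝ) ^ 3 = N * (N * N) := by ring
          rw [h23]
          nlinarith
      _ = 3 * Real.log N := by rw [Real.log_pow]; norm_num
  have h3 : 0 ≤ Real.eulerMascheroniConstant := by
    have := Real.one_half_lt_eulerMascheroniConstant
    linarith
  have h4 : Real.eulerMascheroniConstant ≤ 1 := by
    have := Real.eulerMascheroniConstant_lt_two_thirds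
    linarith
  have h5 : 0 ≤ Real.log (2 * Real.pi) := by
    apply Real.log_nonneg
    nlinarith [Real.pi_gt_three]
  have h6 : Real.log (2 * Real.pi) ≤ 2 := by
    rw [Real.log_le_iff_le_exp (by positivity)]
    have h7 : Real.exp 2 = Real.exp 1 * Real.exp 1 := by
      rw [← Real.exp_add]
      norm_num
    have := Real.exp_one_gt_d9
    have h8 := Real.pi_lt_d2
    have h9 : (7 : ℝ) ≤ Real.exp 1 * Real.exp 1 := by nlinarith
    linarith
  unfold mQ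
  rw [abs_mul, abs_of_nonneg (by linarith : (0 : ℝ) ≤ N)]
  have h8 : |Real.log Q - Real.eulerMascheroniConstant - Real.log (2 * Real.pi)| ≤
      6 * Real.log N := by
    rw [abs_le]
    constructor <;> linarith
  calc (N : ℝ) * |Real.log Q - Real.eulerMascheroniConstant - Real.log (2 * Real.pi)| ≤
      N * (6 * Real.log N) := by gcongr
    _ = _ := by ring

end Pool.Agent.FGP
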