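import Pool.Agent.Lib_helper3.FGP.WantedE
import Pool.Agent.Lib_helper3.FGP.P18b
import Pool.Agent.Lib_helper3.FGP.E18N

set_option autoImplicit false
set_option exponentiation.threshold 5000

namespace Pool.Agent.FGP

open Finset Pool.Agent.Var35 Pool.Agent.Var73 Pool.Agent.PV
open scoped ArithmeticFunction ArithmeticFunction.Moebius

/-- the power of `Q` in the error of the main term -/
theorem e18_pow {N Q Y : ℝ} (hN : 0 < N) (hQ : 0 < Q) (hQY : Q ≤ 4 * Y) :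
    Q * (N / Q) ^ (3 / 4 : ℝ) ≤ 2 * (N * (Y / N) ^ (1 / 4 : ℝ)) := by
  have hY : 0 < Y := by linarith
  have h1 : Q * (N / Q) ^ (3 / 4 : ℝ) = N * (Q / N) ^ (1 / 4 : ℝ) := by
    have e1 : Q = N * (Q / N) := by field_simp
    have e2 : (N / Q) ^ (3 / 4 : ℝ) = (Q / N) ^ (-(3 / 4) : ℝ) := by
      rw [Real.rpow_neg (by positivity), ← Real.inv_rpow (by positivity), inv_div]
    have e3 : (Q / N) * (Q / N) ^ (-(3 / 4) : ℝ) = (Q / N) ^ (1 / 4 : ℝ) := by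
      have h0 : 0 < Q / N := by positivity
      calc (Q / N) * (Q / N) ^ (-(3 / 4) : ℝ) = (Q / N) ^ (1 : ℝ) * (Q / N) ^ (-(3 / 4) : ℝ) := by
            rw [Real.rpow_one]
        _ = (Q / N) ^ (1 + -(3 / 4) : ℝ) := (Real.rpow_add h0 _ _).symm
        _ = _ := by norm_num
    calc Q * (N / Q) ^ (3 / 4 : ℝ) = N * (Q / N) * (N / Q) ^ (3 / 4 : ℝ) := by rw [← e1]
      _ = N * ((Q / N) * (Q / N) ^ (-(3 / 4) : ℝ)) := by rw [e2]; ring
      _ = _ := by rw [e3]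
  rw [h1]
  have h2 : (Q / N) ^ (1 / 4 : ℝ) ≤ (16 * (Y / N)) ^ (1 / 4 : ℝ) := by
    apply Real.rpow_le_rpow (by positivity) _ (by norm_num)
    rw [← mul_div_assoc]
    gcongr
    linarith
  have h3 : (16 * (Y / N)) ^ (1 / 4 : ℝ) = 2 * (Y / N) ^ (1 / 4 : ℝ) := by
    rw [Real.mul_rpow (by norm_num) (by positivity)]
    congr 1
    rw [show (16 : ℝ) = 2 ^ (4 : ℝ) by norm_num, ← Real.rpow_mul (by norm_num)]
    norm_num
  rw [h3] at h2
  calc N * (Q / N) ^ (1 / 4 : ℝ) ≤ N * (2 * (Y / N) ^ (1 / 4 : ℝ)) := by gcongr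
    _ = _ := by ring

theorem e18_one {C3 C8 C12 C13 C14 C15 C16 C17 Cq e0 : ℝ} {N K Y M : ℕ}
    (hC3 : 0 < C3) (hC8 : 0 < C8) (hC12 : 0 < C12) (hC13 : 0 < C13) (hC14 : 0 < C14)
    (hC15 : 0 < C15) (hC16 : 0 < C16) (hC17 : 0 < C17) (hCq : 0 < Cq)
    (he0 : 0 ≤ e0) (he1 : e0 ≤ 1) (hR : Rg K N) (hRY : RY K N Y)
    (hEE : EE N K ≤ C3 * N * (e0 + 1 / Real.sqrt K)) (hN3 : 100 ≤ N)
    (h20 : W20)
    (hF : ∑ Q ∈ QQ Y, VQ (Fh N K) Q ≤ C8 * Y * (EE N K + Real.sqrt N))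
    (h12 : ∑ Q ∈ QQ Y, |(VA (fun t => fh N K t + gh N K t) Q - VA (gh N K) Q) -
      (ms M (fun t => fh N K t + gh N K t) - ms M (gh N K))| ≤
        C12 * ((N : ℝ) ^ 2 / Real.sqrt K) * (1 + Real.log N) ^ 7)
    (h13 : ∀ Q ∈ QQ Y, |VA (gh N K) Q - ms M (gh N K) -
      2 * ∑ k ∈ Icc 1 (N / Q), SK K k * ((N : ℝ) - k * Q)| ≤ C13 * N / K)
    (h16 : |ms M (fun t => fh N K t + gh N K t) - A2 N| ≤
      C16 * Real.log N * Real.sqrt (N * EE N K))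
    (h17 : |‖fh N K 0 + gh N K 0‖ ^ 2 - (N : ℝ) ^ 2| ≤ C17 * (N : ℝ) ^ 2 / (K : ℝ) ^ 10)
    (h14 : ∀ Q ∈ QQ Y, |∑ k ∈ Icc 1 ⌊(N : ℝ) / Q⌋₊, SK K k * ((N : ℝ) / Q - k) -
      mainT ((N : ℝ) / Q)| ≤ C14 * ((N : ℝ) / Q) ^ (3 / 4 : ℝ))
    (h15 : |A2 N - (N * Real.log N - N)| ≤ C15 * Real.log N * (Real.sqrt (N * EE N K) + N / K))
    (hcard : ((QQ Y).card : ℝ) ≤ Cq * (Y / Real.log N)) :
    ∑ Q ∈ QQ Y, max 0 (|SQ N Q - mQ N Q| - 4 * C14 * N * ((Y : ℝ) / N) ^ (1 / 4 : ℝ)) ≤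
      (128 * C12 + Cq * (C13 + (C16 + C15) * Real.sqrt C3 + C15 + C17) + 2 * (C8 * (C3 + 1)) +
      2 * Real.sqrt ((6 * Cq + 256 * C12 + 2 * (Cq * (C13 + (C16 + C15) * Real.sqrt C3 + C15 + C17)) +
        4 * C14 * Cq) * (C8 * (C3 + 1)))) *
      (Real.sqrt e0 + 1 / (K : ℝ) ^ (1 / 400 : ℝ)) * (N * Y) := by
  have hK10 : 10 ≤ K := hR.hK
  have hK0 : (0 : ℝ) ≤ K := Nat.cast_nonneg K
  set κ : ℝ := (K : ℝ) ^ (1 / 400 : ℝ) with hκdef
  have hκ1 : 1 ≤ κ := Real.one_le_rpow (by exact_mod_cast (by omega : 1 ≤ K)) (by norm_num)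
  have hκK : κ ^ 400 = K := by
    rw [hκdef, ← Real.rpow_natCast, ← Real.rpow_mul hK0]
    norm_num
  have hκp : 0 < κ := by linarith
  have hNR : (100 : ℝ) ≤ N := by exact_mod_cast hN3
  have hN0 : (0 : ℝ) < N := by linarith
  have hY1 : 1 ≤ Y := hRY.hY1
  have hYR : (1 : ℝ) ≤ Y := by exact_mod_cast hY1
  have hYN : (Y : ℝ) ≤ N := by exact_mod_cast hRY.hYN
  have hL1 : 1 ≤ Real.log N := by
    rw [Real.le_log_iff_exp_le hN0]
    have := Real.exp_one_lt_d9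
    linarith
  have hL0 : 0 < Real.log N := by linarith
  have hsK : Real.sqrt K = κ ^ 200 := by
    rw [← hκK]
    have : κ ^ 400 = (κ ^ 200) ^ 2 := by rw [← pow_mul]
    rw [this, Real.sqrt_sq (by positivity)]
  have hLκ : Real.log N ≤ κ ^ 4 := by
    have h1 := hR.hL
    rw [← hκK] at h1
    have h2 : κ ^ 400 = (κ ^ 4) ^ 100 := by rw [← pow_mul]
    rw [h2] at h1
    exact le_of_pow_le_pow_left₀ (by norm_num) (by positivity) h1
  have hNYκ : (N : ℝ) ≤ Y * κ ^ 25 := by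
    have h1 : ((N : ℝ)) ^ 16 ≤ (Y : ℝ) ^ 16 * K := by exact_mod_cast hRY.hY
    rw [← hκK] at h1
    have h2 : (Y : ℝ) ^ 16 * κ ^ 400 = (Y * κ ^ 25) ^ 16 := by
      rw [mul_pow, ← pow_mul]
    rw [h2] at h1
    exact le_of_pow_le_pow_left₀ (by norm_num) (by positivity) h1
  have hκN : κ ^ 400 ≤ N := by
    rw [hκK]
    have h1 : K ^ 1 ≤ K ^ 400 := Nat.pow_le_pow_right (by omega) (by norm_num)
    rw [pow_one] at h1
    exact_mod_cast h1.trans hR.hN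
  have hsN : Real.sqrt N ≤ N / κ ^ 200 := by
    rw [le_div_iff₀ (by positivity)]
    have h1 : κ ^ 200 ≤ Real.sqrt N := by
      apply Real.le_sqrt_of_sq_le
      rw [← pow_mul]
      exact hκN
    calc Real.sqrt N * κ ^ 200 ≤ Real.sqrt N * Real.sqrt N := by gcongr
      _ = N := Real.mul_self_sqrt hN0.le
  have hEE0 : 0 ≤ EE N K := by
    unfold EE En
    positivity
  have hK4 : (K : ℝ) ^ 10 = κ ^ 4000 := by
    rw [← hκK, ← pow_mul]
  have hKκ : (K : ℝ) = κ ^ 400 := hκK.symm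
  -- pointwise
  set P : ℝ → ℂ := fun t => fh N K t + gh N K t with hP
  set a1 : ℕ → ℝ := fun Q => |(VA P Q - VA (gh N K) Q) - (ms M P - ms M (gh N K))| with ha1
  set B : ℝ := C13 * N / κ ^ 400 + C16 * Real.log N * Real.sqrt (N * EE N K) +
    C15 * Real.log N * (Real.sqrt (N * EE N K) + N / κ ^ 400) + C17 * N ^ 2 / κ ^ 4000 / Y with hB
  set R : ℝ := 4 * C14 * N * ((Y : ℝ) / N) ^ (1 / 4 : ℝ) with hRdef
  have hR0 : 0 ≤ R := by positivity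
  have hpt : ∀ Q ∈ QQ Y, |VQ P Q - mQ N Q| ≤ a1 Q + B + R := by
    intro Q hQ
    have hQ' := hQ
    unfold QQ at hQ'
    rw [mem_filter, mem_Ioc] at hQ'
    have hQ1 : 1 ≤ Q := hQ'.2.one_lt.le
    have hQY : (Y : ℝ) ≤ Q := by exact_mod_cast hQ'.1.1.le
    have hQ4 : (Q : ℝ) ≤ 4 * Y := by exact_mod_cast hQ'.1.2
    have hQ0 : (0 : ℝ) < Q := by linarith
    have h1 := p18_pt N K M Q (by omega) hQ1 P (a1 Q) _ _ _ _ _ le_rfl (h13 Q hQ) h16 h15 h17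
      (h14 Q hQ)
    refine h1.trans ?_
    have h2 : C17 * (N : ℝ) ^ 2 / (K : ℝ) ^ 10 / Q ≤ C17 * N ^ 2 / κ ^ 4000 / Y := by
      rw [hK4]
      gcongr
    have h3 : 2 * ((Q : ℝ) * (C14 * ((N : ℝ) / Q) ^ (3 / 4 : ℝ))) ≤ R := by
      have h4 := e18_pow hN0 hQ0 hQ4
      calc 2 * ((Q : ℝ) * (C14 * ((N : ℝ) / Q) ^ (3 / 4 : ℝ))) =
          2 * C14 * (Q * ((N : ℝ) / Q) ^ (3 / 4 : ℝ)) := by ring
        _ ≤ 2 * C14 * (2 * (N * ((Y : ℝ) / N) ^ (1 / 4 : ℝ))) := by gcongr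
        _ = R := by rw [hRdef]; ring
    rw [hKκ]
    rw [hKκ] at h2
    rw [hB]
    linarith
  have hB0 : 0 ≤ B := by positivity
  have hRN : R ≤ 4 * C14 * N := by
    have h1 : ((Y : ℝ) / N) ^ (1 / 4 : ℝ) ≤ 1 := by
      apply Real.rpow_le_one (by positivity) _ (by norm_num)
      rw [div_le_one hN0]
      exact hYN
    calc R ≤ 4 * C14 * N * 1 := by rw [hRdef]; gcongr
      _ = _ := by ring
  have hc0 : (0 : ℝ) ≤ ((QQ Y).card : ℝ) := Nat.cast_nonneg _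
  have hS1 : ∑ Q ∈ QQ Y, |VQ P Q - mQ N Q| ≤ ∑ Q ∈ QQ Y, a1 Q + (QQ Y).card * (B + 4 * C14 * N) := by
    calc ∑ Q ∈ QQ Y, |VQ P Q - mQ N Q| ≤ ∑ Q ∈ QQ Y, (a1 Q + (B + 4 * C14 * N)) :=
          sum_le_sum fun Q hQ => by linarith [hpt Q hQ]
      _ = _ := by rw [sum_add_distrib, sum_const, nsmul_eq_mul]
  -- Minkowski
  have hPs : ∀ Q ∈ QQ Y, SQ N Q = VQ (fun t => P t + Fh N K t) Q := by
    intro Q hQ
    unfold QQ at hQ
    rw [mem_filter, mem_Ioc] at hQ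
    rw [h20.2 N Q hQ.2.one_lt.le]
    congr 1
    funext t
    exact h20.1 N K t
  have hmk := p18_mink_sum P (Fh N K) (QQ Y)
  have hSP0 : 0 ≤ ∑ Q ∈ QQ Y, VQ P Q := sum_nonneg fun Q _ => p18_VQ_nonneg _ _
  have hSF0 : 0 ≤ ∑ Q ∈ QQ Y, VQ (Fh N K) Q := sum_nonneg fun Q _ => p18_VQ_nonneg _ _
  have hSP : ∑ Q ∈ QQ Y, VQ P Q ≤ 6 * Cq * (Y * N) + ∑ Q ∈ QQ Y, |VQ P Q - mQ N Q| := by
    have h1 : ∀ Q ∈ QQ Y, VQ P Q ≤ 6 * (N * Real.log N) + |VQ P Q - mQ N Q| := by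
      intro Q hQ
      have h2 := p18_mQ N Q Y hN3 hRY.hYN hQ
      have h3 := le_abs_self (mQ N Q)
      have h4 := le_abs_self (VQ P Q - mQ N Q)
      linarith
    refine (sum_le_sum h1).trans ?_
    rw [sum_add_distrib, sum_const, nsmul_eq_mul]
    have h2 : ((QQ Y).card : ℝ) * (6 * (N * Real.log N)) ≤
        Cq * (Y / Real.log N) * (6 * (N * Real.log N)) :=
      mul_le_mul_of_nonneg_right hcard (by positivity)
    have h3 : Cq * (Y / Real.log N) * (6 * (N * Real.log N)) = 6 * Cq * (Y * N) := by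
      field_simp
    linarith
  have htot : ∑ Q ∈ QQ Y, max 0 (|SQ N Q - mQ N Q| - R) ≤
      ∑ Q ∈ QQ Y, a1 Q + (QQ Y).card * B +
      (2 * Real.sqrt ((∑ Q ∈ QQ Y, VQ P Q) * ∑ Q ∈ QQ Y, VQ (Fh N K) Q) +
        ∑ Q ∈ QQ Y, VQ (Fh N K) Q) := by
    have h1 : ∑ Q ∈ QQ Y, max 0 (|SQ N Q - mQ N Q| - R) ≤ ∑ Q ∈ QQ Y, (a1 Q + B) +
        ∑ Q ∈ QQ Y, |VQ (fun t => P t + Fh N K t) Q - VQ P Q| := by
      rw [← sum_add_distrib]
      refine sum_le_sum fun Q hQ => ?_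
      have h4 := hpt Q hQ
      have h5 : 0 ≤ a1 Q := abs_nonneg _
      have h6 := abs_nonneg (VQ (fun t => P t + Fh N K t) Q - VQ P Q)
      apply max_le
      · linarith
      · rw [hPs Q hQ]
        have h2 : VQ (fun t => P t + Fh N K t) Q - mQ N Q =
            (VQ P Q - mQ N Q) + (VQ (fun t => P t + Fh N K t) Q - VQ P Q) := by ring
        rw [h2]
        have h3 := abs_add_le (VQ P Q - mQ N Q) (VQ (fun t => P t + Fh N K t) Q - VQ P Q)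
        linarith
    rw [sum_add_distrib, sum_const, nsmul_eq_mul] at h1
    linarith
  rw [hsK] at hEE h12
  exact e18_num hκ1 hL1 hLκ (by linarith) hN0 hNYκ he0 he1 hEE0 hEE hsN hCq hC3 hC8 hC12
    hC13 hC14 hC15 hC16 hC17 hcard h12 hB0 le_rfl hS1 hSF0 hF hSP0 hSP htot

theorem E18_pr (h3b : W03b) (h8 : W08) (h12 : W12) (h16 : W16) (h17 : W17) (h13 : W13)
    (h14 : E14) (h15 : E15) (h20 : W20) : E18 := by
  intro c₁ hc₁
  obtain ⟨C3, c3, B3, hC3, hc3, hB3, K3, H3⟩ := h3b c₁ hc₁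
  obtain ⟨C8, hC8, K8, H8⟩ := h8
  obtain ⟨C12, hC12, K12, H12⟩ := h12
  obtain ⟨C16, hC16, K16, H16⟩ := h16
  obtain ⟨C17, hC17, K17, H17⟩ := h17
  obtain ⟨C13, hC13, K13, H13⟩ := h13
  obtain ⟨C14, hC14, H14⟩ := h14
  obtain ⟨C15, hC15, K15, H15⟩ := h15
  obtain ⟨Cq, hCq, Kq, Hq⟩ := p18_card
  set Cf : ℝ := 128 * C12 + Cq * (C13 + (C16 + C15) * Real.sqrt C3 + C15 + C17) +
      2 * (C8 * (C3 + 1)) +
      2 * Real.sqrt ((6 * Cq + 256 * C12 + 2 * (Cq * (C13 + (C16 + C15) * Real.sqrt C3 + C15 + C17)) +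
        4 * C14 * Cq) * (C8 * (C3 + 1))) with hCf
  have hCf0 : 0 < Cf := by positivity
  set B : ℝ := max B3 (2 * C3 / c3) with hB
  obtain ⟨Kc, hKc⟩ := exists_nat_gt ((4 * C3) ^ 2)
  refine ⟨Cf + 4 * C14, c3 / 2, B, by positivity, by positivity, hB3.trans (le_max_left _ _),
    K3 + K8 + K12 + K16 + K17 + K13 + Kq + K15 + Kc + 100,
    fun K hK N D hR hgood hKD hDN Y hRY => ?_⟩
  have hK10 : 10 ≤ K := hR.hK
  have hKN : K ≤ N := by
    have h1 : K ^ 1 ≤ K ^ 400 := Nat.pow_le_pow_right (by omega) (by norm_num)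
    rw [pow_one] at h1
    exact h1.trans hR.hN
  have hN100 : 100 ≤ N := by omega
  have hNR : (100 : ℝ) ≤ N := by exact_mod_cast hN100
  have hN0 : (0 : ℝ) < N := by linarith
  have hL0 : 0 < Real.log N := Real.log_pos (by linarith)
  have hD2 : 2 ≤ D := by
    have h1 : K ^ 1 ≤ K ^ 20 := Nat.pow_le_pow_right (by omega) (by norm_num)
    rw [pow_one] at h1
    omega
  have hDR : (2 : ℝ) ≤ D := by exact_mod_cast hD2
  have hlD : 0 < Real.log D := Real.log_pos (by linarith)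
  have hBL : B * Real.log D ≤ Real.log N := by
    have h1 := Real.log_le_log (by positivity) hDN
    rwa [Real.log_rpow (by linarith)] at h1
  have hDN3 : (D : ℝ) ^ B3 ≤ N := by
    refine le_trans ?_ hDN
    exact Real.rpow_le_rpow_of_exponent_le (by linarith) (le_max_left _ _)
  set e0 : ℝ := Real.exp (-(c3 * Real.log N / Real.log D)) with he0
  have he00 : 0 < e0 := Real.exp_pos _
  have hexp : c3 * Real.log N / Real.log D ≥ 2 * C3 := by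
    rw [ge_iff_le, le_div_iff₀ hlD]
    have h1 : 2 * C3 / c3 ≤ B := le_max_right _ _
    have h2 : 2 * C3 ≤ B * c3 := by rwa [div_le_iff₀ hc3] at h1
    nlinarith
  have he0C : C3 * e0 ≤ 1 / 2 := by
    have h1 : (2 * C3) + 1 ≤ Real.exp (2 * C3) := by
      have := Real.add_one_le_exp (2 * C3)
      linarith
    have h2 : e0 ≤ Real.exp (-(2 * C3)) := Real.exp_le_exp.2 (by linarith)
    have h3 : Real.exp (-(2 * C3)) * Real.exp (2 * C3) = 1 := by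
      rw [← Real.exp_add]
      simp
    have h4 : 0 < Real.exp (-(2 * C3)) := Real.exp_pos _
    have h5 : Real.exp (-(2 * C3)) * (2 * C3) ≤ 1 := by nlinarith
    nlinarith
  have he01 : e0 ≤ 1 := by
    rw [he0]
    apply Real.exp_le_one_iff.2
    have : 0 < c3 * Real.log N / Real.log D := by positivity
    linarith
  have hEE3 := H3 K (by omega) N D hR hgood hKD hDN3
  have hsK : 4 * C3 ≤ Real.sqrt K := by
    apply Real.le_sqrt_of_sq_le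
    have h1 : (Kc : ℝ) ≤ K := by
      have : Kc ≤ K := by omega
      exact_mod_cast this
    linarith
  have hsK0 : 0 < Real.sqrt K := by
    have : (0 : ℝ) < 4 * C3 := by positivity
    linarith
  have hEEN : EE N K ≤ N := by
    refine hEE3.trans ?_
    have h1 : C3 * (1 / Real.sqrt K) ≤ 1 / 4 := by
      rw [mul_one_div, div_le_iff₀ hsK0]
      linarith
    calc C3 * N * (e0 + 1 / Real.sqrt K) = N * (C3 * e0 + C3 * (1 / Real.sqrt K)) := by ring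
      _ ≤ N * 1 := by
          apply mul_le_mul_of_nonneg_left _ hN0.le
          linarith
      _ = N := mul_one _
  obtain ⟨M, hM⟩ : ∃ M, Good (2 * N) M := ⟨_, CSB_good (2 * N)⟩
  have hres := e18_one (M := M) hC3 hC8 hC12 hC13 hC14 hC15 hC16 hC17 hCq he00.le he01 hR hRY
    hEE3 hN100 h20 (H8 K (by omega) N hR Y hRY) (H12 K (by omega) N hR M hM Y hRY hEEN)
    (H13 K (by omega) N hR M hM Y hRY) (H16 K (by omega) N hR M hM hEEN)
    (H17 K (by omega) N hR) ?_ (H15 K (by omega) N hR) (Hq K (by omega) N hR Y hRY)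
  · -- conclusion
    have h1 : Real.sqrt e0 = Real.exp (-(c3 / 2 * Real.log N / Real.log D)) := by
      rw [he0, ← Real.exp_half]
      congr 1
      ring
    rw [← hCf, h1] at hres
    set E : ℝ := Real.exp (-(c3 / 2 * Real.log N / Real.log D)) + 1 / (K : ℝ) ^ (1 / 400 : ℝ) with hE
    have hE0 : 0 ≤ E := by positivity
    have hY0 : (0 : ℝ) ≤ Y := Nat.cast_nonneg Y
    calc ∑ Q ∈ QQ Y, max 0 (|SQ N Q - N * (Real.log Q - Real.eulerMascheroniConstant -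
          Real.log (2 * Real.pi))| - (Cf + 4 * C14) * N * ((Y : ℝ) / N) ^ (1 / 4 : ℝ)) ≤
        ∑ Q ∈ QQ Y, max 0 (|SQ N Q - mQ N Q| - 4 * C14 * N * ((Y : ℝ) / N) ^ (1 / 4 : ℝ)) := by
          refine sum_le_sum fun Q _ => ?_
          apply max_le_max le_rfl
          have h2 : 0 ≤ Cf * N * ((Y : ℝ) / N) ^ (1 / 4 : ℝ) := by positivity
          unfold mQ
          linarith
      _ ≤ Cf * E * (N * Y) := hres
      _ ≤ (Cf + 4 * C14) * E * (N * Y) := by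
          gcongr
          linarith
      _ = _ := by ring
  · intro Q hQ
    unfold QQ at hQ
    rw [mem_filter, mem_Ioc] at hQ
    have hQ0 : (0 : ℝ) < Q := by exact_mod_cast hQ.2.pos
    have hY1 : 1 ≤ Y := hRY.hY1
    have hYR : (0 : ℝ) < Y := by exact_mod_cast hY1
    have hQY : (Y : ℝ) ≤ Q := by exact_mod_cast hQ.1.1.le
    refine H14 _ K (by positivity) (by omega) ?_
    have h1 : ((N : ℝ) / Q) ^ 8 ≤ ((N : ℝ) / Y) ^ 8 := by gcongr
    have h2 : ((N : ℝ)) ^ 16 ≤ (Y : ℝ) ^ 16 * K := by exact_mod_cast hRY.hY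
    have h3 : ((N : ℝ) / Y) ^ 16 ≤ K := by
      rw [div_pow, div_le_iff₀ (by positivity)]
      linarith
    have hYN : (Y : ℝ) ≤ N := by exact_mod_cast hRY.hYN
    have h4 : 1 ≤ (N : ℝ) / Y := by rwa [le_div_iff₀ hYR, one_mul]
    have h5 : ((N : ℝ) / Y) ^ 8 ≤ ((N : ℝ) / Y) ^ 16 := pow_le_pow_right₀ h4 (by norm_num)
    linarith

end Pool.Agent.FGP
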