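import Pool.Agent.Lib_helper3.FGP.WantedE
import Pool.Agent.Lib_helper3.FGP.P19

/-!
# FGP: effective final form
-/

set_option autoImplicit false

namespace Pool.Agent.FGP

open Finset Pool.Agent.Var35 Pool.Agent.Var73 Pool.Agent.PV
open scoped ArithmeticFunction ArithmeticFunction.Moebius
open Filter Topology

/-- facts for large `X` -/
theorem e19_X (N0 : ℕ) : ∃ X₁ : ℝ, ∀ X : ℝ, X₁ ≤ X →
    100 ≤ X ∧ (N0 : ℝ) + 1 ≤ X ∧ X ^ (3 / 4 : ℝ) + 2 ≤ X ^ (59 / 60 : ℝ) ∧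
    Real.log X + 10 + 4 * (X ^ (1 / 60 : ℝ) * Real.log X) ≤ X ^ (59 / 60 : ℝ) ∧
    Real.log X ≤ X ^ (1 / 8 : ℝ) ∧ 32 * X ^ (1 / 60 : ℝ) ≤ X ^ (1 / 8 : ℝ) := by
  have e7 : ∀ᶠ X : ℝ in atTop, Real.log X ≤ X ^ (1 / 8 : ℝ) := by
    have := (isLittleO_log_rpow_atTop (show (0 : ℝ) < 1 / 8 by norm_num)).bound one_pos
    filter_upwards [this, eventually_ge_atTop (1 : ℝ)] with x hx h1
    rw [one_mul, Real.norm_of_nonneg (Real.log_nonneg h1), Real.norm_of_nonneg (by positivity)] at hx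
    exact hx
  have e1 : ∀ᶠ X : ℝ in atTop, 100 ≤ X := eventually_ge_atTop _
  have e2 : ∀ᶠ X : ℝ in atTop, (N0 : ℝ) + 1 ≤ X := eventually_ge_atTop _
  have e3 : ∀ᶠ X : ℝ in atTop, 3 ≤ X ^ (59 / 60 - 3 / 4 : ℝ) :=
    (tendsto_rpow_atTop (by norm_num)).eventually_ge_atTop _
  have e8 : ∀ᶠ X : ℝ in atTop, 32 ≤ X ^ (1 / 8 - 1 / 60 : ℝ) :=
    (tendsto_rpow_atTop (by norm_num)).eventually_ge_atTop _
  have e5 : ∀ᶠ X : ℝ in atTop, 15 ≤ X ^ (59 / 60 - 1 / 60 - 1 / 8 : ℝ) :=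
    (tendsto_rpow_atTop (by norm_num)).eventually_ge_atTop _
  obtain ⟨X₁, hX₁⟩ := eventually_atTop.1 (e1.and (e2.and (e3.and (e5.and (e7.and e8)))))
  refine ⟨X₁, fun X hX => ?_⟩
  obtain ⟨a1, a2, a3, a4, a5, a6⟩ := hX₁ X hX
  have hX0 : 0 < X := by linarith
  have hX1 : 1 ≤ X := by linarith
  refine ⟨a1, a2, ?_, ?_, a5, ?_⟩
  · have h1 : X ^ (59 / 60 : ℝ) = X ^ (3 / 4 : ℝ) * X ^ (59 / 60 - 3 / 4 : ℝ) := by
      rw [← Real.rpow_add hX0]; norm_num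
    have h2 : 1 ≤ X ^ (3 / 4 : ℝ) := Real.one_le_rpow hX1 (by norm_num)
    rw [h1]
    nlinarith
  · have h1 : X ^ (59 / 60 : ℝ) =
        X ^ (1 / 60 : ℝ) * X ^ (1 / 8 : ℝ) * X ^ (59 / 60 - 1 / 60 - 1 / 8 : ℝ) := by
      rw [← Real.rpow_add hX0, ← Real.rpow_add hX0]; norm_num
    have h2 : 1 ≤ X ^ (1 / 60 : ℝ) := Real.one_le_rpow hX1 (by norm_num)
    have h3 : 1 ≤ X ^ (1 / 8 : ℝ) := Real.one_le_rpow hX1 (by norm_num)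
    have h4 : 0 ≤ Real.log X := Real.log_nonneg hX1
    set a : ℝ := X ^ (1 / 60 : ℝ) with ha
    set b : ℝ := X ^ (1 / 8 : ℝ) with hb
    have h5 : a * Real.log X ≤ a * b := by gcongr
    have h6 : Real.log X ≤ a * b := by nlinarith
    have h7 : 1 ≤ a * b := by nlinarith
    rw [h1]
    nlinarith
  · have h1 : X ^ (1 / 8 : ℝ) = X ^ (1 / 8 - 1 / 60 : ℝ) * X ^ (1 / 60 : ℝ) := by
      rw [← Real.rpow_add hX0]; norm_num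
    rw [h1]
    have : 0 < X ^ (1 / 60 : ℝ) := Real.rpow_pos_of_pos hX0 _
    gcongr

namespace P19S

variable {c B₀ : ℝ} {K0 D : ℕ} {X Y : ℝ} (h : P19S c B₀ K0 D X Y)
include h

theorem Dm : X ^ (-(1 / 60) : ℝ) ≤ (D : ℝ) ^ (-c) := by
  rw [Real.rpow_neg h.X0.le, Real.rpow_neg h.D0.le]
  exact inv_anti₀ (Real.rpow_pos_of_pos h.D0 _) h.Dc

theorem cardQQ : ((QQ ⌊Y⌋₊).card : ℝ) ≤ 3 * Y := by
  have h1 : (QQ ⌊Y⌋₊).card ≤ (Ioc ⌊Y⌋₊ (4 * ⌊Y⌋₊)).card := by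
    unfold QQ
    exact card_filter_le _ _
  rw [Nat.card_Ioc] at h1
  have h2 : (QQ ⌊Y⌋₊).card ≤ 3 * ⌊Y⌋₊ := by omega
  have h3 : ((QQ ⌊Y⌋₊).card : ℝ) ≤ 3 * ⌊Y⌋₊ := by exact_mod_cast h2
  linarith [h.Yf1]

/-- the summation over `Q`, effective -/
theorem totalE {C₀ c₀ : ℝ} (hC₀ : 0 < C₀) (hc₀ : c ≤ c₀ / 2) (hc2 : c ≤ 1 / 10000)
    (h1 : ∑ Q ∈ QQ ⌊Y⌋₊, |VV ⌊X⌋₊ Q - SQ ⌊X⌋₊ Q| ≤ ⌊Y⌋₊ * (⌊X⌋₊ : ℝ) ^ (1 - 1 / 4 / 8 : ℝ))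
    (h2 : ∑ Q ∈ QQ ⌊Y⌋₊, max 0 (|SQ ⌊X⌋₊ Q -
      (⌊X⌋₊ : ℝ) * (Real.log Q - Real.eulerMascheroniConstant - Real.log (2 * Real.pi))| -
        C₀ * ⌊X⌋₊ * ((⌊Y⌋₊ : ℝ) / ⌊X⌋₊) ^ (1 / 4 : ℝ)) ≤
      C₀ * (Real.exp (-(c₀ * Real.log ⌊X⌋₊ / Real.log D)) +
        1 / ((⌊(D : ℝ) ^ (1 / 20 : ℝ)⌋₊ : ℝ)) ^ (1 / 400 : ℝ)) * ⌊X⌋₊ * ⌊Y⌋₊)
    (h4 : Real.log X + 10 + 4 * (X ^ (1 / 60 : ℝ) * Real.log X) ≤ X ^ (59 / 60 : ℝ)) :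
    ∑ Q ∈ QR Y, max 0 (|GV X Q - PV0 X Q - MTQ X Q| - C₀ * X * (Y / X) ^ (1 / 4 : ℝ)) ≤
      (C₀ + 4) * (Real.exp (-(c * Real.log X / Real.log D)) + (D : ℝ) ^ (-c)) * Real.log X * X *
        (Y / Real.log Y) := by
  have hX0 := h.X0
  have hY0 := h.Y0
  have hlX := h.logX
  have hlY := h.logY
  have hlYX := h.logYX
  have hlN := h.logN
  have hX1 : 1 ≤ X := by linarith [h.x1]
  set E : ℝ := Real.exp (-(c * Real.log X / Real.log D)) with hE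
  have hE0 : 0 < E := Real.exp_pos _
  set F : ℝ := (D : ℝ) ^ (-c) with hF
  have hF0 : 0 < F := Real.rpow_pos_of_pos h.D0 _
  have hFX : X ^ (-(1 / 60) : ℝ) ≤ F := h.Dm
  have hsub := h.sub
  set e0 : ℝ := Real.log X + 10 + 4 * (X ^ (1 / 60 : ℝ) * Real.log X) with he0
  have he00 : 0 ≤ e0 := by
    have := Real.rpow_pos_of_pos hX0 (1 / 60)
    have : 0 ≤ X ^ (1 / 60 : ℝ) * Real.log X := by positivity
    linarith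
  have hN0 : (0 : ℝ) < (⌊X⌋₊ : ℝ) := by linarith [h.N3, h.x1]
  -- the subtracted term
  have hR : C₀ * ⌊X⌋₊ * ((⌊Y⌋₊ : ℝ) / ⌊X⌋₊) ^ (1 / 4 : ℝ) ≤ C₀ * X * (Y / X) ^ (1 / 4 : ℝ) := by
    have e1 : ∀ a b : ℝ, 0 < a → 0 ≤ b → a * (b / a) ^ (1 / 4 : ℝ) =
        a ^ (3 / 4 : ℝ) * b ^ (1 / 4 : ℝ) := by
      intro a b ha hb
      rw [Real.div_rpow hb ha.le]
      have h3 : a ^ (3 / 4 : ℝ) = a / a ^ (1 / 4 : ℝ) := by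
        rw [eq_div_iff (Real.rpow_pos_of_pos ha _).ne', ← Real.rpow_add ha]
        norm_num
      rw [h3]
      ring
    have h5 : (⌊X⌋₊ : ℝ) * ((⌊Y⌋₊ : ℝ) / ⌊X⌋₊) ^ (1 / 4 : ℝ) ≤ X * (Y / X) ^ (1 / 4 : ℝ) := by
      rw [e1 _ _ hN0 (Nat.cast_nonneg _), e1 _ _ hX0 hY0.le]
      have := h.N1
      have := h.Yf1
      gcongr
    calc C₀ * ⌊X⌋₊ * ((⌊Y⌋₊ : ℝ) / ⌊X⌋₊) ^ (1 / 4 : ℝ) =
        C₀ * (⌊X⌋₊ * ((⌊Y⌋₊ : ℝ) / ⌊X⌋₊) ^ (1 / 4 : ℝ)) := by ring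
      _ ≤ C₀ * (X * (Y / X) ^ (1 / 4 : ℝ)) := by gcongr
      _ = _ := by ring
  -- split
  have s1 : ∑ Q ∈ QR Y, max 0 (|GV X Q - PV0 X Q - MTQ X Q| - C₀ * X * (Y / X) ^ (1 / 4 : ℝ)) ≤
      ∑ Q ∈ QQ ⌊Y⌋₊, |VV ⌊X⌋₊ Q - SQ ⌊X⌋₊ Q| + ∑ Q ∈ QQ ⌊Y⌋₊, max 0 (|SQ ⌊X⌋₊ Q -
      (⌊X⌋₊ : ℝ) * (Real.log Q - Real.eulerMascheroniConstant - Real.log (2 * Real.pi))| -
        C₀ * ⌊X⌋₊ * ((⌊Y⌋₊ : ℝ) / ⌊X⌋₊) ^ (1 / 4 : ℝ)) +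
      ((QQ ⌊Y⌋₊).card : ℝ) * e0 := by
    have s2 : ∀ Q ∈ QR Y, max 0 (|GV X Q - PV0 X Q - MTQ X Q| - C₀ * X * (Y / X) ^ (1 / 4 : ℝ)) ≤
        |VV ⌊X⌋₊ Q - SQ ⌊X⌋₊ Q| + max 0 (|SQ ⌊X⌋₊ Q -
        (⌊X⌋₊ : ℝ) * (Real.log Q - Real.eulerMascheroniConstant - Real.log (2 * Real.pi))| -
        C₀ * ⌊X⌋₊ * ((⌊Y⌋₊ : ℝ) / ⌊X⌋₊) ^ (1 / 4 : ℝ)) + e0 := by
      intro Q hQ
      have h5 := h.term hQ
      have h6 := abs_nonneg (VV ⌊X⌋₊ Q - SQ ⌊X⌋₊ Q)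
      have h7 := le_max_left (0 : ℝ) (|SQ ⌊X⌋₊ Q -
        (⌊X⌋₊ : ℝ) * (Real.log Q - Real.eulerMascheroniConstant - Real.log (2 * Real.pi))| -
        C₀ * ⌊X⌋₊ * ((⌊Y⌋₊ : ℝ) / ⌊X⌋₊) ^ (1 / 4 : ℝ))
      have h8 := le_max_right (0 : ℝ) (|SQ ⌊X⌋₊ Q -
        (⌊X⌋₊ : ℝ) * (Real.log Q - Real.eulerMascheroniConstant - Real.log (2 * Real.pi))| -
        C₀ * ⌊X⌋₊ * ((⌊Y⌋₊ : ℝ) / ⌊X⌋₊) ^ (1 / 4 : ℝ))
      apply max_le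
      · linarith
      · rw [← he0] at h5
        linarith
    refine (sum_le_sum s2).trans ?_
    refine (sum_le_sum_of_subset_of_nonneg hsub fun Q _ _ => ?_).trans ?_
    · have := le_max_left (0 : ℝ) (|SQ ⌊X⌋₊ Q -
        (⌊X⌋₊ : ℝ) * (Real.log Q - Real.eulerMascheroniConstant - Real.log (2 * Real.pi))| -
        C₀ * ⌊X⌋₊ * ((⌊Y⌋₊ : ℝ) / ⌊X⌋₊) ^ (1 / 4 : ℝ))
      have := abs_nonneg (VV ⌊X⌋₊ Q - SQ ⌊X⌋₊ Q)
      linarith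
    · rw [sum_add_distrib, sum_add_distrib, sum_const, nsmul_eq_mul]
  -- first part
  have b1 : (⌊Y⌋₊ : ℝ) * (⌊X⌋₊ : ℝ) ^ (1 - 1 / 4 / 8 : ℝ) ≤ F * X * Y := by
    have g1 : (⌊X⌋₊ : ℝ) ^ (1 - 1 / 4 / 8 : ℝ) ≤ X ^ (31 / 32 : ℝ) := by
      have : (1 - 1 / 4 / 8 : ℝ) = 31 / 32 := by norm_num
      rw [this]
      exact Real.rpow_le_rpow (Nat.cast_nonneg _) h.N1 (by norm_num)
    have g2 : X ^ (31 / 32 : ℝ) ≤ F * X := by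
      calc X ^ (31 / 32 : ℝ) ≤ X ^ (-(1 / 60) + 1 : ℝ) :=
            Real.rpow_le_rpow_of_exponent_le hX1 (by norm_num)
        _ = X ^ (-(1 / 60) : ℝ) * X := by rw [Real.rpow_add hX0, Real.rpow_one]
        _ ≤ _ := by gcongr
    calc (⌊Y⌋₊ : ℝ) * (⌊X⌋₊ : ℝ) ^ (1 - 1 / 4 / 8 : ℝ) ≤ Y * (F * X) := by
          have := h.Yf1
          have := g1.trans g2
          gcongr
      _ = _ := by ring
  -- second part
  have b2 : C₀ * (Real.exp (-(c₀ * Real.log ⌊X⌋₊ / Real.log D)) +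
        1 / ((⌊(D : ℝ) ^ (1 / 20 : ℝ)⌋₊ : ℝ)) ^ (1 / 400 : ℝ)) * ⌊X⌋₊ * ⌊Y⌋₊ ≤
      C₀ * (E + F) * X * Y := by
    have hlD : 0 < Real.log D := Real.log_pos (by linarith [h.d1])
    have g1 : Real.exp (-(c₀ * Real.log ⌊X⌋₊ / Real.log D)) ≤ E := by
      rw [hE]
      apply Real.exp_le_exp.2
      apply neg_le_neg
      apply div_le_div_of_nonneg_right _ hlD.le
      have hc := h.hc
      nlinarith
    have g2 : 1 / ((⌊(D : ℝ) ^ (1 / 20 : ℝ)⌋₊ : ℝ)) ^ (1 / 400 : ℝ) ≤ F := by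
      have hD0 := h.D0
      have g3 : (D : ℝ) ^ (1 / 25 : ℝ) ≤ (⌊(D : ℝ) ^ (1 / 20 : ℝ)⌋₊ : ℝ) := by
        have := h.K25
        have := Real.rpow_pos_of_pos hD0 (1 / 25)
        linarith
      have g4 : (D : ℝ) ^ c ≤ ((⌊(D : ℝ) ^ (1 / 20 : ℝ)⌋₊ : ℝ)) ^ (1 / 400 : ℝ) := by
        calc (D : ℝ) ^ c ≤ (D : ℝ) ^ (1 / 25 * (1 / 400) : ℝ) :=
              Real.rpow_le_rpow_of_exponent_le (by linarith [h.d1]) (by linarith)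
          _ = ((D : ℝ) ^ (1 / 25 : ℝ)) ^ (1 / 400 : ℝ) := Real.rpow_mul hD0.le _ _
          _ ≤ _ := Real.rpow_le_rpow (Real.rpow_nonneg hD0.le _) g3 (by norm_num)
      rw [hF, Real.rpow_neg hD0.le, ← one_div]
      have := Real.rpow_pos_of_pos hD0 c
      gcongr
    have g5 := h.N1
    have g6 := h.Yf1
    have g7 : 0 ≤ 1 / ((⌊(D : ℝ) ^ (1 / 20 : ℝ)⌋₊ : ℝ)) ^ (1 / 400 : ℝ) := by positivity
    gcongr
  -- third part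
  have b3 : ((QQ ⌊Y⌋₊).card : ℝ) * e0 ≤ 3 * (F * X * Y) := by
    have g2 : e0 ≤ F * X := by
      calc e0 ≤ X ^ (59 / 60 : ℝ) := h4
        _ = X ^ (-(1 / 60) + 1 : ℝ) := by norm_num
        _ = X ^ (-(1 / 60) : ℝ) * X := by rw [Real.rpow_add hX0, Real.rpow_one]
        _ ≤ _ := by gcongr
    calc ((QQ ⌊Y⌋₊).card : ℝ) * e0 ≤ (3 * Y) * (F * X) := by
          have := h.cardQQ
          gcongr
      _ = _ := by ring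
  have hXY : X * Y ≤ Real.log X * X * (Y / Real.log Y) := by
    have h5 : 1 ≤ Real.log X / Real.log Y := by
      rw [le_div_iff₀ (by linarith)]
      linarith
    calc X * Y = 1 * (X * Y) := by ring
      _ ≤ Real.log X / Real.log Y * (X * Y) := by gcongr
      _ = _ := by ring
  calc _ ≤ F * X * Y + C₀ * (E + F) * X * Y + 3 * (F * X * Y) :=
        s1.trans (add_le_add (add_le_add (h1.trans b1) (h2.trans b2)) b3)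
    _ ≤ (C₀ + 4) * (E + F) * (X * Y) := by
        have : 0 ≤ E * (X * Y) := by positivity
        nlinarith
    _ ≤ (C₀ + 4) * (E + F) * (Real.log X * X * (Y / Real.log Y)) := by gcongr
    _ = _ := by ring

end P19S

theorem WALLE_pr (h18 : E18) : WALLE := by
  obtain ⟨c₁, hc₁, hfreq⟩ := Pool.Agent.GA.good_frequently
  obtain ⟨C₀, c₀, B₀, hC₀, hc₀, hB₀, K0, hmain⟩ := h18 c₁ hc₁
  obtain ⟨Z₀, hZ⟩ := Pool.Agent.NZ.near_zero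
  obtain ⟨N0, hN0⟩ := cmp_pr (1 / 4) (by norm_num)
  obtain ⟨X₁, hX₁⟩ := e19_X N0
  set c : ℝ := min (c₀ / 2) (1 / 10000) with hc
  have hcpos : 0 < c := lt_min (by positivity) (by norm_num)
  have hc1 : c ≤ 1 / 10000 := min_le_right _ _
  obtain ⟨D₀, hD₀⟩ := p19_D c (B₀ + 60) 0 X₁ hcpos K0
  have core : ∀ D : ℕ, Pool.Agent.GA.Good c₁ D → D₀ ≤ (D : ℝ) → ∀ X Y : ℝ,
      (D : ℝ) ^ (B₀ + 60) ≤ X → X ≤ Real.exp ((D : ℝ) ^ c) → X * (D : ℝ) ^ (-c) ≤ Y → Y ≤ X / 2 →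
      P19S c B₀ 0 D X Y ∧
      ∑ Q ∈ QR Y, max 0 (|GV X Q - PV0 X Q - MTQ X Q| - C₀ * X * (Y / X) ^ (1 / 4 : ℝ)) ≤
      (C₀ + 4) * (Real.exp (-(c * Real.log X / Real.log D)) + (D : ℝ) ^ (-c)) * Real.log X * X *
        (Y / Real.log Y) := by
    intro D hgood hDD X Y hX hX2 hY hYX
    obtain ⟨d1, -, d3, d4, d5, -⟩ := hD₀ D hDD
    have hDB : (D : ℝ) ≤ (D : ℝ) ^ (B₀ + 60) := by
      calc (D : ℝ) = (D : ℝ) ^ (1 : ℝ) := (Real.rpow_one _).symm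
        _ ≤ _ := Real.rpow_le_rpow_of_exponent_le (by linarith) (by linarith)
    have hXX : X₁ ≤ X := d3.trans (hDB.trans hX)
    obtain ⟨x1, x2, x3, x4, x5, x6⟩ := hX₁ X hXX
    have hK00 : (0 : ℝ) ≤ K0 := Nat.cast_nonneg _
    have h : P19S c B₀ 0 D X Y := ⟨hcpos, hc1.trans (by norm_num), hB₀, d1, by
      push_cast
      linarith, d5, x1, hX, hX2, hY, by push_cast; linarith⟩
    refine ⟨h, ?_⟩
    have hNN0 : N0 ≤ ⌊X⌋₊ := by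
      apply Nat.le_floor
      linarith
    have hKK : K0 ≤ ⌊(D : ℝ) ^ (1 / 20 : ℝ)⌋₊ := by
      have h1 : (K0 : ℝ) ≤ (⌊(D : ℝ) ^ (1 / 20 : ℝ)⌋₊ : ℝ) := by linarith [h.Kf2]
      exact_mod_cast h1
    have hcond : (⌊X⌋₊ : ℝ) ^ (1 / 2 + 1 / 4 : ℝ) ≤ (⌊Y⌋₊ : ℝ) := by
      have h1 : (⌊X⌋₊ : ℝ) ^ (1 / 2 + 1 / 4 : ℝ) ≤ X ^ (3 / 4 : ℝ) := by
        have : (1 / 2 + 1 / 4 : ℝ) = 3 / 4 := by norm_num
        rw [this]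
        exact Real.rpow_le_rpow (Nat.cast_nonneg _) h.N1 (by norm_num)
      have h2 := Nat.lt_floor_add_one Y
      linarith [h.Y1]
    exact h.totalE hC₀ (min_le_left _ _) hc1 (hN0 _ hNN0 _ hcond (Nat.floor_le_floor h.YX))
      (hmain _ hKK _ D h.rg hgood h.K20 h.DB _ h.ry) x4
  refine ⟨{D | Pool.Agent.GA.Good c₁ D ∧ D₀ ≤ (D : ℝ)}, ?_, c, C₀ + 5, B₀ + 60, Z₀, hcpos,
    by positivity, by linarith, ?_, ?_, hZ⟩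
  · rintro ⟨b, hb⟩
    obtain ⟨n₀, hn₀⟩ := exists_nat_ge D₀
    obtain ⟨D, hD, hgood⟩ := Filter.frequently_atTop.1 hfreq (max n₀ (b + 1))
    have h1 : n₀ ≤ D := (le_max_left _ _).trans hD
    have h2 : b + 1 ≤ D := (le_max_right _ _).trans hD
    have h3 : D₀ ≤ (D : ℝ) := hn₀.trans (by exact_mod_cast h1)
    have h4 : D ∈ {D : ℕ | Pool.Agent.GA.Good c₁ D ∧ D₀ ≤ (D : ℝ)} := ⟨hgood, h3⟩
    have := hb h4
    omega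
  · -- all `X`
    intro D hD X Y hX hX2 hY hYX
    obtain ⟨h, h1⟩ := core D hD.1 hD.2 X Y hX hX2 hY hYX
    refine (sum_le_sum fun Q _ => max_le_max le_rfl (sub_le_sub_left ?_ _)).trans
      (h1.trans ?_)
    · have := h.X0
      have := h.Y0
      gcongr
      linarith
    · have := h.X0
      have := h.Y0
      have := h.logY
      have := h.logX
      have := h.D0
      have h5 : C₀ + 4 ≤ C₀ + 5 := by linarith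
      gcongr
  · -- special `X`
    intro D hD N hX hX2 hN Y hY hYX
    obtain ⟨h, h1⟩ := core D hD.1 hD.2 N Y hX hX2 hY hYX
    have hXX : X₁ ≤ (N : ℝ) := by
      obtain ⟨d1, -, d3, -, -, -⟩ := hD₀ D hD.2
      have hDB : (D : ℝ) ≤ (D : ℝ) ^ (B₀ + 60) := by
        calc (D : ℝ) = (D : ℝ) ^ (1 : ℝ) := (Real.rpow_one _).symm
          _ ≤ _ := Real.rpow_le_rpow_of_exponent_le (by linarith) (by linarith)
      exact d3.trans (hDB.trans hX)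
    obtain ⟨x1, x2, x3, x4, x5, x6⟩ := hX₁ N hXX
    have hX0 := h.X0
    have hY0 := h.Y0
    have hlY := h.logY
    have hlX := h.logX
    have hD0 := h.D0
    have hF0 : 0 < (D : ℝ) ^ (-c) := Real.rpow_pos_of_pos hD0 _
    have hDc := h.Dc
    have h2 := h.pv0 (N := N) (η := (D : ℝ) ^ (-c)) rfl hF0 hN x5 (by
      rw [Real.rpow_neg hD0.le, div_inv_eq_mul]
      refine le_trans ?_ x6
      gcongr)
    set E : ℝ := Real.exp (-(c * Real.log N / Real.log D)) with hE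
    have hE0 : 0 < E := Real.exp_pos _
    calc ∑ Q ∈ QR Y, max 0 (|GV N Q - MTQ N Q| - (C₀ + 5) * N * (Y / N) ^ (1 / 4 : ℝ)) ≤
        ∑ Q ∈ QR Y, (max 0 (|GV N Q - PV0 N Q - MTQ N Q| - C₀ * N * (Y / N) ^ (1 / 4 : ℝ)) +
          |PV0 N Q|) := by
          refine sum_le_sum fun Q _ => ?_
          have h3 := abs_add_le (GV N Q - PV0 N Q - MTQ N Q) (PV0 N Q)
          have e3 : GV N Q - PV0 N Q - MTQ N Q + PV0 N Q = GV N Q - MTQ N Q := by ring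
          rw [e3] at h3
          have h4 := abs_nonneg (PV0 N Q)
          have h6 : 0 ≤ 5 * N * (Y / N) ^ (1 / 4 : ℝ) := by positivity
          have h7 := le_max_left (0 : ℝ)
            (|GV N Q - PV0 N Q - MTQ N Q| - C₀ * N * (Y / N) ^ (1 / 4 : ℝ))
          have h8 := le_max_right (0 : ℝ)
            (|GV N Q - PV0 N Q - MTQ N Q| - C₀ * N * (Y / N) ^ (1 / 4 : ℝ))
          apply max_le
          · linarith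
          · linarith
      _ = ∑ Q ∈ QR Y, max 0 (|GV N Q - PV0 N Q - MTQ N Q| - C₀ * N * (Y / N) ^ (1 / 4 : ℝ)) +
          ∑ Q ∈ QR Y, |PV0 N Q| := sum_add_distrib
      _ ≤ (C₀ + 4) * (E + (D : ℝ) ^ (-c)) * Real.log N * N * (Y / Real.log Y) +
          (D : ℝ) ^ (-c) * N * (Y / Real.log Y) := add_le_add h1 h2
      _ ≤ (C₀ + 4) * (E + (D : ℝ) ^ (-c)) * Real.log N * N * (Y / Real.log Y) +
          (E + (D : ℝ) ^ (-c)) * Real.log N * N * (Y / Real.log Y) := by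
          have h5 : (D : ℝ) ^ (-c) ≤ (E + (D : ℝ) ^ (-c)) * Real.log N := by nlinarith
          gcongr
      _ = _ := by ring

end Pool.Agent.FGP
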