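import Pool.Agent.Lib_helper3.FGP.P19

/-!
# FGP: final forms
-/

set_option autoImplicit false

namespace Pool.Agent.FGP

open Finset Pool.Agent.Var35 Pool.Agent.Var73 Pool.Agent.PV
open scoped ArithmeticFunction ArithmeticFunction.Moebius
open Filter Topology

/-- the second order asymptotic, for every good level `D` -/
def WNEAR : Prop := ∀ c₁ : ℝ, 0 < c₁ → ∃ c C B : ℝ, 0 < c ∧ c ≤ 1 ∧ 0 < C ∧ 1 ≤ B ∧ ∀ η : ℝ, 0 < η →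
  ∃ C' D₀ : ℝ, ∀ D : ℕ, Pool.Agent.GA.Good c₁ D → D₀ ≤ D →
  (∀ X Y : ℝ, (D : ℝ) ^ B ≤ X → X ≤ Real.exp ((D : ℝ) ^ c) → X * (D : ℝ) ^ (-c) ≤ Y →
    C' * Y ≤ X → ∑ Q ∈ QR Y, |GV X Q - PV0 X Q - MTQ X Q| ≤
      (C * Real.exp (-(c * Real.log X / Real.log D)) * Real.log X + η) * X * (Y / Real.log Y)) ∧
  (∀ (N : ℕ) (Y : ℝ), (D : ℝ) ^ B ≤ N → (N : ℝ) ≤ Real.exp ((D : ℝ) ^ c) →
    |∑ n ∈ Icc 1 N, ArithmeticFunction.vonMangoldt n - N| ≤ (N : ℝ) ^ (3 / 4 : ℝ) →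
    N * (D : ℝ) ^ (-c) ≤ Y → C' * Y ≤ N → ∑ Q ∈ QR Y, |GV N Q - MTQ N Q| ≤
      (C * Real.exp (-(c * Real.log N / Real.log D)) * Real.log N + η) * N * (Y / Real.log Y))

theorem WNEAR_pr (h18 : W18) : WNEAR := by
  intro c₁ hc₁
  obtain ⟨C₀, c₀, B₀, hC₀, hc₀, hB₀, hmain⟩ := h18 c₁ hc₁
  obtain ⟨Cq, hCq, hcard⟩ := qq_card_pr
  set c : ℝ := min (c₀ / 2) (1 / 2500) with hc
  have hcpos : 0 < c := lt_min (by positivity) (by norm_num)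
  refine ⟨c, 2 * C₀, B₀ + 60, hcpos, (min_le_right _ _).trans (by norm_num), by positivity,
    by linarith, fun η hη => ?_⟩
  obtain ⟨K0, hK0⟩ := hmain (η / 16) (by positivity)
  obtain ⟨N0, hN0⟩ := cmp_pr (1 / 4) (by norm_num)
  obtain ⟨X₁, hX₁⟩ := p19_X (η / 8) (η / 2 / (8 * Cq)) (by positivity) (by positivity) N0
  obtain ⟨D₀, hD₀⟩ := p19_D c (B₀ + 60) 0 X₁ hcpos K0
  refine ⟨2 * (K0 : ℝ) + 2, D₀, fun D hgood hD => ?_⟩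
  obtain ⟨d1, -, d3, d4, d5, -⟩ := hD₀ D hD
  have hD0 : (0 : ℝ) < D := by linarith
  have hDB : (D : ℝ) ≤ (D : ℝ) ^ (B₀ + 60) := by
    calc (D : ℝ) = (D : ℝ) ^ (1 : ℝ) := (Real.rpow_one _).symm
      _ ≤ _ := Real.rpow_le_rpow_of_exponent_le (by linarith) (by linarith)
  have core : ∀ X Y : ℝ, (D : ℝ) ^ (B₀ + 60) ≤ X → X ≤ Real.exp ((D : ℝ) ^ c) →
      X * (D : ℝ) ^ (-c) ≤ Y → (2 * (K0 : ℝ) + 2) * Y ≤ X →
      P19S c B₀ K0 D X Y ∧ ∑ Q ∈ QR Y, |GV X Q - PV0 X Q - MTQ X Q| ≤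
      (2 * C₀ * Real.exp (-(c * Real.log X / Real.log D)) * Real.log X + η / 2) * X *
        (Y / Real.log Y) := by
    intro X Y hX hX2 hY hYX
    have hXX : X₁ ≤ X := d3.trans (hDB.trans hX)
    obtain ⟨x1, x2, x3, x4, x5, _, _⟩ := hX₁ X hXX
    have h : P19S c B₀ K0 D X Y := ⟨hcpos, min_le_right _ _, hB₀, d1, d4, d5, x1, hX, hX2, hY, hYX⟩
    refine ⟨h, ?_⟩
    have hNN0 : N0 ≤ ⌊X⌋₊ := by
      apply Nat.le_floor
      linarith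
    have hcond : (⌊X⌋₊ : ℝ) ^ (1 / 2 + 1 / 4 : ℝ) ≤ (⌊Y⌋₊ : ℝ) := by
      have h1 : (⌊X⌋₊ : ℝ) ^ (1 / 2 + 1 / 4 : ℝ) ≤ X ^ (3 / 4 : ℝ) := by
        have : (1 / 2 + 1 / 4 : ℝ) = 3 / 4 := by norm_num
        rw [this]
        exact Real.rpow_le_rpow (Nat.cast_nonneg _) h.N1 (by norm_num)
      have h2 := Nat.lt_floor_add_one Y
      linarith [h.Y1]
    refine h.total (η := η / 2) (c₀ := c₀) (Cq := Cq) (by positivity) hC₀ (min_le_left _ _) hCq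
      (hcard _ (by have := h.yf; omega)) (hN0 _ hNN0 _ hcond (Nat.floor_le_floor h.YX)) ?_ ?_ ?_
    · have e : η / 2 / 8 = η / 16 := by ring
      rw [e]
      exact hK0 _ h.KK0 _ D h.rg hgood h.K20 h.DB _ h.ry h.KY
    · have e : η / 2 / 4 = η / 8 := by ring
      rw [e]
      exact x4
    · exact x5
  refine ⟨?_, ?_⟩
  · intro X Y hX hX2 hY hYX
    obtain ⟨h, h1⟩ := core X Y hX hX2 hY hYX
    refine h1.trans ?_
    have := h.X0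
    have := h.Y0
    have := h.logY
    have h2 : 0 ≤ Y / Real.log Y := by positivity
    have h3 : η / 2 ≤ η := by linarith
    gcongr
  · intro N Y hX hX2 n3 hY hYX
    obtain ⟨h, h1⟩ := core N Y hX hX2 hY hYX
    have hXX : X₁ ≤ (N : ℝ) := d3.trans (hDB.trans hX)
    obtain ⟨_, _, _, _, _, x7, x8⟩ := hX₁ N hXX
    have h2 := h.pv0 (N := N) (η := η / 2) rfl (by positivity) n3 x7 (by
      refine le_trans ?_ x8
      apply div_le_div_of_nonneg_left (by norm_num) (by positivity) (by linarith))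
    calc ∑ Q ∈ QR Y, |GV N Q - MTQ N Q| ≤
        ∑ Q ∈ QR Y, (|GV N Q - PV0 N Q - MTQ N Q| + |PV0 N Q|) := by
          refine sum_le_sum fun Q _ => ?_
          refine le_trans (le_of_eq ?_) (abs_add_le _ _)
          congr 1
          ring
      _ = ∑ Q ∈ QR Y, |GV N Q - PV0 N Q - MTQ N Q| + ∑ Q ∈ QR Y, |PV0 N Q| := sum_add_distrib
      _ ≤ _ := add_le_add h1 h2
      _ = _ := by ring

/-- the final statement -/
def WALL : Prop := ∃ S : Set ℕ, ¬ BddAbove S ∧ ∀ ε : ℝ, 0 < ε →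
  ∃ c C B : ℝ, 0 < c ∧ 0 < C ∧ 1 ≤ B ∧ ∀ η : ℝ, 0 < η → ∃ C' X₀ : ℝ,
  (∀ X Y : ℝ, X₀ ≤ X → X ^ (1 / 2 + ε) ≤ Y → Y ≤ X →
    ∑ Q ∈ QR Y, |GV X Q - PV0 X Q - X * Real.log Q| ≤
      (C * Real.log (X / Y) + η * Real.log X) * X * (Y / Real.log Y)) ∧
  (∀ D ∈ S, X₀ ≤ D → ∀ X Y : ℝ, (D : ℝ) ^ B ≤ X → X ≤ Real.exp ((D : ℝ) ^ c) →
    X * (D : ℝ) ^ (-c) ≤ Y → C' * Y ≤ X →
    ∑ Q ∈ QR Y, |GV X Q - PV0 X Q - MTQ X Q| ≤
      (C * Real.exp (-(c * Real.log X / Real.log D)) * Real.log X + η) * X * (Y / Real.log Y)) ∧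
  (∀ N : ℕ, X₀ ≤ N → |∑ n ∈ Icc 1 N, ArithmeticFunction.vonMangoldt n - N| ≤ (N : ℝ) ^ (3 / 4 : ℝ) →
    (∀ Y : ℝ, (N : ℝ) ^ (1 / 2 + ε) ≤ Y → Y ≤ N →
      ∑ Q ∈ QR Y, |GV N Q - N * Real.log Q| ≤
        (C * Real.log (N / Y) + η * Real.log N) * N * (Y / Real.log Y)) ∧
    (∀ D ∈ S, X₀ ≤ D → (D : ℝ) ^ B ≤ N → (N : ℝ) ≤ Real.exp ((D : ℝ) ^ c) → ∀ Y : ℝ,
      N * (D : ℝ) ^ (-c) ≤ Y → C' * Y ≤ N →
      ∑ Q ∈ QR Y, |GV N Q - MTQ N Q| ≤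
        (C * Real.exp (-(c * Real.log N / Real.log D)) * Real.log N + η) * N *
          (Y / Real.log Y))) ∧
  (∀ x : ℝ, X₀ ≤ x → ∃ N : ℕ, x ≤ N ∧ (N : ℝ) ≤ x ^ 40 ∧
    |∑ n ∈ Icc 1 N, ArithmeticFunction.vonMangoldt n - N| ≤ (N : ℝ) ^ (3 / 4 : ℝ))

theorem WALL_pr (h18 : W18) (hsc : WSC) : WALL := by
  obtain ⟨c₁, hc₁, hfreq⟩ := Pool.Agent.GA.good_frequently
  obtain ⟨c, C₀, B, hc, hc1, hC₀, hB, hnear⟩ := WNEAR_pr h18 c₁ hc₁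
  obtain ⟨Z₀, hZ⟩ := hsc
  refine ⟨{D | Pool.Agent.GA.Good c₁ D}, ?_, fun ε hε => ?_⟩
  · rintro ⟨b, hb⟩
    obtain ⟨D, hD, hgood⟩ := Filter.frequently_atTop.1 hfreq (b + 1)
    have := hb hgood
    omega
  obtain ⟨Cf, hCf⟩ := Pool.Agent.NZ.full_variance_at ε hε
  obtain ⟨Cp, hCp⟩ := Pool.Agent.PV.fin ε hε
  refine ⟨c, C₀ + |Cf| + |Cp|, B, hc, by positivity, hB, fun η hη => ?_⟩
  obtain ⟨C', D₀, hD₀⟩ := hnear η hη
  obtain ⟨Z₁, hZ₁⟩ := hCf η hη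
  obtain ⟨X₁, hX₁⟩ := hCp η hη
  have enl : ∀ L1 L2 X Z : ℝ, 0 ≤ L1 → 0 ≤ X → 0 ≤ Z → ∀ C : ℝ, C ≤ C₀ + |Cf| + |Cp| →
      (C * L1 + L2) * X * Z ≤ ((C₀ + |Cf| + |Cp|) * L1 + L2) * X * Z := by
    intro L1 L2 X Z h1 h2 h3 C h4
    gcongr
  have hC1 : Cf ≤ C₀ + |Cf| + |Cp| := by linarith [le_abs_self Cf, abs_nonneg Cp]
  have hC2 : Cp ≤ C₀ + |Cf| + |Cp| := by linarith [le_abs_self Cp, abs_nonneg Cf]
  have hC3 : C₀ ≤ C₀ + |Cf| + |Cp| := by linarith [abs_nonneg Cp, abs_nonneg Cf]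
  -- facts on ranges
  have pos1 : ∀ X Y : ℝ, 1 ≤ X → X ^ (1 / 2 + ε) ≤ Y → Y ≤ X →
      0 ≤ Real.log (X / Y) ∧ 0 ≤ X ∧ 0 ≤ Y / Real.log Y := by
    intro X Y hX1 hY hYX
    have hX0 : 0 < X := by linarith
    have hY0 : 0 < Y := lt_of_lt_of_le (Real.rpow_pos_of_pos hX0 _) hY
    have hY1 : 1 ≤ Y := le_trans (Real.one_le_rpow hX1 (by positivity)) hY
    refine ⟨?_, hX0.le, div_nonneg hY0.le (Real.log_nonneg hY1)⟩
    apply Real.log_nonneg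
    rw [le_div_iff₀ hY0]
    linarith
  have pos2 : ∀ (D : ℕ) (X Y : ℝ), (4 : ℝ) ≤ D → (D : ℝ) ^ B ≤ X → X * (D : ℝ) ^ (-c) ≤ Y →
      0 ≤ Real.exp (-(c * Real.log X / Real.log D)) * Real.log X ∧ 0 ≤ X ∧ 0 ≤ Y / Real.log Y := by
    intro D X Y hD hX hY
    have hD0 : (0 : ℝ) < D := by linarith
    have h1 : (1 : ℝ) ≤ (D : ℝ) ^ B := Real.one_le_rpow (by linarith) (by linarith)
    have h2 : (1 : ℝ) ≤ Y := by
      refine le_trans ?_ hY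
      calc (1 : ℝ) ≤ (D : ℝ) ^ (B - c) := Real.one_le_rpow (by linarith) (by linarith)
        _ = (D : ℝ) ^ B * (D : ℝ) ^ (-c) := by rw [← Real.rpow_add hD0]; ring_nf
        _ ≤ _ := by gcongr
    refine ⟨mul_nonneg (Real.exp_pos _).le (Real.log_nonneg (h1.trans hX)), by linarith,
      div_nonneg (by linarith) (Real.log_nonneg h2)⟩
  refine ⟨C', max (max (max X₁ Z₁) (max D₀ Z₀)) 4, ?_, ?_, ?_, ?_⟩
  · intro X Y hX hY hYX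
    have hXX : X₁ ≤ X := ((le_max_left _ _).trans ((le_max_left _ _).trans (le_max_left _ _))).trans hX
    have hX4 : 4 ≤ X := (le_max_right _ _).trans hX
    obtain ⟨p1, p2, p3⟩ := pos1 X Y (by linarith) hY hYX
    exact (hX₁ X Y hXX hY hYX).trans (enl _ _ _ _ p1 p2 p3 _ hC2)
  · intro D hD hXD X Y hX hX2 hY hYX
    have hDD : D₀ ≤ (D : ℝ) :=
      ((le_max_left _ _).trans ((le_max_right _ _).trans (le_max_left _ _))).trans hXD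
    have hD4 : (4 : ℝ) ≤ D := (le_max_right _ _).trans hXD
    obtain ⟨p1, p2, p3⟩ := pos2 D X Y hD4 hX hY
    refine ((hD₀ D hD hDD).1 X Y hX hX2 hY hYX).trans ?_
    rw [mul_assoc C₀, mul_assoc (C₀ + |Cf| + |Cp|)]
    exact enl _ _ _ _ p1 p2 p3 _ hC3
  · intro N hN n3
    refine ⟨?_, ?_⟩
    · intro Y hY hYX
      have hN4 : (4 : ℝ) ≤ N := (le_max_right _ _).trans hN
      have hZN : Z₁ ≤ (N : ℝ) :=
        ((le_max_right _ _).trans ((le_max_left _ _).trans (le_max_left _ _))).trans hN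
      obtain ⟨p1, p2, p3⟩ := pos1 N Y (by linarith) hY hYX
      refine le_trans (le_of_eq ?_)
        ((hZ₁ N hZN n3 Y hY hYX).trans (enl _ _ _ _ p1 p2 p3 _ hC1))
      refine sum_congr rfl fun Q _ => ?_
      unfold GV
      rw [Nat.floor_natCast]
    · intro D hD hXD hX hX2 Y hY hYX
      have hDD : D₀ ≤ (D : ℝ) :=
        ((le_max_left _ _).trans ((le_max_right _ _).trans (le_max_left _ _))).trans hXD
      have hD4 : (4 : ℝ) ≤ D := (le_max_right _ _).trans hXD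
      obtain ⟨p1, p2, p3⟩ := pos2 D N Y hD4 hX hY
      refine ((hD₀ D hD hDD).2 N Y hX hX2 n3 hY hYX).trans ?_
      rw [mul_assoc C₀, mul_assoc (C₀ + |Cf| + |Cp|)]
      exact enl _ _ _ _ p1 p2 p3 _ hC3
  · intro x hx
    have hZx : Z₀ ≤ x :=
      ((le_max_right _ _).trans ((le_max_right _ _).trans (le_max_left _ _))).trans hx
    obtain ⟨N, n1, n2, n3⟩ := hZ x hZx
    refine ⟨N, n1, ?_, n3⟩
    have e : x ^ (40 : ℝ) = x ^ (40 : ℕ) := by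
      rw [← Real.rpow_natCast]
      norm_num
    rwa [e] at n2

end Pool.Agent.FGP
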