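import Pool.Agent.Lib_helper3.FGP.Wanted

/-!
# FGP, block P04: the multiplier (helper56)
-/

set_option autoImplicit false

namespace Pool.Agent.FGP

open Finset Pool.Agent.Var35 Pool.Agent.Var73 Pool.Agent.PV
open scoped ArithmeticFunction ArithmeticFunction.Moebius

/-- the reduced fractions with denominators `≤ K` -/
def p04_R (K : ℕ) : Finset (Σ _ : ℕ, ℕ) := (Icc 1 K).sigma (fun d => Cd d)

theorem p04_Wt (N K : ℕ) (t : ℝ) :
    Wt N K t = ∑ x ∈ p04_R K, vh N K (t - (x.2 : ℝ) / x.1) ^ 2 := by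
  unfold Wt p04_R
  rw [Finset.sum_sigma]

theorem p04_card (K : ℕ) : ((p04_R K).card : ℝ) ≤ (K : ℝ) ^ 2 := by
  unfold p04_R
  rw [Finset.card_sigma]
  have h : ∑ d ∈ Icc 1 K, (Cd d).card ≤ ∑ d ∈ Icc 1 K, K := by
    refine Finset.sum_le_sum fun d hd => ?_
    rw [card_Cd]
    exact le_trans (Nat.totient_le d) (Finset.mem_Icc.1 hd).2
  have h2 : ∑ d ∈ Icc 1 K, K = K * K := by
    rw [Finset.sum_const, Nat.card_Icc, smul_eq_mul]
    simp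
  rw [h2] at h
  have h3 : ((∑ d ∈ Icc 1 K, (Cd d).card : ℕ) : ℝ) ≤ ((K * K : ℕ) : ℝ) := by exact_mod_cast h
  calc ((∑ d ∈ Icc 1 K, (Cd d).card : ℕ) : ℝ) ≤ ((K * K : ℕ) : ℝ) := h3
    _ = (K : ℝ) ^ 2 := by push_cast; ring

theorem p04_nn_nonneg (x : ℝ) : 0 ≤ nn x := abs_nonneg _

theorem p04_nn_le (x : ℝ) : nn x ≤ |x| := by
  have := round_le x 0
  simpa [nn] using this

theorem p04_nn_add (x : ℝ) (n : ℤ) : nn (x + n) = nn x := by
  unfold nn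
  rw [round_add_intCast]
  push_cast
  congr 1
  ring

theorem p04_sep {K : ℕ} (hK : 1 ≤ K) (t : ℝ) {x y : Σ _ : ℕ, ℕ} (hx : x ∈ p04_R K)
    (hy : y ∈ p04_R K) (hxy : x ≠ y) :
    1 / (K : ℝ) ^ 2 ≤ nn (t - (x.2 : ℝ) / x.1) + nn (t - (y.2 : ℝ) / y.1) := by
  have h := farey_sep_gen (Icc 1 K) K (fun d hd => Finset.mem_Icc.1 hd) hK x hx y hy hxy
    (round (t - (y.2 : ℝ) / y.1) - round (t - (x.2 : ℝ) / x.1))
  refine le_trans h ?_
  push_cast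
  have e : (x.2 : ℝ) / x.1 - (y.2 : ℝ) / y.1 -
      ((round (t - (y.2 : ℝ) / y.1) : ℝ) - (round (t - (x.2 : ℝ) / x.1) : ℝ)) =
      ((t - (y.2 : ℝ) / y.1) - (round (t - (y.2 : ℝ) / y.1) : ℝ)) -
      ((t - (x.2 : ℝ) / x.1) - (round (t - (x.2 : ℝ) / x.1) : ℝ)) := by ring
  rw [e]
  refine le_trans (abs_sub _ _) ?_
  unfold nn
  linarith

/-- the width of the window is large -/
theorem p04_Hw {N K : ℕ} (h : Rg K N) : (K : ℝ) ^ 8 ≤ Hw N K ∧ 0 < (K : ℝ) ∧ 0 < (N : ℝ) ∧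
    2 * (K : ℝ) ^ 3 ≤ N ∧ (10 : ℝ) ≤ K := by
  have hK10 : (10 : ℝ) ≤ K := by exact_mod_cast h.hK
  have hK0 : (0 : ℝ) < K := by linarith
  have hK1 : (1 : ℝ) ≤ K := by linarith
  have hN : (K : ℝ) ^ 400 ≤ N := by exact_mod_cast h.hN
  have hN0 : (0 : ℝ) < N := lt_of_lt_of_le (by positivity) hN
  refine ⟨?_, hK0, hN0, ?_, hK10⟩
  · unfold Hw
    rw [le_div_iff₀ (by positivity)]
    calc (K : ℝ) ^ 8 * (K : ℝ) ^ 8 = (K : ℝ) ^ 16 := by ring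
      _ ≤ (K : ℝ) ^ 400 := pow_le_pow_right₀ hK1 (by norm_num)
      _ ≤ N := hN
  · calc 2 * (K : ℝ) ^ 3 ≤ K * (K : ℝ) ^ 3 := by
          apply mul_le_mul_of_nonneg_right (by linarith) (by positivity)
      _ = (K : ℝ) ^ 4 := by ring
      _ ≤ (K : ℝ) ^ 400 := pow_le_pow_right₀ hK1 (by norm_num)
      _ ≤ N := hN

/-- far from the fraction -/
theorem p04_far {N K : ℕ} (h : Rg K N) {C : ℝ}
    (h1 : ∀ b, |vh N K b| ≤ 1) (h2 : ∀ b, |vh N K b| * (Hw N K * nn b) ^ 2 ≤ C) {b : ℝ}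
    (hb : 1 / (2 * (K : ℝ) ^ 2) ≤ nn b) : vh N K b ^ 2 ≤ C / (K : ℝ) ^ 10 := by
  obtain ⟨hH, hK0, hN0, -, hK10⟩ := p04_Hw h
  have hK1 : (1 : ℝ) ≤ K := by linarith
  have e1 : (K : ℝ) ^ 5 ≤ Hw N K * nn b := by
    calc (K : ℝ) ^ 5 = (K : ℝ) ^ 8 / K ^ 3 := by field_simp
      _ ≤ (K : ℝ) ^ 8 / (2 * K ^ 2) := by
          apply div_le_div_of_nonneg_left (by positivity) (by positivity)
          have : (K : ℝ) ^ 3 = K * K ^ 2 := by ring
          rw [this]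
          exact mul_le_mul_of_nonneg_right (by linarith) (by positivity)
      _ = (K : ℝ) ^ 8 * (1 / (2 * (K : ℝ) ^ 2)) := by ring
      _ ≤ Hw N K * nn b := mul_le_mul hH hb (by positivity) (le_trans (by positivity) hH)
  have e2 : (K : ℝ) ^ 10 ≤ (Hw N K * nn b) ^ 2 := by
    calc (K : ℝ) ^ 10 = ((K : ℝ) ^ 5) ^ 2 := by ring
      _ ≤ (Hw N K * nn b) ^ 2 := pow_le_pow_left₀ (by positivity) e1 2
  have e3 : |vh N K b| * (K : ℝ) ^ 10 ≤ C :=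
    le_trans (mul_le_mul_of_nonneg_left e2 (abs_nonneg _)) (h2 b)
  have e4 : vh N K b ^ 2 ≤ |vh N K b| := by
    rw [← sq_abs, sq]
    calc |vh N K b| * |vh N K b| ≤ |vh N K b| * 1 :=
          mul_le_mul_of_nonneg_left (h1 b) (abs_nonneg _)
      _ = |vh N K b| := mul_one _
  rw [le_div_iff₀ (by positivity)]
  exact le_trans (mul_le_mul_of_nonneg_right e4 (by positivity)) e3

/-- a sum over fractions far from `t` -/
theorem p04_rest {N K : ℕ} (h : Rg K N) {C : ℝ} (hC : 0 ≤ C)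
    (h1 : ∀ b, |vh N K b| ≤ 1) (h2 : ∀ b, |vh N K b| * (Hw N K * nn b) ^ 2 ≤ C) (t : ℝ)
    (A : Finset (Σ _ : ℕ, ℕ)) (hA : A ⊆ p04_R K)
    (hf : ∀ x ∈ A, 1 / (2 * (K : ℝ) ^ 2) ≤ nn (t - (x.2 : ℝ) / x.1)) :
    ∑ x ∈ A, vh N K (t - (x.2 : ℝ) / x.1) ^ 2 ≤ C / (K : ℝ) ^ 8 := by
  obtain ⟨-, hK0, -, -, -⟩ := p04_Hw h
  calc ∑ x ∈ A, vh N K (t - (x.2 : ℝ) / x.1) ^ 2 ≤ ∑ x ∈ A, C / (K : ℝ) ^ 10 :=
        Finset.sum_le_sum fun x hx => p04_far h h1 h2 (hf x hx)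
    _ = (A.card : ℝ) * (C / (K : ℝ) ^ 10) := by rw [Finset.sum_const, nsmul_eq_mul]
    _ ≤ (K : ℝ) ^ 2 * (C / (K : ℝ) ^ 10) := by
        refine mul_le_mul_of_nonneg_right ?_ (by positivity)
        refine le_trans ?_ (p04_card K)
        exact_mod_cast Finset.card_le_card hA
    _ = C / (K : ℝ) ^ 8 := by field_simp

/-- one fraction near `t`: the others are far -/
theorem p04_others {N K : ℕ} (h : Rg K N) {t : ℝ} {x : Σ _ : ℕ, ℕ} (hx : x ∈ p04_R K)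
    (hn : nn (t - (x.2 : ℝ) / x.1) ≤ 1 / (2 * (K : ℝ) ^ 2)) :
    ∀ y ∈ (p04_R K).erase x, 1 / (2 * (K : ℝ) ^ 2) ≤ nn (t - (y.2 : ℝ) / y.1) := by
  intro y hy
  rw [Finset.mem_erase] at hy
  have hK : 1 ≤ K := le_trans (by norm_num) h.hK
  obtain ⟨-, hK0, -, -, -⟩ := p04_Hw h
  have := p04_sep hK t hx hy.2 (Ne.symm hy.1)
  have e : 1 / (K : ℝ) ^ 2 = 1 / (2 * (K : ℝ) ^ 2) + 1 / (2 * (K : ℝ) ^ 2) := by
    field_simp; norm_num
  rw [e] at this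
  linarith

theorem W04_pr (h : W01) : W04 := by
  obtain ⟨C, hC, K0, h⟩ := h
  refine ⟨3 * C, by positivity, max K0 ⌈C⌉₊, ?_⟩
  intro K hK N hR
  have hK0 : K0 ≤ K := le_trans (le_max_left _ _) hK
  have hKC : C ≤ K := by
    have : ⌈C⌉₊ ≤ K := le_trans (le_max_right _ _) hK
    exact le_trans (Nat.le_ceil C) (by exact_mod_cast this)
  obtain ⟨-, -, h1, h3, h2⟩ := h K hK0 N hR
  obtain ⟨hH, hKp, hNp, hN3, hK10⟩ := p04_Hw hR
  have hK1 : (1 : ℝ) ≤ K := by linarith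
  have hsq : ∀ b, vh N K b ^ 2 ≤ 1 := fun b => by
    rw [← sq_abs]
    have h0 := abs_nonneg (vh N K b)
    have h4 := h1 b
    nlinarith
  have hC8 : C / (K : ℝ) ^ 8 ≤ 1 := by
    rw [div_le_one (by positivity)]
    refine le_trans hKC ?_
    calc (K : ℝ) = (K : ℝ) ^ 1 := (pow_one _).symm
      _ ≤ (K : ℝ) ^ 8 := pow_le_pow_right₀ hK1 (by norm_num)
  constructor
  · intro t
    rw [p04_Wt]
    refine ⟨Finset.sum_nonneg fun x _ => sq_nonneg _, ?_⟩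
    by_cases hx : ∃ x ∈ p04_R K, nn (t - (x.2 : ℝ) / x.1) ≤ 1 / (2 * (K : ℝ) ^ 2)
    · obtain ⟨x, hx, hn⟩ := hx
      rw [← Finset.add_sum_erase _ _ hx]
      have e1 := p04_rest hR hC.le h1 h2 t ((p04_R K).erase x) (Finset.erase_subset _ _)
        (p04_others hR hx hn)
      have e2 := hsq (t - (x.2 : ℝ) / x.1)
      linarith
    · push Not at hx
      have e1 := p04_rest hR hC.le h1 h2 t (p04_R K) (Finset.Subset.refl _)
        (fun x hx' => (hx x hx').le)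
      linarith
  · intro t c r hr hc ht
    have hr' := Finset.mem_Icc.1 hr
    have hr0 : (0 : ℝ) < r := by exact_mod_cast hr'.1
    have hrz : (0 : ℤ) < r := by exact_mod_cast hr'.1
    -- the residue
    obtain ⟨m, hm⟩ := Int.eq_ofNat_of_zero_le (Int.emod_nonneg c hrz.ne')
    have hmr : m < r := by
      have := Int.emod_lt_of_pos c hrz
      rw [hm] at this
      exact_mod_cast this
    have hdiv : c = m + r * (c / r) := by
      rw [← hm]; exact (Int.emod_add_mul_ediv c r).symm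
    have hcop : Nat.Coprime m r := by
      rw [← Nat.isCoprime_iff_coprime]
      have h5 : IsCoprime (c + r * (-(c / r))) (r : ℤ) := hc.add_mul_left_left _
      have h6 : c + r * (-(c / r)) = (m : ℤ) := by linarith
      rwa [h6] at h5
    have hx : (⟨r, m⟩ : Σ _ : ℕ, ℕ) ∈ p04_R K := by
      unfold p04_R
      rw [Finset.mem_sigma]
      refine ⟨hr, ?_⟩
      simp only [Cd, Finset.mem_filter, Finset.mem_range]
      exact ⟨hmr, hcop⟩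
    have hcr : t - (m : ℝ) / r = (t - (c : ℝ) / r) + ((c / r : ℤ) : ℝ) := by
      have h7 : (c : ℝ) = m + r * ((c / r : ℤ) : ℝ) := by
        calc (c : ℝ) = (((m : ℤ) + r * (c / r) : ℤ) : ℝ) := by rw [← hdiv]
          _ = m + r * ((c / r : ℤ) : ℝ) := by push_cast; rfl
      have h8 : (c : ℝ) / r = m / r + ((c / r : ℤ) : ℝ) := by
        rw [h7]
        field_simp
      rw [h8]; ring
    have hnn : nn (t - (m : ℝ) / r) ≤ K / N := by
      rw [hcr, p04_nn_add]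
      exact le_trans (p04_nn_le _) ht
    have hKN : (K : ℝ) / N ≤ 1 / (2 * (K : ℝ) ^ 2) := by
      rw [div_le_div_iff₀ hNp (by positivity)]
      calc (K : ℝ) * (2 * (K : ℝ) ^ 2) = 2 * (K : ℝ) ^ 3 := by ring
        _ ≤ 1 * (N : ℝ) := by rw [one_mul]; exact hN3
    have e1 := p04_rest hR hC.le h1 h2 t ((p04_R K).erase ⟨r, m⟩) (Finset.erase_subset _ _)
      (p04_others hR hx (le_trans hnn hKN))
    have e0 : 0 ≤ ∑ x ∈ (p04_R K).erase ⟨r, m⟩, vh N K (t - (x.2 : ℝ) / x.1) ^ 2 :=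
      Finset.sum_nonneg fun x _ => sq_nonneg _
    rw [p04_Wt, ← Finset.add_sum_erase _ _ hx]
    have e2 : |1 - vh N K (t - (m : ℝ) / r)| ≤ C / (K : ℝ) ^ 7 := by
      refine le_trans (h3 _) ?_
      have e3 : Hw N K * nn (t - (m : ℝ) / r) ≤ 1 / (K : ℝ) ^ 7 := by
        calc Hw N K * nn (t - (m : ℝ) / r) ≤ Hw N K * (K / N) :=
              mul_le_mul_of_nonneg_left hnn (le_trans (by positivity) hH)
          _ = 1 / (K : ℝ) ^ 7 := by unfold Hw; field_simp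
      calc C * (Hw N K * nn (t - (m : ℝ) / r)) ≤ C * (1 / (K : ℝ) ^ 7) :=
            mul_le_mul_of_nonneg_left e3 hC.le
        _ = C / (K : ℝ) ^ 7 := by ring
    have e4 : |1 - vh N K (t - (m : ℝ) / r) ^ 2| ≤ 2 * (C / (K : ℝ) ^ 7) := by
      have e5 : 1 - vh N K (t - (m : ℝ) / r) ^ 2 =
          (1 + vh N K (t - (m : ℝ) / r)) * (1 - vh N K (t - (m : ℝ) / r)) := by ring
      rw [e5, abs_mul]
      refine mul_le_mul ?_ e2 (abs_nonneg _) (by norm_num)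
      calc |1 + vh N K (t - (m : ℝ) / r)| ≤ |(1 : ℝ)| + |vh N K (t - (m : ℝ) / r)| :=
            abs_add_le _ _
        _ ≤ 1 + 1 := by rw [abs_one]; exact add_le_add le_rfl (h1 _)
        _ = 2 := by norm_num
    have e6 : C / (K : ℝ) ^ 8 ≤ C / (K : ℝ) ^ 7 :=
      div_le_div_of_nonneg_left hC.le (by positivity)
        (pow_le_pow_right₀ hK1 (by norm_num))
    have e7 : 1 - (vh N K (t - (m : ℝ) / r) ^ 2 +
        ∑ x ∈ (p04_R K).erase ⟨r, m⟩, vh N K (t - (x.2 : ℝ) / x.1) ^ 2) =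
        (1 - vh N K (t - (m : ℝ) / r) ^ 2) -
        ∑ x ∈ (p04_R K).erase ⟨r, m⟩, vh N K (t - (x.2 : ℝ) / x.1) ^ 2 := by ring
    show |1 - (vh N K (t - (m : ℝ) / r) ^ 2 +
        ∑ x ∈ (p04_R K).erase ⟨r, m⟩, vh N K (t - (x.2 : ℝ) / x.1) ^ 2)| ≤ _
    rw [e7]
    refine le_trans (abs_sub _ _) ?_
    rw [abs_of_nonneg e0]
    have e8 : 3 * C / (K : ℝ) ^ 7 = 2 * (C / (K : ℝ) ^ 7) + C / (K : ℝ) ^ 7 := by ring
    rw [e8]
    exact add_le_add e4 (le_trans e1 e6)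

end Pool.Agent.FGP
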