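import Pool.Agent.Lib_helper3.FGP.Wanted

/-!
# FGP, block P05: the part `fh` is small everywhere
-/

set_option autoImplicit false

namespace Pool.Agent.FGP

open Finset Pool.Agent.Var35 Pool.Agent.Var73 Pool.Agent.PV
open scoped ArithmeticFunction ArithmeticFunction.Moebius

theorem p05_e (x : ℝ) : ‖e x‖ = 1 := by
  unfold e
  exact Complex.norm_exp_ofReal_mul_I _

theorem p05_Ps (N : ℕ) (hN : 1 ≤ N) (t : ℝ) : ‖Ps N t‖ ≤ N * Real.log N := by
  unfold Ps Bs
  refine (norm_sum_le _ _).trans ?_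
  have h1 : ∀ n ∈ Icc 1 N, ‖((aS N n : ℝ) : ℂ) * e (n * t)‖ ≤ Real.log N := by
    intro n hn
    rw [mem_Icc] at hn
    rw [norm_mul, p05_e, mul_one, Complex.norm_real, Real.norm_eq_abs]
    have hn1 : (1 : ℝ) ≤ n := by exact_mod_cast hn.1
    have hnN : (n : ℝ) ≤ N := by exact_mod_cast hn.2
    unfold aS
    split_ifs
    · rw [abs_of_nonneg (Real.log_nonneg hn1)]
      exact Real.log_le_log (by linarith) hnN
    · rw [abs_zero]
      exact Real.log_nonneg (by exact_mod_cast hN)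
  refine (sum_le_sum h1).trans (le_of_eq ?_)
  rw [sum_const, Nat.card_Icc, nsmul_eq_mul, Nat.add_sub_cancel]

theorem W05_pr (h : W04) : W05 := by
  obtain ⟨C1, hC1, K1, h1⟩ := h
  obtain ⟨C2, hC2, h2⟩ := sup_minor_pr
  refine ⟨2 * C2 + C1, by positivity, max K1 10, fun K hK N hR M hM j hj => ?_⟩
  have hK1 : K1 ≤ K := (le_max_left _ _).trans hK
  have hK10 : 10 ≤ K := (le_max_right _ _).trans hK
  obtain ⟨hW, hWm⟩ := h1 K hK1 N hR
  have hKN : K ≤ N := by
    have : K ^ 1 ≤ K ^ 400 := Nat.pow_le_pow_right (by omega) (by norm_num)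
    rw [pow_one] at this
    exact this.trans hR.hN
  have hN10 : 10 ≤ N := hK10.trans hKN
  have hKr : (10 : ℝ) ≤ K := by exact_mod_cast hK10
  have hNr : (10 : ℝ) ≤ N := by exact_mod_cast hN10
  have hK0 : (0 : ℝ) < K := by linarith
  have hN0 : (0 : ℝ) < N := by linarith
  have hlog : 0 ≤ Real.log N := Real.log_nonneg (by linarith)
  have hL1 : (1 : ℝ) ≤ 1 + Real.log N := by linarith
  have hsq : 0 < Real.sqrt K := Real.sqrt_pos.2 hK0
  have hL6 : (1 : ℝ) ≤ (1 + Real.log N) ^ 6 := one_le_pow₀ hL1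
  have hNK : 0 ≤ (N : ℝ) / Real.sqrt K := by positivity
  have hfh : ‖fh N K (j / M)‖ = ‖Ps N (j / M)‖ * |1 - Wt N K (j / M)| := by
    unfold fh
    rw [norm_mul, Complex.norm_real, Real.norm_eq_abs]
  rw [hfh]
  by_cases hmj : j ∈ MJ N M K
  · obtain ⟨-, r, hr, c, hc, hcr⟩ := CSA_mem_MJ N M K j hmj
    have hr1 : (1 : ℝ) ≤ r := by exact_mod_cast (mem_Icc.1 hr).1
    have h3 : |(j / M : ℝ) - c / r| ≤ K / N := by
      refine hcr.trans ?_
      apply div_le_div_of_nonneg_left hK0.le hN0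
      nlinarith
    have h4 := hWm (j / M) c r hr hc h3
    have h5 := p05_Ps N (by omega) (j / M)
    have hK7 : Real.sqrt K ≤ (K : ℝ) ^ 7 := by
      have h6 : Real.sqrt K ≤ K := by
        rw [Real.sqrt_le_left hK0.le]
        nlinarith
      have h7 : (K : ℝ) ^ 1 ≤ (K : ℝ) ^ 7 := pow_le_pow_right₀ (by linarith) (by norm_num)
      rw [pow_one] at h7
      exact h6.trans h7
    have h8 : Real.log N ≤ (1 + Real.log N) ^ 6 := by
      have h9 : (1 + Real.log N) ^ 1 ≤ (1 + Real.log N) ^ 6 := pow_le_pow_right₀ hL1 (by norm_num)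
      rw [pow_one] at h9
      linarith
    calc ‖Ps N (j / M)‖ * |1 - Wt N K (j / M)| ≤ (N * Real.log N) * (C1 / (K : ℝ) ^ 7) :=
          mul_le_mul h5 h4 (abs_nonneg _) (by positivity)
      _ ≤ (N * Real.log N) * (C1 / Real.sqrt K) := by
          apply mul_le_mul_of_nonneg_left _ (by positivity)
          exact div_le_div_of_nonneg_left hC1.le hsq hK7
      _ = C1 * (N / Real.sqrt K) * Real.log N := by ring
      _ ≤ C1 * (N / Real.sqrt K) * (1 + Real.log N) ^ 6 := by
          apply mul_le_mul_of_nonneg_left h8 (by positivity)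
      _ ≤ (2 * C2 + C1) * (N / Real.sqrt K) * (1 + Real.log N) ^ 6 := by
          apply mul_le_mul_of_nonneg_right _ (by positivity)
          apply mul_le_mul_of_nonneg_right _ hNK
          linarith
  · have h3 := h2 N (by omega) M K (by have := hM.1; omega) (by omega) hKN j
      (mem_sdiff.2 ⟨hj, hmj⟩)
    have h4 : |1 - Wt N K (j / M)| ≤ 1 := by
      have := hW (j / M)
      rw [abs_le]
      constructor <;> linarith [this.1, this.2]
    have h5 : (N : ℝ) ^ (4 / 5 : ℝ) ≤ N / Real.sqrt K := by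
      rw [le_div_iff₀ hsq]
      have h6 : Real.sqrt K ≤ (N : ℝ) ^ (1 / 5 : ℝ) := by
        have h7 : Real.sqrt K ≤ K := by
          rw [Real.sqrt_le_left hK0.le]
          nlinarith
        have h8 : (K : ℝ) ≤ (N : ℝ) ^ (1 / 5 : ℝ) := by
          have h9 : (K : ℝ) ^ 5 ≤ N := by
            have h10 : K ^ 5 ≤ K ^ 400 := Nat.pow_le_pow_right (by omega) (by norm_num)
            exact_mod_cast h10.trans hR.hN
          calc (K : ℝ) = ((K : ℝ) ^ 5) ^ (1 / 5 : ℝ) := by
                rw [← Real.rpow_natCast, ← Real.rpow_mul hK0.le]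
                norm_num
            _ ≤ (N : ℝ) ^ (1 / 5 : ℝ) := Real.rpow_le_rpow (by positivity) h9 (by norm_num)
        exact h7.trans h8
      calc (N : ℝ) ^ (4 / 5 : ℝ) * Real.sqrt K ≤ (N : ℝ) ^ (4 / 5 : ℝ) * (N : ℝ) ^ (1 / 5 : ℝ) :=
            mul_le_mul_of_nonneg_left h6 (by positivity)
        _ = N := by
            rw [← Real.rpow_add hN0]
            norm_num
    calc ‖Ps N (j / M)‖ * |1 - Wt N K (j / M)| ≤ ‖Ps N (j / M)‖ * 1 :=
          mul_le_mul_of_nonneg_left h4 (norm_nonneg _)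
      _ = ‖Ps N (j / M)‖ := mul_one _
      _ ≤ C2 * (N / Real.sqrt K + (N : ℝ) ^ (4 / 5 : ℝ)) * (1 + Real.log N) ^ 6 := h3
      _ ≤ C2 * (N / Real.sqrt K + N / Real.sqrt K) * (1 + Real.log N) ^ 6 := by
          apply mul_le_mul_of_nonneg_right _ (by positivity)
          apply mul_le_mul_of_nonneg_left _ hC2.le
          linarith
      _ = 2 * C2 * (N / Real.sqrt K) * (1 + Real.log N) ^ 6 := by ring
      _ ≤ (2 * C2 + C1) * (N / Real.sqrt K) * (1 + Real.log N) ^ 6 := by
          apply mul_le_mul_of_nonneg_right _ (by positivity)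
          apply mul_le_mul_of_nonneg_right _ hNK
          linarith

end Pool.Agent.FGP
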