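import Pool.Agent.Lib_helper3.FGP.Wanted

set_option autoImplicit false

namespace Pool.Agent.FGP

open Finset Pool.Agent.Var35 Pool.Agent.Var73 Pool.Agent.PV
open scoped ArithmeticFunction ArithmeticFunction.Moebius

/-! ### Trigonometric polynomials -/

theorem p08_e (x y : ℝ) : e (x + y) = e x * e y := by
  unfold e
  rw [← Complex.exp_add]
  congr 1
  push_cast
  ring

theorem p08_en (x : ℝ) : ‖e x‖ = 1 := by
  unfold e
  exact Complex.norm_exp_ofReal_mul_I _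

theorem p08_bs {N : ℕ} {w : ℤ} (_hw0 : 0 ≤ w) (hw : 4 * w + 1 ≤ N) {P : ℝ → ℂ}
    (hP : TP (1 - 2 * w) (N + 2 * w) P) : ∃ b : ℕ → ℂ, ∀ t, ‖P t‖ = ‖Bs b (2 * N) t‖ := by
  obtain ⟨c, hc⟩ := hP
  refine ⟨fun m => if (m : ℤ) ≤ N + 4 * w then c (m - 2 * w) else 0, fun t => ?_⟩
  have h1 : Bs (fun m => if (m : ℤ) ≤ N + 4 * w then c (m - 2 * w) else 0) (2 * N) t =
      e ((2 * w : ℤ) * t) * P t := by
    unfold Bs
    rw [hc t, mul_sum]
    have h2 : ∀ m ∈ Icc 1 (2 * N), (if (m : ℤ) ≤ N + 4 * w then c (m - 2 * w) else 0) * e (m * t) =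
        if (m : ℤ) ≤ N + 4 * w then c (m - 2 * w) * e (m * t) else 0 := by
      intro m _
      split_ifs <;> simp
    rw [sum_congr rfl h2, ← sum_filter]
    refine sum_bij' (fun (m : ℕ) _ => (m : ℤ) - 2 * w) (fun (n : ℤ) _ => (n + 2 * w).toNat) ?_ ?_
      ?_ ?_ ?_
    · intro m hm
      rw [mem_filter, mem_Icc] at hm
      rw [mem_Icc]
      omega
    · intro n hn
      rw [mem_Icc] at hn
      rw [mem_filter, mem_Icc]
      omega
    · intro m hm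
      rw [mem_filter, mem_Icc] at hm
      show ((m : ℤ) - 2 * w + 2 * w).toNat = m
      omega
    · intro n hn
      rw [mem_Icc] at hn
      show (((n + 2 * w).toNat : ℕ) : ℤ) - 2 * w = n
      omega
    · intro m hm
      have h3 : e ((m : ℝ) * t) = e (((2 * w : ℤ) : ℝ) * t) * e ((((m : ℤ) - 2 * w : ℤ) : ℝ) * t) := by
        rw [← p08_e]
        congr 1
        push_cast
        ring
      rw [h3]
      ring
  rw [h1, norm_mul, p08_en, one_mul]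

/-! ### Variance and kernel -/

theorem p08_var {N Q M : ℕ} (hN : 1 ≤ N) (hM : 4 * N < M) (b : ℕ → ℂ) {P : ℝ → ℂ}
    (hP : ∀ t, ‖P t‖ = ‖Bs b N t‖) :
    VQ P Q = mean M (range M) (fun t => ‖P t‖ ^ 2 * Eo N Q t) := by
  have h2 : ∀ c : ℕ, ‖P ((c : ℝ) / Q)‖ ^ 2
      = (1 / (M : ℝ)) * ∑ j ∈ range M, ‖P ((j : ℝ) / M)‖ ^ 2 * Wk N ((j : ℝ) / M - (c : ℝ) / Q) := by
    intro c
    simp only [hP]
    exact (rep N M hN hM b ((c : ℝ) / Q)).symm
  unfold VQ mean Eo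
  simp_rw [h2]
  simp only [Finset.mul_sum]
  rw [Finset.sum_comm]
  refine sum_congr rfl fun j _ => sum_congr rfl fun c _ => ?_
  ring

theorem p08_mean_le {M : ℕ} {F G : ℝ → ℝ} (h : ∀ j ∈ range M, F (j / M) ≤ G (j / M)) :
    mean M (range M) F ≤ mean M (range M) G := by
  unfold mean
  exact mul_le_mul_of_nonneg_left (sum_le_sum h) (by positivity)

theorem p08_Ea (N Y : ℕ) (hN : 1 ≤ N) (t : ℝ) : ∑ Q ∈ QQ Y, Ea N Q t ≤ 15 * N * Y := by
  have h1 : ∀ Q ∈ QQ Y, Ea N Q t ≤ 5 * N := by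
    intro Q hQ
    have hQ0 : (0 : ℝ) < Q := by
      have := (mem_filter.1 hQ).2.pos
      exact_mod_cast this
    unfold Ea
    have h2 : ∑ b ∈ Ico 1 Q, |Wk N (t - b / Q)| ≤ ∑ b ∈ Ico 1 Q, (5 * N : ℝ) :=
      sum_le_sum fun b _ => wk_le N hN _
    rw [sum_const, Nat.card_Ico, nsmul_eq_mul] at h2
    have h3 : ((Q - 1 : ℕ) : ℝ) ≤ Q := by exact_mod_cast Nat.sub_le Q 1
    calc (1 / (Q : ℝ)) * ∑ b ∈ Ico 1 Q, |Wk N (t - b / Q)| ≤
        (1 / (Q : ℝ)) * (((Q - 1 : ℕ) : ℝ) * (5 * N)) := by gcongr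
      _ ≤ (1 / (Q : ℝ)) * (Q * (5 * N)) := by gcongr
      _ = 5 * N := by field_simp
  calc ∑ Q ∈ QQ Y, Ea N Q t ≤ ∑ Q ∈ QQ Y, (5 * N : ℝ) := sum_le_sum h1
    _ = (QQ Y).card * (5 * N) := by rw [sum_const, nsmul_eq_mul]
    _ ≤ (3 * Y) * (5 * N) := by
      gcongr
      exact CSA_QQ_card Y
    _ = 15 * N * Y := by ring

/-! ### Cauchy -/

theorem p08_cauchy (N K : ℕ) (t : ℝ) : ‖Fh N K t‖ ^ 2 ≤ Wt N K t *
    ∑ r ∈ Icc 1 K, ∑ c ∈ Cd r, vh N K (t - c / r) ^ 2 * ‖Xc N c r t‖ ^ 2 := by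
  set S := (Icc 1 K).sigma Cd with hS
  set f : (Σ _ : ℕ, ℕ) → ℝ := fun x => |vh N K (t - x.2 / x.1)| with hf
  set g : (Σ _ : ℕ, ℕ) → ℝ := fun x => |vh N K (t - x.2 / x.1)| * ‖Xc N x.2 x.1 t‖ with hg
  have h1 : ‖Fh N K t‖ ≤ ∑ x ∈ S, f x * g x := by
    unfold Fh
    rw [hS, sum_sigma]
    refine (norm_sum_le _ _).trans (sum_le_sum fun r _ => (norm_sum_le _ _).trans
      (sum_le_sum fun c _ => ?_))
    rw [norm_mul, Complex.norm_real, Real.norm_eq_abs, abs_pow, hf, hg]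
    apply le_of_eq
    ring
  have h2 := sum_mul_sq_le_sq_mul_sq S f g
  have h3 : ∑ x ∈ S, f x ^ 2 = Wt N K t := by
    unfold Wt
    rw [hS, sum_sigma]
    refine sum_congr rfl fun r _ => sum_congr rfl fun c _ => ?_
    rw [hf]
    simp only
    rw [sq_abs]
  have h4 : ∑ x ∈ S, g x ^ 2 =
      ∑ r ∈ Icc 1 K, ∑ c ∈ Cd r, vh N K (t - c / r) ^ 2 * ‖Xc N c r t‖ ^ 2 := by
    rw [hS, sum_sigma]
    refine sum_congr rfl fun r _ => sum_congr rfl fun c _ => ?_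
    rw [hg]
    simp only
    rw [mul_pow, sq_abs]
  rw [h3, h4] at h2
  refine le_trans ?_ h2
  exact pow_le_pow_left₀ (norm_nonneg _) h1 2

/-! ### The mean square of `Xc` -/

theorem p08_aS {N n : ℕ} (h1 : 1 ≤ n) (hn : n ≤ N) : 0 ≤ aS N n ∧ aS N n ≤ Real.log N := by
  have h2 : (1 : ℝ) ≤ n := by exact_mod_cast h1
  have h3 : (n : ℝ) ≤ N := by exact_mod_cast hn
  have h4 : 0 ≤ Real.log n := Real.log_nonneg h2
  have h5 : Real.log n ≤ Real.log N := Real.log_le_log (by linarith) h3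
  unfold aS
  split_ifs
  · exact ⟨h4, h5⟩
  · exact ⟨le_rfl, h4.trans h5⟩

theorem p08_mr (r : ℕ) : |mr r| ≤ 1 := by
  unfold mr
  rcases Nat.eq_zero_or_pos r with h | h
  · subst h
    simp
  have h1 : (1 : ℝ) ≤ Nat.totient r := by exact_mod_cast Nat.totient_pos.2 h
  rw [abs_div, abs_of_pos (by linarith : (0 : ℝ) < Nat.totient r), div_le_one (by linarith)]
  refine le_trans ?_ h1
  have h2 : |μ r| ≤ 1 := ArithmeticFunction.abs_moebius_le_one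
  exact_mod_cast h2

theorem p08_Xc {N M : ℕ} (hM : 4 * N < M) (c r : ℕ) {L : ℝ} (hL1 : 1 ≤ L)
    (hL : Real.log N ≤ L) :
    mean M (range M) (fun t => ‖Xc N c r t‖ ^ 2) ≤ 4 * N * L ^ 2 := by
  set b : ℕ → ℂ := fun n => (aS N n : ℂ) - ((mr r : ℝ) : ℂ) * e (-(n * (c / r))) with hb
  have h1 : ∀ t, Xc N c r t = Bs b N t := by
    intro t
    unfold Xc Ps In Bs
    rw [mul_sum, ← sum_sub_distrib]
    refine sum_congr rfl fun n _ => ?_
    rw [hb]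
    simp only
    have h2 : e (n * (t - c / r)) = e (-(n * (c / r))) * e (n * t) := by
      rw [← p08_e]
      congr 1
      ring
    rw [h2]
    ring
  unfold mean
  simp only [h1]
  rw [pars N M hM b]
  have h3 : ∀ n ∈ Icc 1 N, ‖b n‖ ^ 2 ≤ 4 * L ^ 2 := by
    intro n hn
    rw [mem_Icc] at hn
    obtain ⟨a1, a2⟩ := p08_aS hn.1 hn.2
    have h4 : ‖b n‖ ≤ L + 1 := by
      rw [hb]
      refine (norm_sub_le _ _).trans ?_
      rw [norm_mul, Complex.norm_real, Complex.norm_real, Real.norm_of_nonneg a1, p08_en, mul_one,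
        Real.norm_eq_abs]
      exact add_le_add (a2.trans hL) (p08_mr r)
    calc ‖b n‖ ^ 2 ≤ (L + 1) ^ 2 := by gcongr
      _ ≤ (2 * L) ^ 2 := by gcongr; linarith
      _ = 4 * L ^ 2 := by ring
  calc ∑ n ∈ Icc 1 N, ‖b n‖ ^ 2 ≤ ∑ n ∈ Icc 1 N, 4 * L ^ 2 := sum_le_sum h3
    _ = N * (4 * L ^ 2) := by rw [sum_const, Nat.card_Icc, nsmul_eq_mul, Nat.add_sub_cancel]
    _ = 4 * N * L ^ 2 := by ring

/-! ### Ranges -/

theorem p08_rng {K N Y : ℕ} (hR : Rg K N) (hRY : RY K N Y) :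
    (10 : ℝ) ≤ K ∧ (512 : ℝ) ≤ N ∧ (K : ℝ) ≤ N ∧ (K : ℝ) ^ 200 ≤ Real.sqrt N ∧
    (K : ℝ) ≤ (N : ℝ) ^ (1 / 8 : ℝ) ∧ (N : ℝ) ^ (15 / 16 : ℝ) ≤ Y := by
  have hK : (10 : ℝ) ≤ K := by exact_mod_cast hR.hK
  have hK1 : (1 : ℝ) ≤ K := by linarith
  have hN : (K : ℝ) ^ 400 ≤ N := by exact_mod_cast hR.hN
  have h1 : (K : ℝ) ≤ (K : ℝ) ^ 400 := le_self_pow₀ hK1 (by norm_num)
  have hKN : (K : ℝ) ≤ N := h1.trans hN
  have h512 : (512 : ℝ) ≤ N := by
    refine le_trans ?_ hN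
    calc (512 : ℝ) ≤ 10 ^ 3 := by norm_num
      _ ≤ (K : ℝ) ^ 3 := by gcongr
      _ ≤ (K : ℝ) ^ 400 := pow_le_pow_right₀ hK1 (by norm_num)
  refine ⟨hK, h512, hKN, ?_, ?_, ?_⟩
  · apply Real.le_sqrt_of_sq_le
    calc ((K : ℝ) ^ 200) ^ 2 = (K : ℝ) ^ 400 := by rw [← pow_mul]
      _ ≤ (N : ℝ) := hN
  · have h2 : (K : ℝ) ^ (8 : ℕ) ≤ N := (pow_le_pow_right₀ hK1 (by norm_num)).trans hN
    calc (K : ℝ) = ((K : ℝ) ^ (8 : ℕ)) ^ (1 / 8 : ℝ) := by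
          rw [← Real.rpow_natCast, ← Real.rpow_mul (by linarith)]
          norm_num
      _ ≤ (N : ℝ) ^ (1 / 8 : ℝ) := by gcongr
  · have hN0 : (0 : ℝ) < N := by linarith
    have h3 : (N : ℝ) ^ 16 ≤ (Y : ℝ) ^ 16 * K := by exact_mod_cast hRY.hY
    have h4 : (N : ℝ) ^ 16 ≤ (Y : ℝ) ^ 16 * N := h3.trans (by gcongr)
    have h5 : (N : ℝ) ^ 15 ≤ (Y : ℝ) ^ 16 := by
      have : (N : ℝ) ^ 15 * N ≤ (Y : ℝ) ^ 16 * N := by
        calc (N : ℝ) ^ 15 * N = (N : ℝ) ^ 16 := by ring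
          _ ≤ _ := h4
      exact le_of_mul_le_mul_right this hN0
    calc (N : ℝ) ^ (15 / 16 : ℝ) = ((N : ℝ) ^ (15 : ℕ)) ^ (1 / 16 : ℝ) := by
          rw [← Real.rpow_natCast, ← Real.rpow_mul hN0.le]
          norm_num
      _ ≤ ((Y : ℝ) ^ (16 : ℕ)) ^ (1 / 16 : ℝ) := by gcongr
      _ = Y := by
          rw [← Real.rpow_natCast, ← Real.rpow_mul (by positivity)]
          norm_num

/-- the conditions of `d_main` -/
theorem p08_cond {K N Y : ℕ} (hR : Rg K N) (hRY : RY K N Y) {r : ℕ} (hr : r ≤ K)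
    {β : ℝ} (_hβ0 : 0 ≤ β) (hβ : β * Real.sqrt N ≤ 1) :
    (((2 * N : ℕ) : ℝ)) ^ (1 / 2 + 1 / 4 : ℝ) ≤ Y ∧
    (r : ℝ) * (((2 * N : ℕ) : ℝ)) ^ ((1 / 4 : ℝ) / 2) ≤ Y ∧
    β * (r * (((2 * N : ℕ) : ℝ)) ^ (1 + (1 / 4 : ℝ) / 2)) ≤ Y := by
  obtain ⟨hK, h512, hKN, -, hK8, hY⟩ := p08_rng hR hRY
  have hN0 : (0 : ℝ) < N := by linarith
  have hN1 : (1 : ℝ) ≤ N := by linarith
  have hrK : (r : ℝ) ≤ K := by exact_mod_cast hr
  have h2 : (2 : ℝ) ≤ (N : ℝ) ^ (1 / 9 : ℝ) := by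
    calc (2 : ℝ) = ((2 : ℝ) ^ (9 : ℕ)) ^ (1 / 9 : ℝ) := by
          rw [← Real.rpow_natCast, ← Real.rpow_mul (by norm_num)]
          norm_num
      _ ≤ (N : ℝ) ^ (1 / 9 : ℝ) := by
          apply Real.rpow_le_rpow (by norm_num) _ (by norm_num)
          norm_num
          exact_mod_cast h512
  have h3 : ((2 * N : ℕ) : ℝ) ≤ (N : ℝ) ^ (10 / 9 : ℝ) := by
    push_cast
    calc (2 : ℝ) * N ≤ (N : ℝ) ^ (1 / 9 : ℝ) * (N : ℝ) ^ (1 : ℝ) := by
          rw [Real.rpow_one]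
          gcongr
      _ = (N : ℝ) ^ (10 / 9 : ℝ) := by
          rw [← Real.rpow_add hN0]
          norm_num
  have h4 : ∀ s : ℝ, 0 ≤ s → ((2 * N : ℕ) : ℝ) ^ s ≤ (N : ℝ) ^ (10 / 9 * s) := by
    intro s hs
    rw [Real.rpow_mul hN0.le]
    exact Real.rpow_le_rpow (by positivity) h3 hs
  refine ⟨?_, ?_, ?_⟩
  · refine (h4 _ (by norm_num)).trans (le_trans ?_ hY)
    apply Real.rpow_le_rpow_of_exponent_le hN1
    norm_num
  · refine le_trans ?_ hY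
    calc (r : ℝ) * (((2 * N : ℕ) : ℝ)) ^ ((1 / 4 : ℝ) / 2)
        ≤ (N : ℝ) ^ (1 / 8 : ℝ) * (N : ℝ) ^ (10 / 9 * ((1 / 4 : ℝ) / 2)) := by
          gcongr
          · exact hrK.trans hK8
          · exact h4 _ (by norm_num)
      _ = (N : ℝ) ^ (1 / 8 + 10 / 9 * ((1 / 4 : ℝ) / 2)) := by rw [← Real.rpow_add hN0]
      _ ≤ (N : ℝ) ^ (15 / 16 : ℝ) := by
          apply Real.rpow_le_rpow_of_exponent_le hN1
          norm_num
  · refine le_trans ?_ hY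
    have h5 : β ≤ (N : ℝ) ^ (-(1 / 2) : ℝ) := by
      rw [Real.rpow_neg hN0.le, ← Real.sqrt_eq_rpow, ← one_div, le_div_iff₀ (Real.sqrt_pos.2 hN0)]
      exact hβ
    calc β * (r * (((2 * N : ℕ) : ℝ)) ^ (1 + (1 / 4 : ℝ) / 2))
        ≤ (N : ℝ) ^ (-(1 / 2) : ℝ) * ((N : ℝ) ^ (1 / 8 : ℝ) *
          (N : ℝ) ^ (10 / 9 * (1 + (1 / 4 : ℝ) / 2))) := by
          gcongr
          · exact hrK.trans hK8
          · exact h4 _ (by norm_num)
      _ = (N : ℝ) ^ (-(1 / 2) + (1 / 8 + 10 / 9 * (1 + (1 / 4 : ℝ) / 2))) := by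
          rw [← Real.rpow_add hN0, ← Real.rpow_add hN0]
      _ ≤ (N : ℝ) ^ (15 / 16 : ℝ) := by
          apply Real.rpow_le_rpow_of_exponent_le hN1
          norm_num

theorem p08_nn0 (x : ℝ) : 0 ≤ nn x := abs_nonneg _

theorem W08_pr (h01 : W01) (h04 : W04) (h07 : W07) (h10 : W10) : W08 := by
  obtain ⟨C1, hC1, K1, H1⟩ := h01
  obtain ⟨C4, hC4, K4, H4⟩ := h04
  obtain ⟨C7, hC7, K7, H7⟩ := h07
  obtain ⟨K10, H10⟩ := h10
  obtain ⟨Cd', hCd, Nd, Hd⟩ := d_main (1 / 4) (by norm_num)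
  refine ⟨2 * (Cd' * C7) + 2 * (C1 ^ 2 * 240), by positivity, max (max K1 K4) (max (max K7 K10) Nd),
    ?_⟩
  intro K hK N hR Y hRY
  have hK1 : K1 ≤ K := (le_trans (le_max_left _ _) (le_max_left _ _)).trans hK
  have hK4 : K4 ≤ K := (le_trans (le_max_right _ _) (le_max_left _ _)).trans hK
  have hK7 : K7 ≤ K :=
    (le_trans (le_trans (le_max_left _ _) (le_max_left _ _)) (le_max_right _ _)).trans hK
  have hK10 : K10 ≤ K :=
    (le_trans (le_trans (le_max_right _ _) (le_max_left _ _)) (le_max_right _ _)).trans hK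
  have hNd : Nd ≤ K := (le_trans (le_max_right _ _) (le_max_right _ _)).trans hK
  obtain ⟨k10, k512, kKN, k200, k8, kY⟩ := p08_rng hR hRY
  have hN0 : (0 : ℝ) < N := by linarith
  have hN1 : 1 ≤ N := by
    have : (0 : ℝ) < N := hN0
    exact_mod_cast this
  have hKN : K ≤ N := by exact_mod_cast kKN
  have hK0 : (0 : ℝ) < K := by linarith
  set L : ℝ := Real.log N with hL
  have hL1 : 1 ≤ L := by
    rw [hL, Real.le_log_iff_exp_le hN0]
    have := Real.exp_one_lt_d9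
    linarith
  have hLK : L ^ 2 ≤ K := (pow_le_pow_right₀ hL1 (by norm_num)).trans hR.hL
  have hL2N : L ≤ Real.log ((2 * N : ℕ) : ℝ) := by
    rw [hL]
    apply Real.log_le_log hN0
    push_cast
    linarith
  obtain ⟨hw, -, -, hF⟩ := H10 K hK10 N hR
  obtain ⟨b, hb⟩ := p08_bs (by positivity) hw hF
  set M : ℕ := (4 * (2 * N) + 1) * (Nat.sqrt (2 * N)).factorial with hMdef
  have hgood : Good (2 * N) M := CSB_good (2 * N)
  have hM4 : 4 * (2 * N) < M := hgood.1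
  have hM4' : 4 * N < M := by omega
  have hEE : 0 ≤ EE N K := by
    unfold EE
    refine sum_nonneg fun n _ => ?_
    unfold En
    exact add_nonneg (sum_nonneg fun q _ => sum_nonneg fun ψ _ => by positivity) (sq_nonneg _)
  -- the kernel
  set D : ℝ → ℝ := fun t => ∑ Q ∈ QQ Y, Ea (2 * N) Q t with hD
  have hEa0 : ∀ Q t, 0 ≤ Ea (2 * N) Q t := by
    intro Q t
    unfold Ea
    positivity
  have hD0 : ∀ t, 0 ≤ D t := fun t => sum_nonneg fun Q _ => hEa0 Q t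
  have hD1 : ∀ t, D t ≤ 30 * N * Y := by
    intro t
    have := p08_Ea (2 * N) Y (by omega) t
    push_cast at this
    calc D t ≤ 15 * (2 * N) * Y := this
      _ = 30 * N * Y := by ring
  -- reduction
  have step1 : ∑ Q ∈ QQ Y, VQ (Fh N K) Q ≤ mean M (range M) (fun t => ‖Fh N K t‖ ^ 2 * D t) := by
    have e1 : ∀ Q ∈ QQ Y, VQ (Fh N K) Q ≤
        mean M (range M) (fun t => ‖Fh N K t‖ ^ 2 * Ea (2 * N) Q t) := by
      intro Q _
      rw [p08_var (by omega) hM4 b hb]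
      refine p08_mean_le fun j _ => ?_
      exact mul_le_mul_of_nonneg_left (CSB_Eo_le _ _ _) (by positivity)
    refine (sum_le_sum e1).trans (le_of_eq ?_)
    unfold mean
    rw [← mul_sum, sum_comm]
    congr 1
    refine sum_congr rfl fun j _ => ?_
    simp only [hD]
    rw [mul_sum]
  set Φ : ℝ := C1 ^ 2 * (K : ℝ) ^ 32 / (N : ℝ) ^ 2 * (30 * N * Y) with hΦ
  have hΦ0 : 0 ≤ Φ := by positivity
  -- the pointwise bound of a term
  have hterm : ∀ (t : ℝ) (r c : ℕ), r ∈ Icc 1 K → c ∈ Cd r →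
      vh N K (t - c / r) ^ 2 * ‖Xc N c r t‖ ^ 2 * D t ≤
        Cd' * (Y / L) * (vh N K (t - c / r) ^ 2 * wt N Y r (t - c / r) * ‖Xc N c r t‖ ^ 2) +
        Φ * ‖Xc N c r t‖ ^ 2 := by
    intro t r c hr hc
    rw [mem_Icc] at hr
    have hcop : Nat.Coprime c r := (mem_filter.1 hc).2
    have hr0 : (0 : ℝ) < r := by exact_mod_cast hr.1
    have hwt0 : 0 ≤ wt N Y r (t - c / r) := by
      unfold wt
      have := CSB_al_nonneg (2 * N) Y r (nn (t - c / r))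
      have := CSB_ga_nonneg (2 * N) Y r (nn (t - c / r))
      linarith
    have hnn := p08_nn0 (t - c / r)
    rcases le_or_gt (nn (t - c / r) * Real.sqrt N) 1 with hn | hf
    · -- near
      obtain ⟨c1, c2, c3⟩ := p08_cond hR hRY hr.2 hnn hn
      set c' : ℤ := c + r * round (t - c / r) with hc'
      have hc'r : t - (c' : ℝ) / r = (t - c / r) - round (t - c / r) := by
        rw [hc']
        push_cast
        field_simp
        ring
      have habs : |t - (c' : ℝ) / r| = nn (t - c / r) := by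
        rw [hc'r]
        rfl
      have hcop' : IsCoprime c' (r : ℤ) := by
        rw [hc']
        have h5 : IsCoprime (c : ℤ) (r : ℤ) := Nat.isCoprime_iff_coprime.2 hcop
        exact (IsCoprime.add_mul_left_left_iff).2 h5
      have hd := Hd (2 * N) (by omega) Y c1 (by
        have := hRY.hYN
        omega) t c' r hr.1 hcop' c2 (by rw [habs]; exact c3)
      have hal : al (2 * N) Y r (t - c' / r) = al (2 * N) Y r (nn (t - c / r)) := by
        unfold al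
        rw [habs, abs_of_nonneg hnn]
      have hga : ga (2 * N) Y r (t - c' / r) = ga (2 * N) Y r (nn (t - c / r)) := by
        unfold ga
        rw [habs, abs_of_nonneg hnn]
      rw [hal, hga] at hd
      have hd' : D t ≤ Cd' * (Y / L) * wt N Y r (t - c / r) := by
        refine hd.trans ?_
        change _ ≤ Cd' * (Y / L) * (1 + al (2 * N) Y r (nn (t - c / r)) +
          ga (2 * N) Y r (nn (t - c / r)))
        have := CSB_al_nonneg (2 * N) Y r (nn (t - c / r))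
        have := CSB_ga_nonneg (2 * N) Y r (nn (t - c / r))
        gcongr
      calc vh N K (t - c / r) ^ 2 * ‖Xc N c r t‖ ^ 2 * D t
          ≤ vh N K (t - c / r) ^ 2 * ‖Xc N c r t‖ ^ 2 *
            (Cd' * (Y / L) * wt N Y r (t - c / r)) := by gcongr
        _ = Cd' * (Y / L) * (vh N K (t - c / r) ^ 2 * wt N Y r (t - c / r) *
            ‖Xc N c r t‖ ^ 2) := by ring
        _ ≤ _ := le_add_of_nonneg_right (by positivity)
    · -- far
      have hv := (H1 K hK1 N hR).2.2.2.2 (t - c / r)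
      have hH : Hw N K * nn (t - c / r) * Real.sqrt N ≥ N / (K : ℝ) ^ 8 := by
        unfold Hw
        calc (N : ℝ) / (K : ℝ) ^ 8 = (N : ℝ) / (K : ℝ) ^ 8 * 1 := (mul_one _).symm
          _ ≤ (N : ℝ) / (K : ℝ) ^ 8 * (nn (t - c / r) * Real.sqrt N) := by gcongr
          _ = _ := by ring
      have hs0 : 0 < Real.sqrt N := Real.sqrt_pos.2 hN0
      have hs2 : Real.sqrt N ^ 2 = N := Real.sq_sqrt hN0.le
      have hHn : Real.sqrt N / (K : ℝ) ^ 8 ≤ Hw N K * nn (t - c / r) := by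
        have h6 : (N : ℝ) / (K : ℝ) ^ 8 = Real.sqrt N / (K : ℝ) ^ 8 * Real.sqrt N := by
          rw [div_mul_eq_mul_div, ← pow_two, hs2]
        rw [h6] at hH
        exact le_of_mul_le_mul_right hH hs0
      have hvb : |vh N K (t - c / r)| ≤ C1 * (K : ℝ) ^ 16 / N := by
        have h7 : (Real.sqrt N / (K : ℝ) ^ 8) ^ 2 ≤ (Hw N K * nn (t - c / r)) ^ 2 := by gcongr
        have h8 : (Real.sqrt N / (K : ℝ) ^ 8) ^ 2 = N / (K : ℝ) ^ 16 := by
          rw [div_pow, hs2, ← pow_mul]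
        rw [h8] at h7
        have h9 : |vh N K (t - c / r)| * (N / (K : ℝ) ^ 16) ≤ C1 :=
          (mul_le_mul_of_nonneg_left h7 (abs_nonneg _)).trans hv
        rw [le_div_iff₀ hN0]
        rw [mul_div_assoc'] at h9
        rw [div_le_iff₀ (by positivity)] at h9
        exact h9
      have hvb2 : vh N K (t - c / r) ^ 2 ≤ C1 ^ 2 * (K : ℝ) ^ 32 / (N : ℝ) ^ 2 := by
        rw [← sq_abs]
        calc |vh N K (t - c / r)| ^ 2 ≤ (C1 * (K : ℝ) ^ 16 / N) ^ 2 := by gcongr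
          _ = C1 ^ 2 * (K : ℝ) ^ 32 / (N : ℝ) ^ 2 := by
            rw [div_pow, mul_pow, ← pow_mul]
      have hpos : 0 ≤ Cd' * (Y / L) * (vh N K (t - c / r) ^ 2 * wt N Y r (t - c / r) *
          ‖Xc N c r t‖ ^ 2) := by positivity
      calc vh N K (t - c / r) ^ 2 * ‖Xc N c r t‖ ^ 2 * D t
          ≤ C1 ^ 2 * (K : ℝ) ^ 32 / (N : ℝ) ^ 2 * ‖Xc N c r t‖ ^ 2 * (30 * N * Y) := by
            gcongr
            · exact hD0 t
            · exact hD1 t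
        _ = Φ * ‖Xc N c r t‖ ^ 2 := by rw [hΦ]; ring
        _ ≤ _ := le_add_of_nonneg_left hpos
  -- the pointwise bound
  have hpt : ∀ t, ‖Fh N K t‖ ^ 2 * D t ≤ 2 * (Cd' * (Y / L)) *
      (∑ r ∈ Icc 1 K, ∑ c ∈ Cd r, vh N K (t - c / r) ^ 2 * wt N Y r (t - c / r) *
        ‖Xc N c r t‖ ^ 2) + 2 * Φ * ∑ r ∈ Icc 1 K, ∑ c ∈ Cd r, ‖Xc N c r t‖ ^ 2 := by
    intro t
    have h5 := p08_cauchy N K t
    have h6 := (H4 K hK4 N hR).1 t
    have hS0 : 0 ≤ ∑ r ∈ Icc 1 K, ∑ c ∈ Cd r, vh N K (t - c / r) ^ 2 * ‖Xc N c r t‖ ^ 2 :=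
      sum_nonneg fun r _ => sum_nonneg fun c _ => by positivity
    calc ‖Fh N K t‖ ^ 2 * D t ≤ (Wt N K t *
          ∑ r ∈ Icc 1 K, ∑ c ∈ Cd r, vh N K (t - c / r) ^ 2 * ‖Xc N c r t‖ ^ 2) * D t :=
          mul_le_mul_of_nonneg_right h5 (hD0 t)
      _ ≤ (2 * ∑ r ∈ Icc 1 K, ∑ c ∈ Cd r, vh N K (t - c / r) ^ 2 * ‖Xc N c r t‖ ^ 2) * D t := by
          have := hD0 t
          gcongr
          exact h6.2
      _ = 2 * ∑ r ∈ Icc 1 K, ∑ c ∈ Cd r, vh N K (t - c / r) ^ 2 * ‖Xc N c r t‖ ^ 2 * D t := by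
          rw [mul_assoc, sum_mul]
          congr 1
          refine sum_congr rfl fun r _ => ?_
          rw [sum_mul]
      _ ≤ 2 * ∑ r ∈ Icc 1 K, ∑ c ∈ Cd r,
          (Cd' * (Y / L) * (vh N K (t - c / r) ^ 2 * wt N Y r (t - c / r) * ‖Xc N c r t‖ ^ 2) +
        Φ * ‖Xc N c r t‖ ^ 2) := by
          refine mul_le_mul_of_nonneg_left (sum_le_sum fun r hr => sum_le_sum fun c hc => ?_)
            (by norm_num)
          exact hterm t r c hr hc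
      _ = _ := by
          simp only [sum_add_distrib, ← mul_sum]
          ring
  have h7 := H7 K hK7 N hR M hgood Y hRY.hY1 hRY.hYN
  -- the second mean
  have h8 : mean M (range M) (fun t => ∑ r ∈ Icc 1 K, ∑ c ∈ Cd r, ‖Xc N c r t‖ ^ 2) ≤
      (K : ℝ) ^ 2 * (4 * N * L ^ 2) := by
    have e1 : mean M (range M) (fun t => ∑ r ∈ Icc 1 K, ∑ c ∈ Cd r, ‖Xc N c r t‖ ^ 2) =
        ∑ r ∈ Icc 1 K, ∑ c ∈ Cd r, mean M (range M) (fun t => ‖Xc N c r t‖ ^ 2) := by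
      unfold mean
      rw [sum_comm, mul_sum]
      refine sum_congr rfl fun r _ => ?_
      rw [sum_comm, mul_sum]
    rw [e1]
    calc ∑ r ∈ Icc 1 K, ∑ c ∈ Cd r, mean M (range M) (fun t => ‖Xc N c r t‖ ^ 2)
        ≤ ∑ r ∈ Icc 1 K, ∑ c ∈ Cd r, (4 * N * L ^ 2) :=
          sum_le_sum fun r _ => sum_le_sum fun c _ => p08_Xc hM4' c r hL1 le_rfl
      _ ≤ ∑ r ∈ Icc 1 K, (K : ℝ) * (4 * N * L ^ 2) := by
          refine sum_le_sum fun r hr => ?_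
          rw [sum_const, nsmul_eq_mul]
          have h9 : ((Cd r).card : ℝ) ≤ K := by
            have h10 : (Cd r).card ≤ r := by
              unfold Cd
              exact (card_filter_le _ _).trans (by rw [card_range])
            exact_mod_cast h10.trans (mem_Icc.1 hr).2
          gcongr
      _ = (K : ℝ) ^ 2 * (4 * N * L ^ 2) := by
          rw [sum_const, Nat.card_Icc, nsmul_eq_mul, Nat.add_sub_cancel]
          ring
  have step2 : mean M (range M) (fun t => ‖Fh N K t‖ ^ 2 * D t) ≤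
      2 * (Cd' * (Y / L)) * (C7 * L * EE N K) + 2 * Φ * ((K : ℝ) ^ 2 * (4 * N * L ^ 2)) := by
    refine (p08_mean_le (G := fun t => 2 * (Cd' * (Y / L)) *
      (∑ r ∈ Icc 1 K, ∑ c ∈ Cd r, vh N K (t - c / r) ^ 2 * wt N Y r (t - c / r) *
        ‖Xc N c r t‖ ^ 2) + 2 * Φ * ∑ r ∈ Icc 1 K, ∑ c ∈ Cd r, ‖Xc N c r t‖ ^ 2)
      fun j _ => hpt _).trans ?_
    have e2 : mean M (range M) (fun t => 2 * (Cd' * (Y / L)) *
      (∑ r ∈ Icc 1 K, ∑ c ∈ Cd r, vh N K (t - c / r) ^ 2 * wt N Y r (t - c / r) *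
        ‖Xc N c r t‖ ^ 2) + 2 * Φ * ∑ r ∈ Icc 1 K, ∑ c ∈ Cd r, ‖Xc N c r t‖ ^ 2) =
        2 * (Cd' * (Y / L)) * mean M (range M) (fun t => ∑ r ∈ Icc 1 K, ∑ c ∈ Cd r,
          vh N K (t - c / r) ^ 2 * wt N Y r (t - c / r) * ‖Xc N c r t‖ ^ 2) +
        2 * Φ * mean M (range M) (fun t => ∑ r ∈ Icc 1 K, ∑ c ∈ Cd r, ‖Xc N c r t‖ ^ 2) := by
      unfold mean
      rw [sum_add_distrib, ← mul_sum, ← mul_sum]
      ring
    rw [e2]
    gcongr
  have hfin1 : 2 * (Cd' * (Y / L)) * (C7 * L * EE N K) = 2 * (Cd' * C7) * Y * EE N K := by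
    field_simp
  have hfin2 : 2 * Φ * ((K : ℝ) ^ 2 * (4 * N * L ^ 2)) ≤ 2 * (C1 ^ 2 * 240) * Y * Real.sqrt N := by
    have e3 : 2 * Φ * ((K : ℝ) ^ 2 * (4 * N * L ^ 2)) =
        2 * (C1 ^ 2 * 120) * Y * ((K : ℝ) ^ 34 * L ^ 2) := by
      rw [hΦ]
      field_simp
      ring
    rw [e3]
    have e4 : (K : ℝ) ^ 34 * L ^ 2 ≤ Real.sqrt N := by
      calc (K : ℝ) ^ 34 * L ^ 2 ≤ (K : ℝ) ^ 34 * K := by gcongr
        _ = (K : ℝ) ^ 35 := by ring
        _ ≤ (K : ℝ) ^ 200 := pow_le_pow_right₀ (by linarith) (by norm_num)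
        _ ≤ Real.sqrt N := k200
    calc 2 * (C1 ^ 2 * 120) * Y * ((K : ℝ) ^ 34 * L ^ 2) ≤
        2 * (C1 ^ 2 * 120) * Y * Real.sqrt N := by gcongr
      _ ≤ 2 * (C1 ^ 2 * 240) * Y * Real.sqrt N := by gcongr; norm_num
  refine (step1.trans step2).trans ?_
  rw [hfin1]
  have hY0 : (0 : ℝ) ≤ Y := Nat.cast_nonneg _
  have hs0 := Real.sqrt_nonneg (N : ℝ)
  have g1 : 0 ≤ 2 * (C1 ^ 2 * 240) * Y * EE N K := by positivity
  have g2 : 0 ≤ 2 * (Cd' * C7) * Y * Real.sqrt N := by positivity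
  calc 2 * (Cd' * C7) * Y * EE N K + 2 * Φ * ((K : ℝ) ^ 2 * (4 * N * L ^ 2))
      ≤ 2 * (Cd' * C7) * Y * EE N K + 2 * (C1 ^ 2 * 240) * Y * Real.sqrt N := by linarith
    _ ≤ (2 * (Cd' * C7) + 2 * (C1 ^ 2 * 240)) * Y * (EE N K + Real.sqrt N) := by
      have : (2 * (Cd' * C7) + 2 * (C1 ^ 2 * 240)) * Y * (EE N K + Real.sqrt N) =
          2 * (Cd' * C7) * Y * EE N K + 2 * (C1 ^ 2 * 240) * Y * Real.sqrt N +
          2 * (C1 ^ 2 * 240) * Y * EE N K + 2 * (Cd' * C7) * Y * Real.sqrt N := by ring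
      linarith

end Pool.Agent.FGP
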