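import Pool.Agent.Lib_helper3.FGP.Wanted

/-!
# FGP, block P11: sampling at the fractions with prime denominator
-/

set_option autoImplicit false

namespace Pool.Agent.FGP

open Finset Pool.Agent.Var35 Pool.Agent.Var73 Pool.Agent.PV
open scoped ArithmeticFunction ArithmeticFunction.Moebius

theorem p11_avg {N' : ℕ} {c : ℤ → ℂ} (Q : ℕ) (hQ : 0 < Q) :
    (1 / (Q : ℂ)) * ∑ b ∈ range Q, ∑ h ∈ Icc (-(N' : ℤ)) N', c h * e (h * ((b : ℝ) / Q)) =
      ∑ h ∈ (Icc (-(N' : ℤ)) N').filter (fun h : ℤ => (Q : ℤ) ∣ h), c h := by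
  have hQc : (Q : ℂ) ≠ 0 := by exact_mod_cast hQ.ne'
  rw [sum_comm, mul_sum, sum_filter]
  refine sum_congr rfl fun h _ => ?_
  have h1 : ∀ b ∈ range Q, c h * e (h * ((b : ℝ) / Q)) = c h * e ((b : ℝ) * ((h : ℝ) / Q)) := by
    intro b _
    congr 2
    ring
  rw [sum_congr rfl h1, ← mul_sum, sum_roots Q hQ]
  by_cases hd : (Q : ℤ) ∣ h
  · rw [if_pos hd, if_pos hd]
    field_simp
  · rw [if_neg hd, if_neg hd, mul_zero, mul_zero]

theorem p11_pars {N' M : ℕ} (hM : 4 * N' < M) {c : ℤ → ℂ} {Φ : ℝ → ℝ}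
    (hc : ∀ t : ℝ, (Φ t : ℂ) = ∑ n ∈ Icc (-(N' : ℤ)) N', c n * e (n * t)) :
    mean M (range M) (fun t => Φ t ^ 2) = ∑ h ∈ Icc (-(N' : ℤ)) N', ‖c h‖ ^ 2 := by
  have hM0 : 0 < M := by omega
  have hMc : (M : ℂ) ≠ 0 := by exact_mod_cast hM0.ne'
  have h1 : ∀ t : ℝ, ((Φ t ^ 2 : ℝ) : ℂ) = ∑ h ∈ Icc (-(N' : ℤ)) N', ∑ h' ∈ Icc (-(N' : ℤ)) N',
      c h * (starRingEnd ℂ) (c h') * e (((h - h' : ℤ) : ℝ) * t) := by
    intro t
    have h2 : ((Φ t ^ 2 : ℝ) : ℂ) = (Φ t : ℂ) * (starRingEnd ℂ) (Φ t : ℂ) := by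
      rw [Complex.conj_ofReal]
      push_cast
      ring
    rw [h2, hc t, map_sum, sum_mul_sum]
    refine sum_congr rfl fun h _ => sum_congr rfl fun h' _ => ?_
    have h3 : ((h - h' : ℤ) : ℝ) * t = h * t - h' * t := by
      push_cast
      ring
    rw [h3, e_sub, map_mul]
    ring
  have h4 : ((mean M (range M) (fun t => Φ t ^ 2) : ℝ) : ℂ) =
      ((∑ h ∈ Icc (-(N' : ℤ)) N', ‖c h‖ ^ 2 : ℝ) : ℂ) := by
    unfold mean
    rw [Complex.ofReal_mul, Complex.ofReal_sum]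
    have h5 : ∀ j ∈ range M, ((Φ ((j : ℝ) / M) ^ 2 : ℝ) : ℂ) =
        ∑ h ∈ Icc (-(N' : ℤ)) N', ∑ h' ∈ Icc (-(N' : ℤ)) N',
        c h * (starRingEnd ℂ) (c h') * e ((j : ℝ) * (((h - h' : ℤ) : ℝ) / M)) := by
      intro j _
      rw [h1]
      refine sum_congr rfl fun h _ => sum_congr rfl fun h' _ => ?_
      congr 2
      ring
    rw [sum_congr rfl h5, sum_comm, mul_sum, Complex.ofReal_sum]
    refine sum_congr rfl fun h hh => ?_
    rw [sum_comm, mul_sum, sum_eq_single h]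
    · rw [← mul_sum, sum_roots M hM0, if_pos (by simp)]
      rw [Complex.mul_conj']
      push_cast
      field_simp
    · intro h' hh' hne
      rw [← mul_sum, sum_roots M hM0, if_neg, mul_zero, mul_zero]
      intro hd
      rw [mem_Icc] at hh hh'
      have h6 := Int.eq_zero_of_abs_lt_dvd hd (by rw [abs_lt]; omega)
      exact hne (by omega)
    · intro h6
      exact absurd hh h6
  exact_mod_cast h4

/-- P11 -/
theorem W11_pr : W11 := by
  classical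
  intro N' Y M Φ hN hY hM hTP
  obtain ⟨c, hc⟩ := hTP
  have hM0 : 0 < M := by omega
  set S : Finset ℤ := Icc (-(N' : ℤ)) N' with hS
  set H : Finset ℤ := S.erase 0 with hH
  have h0S : (0 : ℤ) ∈ S := by
    rw [hS, mem_Icc]
    omega
  have hmean : ((mean M (range M) Φ : ℝ) : ℂ) = c 0 := by
    have h1 := p11_avg (N' := N') (c := c) M hM0
    unfold mean
    rw [Complex.ofReal_mul, Complex.ofReal_sum]
    have h2 : ∀ j ∈ range M, ((Φ ((j : ℝ) / M) : ℝ) : ℂ) = ∑ h ∈ S, c h * e (h * ((j : ℝ) / M)) :=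
      fun j _ => hc _
    rw [sum_congr rfl h2]
    have h3 : (((1 / (M : ℝ) : ℝ)) : ℂ) = 1 / (M : ℂ) := by push_cast; rfl
    rw [h3, h1]
    have h4 : S.filter (fun h : ℤ => (M : ℤ) ∣ h) = {0} := by
      ext h
      rw [mem_filter, mem_singleton, hS, mem_Icc]
      constructor
      · rintro ⟨h5, h6⟩
        exact Int.eq_zero_of_abs_lt_dvd h6 (by rw [abs_lt]; omega)
      · rintro rfl
        exact ⟨by omega, dvd_zero _⟩
    rw [h4, sum_singleton]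
  have hQ : ∀ Q ∈ QQ Y, |(1 / (Q : ℝ)) * ∑ b ∈ range Q, Φ (b / Q) - mean M (range M) Φ| ≤
      ∑ h ∈ H.filter (fun h : ℤ => (Q : ℤ) ∣ h), ‖c h‖ := by
    intro Q hQ
    have hQ0 : 0 < Q := by
      simp only [QQ, mem_filter] at hQ
      exact hQ.2.pos
    have h1 := p11_avg (N' := N') (c := c) Q hQ0
    have h2 : (((1 / (Q : ℝ)) * ∑ b ∈ range Q, Φ (b / Q) - mean M (range M) Φ : ℝ) : ℂ) =
        ∑ h ∈ H.filter (fun h : ℤ => (Q : ℤ) ∣ h), c h := by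
      rw [Complex.ofReal_sub, Complex.ofReal_mul, Complex.ofReal_sum, hmean]
      have h3 : ∀ b ∈ range Q, ((Φ ((b : ℝ) / Q) : ℝ) : ℂ) =
          ∑ h ∈ S, c h * e (h * ((b : ℝ) / Q)) := fun b _ => hc _
      have h4 : (((1 / (Q : ℝ) : ℝ)) : ℂ) = 1 / (Q : ℂ) := by push_cast; rfl
      rw [sum_congr rfl h3, h4, h1, hH, filter_erase]
      rw [← add_sum_erase _ _ (mem_filter.2 ⟨h0S, dvd_zero _⟩)]
      ring
    rw [← Real.norm_eq_abs, ← Complex.norm_real, h2]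
    exact norm_sum_le _ _
  have h1 : ∑ Q ∈ QQ Y, ∑ h ∈ H.filter (fun h : ℤ => (Q : ℤ) ∣ h), ‖c h‖ ≤ ∑ h ∈ H, ‖c h‖ := by
    simp only [sum_filter]
    rw [sum_comm]
    refine sum_le_sum fun h hh => ?_
    rw [← sum_filter, sum_const, nsmul_eq_mul]
    rw [hH, mem_erase, hS, mem_Icc] at hh
    have hcard := mnr_card Y h hh.1 (by omega)
    have hc' : (((QQ Y).filter (fun Q : ℕ => (Q : ℤ) ∣ h)).card : ℝ) ≤ 1 := by exact_mod_cast hcard
    exact mul_le_of_le_one_left (norm_nonneg _) hc'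
  have h3 : (∑ h ∈ H, ‖c h‖) ^ 2 ≤ (H.card : ℝ) * ∑ h ∈ H, ‖c h‖ ^ 2 :=
    sq_sum_le_card_mul_sum_sq
  have h4 : (H.card : ℝ) = 2 * N' := by
    have h5 : H.card = 2 * N' := by
      rw [hH, card_erase_of_mem h0S, hS, Int.card_Icc]
      omega
    rw [h5]
    push_cast
    ring
  have h5 : ∑ h ∈ H, ‖c h‖ ^ 2 ≤ mean M (range M) (fun t => Φ t ^ 2) := by
    rw [p11_pars hM hc]
    exact sum_le_sum_of_subset_of_nonneg (erase_subset _ _) fun _ _ _ => by positivity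
  have h6 : ∑ h ∈ H, ‖c h‖ ≤ Real.sqrt (2 * N') *
      Real.sqrt (mean M (range M) (fun t => Φ t ^ 2)) := by
    rw [← Real.sqrt_mul (by positivity)]
    refine Real.le_sqrt_of_sq_le ?_
    rw [h4] at h3
    exact h3.trans (mul_le_mul_of_nonneg_left h5 (by positivity))
  exact (sum_le_sum hQ).trans (h1.trans h6)

end Pool.Agent.FGP
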