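import Pool.Agent.Lib_helper3.FGP.Wanted

/-!
# FGP block P13: the variance of `gh` for prime moduli (helper53)
-/

set_option autoImplicit false

namespace Pool.Agent.FGP

open Finset Pool.Agent.Var35 Pool.Agent.Var73 Pool.Agent.PV
open scoped ArithmeticFunction ArithmeticFunction.Moebius

theorem p13_cd {r c : ℕ} : c ∈ Cd r ↔ c < r ∧ Nat.Coprime c r := by
  unfold Cd
  rw [mem_filter, mem_range]

/-- the Ramanujan sum does not change if `k` is multiplied by a number prime to `r` -/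
theorem p13_cR {r Q : ℕ} (hr : 1 ≤ r) (hQ : Nat.Coprime Q r) (k : ℕ) :
    cR r (k * Q) = cR r k := by
  classical
  have hr0 : (r : ℝ) ≠ 0 := by positivity
  have hmaps : ∀ c ∈ Cd r, c * Q % r ∈ Cd r := by
    intro c hc
    rw [p13_cd] at hc ⊢
    refine ⟨Nat.mod_lt _ (by omega), ?_⟩
    have h1 : Nat.Coprime (c * Q) r := Nat.Coprime.mul_left hc.2 hQ
    have h2 : Nat.gcd (c * Q % r) r = Nat.gcd r (c * Q) := (Nat.gcd_rec r (c * Q)).symm
    rw [Nat.Coprime, h2, Nat.gcd_comm]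
    exact h1
  have hinj : Set.InjOn (fun c => c * Q % r) (Cd r : Set ℕ) := by
    intro c hc d hd hcd
    have hc' := p13_cd.1 (mem_coe.1 hc)
    have hd' := p13_cd.1 (mem_coe.1 hd)
    have h1 : c * Q ≡ d * Q [MOD r] := hcd
    have h2 : c ≡ d [MOD r] := Nat.ModEq.cancel_right_of_coprime (by
      rw [Nat.gcd_comm]; exact hQ) h1
    exact Nat.ModEq.eq_of_lt_of_lt h2 hc'.1 hd'.1
  have himage : (Cd r).image (fun c => c * Q % r) = Cd r := by
    apply Finset.eq_of_subset_of_card_le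
    · intro x hx
      obtain ⟨c, hc, rfl⟩ := mem_image.1 hx
      exact hmaps c hc
    · rw [Finset.card_image_of_injOn hinj]
  unfold cR
  conv_rhs => rw [← himage, Finset.sum_image hinj]
  refine Finset.sum_congr rfl fun c _ => ?_
  have h1 : ((c * Q : ℕ) : ℝ) = ((c * Q % r : ℕ) : ℝ) + r * ((c * Q / r : ℕ) : ℝ) := by
    have := Nat.mod_add_div (c * Q) r
    exact_mod_cast this.symm
  have h2 : 2 * Real.pi * ((c : ℝ) * ((k * Q : ℕ) : ℝ) / r) =
      2 * Real.pi * (((c * Q % r : ℕ) : ℝ) * k / r) +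
        ((c * Q / r * k : ℕ) : ℝ) * (2 * Real.pi) := by
    have h3 : (c : ℝ) * ((k * Q : ℕ) : ℝ) = ((c * Q : ℕ) : ℝ) * k := by push_cast; ring
    rw [h3, h1]
    push_cast
    field_simp
  rw [h2, Real.cos_add_nat_mul_two_pi]

theorem W13_pr (ha : W13a) (hb : W13b) : W13 := by
  obtain ⟨C1, hC1, K1, h1⟩ := hb
  refine ⟨8 * C1, by positivity, max K1 10, ?_⟩
  intro K hK N hR M hM Y hY Q hQ
  have hK1 : K1 ≤ K := le_trans (le_max_left _ _) hK
  have hK10 : 10 ≤ K := hR.hK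
  have hKr : (10 : ℝ) ≤ K := by exact_mod_cast hK10
  have hK0 : (0 : ℝ) < K := by linarith
  have hK1r : (1 : ℝ) ≤ K := by linarith
  have hNK : (K : ℝ) ^ 400 ≤ N := by exact_mod_cast hR.hN
  have hN1 : (1 : ℝ) ≤ N := le_trans (one_le_pow₀ hK1r) hNK
  have hN0 : (0 : ℝ) < N := by linarith
  -- `log N ≤ K`
  have hlogK : Real.log N ≤ K := by
    by_cases h : 1 ≤ Real.log N
    · exact le_trans (le_self_pow₀ h (by norm_num)) hR.hL
    · push Not at h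
      linarith
  have hlog0 : 0 ≤ Real.log N := Real.log_nonneg hN1
  -- the window
  have hMw : (Mw N K : ℝ) ≤ N / (K : ℝ) ^ 7 := by
    unfold Mw Hw
    refine (Nat.floor_le (by positivity)).trans ?_
    calc (N : ℝ) / (K : ℝ) ^ 8 * Real.log N ≤ (N : ℝ) / (K : ℝ) ^ 8 * K := by gcongr
      _ = N / (K : ℝ) ^ 7 := by field_simp
  have hMw4 : 4 * Mw N K < N := by
    have h2 : (N : ℝ) / (K : ℝ) ^ 7 ≤ N / 10 := by
      apply div_le_div_of_nonneg_left hN0.le (by norm_num)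
      exact le_trans hKr (le_self_pow₀ hK1r (by norm_num))
    have h3 : (4 : ℝ) * Mw N K < N := by linarith
    exact_mod_cast h3
  -- `N ≤ K Y`
  have hYpos : (0 : ℝ) < Y := by exact_mod_cast hY.hY1
  have hNY : (N : ℝ) ≤ K * Y := by
    by_contra hcon
    push Not at hcon
    have h2 : ((K : ℝ) * Y) ^ 16 < (N : ℝ) ^ 16 := by
      apply pow_lt_pow_left₀ hcon (by positivity) (by norm_num)
    have h3 : (N : ℝ) ^ 16 ≤ (Y : ℝ) ^ 16 * K := by exact_mod_cast hY.hY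
    have h4 : (K : ℝ) ≤ (K : ℝ) ^ 16 := le_self_pow₀ hK1r (by norm_num)
    have h5 : (Y : ℝ) ^ 16 * K ≤ ((K : ℝ) * Y) ^ 16 := by
      rw [mul_pow, mul_comm]
      gcongr
    linarith
  unfold QQ at hQ
  rw [mem_filter, mem_Ioc] at hQ
  obtain ⟨⟨hYQ, _⟩, hQp⟩ := hQ
  have hYQr : (Y : ℝ) ≤ Q := by exact_mod_cast hYQ.le
  have hQ0 : (0 : ℝ) < Q := by linarith
  have hQ1 : 1 ≤ Q := hQp.one_lt.le
  -- `K < Q`
  have hKQ : K < Q := by
    have h2 : (K : ℝ) ^ 2 * K ≤ K * Y := by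
      calc (K : ℝ) ^ 2 * K = (K : ℝ) ^ 3 := by ring
        _ ≤ (K : ℝ) ^ 400 := pow_le_pow_right₀ hK1r (by norm_num)
        _ ≤ N := hNK
        _ ≤ K * Y := hNY
    have h3 : (K : ℝ) ^ 2 ≤ Y := by
      have : (K : ℝ) * (K : ℝ) ^ 2 ≤ K * Y := by linarith
      exact le_of_mul_le_mul_left this hK0
    have h4 : (K : ℝ) < (K : ℝ) ^ 2 := by nlinarith
    have h5 : (K : ℝ) < Q := by linarith
    exact_mod_cast h5
  have hcop : ∀ r ∈ Icc 1 K, Nat.Coprime Q r := by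
    intro r hr
    rw [mem_Icc] at hr
    exact Nat.coprime_of_lt_prime (by omega) (by omega) hQp
  -- the truncated sum
  have hSK : ∀ k : ℕ, ∑ r ∈ Icc 1 K, mr r ^ 2 * cR r (k * Q) = SK K k := by
    intro k
    unfold SK
    refine Finset.sum_congr rfl fun r hr => ?_
    rw [p13_cR (mem_Icc.1 hr).1 (hcop r hr) k]
  have hsum : ∑ k ∈ Icc 1 (N / Q), SK K k * ((N : ℝ) - k * Q) =
      ∑ k ∈ Icc 1 (2 * N / Q), SK K k * max 0 ((N : ℝ) - (k * Q : ℕ)) := by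
    have hsub : Icc 1 (N / Q) ⊆ Icc 1 (2 * N / Q) := by
      apply Icc_subset_Icc_right
      apply Nat.div_le_div_right
      omega
    rw [← Finset.sum_subset hsub]
    · refine Finset.sum_congr rfl fun k hk => ?_
      rw [mem_Icc] at hk
      have h2 : k * Q ≤ N := (Nat.le_div_iff_mul_le (by omega)).1 hk.2
      have h3 : ((k * Q : ℕ) : ℝ) ≤ N := by exact_mod_cast h2
      rw [max_eq_right (by linarith)]
      push_cast
      ring
    · intro k hk hk2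
      rw [mem_Icc] at hk hk2
      have h2 : N < k * Q := by
        by_contra h3
        push Not at h3
        exact hk2 ⟨hk.1, (Nat.le_div_iff_mul_le (by omega)).2 h3⟩
      have h3 : (N : ℝ) ≤ ((k * Q : ℕ) : ℝ) := by exact_mod_cast h2.le
      rw [max_eq_left (by linarith), mul_zero]
  have hterm : ∀ k ∈ Icc 1 (2 * N / Q), |cg N K ((k * Q : ℕ) : ℤ) -
      SK K k * max 0 ((N : ℝ) - (k * Q : ℕ))| ≤ C1 * ((K : ℝ) ^ 5 + K * Mw N K) := by
    intro k hk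
    rw [mem_Icc] at hk
    have h2 : k * Q ≤ 2 * N := (Nat.le_div_iff_mul_le (by omega)).1 hk.2
    have h3 : 1 ≤ k * Q := Nat.mul_pos (by omega) (by omega)
    have h4 := h1 K hK1 N hR (k * Q) h3 h2
    rw [hSK k] at h4
    exact h4
  rw [ha N K M Q hM hMw4 hQ1, hsum, ← mul_sub, ← Finset.sum_sub_distrib, abs_mul,
    abs_of_pos (by norm_num : (0 : ℝ) < 2)]
  have hcard : ((2 * N / Q : ℕ) : ℝ) ≤ 2 * K := by
    have h2 : ((2 * N / Q : ℕ) : ℝ) ≤ ((2 * N : ℕ) : ℝ) / Q := Nat.cast_div_le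
    refine h2.trans ?_
    rw [div_le_iff₀ hQ0]
    push_cast
    calc 2 * (N : ℝ) ≤ 2 * (K * Y) := by linarith
      _ ≤ 2 * (K * Q) := by gcongr
      _ = 2 * K * Q := by ring
  have hB : ∑ k ∈ Icc 1 (2 * N / Q), |cg N K ((k * Q : ℕ) : ℤ) -
      SK K k * max 0 ((N : ℝ) - (k * Q : ℕ))| ≤ 2 * K * (C1 * ((K : ℝ) ^ 5 + K * Mw N K)) := by
    calc ∑ k ∈ Icc 1 (2 * N / Q), |cg N K ((k * Q : ℕ) : ℤ) -
        SK K k * max 0 ((N : ℝ) - (k * Q : ℕ))|
        ≤ ∑ _k ∈ Icc 1 (2 * N / Q), C1 * ((K : ℝ) ^ 5 + K * Mw N K) :=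
          Finset.sum_le_sum hterm
      _ = ((2 * N / Q : ℕ) : ℝ) * (C1 * ((K : ℝ) ^ 5 + K * Mw N K)) := by
          rw [Finset.sum_const, Nat.card_Icc, Nat.add_sub_cancel, nsmul_eq_mul]
      _ ≤ 2 * K * (C1 * ((K : ℝ) ^ 5 + K * Mw N K)) := by gcongr
  have hK6 : (K : ℝ) ^ 6 ≤ N / K := by
    rw [le_div_iff₀ hK0]
    calc (K : ℝ) ^ 6 * K = (K : ℝ) ^ 7 := by ring
      _ ≤ (K : ℝ) ^ 400 := pow_le_pow_right₀ hK1r (by norm_num)
      _ ≤ N := hNK
  have hKM : (K : ℝ) ^ 2 * Mw N K ≤ N / K := by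
    calc (K : ℝ) ^ 2 * Mw N K ≤ (K : ℝ) ^ 2 * (N / (K : ℝ) ^ 7) := by gcongr
      _ = N / (K : ℝ) ^ 5 := by field_simp
      _ ≤ N / K := by
        apply div_le_div_of_nonneg_left hN0.le hK0
        exact le_self_pow₀ hK1r (by norm_num)
  calc 2 * |∑ k ∈ Icc 1 (2 * N / Q), (cg N K ((k * Q : ℕ) : ℤ) -
        SK K k * max 0 ((N : ℝ) - (k * Q : ℕ)))|
      ≤ 2 * ∑ k ∈ Icc 1 (2 * N / Q), |cg N K ((k * Q : ℕ) : ℤ) -
        SK K k * max 0 ((N : ℝ) - (k * Q : ℕ))| := by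
          gcongr
          exact Finset.abs_sum_le_sum_abs _ _
    _ ≤ 2 * (2 * K * (C1 * ((K : ℝ) ^ 5 + K * Mw N K))) := by gcongr
    _ = 4 * C1 * ((K : ℝ) ^ 6 + (K : ℝ) ^ 2 * Mw N K) := by ring
    _ ≤ 4 * C1 * (N / K + N / K) := by gcongr
    _ = 8 * C1 * N / K := by ring

end Pool.Agent.FGP
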