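import Pool.Agent.Lib_helper3.FGP.Wanted

set_option autoImplicit false

namespace Pool.Agent.FGP

open Finset Pool.Agent.Var35 Pool.Agent.Var73 Pool.Agent.PV
open scoped ArithmeticFunction ArithmeticFunction.Moebius

lemma p13a_gau_neg (N K : ℕ) (m : ℤ) : gau N K (-m) = gau N K m := by
  unfold gau; push_cast; rw [neg_sq]

lemma p13a_mem_neg (N K : ℕ) (m : ℤ) : -m ∈ Iw N K ↔ m ∈ Iw N K := by
  unfold Iw; rw [mem_Icc, mem_Icc]; omega

lemma p13a_vw_neg (N K : ℕ) (m : ℤ) : vw N K (-m) = vw N K m := by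
  unfold vw
  rw [p13a_gau_neg]
  simp only [p13a_mem_neg]

lemma p13a_vw_zero (N K : ℕ) (m : ℤ) (h : m ∉ Iw N K) : vw N K m = 0 := if_neg h

lemma p13a_refl {α : Type*} [AddCommMonoid α] (N K : ℕ) (F : ℤ → α) :
    ∑ m ∈ Iw N K, F m = ∑ m ∈ Iw N K, F (-m) := by
  refine sum_nbij' (fun m => -m) (fun m => -m) ?_ ?_ ?_ ?_ ?_
  · intro m hm; exact (p13a_mem_neg N K m).2 hm
  · intro m hm; exact (p13a_mem_neg N K m).2 hm
  · intro m _; exact neg_neg m
  · intro m _; exact neg_neg m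
  · intro m _; rw [neg_neg]

/-- `vh` as an exponential sum -/
lemma p13a_vh (N K : ℕ) (b : ℝ) :
    (vh N K b : ℂ) = ∑ m ∈ Iw N K, (vw N K m : ℂ) * e (m * b) := by
  set S : ℂ := ∑ m ∈ Iw N K, (vw N K m : ℂ) * e (m * b) with hS
  have h1 : (starRingEnd ℂ) S = S := by
    rw [hS, map_sum]
    conv_rhs => rw [p13a_refl]
    refine sum_congr rfl fun m _ => ?_
    rw [map_mul, Complex.conj_ofReal, ← e_neg, p13a_vw_neg]
    congr 2
    push_cast; ring
  rw [Complex.conj_eq_iff_re] at h1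
  rw [← h1]
  congr 1
  rw [hS, Complex.re_sum]
  unfold vh
  refine sum_congr rfl fun m _ => ?_
  rw [Complex.re_ofReal_mul, e_re]

lemma p13a_v2_neg (N K : ℕ) (m : ℤ) : v2 N K (-m) = v2 N K m := by
  unfold v2
  rw [p13a_refl]
  refine sum_congr rfl fun j _ => ?_
  rw [p13a_vw_neg, ← p13a_vw_neg N K (-m - -j)]
  congr 2; ring

lemma p13a_v2_zero (N K : ℕ) (m : ℤ) (h : m ∉ Icc (-(2 * (Mw N K : ℤ))) (2 * (Mw N K : ℤ))) :
    v2 N K m = 0 := by
  unfold v2
  refine sum_eq_zero fun j hj => ?_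
  rw [p13a_vw_zero N K (m - j), mul_zero]
  unfold Iw at hj ⊢
  rw [mem_Icc] at h hj ⊢
  omega

/-- a sum over a shifted interval, when the function vanishes outside -/
lemma p13a_shift {α : Type*} [AddCommMonoid α] (F : ℤ → α) (A B A' B' j : ℤ)
    (hF : ∀ k, k ∉ Icc A B → F k = 0) (h1 : A' + j ≤ A) (h2 : B ≤ B' + j) :
    ∑ k ∈ Icc A B, F k = ∑ m ∈ Icc A' B', F (m + j) := by
  have h3 : ∑ m ∈ Icc A' B', F (m + j) = ∑ k ∈ Icc (A' + j) (B' + j), F k := by
    refine sum_nbij' (fun m => m + j) (fun k => k - j) ?_ ?_ ?_ ?_ ?_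
    · intro m hm; rw [mem_Icc] at hm ⊢; omega
    · intro m hm; rw [mem_Icc] at hm ⊢; omega
    · intro m _; ring
    · intro m _; ring
    · intro m _; rfl
  rw [h3]
  refine sum_subset ?_ ?_
  · intro k hk; rw [mem_Icc] at hk ⊢; omega
  · intro k _ hk; exact hF k hk

/-- `vh ^ 2` as an exponential sum -/
lemma p13a_vh2 (N K : ℕ) (b : ℝ) :
    ((vh N K b ^ 2 : ℝ) : ℂ) =
      ∑ m ∈ Icc (-(2 * (Mw N K : ℤ))) (2 * (Mw N K : ℤ)), (v2 N K m : ℂ) * e (m * b) := by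
  rw [Complex.ofReal_pow, pow_two, p13a_vh, sum_mul_sum]
  have h1 : ∀ j ∈ Iw N K, ∑ k ∈ Iw N K, (vw N K j : ℂ) * e (j * b) * ((vw N K k : ℂ) * e (k * b)) =
      ∑ m ∈ Icc (-(2 * (Mw N K : ℤ))) (2 * (Mw N K : ℤ)),
        (vw N K j : ℂ) * (vw N K (m - j) : ℂ) * e (m * b) := by
    intro j hj
    have hj' := hj
    unfold Iw at hj'
    rw [mem_Icc] at hj'
    have h2 := p13a_shift (fun k => (vw N K j : ℂ) * e (j * b) * ((vw N K k : ℂ) * e (k * b)))
      (-(Mw N K : ℤ)) (Mw N K : ℤ) (-(2 * (Mw N K : ℤ))) (2 * (Mw N K : ℤ)) (-j)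
      (fun k hk => by
        have : vw N K k = 0 := p13a_vw_zero N K k hk
        simp only [this]; simp) (by omega) (by omega)
    unfold Iw
    rw [h2]
    refine sum_congr rfl fun m _ => ?_
    have h3 : (vw N K j : ℂ) * e (j * b) * ((vw N K (m + -j) : ℂ) * e (((m + -j : ℤ) : ℝ) * b)) =
      (vw N K j : ℂ) * (vw N K (m + -j) : ℂ) * (e (j * b) * e (((m + -j : ℤ) : ℝ) * b)) := by ring
    rw [h3, ← e_add]
    congr 2
    push_cast; ring
  rw [sum_congr rfl h1, sum_comm]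
  refine sum_congr rfl fun m _ => ?_
  unfold v2
  rw [← sum_mul]
  push_cast
  rfl

/-- the sum over the reduced residues is real -/
lemma p13a_cZ (r : ℕ) (hr : 1 ≤ r) (n : ℤ) :
    ∑ c ∈ Cd r, e (-(n * (c / r))) = (cZ r n : ℂ) := by
  have hr0 : (r : ℝ) ≠ 0 := by positivity
  set S : ℂ := ∑ c ∈ Cd r, e (-(n * (c / r))) with hS
  have h1 : (starRingEnd ℂ) S = S := by
    rw [hS, map_sum]
    refine sum_nbij' (fun c => if c = 0 then 0 else r - c) (fun c => if c = 0 then 0 else r - c)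
      ?_ ?_ ?_ ?_ ?_
    · intro c hc
      unfold Cd at hc ⊢
      rw [mem_filter, mem_range] at hc ⊢
      by_cases h0 : c = 0
      · rw [if_pos h0]; rw [h0] at hc; exact hc
      · rw [if_neg h0]
        exact ⟨by omega, (Nat.coprime_self_sub_left hc.1.le).2 hc.2⟩
    · intro c hc
      unfold Cd at hc ⊢
      rw [mem_filter, mem_range] at hc ⊢
      by_cases h0 : c = 0
      · rw [if_pos h0]; rw [h0] at hc; exact hc
      · rw [if_neg h0]
        exact ⟨by omega, (Nat.coprime_self_sub_left hc.1.le).2 hc.2⟩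
    · intro c hc
      unfold Cd at hc
      rw [mem_filter, mem_range] at hc
      by_cases h0 : c = 0
      · simp only [h0, if_true]
      · simp only [h0, if_false]
        rw [if_neg (by omega)]; omega
    · intro c hc
      unfold Cd at hc
      rw [mem_filter, mem_range] at hc
      by_cases h0 : c = 0
      · simp only [h0, if_true]
      · simp only [h0, if_false]
        rw [if_neg (by omega)]; omega
    · intro c hc
      unfold Cd at hc
      rw [mem_filter, mem_range] at hc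
      rw [← e_neg]
      by_cases h0 : c = 0
      · simp only [h0, if_true]
        congr 1; simp
      · simp only [h0, if_false]
        have h2 : ((r - c : ℕ) : ℝ) = (r : ℝ) - c := by
          rw [Nat.cast_sub hc.1.le]
        rw [h2]
        have h3 : -((n : ℝ) * (((r : ℝ) - c) / r)) = - -((n : ℝ) * (c / r)) + ((-n : ℤ) : ℝ) := by
          push_cast
          field_simp
          ring
        rw [h3, e_add_int]
  rw [Complex.conj_eq_iff_re] at h1
  rw [← h1]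
  congr 1
  rw [hS, Complex.re_sum]
  unfold cZ
  refine sum_congr rfl fun c _ => ?_
  rw [e_re]
  rw [← Real.cos_neg]
  congr 1
  ring

lemma p13a_gn_zero (N K : ℕ) (n : ℤ)
    (h : n ∉ Icc (1 - 2 * (Mw N K : ℤ)) ((N : ℤ) + 2 * Mw N K)) : gn N K n = 0 := by
  unfold gn
  rw [sum_eq_zero, zero_mul]
  intro m hm
  refine p13a_v2_zero N K _ ?_
  rw [mem_Icc] at hm h ⊢
  omega

/-- one term of `gh` -/
lemma p13a_term (N K : ℕ) (x : ℝ) :
    ((vh N K x ^ 2 : ℝ) : ℂ) * In N x =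
      ∑ n ∈ Icc (1 - 2 * (Mw N K : ℤ)) ((N : ℤ) + 2 * Mw N K),
        ((∑ m ∈ Icc 1 N, v2 N K ((m : ℤ) - n) : ℝ) : ℂ) * e (n * x) := by
  rw [p13a_vh2]
  unfold In
  rw [mul_comm, sum_mul_sum]
  have h1 : ∀ m ∈ Icc 1 N, ∑ k ∈ Icc (-(2 * (Mw N K : ℤ))) (2 * (Mw N K : ℤ)),
      e ((m : ℕ) * x) * ((v2 N K k : ℂ) * e (k * x)) =
      ∑ n ∈ Icc (1 - 2 * (Mw N K : ℤ)) ((N : ℤ) + 2 * Mw N K),
        (v2 N K ((m : ℤ) - n) : ℂ) * e (n * x) := by
    intro m hm
    rw [mem_Icc] at hm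
    rw [p13a_shift (fun k => e ((m : ℕ) * x) * ((v2 N K k : ℂ) * e (k * x)))
      (-(2 * (Mw N K : ℤ))) (2 * (Mw N K : ℤ)) (1 - 2 * (Mw N K : ℤ)) ((N : ℤ) + 2 * Mw N K)
      (-(m : ℤ)) (fun k hk => by
        have : v2 N K k = 0 := p13a_v2_zero N K k hk
        simp only [this]; simp) (by omega) (by omega)]
    refine sum_congr rfl fun n _ => ?_
    have h3 : v2 N K (n + -(m : ℤ)) = v2 N K ((m : ℤ) - n) := by
      rw [← p13a_v2_neg]; congr 1; ring
    rw [h3]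
    have h4 : e ((m : ℕ) * x) * ((v2 N K ((m : ℤ) - n) : ℂ) * e (((n + -(m : ℤ) : ℤ) : ℝ) * x)) =
      (v2 N K ((m : ℤ) - n) : ℂ) * (e ((m : ℕ) * x) * e (((n + -(m : ℤ) : ℤ) : ℝ) * x)) := by ring
    rw [h4, ← e_add]
    congr 2
    push_cast; ring
  rw [sum_congr rfl h1, sum_comm]
  refine sum_congr rfl fun n _ => ?_
  rw [← sum_mul]
  push_cast
  rfl

/-- `gh` as a trigonometric polynomial -/
theorem p13a_gh (N K : ℕ) (t : ℝ) :
    gh N K t = ∑ n ∈ Icc (1 - 2 * (Mw N K : ℤ)) ((N : ℤ) + 2 * Mw N K), (gn N K n : ℂ) * e (n * t) := by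
  unfold gh
  have h1 : ∀ r ∈ Icc 1 K, ∑ c ∈ Cd r,
      ((mr r * vh N K (t - c / r) ^ 2 : ℝ) : ℂ) * In N (t - c / r) =
      ∑ n ∈ Icc (1 - 2 * (Mw N K : ℤ)) ((N : ℤ) + 2 * Mw N K),
        ((∑ m ∈ Icc 1 N, v2 N K ((m : ℤ) - n) : ℝ) : ℂ) * ((mr r : ℂ) * (cZ r n : ℂ)) * e (n * t) := by
    intro r hr
    rw [mem_Icc] at hr
    have h2 : ∀ c ∈ Cd r, ((mr r * vh N K (t - c / r) ^ 2 : ℝ) : ℂ) * In N (t - c / r) =
        ∑ n ∈ Icc (1 - 2 * (Mw N K : ℤ)) ((N : ℤ) + 2 * Mw N K),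
        ((∑ m ∈ Icc 1 N, v2 N K ((m : ℤ) - n) : ℝ) : ℂ) * ((mr r : ℂ) * e (-(n * (c / r)))) *
          e (n * t) := by
      intro c _
      rw [Complex.ofReal_mul, mul_assoc, p13a_term, mul_sum]
      refine sum_congr rfl fun n _ => ?_
      have h3 : (n : ℝ) * (t - c / r) = -(n * (c / r)) + n * t := by ring
      rw [h3, e_add]
      ring
    rw [sum_congr rfl h2, sum_comm]
    refine sum_congr rfl fun n _ => ?_
    rw [← sum_mul, ← mul_sum, ← mul_sum, p13a_cZ r hr.1]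
  rw [sum_congr rfl h1, sum_comm]
  refine sum_congr rfl fun n _ => ?_
  rw [← sum_mul, ← mul_sum]
  congr 1
  unfold gn
  push_cast
  rfl

/-- the variance of a trigonometric polynomial with real coefficients -/
theorem p13a_va (f : ℤ → ℝ) (A B : ℤ) (P : ℝ → ℂ)
    (hP : ∀ t, P t = ∑ n ∈ Icc A B, (f n : ℂ) * e (n * t)) (Q : ℕ) (hQ : 1 ≤ Q) :
    VA P Q = ∑ n ∈ Icc A B, ∑ m ∈ Icc A B, if (Q : ℤ) ∣ (m - n) then f n * f m else 0 := by
  have hQ' : (Q : ℂ) ≠ 0 := by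
    have : Q ≠ 0 := by omega
    exact_mod_cast this
  have h1 : ∀ x : ℝ, ((‖P x‖ ^ 2 : ℝ) : ℂ) = ∑ n ∈ Icc A B, ∑ m ∈ Icc A B,
      ((f n * f m : ℝ) : ℂ) * e ((m - n : ℤ) * x) := by
    intro x
    rw [← Complex.normSq_eq_norm_sq, ← Complex.mul_conj, hP, map_sum, sum_mul_sum, sum_comm]
    refine sum_congr rfl fun n _ => sum_congr rfl fun m _ => ?_
    rw [map_mul, ← e_neg, Complex.conj_ofReal]
    have : (f m : ℂ) * e (m * x) * ((f n : ℂ) * e (-(n * x))) =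
        (f n : ℂ) * (f m : ℂ) * (e (m * x) * e (-(n * x))) := by ring
    rw [this, ← e_add]
    push_cast
    congr 2
    ring
  have h2 : ((∑ b ∈ range Q, ‖P (b / Q)‖ ^ 2 : ℝ) : ℂ) = Q * ((∑ n ∈ Icc A B, ∑ m ∈ Icc A B,
      if (Q : ℤ) ∣ (m - n) then f n * f m else 0 : ℝ) : ℂ) := by
    rw [Complex.ofReal_sum, sum_congr rfl fun (j : ℕ) _ => h1 ((j : ℝ) / Q), sum_comm,
      Complex.ofReal_sum, mul_sum]
    refine sum_congr rfl fun n _ => ?_
    rw [sum_comm, Complex.ofReal_sum, mul_sum]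
    refine sum_congr rfl fun m _ => ?_
    rw [← mul_sum]
    by_cases hd : (Q : ℤ) ∣ (m - n)
    · rw [if_pos hd]
      obtain ⟨k, hk⟩ := hd
      have h3 : ∀ j ∈ range Q, e ((m - n : ℤ) * ((j : ℝ) / Q)) = 1 := by
        intro j _
        rw [hk]
        have hQ1 : (Q : ℝ) ≠ 0 := by positivity
        have h4 : (((Q : ℤ) * k : ℤ) : ℝ) * ((j : ℝ) / Q) = ((k * j : ℤ) : ℝ) := by
          push_cast; field_simp
        rw [h4, e_int]
      rw [sum_congr rfl h3]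
      simp only [sum_const, card_range, nsmul_eq_mul, mul_one]
      ring
    · rw [if_neg hd, par_orth Q hQ (m - n) hd]
      simp
  have h3 : ((VA P Q : ℝ) : ℂ) = ((∑ n ∈ Icc A B, ∑ m ∈ Icc A B,
      if (Q : ℤ) ∣ (m - n) then f n * f m else 0 : ℝ) : ℂ) := by
    unfold VA
    rw [Complex.ofReal_mul, h2]
    push_cast
    field_simp
  exact_mod_cast h3

/-- the correlations -/
theorem p13a_corr (f : ℤ → ℝ) (A B : ℤ) (hf : ∀ n, n ∉ Icc A B → f n = 0) (N : ℕ)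
    (hN : B - A < 2 * (N : ℤ)) (Q : ℕ) (hQ : 1 ≤ Q) :
    (∑ n ∈ Icc A B, ∑ m ∈ Icc A B, if (Q : ℤ) ∣ (m - n) then f n * f m else 0) =
      (∑ n ∈ Icc A B, f n * f (n + 0)) +
        2 * ∑ k ∈ Icc 1 (2 * N / Q), ∑ n ∈ Icc A B, f n * f (n + ((k * Q : ℕ) : ℤ)) := by
  set R : ℕ := 2 * N / Q with hR
  have hQ0 : (0 : ℤ) < Q := by exact_mod_cast hQ
  -- inner sum
  have h1 : ∀ n ∈ Icc A B, ∑ m ∈ Icc A B, (if (Q : ℤ) ∣ (m - n) then f n * f m else 0) =
      ∑ k ∈ Icc (-(R : ℤ)) (R : ℤ), f n * f (n + k * Q) := by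
    intro n hn
    rw [← sum_filter]
    rw [mem_Icc] at hn
    refine sum_bij_ne_zero (fun m _ _ => (m - n) / Q) ?_ ?_ ?_ ?_
    · intro m hm _
      rw [mem_filter, mem_Icc] at hm
      obtain ⟨⟨hm1, hm2⟩, k, hk⟩ := hm
      rw [hk, Int.mul_ediv_cancel_left _ hQ0.ne', mem_Icc]
      have h2 : Q * k < 2 * N := by omega
      have h3 : -(2 * (N : ℤ)) < Q * k := by omega
      have h4 : (R : ℤ) = (2 * N : ℤ) / Q := by rw [hR]; push_cast; rfl
      constructor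
      · have : -k ≤ R := by
          rw [h4]; rw [Int.le_ediv_iff_mul_le hQ0]; nlinarith
        omega
      · rw [h4]; rw [Int.le_ediv_iff_mul_le hQ0]; nlinarith
    · intro m hm _ m' hm' _ h
      rw [mem_filter] at hm hm'
      have h2 := Int.ediv_mul_cancel hm.2
      have h3 := Int.ediv_mul_cancel hm'.2
      rw [h, h3] at h2
      omega
    · intro k hk hne
      have hne' : f (n + k * Q) ≠ 0 := fun h => hne (by rw [h, mul_zero])
      have hin : n + k * Q ∈ Icc A B := by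
        by_contra h; exact hne' (hf _ h)
      refine ⟨n + k * Q, ?_, ?_, ?_⟩
      · rw [mem_filter]; exact ⟨hin, ⟨k, by ring⟩⟩
      · exact hne
      · rw [add_sub_cancel_left, Int.mul_ediv_cancel _ hQ0.ne']
    · intro m hm _
      rw [mem_filter] at hm
      rw [Int.ediv_mul_cancel hm.2]
      congr 2; ring
  rw [sum_congr rfl h1, sum_comm]
  -- symmetric correlations
  set c : ℤ → ℝ := fun h => ∑ n ∈ Icc A B, f n * f (n + h) with hc
  have h2 : ∀ h : ℤ, c (-h) = c h := by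
    intro h
    simp only [hc]
    -- both are sums over a large interval
    have h3 : ∑ n ∈ Icc A B, f n * f (n + -h) =
        ∑ n ∈ Icc (A - |h|) (B + |h|), f (n + h) * f (n + h + -h) := by
      refine p13a_shift (fun n => f n * f (n + -h)) A B (A - |h|) (B + |h|) h ?_ ?_ ?_
      · intro k hk; simp only [hf k hk, zero_mul]
      · have := le_abs_self h; omega
      · have := neg_abs_le h; omega
    have h4 : ∑ n ∈ Icc A B, f n * f (n + h) =
        ∑ n ∈ Icc (A - |h|) (B + |h|), f (n + 0) * f (n + 0 + h) := by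
      refine p13a_shift (fun n => f n * f (n + h)) A B (A - |h|) (B + |h|) 0 ?_ ?_ ?_
      · intro k hk; simp only [hf k hk, zero_mul]
      · have := abs_nonneg h; omega
      · have := abs_nonneg h; omega
    rw [h3, h4]
    refine sum_congr rfl fun n _ => ?_
    rw [add_zero, mul_comm]
    congr 2; ring
  have h5 : ∑ k ∈ Icc (-(R : ℤ)) (R : ℤ), c (k * Q) = c 0 + 2 * ∑ k ∈ Icc 1 R, c ((k * Q : ℕ) : ℤ) := by
    clear_value R
    clear hR h1
    induction R with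
    | zero => simp
    | succ R ih =>
      have h6 : Icc (-((R + 1 : ℕ) : ℤ)) ((R + 1 : ℕ) : ℤ) =
          insert (-((R + 1 : ℕ) : ℤ)) (insert ((R + 1 : ℕ) : ℤ) (Icc (-(R : ℤ)) (R : ℤ))) := by
        ext k
        simp only [mem_insert, mem_Icc]
        push_cast
        omega
      rw [h6, sum_insert, sum_insert, ih, sum_Icc_succ_top (by omega)]
      · have h7 : c (-((R + 1 : ℕ) : ℤ) * (Q : ℤ)) = c (((R + 1) * Q : ℕ) : ℤ) := by
          rw [← h2]; congr 1; push_cast; ring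
        have h8 : c (((R + 1 : ℕ) : ℤ) * (Q : ℤ)) = c (((R + 1) * Q : ℕ) : ℤ) := by
          congr 1
        rw [h7, h8]
        ring
      · rw [mem_Icc]; push_cast; omega
      · rw [mem_insert, mem_Icc]; push_cast; omega
  exact h5

theorem W13a_pr : W13a := by
  intro N K M Q hM hN hQ
  have hM0 : 4 * (2 * N) < M := hM.1
  have hB : ((N : ℤ) + 2 * Mw N K) - (1 - 2 * (Mw N K : ℤ)) < 2 * (N : ℤ) := by omega
  have key : ∀ Q : ℕ, 1 ≤ Q → VA (gh N K) Q = cg N K 0 +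
      2 * ∑ k ∈ Icc 1 (2 * N / Q), cg N K ((k * Q : ℕ) : ℤ) := by
    intro Q hQ
    rw [p13a_va (gn N K) _ _ (gh N K) (p13a_gh N K) Q hQ,
      p13a_corr (gn N K) _ _ (p13a_gn_zero N K) N hB Q hQ]
    rfl
  have h1 : ms M (gh N K) = VA (gh N K) M := rfl
  have h2 : 2 * N / M = 0 := Nat.div_eq_of_lt (by omega)
  rw [h1, key Q hQ, key M (by omega), h2]
  simp

end Pool.Agent.FGP
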