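import Pool.Agent.Lib_helper3.FGP.Wanted

/-!
# FGP: block P13b (helper1): the correlations of `gh`
-/

set_option autoImplicit false

namespace Pool.Agent.FGP

open Finset Pool.Agent.Var35 Pool.Agent.Var73 Pool.Agent.PV
open scoped ArithmeticFunction ArithmeticFunction.Moebius

/-! ### exponential sums over intervals of integers -/

lemma P13b_Icc_sum (A B : ℤ) (f : ℤ → ℂ) :
    ∑ n ∈ Icc A B, f n = ∑ j ∈ range (B + 1 - A).toNat, f (A + j) := by
  symm
  refine Finset.sum_nbij' (fun j => A + (j : ℤ)) (fun n => (n - A).toNat) ?_ ?_ ?_ ?_ ?_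
  · intro j hj
    rw [mem_range] at hj
    rw [mem_Icc]
    omega
  · intro n hn
    rw [mem_Icc] at hn
    rw [mem_range]
    omega
  · intro j hj
    simp
  · intro n hn
    rw [mem_Icc] at hn
    omega
  · intro j hj
    rfl

lemma P13b_geom (A B : ℤ) (x : ℝ) (D : ℕ) (m : ℤ) (hD : 1 ≤ D) (hm : D * x = m)
    (hd : ¬ (D : ℤ) ∣ m) : ‖∑ n ∈ Icc A B, e (n * x)‖ ≤ D / 2 := by
  have hD0 : (0:ℝ) < D := by exact_mod_cast hD
  set a : ℝ := x - round x with ha
  have h1 : ∀ n : ℤ, e (n * x) = e (n * a) := by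
    intro n
    have : (n:ℝ) * x = n * a + ((n * round x : ℤ) : ℝ) := by
      rw [ha]; push_cast; ring
    rw [this, e_add_int]
  have h2 : (D:ℝ) * a = ((m - D * round x : ℤ) : ℝ) := by
    rw [ha, mul_sub, hm]; push_cast; ring
  have h3 : (1:ℝ) ≤ D * |a| := by
    have h4 : (m - D * round x : ℤ) ≠ 0 := by
      intro h
      exact hd ⟨round x, by linarith⟩
    have h5 : 1 ≤ |(m - D * round x : ℤ)| := Int.one_le_abs h4
    have h6 : (D:ℝ) * |a| = ((|(m - D * round x : ℤ)| : ℤ) : ℝ) := by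
      rw [Int.cast_abs, ← h2, abs_mul, abs_of_pos hD0]
    rw [h6]
    exact_mod_cast h5
  have ha0 : 0 < |a| := by
    by_contra h
    have h7 : |a| = 0 := le_antisymm (not_lt.mp h) (abs_nonneg _)
    rw [h7, mul_zero] at h3
    linarith
  have ha1 : |a| ≤ 1 / 2 := abs_sub_round x
  rw [sum_congr rfl fun n _ => h1 n, P13b_Icc_sum]
  have h8 : ∑ j ∈ range (B + 1 - A).toNat, e (((A + (j:ℤ) : ℤ) : ℝ) * a)
      = e (A * a) * ∑ j ∈ range (B + 1 - A).toNat, e ((j:ℝ) * a) := by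
    rw [mul_sum]
    refine sum_congr rfl fun j _ => ?_
    rw [← e_add]
    congr 1
    push_cast
    ring
  rw [h8, norm_mul, norm_e, one_mul]
  refine (geom_bound ha0 ha1 _).trans ?_
  rw [div_le_div_iff₀ (by positivity) (by norm_num)]
  nlinarith

/-! ### Ramanujan sums -/

lemma P13b_sin (r : ℕ) (n : ℤ) : ∑ c ∈ Cd r, Real.sin (2 * Real.pi * (c * n / r)) = 0 := by
  rcases Nat.lt_or_ge r 2 with hr | hr
  · interval_cases r
    · simp [Cd]
    · have : Cd 1 = {0} := by decide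
      rw [this]
      simp
  · have hr0 : (r:ℝ) ≠ 0 := by positivity
    have h1 : ∑ c ∈ Cd r, Real.sin (2 * Real.pi * (c * n / r))
        = ∑ c ∈ Cd r, Real.sin (2 * Real.pi * (((r - c : ℕ) : ℝ) * n / r)) := by
      refine Finset.sum_nbij' (fun c => r - c) (fun c => r - c) ?_ ?_ ?_ ?_ ?_
      · intro c hc
        simp only [Cd, mem_filter, mem_range] at hc ⊢
        have h0 : c ≠ 0 := by
          rintro rfl
          have := hc.2
          simp at this
          omega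
        refine ⟨by omega, ?_⟩
        rw [Nat.coprime_self_sub_left hc.1.le]
        exact hc.2
      · intro c hc
        simp only [Cd, mem_filter, mem_range] at hc ⊢
        have h0 : c ≠ 0 := by
          rintro rfl
          have := hc.2
          simp at this
          omega
        refine ⟨by omega, ?_⟩
        rw [Nat.coprime_self_sub_left hc.1.le]
        exact hc.2
      · intro c hc
        simp only [Cd, mem_filter, mem_range] at hc
        omega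
      · intro c hc
        simp only [Cd, mem_filter, mem_range] at hc
        omega
      · intro c hc
        simp only [Cd, mem_filter, mem_range] at hc
        have : r - (r - c) = c := by omega
        simp only [this]
    have h2 : ∀ c ∈ Cd r, Real.sin (2 * Real.pi * (((r - c : ℕ) : ℝ) * n / r))
        = - Real.sin (2 * Real.pi * (c * n / r)) := by
      intro c hc
      simp only [Cd, mem_filter, mem_range] at hc
      have h3 : 2 * Real.pi * (((r - c : ℕ) : ℝ) * n / r)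
          = n * (2 * Real.pi) - 2 * Real.pi * (c * n / r) := by
        rw [Nat.cast_sub hc.1.le]
        field_simp
      rw [h3, Real.sin_int_mul_two_pi_sub]
    rw [sum_congr rfl h2, sum_neg_distrib] at h1
    linarith

lemma P13b_cZ (r : ℕ) (n : ℤ) : (cZ r n : ℂ) = ∑ c ∈ Cd r, e (c * n / r) := by
  apply Complex.ext
  · rw [Complex.ofReal_re, Complex.re_sum]
    unfold cZ
    refine sum_congr rfl fun c _ => ?_
    rw [e_re]
  · rw [Complex.ofReal_im, Complex.im_sum, ← P13b_sin r n]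
    refine sum_congr rfl fun c _ => ?_
    unfold e
    rw [Complex.exp_ofReal_mul_I_im]

lemma P13b_cZ' (r : ℕ) (n : ℤ) : (cZ r n : ℂ) = ∑ c ∈ Cd r, e (-(c * n / r)) := by
  have h := congrArg (starRingEnd ℂ) (P13b_cZ r n)
  rw [Complex.conj_ofReal, map_sum] at h
  rw [h]
  refine sum_congr rfl fun c _ => ?_
  rw [e_neg]

lemma P13b_cR (r h : ℕ) : cR r h = cZ r h := by
  unfold cR cZ
  simp

lemma P13b_cR_le (r h : ℕ) : |cR r h| ≤ Nat.totient r := by
  unfold cR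
  refine (abs_sum_le_sum_abs _ _).trans ?_
  rw [← card_Cd]
  refine (sum_le_card_nsmul _ _ 1 fun c _ => Real.abs_cos_le_one _).trans ?_
  simp

/-- two different fractions -/
lemma P13b_frac {r r' c c' : ℕ} (hr : 1 ≤ r) (hr' : 1 ≤ r') (hc : c ∈ Cd r) (hc' : c' ∈ Cd r')
    (hne : ¬ (r = r' ∧ c = c')) : ¬ ((r * r' : ℕ) : ℤ) ∣ ((c : ℤ) * r' - c' * r) := by
  rintro ⟨k, hk⟩
  simp only [Cd, mem_filter, mem_range] at hc hc'
  have h1 : (c : ℤ) * r' < r * r' := by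
    have := hc.1
    have h0 : (0:ℤ) < r' := by exact_mod_cast hr'
    have h2 : (c:ℤ) < r := by exact_mod_cast this
    nlinarith
  have h2 : (c' : ℤ) * r < r * r' := by
    have := hc'.1
    have h0 : (0:ℤ) < r := by exact_mod_cast hr
    have h2 : (c':ℤ) < r' := by exact_mod_cast this
    nlinarith
  have h3 : (0:ℤ) ≤ (c : ℤ) * r' := by positivity
  have h4 : (0:ℤ) ≤ (c' : ℤ) * r := by positivity
  have h5 : (0:ℤ) < (r:ℤ) * r' := by positivity
  have hk0 : k = 0 := by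
    push_cast at hk
    have h6 : (r:ℤ) * r' * k < r * r' * 1 := by linarith
    have h7 : (r:ℤ) * r' * (-1) < r * r' * k := by linarith
    have h8 := lt_of_mul_lt_mul_left h6 h5.le
    have h9 := lt_of_mul_lt_mul_left h7 h5.le
    omega
  rw [hk0, mul_zero] at hk
  have h6 : c * r' = c' * r := by
    have : (c:ℤ) * r' = c' * r := by linarith
    exact_mod_cast this
  have h7 : r ∣ r' := by
    have : r ∣ c * r' := by rw [h6]; exact Dvd.intro_left _ rfl
    exact (Nat.Coprime.dvd_of_dvd_mul_left hc.2.symm this)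
  have h8 : r' ∣ r := by
    have : r' ∣ c' * r := by rw [← h6]; exact Dvd.intro_left _ rfl
    exact (Nat.Coprime.dvd_of_dvd_mul_left hc'.2.symm this)
  have h9 : r = r' := Nat.dvd_antisymm h7 h8
  subst h9
  exact hne ⟨rfl, Nat.eq_of_mul_eq_mul_right hr h6⟩

lemma P13b_pair {r r' : ℕ} (hr : 1 ≤ r) (hr' : 1 ≤ r') (A B : ℤ) (h : ℕ) :
    |∑ n ∈ Icc A B, cZ r n * cZ r' (n + h) - (if r = r' then cR r h * ((Icc A B).card : ℝ) else 0)|
      ≤ (Nat.totient r : ℝ) * Nat.totient r' * (r * r' / 2) := by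
  have hr0 : (r:ℝ) ≠ 0 := by positivity
  have hr0' : (r':ℝ) ≠ 0 := by positivity
  rw [← Real.norm_eq_abs, ← Complex.norm_real]
  have key : (((∑ n ∈ Icc A B, cZ r n * cZ r' (n + h)
      - (if r = r' then cR r h * ((Icc A B).card : ℝ) else 0) : ℝ)) : ℂ)
      = ∑ c ∈ Cd r, ∑ c' ∈ Cd r', (e (-(c' * (h:ℤ) / r')) * ∑ n ∈ Icc A B, e (n * ((c:ℝ) / r - c' / r'))
        - (if r = r' ∧ c = c' then e (-(c' * (h:ℤ) / r')) * ((Icc A B).card : ℂ) else 0)) := by
    rw [Complex.ofReal_sub]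
    simp only [sum_sub_distrib]
    congr 1
    · rw [Complex.ofReal_sum]
      simp only [mul_sum]
      rw [sum_congr rfl fun c _ => sum_comm]
      rw [sum_comm]
      refine sum_congr rfl fun n _ => ?_
      rw [Complex.ofReal_mul, P13b_cZ, P13b_cZ', sum_mul_sum]
      refine sum_congr rfl fun c _ => sum_congr rfl fun c' _ => ?_
      rw [← e_add, ← e_add]
      congr 1
      push_cast
      field_simp
      ring
    · split_ifs with hrr
      · subst hrr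
        rw [Complex.ofReal_mul, P13b_cR, P13b_cZ', sum_mul]
        refine sum_congr rfl fun c hc => ?_
        simp only [true_and]
        rw [sum_ite_eq]
        simp only [hc, if_true]
        simp
      · simp [hrr]
  rw [key]
  refine (norm_sum_le _ _).trans ?_
  rw [← card_Cd, ← card_Cd]
  have : ((Cd r).card : ℝ) * (Cd r').card * (r * r' / 2) = ∑ c ∈ Cd r, ∑ c' ∈ Cd r', ((r:ℝ) * r' / 2) := by
    simp only [sum_const, nsmul_eq_mul]
    ring
  rw [this]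
  refine sum_le_sum fun c hc => ?_
  refine (norm_sum_le _ _).trans (sum_le_sum fun c' hc' => ?_)
  split_ifs with hcc
  · obtain ⟨rfl, rfl⟩ := hcc
    rw [sub_self]
    simp only [mul_zero, e_zero, sum_const, nsmul_eq_mul, mul_one, sub_self, norm_zero]
    positivity
  · rw [sub_zero, norm_mul, norm_e, one_mul]
    have h1 := P13b_geom A B ((c:ℝ) / r - c' / r') (r * r') ((c:ℤ) * r' - c' * r)
      (Nat.mul_pos hr hr') (by push_cast; field_simp) (P13b_frac hr hr' hc hc' hcc)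
    push_cast at h1
    exact h1

lemma P13b_mr_le (r : ℕ) (hr : 1 ≤ r) : |mr r| * Nat.totient r ≤ 1 := by
  unfold mr
  have h1 : (0:ℝ) < Nat.totient r := by exact_mod_cast Nat.totient_pos.mpr hr
  rw [abs_div, abs_of_pos h1, div_mul_cancel₀ _ h1.ne']
  have := ArithmeticFunction.abs_moebius_le_one (n := r)
  have h2 : |((μ r : ℤ) : ℝ)| = ((|μ r| : ℤ) : ℝ) := by rw [Int.cast_abs]
  rw [h2]
  exact_mod_cast this

lemma P13b_int (K : ℕ) (A B : ℤ) (h : ℕ) :
    |∑ n ∈ Icc A B, (∑ r ∈ Icc 1 K, mr r * cZ r n) * (∑ r ∈ Icc 1 K, mr r * cZ r (n + h))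
      - (∑ r ∈ Icc 1 K, mr r ^ 2 * cR r h) * ((Icc A B).card : ℝ)| ≤ (K:ℝ) ^ 4 := by
  have key : ∑ n ∈ Icc A B, (∑ r ∈ Icc 1 K, mr r * cZ r n) * (∑ r ∈ Icc 1 K, mr r * cZ r (n + h))
      - (∑ r ∈ Icc 1 K, mr r ^ 2 * cR r h) * ((Icc A B).card : ℝ)
      = ∑ r ∈ Icc 1 K, ∑ r' ∈ Icc 1 K, mr r * mr r' * (∑ n ∈ Icc A B, cZ r n * cZ r' (n + h)
        - (if r = r' then cR r h * ((Icc A B).card : ℝ) else 0)) := by
    simp only [mul_sub, sum_sub_distrib]
    congr 1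
    · have e1 : ∑ r ∈ Icc 1 K, ∑ r' ∈ Icc 1 K, mr r * mr r' * ∑ n ∈ Icc A B, cZ r n * cZ r' (n + h)
          = ∑ n ∈ Icc A B, ∑ r ∈ Icc 1 K, ∑ r' ∈ Icc 1 K, mr r * mr r' * (cZ r n * cZ r' (n + h)) := by
        simp only [mul_sum]
        rw [sum_congr rfl fun c _ => sum_comm, sum_comm]
      rw [e1]
      refine sum_congr rfl fun n _ => ?_
      rw [sum_mul_sum]
      refine sum_congr rfl fun c _ => sum_congr rfl fun c' _ => ?_
      ring
    · rw [sum_mul]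
      refine sum_congr rfl fun r hr => ?_
      simp only [mul_ite, mul_zero]
      rw [sum_ite_eq]
      simp only [hr, if_true]
      ring
  rw [key]
  refine (abs_sum_le_sum_abs _ _).trans ?_
  have h1 : ∀ r ∈ Icc 1 K, |∑ r' ∈ Icc 1 K, mr r * mr r' * (∑ n ∈ Icc A B, cZ r n * cZ r' (n + h)
        - (if r = r' then cR r h * ((Icc A B).card : ℝ) else 0))| ≤ (K:ℝ) ^ 3 := by
    intro r hr
    rw [mem_Icc] at hr
    refine (abs_sum_le_sum_abs _ _).trans ?_
    have h2 : ∀ r' ∈ Icc 1 K, |mr r * mr r' * (∑ n ∈ Icc A B, cZ r n * cZ r' (n + h)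
        - (if r = r' then cR r h * ((Icc A B).card : ℝ) else 0))| ≤ (K:ℝ) ^ 2 := by
      intro r' hr'
      rw [mem_Icc] at hr'
      rw [abs_mul, abs_mul]
      have h3 := P13b_pair hr.1 hr'.1 A B h
      have h4 := P13b_mr_le r hr.1
      have h5 := P13b_mr_le r' hr'.1
      have h6 : |mr r| * |mr r'| * |∑ n ∈ Icc A B, cZ r n * cZ r' (n + h)
        - (if r = r' then cR r h * ((Icc A B).card : ℝ) else 0)|
          ≤ |mr r| * |mr r'| * ((Nat.totient r : ℝ) * Nat.totient r' * (r * r' / 2)) :=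
        mul_le_mul_of_nonneg_left h3 (by positivity)
      refine h6.trans ?_
      have h7 : |mr r| * |mr r'| * ((Nat.totient r : ℝ) * Nat.totient r' * (r * r' / 2))
          = (|mr r| * Nat.totient r) * (|mr r'| * Nat.totient r') * (r * r' / 2) := by ring
      rw [h7]
      have h8 : (|mr r| * Nat.totient r) * (|mr r'| * Nat.totient r') ≤ 1 * 1 :=
        mul_le_mul h4 h5 (by positivity) zero_le_one
      have h9 : (r:ℝ) ≤ K := by exact_mod_cast hr.2
      have h10 : (r':ℝ) ≤ K := by exact_mod_cast hr'.2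
      have h11 : (r:ℝ) * r' ≤ K * K := mul_le_mul h9 h10 (by positivity) (by positivity)
      have h12 : (0:ℝ) ≤ (r:ℝ) * r' := by positivity
      nlinarith
    refine (sum_le_card_nsmul _ _ _ h2).trans ?_
    simp only [Nat.card_Icc, add_tsub_cancel_right, nsmul_eq_mul]
    exact le_of_eq (by ring)
  refine (sum_le_card_nsmul _ _ _ h1).trans ?_
  simp only [Nat.card_Icc, add_tsub_cancel_right, nsmul_eq_mul]
  exact le_of_eq (by ring)

lemma P13b_SK_le (K h : ℕ) : |∑ r ∈ Icc 1 K, mr r ^ 2 * cR r h| ≤ K := by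
  refine (abs_sum_le_sum_abs _ _).trans ?_
  have h1 : ∀ r ∈ Icc 1 K, |mr r ^ 2 * cR r h| ≤ 1 := by
    intro r hr
    rw [mem_Icc] at hr
    rw [abs_mul, abs_pow]
    have h2 := P13b_mr_le r hr.1
    have h3 := P13b_cR_le r h
    have h4 : (1:ℝ) ≤ Nat.totient r := by exact_mod_cast Nat.totient_pos.mpr hr.1
    have h5 : |mr r| ≤ 1 := by
      have := mul_le_mul_of_nonneg_left h4 (abs_nonneg (mr r))
      linarith
    calc |mr r| ^ 2 * |cR r h| ≤ |mr r| ^ 2 * Nat.totient r :=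
          mul_le_mul_of_nonneg_left h3 (by positivity)
      _ = |mr r| * (|mr r| * Nat.totient r) := by ring
      _ ≤ 1 * 1 := mul_le_mul h5 h2 (by positivity) zero_le_one
      _ = 1 := by ring
  refine (sum_le_card_nsmul _ _ _ h1).trans ?_
  simp

/-! ### the window -/

lemma P13b_gau_pos (N K : ℕ) (m : ℤ) : 0 < gau N K m := Real.exp_pos _

lemma P13b_gsum_pos (N K : ℕ) : 0 < ∑ j ∈ Iw N K, gau N K j := by
  refine sum_pos (fun j _ => P13b_gau_pos N K j) ⟨0, ?_⟩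
  unfold Iw
  rw [mem_Icc]
  constructor <;> simp

lemma P13b_vw_nonneg (N K : ℕ) (m : ℤ) : 0 ≤ vw N K m := by
  unfold vw
  split_ifs
  · exact div_nonneg (P13b_gau_pos N K m).le (P13b_gsum_pos N K).le
  · exact le_rfl

lemma P13b_vw_sum (N K : ℕ) : ∑ m ∈ Iw N K, vw N K m = 1 := by
  have h1 : ∀ m ∈ Iw N K, vw N K m = gau N K m / ∑ j ∈ Iw N K, gau N K j := by
    intro m hm
    unfold vw
    rw [if_pos hm]
  rw [sum_congr rfl h1, ← sum_div, div_self (P13b_gsum_pos N K).ne']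

lemma P13b_vw_zero {N K : ℕ} {m : ℤ} (h : m ∉ Iw N K) : vw N K m = 0 := by
  unfold vw
  rw [if_neg h]

/-- indicator of `[1, N]` -/
noncomputable def P13b_ind (N : ℕ) (x : ℤ) : ℝ := if 1 ≤ x ∧ x ≤ N then 1 else 0

lemma P13b_w (N K : ℕ) (n : ℤ) : ∑ m ∈ Icc 1 N, v2 N K ((m : ℤ) - n)
    = ∑ p ∈ Iw N K ×ˢ Iw N K, vw N K p.1 * vw N K p.2 * P13b_ind N (n + (p.1 + p.2)) := by
  rw [sum_product]
  simp only [v2]
  rw [sum_comm]
  refine sum_congr rfl fun j _ => ?_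
  simp only [mul_assoc]
  rw [← mul_sum, ← mul_sum]
  congr 1
  -- ∑ m ∈ Icc 1 N, vw (m - n - j) = ∑ k ∈ Iw, vw k * ind (n + (j + k))
  have h1 : ∑ k ∈ Iw N K, vw N K k * P13b_ind N (n + (j + k))
      = ∑ k ∈ Iw N K ∩ Icc (1 - n - j) ((N:ℤ) - n - j), vw N K k := by
    rw [← Finset.filter_mem_eq_inter, sum_filter]
    refine sum_congr rfl fun k _ => ?_
    unfold P13b_ind
    by_cases hk : k ∈ Icc (1 - n - j) ((N:ℤ) - n - j)
    · rw [if_pos hk]
      rw [mem_Icc] at hk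
      rw [if_pos ⟨by omega, by omega⟩, mul_one]
    · rw [if_neg hk]
      rw [mem_Icc] at hk
      rw [if_neg (fun h => hk ⟨by omega, by omega⟩), mul_zero]
  have h2 : ∑ k ∈ Iw N K ∩ Icc (1 - n - j) ((N:ℤ) - n - j), vw N K k
      = ∑ k ∈ Icc (1 - n - j) ((N:ℤ) - n - j), vw N K k := by
    refine sum_subset inter_subset_right fun k hk1 hk2 => ?_
    refine P13b_vw_zero fun h => hk2 (mem_inter.mpr ⟨h, hk1⟩)
  rw [h1, h2]
  refine Finset.sum_nbij' (fun m => (m:ℤ) - n - j) (fun k => (k + n + j).toNat) ?_ ?_ ?_ ?_ ?_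
  · intro m hm
    rw [mem_Icc] at hm ⊢
    omega
  · intro k hk
    rw [mem_Icc] at hk ⊢
    omega
  · intro m hm
    omega
  · intro k hk
    rw [mem_Icc] at hk
    omega
  · intro m hm
    rfl

lemma P13b_V_sum (N K : ℕ) : ∑ p ∈ Iw N K ×ˢ Iw N K, vw N K p.1 * vw N K p.2 = 1 := by
  rw [sum_product]
  simp only [← mul_sum, P13b_vw_sum, mul_one]

lemma P13b_cg (N K h : ℕ) : cg N K (h:ℤ)
    = ∑ p ∈ Iw N K ×ˢ Iw N K, ∑ p' ∈ Iw N K ×ˢ Iw N K,
      (vw N K p.1 * vw N K p.2) * (vw N K p'.1 * vw N K p'.2) *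
      ∑ n ∈ Icc (max (1 - (p.1 + p.2)) (1 - (p'.1 + p'.2) - h)) (min ((N:ℤ) - (p.1 + p.2)) (N - (p'.1 + p'.2) - h)),
        (∑ r ∈ Icc 1 K, mr r * cZ r n) * (∑ r ∈ Icc 1 K, mr r * cZ r (n + h)) := by
  unfold cg
  simp only [gn, P13b_w]
  -- expand
  have h1 : ∀ p ∈ Iw N K ×ˢ Iw N K, ∀ p' ∈ Iw N K ×ˢ Iw N K,
      ∑ n ∈ Icc (max (1 - (p.1 + p.2)) (1 - (p'.1 + p'.2) - h)) (min ((N:ℤ) - (p.1 + p.2)) (N - (p'.1 + p'.2) - h)),
        (∑ r ∈ Icc 1 K, mr r * cZ r n) * (∑ r ∈ Icc 1 K, mr r * cZ r (n + h))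
      = ∑ n ∈ Icc (1 - 2 * (Mw N K : ℤ)) ((N : ℤ) + 2 * Mw N K),
        P13b_ind N (n + (p.1 + p.2)) * P13b_ind N (n + h + (p'.1 + p'.2)) *
        ((∑ r ∈ Icc 1 K, mr r * cZ r n) * (∑ r ∈ Icc 1 K, mr r * cZ r (n + h))) := by
    intro p hp p' hp'
    simp only [mem_product, Iw, mem_Icc] at hp hp'
    have hsub : Icc (max (1 - (p.1 + p.2)) (1 - (p'.1 + p'.2) - h)) (min ((N:ℤ) - (p.1 + p.2)) (N - (p'.1 + p'.2) - h))
        ⊆ Icc (1 - 2 * (Mw N K : ℤ)) ((N : ℤ) + 2 * Mw N K) := by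
      intro n hn
      rw [mem_Icc] at hn ⊢
      omega
    rw [← sum_subset hsub]
    · refine sum_congr rfl fun n hn => ?_
      rw [mem_Icc] at hn
      unfold P13b_ind
      rw [if_pos ⟨by omega, by omega⟩, if_pos ⟨by omega, by omega⟩]
      ring
    · intro n _ hn
      rw [mem_Icc] at hn
      unfold P13b_ind
      by_cases h1 : 1 ≤ n + (p.1 + p.2) ∧ n + (p.1 + p.2) ≤ N
      · rw [if_neg (fun h2 : 1 ≤ n + h + (p'.1 + p'.2) ∧ n + h + (p'.1 + p'.2) ≤ N => hn ⟨by omega, by omega⟩)]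
        ring
      · rw [if_neg h1]
        ring
  rw [sum_congr rfl fun p hp => sum_congr rfl fun p' hp' => by rw [h1 p hp p' hp']]
  simp only [mul_sum (s := Icc (1 - 2 * (Mw N K : ℤ)) ((N : ℤ) + 2 * Mw N K))]
  rw [sum_congr rfl fun c _ => sum_comm]
  rw [sum_comm]
  refine sum_congr rfl fun n _ => ?_
  have h2 : ∀ a b c d : ℝ, a * b * (c * d) = (a * c) * (b * d) := fun a b c d => by ring
  rw [h2, sum_mul_sum, sum_mul]
  refine sum_congr rfl fun p _ => ?_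
  rw [sum_mul]
  refine sum_congr rfl fun p' _ => ?_
  ring

theorem W13b_pr : W13b := by
  refine ⟨4, by norm_num, 1, fun K hK N _ h _ _ => ?_⟩
  have hK1 : (1:ℝ) ≤ K := by exact_mod_cast hK
  set S : ℝ := ∑ r ∈ Icc 1 K, mr r ^ 2 * cR r h with hS
  rw [P13b_cg]
  have h0 : S * max 0 ((N : ℝ) - h) = ∑ p ∈ Iw N K ×ˢ Iw N K, ∑ p' ∈ Iw N K ×ˢ Iw N K,
      (vw N K p.1 * vw N K p.2) * (vw N K p'.1 * vw N K p'.2) * (S * max 0 ((N : ℝ) - h)) := by
    simp only [← sum_mul, ← mul_sum, P13b_V_sum, mul_one, one_mul]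
  rw [h0]
  simp only [← sum_sub_distrib, ← mul_sub]
  have hfin : ∀ p ∈ Iw N K ×ˢ Iw N K, ∀ p' ∈ Iw N K ×ˢ Iw N K,
      |(∑ n ∈ Icc (max (1 - (p.1 + p.2)) (1 - (p'.1 + p'.2) - h)) (min ((N:ℤ) - (p.1 + p.2)) (N - (p'.1 + p'.2) - h)),
        (∑ r ∈ Icc 1 K, mr r * cZ r n) * (∑ r ∈ Icc 1 K, mr r * cZ r (n + h))) - S * max 0 ((N : ℝ) - h)|
      ≤ (K:ℝ) ^ 4 + 4 * (K * Mw N K) := by
    intro p hp p' hp'
    simp only [mem_product, Iw, mem_Icc] at hp hp'
    set A := max (1 - (p.1 + p.2)) (1 - (p'.1 + p'.2) - (h:ℤ)) with hA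
    set B := min ((N:ℤ) - (p.1 + p.2)) (N - (p'.1 + p'.2) - h) with hB
    have h1 := P13b_int K A B h
    rw [← hS] at h1
    have h2 : |((Icc A B).card : ℝ) - max 0 ((N : ℝ) - h)| ≤ 4 * Mw N K := by
      rw [Int.card_Icc]
      have h3 : |(((B + 1 - A).toNat : ℤ)) - max 0 ((N : ℤ) - h)| ≤ 4 * (Mw N K : ℤ) := by
        rw [abs_le]
        omega
      have h4 : (((B + 1 - A).toNat : ℝ)) - max 0 ((N : ℝ) - h)
          = ((((B + 1 - A).toNat : ℤ) - max 0 ((N : ℤ) - h) : ℤ) : ℝ) := by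
        push_cast
        rfl
      rw [h4, ← Int.cast_abs]
      exact_mod_cast h3
    have h5 : |S| ≤ K := P13b_SK_le K h
    have h6 : (∑ n ∈ Icc A B, (∑ r ∈ Icc 1 K, mr r * cZ r n) * (∑ r ∈ Icc 1 K, mr r * cZ r (n + h)))
        - S * max 0 ((N : ℝ) - h)
        = ((∑ n ∈ Icc A B, (∑ r ∈ Icc 1 K, mr r * cZ r n) * (∑ r ∈ Icc 1 K, mr r * cZ r (n + h)))
          - S * ((Icc A B).card : ℝ)) + S * (((Icc A B).card : ℝ) - max 0 ((N : ℝ) - h)) := by ring
    rw [h6]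
    refine (abs_add_le _ _).trans ?_
    rw [abs_mul]
    have h7 : |S| * |((Icc A B).card : ℝ) - max 0 ((N : ℝ) - h)| ≤ K * (4 * Mw N K) :=
      mul_le_mul h5 h2 (abs_nonneg _) (by positivity)
    linarith
  refine (abs_sum_le_sum_abs _ _).trans ?_
  have hV : ∀ p : ℤ × ℤ, 0 ≤ vw N K p.1 * vw N K p.2 := fun p =>
    mul_nonneg (P13b_vw_nonneg N K _) (P13b_vw_nonneg N K _)
  have h1 : ∀ p ∈ Iw N K ×ˢ Iw N K, |∑ p' ∈ Iw N K ×ˢ Iw N K,
      (vw N K p.1 * vw N K p.2) * (vw N K p'.1 * vw N K p'.2) *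
      ((∑ n ∈ Icc (max (1 - (p.1 + p.2)) (1 - (p'.1 + p'.2) - h)) (min ((N:ℤ) - (p.1 + p.2)) (N - (p'.1 + p'.2) - h)),
        (∑ r ∈ Icc 1 K, mr r * cZ r n) * (∑ r ∈ Icc 1 K, mr r * cZ r (n + h))) - S * max 0 ((N : ℝ) - h))|
      ≤ ∑ p' ∈ Iw N K ×ˢ Iw N K, (vw N K p.1 * vw N K p.2) * (vw N K p'.1 * vw N K p'.2) *
        ((K:ℝ) ^ 4 + 4 * (K * Mw N K)) := by
    intro p hp
    refine (abs_sum_le_sum_abs _ _).trans (sum_le_sum fun p' hp' => ?_)
    rw [abs_mul, abs_of_nonneg (mul_nonneg (hV p) (hV p'))]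
    exact mul_le_mul_of_nonneg_left (hfin p hp p' hp') (mul_nonneg (hV p) (hV p'))
  refine (sum_le_sum h1).trans ?_
  simp only [← sum_mul, ← mul_sum, P13b_V_sum, mul_one, one_mul]
  have h2 : (K:ℝ) ^ 4 ≤ K ^ 5 := pow_le_pow_right₀ hK1 (by norm_num)
  have h3 : (0:ℝ) ≤ (K:ℝ) ^ 5 := by positivity
  linarith

end Pool.Agent.FGP
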