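import Pool.Agent.Lib_helper3.FGP.Wanted

/-!
# FGP block P14a: the singular series as a product (helper53)
-/

set_option autoImplicit false

namespace Pool.Agent.FGP

open Finset Pool.Agent.Var35 Pool.Agent.Var73 Pool.Agent.PV
open scoped ArithmeticFunction ArithmeticFunction.Moebius

/-! ### Euler's function at squarefree numbers -/

theorem p14a_tot {r : ℕ} (hr : Squarefree r) :
    (r : ℝ) ^ 3 ≤ 16 * (Nat.totient r : ℝ) ^ 4 := by
  classical
  let w : ℕ → ℝ := fun p => if p = 2 then 8 else if p = 3 then 2 else 1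
  have hw1 : ∀ p, 1 ≤ w p := by
    intro p
    simp only [w]
    split_ifs <;> norm_num
  have hr0 : ∏ p ∈ r.primeFactors, p = r := Nat.prod_primeFactors_of_squarefree hr
  have htot : (Nat.totient r : ℝ) = ∏ p ∈ r.primeFactors, ((p : ℝ) - 1) := by
    rw [Nat.totient_eq_div_primeFactors_mul, hr0]
    have h1 : r / r = 1 := Nat.div_self (Nat.pos_of_ne_zero hr.ne_zero)
    rw [h1, one_mul]
    push_cast
    refine Finset.prod_congr rfl fun p hp => ?_
    have := (Nat.prime_of_mem_primeFactors hp).one_lt.le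
    push_cast [this]
    rfl
  have hrr : (r : ℝ) = ∏ p ∈ r.primeFactors, (p : ℝ) := by
    conv_lhs => rw [← hr0]
    push_cast
    rfl
  have h1 : (r : ℝ) ^ 3 ≤ (∏ p ∈ r.primeFactors, w p) * (Nat.totient r : ℝ) ^ 4 := by
    rw [htot, hrr, ← Finset.prod_pow, ← Finset.prod_pow, ← Finset.prod_mul_distrib]
    apply Finset.prod_le_prod
    · intro p _
      positivity
    · intro p hp
      have hpp := Nat.prime_of_mem_primeFactors hp
      simp only [w]
      by_cases h2 : p = 2
      · subst h2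
        norm_num
      · by_cases h3 : p = 3
        · subst h3
          norm_num
        · rw [if_neg h2, if_neg h3, one_mul]
          have h5 : 5 ≤ p := by
            have h6 := hpp.two_le
            have h4 : p ≠ 4 := by
              rintro rfl
              exact absurd hpp (by norm_num)
            omega
          have h5r : (5 : ℝ) ≤ p := by exact_mod_cast h5
          have h7 : (p : ℝ) ^ 3 ≤ 2 * ((p : ℝ) - 1) ^ 3 := by
            have h8 : 0 ≤ (p : ℝ) - 5 := by linarith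
            nlinarith [mul_nonneg h8 h8, mul_nonneg (mul_nonneg h8 h8) h8]
          have h9 : 2 ≤ (p : ℝ) - 1 := by linarith
          have h10 : 0 ≤ ((p : ℝ) - 1) ^ 3 := by positivity
          nlinarith
  have h2 : ∏ p ∈ r.primeFactors, w p ≤ 16 := by
    calc ∏ p ∈ r.primeFactors, w p ≤ ∏ p ∈ r.primeFactors ∪ {2, 3}, w p := by
          rw [← Finset.prod_sdiff (Finset.subset_union_left (s₁ := r.primeFactors)
            (s₂ := ({2, 3} : Finset ℕ)))]
          have h3 : 1 ≤ ∏ p ∈ (r.primeFactors ∪ {2, 3}) \ r.primeFactors, w p :=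
            Finset.prod_induction w (fun x => 1 ≤ x)
              (fun a b ha hb => one_le_mul_of_one_le_of_one_le ha hb) le_rfl (fun x _ => hw1 x)
          have h4 : 0 ≤ ∏ p ∈ r.primeFactors, w p :=
            Finset.prod_nonneg fun p _ => le_trans zero_le_one (hw1 p)
          nlinarith
      _ = ∏ p ∈ ({2, 3} : Finset ℕ), w p := by
          refine (Finset.prod_subset Finset.subset_union_right ?_).symm
          intro p _ hp
          simp only [mem_insert, mem_singleton, not_or] at hp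
          simp only [w]
          rw [if_neg hp.1, if_neg hp.2]
      _ = 16 := by
          rw [Finset.prod_pair (by norm_num)]
          simp only [w]
          norm_num
  calc (r : ℝ) ^ 3 ≤ (∏ p ∈ r.primeFactors, w p) * (Nat.totient r : ℝ) ^ 4 := h1
    _ ≤ 16 * (Nat.totient r : ℝ) ^ 4 := by gcongr

theorem p14a_mr_sq_le (r : ℕ) : mr r ^ 2 ≤ 4 * (1 / (r : ℝ) ^ (3 / 2 : ℝ)) := by
  by_cases hr : Squarefree r
  · have hr0 : 0 < r := Nat.pos_of_ne_zero hr.ne_zero
    have hrr : (0 : ℝ) < r := by exact_mod_cast hr0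
    have hφ : (0 : ℝ) < Nat.totient r := by exact_mod_cast Nat.totient_pos.2 hr0
    have h1 : mr r ^ 2 = 1 / (Nat.totient r : ℝ) ^ 2 := by
      unfold mr
      rw [div_pow]
      congr 1
      have : ((μ r : ℤ) : ℝ) ^ 2 = ((μ r ^ 2 : ℤ) : ℝ) := by push_cast; rfl
      rw [this, ArithmeticFunction.moebius_sq_eq_one_of_squarefree hr]
      norm_num
    have h2 : ((r : ℝ) ^ (3 / 2 : ℝ)) ^ 2 = (r : ℝ) ^ 3 := by
      rw [← Real.rpow_natCast, ← Real.rpow_mul hrr.le]
      norm_num
    have h3 : (r : ℝ) ^ (3 / 2 : ℝ) ≤ 4 * (Nat.totient r : ℝ) ^ 2 := by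
      have h4 : ((r : ℝ) ^ (3 / 2 : ℝ)) ^ 2 ≤ (4 * (Nat.totient r : ℝ) ^ 2) ^ 2 := by
        rw [h2]
        calc (r : ℝ) ^ 3 ≤ 16 * (Nat.totient r : ℝ) ^ 4 := p14a_tot hr
          _ = (4 * (Nat.totient r : ℝ) ^ 2) ^ 2 := by ring
      exact le_of_sq_le_sq h4 (by positivity)
    have h5 : 0 < (r : ℝ) ^ (3 / 2 : ℝ) := Real.rpow_pos_of_pos hrr _
    rw [h1, mul_one_div, div_le_div_iff₀ (by positivity) h5, one_mul]
    exact h3
  · have : mr r = 0 := by
      unfold mr
      rw [ArithmeticFunction.moebius_eq_zero_of_not_squarefree hr]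
      simp
    rw [this, zero_pow two_ne_zero]
    positivity

/-! ### The Ramanujan sum -/

/-- `d` if `d ∣ k`, and `0` otherwise -/
noncomputable def p14a_F (k : ℕ) (hk : 1 ≤ k) : ArithmeticFunction ℝ :=
  ⟨fun d => if d ∣ k then (d : ℝ) else 0, by
    rw [if_neg]
    intro h
    have := Nat.eq_zero_of_zero_dvd h
    omega⟩

theorem p14a_F_apply (k : ℕ) (hk : 1 ≤ k) (d : ℕ) :
    p14a_F k hk d = if d ∣ k then (d : ℝ) else 0 := rfl

theorem p14a_F_mult (k : ℕ) (hk : 1 ≤ k) : (p14a_F k hk).IsMultiplicative := by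
  rw [ArithmeticFunction.IsMultiplicative.iff_ne_zero]
  refine ⟨by rw [p14a_F_apply]; simp, ?_⟩
  intro a b _ _ hab
  simp only [p14a_F_apply]
  by_cases ha : a ∣ k
  · by_cases hb : b ∣ k
    · rw [if_pos ha, if_pos hb, if_pos (hab.mul_dvd_of_dvd_of_dvd ha hb)]
      push_cast
      ring
    · rw [if_neg hb, mul_zero, if_neg]
      intro h
      exact hb ((dvd_mul_left b a).trans h)
  · rw [if_neg ha, zero_mul, if_neg]
    intro h
    exact ha ((dvd_mul_right a b).trans h)

/-- the Ramanujan sum as an arithmetic function -/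
noncomputable def p14a_C (k : ℕ) (hk : 1 ≤ k) : ArithmeticFunction ℝ :=
  ((ArithmeticFunction.moebius : ArithmeticFunction ℤ) : ArithmeticFunction ℝ) * p14a_F k hk

theorem p14a_C_mult (k : ℕ) (hk : 1 ≤ k) : (p14a_C k hk).IsMultiplicative :=
  ArithmeticFunction.isMultiplicative_moebius.intCast.mul (p14a_F_mult k hk)

theorem p14a_cR {k : ℕ} (hk : 1 ≤ k) {r : ℕ} (hr : 1 ≤ r) : cR r k = p14a_C k hk r := by
  have h1 : cR r k = (ram r (k : ℤ)).re := by
    unfold cR ram Cd
    rw [Complex.re_sum]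
    refine Finset.sum_congr rfl fun c _ => ?_
    unfold e
    rw [Complex.exp_ofReal_mul_I_re]
    congr 1
    push_cast
    ring
  rw [h1, ram_eq r hr, Complex.re_sum]
  unfold p14a_C
  rw [ArithmeticFunction.mul_apply,
    Nat.sum_divisorsAntidiagonal (fun a b =>
      ((ArithmeticFunction.moebius : ArithmeticFunction ℤ) : ArithmeticFunction ℝ) a *
        p14a_F k hk b)]
  refine Finset.sum_congr rfl fun d _ => ?_
  rw [p14a_F_apply, ArithmeticFunction.intCoe_apply]
  by_cases h : ((r / d : ℕ) : ℤ) ∣ (k : ℤ)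
  · have h' : r / d ∣ k := Int.natCast_dvd_natCast.1 h
    rw [if_pos h, if_pos h']
    rw [← Complex.ofReal_intCast, ← Complex.ofReal_natCast, ← Complex.ofReal_mul,
      Complex.ofReal_re]
  · have h' : ¬ r / d ∣ k := fun h2 => h (Int.natCast_dvd_natCast.2 h2)
    rw [if_neg h, if_neg h', mul_zero, mul_zero, Complex.zero_re]

theorem p14a_C_le {k : ℕ} (hk : 1 ≤ k) (r : ℕ) :
    |p14a_C k hk r| ≤ ∑ d ∈ k.divisors, (d : ℝ) := by
  unfold p14a_C
  rw [ArithmeticFunction.mul_apply,
    Nat.sum_divisorsAntidiagonal' (fun a b =>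
      ((ArithmeticFunction.moebius : ArithmeticFunction ℤ) : ArithmeticFunction ℝ) a *
        p14a_F k hk b)]
  refine (Finset.abs_sum_le_sum_abs _ _).trans ?_
  have h1 : ∀ d ∈ r.divisors, |((ArithmeticFunction.moebius : ArithmeticFunction ℤ) :
      ArithmeticFunction ℝ) (r / d) * p14a_F k hk d| ≤ if d ∣ k then (d : ℝ) else 0 := by
    intro d _
    rw [abs_mul, ArithmeticFunction.intCoe_apply, p14a_F_apply]
    have h2 : |((μ (r / d) : ℤ) : ℝ)| ≤ 1 := by
      have := ArithmeticFunction.abs_moebius_le_one (n := r / d)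
      exact_mod_cast this
    have h3 : |(if d ∣ k then (d : ℝ) else 0)| = if d ∣ k then (d : ℝ) else 0 := by
      split_ifs
      · exact abs_of_nonneg (by positivity)
      · exact abs_zero
    rw [h3]
    have h4 : 0 ≤ (if d ∣ k then (d : ℝ) else 0) := by split_ifs <;> positivity
    calc |((μ (r / d) : ℤ) : ℝ)| * (if d ∣ k then (d : ℝ) else 0)
        ≤ 1 * (if d ∣ k then (d : ℝ) else 0) := by gcongr
      _ = _ := one_mul _
  refine (Finset.sum_le_sum h1).trans ?_
  rw [← Finset.sum_filter]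
  apply Finset.sum_le_sum_of_subset_of_nonneg
  · intro d hd
    rw [mem_filter] at hd
    exact Nat.mem_divisors.2 ⟨hd.2, by omega⟩
  · intro d _ _
    positivity

/-! ### The terms of the singular series -/

/-- the terms -/
noncomputable def p14a_f (k : ℕ) (r : ℕ) : ℝ := mr r ^ 2 * cR r k

theorem p14a_f_zero (k : ℕ) : p14a_f k 0 = 0 := by
  simp [p14a_f, mr]

theorem p14a_f_eq {k : ℕ} (hk : 1 ≤ k) (r : ℕ) : p14a_f k r = mr r ^ 2 * p14a_C k hk r := by
  rcases Nat.eq_zero_or_pos r with h | h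
  · subst h
    simp [p14a_f, mr]
  · rw [p14a_f, p14a_cR hk h]

theorem p14a_f_one {k : ℕ} (hk : 1 ≤ k) : p14a_f k 1 = 1 := by
  rw [p14a_f_eq hk, (p14a_C_mult k hk).map_one]
  simp [mr]

theorem p14a_mr_mul {m n : ℕ} (h : Nat.Coprime m n) : mr (m * n) = mr m * mr n := by
  unfold mr
  rw [ArithmeticFunction.isMultiplicative_moebius.map_mul_of_coprime h, Nat.totient_mul h]
  push_cast
  rw [mul_div_mul_comm]

theorem p14a_f_mul {k : ℕ} (hk : 1 ≤ k) {m n : ℕ} (h : Nat.Coprime m n) :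
    p14a_f k (m * n) = p14a_f k m * p14a_f k n := by
  rw [p14a_f_eq hk, p14a_f_eq hk, p14a_f_eq hk, p14a_mr_mul h,
    (p14a_C_mult k hk).map_mul_of_coprime h]
  ring

theorem p14a_summable {k : ℕ} (hk : 1 ≤ k) : Summable (fun r => ‖p14a_f k r‖) := by
  have h1 : Summable (fun r : ℕ => (4 * ∑ d ∈ k.divisors, (d : ℝ)) *
      (1 / (r : ℝ) ^ (3 / 2 : ℝ))) :=
    (Real.summable_one_div_nat_rpow.2 (by norm_num)).mul_left _
  refine Summable.of_nonneg_of_le (fun r => norm_nonneg _) (fun r => ?_) h1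
  rw [p14a_f_eq hk, norm_mul, Real.norm_eq_abs, Real.norm_eq_abs, abs_of_nonneg (sq_nonneg _)]
  calc mr r ^ 2 * |p14a_C k hk r|
      ≤ (4 * (1 / (r : ℝ) ^ (3 / 2 : ℝ))) * ∑ d ∈ k.divisors, (d : ℝ) := by
        gcongr
        · exact p14a_mr_sq_le r
        · exact p14a_C_le hk r
    _ = _ := by ring

theorem p14a_f_prime {k : ℕ} (hk : 1 ≤ k) {p : ℕ} (hp : p.Prime) :
    p14a_f k p = ((if p ∣ k then (p : ℝ) else 0) - 1) / ((p : ℝ) - 1) ^ 2 := by
  have h1 : mr p ^ 2 = 1 / ((p : ℝ) - 1) ^ 2 := by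
    unfold mr
    rw [ArithmeticFunction.moebius_apply_prime hp, Nat.totient_prime hp, div_pow,
      Nat.cast_sub hp.one_lt.le]
    norm_num
  have h2 : p14a_C k hk p = (if p ∣ k then (p : ℝ) else 0) - 1 := by
    unfold p14a_C
    rw [ArithmeticFunction.mul_apply,
      Nat.sum_divisorsAntidiagonal (fun a b =>
        ((ArithmeticFunction.moebius : ArithmeticFunction ℤ) : ArithmeticFunction ℝ) a *
          p14a_F k hk b), hp.divisors, Finset.sum_pair hp.one_lt.ne]
    rw [ArithmeticFunction.intCoe_apply, ArithmeticFunction.intCoe_apply, p14a_F_apply,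
      p14a_F_apply, ArithmeticFunction.moebius_apply_one,
      ArithmeticFunction.moebius_apply_prime hp, Nat.div_one, Nat.div_self hp.pos,
      if_pos (one_dvd k)]
    push_cast
    ring
  rw [p14a_f_eq hk, h1, h2]
  ring

theorem p14a_tsum_pow {k : ℕ} (hk : 1 ≤ k) {p : ℕ} (hp : p.Prime) :
    ∑' e : ℕ, p14a_f k (p ^ e) = 1 + p14a_f k p := by
  rw [tsum_eq_sum (s := {0, 1})]
  · rw [Finset.sum_pair (by norm_num), pow_zero, pow_one, p14a_f_one hk]
  · intro e he
    simp only [mem_insert, mem_singleton, not_or] at he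
    unfold p14a_f mr
    rw [ArithmeticFunction.moebius_apply_prime_pow hp he.1, if_neg he.2]
    simp

/-! ### The constant -/

/-- the factors of the constant -/
noncomputable def p14a_c (p : Nat.Primes) : ℝ :=
  if (p : ℕ) = 2 then 1 else (1 - 1 / (((p : ℕ) : ℝ) - 1) ^ 2)

theorem p14a_const : ∃ C2 : ℝ, 0 < C2 ∧ HasProd p14a_c C2 := by
  let g : Nat.Primes → ℝ := fun p => if (p : ℕ) = 2 then 0 else -(1 / (((p : ℕ) : ℝ) - 1) ^ 2)
  have hg : Summable g := by
    have h1 : Summable (fun p : Nat.Primes => 4 * (1 / (((p : ℕ) : ℝ)) ^ 2)) := by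
      have h2 : Summable (fun n : ℕ => 4 * (1 / (n : ℝ) ^ 2)) :=
        (Real.summable_one_div_nat_pow.2 (by norm_num)).mul_left _
      exact h2.comp_injective Subtype.val_injective
    refine Summable.of_norm_bounded h1 fun p => ?_
    simp only [g]
    have hp := p.2.two_le
    have hp2 : (2 : ℝ) ≤ ((p : ℕ) : ℝ) := by exact_mod_cast hp
    split_ifs
    · rw [norm_zero]
      positivity
    · rw [norm_neg, Real.norm_eq_abs, abs_of_nonneg (by positivity), mul_one_div,
        div_le_div_iff₀ (by nlinarith) (by positivity)]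
      nlinarith
  have hc : ∀ p, p14a_c p = 1 + g p := by
    intro p
    simp only [p14a_c, g]
    split_ifs <;> ring
  have hpos : ∀ p, 0 < p14a_c p := by
    intro p
    simp only [p14a_c]
    split_ifs with h
    · norm_num
    · have hp := p.2.two_le
      have h3 : 3 ≤ (p : ℕ) := by omega
      have h3r : (3 : ℝ) ≤ ((p : ℕ) : ℝ) := by exact_mod_cast h3
      have h4 : 1 / (((p : ℕ) : ℝ) - 1) ^ 2 ≤ 1 / 4 := by
        apply one_div_le_one_div_of_le (by norm_num)
        nlinarith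
      linarith
  have hlog : Summable (fun p => Real.log (p14a_c p)) := by
    have := Real.summable_log_one_add_of_summable hg
    refine this.congr fun p => ?_
    rw [hc]
  exact ⟨Real.exp (∑' p, Real.log (p14a_c p)), Real.exp_pos _,
    Real.hasProd_of_hasSum_log hpos hlog.hasSum⟩

/-- the finite part -/
theorem p14a_fin {k : ℕ} (hk : 1 ≤ k) :
    HasProd (fun p : Nat.Primes => if (p : ℕ) = 2 then (2 : ℝ) else
      if (p : ℕ) ∣ k then ((((p : ℕ) : ℝ) - 1) / (((p : ℕ) : ℝ) - 2)) else 1)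
      (2 * ∏ p ∈ k.primeFactors.erase 2, (((p : ℝ) - 1) / ((p : ℝ) - 2))) := by
  classical
  let h : ℕ → ℝ := fun p => if p = 2 then (2 : ℝ) else
    if p ∣ k then (((p : ℝ) - 1) / ((p : ℝ) - 2)) else 1
  let S : Finset ℕ := insert 2 (k.primeFactors.erase 2)
  have hS : ∀ p ∈ S, p.Prime := by
    intro p hp
    rw [mem_insert] at hp
    rcases hp with h1 | h1
    · rw [h1]; exact Nat.prime_two
    · exact Nat.prime_of_mem_primeFactors (mem_of_mem_erase h1)
  have h1 : HasProd (fun p : Nat.Primes => h (p : ℕ)) (∏ p ∈ S.subtype Nat.Prime, h (p : ℕ)) := by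
    apply hasProd_prod_of_ne_finset_one
    intro p hp0
    have hp : (p : ℕ) ∉ S := fun h' => hp0 (Finset.mem_subtype.2 h')
    simp only [S, mem_insert, mem_erase, not_or, not_and] at hp
    simp only [h]
    rw [if_neg hp.1, if_neg]
    intro hd
    exact hp.2 hp.1 (Nat.mem_primeFactors.2 ⟨p.2, hd, by omega⟩)
  have h2 : ∏ p ∈ S.subtype Nat.Prime, h (p : ℕ) = ∏ p ∈ S, h p :=
    Finset.prod_subtype_of_mem h hS
  rw [h2] at h1
  have h3 : ∏ p ∈ S, h p =
      2 * ∏ p ∈ k.primeFactors.erase 2, (((p : ℝ) - 1) / ((p : ℝ) - 2)) := by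
    simp only [S]
    rw [Finset.prod_insert (by simp)]
    congr 1
    refine Finset.prod_congr rfl fun p hp => ?_
    rw [mem_erase] at hp
    simp only [h]
    rw [if_neg hp.1, if_pos (Nat.dvd_of_mem_primeFactors hp.2)]
  rw [h3] at h1
  exact h1

theorem W14a_pr : W14a := by
  classical
  refine ⟨fun k hk => (p14a_summable hk).of_norm, ?_⟩
  obtain ⟨C2, hC2, hprod⟩ := p14a_const
  refine ⟨C2, hC2, hprod, fun k hk => ?_⟩
  have hE : HasProd (fun p : Nat.Primes => ∑' e : ℕ, p14a_f k ((p : ℕ) ^ e)) (SG k) :=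
    EulerProduct.eulerProduct_hasProd (p14a_f_one hk) (fun h => p14a_f_mul hk h)
      (p14a_summable hk) (p14a_f_zero k)
  have hE2 : (fun p : Nat.Primes => ∑' e : ℕ, p14a_f k ((p : ℕ) ^ e)) =
      fun p : Nat.Primes => 1 + ((if (p : ℕ) ∣ k then ((p : ℕ) : ℝ) else 0) - 1) /
        (((p : ℕ) : ℝ) - 1) ^ 2 := by
    funext p
    rw [p14a_tsum_pow hk p.2, p14a_f_prime hk p.2]
  rw [hE2] at hE
  by_cases h2 : 2 ∣ k
  · rw [if_pos h2]
    have h3 := hprod.mul (p14a_fin hk)
    have h4 : (fun p : Nat.Primes => p14a_c p * (if (p : ℕ) = 2 then (2 : ℝ) else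
        if (p : ℕ) ∣ k then ((((p : ℕ) : ℝ) - 1) / (((p : ℕ) : ℝ) - 2)) else 1)) =
        fun p : Nat.Primes => 1 + ((if (p : ℕ) ∣ k then ((p : ℕ) : ℝ) else 0) - 1) /
        (((p : ℕ) : ℝ) - 1) ^ 2 := by
      funext p
      unfold p14a_c
      by_cases hp2 : (p : ℕ) = 2
      · rw [if_pos hp2, if_pos hp2, hp2, if_pos h2]
        norm_num
      · have hp3 : 3 ≤ (p : ℕ) := by
          have := p.2.two_le
          omega
        have hp3r : (3 : ℝ) ≤ ((p : ℕ) : ℝ) := by exact_mod_cast hp3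
        have e1 : ((p : ℕ) : ℝ) - 1 ≠ 0 := by
          intro h; linarith
        have e2 : ((p : ℕ) : ℝ) - 2 ≠ 0 := by
          intro h; linarith
        rw [if_neg hp2, if_neg hp2]
        by_cases hpk : (p : ℕ) ∣ k
        · rw [if_pos hpk, if_pos hpk]
          field_simp
          ring
        · rw [if_neg hpk, if_neg hpk]
          field_simp
          ring
    rw [h4] at h3
    rw [hE.unique h3]
    ring
  · rw [if_neg h2]
    refine hE.unique (hasProd_zero_of_exists_eq_zero ⟨⟨2, Nat.prime_two⟩, ?_⟩)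
    change 1 + ((if 2 ∣ k then ((2 : ℕ) : ℝ) else 0) - 1) / (((2 : ℕ) : ℝ) - 1) ^ 2 = 0
    rw [if_neg h2]
    norm_num

end Pool.Agent.FGP
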