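import Pool.Agent.Lib_helper3.FGP.Wanted

/-!
# Project T3P, block P14b: the convolution identity for the singular series
-/

set_option autoImplicit false

namespace Pool.Agent.FGP

open Finset Pool.Agent.Var35 Pool.Agent.Var73 Pool.Agent.PV
open scoped ArithmeticFunction ArithmeticFunction.Moebius

/-- the local factor of `bb` -/
noncomputable def p14b_loc (p e : ℕ) : ℝ :=
  (if p = 2 then (if e = 1 then -1 else 0) else
    if e = 1 then 2 / ((p : ℝ) - 2) else
    if e = 2 then -(p : ℝ) / ((p : ℝ) - 2) else 0)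

theorem p14b_bb (d : ℕ) : bb d = ∏ p ∈ d.primeFactors, p14b_loc p (d.factorization p) := rfl

theorem p14b_mul {m n : ℕ} (h : m.Coprime n) : bb (m * n) = bb m * bb n := by
  rw [p14b_bb, p14b_bb, p14b_bb, h.primeFactors_mul, Finset.prod_union h.disjoint_primeFactors]
  congr 1
  · refine Finset.prod_congr rfl fun p hp => ?_
    rw [Nat.factorization_eq_of_coprime_left h (Nat.mem_primeFactors_iff_mem_primeFactorsList.mp hp)]
  · refine Finset.prod_congr rfl fun p hp => ?_
    rw [Nat.factorization_eq_of_coprime_right h (Nat.mem_primeFactors_iff_mem_primeFactorsList.mp hp)]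

theorem p14b_one : bb 1 = 1 := by simp [p14b_bb]

theorem p14b_pow {p : ℕ} (hp : p.Prime) {j : ℕ} (hj : j ≠ 0) : bb (p ^ j) = p14b_loc p j := by
  rw [p14b_bb, Nat.primeFactors_prime_pow hj hp, Finset.prod_singleton, hp.factorization_pow]
  simp

/-- `bb` as an arithmetic function -/
noncomputable def p14b_B : ArithmeticFunction ℝ := ⟨fun d => if d = 0 then 0 else bb d, by simp⟩

theorem p14b_B_apply {d : ℕ} (hd : d ≠ 0) : p14b_B d = bb d := by
  simp [p14b_B, hd]

theorem p14b_B_mult : p14b_B.IsMultiplicative := by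
  rw [ArithmeticFunction.IsMultiplicative.iff_ne_zero]
  refine ⟨by rw [p14b_B_apply one_ne_zero, p14b_one], fun {m n} hm hn h => ?_⟩
  rw [p14b_B_apply (mul_ne_zero hm hn), p14b_B_apply hm, p14b_B_apply hn, p14b_mul h]

/-- `1/d` -/
noncomputable def p14b_I : ArithmeticFunction ℝ := ⟨fun d => 1 / (d : ℝ), by simp⟩

theorem p14b_I_mult : p14b_I.IsMultiplicative := by
  rw [ArithmeticFunction.IsMultiplicative.iff_ne_zero]
  refine ⟨by simp [p14b_I], fun {m n} hm hn h => ?_⟩
  simp [p14b_I]
  ring

/-- `(1/d) ∑_{i ∣ d} bb i` -/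
noncomputable def p14b_H : ArithmeticFunction ℝ :=
  ArithmeticFunction.pmul p14b_I (p14b_B * (ArithmeticFunction.zeta : ArithmeticFunction ℝ))

theorem p14b_H_mult : p14b_H.IsMultiplicative :=
  p14b_I_mult.pmul (p14b_B_mult.mul ArithmeticFunction.isMultiplicative_zeta.natCast)

theorem p14b_H_apply (d : ℕ) : p14b_H d = (1 / (d : ℝ)) * ∑ i ∈ d.divisors, bb i := by
  rw [p14b_H, ArithmeticFunction.pmul_apply, ArithmeticFunction.coe_mul_zeta_apply]
  congr 1
  refine Finset.sum_congr rfl fun i hi => ?_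
  exact p14b_B_apply (Nat.pos_of_mem_divisors hi).ne'

/-- the left side -/
noncomputable def p14b_g (p : ℕ) : ℝ := if p = 2 then 1 else ((p : ℝ) - 1) / ((p : ℝ) - 2)

theorem p14b_S {p : ℕ} (hp : p.Prime) (j : ℕ) : ∑ i ∈ (p ^ j).divisors, bb i =
    if j = 0 then 1 else if p = 2 then 0 else if j = 1 then (p : ℝ) / ((p : ℝ) - 2) else 0 := by
  rw [Nat.sum_divisors_prime_pow hp]
  have hp2 : p ≠ 2 → (p : ℝ) - 2 ≠ 0 := by
    intro h h'
    have : (p : ℝ) = 2 := by linarith
    exact h (by exact_mod_cast this)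
  have key : ∀ m : ℕ, ∑ x ∈ range (m + 3), bb (p ^ x) = 1 + p14b_loc p 1 + p14b_loc p 2 := by
    intro m
    induction m with
    | zero =>
      rw [Finset.sum_range_succ, Finset.sum_range_succ, Finset.sum_range_succ,
        Finset.sum_range_zero, pow_zero, p14b_one, p14b_pow hp (by norm_num : (0 : ℕ) + 1 ≠ 0),
        p14b_pow hp (by norm_num : (0 : ℕ) + 1 + 1 ≠ 0)]
      ring
    | succ m ih =>
      rw [show m + 1 + 3 = (m + 3) + 1 from rfl, Finset.sum_range_succ, ih,
        p14b_pow hp (by omega : m + 3 ≠ 0)]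
      have : p14b_loc p (m + 3) = 0 := by
        unfold p14b_loc
        split_ifs <;> first | rfl | omega
      rw [this, add_zero]
  rcases j with _ | _ | j
  · simp [p14b_one]
  · rw [Finset.sum_range_succ, Finset.sum_range_succ, Finset.sum_range_zero, pow_zero, p14b_one,
      p14b_pow hp (by norm_num : (0 : ℕ) + 1 ≠ 0)]
    by_cases h2 : p = 2
    · simp [p14b_loc, h2]
    · have := hp2 h2
      simp [p14b_loc, h2]
      field_simp
      ring
  · rw [show j + 1 + 1 + 1 = j + 3 from rfl, key]
    by_cases h2 : p = 2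
    · simp [p14b_loc, h2]
    · have := hp2 h2
      simp [p14b_loc, h2]
      field_simp
      ring

theorem p14b_pp {p : ℕ} (hp : p.Prime) (a : ℕ) (ha : a ≠ 0) :
    ∑ d ∈ (p ^ a).divisors, p14b_H d = p14b_g p := by
  rw [Nat.sum_divisors_prime_pow hp]
  have hp2 : p ≠ 2 → (p : ℝ) - 2 ≠ 0 := by
    intro h h'
    have : (p : ℝ) = 2 := by linarith
    exact h (by exact_mod_cast this)
  have hp0 : (p : ℝ) ≠ 0 := by exact_mod_cast hp.ne_zero
  have hv : ∀ j, p14b_H (p ^ j) = if j = 0 then 1 else if p = 2 then 0 else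
      if j = 1 then 1 / ((p : ℝ) - 2) else 0 := by
    intro j
    rw [p14b_H_apply, p14b_S hp]
    by_cases hj : j = 0
    · simp [hj]
    · by_cases h2 : p = 2
      · simp [hj, h2]
      · by_cases h1 : j = 1
        · have := hp2 h2
          simp [h2, h1]
          field_simp
        · simp [hj, h2, h1]
  simp_rw [hv]
  obtain ⟨b, rfl⟩ := Nat.exists_eq_succ_of_ne_zero ha
  clear ha
  induction b with
  | zero =>
    rw [Finset.sum_range_succ, Finset.sum_range_succ, Finset.sum_range_zero]
    by_cases h2 : p = 2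
    · simp [p14b_g, h2]
    · have := hp2 h2
      simp [p14b_g, h2]
      field_simp
      ring
  | succ b ih =>
    rw [Finset.sum_range_succ, ih]
    simp

/-- block P14b -/
theorem W14b_pr : W14b := by
  intro k hk
  have hF : (ArithmeticFunction.prodPrimeFactors p14b_g : ArithmeticFunction ℝ).IsMultiplicative :=
    ArithmeticFunction.IsMultiplicative.prodPrimeFactors _
  have hG : (p14b_H * (ArithmeticFunction.zeta : ArithmeticFunction ℝ)).IsMultiplicative :=
    p14b_H_mult.mul ArithmeticFunction.isMultiplicative_zeta.natCast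
  have heq : (ArithmeticFunction.prodPrimeFactors p14b_g : ArithmeticFunction ℝ)
      = p14b_H * (ArithmeticFunction.zeta : ArithmeticFunction ℝ) := by
    rw [hF.eq_iff_eq_on_prime_powers _ _ hG]
    intro p a hp
    rcases Nat.eq_zero_or_pos a with ha | ha
    · subst ha
      rw [pow_zero, hF.map_one, hG.map_one]
    · rw [ArithmeticFunction.prodPrimeFactors_apply (pow_ne_zero _ hp.ne_zero),
        Nat.primeFactors_prime_pow ha.ne' hp, Finset.prod_singleton,
        ArithmeticFunction.coe_mul_zeta_apply, p14b_pp hp a ha.ne']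
  have h1 := congrArg (fun f : ArithmeticFunction ℝ => f k) heq
  simp only [ArithmeticFunction.coe_mul_zeta_apply,
    ArithmeticFunction.prodPrimeFactors_apply (by omega : k ≠ 0)] at h1
  have h2 : ∏ p ∈ k.primeFactors.erase 2, (((p : ℝ) - 1) / ((p : ℝ) - 2))
      = ∏ p ∈ k.primeFactors, p14b_g p := by
    have h3 : ∏ p ∈ k.primeFactors, p14b_g p = ∏ p ∈ k.primeFactors.erase 2, p14b_g p := by
      rw [Finset.prod_erase]
      simp [p14b_g]
    rw [h3]
    refine Finset.prod_congr rfl fun p hp => ?_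
    have : p ≠ 2 := Finset.ne_of_mem_erase hp
    simp [p14b_g, this]
  rw [h2, h1]
  exact Finset.sum_congr rfl fun d _ => p14b_H_apply d

end Pool.Agent.FGP
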