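import Pool.Agent.Lib_helper3.FGP.Wanted

/-! FGP, block P14t: truncation of the singular series -/

set_option autoImplicit false

namespace Pool.Agent.FGP

open Finset Pool.Agent.Var35 Pool.Agent.Var73 Pool.Agent.PV
open scoped ArithmeticFunction ArithmeticFunction.Moebius

theorem p14t_cR (r k : ℕ) : cR r k = (ram r (k : ℤ)).re := by
  unfold cR ram Cd
  rw [Complex.re_sum]
  refine sum_congr rfl fun c _ => ?_
  unfold e
  rw [Complex.exp_ofReal_mul_I_re]
  congr 1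
  push_cast
  ring

theorem p14t_mu (c c' : ℕ) (h : Squarefree (c * c')) : μ c' = μ (c * c') * μ c := by
  have hc : Nat.Coprime c c' := Nat.coprime_of_squarefree_mul h
  rw [ArithmeticFunction.isMultiplicative_moebius.map_mul_of_coprime hc]
  have h1 : μ c ^ 2 = 1 :=
    ArithmeticFunction.moebius_sq_eq_one_of_squarefree (h.squarefree_of_dvd (Dvd.intro c' rfl))
  calc μ c' = μ c ^ 2 * μ c' := by rw [h1, one_mul]
    _ = μ c * μ c' * μ c := by ring

theorem p14t_ram (r k : ℕ) (hr : Squarefree r) (hk : 1 ≤ k) : ‖ram r (k : ℤ)‖ ≤ k := by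
  have hr0 : r ≠ 0 := hr.ne_zero
  have hg0 : Nat.gcd r k ≠ 0 := Nat.gcd_ne_zero_left hr0
  have h1 : ram r (k : ℤ) =
      ((μ r : ℤ) : ℂ) * ∑ d ∈ (Nat.gcd r k).divisors, ((μ d : ℤ) : ℂ) * (d : ℂ) := by
    rw [ram_eq r (Nat.one_le_iff_ne_zero.2 hr0)]
    obtain ⟨F, hF⟩ : ∃ F : ℕ → ℂ, ∀ c : ℕ, F c = ((μ (r / c) : ℤ) : ℂ) *
          (if ((c : ℕ) : ℤ) ∣ (k : ℤ) then ((c : ℕ) : ℂ) else 0) := ⟨_, fun _ => rfl⟩
    have h2 : ∑ d ∈ r.divisors, ((μ d : ℤ) : ℂ) *
        (if ((r / d : ℕ) : ℤ) ∣ (k : ℤ) then ((r / d : ℕ) : ℂ) else 0) =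
        ∑ d ∈ r.divisors, F (r / d) := by
      refine sum_congr rfl fun d hd => ?_
      rw [hF, Nat.div_div_self (Nat.dvd_of_mem_divisors hd) hr0]
    rw [h2, Nat.sum_div_divisors r F, mul_sum]
    simp only [hF]
    have h3 : (Nat.gcd r k).divisors = r.divisors.filter (fun c => c ∣ k) := by
      ext c
      rw [mem_filter, Nat.mem_divisors, Nat.mem_divisors, Nat.dvd_gcd_iff]
      constructor
      · rintro ⟨⟨a, b⟩, -⟩
        exact ⟨⟨a, hr0⟩, b⟩
      · rintro ⟨⟨a, -⟩, b⟩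
        exact ⟨⟨a, b⟩, hg0⟩
    rw [h3, sum_filter]
    refine sum_congr rfl fun c hc => ?_
    obtain ⟨c', hc'⟩ := Nat.dvd_of_mem_divisors hc
    have hc0 : 0 < c := Nat.pos_of_mem_divisors hc
    have h4 : ((c : ℤ) ∣ (k : ℤ)) ↔ c ∣ k := Int.natCast_dvd_natCast
    by_cases h5 : c ∣ k
    · rw [if_pos (h4.2 h5), if_pos h5]
      have h6 : r / c = c' := by rw [hc', Nat.mul_div_cancel_left _ hc0]
      rw [h6, p14t_mu c c' (hc' ▸ hr), ← hc']
      push_cast
      ring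
    · rw [if_neg (fun h => h5 (h4.1 h)), if_neg h5, mul_zero]
  have h7 := (ArithmeticFunction.isMultiplicative_id.natCast
    (R := ℂ)).prodPrimeFactors_one_sub_of_squarefree
      (n := Nat.gcd r k) _ (hr.squarefree_of_dvd (Nat.gcd_dvd_left r k))
  have h8 : ∑ d ∈ (Nat.gcd r k).divisors, ((μ d : ℤ) : ℂ) * (d : ℂ) =
      ∏ p ∈ (Nat.gcd r k).primeFactors, (1 - (p : ℂ)) := by
    refine Eq.trans ?_ (h7.symm.trans ?_)
    · refine sum_congr rfl fun d _ => ?_
      simp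
    · refine prod_congr rfl fun p _ => ?_
      simp
  rw [h1, h8, norm_mul, norm_prod]
  have h9 : ‖((μ r : ℤ) : ℂ)‖ ≤ 1 := by
    rw [Complex.norm_intCast]
    exact_mod_cast ArithmeticFunction.abs_moebius_le_one (n := r)
  have h10 : ∏ p ∈ (Nat.gcd r k).primeFactors, ‖1 - (p : ℂ)‖ ≤ k := by
    calc ∏ p ∈ (Nat.gcd r k).primeFactors, ‖1 - (p : ℂ)‖
        ≤ ∏ p ∈ (Nat.gcd r k).primeFactors, (p : ℝ) := by
          refine prod_le_prod (fun _ _ => norm_nonneg _) fun p hp => ?_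
          have hp1 : 1 ≤ p := (Nat.prime_of_mem_primeFactors hp).one_lt.le
          have : (1 : ℂ) - (p : ℂ) = ((1 - (p : ℝ) : ℝ) : ℂ) := by push_cast; rfl
          rw [this, Complex.norm_real, Real.norm_eq_abs, abs_le]
          have hp2 : (1 : ℝ) ≤ p := by exact_mod_cast hp1
          constructor <;> linarith
      _ = ((∏ p ∈ (Nat.gcd r k).primeFactors, p : ℕ) : ℝ) := by push_cast; rfl
      _ ≤ ((Nat.gcd r k : ℕ) : ℝ) := by
          exact_mod_cast Nat.le_of_dvd (Nat.pos_of_ne_zero hg0) (Nat.prod_primeFactors_dvd _)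
      _ ≤ k := by exact_mod_cast Nat.le_of_dvd hk (Nat.gcd_dvd_right r k)
  calc ‖((μ r : ℤ) : ℂ)‖ * ∏ p ∈ (Nat.gcd r k).primeFactors, ‖1 - (p : ℂ)‖
      ≤ 1 * k := mul_le_mul h9 h10 (prod_nonneg fun _ _ => norm_nonneg _) zero_le_one
    _ = k := one_mul _

theorem p14t_phi (r : ℕ) (hr : 1 ≤ r) :
    (r : ℝ) * Real.sqrt r ≤ 81 * (Nat.totient r : ℝ) ^ 2 := by
  have hr1 : (1 : ℝ) ≤ r := by exact_mod_cast hr
  have hs1 : 1 ≤ Real.sqrt r := Real.one_le_sqrt.2 hr1
  set s := Real.sqrt r with hs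
  have hss : s * s = r := Real.mul_self_sqrt (by linarith)
  have ht1 : 1 ≤ Real.sqrt s := Real.one_le_sqrt.2 hs1
  set t := Real.sqrt s with ht
  have htt : t * t = s := Real.mul_self_sqrt (by linarith)
  have h1 := totient_ge r hr
  have h2 : Real.log r = 4 * Real.log t := by
    rw [← hss, ← htt, Real.log_mul (by positivity) (by positivity),
      Real.log_mul (by positivity) (by positivity)]
    ring
  have h3 : Real.log t ≤ t - 1 := Real.log_le_sub_one_of_pos (by linarith)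
  have hphi : (0 : ℝ) ≤ Nat.totient r := Nat.cast_nonneg _
  have h4 : (r : ℝ) ≤ 9 * t * Nat.totient r := by
    refine h1.trans (mul_le_mul_of_nonneg_right ?_ hphi)
    rw [h2]
    linarith
  have h5 : (r : ℝ) * r ≤ (9 * t * Nat.totient r) * (9 * t * Nat.totient r) :=
    mul_le_mul h4 h4 (by linarith) (by positivity)
  have h6 : (r : ℝ) * s * s ≤ 81 * (Nat.totient r : ℝ) ^ 2 * s := by
    calc (r : ℝ) * s * s = r * r := by rw [mul_assoc, hss]
      _ ≤ _ := h5
      _ = 81 * (Nat.totient r : ℝ) ^ 2 * (t * t) := by ring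
      _ = _ := by rw [htt]
  exact le_of_mul_le_mul_right h6 (by linarith)

theorem p14t_term (r k : ℕ) (hr : 1 ≤ r) (hk : 1 ≤ k) :
    |mr r ^ 2 * cR r k| ≤ 81 * k * (1 / (r * Real.sqrt r)) := by
  have hr1 : (1 : ℝ) ≤ r := by exact_mod_cast hr
  have hs1 : 1 ≤ Real.sqrt r := Real.one_le_sqrt.2 hr1
  by_cases hsq : Squarefree r
  · have h1 : |cR r k| ≤ k := by
      rw [p14t_cR]
      exact (Complex.abs_re_le_norm _).trans (p14t_ram r k hsq hk)
    have hphi : (0 : ℝ) < Nat.totient r := by exact_mod_cast Nat.totient_pos.2 hr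
    have h2 : mr r ^ 2 = 1 / (Nat.totient r : ℝ) ^ 2 := by
      unfold mr
      rw [div_pow]
      congr 1
      have := ArithmeticFunction.moebius_sq_eq_one_of_squarefree hsq
      exact_mod_cast this
    have h3 : mr r ^ 2 ≤ 81 * (1 / (r * Real.sqrt r)) := by
      rw [h2, mul_one_div, div_le_div_iff₀ (by positivity) (by positivity), one_mul]
      exact p14t_phi r hr
    rw [abs_mul, abs_of_nonneg (sq_nonneg _)]
    calc mr r ^ 2 * |cR r k| ≤ (81 * (1 / (r * Real.sqrt r))) * k :=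
          mul_le_mul h3 h1 (abs_nonneg _) (by positivity)
      _ = _ := by ring
  · have h1 : mr r = 0 := by
      unfold mr
      rw [ArithmeticFunction.moebius_eq_zero_of_not_squarefree hsq]
      simp
    rw [h1]
    simp only [ne_eq, OfNat.ofNat_ne_zero, not_false_eq_true, zero_pow, zero_mul, abs_zero]
    positivity

theorem p14t_tel (r : ℕ) (hr : 1 ≤ r) :
    1 / (((r + 1 : ℕ) : ℝ) * Real.sqrt ((r + 1 : ℕ) : ℝ)) ≤
      2 * (1 / Real.sqrt r - 1 / Real.sqrt ((r + 1 : ℕ) : ℝ)) := by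
  have hr1 : (1 : ℝ) ≤ r := by exact_mod_cast hr
  have ha : 0 < Real.sqrt r := Real.sqrt_pos.2 (by linarith)
  have hb : Real.sqrt r ≤ Real.sqrt ((r + 1 : ℕ) : ℝ) := Real.sqrt_le_sqrt (by push_cast; linarith)
  have haa : Real.sqrt r * Real.sqrt r = r := Real.mul_self_sqrt (by linarith)
  have hbb : Real.sqrt ((r + 1 : ℕ) : ℝ) * Real.sqrt ((r + 1 : ℕ) : ℝ) = ((r + 1 : ℕ) : ℝ) :=
    Real.mul_self_sqrt (by positivity)
  set a := Real.sqrt r
  set b := Real.sqrt ((r + 1 : ℕ) : ℝ)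
  have hb0 : 0 < b := by linarith
  have h1 : b * b - a * a = 1 := by
    rw [haa, hbb]
    push_cast
    ring
  rw [← hbb, div_sub_div _ _ ha.ne' hb0.ne', mul_div_assoc', div_le_div_iff₀ (by positivity)
    (by positivity)]
  have h2 : 1 = (b - a) * (b + a) := by linarith [h1]
  have h3 : 0 ≤ b - a := by linarith
  calc 1 * (a * b) = (b - a) * (b + a) * (a * b) := by rw [← h2]
    _ ≤ (b - a) * (2 * b) * (b * b) := by
        have h4 : (b - a) * (b + a) ≤ (b - a) * (2 * b) :=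
          mul_le_mul_of_nonneg_left (by linarith) h3
        have h5 : a * b ≤ b * b := mul_le_mul_of_nonneg_right hb hb0.le
        exact mul_le_mul h4 h5 (by positivity) (by positivity)
    _ = 2 * (1 * b - a * 1) * (b * b * b) := by ring

theorem p14t_part (K k n : ℕ) (hK : 1 ≤ K) (hk : 1 ≤ k) :
    ∑ i ∈ range n, |mr (i + (K + 1)) ^ 2 * cR (i + (K + 1)) k| ≤ 162 * k / Real.sqrt K := by
  have hk0 : (0 : ℝ) ≤ k := Nat.cast_nonneg _
  have h1 : ∀ n : ℕ, ∑ i ∈ range n, |mr (i + (K + 1)) ^ 2 * cR (i + (K + 1)) k| ≤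
      162 * k * (1 / Real.sqrt K - 1 / Real.sqrt ((n + K : ℕ) : ℝ)) := by
    intro n
    induction n with
    | zero => simp
    | succ n ih =>
      rw [sum_range_succ]
      have h2 := p14t_term (n + (K + 1)) k (by omega) hk
      have h3 := p14t_tel (n + K) (by omega)
      have h4 : (n + (K + 1) : ℕ) = n + K + 1 := by ring
      have h5 : (n + 1 + K : ℕ) = n + K + 1 := by ring
      rw [h4] at h2 ⊢
      rw [h5]
      have h6 : (81 * (k : ℝ)) * (1 / (((n + K + 1 : ℕ) : ℝ) * Real.sqrt ((n + K + 1 : ℕ) : ℝ))) ≤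
          (81 * (k : ℝ)) * (2 * (1 / Real.sqrt ((n + K : ℕ) : ℝ) -
            1 / Real.sqrt ((n + K + 1 : ℕ) : ℝ))) :=
        mul_le_mul_of_nonneg_left h3 (by positivity)
      calc _ ≤ 162 * k * (1 / Real.sqrt K - 1 / Real.sqrt ((n + K : ℕ) : ℝ)) +
            (81 * (k : ℝ)) * (2 * (1 / Real.sqrt ((n + K : ℕ) : ℝ) -
              1 / Real.sqrt ((n + K + 1 : ℕ) : ℝ))) := add_le_add ih (h2.trans h6)
        _ = _ := by ring
  refine (h1 n).trans ?_
  rw [mul_div_assoc, mul_assoc]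
  have h2 : 0 ≤ 1 / Real.sqrt ((n + K : ℕ) : ℝ) := by positivity
  calc 162 * (k * (1 / Real.sqrt K - 1 / Real.sqrt ((n + K : ℕ) : ℝ)))
      ≤ 162 * (k * (1 / Real.sqrt K)) := by
        refine mul_le_mul_of_nonneg_left (mul_le_mul_of_nonneg_left (by linarith) hk0) (by norm_num)
    _ = 162 * (k / Real.sqrt K) := by ring

theorem p14t_sum (k : ℕ) (hk : 1 ≤ k) : Summable (fun r : ℕ => mr r ^ 2 * cR r k) := by
  rw [← summable_nat_add_iff (1 + 1)]
  refine Summable.of_norm ?_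
  refine summable_of_sum_range_le (c := 162 * k / Real.sqrt (1 : ℕ)) (fun _ => norm_nonneg _)
    fun n => ?_
  simp only [Real.norm_eq_abs]
  exact p14t_part 1 k n le_rfl hk

theorem W14t_pr : W14t := by
  refine ⟨162, by norm_num, fun K k hK hk => ?_⟩
  have hs := p14t_sum k hk
  have h1 := hs.sum_add_tsum_nat_add (K + 1)
  have h2 : SK K k = ∑ i ∈ range (K + 1), mr i ^ 2 * cR i k := by
    unfold SK
    rw [sum_range_succ', Finset.range_eq_Ico, Finset.sum_Ico_add' (fun i => mr i ^ 2 * cR i k) 0 K 1]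
    have h3 : mr 0 = 0 := by simp [mr]
    rw [h3]
    simp only [ne_eq, OfNat.ofNat_ne_zero, not_false_eq_true, zero_pow, zero_mul, add_zero,
      zero_add]
    refine sum_congr ?_ fun _ _ => rfl
    ext i
    simp only [mem_Icc, mem_Ico]
    omega
  have h4 : SG k - SK K k = ∑' i : ℕ, mr (i + (K + 1)) ^ 2 * cR (i + (K + 1)) k := by
    rw [h2]
    unfold SG
    rw [← h1]
    ring
  rw [h4]
  have hs' : Summable (fun i : ℕ => |mr (i + (K + 1)) ^ 2 * cR (i + (K + 1)) k|) :=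
    ((summable_nat_add_iff (K + 1)).2 hs).abs
  refine (Real.norm_eq_abs _ ▸ norm_tsum_le_tsum_norm (by simpa only [Real.norm_eq_abs] using hs')).trans ?_
  simp only [Real.norm_eq_abs]
  exact Real.tsum_le_of_sum_range_le (fun _ => abs_nonneg _) fun n => p14t_part K k n hK hk

end Pool.Agent.FGP
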