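import Mathlib

set_option autoImplicit false
set_option exponentiation.threshold 5000

namespace Pool.Agent.FGP

theorem p18_sqrt_add {a b : ℝ} (ha : 0 ≤ a) (hb : 0 ≤ b) :
    Real.sqrt (a + b) ≤ Real.sqrt a + Real.sqrt b := by
  rw [Real.sqrt_le_left (by positivity)]
  have h1 := Real.sq_sqrt ha
  have h2 := Real.sq_sqrt hb
  have h3 := Real.sqrt_nonneg a
  have h4 := Real.sqrt_nonneg b
  nlinarith [mul_nonneg h3 h4]

/-- bounds in terms of `R = N Y / L` -/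
theorem p18_num {N Y L κ E0 EE η Cq C3 C8 C12 C13 C16 C17 S1 SF SP tot : ℝ}
    (hκ : 1 ≤ κ) (hL : 1 ≤ L) (hLκ : L ≤ κ ^ 4) (hY : 0 < Y) (hN : 0 < N) (hNY : N ≤ Y * κ ^ 25)
    (hE0 : 0 ≤ E0) (hE1 : E0 ≤ 1) (hEE0 : 0 ≤ EE) (hEE : EE ≤ C3 * N * (E0 + 1 / κ ^ 200))
    (hsN : Real.sqrt N ≤ N / κ ^ 200) (hη : 0 < η) (hη1 : η ≤ 1)
    (hCq : 0 < Cq) (hC3 : 0 < C3) (hC8 : 0 < C8) (hC12 : 0 < C12) (hC13 : 0 < C13) (hC16 : 0 < C16)
    (hC17 : 0 < C17)
    (hS1 : S1 ≤ C12 * (N ^ 2 / κ ^ 200) * (1 + L) ^ 7 + Cq * (Y / L) *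
      (C13 * N / κ ^ 400 + C16 * L * Real.sqrt (N * EE) + 3 * (η / (24 * Cq)) * N +
        C17 * N ^ 2 / κ ^ 4000 / Y))
    (hSF0 : 0 ≤ SF) (hSF : SF ≤ C8 * Y * (EE + Real.sqrt N)) (hSP0 : 0 ≤ SP)
    (hSP : SP ≤ 6 * Cq * (Y * N) + S1)
    (htot : tot ≤ S1 + (2 * Real.sqrt (SP * SF) + SF))
    (hκ0 : 2 * (128 * C12 + Cq * C13 + Cq * C17 + Cq * C16 * Real.sqrt C3 + C8 * (C3 + 1) +
      2 * Real.sqrt ((6 * Cq + 128 * C12 + Cq * C13 + 1 + Cq * C17 + 2 * (Cq * C16 * Real.sqrt C3)) *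
        (C8 * (C3 + 1)))) ≤ η * κ) :
    tot ≤ ((Cq * C16 * Real.sqrt C3 + C8 * (C3 + 1) +
      2 * Real.sqrt ((6 * Cq + 128 * C12 + Cq * C13 + 1 + Cq * C17 + 2 * (Cq * C16 * Real.sqrt C3)) *
        (C8 * (C3 + 1)))) * Real.sqrt E0 * L + η) * N * (Y / L) := by
  have hL0 : 0 < L := by linarith
  have hκp : 0 < κ := by linarith
  set R : ℝ := N * (Y / L) with hR
  have hR0 : 0 < R := by positivity
  have hYN : Y * N = R * L := by rw [hR]; field_simp
  have hRYN : R ≤ Y * N := by rw [hYN]; nlinarith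
  set e : ℝ := Real.sqrt E0 with he
  have he0 : 0 ≤ e := Real.sqrt_nonneg _
  have he2 : e ^ 2 = E0 := Real.sq_sqrt hE0
  have he1 : e ≤ 1 := by
    rw [he]
    exact Real.sqrt_le_iff.mpr ⟨by norm_num, by simpa using hE1⟩
  have hE0e : E0 ≤ e := by nlinarith
  have hki : 0 < 1 / κ ^ 100 := by positivity
  have hpow : ∀ m n : ℕ, m ≤ n → κ ^ m ≤ κ ^ n := fun m n h => pow_le_pow_right₀ hκ h
  -- `Y N / κ^j ≤ R / κ` for `j ≥ 5`
  have hYNk : ∀ j : ℕ, 5 ≤ j → Y * N / κ ^ j ≤ R / κ := by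
    intro j hj
    rw [hYN, div_le_div_iff₀ (by positivity) hκp]
    have h1 : L * κ ≤ κ ^ 5 := by
      calc L * κ ≤ κ ^ 4 * κ := by gcongr
        _ = κ ^ 5 := by ring
    have h2 := hpow 5 j hj
    calc R * L * κ = R * (L * κ) := by ring
      _ ≤ R * κ ^ j := by gcongr; linarith
  -- square root
  have hsq : Real.sqrt (E0 + 1 / κ ^ 200) ≤ e + 1 / κ ^ 100 := by
    refine (p18_sqrt_add hE0 (by positivity)).trans ?_
    rw [← he]
    have : Real.sqrt (1 / κ ^ 200) = 1 / κ ^ 100 := by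
      have h1 : 1 / κ ^ 200 = (1 / κ ^ 100) ^ 2 := by
        rw [div_pow, one_pow]
        congr 1
        rw [← pow_mul]
      rw [h1, Real.sqrt_sq hki.le]
    rw [this]
  have hYNs : Y * N * Real.sqrt (E0 + 1 / κ ^ 200) ≤ R * (L * e) + R / κ := by
    calc Y * N * Real.sqrt (E0 + 1 / κ ^ 200) ≤ Y * N * (e + 1 / κ ^ 100) := by
          have : 0 < Y * N := by positivity
          gcongr
      _ = Y * N * e + Y * N / κ ^ 100 := by ring
      _ ≤ _ := by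
          have h1 := hYNk 100 (by norm_num)
          rw [hYN] at h1 ⊢
          linarith
  have hYNE : Y * N * (E0 + 1 / κ ^ 200) ≤ R * (L * e) + R / κ := by
    calc Y * N * (E0 + 1 / κ ^ 200) = Y * N * E0 + Y * N / κ ^ 200 := by ring
      _ ≤ Y * N * e + R / κ := by
          have h1 := hYNk 200 (by norm_num)
          have h2 : 0 < Y * N := by positivity
          have h3 : Y * N * E0 ≤ Y * N * e := by gcongr
          linarith
      _ = _ := by rw [hYN]; ring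
  have hRκ : R / κ ≤ R := div_le_self hR0.le hκ
  have hRLe : R * (L * e) ≤ Y * N := by
    rw [hYN]
    calc R * (L * e) ≤ R * (L * 1) := by gcongr
      _ = _ := by ring
  -- term 1
  have t1 : C12 * (N ^ 2 / κ ^ 200) * (1 + L) ^ 7 ≤ 128 * C12 * (R / κ) := by
    have h1 : (1 + L) ^ 7 ≤ 128 * κ ^ 28 := by
      have h11 : 1 + L ≤ 2 * κ ^ 4 := by
        have : (1 : ℝ) ≤ κ ^ 4 := one_le_pow₀ hκ
        linarith
      calc (1 + L) ^ 7 ≤ (2 * κ ^ 4) ^ 7 := by gcongr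
        _ = 128 * κ ^ 28 := by ring
    have h2 : N ^ 2 ≤ Y * N * κ ^ 25 := by
      calc N ^ 2 = N * N := by ring
        _ ≤ N * (Y * κ ^ 25) := by gcongr
        _ = _ := by ring
    calc C12 * (N ^ 2 / κ ^ 200) * (1 + L) ^ 7 ≤
        C12 * (Y * N * κ ^ 25 / κ ^ 200) * (128 * κ ^ 28) := by gcongr
      _ = 128 * C12 * (Y * N / κ ^ 147) := by
          field_simp
      _ ≤ 128 * C12 * (R / κ) := by
          have := hYNk 147 (by norm_num)
          gcongr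
  have t2 : Cq * (Y / L) * (C13 * N / κ ^ 400) ≤ Cq * C13 * (R / κ) := by
    have h1 : Cq * (Y / L) * (C13 * N / κ ^ 400) = Cq * C13 * (R / κ ^ 400) := by
      rw [hR]
      field_simp
    rw [h1]
    have h2 : R / κ ^ 400 ≤ R / κ := by
      have := hpow 1 400 (by norm_num)
      rw [pow_one] at this
      gcongr
    gcongr
  have t3 : Cq * (Y / L) * (3 * (η / (24 * Cq)) * N) = η / 8 * R := by
    rw [hR]
    field_simp
    ring
  have t4 : Cq * (Y / L) * (C17 * N ^ 2 / κ ^ 4000 / Y) ≤ Cq * C17 * (R / κ) := by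
    have h2 : N ^ 2 ≤ N * Y * κ ^ 25 := by
      calc N ^ 2 = N * N := by ring
        _ ≤ N * (Y * κ ^ 25) := by gcongr
        _ = _ := by ring
    calc Cq * (Y / L) * (C17 * N ^ 2 / κ ^ 4000 / Y) = Cq * C17 * (N ^ 2 / L / κ ^ 4000) := by
          field_simp
      _ ≤ Cq * C17 * (N * Y * κ ^ 25 / L / κ ^ 4000) := by gcongr
      _ = Cq * C17 * (R / κ ^ 3975) := by
          rw [hR]
          field_simp
      _ ≤ Cq * C17 * (R / κ) := by
          have := hpow 1 3975 (by norm_num)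
          rw [pow_one] at this
          gcongr
  have t5 : Cq * (Y / L) * (C16 * L * Real.sqrt (N * EE)) ≤
      Cq * C16 * Real.sqrt C3 * (R * (L * e) + R / κ) := by
    have h1 : Real.sqrt (N * EE) ≤ Real.sqrt C3 * (N * Real.sqrt (E0 + 1 / κ ^ 200)) := by
      have h2 : N * EE ≤ C3 * (N ^ 2 * (E0 + 1 / κ ^ 200)) := by
        calc N * EE ≤ N * (C3 * N * (E0 + 1 / κ ^ 200)) := by gcongr
          _ = _ := by ring
      calc Real.sqrt (N * EE) ≤ Real.sqrt (C3 * (N ^ 2 * (E0 + 1 / κ ^ 200))) :=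
            Real.sqrt_le_sqrt h2
        _ = _ := by
            rw [Real.sqrt_mul hC3.le, Real.sqrt_mul (sq_nonneg N), Real.sqrt_sq hN.le]
    calc Cq * (Y / L) * (C16 * L * Real.sqrt (N * EE)) = Cq * C16 * (Y * Real.sqrt (N * EE)) := by
          field_simp
      _ ≤ Cq * C16 * (Y * (Real.sqrt C3 * (N * Real.sqrt (E0 + 1 / κ ^ 200)))) := by gcongr
      _ = Cq * C16 * Real.sqrt C3 * (Y * N * Real.sqrt (E0 + 1 / κ ^ 200)) := by ring
      _ ≤ _ := by gcongr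
  have hs3 : 0 ≤ Real.sqrt C3 := Real.sqrt_nonneg _
  -- S1
  have hS1' : S1 ≤ (128 * C12 + Cq * C13 + Cq * C17 + Cq * C16 * Real.sqrt C3) * (R / κ) +
      η / 8 * R + Cq * C16 * Real.sqrt C3 * (R * (L * e)) := by
    have h1 : Cq * (Y / L) * (C13 * N / κ ^ 400 + C16 * L * Real.sqrt (N * EE) +
        3 * (η / (24 * Cq)) * N + C17 * N ^ 2 / κ ^ 4000 / Y) =
        Cq * (Y / L) * (C13 * N / κ ^ 400) + Cq * (Y / L) * (C16 * L * Real.sqrt (N * EE)) +
        Cq * (Y / L) * (3 * (η / (24 * Cq)) * N) + Cq * (Y / L) * (C17 * N ^ 2 / κ ^ 4000 / Y) := by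
      ring
    rw [h1] at hS1
    linarith
  have hSF' : SF ≤ C8 * (C3 + 1) * (R * (L * e) + R / κ) := by
    calc SF ≤ C8 * Y * (EE + Real.sqrt N) := hSF
      _ ≤ C8 * Y * (C3 * N * (E0 + 1 / κ ^ 200) + N / κ ^ 200) := by gcongr
      _ ≤ C8 * Y * (C3 * N * (E0 + 1 / κ ^ 200) + N * (E0 + 1 / κ ^ 200)) := by
          have h1 : N / κ ^ 200 ≤ N * (E0 + 1 / κ ^ 200) := by
            rw [mul_add, mul_one_div]
            have : 0 ≤ N * E0 := by positivity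
            linarith
          gcongr
      _ = C8 * (C3 + 1) * (Y * N * (E0 + 1 / κ ^ 200)) := by ring
      _ ≤ _ := by gcongr
  have hSF2 : SF ≤ C8 * (C3 + 1) * (Y * N * (E0 + 1 / κ ^ 200)) := by
    calc SF ≤ C8 * Y * (EE + Real.sqrt N) := hSF
      _ ≤ C8 * Y * (C3 * N * (E0 + 1 / κ ^ 200) + N / κ ^ 200) := by gcongr
      _ ≤ C8 * Y * (C3 * N * (E0 + 1 / κ ^ 200) + N * (E0 + 1 / κ ^ 200)) := by
          have h1 : N / κ ^ 200 ≤ N * (E0 + 1 / κ ^ 200) := by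
            rw [mul_add, mul_one_div]
            have : 0 ≤ N * E0 := by positivity
            linarith
          gcongr
      _ = C8 * (C3 + 1) * (Y * N * (E0 + 1 / κ ^ 200)) := by ring
  set C4 : ℝ := 6 * Cq + 128 * C12 + Cq * C13 + 1 + Cq * C17 + 2 * (Cq * C16 * Real.sqrt C3)
    with hC4
  have hC40 : 0 < C4 := by positivity
  have hSP' : SP ≤ C4 * (Y * N) := by
    have h1 : (128 * C12 + Cq * C13 + Cq * C17 + Cq * C16 * Real.sqrt C3) * (R / κ) ≤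
        (128 * C12 + Cq * C13 + Cq * C17 + Cq * C16 * Real.sqrt C3) * (Y * N) := by
      have : R / κ ≤ Y * N := by linarith
      gcongr
    have h2 : η / 8 * R ≤ 1 * (Y * N) := by
      have : η / 8 ≤ 1 := by linarith
      gcongr
    have h3 : Cq * C16 * Real.sqrt C3 * (R * (L * e)) ≤ Cq * C16 * Real.sqrt C3 * (Y * N) := by
      gcongr
    rw [hC4]
    linarith
  have hprod : Real.sqrt (SP * SF) ≤ Real.sqrt (C4 * (C8 * (C3 + 1))) * (R * (L * e) + R / κ) := by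
    have h1 : SP * SF ≤ C4 * (C8 * (C3 + 1)) * ((Y * N) ^ 2 * (E0 + 1 / κ ^ 200)) := by
      calc SP * SF ≤ (C4 * (Y * N)) * (C8 * (C3 + 1) * (Y * N * (E0 + 1 / κ ^ 200))) := by
            gcongr
        _ = _ := by ring
    calc Real.sqrt (SP * SF) ≤
        Real.sqrt (C4 * (C8 * (C3 + 1)) * ((Y * N) ^ 2 * (E0 + 1 / κ ^ 200))) :=
          Real.sqrt_le_sqrt h1
      _ = Real.sqrt (C4 * (C8 * (C3 + 1))) * (Y * N * Real.sqrt (E0 + 1 / κ ^ 200)) := by
          rw [Real.sqrt_mul (by positivity), Real.sqrt_mul (sq_nonneg _),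
            Real.sqrt_sq (by positivity)]
      _ ≤ _ := by gcongr
  set s4 : ℝ := Real.sqrt (C4 * (C8 * (C3 + 1))) with hs4
  have hs40 : 0 ≤ s4 := Real.sqrt_nonneg _
  -- the final count
  have hfin : tot ≤ (128 * C12 + Cq * C13 + Cq * C17 + Cq * C16 * Real.sqrt C3 + C8 * (C3 + 1) +
      2 * s4) * (R / κ) + η / 8 * R +
      (Cq * C16 * Real.sqrt C3 + C8 * (C3 + 1) + 2 * s4) * (R * (L * e)) := by
    linarith
  have hk : (128 * C12 + Cq * C13 + Cq * C17 + Cq * C16 * Real.sqrt C3 + C8 * (C3 + 1) +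
      2 * s4) * (R / κ) ≤ η / 2 * R := by
    rw [mul_div_assoc', div_le_iff₀ hκp]
    have h1 : (128 * C12 + Cq * C13 + Cq * C17 + Cq * C16 * Real.sqrt C3 + C8 * (C3 + 1) +
      2 * s4) * 2 ≤ η * κ := by linarith
    nlinarith
  have hR2 : ((Cq * C16 * Real.sqrt C3 + C8 * (C3 + 1) + 2 * s4) * e * L + η) * N * (Y / L) =
      (Cq * C16 * Real.sqrt C3 + C8 * (C3 + 1) + 2 * s4) * (R * (L * e)) + η * R := by
    rw [hR]
    ring
  rw [hR2]
  have : 0 < η * R := by positivity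
  linarith

end Pool.Agent.FGP
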