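import Pool.Agent.Lib_helper3.FGP.P18b
import Pool.Agent.Lib_helper3.FGP.P18c

set_option autoImplicit false
set_option exponentiation.threshold 5000

namespace Pool.Agent.FGP

open Finset Pool.Agent.Var35 Pool.Agent.Var73 Pool.Agent.PV
open scoped ArithmeticFunction ArithmeticFunction.Moebius

/-- the number `κ = K^(1/400)` -/
theorem p18_kappa {K : ℕ} (hK : 1 ≤ K) : ∃ κ : ℝ, 1 ≤ κ ∧ κ ^ 400 = K := by
  refine ⟨(K : ℝ) ^ ((1 : ℝ) / 400), ?_, ?_⟩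
  · apply Real.one_le_rpow (by exact_mod_cast hK) (by norm_num)
  · rw [← Real.rpow_natCast, ← Real.rpow_mul (Nat.cast_nonneg K)]
    norm_num

/-- the estimate for one value of the parameters -/
theorem p18_one {C3 C8 C12 C13 C16 C17 Cq η e0 : ℝ} {N K Y M : ℕ}
    (hC3 : 0 < C3) (hC8 : 0 < C8) (hC12 : 0 < C12) (hC13 : 0 < C13) (hC16 : 0 < C16)
    (hC17 : 0 < C17) (hCq : 0 < Cq) (hη : 0 < η) (hη1 : η ≤ 1) (he0 : 0 ≤ e0) (he1 : e0 ≤ 1)
    (hR : Rg K N) (hRY : RY K N Y)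
    (hEE : EE N K ≤ C3 * N * (e0 + 1 / Real.sqrt K)) (hN3 : 100 ≤ N)
    (h20 : W20)
    (hF : ∑ Q ∈ QQ Y, VQ (Fh N K) Q ≤ C8 * Y * (EE N K + Real.sqrt N))
    (h12 : ∑ Q ∈ QQ Y, |(VA (fun t => fh N K t + gh N K t) Q - VA (gh N K) Q) -
      (ms M (fun t => fh N K t + gh N K t) - ms M (gh N K))| ≤
        C12 * ((N : ℝ) ^ 2 / Real.sqrt K) * (1 + Real.log N) ^ 7)
    (h13 : ∀ Q ∈ QQ Y, |VA (gh N K) Q - ms M (gh N K) -
      2 * ∑ k ∈ Icc 1 (N / Q), SK K k * ((N : ℝ) - k * Q)| ≤ C13 * N / K)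
    (h16 : |ms M (fun t => fh N K t + gh N K t) - A2 N| ≤
      C16 * Real.log N * Real.sqrt (N * EE N K))
    (h17 : |‖fh N K 0 + gh N K 0‖ ^ 2 - (N : ℝ) ^ 2| ≤ C17 * (N : ℝ) ^ 2 / (K : ℝ) ^ 10)
    (h14 : ∀ Q ∈ QQ Y, |∑ k ∈ Icc 1 ⌊(N : ℝ) / Q⌋₊, SK K k * ((N : ℝ) / Q - k) -
      mainT ((N : ℝ) / Q)| ≤ η / (24 * Cq) * ((N : ℝ) / Q))
    (h15 : |A2 N - (N * Real.log N - N)| ≤ η / (24 * Cq) * N)
    (hcard : ((QQ Y).card : ℝ) ≤ Cq * (Y / Real.log N))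
    (hκ0 : ∀ κ : ℝ, 1 ≤ κ → κ ^ 400 = K →
      2 * (128 * C12 + Cq * C13 + Cq * C17 + Cq * C16 * Real.sqrt C3 + C8 * (C3 + 1) +
      2 * Real.sqrt ((6 * Cq + 128 * C12 + Cq * C13 + 1 + Cq * C17 + 2 * (Cq * C16 * Real.sqrt C3)) *
        (C8 * (C3 + 1)))) ≤ η * κ) :
    ∑ Q ∈ QQ Y, |SQ N Q - mQ N Q| ≤
      ((Cq * C16 * Real.sqrt C3 + C8 * (C3 + 1) +
      2 * Real.sqrt ((6 * Cq + 128 * C12 + Cq * C13 + 1 + Cq * C17 + 2 * (Cq * C16 * Real.sqrt C3)) *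
        (C8 * (C3 + 1)))) * Real.sqrt e0 * Real.log N + η) * N * (Y / Real.log N) := by
  have hK10 : 10 ≤ K := hR.hK
  obtain ⟨κ, hκ1, hκK⟩ := p18_kappa (K := K) (by omega)
  have hκp : 0 < κ := by linarith
  have hNR : (100 : ℝ) ≤ N := by exact_mod_cast hN3
  have hN0 : (0 : ℝ) < N := by linarith
  have hY1 : 1 ≤ Y := hRY.hY1
  have hYR : (1 : ℝ) ≤ Y := by exact_mod_cast hY1
  have hL1 : 1 ≤ Real.log N := by
    rw [Real.le_log_iff_exp_le hN0]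
    have := Real.exp_one_lt_d9
    linarith
  have hL0 : 0 < Real.log N := by linarith
  have hsK : Real.sqrt K = κ ^ 200 := by
    rw [← hκK]
    have : κ ^ 400 = (κ ^ 200) ^ 2 := by rw [← pow_mul]
    rw [this, Real.sqrt_sq (by positivity)]
  have hLκ : Real.log N ≤ κ ^ 4 := by
    have h1 := hR.hL
    rw [← hκK] at h1
    have h2 : κ ^ 400 = (κ ^ 4) ^ 100 := by rw [← pow_mul]
    rw [h2] at h1
    exact le_of_pow_le_pow_left₀ (by norm_num) (by positivity) h1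
  have hNYκ : (N : ℝ) ≤ Y * κ ^ 25 := by
    have h1 : ((N : ℝ)) ^ 16 ≤ (Y : ℝ) ^ 16 * K := by exact_mod_cast hRY.hY
    rw [← hκK] at h1
    have h2 : (Y : ℝ) ^ 16 * κ ^ 400 = (Y * κ ^ 25) ^ 16 := by
      rw [mul_pow, ← pow_mul]
    rw [h2] at h1
    exact le_of_pow_le_pow_left₀ (by norm_num) (by positivity) h1
  have hκN : κ ^ 400 ≤ N := by
    rw [hκK]
    have h1 : K ^ 1 ≤ K ^ 400 := Nat.pow_le_pow_right (by omega) (by norm_num)
    rw [pow_one] at h1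
    exact_mod_cast h1.trans hR.hN
  have hsN : Real.sqrt N ≤ N / κ ^ 200 := by
    rw [le_div_iff₀ (by positivity)]
    have h1 : κ ^ 200 ≤ Real.sqrt N := by
      apply Real.le_sqrt_of_sq_le
      rw [← pow_mul]
      exact hκN
    calc Real.sqrt N * κ ^ 200 ≤ Real.sqrt N * Real.sqrt N := by gcongr
      _ = N := Real.mul_self_sqrt hN0.le
  have hEE0 : 0 ≤ EE N K := by
    unfold EE En
    positivity
  have hK4 : (K : ℝ) ^ 10 = κ ^ 4000 := by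
    rw [← hκK, ← pow_mul]
  have hKκ : (K : ℝ) = κ ^ 400 := hκK.symm
  -- pointwise
  set P : ℝ → ℂ := fun t => fh N K t + gh N K t with hP
  set a1 : ℕ → ℝ := fun Q => |(VA P Q - VA (gh N K) Q) - (ms M P - ms M (gh N K))| with ha1
  set B : ℝ := C13 * N / κ ^ 400 + C16 * Real.log N * Real.sqrt (N * EE N K) +
    3 * (η / (24 * Cq)) * N + C17 * N ^ 2 / κ ^ 4000 / Y with hB
  have hpt : ∀ Q ∈ QQ Y, |VQ P Q - mQ N Q| ≤ a1 Q + B := by
    intro Q hQ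
    have hQ' := hQ
    unfold QQ at hQ'
    rw [mem_filter, mem_Ioc] at hQ'
    have hQ1 : 1 ≤ Q := hQ'.2.one_lt.le
    have hQY : (Y : ℝ) ≤ Q := by exact_mod_cast hQ'.1.1.le
    have hQ0 : (0 : ℝ) < Q := by linarith
    have h1 := p18_pt N K M Q (by omega) hQ1 P (a1 Q) _ _ _ _ _ le_rfl (h13 Q hQ) h16 h15 h17
      (h14 Q hQ)
    refine h1.trans ?_
    have h2 : C17 * (N : ℝ) ^ 2 / (K : ℝ) ^ 10 / Q ≤ C17 * N ^ 2 / κ ^ 4000 / Y := by
      rw [hK4]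
      gcongr
    have h3 : 2 * ((Q : ℝ) * (η / (24 * Cq) * ((N : ℝ) / Q))) = 2 * (η / (24 * Cq)) * N := by
      field_simp
    rw [h3, hKκ]
    rw [hKκ] at h2
    rw [hB]
    linarith
  have hB0 : 0 ≤ B := by positivity
  have hS1 : ∑ Q ∈ QQ Y, |VQ P Q - mQ N Q| ≤ C12 * ((N : ℝ) ^ 2 / κ ^ 200) *
      (1 + Real.log N) ^ 7 + Cq * (Y / Real.log N) * B := by
    calc ∑ Q ∈ QQ Y, |VQ P Q - mQ N Q| ≤ ∑ Q ∈ QQ Y, (a1 Q + B) := sum_le_sum hpt
      _ = ∑ Q ∈ QQ Y, a1 Q + (QQ Y).card * B := by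
          rw [sum_add_distrib, sum_const, nsmul_eq_mul]
      _ ≤ _ := by
          rw [hsK] at h12
          have := mul_le_mul_of_nonneg_right hcard hB0
          linarith
  -- Minkowski
  have hPs : ∀ Q ∈ QQ Y, SQ N Q = VQ (fun t => P t + Fh N K t) Q := by
    intro Q hQ
    unfold QQ at hQ
    rw [mem_filter, mem_Ioc] at hQ
    rw [h20.2 N Q hQ.2.one_lt.le]
    congr 1
    funext t
    exact h20.1 N K t
  have hmk := p18_mink_sum P (Fh N K) (QQ Y)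
  have hSP0 : 0 ≤ ∑ Q ∈ QQ Y, VQ P Q := sum_nonneg fun Q _ => p18_VQ_nonneg _ _
  have hSF0 : 0 ≤ ∑ Q ∈ QQ Y, VQ (Fh N K) Q := sum_nonneg fun Q _ => p18_VQ_nonneg _ _
  have hSP : ∑ Q ∈ QQ Y, VQ P Q ≤ 6 * Cq * (Y * N) + ∑ Q ∈ QQ Y, |VQ P Q - mQ N Q| := by
    have h1 : ∀ Q ∈ QQ Y, VQ P Q ≤ 6 * (N * Real.log N) + |VQ P Q - mQ N Q| := by
      intro Q hQ
      have h2 := p18_mQ N Q Y hN3 hRY.hYN hQ
      have h3 := le_abs_self (mQ N Q)
      have h4 := le_abs_self (VQ P Q - mQ N Q)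
      linarith
    refine (sum_le_sum h1).trans ?_
    rw [sum_add_distrib, sum_const, nsmul_eq_mul]
    have h2 : ((QQ Y).card : ℝ) * (6 * (N * Real.log N)) ≤
        Cq * (Y / Real.log N) * (6 * (N * Real.log N)) :=
      mul_le_mul_of_nonneg_right hcard (by positivity)
    have h3 : Cq * (Y / Real.log N) * (6 * (N * Real.log N)) = 6 * Cq * (Y * N) := by
      field_simp
    linarith
  have htot : ∑ Q ∈ QQ Y, |SQ N Q - mQ N Q| ≤ ∑ Q ∈ QQ Y, |VQ P Q - mQ N Q| +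
      (2 * Real.sqrt ((∑ Q ∈ QQ Y, VQ P Q) * ∑ Q ∈ QQ Y, VQ (Fh N K) Q) +
        ∑ Q ∈ QQ Y, VQ (Fh N K) Q) := by
    have h1 : ∑ Q ∈ QQ Y, |SQ N Q - mQ N Q| ≤ ∑ Q ∈ QQ Y, |VQ P Q - mQ N Q| +
        ∑ Q ∈ QQ Y, |VQ (fun t => P t + Fh N K t) Q - VQ P Q| := by
      rw [← sum_add_distrib]
      refine sum_le_sum fun Q hQ => ?_
      rw [hPs Q hQ]
      have h2 : VQ (fun t => P t + Fh N K t) Q - mQ N Q =
          (VQ P Q - mQ N Q) + (VQ (fun t => P t + Fh N K t) Q - VQ P Q) := by ring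
      rw [h2]
      exact abs_add_le _ _
    linarith
  rw [hsK] at hEE
  exact p18_num hκ1 hL1 hLκ (by linarith) hN0 hNYκ he0 he1 hEE0 hEE hsN hη hη1 hCq hC3 hC8 hC12
    hC13 hC16 hC17 hS1 hSF0 hF hSP0 hSP htot (hκ0 κ hκ1 hκK)

theorem W18_pr (h3b : W03b) (h8 : W08) (h12 : W12) (h16 : W16) (h17 : W17) (h13 : W13)
    (h14 : W14) (h15 : W15) (h20 : W20) : W18 := by
  intro c₁ hc₁
  obtain ⟨C3, c3, B3, hC3, hc3, hB3, K3, H3⟩ := h3b c₁ hc₁
  obtain ⟨C8, hC8, K8, H8⟩ := h8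
  obtain ⟨C12, hC12, K12, H12⟩ := h12
  obtain ⟨C16, hC16, K16, H16⟩ := h16
  obtain ⟨C17, hC17, K17, H17⟩ := h17
  obtain ⟨C13, hC13, K13, H13⟩ := h13
  obtain ⟨Cq, hCq, Kq, Hq⟩ := p18_card
  set Cf : ℝ := Cq * C16 * Real.sqrt C3 + C8 * (C3 + 1) +
      2 * Real.sqrt ((6 * Cq + 128 * C12 + Cq * C13 + 1 + Cq * C17 + 2 * (Cq * C16 * Real.sqrt C3)) *
        (C8 * (C3 + 1))) with hCf
  have hCf0 : 0 < Cf := by positivity
  set Cg : ℝ := 128 * C12 + Cq * C13 + Cq * C17 + Cq * C16 * Real.sqrt C3 + C8 * (C3 + 1) +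
      2 * Real.sqrt ((6 * Cq + 128 * C12 + Cq * C13 + 1 + Cq * C17 + 2 * (Cq * C16 * Real.sqrt C3)) *
        (C8 * (C3 + 1))) with hCg
  -- the exponent `B`
  set B : ℝ := max B3 (2 * C3 / c3) with hB
  refine ⟨Cf, c3 / 2, B, hCf0, by positivity, hB3.trans (le_max_left _ _), fun η' hη' => ?_⟩
  set η : ℝ := min η' 1 with hη
  have hη0 : 0 < η := lt_min hη' one_pos
  have hη1 : η ≤ 1 := min_le_right _ _
  obtain ⟨Z0, hZ0, H14⟩ := h14 (η / (24 * Cq)) (by positivity)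
  obtain ⟨N15, H15⟩ := h15 (η / (24 * Cq)) (by positivity)
  -- threshold for `K`
  obtain ⟨Kη, hKη⟩ := exists_nat_gt ((2 * Cg / η) ^ 400)
  obtain ⟨Kc, hKc⟩ := exists_nat_gt ((4 * C3) ^ 2)
  obtain ⟨Kz, hKz⟩ := exists_nat_gt (4 * Z0)
  refine ⟨K3 + K8 + K12 + K16 + K17 + K13 + Kq + N15 + Kη + Kc + Kz + 100,
    fun K hK N D hR hgood hKD hDN Y hRY hKY => ?_⟩
  have hK10 : 10 ≤ K := hR.hK
  have hKN : K ≤ N := by
    have h1 : K ^ 1 ≤ K ^ 400 := Nat.pow_le_pow_right (by omega) (by norm_num)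
    rw [pow_one] at h1
    exact h1.trans hR.hN
  have hN100 : 100 ≤ N := by omega
  have hNR : (100 : ℝ) ≤ N := by exact_mod_cast hN100
  have hN0 : (0 : ℝ) < N := by linarith
  have hL0 : 0 < Real.log N := Real.log_pos (by linarith)
  have hD2 : 2 ≤ D := by
    have h1 : K ^ 1 ≤ K ^ 20 := Nat.pow_le_pow_right (by omega) (by norm_num)
    rw [pow_one] at h1
    omega
  have hDR : (2 : ℝ) ≤ D := by exact_mod_cast hD2
  have hlD : 0 < Real.log D := Real.log_pos (by linarith)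
  have hBL : B * Real.log D ≤ Real.log N := by
    have h1 := Real.log_le_log (by positivity) hDN
    rwa [Real.log_rpow (by linarith)] at h1
  have hDN3 : (D : ℝ) ^ B3 ≤ N := by
    refine le_trans ?_ hDN
    exact Real.rpow_le_rpow_of_exponent_le (by linarith) (le_max_left _ _)
  set e0 : ℝ := Real.exp (-(c3 * Real.log N / Real.log D)) with he0
  have he00 : 0 < e0 := Real.exp_pos _
  have hexp : c3 * Real.log N / Real.log D ≥ 2 * C3 := by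
    rw [ge_iff_le, le_div_iff₀ hlD]
    have h1 : 2 * C3 / c3 ≤ B := le_max_right _ _
    have h2 : 2 * C3 ≤ B * c3 := by rwa [div_le_iff₀ hc3] at h1
    nlinarith
  have he0C : C3 * e0 ≤ 1 / 2 := by
    have h1 : (2 * C3) + 1 ≤ Real.exp (2 * C3) := by
      have := Real.add_one_le_exp (2 * C3)
      linarith
    have h2 : e0 ≤ Real.exp (-(2 * C3)) := Real.exp_le_exp.2 (by linarith)
    have h3 : Real.exp (-(2 * C3)) * Real.exp (2 * C3) = 1 := by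
      rw [← Real.exp_add]
      simp
    have h4 : 0 < Real.exp (-(2 * C3)) := Real.exp_pos _
    have h5 : Real.exp (-(2 * C3)) * (2 * C3) ≤ 1 := by nlinarith
    nlinarith
  have he01 : e0 ≤ 1 := by
    rw [he0]
    apply Real.exp_le_one_iff.2
    have : 0 < c3 * Real.log N / Real.log D := by positivity
    linarith
  have hEE3 := H3 K (by omega) N D hR hgood hKD hDN3
  -- `EE ≤ N`
  have hsK : 4 * C3 ≤ Real.sqrt K := by
    apply Real.le_sqrt_of_sq_le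
    have h1 : (Kc : ℝ) ≤ K := by
      have : Kc ≤ K := by omega
      exact_mod_cast this
    linarith
  have hsK0 : 0 < Real.sqrt K := by
    have : (0 : ℝ) < 4 * C3 := by positivity
    linarith
  have hEEN : EE N K ≤ N := by
    refine hEE3.trans ?_
    have h1 : C3 * (1 / Real.sqrt K) ≤ 1 / 4 := by
      rw [mul_one_div, div_le_iff₀ hsK0]
      linarith
    calc C3 * N * (e0 + 1 / Real.sqrt K) = N * (C3 * e0 + C3 * (1 / Real.sqrt K)) := by ring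
      _ ≤ N * 1 := by
          apply mul_le_mul_of_nonneg_left _ hN0.le
          linarith
      _ = N := mul_one _
  obtain ⟨M, hM⟩ : ∃ M, Good (2 * N) M := ⟨_, CSB_good (2 * N)⟩
  have hres := p18_one (M := M) hC3 hC8 hC12 hC13 hC16 hC17 hCq hη0 hη1 he00.le he01 hR hRY hEE3 hN100
    h20 (H8 K (by omega) N hR Y hRY) (H12 K (by omega) N hR M hM Y hRY hEEN)
    (H13 K (by omega) N hR M hM Y hRY) (H16 K (by omega) N hR M hM hEEN)
    (H17 K (by omega) N hR) ?_ (H15 N (by omega)) (Hq K (by omega) N hR Y hRY) ?_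
  · -- conclusion
    have h1 : Real.sqrt e0 = Real.exp (-(c3 / 2 * Real.log N / Real.log D)) := by
      rw [he0, ← Real.exp_half]
      congr 1
      ring
    have h2 : ∑ Q ∈ QQ Y, |SQ N Q - mQ N Q| ≤ (Cf * Real.sqrt e0 * Real.log N + η) * N *
        (Y / Real.log N) := hres
    rw [h1] at h2
    refine h2.trans ?_
    have h3 : η ≤ η' := min_le_left _ _
    gcongr
  · intro Q hQ
    unfold QQ at hQ
    rw [mem_filter, mem_Ioc] at hQ
    have hQ0 : (0 : ℝ) < Q := by exact_mod_cast hQ.2.pos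
    have hY1 : 1 ≤ Y := hRY.hY1
    have hYR : (0 : ℝ) < Y := by exact_mod_cast hY1
    have hQY : (Y : ℝ) ≤ Q := by exact_mod_cast hQ.1.1.le
    have hQ4 : (Q : ℝ) ≤ 4 * Y := by exact_mod_cast hQ.1.2
    refine H14 _ K ?_ ?_
    · rw [le_div_iff₀ hQ0]
      have h1 : Kz * Y ≤ N := le_trans (Nat.mul_le_mul_right Y (by omega)) hKY
      have h2 : (Kz : ℝ) * Y ≤ N := by exact_mod_cast h1
      calc Z0 * Q ≤ Z0 * (4 * Y) := by gcongr
        _ = 4 * Z0 * Y := by ring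
        _ ≤ Kz * Y := by gcongr
        _ ≤ N := h2
    · have h1 : ((N : ℝ) / Q) ^ 8 ≤ ((N : ℝ) / Y) ^ 8 := by gcongr
      have h2 : ((N : ℝ)) ^ 16 ≤ (Y : ℝ) ^ 16 * K := by exact_mod_cast hRY.hY
      have h3 : ((N : ℝ) / Y) ^ 16 ≤ K := by
        rw [div_pow, div_le_iff₀ (by positivity)]
        linarith
      have hYN : (Y : ℝ) ≤ N := by exact_mod_cast hRY.hYN
      have h4 : 1 ≤ (N : ℝ) / Y := by rwa [le_div_iff₀ hYR, one_mul]
      have h5 : ((N : ℝ) / Y) ^ 8 ≤ ((N : ℝ) / Y) ^ 16 := pow_le_pow_right₀ h4 (by norm_num)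
      linarith
  · intro κ hκ1 hκK
    have h1 : 2 * Cg / η ≤ κ := by
      have h2 : (2 * Cg / η) ^ 400 ≤ κ ^ 400 := by
        rw [hκK]
        have h3 : (Kη : ℝ) ≤ K := by
          have : Kη ≤ K := by omega
          exact_mod_cast this
        exact hKη.le.trans h3
      exact le_of_pow_le_pow_left₀ (by norm_num) (zero_le_one.trans hκ1) h2
    rw [div_le_iff₀ hη0] at h1
    linarith

end Pool.Agent.FGP
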