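import Pool.Agent.Lib_helper3.FGP.Wanted

set_option autoImplicit false

namespace Pool.Agent.FGP

open Finset Pool.Agent.Var35 Pool.Agent.Var73 Pool.Agent.PV
open scoped ArithmeticFunction ArithmeticFunction.Moebius

theorem W20_pr : W20 := by
  constructor
  · intro N K t
    unfold fh gh Fh Wt Xc
    have h : ∑ r ∈ Icc 1 K, ∑ c ∈ Cd r, ((vh N K (t - c / r) ^ 2 : ℝ) : ℂ) *
        (Ps N t - ((mr r : ℝ) : ℂ) * In N (t - c / r)) =
        Ps N t * ∑ r ∈ Icc 1 K, ∑ c ∈ Cd r, ((vh N K (t - c / r) ^ 2 : ℝ) : ℂ) -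
        ∑ r ∈ Icc 1 K, ∑ c ∈ Cd r, ((mr r * vh N K (t - c / r) ^ 2 : ℝ) : ℂ) * In N (t - c / r) := by
      rw [mul_sum, ← sum_sub_distrib]
      refine sum_congr rfl fun r _ => ?_
      rw [mul_sum, ← sum_sub_distrib]
      refine sum_congr rfl fun c _ => ?_
      push_cast
      ring
    rw [h]
    push_cast
    ring
  · intro N Q hQ
    have hQ0 : (Q : ℝ) ≠ 0 := by positivity
    have h := res_pr N Q hQ (fun n => (aS N n : ℂ))
    unfold VQ SQ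
    have h1 : range Q = insert 0 (Ico 1 Q) := by
      ext x
      simp only [mem_range, mem_insert, mem_Ico]
      omega
    have h2 : (0 : ℕ) ∉ Ico 1 Q := by simp
    have h3 : (1 / (Q : ℝ)) * ∑ c ∈ range Q, ‖Ps N (c / Q)‖ ^ 2 =
        (1 / (Q : ℝ)) * ‖Ps N 0‖ ^ 2 + (1 / (Q : ℝ)) * ∑ c ∈ Ico 1 Q, ‖Ps N (c / Q)‖ ^ 2 := by
      rw [h1, sum_insert h2]
      simp [mul_add]
    have h4 : Ps N 0 = ((∑ n ∈ Icc 1 N, aS N n : ℝ) : ℂ) := by
      unfold Ps Bs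
      push_cast
      refine sum_congr rfl fun n _ => ?_
      simp [e]
    have h5 : ∀ a, ‖∑ n ∈ (Icc 1 N).filter (fun n => n % Q = a), (aS N n : ℂ)‖ ^ 2 =
        (∑ n ∈ (Icc 1 N).filter (fun n => n % Q = a), aS N n) ^ 2 := by
      intro a
      rw [← Complex.ofReal_sum, Complex.norm_real, Real.norm_eq_abs, sq_abs]
    have h6 : ‖Ps N 0‖ ^ 2 = (∑ n ∈ Icc 1 N, aS N n) ^ 2 := by
      rw [h4, Complex.norm_real, Real.norm_eq_abs, sq_abs]
    have h7 : (1 / (Q : ℝ)) * ∑ c ∈ range Q, ‖Ps N (c / Q)‖ ^ 2 =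
        ∑ a ∈ range Q, (∑ n ∈ (Icc 1 N).filter (fun n => n % Q = a), aS N n) ^ 2 := by
      rw [← sum_congr rfl fun a _ => h5 a]
      exact h
    rw [← h7, h3, h6]
    field_simp
    ring

end Pool.Agent.FGP
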