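import Pool.Agent.Lib_helper3.FGP.P01
import Pool.Agent.Lib_helper3.FGP.P02
import Pool.Agent.Lib_helper3.FGP.P03
import Pool.Agent.Lib_helper3.FGP.P03b
import Pool.Agent.Lib_helper3.FGP.P04
import Pool.Agent.Lib_helper3.FGP.P05
import Pool.Agent.Lib_helper3.FGP.P06
import Pool.Agent.Lib_helper3.FGP.P07a
import Pool.Agent.Lib_helper3.FGP.P07
import Pool.Agent.Lib_helper3.FGP.P07b
import Pool.Agent.Lib_helper3.FGP.P08
import Pool.Agent.Lib_helper3.FGP.P09
import Pool.Agent.Lib_helper3.FGP.P10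
import Pool.Agent.Lib_helper3.FGP.P11
import Pool.Agent.Lib_helper3.FGP.P12
import Pool.Agent.Lib_helper3.FGP.P13a
import Pool.Agent.Lib_helper3.FGP.P13b
import Pool.Agent.Lib_helper3.FGP.P13
import Pool.Agent.Lib_helper3.FGP.P14a
import Pool.Agent.Lib_helper3.FGP.P14b
import Pool.Agent.Lib_helper3.FGP.P14c
import Pool.Agent.Lib_helper3.FGP.P14d
import Pool.Agent.Lib_helper3.FGP.P14t
import Pool.Agent.Lib_helper3.FGP.P14
import Pool.Agent.Lib_helper3.FGP.P15
import Pool.Agent.Lib_helper3.FGP.P16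
import Pool.Agent.Lib_helper3.FGP.P18
import Pool.Agent.Lib_helper3.FGP.P20
import Pool.Agent.Lib_helper3.FGP.Near

/-!
# FGP: the blocks put together
-/

set_option autoImplicit false

namespace Pool.Agent.FGP

theorem f01 : W01 := W01_pr
theorem f02 : W02 := W02_pr
theorem f03 : W03 := W03_pr f01 f02
theorem f03b : W03b := W03b_pr f01 f03
theorem f04 : W04 := W04_pr f01
theorem f05 : W05 := W05_pr f04
theorem f06 : W06 := W06_pr
theorem f07a : W07a := W07a_pr
theorem f09 : W09 := W09_pr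
theorem f07 : W07 := W07_pr f06 f07a f09
theorem f07b : W07b := W07b_pr f04 f07
theorem f10 : W10 := W10_pr
theorem f08 : W08 := W08_pr f01 f04 f07 f10
theorem f11 : W11 := W11_pr
theorem f12 : W12 := W12_pr f04 f05 f07b f10 f11
theorem f13a : W13a := W13a_pr
theorem f13b : W13b := W13b_pr
theorem f13 : W13 := W13_pr f13a f13b
theorem f14 : W14 := W14_pr W14a_pr W14t_pr W14b_pr W14c_pr W14d_pr
theorem f15 : W15 := W15_pr
theorem f16 : W16 := W16_pr f01 f04 f07b
theorem f17 : W17 := W17_pr f01 f04 f07b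
theorem f18 : W18 := W18_pr f03b f08 f12 f16 f17 f13 f14 f15 W20_pr

theorem final : WALL := WALL_pr f18 WSC_pr

end Pool.Agent.FGP
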