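import Pool.Agent.Lib_helper3.FGP.Final
import Pool.Agent.Lib_helper3.FGP.E14cF
import Pool.Agent.Lib_helper3.FGP.E14dF
import Pool.Agent.Lib_helper3.FGP.E14F
import Pool.Agent.Lib_helper3.FGP.E15F
import Pool.Agent.Lib_helper3.FGP.E18F
import Pool.Agent.Lib_helper3.FGP.E19F

/-!
# FGP: the effective blocks put together
-/

set_option autoImplicit false

namespace Pool.Agent.FGP

theorem fe14 : E14 := E14_pr W14a_pr W14t_pr W14b_pr W14c_pr E14c_pr E14d_pr
theorem fe15 : E15 := E15_pr f01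
theorem fe18 : E18 := E18_pr f03b f08 f12 f16 f17 f13 fe14 fe15 W20_pr

theorem finalE : WALLE := WALLE_pr fe18

end Pool.Agent.FGP
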