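import Pool.Agent.Lib_helper3.FGP.FinalE

/-!
# FGP: final form, effective, with the whole range
-/

set_option autoImplicit false

namespace Pool.Agent.FGP

open Finset Pool.Agent.Var35 Pool.Agent.Var73 Pool.Agent.PV
open scoped ArithmeticFunction ArithmeticFunction.Moebius
open Filter Topology

/-- the whole range, first order, at all `X` and at the special integers -/
theorem range_pr (ε : ℝ) (hε : 0 < ε) : ∃ C : ℝ, 0 < C ∧ ∀ η : ℝ, 0 < η → ∃ X₁ : ℝ,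
    (∀ X Y : ℝ, X₁ ≤ X → X ^ (1 / 2 + ε) ≤ Y → Y ≤ X →
      ∑ Q ∈ QR Y, |GV X Q - PV0 X Q - X * Real.log Q| ≤
        (C * Real.log (X / Y) + η * Real.log X) * X * (Y / Real.log Y)) ∧
    (∀ N : ℕ, X₁ ≤ N →
      |∑ n ∈ Icc 1 N, ArithmeticFunction.vonMangoldt n - N| ≤ (N : ℝ) ^ (3 / 4 : ℝ) →
      ∀ Y : ℝ, (N : ℝ) ^ (1 / 2 + ε) ≤ Y → Y ≤ N →
      ∑ Q ∈ QR Y, |GV N Q - N * Real.log Q| ≤
        (C * Real.log (N / Y) + η * Real.log N) * N * (Y / Real.log Y)) := by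
  obtain ⟨Cf, hCf⟩ := Pool.Agent.NZ.full_variance_at ε hε
  obtain ⟨Cp, hCp⟩ := Pool.Agent.PV.fin ε hε
  refine ⟨1 + |Cf| + |Cp|, by positivity, fun η hη => ?_⟩
  obtain ⟨Z₁, hZ₁⟩ := hCf η hη
  obtain ⟨X₁, hX₁⟩ := hCp η hη
  have enl : ∀ L1 L2 X Z : ℝ, 0 ≤ L1 → 0 ≤ X → 0 ≤ Z → ∀ C : ℝ, C ≤ 1 + |Cf| + |Cp| →
      (C * L1 + L2) * X * Z ≤ ((1 + |Cf| + |Cp|) * L1 + L2) * X * Z := by
    intro L1 L2 X Z h1 h2 h3 C h4
    gcongr
  have hC1 : Cf ≤ 1 + |Cf| + |Cp| := by linarith [le_abs_self Cf, abs_nonneg Cp]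
  have hC2 : Cp ≤ 1 + |Cf| + |Cp| := by linarith [le_abs_self Cp, abs_nonneg Cf]
  have pos1 : ∀ X Y : ℝ, 1 ≤ X → X ^ (1 / 2 + ε) ≤ Y → Y ≤ X →
      0 ≤ Real.log (X / Y) ∧ 0 ≤ X ∧ 0 ≤ Y / Real.log Y := by
    intro X Y hX1 hY hYX
    have hX0 : 0 < X := by linarith
    have hY0 : 0 < Y := lt_of_lt_of_le (Real.rpow_pos_of_pos hX0 _) hY
    have hY1 : 1 ≤ Y := le_trans (Real.one_le_rpow hX1 (by positivity)) hY
    refine ⟨?_, hX0.le, div_nonneg hY0.le (Real.log_nonneg hY1)⟩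
    apply Real.log_nonneg
    rw [le_div_iff₀ hY0]
    linarith
  refine ⟨max (max X₁ Z₁) 4, ?_, ?_⟩
  · intro X Y hX hY hYX
    have hXX : X₁ ≤ X := ((le_max_left _ _).trans (le_max_left _ _)).trans hX
    have hX4 : 4 ≤ X := (le_max_right _ _).trans hX
    obtain ⟨p1, p2, p3⟩ := pos1 X Y (by linarith) hY hYX
    exact (hX₁ X Y hXX hY hYX).trans (enl _ _ _ _ p1 p2 p3 _ hC2)
  · intro N hN n3 Y hY hYX
    have hN4 : (4 : ℝ) ≤ N := (le_max_right _ _).trans hN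
    have hZN : Z₁ ≤ (N : ℝ) := ((le_max_right _ _).trans (le_max_left _ _)).trans hN
    obtain ⟨p1, p2, p3⟩ := pos1 N Y (by linarith) hY hYX
    refine le_trans (le_of_eq ?_)
      ((hZ₁ N hZN n3 Y hY hYX).trans (enl _ _ _ _ p1 p2 p3 _ hC1))
    refine sum_congr rfl fun Q _ => ?_
    unfold GV
    rw [Nat.floor_natCast]

end Pool.Agent.FGP
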