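import Pool.Agent.Lib_helper3.FGP.Wanted

/-!
# FGP, block P01: elementary properties of the window
-/

set_option autoImplicit false

namespace Pool.Agent.FGP

open Finset Pool.Agent.Var35 Pool.Agent.Var73 Pool.Agent.PV
open scoped ArithmeticFunction ArithmeticFunction.Moebius

/-! ## Numerical inequalities -/

theorem p01_exp (y : ℝ) (hy : 0 ≤ y) : (1 + y) ^ 3 * Real.exp (-(y ^ 2 / 2)) ≤ 80 := by
  have h1 : (1 + y) ^ 3 ≤ 6 * Real.exp (1 + y) := by
    have := Real.pow_div_factorial_le_exp (1 + y) (by linarith) 3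
    have h2 : (Nat.factorial 3 : ℝ) = 6 := by norm_num [Nat.factorial]
    rw [h2, div_le_iff₀ (by norm_num)] at this
    linarith
  have h2 : Real.exp (1 + y) * Real.exp (-(y ^ 2 / 2)) ≤ Real.exp 2 := by
    rw [← Real.exp_add]
    apply Real.exp_le_exp.mpr
    nlinarith [sq_nonneg (y - 1)]
  have h3 : Real.exp 2 ≤ 8 := by
    have := Real.exp_one_lt_d9
    have h4 : Real.exp 2 = Real.exp 1 * Real.exp 1 := by rw [← Real.exp_add]; norm_num
    rw [h4]
    have := Real.exp_pos 1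
    nlinarith
  calc (1 + y) ^ 3 * Real.exp (-(y ^ 2 / 2))
      ≤ 6 * Real.exp (1 + y) * Real.exp (-(y ^ 2 / 2)) :=
        mul_le_mul_of_nonneg_right h1 (Real.exp_pos _).le
    _ = 6 * (Real.exp (1 + y) * Real.exp (-(y ^ 2 / 2))) := by ring
    _ ≤ 6 * 8 := by linarith
    _ ≤ 80 := by norm_num

theorem p01_exp2 (y : ℝ) (hy : 0 ≤ y) :
    (1 + y ^ 2 * Real.exp y) * (1 + y) ^ 2 * Real.exp (-(y ^ 2 / 2)) ≤ 2000 := by
  have h1 : (1 + y) ^ 4 ≤ 24 * Real.exp (1 + y) := by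
    have := Real.pow_div_factorial_le_exp (1 + y) (by linarith) 4
    have h2 : (Nat.factorial 4 : ℝ) = 24 := by norm_num [Nat.factorial]
    rw [h2, div_le_iff₀ (by norm_num)] at this
    linarith
  have he : 1 ≤ Real.exp y := Real.one_le_exp hy
  have h0 : (1 + y ^ 2 * Real.exp y) ≤ (1 + y) ^ 2 * Real.exp y := by nlinarith
  have h2 : Real.exp (1 + y) * Real.exp y * Real.exp (-(y ^ 2 / 2)) ≤ Real.exp 3 := by
    rw [← Real.exp_add, ← Real.exp_add]
    apply Real.exp_le_exp.mpr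
    nlinarith [sq_nonneg (y - 2)]
  have h3 : Real.exp 3 ≤ 27 := by
    have h4 : Real.exp 3 = Real.exp 1 ^ 3 := by rw [← Real.exp_nat_mul]; norm_num
    rw [h4]
    have := Real.exp_one_lt_d9
    have h5 := Real.exp_pos 1
    calc Real.exp 1 ^ 3 ≤ (3 : ℝ) ^ 3 := pow_le_pow_left₀ h5.le (by linarith) 3
      _ = 27 := by norm_num
  have hE := Real.exp_pos (-(y ^ 2 / 2))
  calc (1 + y ^ 2 * Real.exp y) * (1 + y) ^ 2 * Real.exp (-(y ^ 2 / 2))
      ≤ ((1 + y) ^ 2 * Real.exp y) * (1 + y) ^ 2 * Real.exp (-(y ^ 2 / 2)) := by gcongr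
    _ = (1 + y) ^ 4 * (Real.exp y * Real.exp (-(y ^ 2 / 2))) := by ring
    _ ≤ (24 * Real.exp (1 + y)) * (Real.exp y * Real.exp (-(y ^ 2 / 2))) := by gcongr
    _ = 24 * (Real.exp (1 + y) * Real.exp y * Real.exp (-(y ^ 2 / 2))) := by ring
    _ ≤ 24 * 27 := by linarith
    _ ≤ 2000 := by norm_num

/-- sum of `1 / (1 + |m| / H) ^ 2` -/
theorem p01_nat (H : ℝ) (hH : 1 ≤ H) (M : ℕ) :
    ∑ m ∈ Icc 1 M, 1 / (1 + (m : ℝ) / H) ^ 2 ≤ H := by
  have h : ∀ M : ℕ, ∑ m ∈ Icc 1 M, 1 / (1 + (m : ℝ) / H) ^ 2 ≤ H - H ^ 2 / (H + M) := by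
    intro M
    induction M with
    | zero =>
      simp only [Nat.lt_one_iff, Finset.Icc_eq_empty_of_lt, Finset.sum_empty, Nat.cast_zero,
        add_zero]
      have : H ^ 2 / H = H := by field_simp
      rw [this, sub_self]
    | succ M ih =>
      rw [Finset.sum_Icc_succ_top (by omega)]
      have hM : (0 : ℝ) ≤ M := Nat.cast_nonneg M
      have h1 : 1 / (1 + ((M + 1 : ℕ) : ℝ) / H) ^ 2 ≤ H ^ 2 / (H + M) - H ^ 2 / (H + (M + 1 : ℕ)) := by
        push_cast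
        have e1 : 1 / (1 + ((M : ℝ) + 1) / H) ^ 2 = H ^ 2 / (H + (M + 1)) ^ 2 := by
          field_simp
        rw [e1]
        have e2 : H ^ 2 / (H + M) - H ^ 2 / (H + (M + 1)) = H ^ 2 / ((H + M) * (H + (M + 1))) := by
          field_simp
          ring
        rw [e2]
        apply div_le_div_of_nonneg_left (by positivity) (by positivity)
        nlinarith
      linarith
  have h1 := h M
  have h2 : 0 ≤ H ^ 2 / (H + M) := by positivity
  linarith

theorem p01_sum (H : ℝ) (hH : 1 ≤ H) (M : ℕ) :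
    ∑ m ∈ Icc (-(M : ℤ)) M, 1 / (1 + |(m : ℝ)| / H) ^ 2 ≤ 3 * H := by
  have h : ∀ M : ℕ, ∑ m ∈ Icc (-(M : ℤ)) M, 1 / (1 + |(m : ℝ)| / H) ^ 2 =
      1 + 2 * ∑ m ∈ Icc 1 M, 1 / (1 + (m : ℝ) / H) ^ 2 := by
    intro M
    induction M with
    | zero => simp
    | succ M ih =>
      rw [Finset.sum_Icc_succ_top (by omega)]
      have e1 : Icc (-((M + 1 : ℕ) : ℤ)) ((M + 1 : ℕ) : ℤ) =
          insert (-((M + 1 : ℕ) : ℤ)) (insert ((M + 1 : ℕ) : ℤ) (Icc (-(M : ℤ)) M)) := by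
        ext x
        simp only [Finset.mem_Icc, Finset.mem_insert]
        omega
      rw [e1, Finset.sum_insert, Finset.sum_insert, ih]
      · have a1 : |(((-((M + 1 : ℕ) : ℤ)) : ℤ) : ℝ)| = ((M + 1 : ℕ) : ℝ) := by
          push_cast
          rw [abs_neg, abs_of_nonneg (by positivity)]
        have a2 : |((((M + 1 : ℕ) : ℤ)) : ℝ)| = ((M + 1 : ℕ) : ℝ) := by
          push_cast
          rw [abs_of_nonneg (by positivity)]
        rw [a1, a2]
        ring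
      · simp only [Finset.mem_Icc]
        omega
      · simp only [Finset.mem_Icc, Finset.mem_insert]
        omega
  rw [h M]
  have := p01_nat H hH M
  linarith

/-! ## The Gaussian -/

/-- the Gaussian of width `H` -/
noncomputable def p01_g (H : ℝ) (m : ℤ) : ℝ := Real.exp (-((m : ℝ) ^ 2 / (2 * H ^ 2)))

theorem p01_g_pos (H : ℝ) (m : ℤ) : 0 < p01_g H m := Real.exp_pos _

theorem p01_g_neg (H : ℝ) (m : ℤ) : p01_g H (-m) = p01_g H m := by
  unfold p01_g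
  push_cast
  rw [neg_sq]

theorem p01_g_eq {H : ℝ} (hH : 1 ≤ H) (m : ℤ) :
    p01_g H m = Real.exp (-((|(m : ℝ)| / H) ^ 2 / 2)) := by
  unfold p01_g
  congr 2
  rw [div_pow, sq_abs]
  field_simp

theorem p01_low {H : ℝ} (hH : 1 ≤ H) {M : ℕ} (hM : ⌊H⌋₊ ≤ M) :
    H / 2 ≤ ∑ m ∈ Icc (-(M : ℤ)) M, p01_g H m := by
  have h1 : ∑ m ∈ Icc (0 : ℤ) ⌊H⌋₊, p01_g H m ≤ ∑ m ∈ Icc (-(M : ℤ)) M, p01_g H m := by
    apply Finset.sum_le_sum_of_subset_of_nonneg
    · intro x hx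
      rw [Finset.mem_Icc] at hx ⊢
      omega
    · intro x _ _
      exact (p01_g_pos H x).le
  have h2 : ∑ m ∈ Icc (0 : ℤ) ⌊H⌋₊, (1 / 2 : ℝ) ≤ ∑ m ∈ Icc (0 : ℤ) ⌊H⌋₊, p01_g H m := by
    apply Finset.sum_le_sum
    intro m hm
    rw [Finset.mem_Icc] at hm
    have hm0 : (0 : ℝ) ≤ m := by exact_mod_cast hm.1
    have hm1 : (m : ℝ) ≤ H := by
      have h3 : (m : ℝ) ≤ ((⌊H⌋₊ : ℤ) : ℝ) := by exact_mod_cast hm.2
      have h4 := Nat.floor_le (by linarith : 0 ≤ H)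
      push_cast at h3
      linarith
    unfold p01_g
    have h5 : (m : ℝ) ^ 2 / (2 * H ^ 2) ≤ 1 / 2 := by
      rw [div_le_div_iff₀ (by positivity) (by norm_num)]
      nlinarith
    have h6 := Real.add_one_le_exp (-((m : ℝ) ^ 2 / (2 * H ^ 2)))
    linarith
  rw [Finset.sum_const, Int.card_Icc, nsmul_eq_mul] at h2
  have h7 := Nat.lt_floor_add_one H
  have h8 : (((⌊H⌋₊ : ℤ) + 1 - 0).toNat : ℝ) = (⌊H⌋₊ : ℝ) + 1 := by
    have : ((⌊H⌋₊ : ℤ) + 1 - 0).toNat = ⌊H⌋₊ + 1 := by omega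
    rw [this]
    push_cast
    ring
  rw [h8] at h2
  linarith

theorem p01_first {H : ℝ} (hH : 1 ≤ H) (M : ℕ) :
    ∑ m ∈ Icc (-(M : ℤ)) M, |(m : ℝ)| * p01_g H m ≤ 240 * H ^ 2 := by
  have h1 : ∀ m : ℤ, |(m : ℝ)| * p01_g H m ≤ 80 * H * (1 / (1 + |(m : ℝ)| / H) ^ 2) := by
    intro m
    rw [p01_g_eq hH]
    set y : ℝ := |(m : ℝ)| / H with hy
    have hy0 : 0 ≤ y := by positivity
    have e1 : |(m : ℝ)| = H * y := by
      rw [hy]
      field_simp
    rw [e1]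
    have h2 := p01_exp y hy0
    have h3 : y * Real.exp (-(y ^ 2 / 2)) ≤ 80 * (1 / (1 + y) ^ 2) := by
      rw [mul_one_div, le_div_iff₀ (by positivity)]
      have hE := Real.exp_pos (-(y ^ 2 / 2))
      calc y * Real.exp (-(y ^ 2 / 2)) * (1 + y) ^ 2
          ≤ (1 + y) * Real.exp (-(y ^ 2 / 2)) * (1 + y) ^ 2 := by gcongr; linarith
        _ = (1 + y) ^ 3 * Real.exp (-(y ^ 2 / 2)) := by ring
        _ ≤ 80 := h2
    calc H * y * Real.exp (-(y ^ 2 / 2)) = H * (y * Real.exp (-(y ^ 2 / 2))) := by ring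
      _ ≤ H * (80 * (1 / (1 + y) ^ 2)) := mul_le_mul_of_nonneg_left h3 (by linarith)
      _ = 80 * H * (1 / (1 + y) ^ 2) := by ring
  calc ∑ m ∈ Icc (-(M : ℤ)) M, |(m : ℝ)| * p01_g H m
      ≤ ∑ m ∈ Icc (-(M : ℤ)) M, 80 * H * (1 / (1 + |(m : ℝ)| / H) ^ 2) :=
        Finset.sum_le_sum fun m _ => h1 m
    _ = 80 * H * ∑ m ∈ Icc (-(M : ℤ)) M, (1 / (1 + |(m : ℝ)| / H) ^ 2) := by
        rw [Finset.mul_sum]
    _ ≤ 80 * H * (3 * H) := mul_le_mul_of_nonneg_left (p01_sum H hH M) (by positivity)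
    _ = 240 * H ^ 2 := by ring

theorem p01_cosh (t : ℝ) : Real.cosh t - 1 ≤ t ^ 2 / 2 * Real.exp |t| := by
  have h1 : Real.cosh t ≤ Real.exp (t ^ 2 / 2) := Real.cosh_le_exp_half_sq t
  rw [← Real.cosh_abs]
  -- use the series bound by the derivative: `cosh t - 1 = 2 sinh (t/2) ^ 2`
  have h2 : Real.cosh |t| - 1 = 2 * Real.sinh (|t| / 2) ^ 2 := by
    have := Real.cosh_sq (|t| / 2)
    have h3 := Real.cosh_two_mul (|t| / 2)
    rw [show 2 * (|t| / 2) = |t| by ring] at h3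
    rw [h3, this]
    ring
  have h3 : 0 ≤ Real.sinh (|t| / 2) := Real.sinh_nonneg_iff.mpr (by positivity)
  have h4 : Real.sinh (|t| / 2) ≤ |t| / 2 * Real.exp (|t| / 2) := by
    -- `sinh y ≤ y e ^ y`: `1 - e ^ (-2y) ≤ 2y`
    have h5 := Real.add_one_le_exp (-|t|)
    rw [Real.sinh_eq]
    have h6 : Real.exp (-(|t| / 2)) = Real.exp (|t| / 2) * Real.exp (-|t|) := by
      rw [← Real.exp_add]
      congr 1
      ring
    rw [h6]
    have h7 := Real.exp_pos (|t| / 2)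
    nlinarith
  have h5 : Real.sinh (|t| / 2) ^ 2 ≤ (|t| / 2 * Real.exp (|t| / 2)) ^ 2 :=
    pow_le_pow_left₀ h3 h4 2
  have h6 : (|t| / 2 * Real.exp (|t| / 2)) ^ 2 = t ^ 2 / 4 * Real.exp |t| := by
    rw [mul_pow, ← Real.exp_nat_mul, div_pow, sq_abs]
    congr 2
    · norm_num
    · push_cast
      ring
  rw [h2]
  linarith

theorem p01_diff {H : ℝ} (hH : 1 ≤ H) (m : ℤ) :
    |p01_g H (m + 1) + p01_g H (m - 1) - 2 * p01_g H m| ≤
      4000 / H ^ 2 * (1 / (1 + |(m : ℝ)| / H) ^ 2) := by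
  set y : ℝ := |(m : ℝ)| / H with hy
  have hy0 : 0 ≤ y := by positivity
  have hH0 : (0 : ℝ) < H := by linarith
  have e1 : p01_g H (m + 1) + p01_g H (m - 1) - 2 * p01_g H m =
      p01_g H m * (2 * (Real.exp (-(1 / (2 * H ^ 2))) * (Real.cosh ((m : ℝ) / H ^ 2) - 1)) -
        2 * (1 - Real.exp (-(1 / (2 * H ^ 2))))) := by
    have a1 : p01_g H (m + 1) =
        p01_g H m * Real.exp (-(1 / (2 * H ^ 2))) * Real.exp (-((m : ℝ) / H ^ 2)) := by
      unfold p01_g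
      rw [← Real.exp_add, ← Real.exp_add]
      congr 1
      push_cast
      field_simp
      ring
    have a2 : p01_g H (m - 1) =
        p01_g H m * Real.exp (-(1 / (2 * H ^ 2))) * Real.exp ((m : ℝ) / H ^ 2) := by
      unfold p01_g
      rw [← Real.exp_add, ← Real.exp_add]
      congr 1
      push_cast
      field_simp
      ring
    rw [a1, a2, Real.cosh_eq]
    ring
  have h1 : 1 - Real.exp (-(1 / (2 * H ^ 2))) ≤ 1 / (2 * H ^ 2) := by
    have := Real.add_one_le_exp (-(1 / (2 * H ^ 2)))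
    linarith
  have h1' : 0 ≤ 1 - Real.exp (-(1 / (2 * H ^ 2))) := by
    have : Real.exp (-(1 / (2 * H ^ 2))) ≤ 1 := Real.exp_le_one_iff.mpr (by
      rw [neg_nonpos]; positivity)
    linarith
  have h2 : Real.cosh ((m : ℝ) / H ^ 2) - 1 ≤ y ^ 2 / (2 * H ^ 2) * Real.exp y := by
    have h3 := p01_cosh ((m : ℝ) / H ^ 2)
    have h4 : ((m : ℝ) / H ^ 2) ^ 2 / 2 = y ^ 2 / (2 * H ^ 2) := by
      rw [hy, div_pow, div_pow, sq_abs]
      field_simp
    have h5 : |(m : ℝ) / H ^ 2| ≤ y := by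
      rw [abs_div, hy, abs_of_nonneg (by positivity : 0 ≤ H ^ 2)]
      apply div_le_div_of_nonneg_left (abs_nonneg _) hH0
      nlinarith
    rw [h4] at h3
    refine h3.trans (mul_le_mul_of_nonneg_left (Real.exp_le_exp.mpr h5) (by positivity))
  have h2' : 0 ≤ Real.cosh ((m : ℝ) / H ^ 2) - 1 := by
    have := Real.one_le_cosh ((m : ℝ) / H ^ 2)
    linarith
  have h3 : Real.exp (-(1 / (2 * H ^ 2))) * (Real.cosh ((m : ℝ) / H ^ 2) - 1) ≤
      y ^ 2 / (2 * H ^ 2) * Real.exp y := by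
    have : Real.exp (-(1 / (2 * H ^ 2))) ≤ 1 := by linarith
    calc Real.exp (-(1 / (2 * H ^ 2))) * (Real.cosh ((m : ℝ) / H ^ 2) - 1)
        ≤ 1 * (Real.cosh ((m : ℝ) / H ^ 2) - 1) := mul_le_mul_of_nonneg_right this h2'
      _ ≤ _ := by rw [one_mul]; exact h2
  have h3' : 0 ≤ Real.exp (-(1 / (2 * H ^ 2))) * (Real.cosh ((m : ℝ) / H ^ 2) - 1) :=
    mul_nonneg (Real.exp_pos _).le h2'
  have h4 : |2 * (Real.exp (-(1 / (2 * H ^ 2))) * (Real.cosh ((m : ℝ) / H ^ 2) - 1)) -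
        2 * (1 - Real.exp (-(1 / (2 * H ^ 2))))| ≤ 1 / H ^ 2 * (1 + y ^ 2 * Real.exp y) := by
    have a1 : 2 * (y ^ 2 / (2 * H ^ 2) * Real.exp y) = 1 / H ^ 2 * (y ^ 2 * Real.exp y) := by
      field_simp
    have a2 : 2 * (1 / (2 * H ^ 2)) = 1 / H ^ 2 := by field_simp
    have a3 : 0 ≤ 1 / H ^ 2 * (y ^ 2 * Real.exp y) := by positivity
    have a4 : 0 ≤ 1 / H ^ 2 := by positivity
    rw [abs_le]
    constructor
    · nlinarith
    · nlinarith
  rw [e1, abs_mul, abs_of_pos (p01_g_pos H m), p01_g_eq hH, ← hy]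
  have h5 := p01_exp2 y hy0
  have hE := Real.exp_pos (-(y ^ 2 / 2))
  have h6 : Real.exp (-(y ^ 2 / 2)) * (1 + y ^ 2 * Real.exp y) ≤ 2000 * (1 / (1 + y) ^ 2) := by
    rw [mul_one_div, le_div_iff₀ (by positivity)]
    linarith
  calc Real.exp (-(y ^ 2 / 2)) *
        |2 * (Real.exp (-(1 / (2 * H ^ 2))) * (Real.cosh ((m : ℝ) / H ^ 2) - 1)) -
          2 * (1 - Real.exp (-(1 / (2 * H ^ 2))))|
      ≤ Real.exp (-(y ^ 2 / 2)) * (1 / H ^ 2 * (1 + y ^ 2 * Real.exp y)) :=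
        mul_le_mul_of_nonneg_left h4 hE.le
    _ = 1 / H ^ 2 * (Real.exp (-(y ^ 2 / 2)) * (1 + y ^ 2 * Real.exp y)) := by ring
    _ ≤ 1 / H ^ 2 * (2000 * (1 / (1 + y) ^ 2)) := mul_le_mul_of_nonneg_left h6 (by positivity)
    _ = 2000 / H ^ 2 * (1 / (1 + y) ^ 2) := by ring
    _ ≤ 4000 / H ^ 2 * (1 / (1 + y) ^ 2) := by gcongr; norm_num

/-! ## The window, abstractly -/

/-- the window of half length `M` and width `H` -/
noncomputable def p01_v (H : ℝ) (M : ℕ) (m : ℤ) : ℝ :=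
  if m ∈ Icc (-(M : ℤ)) M then p01_g H m / ∑ j ∈ Icc (-(M : ℤ)) M, p01_g H j else 0

theorem p01_v_nonneg (H : ℝ) (M : ℕ) (m : ℤ) : 0 ≤ p01_v H M m := by
  unfold p01_v
  split_ifs
  · exact div_nonneg (p01_g_pos H m).le (Finset.sum_nonneg fun j _ => (p01_g_pos H j).le)
  · exact le_refl _

theorem p01_v_neg (H : ℝ) (M : ℕ) (m : ℤ) : p01_v H M (-m) = p01_v H M m := by
  unfold p01_v
  rw [p01_g_neg]
  congr 1
  simp only [Finset.mem_Icc, eq_iff_iff]
  constructor <;> intro h <;> omega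

theorem p01_v_sum {H : ℝ} (M : ℕ) : ∑ m ∈ Icc (-(M : ℤ)) M, p01_v H M m = 1 := by
  have hS : 0 < ∑ j ∈ Icc (-(M : ℤ)) M, p01_g H j := by
    apply Finset.sum_pos fun j _ => p01_g_pos H j
    exact ⟨0, by rw [Finset.mem_Icc]; omega⟩
  have h1 : ∑ m ∈ Icc (-(M : ℤ)) M, p01_v H M m =
      ∑ m ∈ Icc (-(M : ℤ)) M, p01_g H m / ∑ j ∈ Icc (-(M : ℤ)) M, p01_g H j :=
    Finset.sum_congr rfl fun m hm => if_pos hm
  rw [h1, ← Finset.sum_div, div_self hS.ne']

theorem p01_cos (b : ℝ) (m : ℤ) :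
    Real.cos (2 * Real.pi * (m * b)) = Real.cos (2 * Real.pi * (m * (b - round b))) := by
  have h : 2 * Real.pi * (m * b) =
      2 * Real.pi * (m * (b - round b)) + ((m * round b : ℤ) : ℝ) * (2 * Real.pi) := by
    push_cast
    ring
  rw [h, Real.cos_add_int_mul_two_pi]

theorem p01_one_sub_cos (t : ℝ) : |1 - Real.cos t| ≤ |t| := by
  rw [abs_of_nonneg (by have := Real.cos_le_one t; linarith)]
  by_cases h : |t| ≤ 2
  · have h1 := Real.one_sub_sq_div_two_le_cos (x := t)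
    have h2 : t ^ 2 = |t| ^ 2 := (sq_abs t).symm
    have h3 := abs_nonneg t
    nlinarith
  · have := Real.neg_one_le_cos t
    linarith

theorem p01_four {H : ℝ} (hH : 1 ≤ H) {M : ℕ} (hM : ⌊H⌋₊ ≤ M) (b : ℝ) :
    |1 - ∑ m ∈ Icc (-(M : ℤ)) M, p01_v H M m * Real.cos (2 * Real.pi * (m * b))| ≤
      3100 * (H * nn b) := by
  have hS := p01_low hH hM
  have hS0 : 0 < ∑ j ∈ Icc (-(M : ℤ)) M, p01_g H j := by linarith
  have h1 : 1 - ∑ m ∈ Icc (-(M : ℤ)) M, p01_v H M m * Real.cos (2 * Real.pi * (m * b)) =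
      ∑ m ∈ Icc (-(M : ℤ)) M, p01_v H M m * (1 - Real.cos (2 * Real.pi * (m * b))) := by
    conv_lhs => rw [← p01_v_sum (H := H) M]
    rw [← Finset.sum_sub_distrib]
    exact Finset.sum_congr rfl fun m _ => by ring
  rw [h1]
  refine (Finset.abs_sum_le_sum_abs _ _).trans ?_
  have hnn : 0 ≤ nn b := abs_nonneg _
  have h2 : ∀ m ∈ Icc (-(M : ℤ)) M,
      |p01_v H M m * (1 - Real.cos (2 * Real.pi * (m * b)))| ≤
        (2 * Real.pi * nn b / ∑ j ∈ Icc (-(M : ℤ)) M, p01_g H j) * (|(m : ℝ)| * p01_g H m) := by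
    intro m hm
    rw [abs_mul, abs_of_nonneg (p01_v_nonneg H M m), p01_cos]
    have h3 := p01_one_sub_cos (2 * Real.pi * (m * (b - round b)))
    have h4 : |2 * Real.pi * (m * (b - round b))| = 2 * Real.pi * (|(m : ℝ)| * nn b) := by
      rw [abs_mul, abs_mul (m : ℝ), abs_of_nonneg (by positivity : 0 ≤ 2 * Real.pi)]
      rfl
    rw [h4] at h3
    have h5 : p01_v H M m = p01_g H m / ∑ j ∈ Icc (-(M : ℤ)) M, p01_g H j := if_pos hm
    rw [h5]
    calc p01_g H m / (∑ j ∈ Icc (-(M : ℤ)) M, p01_g H j) *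
          |1 - Real.cos (2 * Real.pi * (m * (b - round b)))|
        ≤ p01_g H m / (∑ j ∈ Icc (-(M : ℤ)) M, p01_g H j) *
          (2 * Real.pi * (|(m : ℝ)| * nn b)) :=
          mul_le_mul_of_nonneg_left h3 (div_nonneg (p01_g_pos H m).le hS0.le)
      _ = _ := by ring
  refine (Finset.sum_le_sum h2).trans ?_
  rw [← Finset.mul_sum]
  have h3 := p01_first hH M
  have hpi := Real.pi_lt_d2
  have h4 : 2 * Real.pi * nn b / (∑ j ∈ Icc (-(M : ℤ)) M, p01_g H j) ≤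
      2 * Real.pi * nn b / (H / 2) :=
    div_le_div_of_nonneg_left (by positivity) (by linarith) hS
  calc 2 * Real.pi * nn b / (∑ j ∈ Icc (-(M : ℤ)) M, p01_g H j) *
        ∑ m ∈ Icc (-(M : ℤ)) M, |(m : ℝ)| * p01_g H m
      ≤ 2 * Real.pi * nn b / (H / 2) * (240 * H ^ 2) := by
        apply mul_le_mul h4 h3
        · exact Finset.sum_nonneg fun m _ => mul_nonneg (abs_nonneg _) (p01_g_pos H m).le
        · positivity
    _ = (960 * Real.pi) * (H * nn b) := by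
        field_simp
        ring
    _ ≤ 3100 * (H * nn b) := by
        apply mul_le_mul_of_nonneg_right _ (by positivity)
        linarith

theorem p01_shift (v c : ℤ → ℝ) (M : ℕ) (hv : ∀ m, m ∉ Icc (-(M : ℤ)) M → v m = 0) (k : ℤ)
    (hk : |k| ≤ 1) :
    ∑ m ∈ Icc (-((M : ℤ) + 1)) ((M : ℤ) + 1), v (m + k) * c m =
      ∑ m ∈ Icc (-((M : ℤ) + 1)) ((M : ℤ) + 1), v m * c (m - k) := by
  have hk' := abs_le.mp hk
  have h1 : ∑' m : ℤ, v (m + k) * c m = ∑ m ∈ Icc (-((M : ℤ) + 1)) ((M : ℤ) + 1), v (m + k) * c m := by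
    apply tsum_eq_sum
    intro m hm
    rw [hv, zero_mul]
    rw [Finset.mem_Icc] at hm ⊢
    omega
  have h2 : ∑' m : ℤ, v m * c (m - k) = ∑ m ∈ Icc (-((M : ℤ) + 1)) ((M : ℤ) + 1), v m * c (m - k) := by
    apply tsum_eq_sum
    intro m hm
    rw [hv, zero_mul]
    rw [Finset.mem_Icc] at hm ⊢
    omega
  rw [← h1, ← h2, ← (Equiv.addRight k).tsum_eq (fun m => v m * c (m - k))]
  refine tsum_congr fun m => ?_
  rw [Equiv.coe_addRight, add_sub_cancel_right]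

theorem p01_ident (v : ℤ → ℝ) (M : ℕ) (hv : ∀ m, m ∉ Icc (-(M : ℤ)) M → v m = 0) (b : ℝ) :
    ∑ m ∈ Icc (-((M : ℤ) + 1)) ((M : ℤ) + 1), (v (m + 1) + v (m - 1) - 2 * v m) *
        Real.cos (2 * Real.pi * (m * b)) =
      -((2 - 2 * Real.cos (2 * Real.pi * b)) *
        ∑ m ∈ Icc (-(M : ℤ)) M, v m * Real.cos (2 * Real.pi * (m * b))) := by
  have h0 : ∑ m ∈ Icc (-(M : ℤ)) M, v m * Real.cos (2 * Real.pi * (m * b)) =
      ∑ m ∈ Icc (-((M : ℤ) + 1)) ((M : ℤ) + 1), v m * Real.cos (2 * Real.pi * (m * b)) := by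
    apply Finset.sum_subset
    · intro x hx
      rw [Finset.mem_Icc] at hx ⊢
      omega
    · intro x _ hx
      rw [hv x hx, zero_mul]
  rw [h0]
  have h1 := p01_shift v (fun m => Real.cos (2 * Real.pi * (m * b))) M hv 1 (by norm_num)
  have h2 := p01_shift v (fun m => Real.cos (2 * Real.pi * (m * b))) M hv (-1) (by norm_num)
  have e1 : ∑ m ∈ Icc (-((M : ℤ) + 1)) ((M : ℤ) + 1), (v (m + 1) + v (m - 1) - 2 * v m) *
        Real.cos (2 * Real.pi * (m * b)) =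
      ∑ m ∈ Icc (-((M : ℤ) + 1)) ((M : ℤ) + 1), v (m + 1) * Real.cos (2 * Real.pi * (m * b)) +
      ∑ m ∈ Icc (-((M : ℤ) + 1)) ((M : ℤ) + 1), v (m + -1) * Real.cos (2 * Real.pi * (m * b)) -
      2 * ∑ m ∈ Icc (-((M : ℤ) + 1)) ((M : ℤ) + 1), v m * Real.cos (2 * Real.pi * (m * b)) := by
    rw [Finset.mul_sum, ← Finset.sum_add_distrib, ← Finset.sum_sub_distrib]
    refine Finset.sum_congr rfl fun m _ => ?_
    rw [← sub_eq_add_neg]
    ring
  rw [e1, h1, h2, Finset.mul_sum, ← Finset.sum_add_distrib, ← Finset.sum_sub_distrib,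
    Finset.mul_sum, ← Finset.sum_neg_distrib]
  refine Finset.sum_congr rfl fun m _ => ?_
  have a1 : 2 * Real.pi * (((m - 1 : ℤ) : ℝ) * b) = 2 * Real.pi * (m * b) - 2 * Real.pi * b := by
    push_cast
    ring
  have a2 : 2 * Real.pi * (((m - -1 : ℤ) : ℝ) * b) = 2 * Real.pi * (m * b) + 2 * Real.pi * b := by
    push_cast
    ring
  rw [a1, a2, Real.cos_add, Real.cos_sub]
  ring

theorem p01_five {H L : ℝ} (hH : 1 ≤ H) (hL : 2 ≤ L) (hHL : H ≤ Real.exp L) {M : ℕ}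
    (hM : M = ⌊H * L⌋₊) (b : ℝ) :
    |∑ m ∈ Icc (-(M : ℤ)) M, p01_v H M m * Real.cos (2 * Real.pi * (m * b))| * (H * nn b) ^ 2 ≤
      3100 := by
  have hMH : ⌊H⌋₊ ≤ M := by
    rw [hM]
    apply Nat.floor_mono
    nlinarith
  have hS := p01_low hH hMH
  set S : ℝ := ∑ j ∈ Icc (-(M : ℤ)) M, p01_g H j with hSdef
  have hS0 : 0 < S := by linarith
  have hH0 : 0 < H := by linarith
  have hML : H * L < M + 1 := by
    rw [hM]
    exact Nat.lt_floor_add_one _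
  -- the values near the end
  have hM1 : (1 : ℝ) ≤ M := by
    have h1 : 1 ≤ ⌊H⌋₊ := Nat.le_floor (by exact_mod_cast hH)
    exact_mod_cast h1.trans hMH
  have hend : ∀ m : ℤ, (M : ℤ) - 1 ≤ |m| → p01_g H m ≤ 13 / H := by
    intro m hm
    rw [p01_g_eq hH]
    have hm' : (M : ℝ) - 1 ≤ |(m : ℝ)| := by exact_mod_cast hm
    have h1 : L - 2 ≤ |(m : ℝ)| / H := by
      rw [le_div_iff₀ hH0]
      nlinarith
    have h2 : (L - 2) ^ 2 ≤ (|(m : ℝ)| / H) ^ 2 := pow_le_pow_left₀ (by linarith) h1 2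
    have h3 : Real.exp (-((|(m : ℝ)| / H) ^ 2 / 2)) ≤ Real.exp (5 / 2 - L) := by
      apply Real.exp_le_exp.mpr
      nlinarith [sq_nonneg (L - 3)]
    have h4 : Real.exp (5 / 2) ≤ 13 := by
      have h5 : Real.exp (5 / 2) ^ 2 = Real.exp 1 ^ 5 := by
        rw [← Real.exp_nat_mul, ← Real.exp_nat_mul]
        norm_num
      have h6 := Real.exp_one_lt_d9
      have h7 := Real.exp_pos 1
      have h8 : Real.exp 1 ^ 5 ≤ 2.7182818286 ^ 5 := pow_le_pow_left₀ h7.le h6.le 5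
      have h9 : (2.7182818286 : ℝ) ^ 5 ≤ 13 ^ 2 := by norm_num
      have h10 : Real.exp (5 / 2) ^ 2 ≤ 13 ^ 2 := by
        rw [h5]
        exact h8.trans h9
      exact le_of_sq_le_sq h10 (by norm_num)
    calc Real.exp (-((|(m : ℝ)| / H) ^ 2 / 2)) ≤ Real.exp (5 / 2 - L) := h3
      _ = Real.exp (5 / 2) / Real.exp L := Real.exp_sub _ _
      _ ≤ 13 / H := by
          apply div_le_div₀ (by norm_num) h4 hH0 hHL
  -- the second differences
  have hv : ∀ m, m ∉ Icc (-(M : ℤ)) M → p01_v H M m = 0 := fun m hm => if_neg hm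
  have hv1 : ∀ m ∈ Icc (-(M : ℤ)) M, p01_v H M m = p01_g H m / S := fun m hm => if_pos hm
  have hve : ∀ m : ℤ, (M : ℤ) - 1 ≤ |m| → p01_v H M m ≤ 13 / H / S := by
    intro m hm
    by_cases hmI : m ∈ Icc (-(M : ℤ)) M
    · rw [hv1 m hmI]
      exact div_le_div_of_nonneg_right (hend m hm) hS0.le
    · rw [hv m hmI]
      positivity
  have hD : ∀ m ∈ Icc (-((M : ℤ) + 1)) ((M : ℤ) + 1),
      |p01_v H M (m + 1) + p01_v H M (m - 1) - 2 * p01_v H M m| ≤
        (4000 / H ^ 2 * (1 / (1 + |(m : ℝ)| / H) ^ 2)) / S +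
          (if (M : ℤ) ≤ |m| then 26 / H / S else 0) := by
    intro m hm
    by_cases hmM : (M : ℤ) ≤ |m|
    · rw [if_pos hmM]
      have h1 : p01_v H M (m + 1) ≤ 13 / H / S := hve _ (by
        rcases abs_cases m with h | h <;> rcases abs_cases (m + 1) with h' | h' <;> omega)
      have h2 : p01_v H M (m - 1) ≤ 13 / H / S := hve _ (by
        rcases abs_cases m with h | h <;> rcases abs_cases (m - 1) with h' | h' <;> omega)
      have h3 : p01_v H M m ≤ 13 / H / S := hve _ (by omega)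
      have h4 := p01_v_nonneg H M (m + 1)
      have h5 := p01_v_nonneg H M (m - 1)
      have h6 := p01_v_nonneg H M m
      have h7 : 0 ≤ (4000 / H ^ 2 * (1 / (1 + |(m : ℝ)| / H) ^ 2)) / S := by positivity
      have h8 : 26 / H / S = 2 * (13 / H / S) := by ring
      rw [h8, abs_le]
      constructor <;> linarith
    · rw [if_neg hmM, add_zero]
      push Not at hmM
      have hmM' := abs_lt.mp hmM
      rw [hv1 (m + 1) (by rw [Finset.mem_Icc]; omega), hv1 (m - 1) (by rw [Finset.mem_Icc]; omega),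
        hv1 m (by rw [Finset.mem_Icc]; omega)]
      have h1 : p01_g H (m + 1) / S + p01_g H (m - 1) / S - 2 * (p01_g H m / S) =
          (p01_g H (m + 1) + p01_g H (m - 1) - 2 * p01_g H m) / S := by ring
      rw [h1, abs_div, abs_of_pos hS0]
      exact div_le_div_of_nonneg_right (p01_diff hH m) hS0.le
  have hsumD : ∑ m ∈ Icc (-((M : ℤ) + 1)) ((M : ℤ) + 1),
      |p01_v H M (m + 1) + p01_v H M (m - 1) - 2 * p01_v H M m| ≤ 24416 / H ^ 2 := by
    refine (Finset.sum_le_sum hD).trans ?_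
    rw [Finset.sum_add_distrib, ← Finset.sum_div, ← Finset.mul_sum, ← Finset.sum_filter,
      Finset.sum_const, nsmul_eq_mul]
    have h1 := p01_sum H hH (M + 1)
    push_cast at h1
    have h2 : ((Icc (-((M : ℤ) + 1)) ((M : ℤ) + 1)).filter (fun m => (M : ℤ) ≤ |m|)).card ≤ 4 := by
      have h3 : (Icc (-((M : ℤ) + 1)) ((M : ℤ) + 1)).filter (fun m => (M : ℤ) ≤ |m|) ⊆
          {(M : ℤ), (M : ℤ) + 1, -(M : ℤ), -((M : ℤ) + 1)} := by
        intro x hx
        rw [Finset.mem_filter, Finset.mem_Icc] at hx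
        simp only [Finset.mem_insert, Finset.mem_singleton]
        rcases abs_cases x with h | h <;> omega
      exact (Finset.card_le_card h3).trans (Finset.card_le_four)
    have h3 : (((Icc (-((M : ℤ) + 1)) ((M : ℤ) + 1)).filter (fun m => (M : ℤ) ≤ |m|)).card : ℝ) ≤ 4 := by
      exact_mod_cast h2
    have h4 : 4000 / H ^ 2 * (∑ m ∈ Icc (-((M : ℤ) + 1)) ((M : ℤ) + 1),
        1 / (1 + |(m : ℝ)| / H) ^ 2) / S ≤ 4000 / H ^ 2 * (3 * H) / (H / 2) := by
      apply div_le_div₀ (by positivity) _ (by linarith) hS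
      exact mul_le_mul_of_nonneg_left h1 (by positivity)
    have h5 : (((Icc (-((M : ℤ) + 1)) ((M : ℤ) + 1)).filter (fun m => (M : ℤ) ≤ |m|)).card : ℝ) *
        (26 / H / S) ≤ 4 * (26 / H / (H / 2)) := by
      apply mul_le_mul h3 _ (by positivity) (by norm_num)
      exact div_le_div_of_nonneg_left (by positivity) (by linarith) hS
    have h6 : 4000 / H ^ 2 * (3 * H) / (H / 2) + 4 * (26 / H / (H / 2)) ≤ 24416 / H ^ 2 := by
      have e1 : 4000 / H ^ 2 * (3 * H) / (H / 2) + 4 * (26 / H / (H / 2)) = 24208 / H ^ 2 := by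
        field_simp
        ring
      rw [e1]
      gcongr
      norm_num
    linarith
  have hid := p01_ident (p01_v H M) M hv b
  set X : ℝ := ∑ m ∈ Icc (-(M : ℤ)) M, p01_v H M m * Real.cos (2 * Real.pi * (m * b)) with hX
  have h1 : |(2 - 2 * Real.cos (2 * Real.pi * b)) * X| ≤ 24416 / H ^ 2 := by
    rw [← abs_neg, ← hid]
    refine (Finset.abs_sum_le_sum_abs _ _).trans (le_trans (Finset.sum_le_sum fun m _ => ?_) hsumD)
    rw [abs_mul]
    have := Real.abs_cos_le_one (2 * Real.pi * (m * b))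
    exact mul_le_of_le_one_right (abs_nonneg _) this
  have h2 : 16 * nn b ^ 2 ≤ 2 - 2 * Real.cos (2 * Real.pi * b) := by
    have h3 := p01_cos b 1
    push_cast at h3
    rw [one_mul, one_mul] at h3
    rw [h3]
    have h4 : |b - round b| ≤ 1 / 2 := abs_sub_round b
    have hpi := Real.pi_pos
    have h5 : |2 * Real.pi * (b - round b)| ≤ Real.pi := by
      rw [abs_mul, abs_of_pos (by positivity)]
      nlinarith
    have h6 := Real.cos_le_one_sub_mul_cos_sq h5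
    have h7 : 2 / Real.pi ^ 2 * (2 * Real.pi * (b - round b)) ^ 2 = 8 * nn b ^ 2 := by
      unfold nn
      rw [sq_abs]
      field_simp
      ring
    rw [h7] at h6
    linarith
  have h3 : 0 ≤ nn b ^ 2 := sq_nonneg _
  rw [abs_mul, abs_of_nonneg (by linarith)] at h1
  have h4 : 16 * nn b ^ 2 * |X| ≤ 24416 / H ^ 2 :=
    (mul_le_mul_of_nonneg_right h2 (abs_nonneg _)).trans h1
  rw [le_div_iff₀ (by positivity)] at h4
  have h5 : |X| * (H * nn b) ^ 2 = (16 * nn b ^ 2 * |X| * H ^ 2) / 16 := by ring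
  rw [h5]
  linarith

theorem W01_pr : W01 := by
  refine ⟨3100, by norm_num, 10, fun K hK N hR => ?_⟩
  have hK10 : (10 : ℝ) ≤ K := by exact_mod_cast hR.hK
  have hN : (K : ℝ) ^ 400 ≤ N := by exact_mod_cast hR.hN
  have hH1 : 1 ≤ Hw N K := by
    unfold Hw
    rw [le_div_iff₀ (by positivity), one_mul]
    refine le_trans ?_ hN
    exact pow_le_pow_right₀ (by linarith) (by norm_num)
  have hNpos : (0 : ℝ) < N := lt_of_lt_of_le (by positivity) hN
  have hHN : Hw N K ≤ N := by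
    unfold Hw
    apply div_le_self hNpos.le
    exact one_le_pow₀ (by linarith)
  have hL : 2 ≤ Real.log N := by
    rw [Real.le_log_iff_exp_le hNpos]
    have h1 : Real.exp 2 ≤ 8 := by
      have := Real.exp_one_lt_d9
      have h4 : Real.exp 2 = Real.exp 1 * Real.exp 1 := by rw [← Real.exp_add]; norm_num
      rw [h4]
      have := Real.exp_pos 1
      nlinarith
    have h2 : (K : ℝ) ^ 1 ≤ (K : ℝ) ^ 400 := pow_le_pow_right₀ (by linarith) (by norm_num)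
    rw [pow_one] at h2
    linarith
  have hexp : Hw N K ≤ Real.exp (Real.log N) := by rw [Real.exp_log hNpos]; exact hHN
  have hMH : ⌊Hw N K⌋₊ ≤ Mw N K := by
    unfold Mw
    apply Nat.floor_mono
    nlinarith
  have hv : ∀ m, vw N K m = p01_v (Hw N K) (Mw N K) m := fun m => rfl
  refine ⟨fun m => ⟨p01_v_nonneg _ _ m, p01_v_neg _ _ m⟩, p01_v_sum (Mw N K), fun b => ?_,
    fun b => p01_four hH1 hMH b, fun b => p01_five hH1 hL hexp rfl b⟩
  have h1 : |vh N K b| ≤ ∑ m ∈ Icc (-(Mw N K : ℤ)) (Mw N K), p01_v (Hw N K) (Mw N K) m := by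
    unfold vh
    refine (Finset.abs_sum_le_sum_abs _ _).trans (Finset.sum_le_sum fun m _ => ?_)
    rw [abs_mul, hv, abs_of_nonneg (p01_v_nonneg _ _ m)]
    exact mul_le_of_le_one_right (p01_v_nonneg _ _ m) (Real.abs_cos_le_one _)
  rwa [p01_v_sum] at h1

end Pool.Agent.FGP
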