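import Pool.Agent.Lib_helper3.FGP.Wanted

/-!
# FGP, block P10: the pieces are trigonometric polynomials
-/

set_option autoImplicit false

namespace Pool.Agent.FGP

open Finset Pool.Agent.Var35 Pool.Agent.Var73 Pool.Agent.PV
open scoped ArithmeticFunction ArithmeticFunction.Moebius

theorem p10_single {A B k : ℤ} (hA : A ≤ k) (hB : k ≤ B) (c : ℂ) :
    TP A B (fun t => c * e (k * t)) := by
  refine ⟨fun n => if n = k then c else 0, fun t => ?_⟩
  dsimp only
  rw [sum_eq_single k]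
  · rw [if_pos rfl]
  · intro n _ hn
    rw [if_neg hn, zero_mul]
  · intro h
    exact absurd (mem_Icc.2 ⟨hA, hB⟩) h

theorem p10_add {A B : ℤ} {P Q : ℝ → ℂ} (hP : TP A B P) (hQ : TP A B Q) :
    TP A B (fun t => P t + Q t) := by
  obtain ⟨c, hc⟩ := hP
  obtain ⟨d, hd⟩ := hQ
  refine ⟨fun n => c n + d n, fun t => ?_⟩
  dsimp only
  rw [hc, hd, ← sum_add_distrib]
  exact sum_congr rfl fun n _ => by ring

theorem p10_zero (A B : ℤ) : TP A B (fun _ => 0) :=
  ⟨fun _ => 0, fun t => by simp⟩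

theorem p10_const {A B : ℤ} {P : ℝ → ℂ} (hP : TP A B P) (a : ℂ) : TP A B (fun t => a * P t) := by
  obtain ⟨c, hc⟩ := hP
  refine ⟨fun n => a * c n, fun t => ?_⟩
  dsimp only
  rw [hc, mul_sum]
  exact sum_congr rfl fun n _ => by ring

theorem p10_sum {ι : Type} {A B : ℤ} (s : Finset ι) {P : ι → ℝ → ℂ} (hP : ∀ i ∈ s, TP A B (P i)) :
    TP A B (fun t => ∑ i ∈ s, P i t) := by
  classical
  induction s using Finset.induction_on with
  | empty => simpa using p10_zero A B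
  | insert i s hi ih =>
    have h1 : (fun t => ∑ j ∈ insert i s, P j t) = fun t => P i t + ∑ j ∈ s, P j t := by
      funext t
      rw [sum_insert hi]
    rw [h1]
    exact p10_add (hP i (mem_insert_self _ _)) (ih fun j hj => hP j (mem_insert_of_mem hj))

theorem p10_congr {A B : ℤ} {P Q : ℝ → ℂ} (hP : TP A B P) (h : ∀ t, Q t = P t) : TP A B Q := by
  obtain ⟨c, hc⟩ := hP
  exact ⟨c, fun t => (h t).trans (hc t)⟩

theorem p10_mono {A B A' B' : ℤ} {P : ℝ → ℂ} (hP : TP A B P) (hA : A' ≤ A) (hB : B ≤ B') :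
    TP A' B' P := by
  obtain ⟨c, hc⟩ := hP
  refine p10_congr (p10_sum (Icc A B) (P := fun n t => c n * e (n * t)) fun n hn => ?_) hc
  rw [mem_Icc] at hn
  exact p10_single (by omega) (by omega) (c n)

theorem p10_mul {A B A' B' : ℤ} {P Q : ℝ → ℂ} (hP : TP A B P) (hQ : TP A' B' Q) :
    TP (A + A') (B + B') (fun t => P t * Q t) := by
  obtain ⟨c, hc⟩ := hP
  obtain ⟨d, hd⟩ := hQ
  refine p10_congr (p10_sum (Icc A B) (P := fun n t => ∑ m ∈ Icc A' B',
    (c n * d m) * e (((n + m : ℤ) : ℝ) * t)) fun n hn => ?_) fun t => ?_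
  · refine p10_sum _ fun m hm => ?_
    rw [mem_Icc] at hn hm
    exact p10_single (by omega) (by omega) _
  · rw [hc, hd, sum_mul_sum]
    refine sum_congr rfl fun n _ => sum_congr rfl fun m _ => ?_
    have h1 : (((n + m : ℤ) : ℝ)) * t = n * t + m * t := by
      push_cast
      ring
    rw [h1, e_add]
    ring

theorem p10_shift {A B : ℤ} {P : ℝ → ℂ} (hP : TP A B P) (s : ℝ) : TP A B (fun t => P (t - s)) := by
  obtain ⟨c, hc⟩ := hP
  refine ⟨fun n => c n * e (-(n * s)), fun t => ?_⟩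
  dsimp only
  rw [hc]
  refine sum_congr rfl fun n _ => ?_
  have h1 : (n : ℝ) * (t - s) = -(n * s) + n * t := by ring
  rw [h1, e_add]
  ring

theorem p10_nat {N : ℕ} (c : ℕ → ℂ) : TP 1 N (fun t => ∑ n ∈ Icc 1 N, c n * e (n * t)) := by
  refine p10_sum _ fun n hn => ?_
  rw [mem_Icc] at hn
  have h1 := p10_single (A := 1) (B := N) (k := (n : ℤ)) (by exact_mod_cast hn.1)
    (by exact_mod_cast hn.2) (c n)
  refine p10_congr h1 fun t => ?_
  push_cast
  rfl

theorem p10_cos (x : ℝ) : ((Real.cos (2 * Real.pi * x) : ℝ) : ℂ) = (1 / 2) * e x + (1 / 2) * e (-x) := by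
  have h1 : e (-x) = (starRingEnd ℂ) (e x) := e_neg x
  rw [h1, ← e_re]
  apply Complex.ext
  · simp
    ring
  · simp

theorem p10_vh (N K : ℕ) : TP (-(Mw N K : ℤ)) (Mw N K : ℤ) (fun t => ((vh N K t : ℝ) : ℂ)) := by
  refine p10_congr (p10_sum (Iw N K) (P := fun m t => ((vw N K m / 2 : ℝ) : ℂ) * e (m * t) +
    ((vw N K m / 2 : ℝ) : ℂ) * e (((-m : ℤ) : ℝ) * t)) fun m hm => ?_) fun t => ?_
  · unfold Iw at hm
    rw [mem_Icc] at hm
    exact p10_add (p10_single (by omega) (by omega) _) (p10_single (by omega) (by omega) _)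
  · unfold vh
    rw [Complex.ofReal_sum]
    refine sum_congr rfl fun m _ => ?_
    rw [Complex.ofReal_mul, p10_cos]
    have h1 : (((-m : ℤ) : ℝ)) * t = -(m * t) := by
      push_cast
      ring
    rw [h1]
    push_cast
    ring

theorem p10_vh2 (N K : ℕ) (s : ℝ) : TP (-(2 * (Mw N K : ℤ))) (2 * (Mw N K : ℤ))
    (fun t => ((vh N K (t - s) ^ 2 : ℝ) : ℂ)) := by
  have h1 := p10_shift (p10_mul (p10_vh N K) (p10_vh N K)) s
  refine p10_mono (p10_congr h1 fun t => ?_) (by omega) (by omega)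
  push_cast
  ring

theorem p10_Wt (N K : ℕ) : TP (-(2 * (Mw N K : ℤ))) (2 * (Mw N K : ℤ))
    (fun t => ((1 - Wt N K t : ℝ) : ℂ)) := by
  have h1 : TP (-(2 * (Mw N K : ℤ))) (2 * (Mw N K : ℤ)) (fun t => ((Wt N K t : ℝ) : ℂ)) := by
    refine p10_congr (p10_sum (Icc 1 K) (P := fun r t => ∑ c ∈ Cd r,
      ((vh N K (t - c / r) ^ 2 : ℝ) : ℂ)) fun r _ => p10_sum _ fun c _ => p10_vh2 N K _)
      fun t => ?_
    unfold Wt
    rw [Complex.ofReal_sum]
    refine sum_congr rfl fun r _ => ?_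
    rw [Complex.ofReal_sum]
  have h2 := p10_add (p10_single (A := -(2 * (Mw N K : ℤ))) (B := 2 * (Mw N K : ℤ)) (k := 0)
    (by omega) (by omega) 1) (p10_const h1 (-1))
  refine p10_congr h2 fun t => ?_
  have h3 : (((0 : ℤ) : ℝ)) * t = 0 := by simp
  rw [h3, e_zero]
  push_cast
  ring

theorem p10_Ps (N : ℕ) : TP 1 N (Ps N) := by
  refine p10_congr (p10_nat (N := N) fun n => (aS N n : ℂ)) fun t => ?_
  rfl

theorem p10_In (N : ℕ) : TP 1 N (In N) := by
  refine p10_congr (p10_nat (N := N) fun _ => 1) fun t => ?_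
  unfold In
  exact sum_congr rfl fun n _ => (one_mul _).symm

theorem p10_fh (N K : ℕ) :
    TP (1 - 2 * (Mw N K : ℤ)) (N + 2 * (Mw N K : ℤ)) (fh N K) := by
  have h1 := p10_mul (p10_Ps N) (p10_Wt N K)
  refine p10_mono (p10_congr h1 fun t => rfl) (by omega) (by omega)

theorem p10_gh (N K : ℕ) :
    TP (1 - 2 * (Mw N K : ℤ)) (N + 2 * (Mw N K : ℤ)) (gh N K) := by
  refine p10_congr (p10_sum (Icc 1 K) (P := fun r t => ∑ c ∈ Cd r,
    ((mr r : ℝ) : ℂ) * (((vh N K (t - c / r) ^ 2 : ℝ) : ℂ) * In N (t - c / r)))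
    fun r _ => p10_sum _ fun c _ => ?_) fun t => ?_
  · refine p10_const ?_ _
    exact p10_mono (p10_mul (p10_vh2 N K _) (p10_shift (p10_In N) _)) (by omega) (by omega)
  · unfold gh
    refine sum_congr rfl fun r _ => sum_congr rfl fun c _ => ?_
    push_cast
    ring

theorem p10_Fh (N K : ℕ) :
    TP (1 - 2 * (Mw N K : ℤ)) (N + 2 * (Mw N K : ℤ)) (Fh N K) := by
  have h0 : ∀ (r c : ℕ), TP 1 N (fun t => Xc N c r t) := by
    intro r c
    refine p10_congr (p10_add (p10_Ps N) (p10_const (p10_shift (p10_In N) (c / r))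
      (-((mr r : ℝ) : ℂ)))) fun t => ?_
    unfold Xc
    ring
  refine p10_congr (p10_sum (Icc 1 K) (P := fun r t => ∑ c ∈ Cd r,
    (((vh N K (t - c / r) ^ 2 : ℝ) : ℂ) * Xc N c r t))
    fun r _ => p10_sum _ fun c _ => ?_) fun t => rfl
  exact p10_mono (p10_mul (p10_vh2 N K _) (h0 r c)) (by omega) (by omega)

theorem p10_Mw {N K : ℕ} (h : Rg K N) : 4 * (Mw N K : ℤ) + 1 ≤ N := by
  have hK1 : (10 : ℝ) ≤ K := by exact_mod_cast h.hK
  have hN1 : (K : ℝ) ^ 400 ≤ N := by exact_mod_cast h.hN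
  have hN10 : (10 : ℝ) ≤ N := by
    have h1 : (K : ℝ) ^ 1 ≤ (K : ℝ) ^ 400 := pow_le_pow_right₀ (by linarith) (by norm_num)
    rw [pow_one] at h1
    linarith
  have hL : Real.log N ≤ K := by
    by_cases h1 : Real.log N ≤ 1
    · linarith
    · push Not at h1
      have h2 : Real.log N ^ 1 ≤ Real.log N ^ 100 := pow_le_pow_right₀ h1.le (by norm_num)
      rw [pow_one] at h2
      exact h2.trans h.hL
  have hL0 : 0 ≤ Real.log N := Real.log_nonneg (by linarith)
  have h1 : (Mw N K : ℝ) ≤ Hw N K * Real.log N := by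
    unfold Mw
    exact Nat.floor_le (mul_nonneg (by unfold Hw; positivity) hL0)
  have h2 : Hw N K * Real.log N ≤ (N : ℝ) / 10 := by
    unfold Hw
    have h3 : (N : ℝ) / (K : ℝ) ^ 8 * Real.log N ≤ (N : ℝ) / (K : ℝ) ^ 8 * K :=
      mul_le_mul_of_nonneg_left hL (by positivity)
    have h4 : (N : ℝ) / (K : ℝ) ^ 8 * K = (N : ℝ) / (K : ℝ) ^ 7 := by
      have : (K : ℝ) ≠ 0 := by linarith
      field_simp
    rw [h4] at h3
    refine h3.trans (div_le_div_of_nonneg_left (by positivity) (by norm_num) ?_)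
    have h5 : (K : ℝ) ^ 1 ≤ (K : ℝ) ^ 7 := pow_le_pow_right₀ (by linarith) (by norm_num)
    rw [pow_one] at h5
    linarith
  have h3 : 4 * (Mw N K : ℝ) + 1 ≤ N := by linarith
  exact_mod_cast h3

/-- P10 -/
theorem W10_pr : W10 := by
  refine ⟨0, fun K _ N h => ⟨p10_Mw h, p10_fh N K, p10_gh N K, p10_Fh N K⟩⟩

end Pool.Agent.FGP
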