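import Pool.Agent.Lib_helper3.FGP.Wanted

set_option autoImplicit false

namespace Pool.Agent.FGP

open Finset Pool.Agent.Var35 Pool.Agent.Var73 Pool.Agent.PV
open scoped ArithmeticFunction ArithmeticFunction.Moebius

theorem p18_VQ_nonneg (P : ℝ → ℂ) (Q : ℕ) : 0 ≤ VQ P Q := by
  unfold VQ
  positivity

/-- Minkowski -/
theorem p18_mink (P F : ℝ → ℂ) (Q : ℕ) :
    |VQ (fun t => P t + F t) Q - VQ P Q| ≤ 2 * Real.sqrt (VQ P Q * VQ F Q) + VQ F Q := by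
  set w : ℝ := 1 / (Q : ℝ) with hw
  have hw0 : 0 ≤ w := by positivity
  have h1 : ∀ b : ℕ, |‖P (b / Q) + F (b / Q)‖ ^ 2 - ‖P (b / Q)‖ ^ 2| ≤
      2 * (‖P (b / Q)‖ * ‖F (b / Q)‖) + ‖F (b / Q)‖ ^ 2 := by
    intro b
    set x : ℂ := P (b / Q)
    set y : ℂ := F (b / Q)
    have h2 : ‖x + y‖ ≤ ‖x‖ + ‖y‖ := norm_add_le _ _
    have h3 : ‖x‖ - ‖y‖ ≤ ‖x + y‖ := by
      have := norm_sub_norm_le x (-y)
      rw [norm_neg, sub_neg_eq_add] at this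
      exact this
    have h4 : ‖y‖ - ‖x‖ ≤ ‖x + y‖ := by
      have := norm_sub_norm_le y (-x)
      rw [norm_neg, sub_neg_eq_add, add_comm y x] at this
      exact this
    have hx := norm_nonneg x
    have hy := norm_nonneg y
    have hxy := norm_nonneg (x + y)
    rw [abs_le]
    constructor
    · nlinarith
    · nlinarith
  have h2 : |VQ (fun t => P t + F t) Q - VQ P Q| ≤
      w * ∑ b ∈ Ico 1 Q, (2 * (‖P (b / Q)‖ * ‖F (b / Q)‖) + ‖F (b / Q)‖ ^ 2) := by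
    unfold VQ
    rw [← hw, ← mul_sub, abs_mul, abs_of_nonneg hw0, ← sum_sub_distrib]
    refine mul_le_mul_of_nonneg_left ?_ hw0
    exact (abs_sum_le_sum_abs _ _).trans (sum_le_sum fun b _ => h1 b)
  refine h2.trans ?_
  rw [sum_add_distrib, ← mul_sum, mul_add]
  have h3 : w * ∑ b ∈ Ico 1 Q, ‖F (b / Q)‖ ^ 2 = VQ F Q := rfl
  rw [h3]
  have h4 : (∑ b ∈ Ico 1 Q, ‖P (b / Q)‖ * ‖F (b / Q)‖) ^ 2 ≤
      (∑ b ∈ Ico 1 Q, ‖P (b / Q)‖ ^ 2) * ∑ b ∈ Ico 1 Q, ‖F (b / Q)‖ ^ 2 :=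
    sum_mul_sq_le_sq_mul_sq _ _ _
  have h5 : w * ∑ b ∈ Ico 1 Q, ‖P (b / Q)‖ * ‖F (b / Q)‖ ≤ Real.sqrt (VQ P Q * VQ F Q) := by
    apply Real.le_sqrt_of_sq_le
    unfold VQ
    rw [← hw]
    calc (w * ∑ b ∈ Ico 1 Q, ‖P (b / Q)‖ * ‖F (b / Q)‖) ^ 2 =
        w ^ 2 * (∑ b ∈ Ico 1 Q, ‖P (b / Q)‖ * ‖F (b / Q)‖) ^ 2 := by ring
      _ ≤ w ^ 2 * ((∑ b ∈ Ico 1 Q, ‖P (b / Q)‖ ^ 2) * ∑ b ∈ Ico 1 Q, ‖F (b / Q)‖ ^ 2) :=
          mul_le_mul_of_nonneg_left h4 (sq_nonneg _)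
      _ = _ := by ring
  linarith

/-- summed over the moduli -/
theorem p18_mink_sum (P F : ℝ → ℂ) (T : Finset ℕ) :
    ∑ Q ∈ T, |VQ (fun t => P t + F t) Q - VQ P Q| ≤
      2 * Real.sqrt ((∑ Q ∈ T, VQ P Q) * ∑ Q ∈ T, VQ F Q) + ∑ Q ∈ T, VQ F Q := by
  refine (sum_le_sum fun Q _ => p18_mink P F Q).trans ?_
  rw [sum_add_distrib, ← mul_sum]
  have h1 : ∑ Q ∈ T, Real.sqrt (VQ P Q * VQ F Q) ≤
      Real.sqrt ((∑ Q ∈ T, VQ P Q) * ∑ Q ∈ T, VQ F Q) := by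
    apply Real.le_sqrt_of_sq_le
    have h2 : ∀ Q ∈ T, Real.sqrt (VQ P Q * VQ F Q) = Real.sqrt (VQ P Q) * Real.sqrt (VQ F Q) :=
      fun Q _ => Real.sqrt_mul (p18_VQ_nonneg P Q) _
    rw [sum_congr rfl h2]
    refine (sum_mul_sq_le_sq_mul_sq _ _ _).trans (le_of_eq ?_)
    congr 1
    · exact sum_congr rfl fun Q _ => Real.sq_sqrt (p18_VQ_nonneg P Q)
    · exact sum_congr rfl fun Q _ => Real.sq_sqrt (p18_VQ_nonneg F Q)
  linarith

/-- `VQ` and `VA` -/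
theorem p18_VA (P : ℝ → ℂ) (Q : ℕ) (hQ : 1 ≤ Q) : VQ P Q = VA P Q - ‖P 0‖ ^ 2 / Q := by
  have h1 : range Q = insert 0 (Ico 1 Q) := by
    ext x
    simp only [mem_range, mem_insert, mem_Ico]
    omega
  have h2 : (0 : ℕ) ∉ Ico 1 Q := by simp
  unfold VQ VA
  rw [h1, sum_insert h2]
  have : P ((0 : ℕ) / (Q : ℝ)) = P 0 := by simp
  rw [this]
  ring

/-- number of the moduli -/
theorem p18_card : ∃ C : ℝ, 0 < C ∧ ∃ K0 : ℕ, ∀ K ≥ K0, ∀ N, Rg K N → ∀ Y, RY K N Y →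
    ((QQ Y).card : ℝ) ≤ C * (Y / Real.log N) := by
  obtain ⟨C, hC, h⟩ := bt_pr
  refine ⟨6 * C, by positivity, 10, fun K hK N hR Y hY => ?_⟩
  have hKN : K ^ 400 ≤ N := hR.hN
  have hK1 : 10 ≤ K := hR.hK
  have hN10 : 10 ≤ N := by
    calc 10 ≤ K := hK1
      _ = K ^ 1 := (pow_one K).symm
      _ ≤ K ^ 400 := Nat.pow_le_pow_right (by omega) (by norm_num)
      _ ≤ N := hKN
  have hNR : (10 : ℝ) ≤ N := by exact_mod_cast hN10
  have hL0 : 0 < Real.log N := Real.log_pos (by linarith)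
  have hY1 : 1 ≤ Y := hY.hY1
  have hYR : (1 : ℝ) ≤ Y := by exact_mod_cast hY1
  have h1 := h 1 (3 * Y) Y 0 le_rfl (by omega)
  have h2 : ((QQ Y).card : ℝ) ≤ (((Ioc Y (Y + 3 * Y)).filter
      (fun p => p.Prime ∧ p ≡ 0 [MOD 1])).card : ℝ) := by
    have : QQ Y ⊆ (Ioc Y (Y + 3 * Y)).filter (fun p => p.Prime ∧ p ≡ 0 [MOD 1]) := by
      intro p hp
      unfold QQ at hp
      rw [mem_filter, mem_Ioc] at hp ⊢
      refine ⟨⟨hp.1.1, ?_⟩, hp.2, ?_⟩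
      · have := hp.1.2
        omega
      · exact Nat.modEq_one
    exact_mod_cast card_le_card this
  -- `log (3 Y) ≥ log N / 2`
  have h3 : Real.log N / 2 ≤ Real.log (((3 * Y : ℕ) : ℝ) / ((1 : ℕ) : ℝ)) := by
    have h4 : N ≤ Y ^ 2 := by
      have h5 : N ^ 16 ≤ Y ^ 16 * K := hY.hY
      by_contra hc
      push Not at hc
      have h6 : (Y ^ 2) ^ 8 * K < N ^ 8 * N ^ 8 ∨ (Y ^ 2) ^ 8 * K < N ^ 16 := by
        right
        have h7 : (Y ^ 2) ^ 8 < N ^ 8 := Nat.pow_lt_pow_left hc (by norm_num)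
        have h8 : K ≤ N ^ 8 := by
          calc K = K ^ 1 := (pow_one K).symm
            _ ≤ K ^ 400 := Nat.pow_le_pow_right (by omega) (by norm_num)
            _ ≤ N := hKN
            _ = N ^ 1 := (pow_one N).symm
            _ ≤ N ^ 8 := Nat.pow_le_pow_right (by omega) (by norm_num)
        calc (Y ^ 2) ^ 8 * K < N ^ 8 * K := Nat.mul_lt_mul_of_pos_right h7 (by omega)
          _ ≤ N ^ 8 * N ^ 8 := Nat.mul_le_mul_left _ h8
          _ = N ^ 16 := by ring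
      have h7 : (Y ^ 2) ^ 8 * K = Y ^ 16 * K := by ring
      rcases h6 with h6 | h6
      · rw [h7] at h6
        have : N ^ 8 * N ^ 8 = N ^ 16 := by ring
        omega
      · rw [h7] at h6
        omega
    have h5 : (N : ℝ) ≤ (Y : ℝ) ^ 2 := by exact_mod_cast h4
    have h6 : Real.log N ≤ 2 * Real.log Y := by
      have := Real.log_le_log (by linarith) h5
      rw [Real.log_pow] at this
      exact_mod_cast this
    have h7 : Real.log Y ≤ Real.log (((3 * Y : ℕ) : ℝ) / ((1 : ℕ) : ℝ)) := by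
      apply Real.log_le_log (by linarith)
      push_cast
      linarith
    linarith
  refine h2.trans (h1.trans ?_)
  rw [Nat.totient_one]
  have h8 : 0 < Real.log (((3 * Y : ℕ) : ℝ) / ((1 : ℕ) : ℝ)) := by linarith
  rw [mul_div_assoc', div_le_div_iff₀ (by positivity) hL0]
  push_cast at h3 h8 ⊢
  have h9 : 0 < C * Y := by positivity
  nlinarith

/-- the main identity -/
theorem p18_ident (N Q : ℝ) (hN : 0 < N) (hQ : 0 < Q) :
    (N * Real.log N - N) + 2 * (Q * mainT (N / Q)) - N ^ 2 / Q =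
      N * (Real.log Q - Real.eulerMascheroniConstant - Real.log (2 * Real.pi)) := by
  unfold mainT
  rw [Real.log_div hN.ne' hQ.ne']
  field_simp
  ring

end Pool.Agent.FGP
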