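import Pool.Agent.Lib_helper3.FGP.Wanted

/-!
# FGP: the effective versions of the blocks
-/

set_option autoImplicit false

namespace Pool.Agent.FGP

open Finset Pool.Agent.Var35 Pool.Agent.Var73 Pool.Agent.PV
open scoped ArithmeticFunction ArithmeticFunction.Moebius

/-- E14d : `Ps1` with a power saving.  Proof: as P14d, with the first `M = ⌊x^(1/4)⌋` blocks
(`p14d_split`, `p14d_block`): `p14d_S2 y = π²/6 - 1/y + O(1/y²)`, `p14d_S1 y = log y + γ + O(1/y)`,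
`⌊y⌋ = y + O(1)`, so block `n` costs `O(n²)` and all of them `O(M³)`; the rest is between `0` and
`x/(M+1)`; `p14d_bsum M = 2 - log 2π + O(1/M)` by Stirling's formula with its rate; for `x ≤ 1` both
sides are trivial -/
def E14d : Prop := ∃ C : ℝ, 0 < C ∧ ∀ x : ℝ, 0 < x →
  |Ps1 x - (Real.pi ^ 2 / 12 * x ^ 2 - x / 2 * Real.log x +
    x / 2 * (1 - Real.eulerMascheroniConstant - Real.log (2 * Real.pi)))| ≤ C * x ^ (3 / 4 : ℝ)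

/-- E14c : the function `b` is summable with a power to spare (Euler product: `|b(2)| = 1`,
`|b(p)| = 2/(p-2)`, `|b(p²)| = p/(p-2)`) -/
def E14c : Prop := Summable (fun d : ℕ => |bb d| / (d : ℝ) ^ (3 / 4 : ℝ))

/-- E14 : the singular series with a power saving.  Proof: as P14, from W14a, W14t, W14b, W14c,
E14c, E14d: the error is at most `C ∑ |b(d)| (Z/d)^(3/4) + C Z³/√K` -/
def E14 : Prop := ∃ C : ℝ, 0 < C ∧ ∀ (Z : ℝ) (K : ℕ), 0 < Z → 1 ≤ K → Z ^ 8 ≤ K →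
  |∑ k ∈ Icc 1 ⌊Z⌋₊, SK K k * (Z - k) - mainT Z| ≤ C * Z ^ (3 / 4 : ℝ)

/-- E15 : second moment from the energy.  Proof: let `φ(n) = log (max n 1)` on the indices of `EE`.
`∑_n φ(n) (∑_p aS(p) v(p-n)) = ∑_p aS(p) (φ*v)(p)` and `|(φ*v)(p) - log p| ≤ C log N / K^5` for
`p ≥ N/K³` (`|m| ≤ Mw ≤ N log N/K^8`), `≤ 2 log N` for all `p`; Chebyshev for `p ≤ N/K³`.  The same with
`∑_{m ≤ N} v(m-n)`: `∑_{m ≤ N} log m = N log N - N + O(log N)`.  The difference of the two is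
`∑ φ(n) T0(n)`, at most `log N · √(2N) · √(∑ T0²) ≤ 2 log N √(N EE)` -/
def E15 : Prop := ∃ C : ℝ, 0 < C ∧ ∃ K0 : ℕ, ∀ K ≥ K0, ∀ N, Rg K N →
  |A2 N - (N * Real.log N - N)| ≤ C * Real.log N * (Real.sqrt (N * EE N K) + N / K)

/-- E18 : the main theorem, effective -/
def E18 : Prop := ∀ c₁ : ℝ, 0 < c₁ → ∃ C c B : ℝ, 0 < C ∧ 0 < c ∧ 1 ≤ B ∧ ∃ K0 : ℕ, ∀ K ≥ K0,
  ∀ N D : ℕ, Rg K N → Pool.Agent.GA.Good c₁ D → K ^ 20 ≤ D → (D : ℝ) ^ B ≤ N → ∀ Y, RY K N Y →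
  ∑ Q ∈ QQ Y, max 0 (|SQ N Q - N * (Real.log Q - Real.eulerMascheroniConstant -
      Real.log (2 * Real.pi))| - C * N * ((Y : ℝ) / N) ^ (1 / 4 : ℝ)) ≤
    C * (Real.exp (-(c * Real.log N / Real.log D)) + 1 / (K : ℝ) ^ (1 / 400 : ℝ)) * N * Y

/-- the final statement, effective -/
def WALLE : Prop := ∃ S : Set ℕ, ¬ BddAbove S ∧ ∃ c C B X₀ : ℝ, 0 < c ∧ 0 < C ∧ 1 ≤ B ∧
  (∀ D ∈ S, ∀ X Y : ℝ, (D : ℝ) ^ B ≤ X → X ≤ Real.exp ((D : ℝ) ^ c) →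
    X * (D : ℝ) ^ (-c) ≤ Y → Y ≤ X / 2 →
    ∑ Q ∈ QR Y, max 0 (|GV X Q - PV0 X Q - MTQ X Q| - C * X * (Y / X) ^ (1 / 4 : ℝ)) ≤
      C * (Real.exp (-(c * Real.log X / Real.log D)) + (D : ℝ) ^ (-c)) * Real.log X * X *
        (Y / Real.log Y)) ∧
  (∀ D ∈ S, ∀ N : ℕ, (D : ℝ) ^ B ≤ N → (N : ℝ) ≤ Real.exp ((D : ℝ) ^ c) →
    |∑ n ∈ Icc 1 N, ArithmeticFunction.vonMangoldt n - N| ≤ (N : ℝ) ^ (3 / 4 : ℝ) →
    ∀ Y : ℝ, N * (D : ℝ) ^ (-c) ≤ Y → Y ≤ N / 2 →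
    ∑ Q ∈ QR Y, max 0 (|GV N Q - MTQ N Q| - C * N * (Y / N) ^ (1 / 4 : ℝ)) ≤
      C * (Real.exp (-(c * Real.log N / Real.log D)) + (D : ℝ) ^ (-c)) * Real.log N * N *
        (Y / Real.log Y)) ∧
  (∀ x : ℝ, X₀ ≤ x → ∃ N : ℕ, x ≤ N ∧ (N : ℝ) ≤ x ^ 40 ∧
    |∑ n ∈ Icc 1 N, ArithmeticFunction.vonMangoldt n - N| ≤ (N : ℝ) ^ (3 / 4 : ℝ))

end Pool.Agent.FGP
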